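import Pool.Agent.Q197.WN.PP
import Pool.Agent.Q120.ET.Construct

/-!
# Random sets with independent blocks, for arbitrary disjoint blocks
-/

set_option autoImplicit false

namespace Pool.Agent.Q197.WN

open Finset MeasureTheory Filter Pool.Agent.Q120.TT Pool.Agent.Q120.ET ProbabilityTheory

/-- The random set built from the blocks. -/
def bset (B : ℕ → Finset ℕ) (ω : ℕ → Finset ℕ) : Set ℕ := {n | ∃ k, n ∈ B k ∧ n ∈ ω k}

/-- The law of independent blocks. -/
noncomputable def blaw (B : ℕ → Finset ℕ) (R : ℕ → Finset ℕ → ℝ) : Measure (ℕ → Finset ℕ) :=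
  Measure.infinitePi fun k => blockMeasure (B k) (R k)

theorem mem_bset {B : ℕ → Finset ℕ} (hB : ∀ i j, i ≠ j → Disjoint (B i) (B j)) {k n : ℕ} (hn : n ∈ B k)
    (ω : ℕ → Finset ℕ) : n ∈ bset B ω ↔ n ∈ ω k := by
  constructor
  · rintro ⟨j, h1, h2⟩
    by_cases h : j = k
    · rw [← h]; exact h2
    · exact absurd hn (disjoint_left.1 (hB j k h) h1)
  · exact fun h => ⟨k, hn, h⟩

theorem isRandomSet_bset (B : ℕ → Finset ℕ) : IsRandomSet (fun ω : ℕ → Finset ℕ => bset B ω) := by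
  intro n
  have h1 : {ω : ℕ → Finset ℕ | n ∈ bset B ω} = ⋃ k, ⋃ (_ : n ∈ B k), (fun ω => ω k) ⁻¹' {T | n ∈ T} := by
    ext ω
    simp [bset]
  rw [h1]
  exact MeasurableSet.iUnion fun k => MeasurableSet.iUnion fun _ => (measurable_pi_apply _) MeasurableSet.of_discrete

section

variable {p : ℕ → ℝ} {B : ℕ → Finset ℕ} {R : ℕ → Finset ℕ → ℝ}

theorem prob_blk (hR : ∀ k, IsLaw p (B k) (R k)) (k : ℕ) : IsProbabilityMeasure (blockMeasure (B k) (R k)) :=
  isProb_blockMeasure (hR k).nonneg (hR k).total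

theorem isProb_blaw (hR : ∀ k, IsLaw p (B k) (R k)) : IsProbabilityMeasure (blaw B R) := by
  haveI : ∀ k, IsProbabilityMeasure (blockMeasure (B k) (R k)) := prob_blk hR
  unfold blaw
  infer_instance

theorem blaw_pre (hR : ∀ k, IsLaw p (B k) (R k)) (k : ℕ) (s : Set (Finset ℕ)) :
    blaw B R ((fun ω => ω k) ⁻¹' s) = blockMeasure (B k) (R k) s := by
  haveI : ∀ k, IsProbabilityMeasure (blockMeasure (B k) (R k)) := prob_blk hR
  exact (measurePreserving_eval_infinitePi (fun k => blockMeasure (B k) (R k)) k).measure_preimage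
    (MeasurableSet.of_discrete).nullMeasurableSet

theorem indep_blaw (hR : ∀ k, IsLaw p (B k) (R k)) (s : ℕ → Set (Finset ℕ)) :
    iIndepSet (fun k => (fun ω : ℕ → Finset ℕ => ω k) ⁻¹' s k) (blaw B R) := by
  haveI : ∀ k, IsProbabilityMeasure (blockMeasure (B k) (R k)) := prob_blk hR
  rw [iIndepSet_iff_meas_biInter (fun k => (measurable_pi_apply k) MeasurableSet.of_discrete)]
  intro S
  exact (iIndepFun_infinitePi (P := fun k => blockMeasure (B k) (R k)) (X := fun _ x => x)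
      (fun _ => measurable_id)).measure_inter_preimage_eq_mul S (fun _ _ => MeasurableSet.of_discrete)

theorem law_bset (hB : ∀ i j, i ≠ j → Disjoint (B i) (B j)) (hR : ∀ k, IsLaw p (B k) (R k)) (k : ℕ) {T : Finset ℕ}
    (hT : T ∈ (B k).powerset) : lawOn (blaw B R) (fun ω => bset B ω) (B k) T = R k T := by
  classical
  have h1 : {ω : ℕ → Finset ℕ | ∀ n ∈ B k, (n ∈ bset B ω ↔ n ∈ T)} =
      (fun ω => ω k) ⁻¹' {S | ∀ n ∈ B k, (n ∈ S ↔ n ∈ T)} := by
    ext ω
    simp only [Set.mem_ofPred_eq, Set.mem_preimage]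
    constructor
    · intro h n hn
      rw [← mem_bset hB hn]; exact h n hn
    · intro h n hn
      rw [mem_bset hB hn]; exact h n hn
  rw [lawOn, Measure.real, h1, blaw_pre hR, blockMeasure_apply (hR k).nonneg]
  have h2 : (B k).powerset.filter (fun S => S ∈ {S : Finset ℕ | ∀ n ∈ B k, (n ∈ S ↔ n ∈ T)}) = {T} := by
    ext S
    simp only [mem_filter, mem_powerset, Set.mem_ofPred_eq, mem_singleton]
    constructor
    · rintro ⟨h3, h4⟩
      ext n
      constructor
      · intro hn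
        exact (h4 n (h3 hn)).1 hn
      · intro hn
        exact (h4 n (mem_powerset.1 hT hn)).2 hn
    · rintro rfl
      exact ⟨mem_powerset.1 hT, fun _ _ => Iff.rfl⟩
  rw [h2, sum_singleton, ENNReal.toReal_ofReal ((hR k).nonneg T hT)]

theorem bset_ae (hR : ∀ k, IsLaw p (B k) (R k)) : ∀ᵐ ω ∂(blaw B R), ∀ k, ω k ⊆ B k ∧ R k (ω k) ≠ 0 := by
  classical
  rw [ae_all_iff]
  intro k
  have h1 : blaw B R ((fun ω => ω k) ⁻¹' {T | ¬ (T ⊆ B k ∧ R k T ≠ 0)}) = 0 := by
    rw [blaw_pre hR, blockMeasure_apply (hR k).nonneg]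
    have h2 : ∑ T ∈ (B k).powerset with T ∈ {T | ¬ (T ⊆ B k ∧ R k T ≠ 0)}, R k T = 0 := by
      refine sum_eq_zero fun T hT => ?_
      rw [mem_filter, mem_powerset] at hT
      by_contra hne
      exact hT.2 ⟨hT.1, hne⟩
    rw [h2, ENNReal.ofReal_zero]
  exact h1

theorem tr_bset (hB : ∀ i j, i ≠ j → Disjoint (B i) (B j)) {ω : ℕ → Finset ℕ} {k : ℕ} (h : ω k ⊆ B k) :
    tr (fun ω : ℕ → Finset ℕ => bset B ω) (B k) ω = ω k := by
  ext n
  rw [mem_tr]
  constructor
  · rintro ⟨h1, h2⟩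
    exact (mem_bset hB h1 ω).1 h2
  · intro hn
    exact ⟨h hn, (mem_bset hB (h hn) ω).2 hn⟩

theorem pos_bset (hp : ∀ n, 0 ≤ p n) (hR : ∀ k, IsLaw p (B k) (R k)) {ω : ℕ → Finset ℕ}
    (h : ∀ k, ω k ⊆ B k ∧ R k (ω k) ≠ 0) : ∀ n ∈ bset B ω, 0 < p n := by
  rintro n ⟨k, hn, h1⟩
  obtain ⟨h2, h3⟩ := h k
  refine lt_of_le_of_ne (hp n) fun h0 => ?_
  apply h3
  apply (hR _).cont _ (mem_powerset.2 h2)
  unfold prodOn
  rw [prod_eq_zero h1 h0.symm, zero_mul]

/-- Existence of random sets with given independent laws of the blocks; second Borel–Cantelli lemma. -/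
theorem exi (hB : ∀ i j, i ≠ j → Disjoint (B i) (B j)) (hR : ∀ k, IsLaw p (B k) (R k)) (hp : ∀ n, 0 ≤ p n) :
    ∃ (Ω : Type) (_ : MeasurableSpace Ω) (μ : Measure Ω) (_ : IsProbabilityMeasure μ) (A : Ω → Set ℕ),
      IsRandomSet A ∧ (∀ᵐ ω ∂μ, ∀ n ∈ A ω, 0 < p n) ∧ (∀ k, ∀ T ∈ (B k).powerset, lawOn μ A (B k) T = R k T) ∧
        ∀ s : ℕ → Finset ℕ → Prop, ¬ Summable (fun k => μ.real {ω | s k (tr A (B k) ω)}) →
          ∀ᵐ ω ∂μ, ∃ᶠ k in atTop, s k (tr A (B k) ω) := by
  classical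
  have hprob : IsProbabilityMeasure (blaw B R) := isProb_blaw hR
  refine ⟨ℕ → Finset ℕ, inferInstance, blaw B R, hprob, fun ω => bset B ω, isRandomSet_bset B, ?_, ?_, ?_⟩
  · filter_upwards [bset_ae hR] with ω hω
    exact pos_bset hp hR hω
  · intro k T hT
    exact law_bset hB hR k hT
  · intro s hs
    have h1 : ∀ k, (blaw B R) {ω | s k (tr (fun ω : ℕ → Finset ℕ => bset B ω) (B k) ω)} =
        (blaw B R) ((fun ω : ℕ → Finset ℕ => ω k) ⁻¹' {T | s k T}) := by
      intro k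
      apply measure_congr
      filter_upwards [bset_ae hR] with ω hω
      apply propext
      change s k (tr _ (B k) ω) ↔ s k (ω k)
      rw [tr_bset hB (hω k).1]
    have h2 : ∑' k, (blaw B R) ((fun ω : ℕ → Finset ℕ => ω k) ⁻¹' {T | s k T}) = ⊤ := by
      by_contra hne
      apply hs
      have h3 := ENNReal.summable_toReal hne
      refine h3.congr fun k => ?_
      rw [Measure.real, h1 k]
    have h3 := measure_limsup_eq_one (μ := blaw B R)
      (s := fun k => (fun ω : ℕ → Finset ℕ => ω k) ⁻¹' {T | s k T})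
      (fun k => (measurable_pi_apply k) MeasurableSet.of_discrete)
      (indep_blaw hR fun k => {T | s k T}) h2
    have h4 : MeasurableSet (limsup (fun k => (fun ω : ℕ → Finset ℕ => ω k) ⁻¹' {T | s k T}) atTop) :=
      MeasurableSet.measurableSet_limsup fun k => (measurable_pi_apply k) MeasurableSet.of_discrete
    have h5 : ∀ᵐ ω ∂(blaw B R),
        ω ∈ limsup (fun k => (fun ω : ℕ → Finset ℕ => ω k) ⁻¹' {T | s k T}) atTop := by
      rw [← prob_compl_eq_zero_iff h4] at h3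
      exact h3
    filter_upwards [h5, bset_ae hR] with ω hω hω2
    rw [mem_limsup_iff_frequently_mem] at hω
    refine hω.mono fun k hk => ?_
    rw [tr_bset hB (hω2 k).1]
    exact hk

end

end Pool.Agent.Q197.WN
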