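import Pool.Agent.Q197.WN.PP

/-!
# The number of patterns in one window
-/

set_option autoImplicit false

namespace Pool.Agent.Q197.WN

open Finset MeasureTheory Filter Pool.Agent.Q120.TT Pool.Agent.Q120.ET Pool.Agent.Q120.GM Pool.Agent.Q112.LE

open Classical in
/-- The number of the `i ∈ J` with `S ∩ s i = f i`. -/
noncomputable def cnt (J : Finset ℕ) (s f : ℕ → Finset ℕ) (S : Set ℕ) : ℕ :=
  (J.filter (fun i => ∀ x ∈ s i, (x ∈ S ↔ x ∈ f i))).card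

/-- Its expectation. -/
noncomputable def mean (p : ℕ → ℝ) (J : Finset ℕ) (s f : ℕ → Finset ℕ) : ℝ := ∑ i ∈ J, prodOn p (s i) (f i)

theorem F_pattern {Ω : Type} {A : Ω → Set ℕ} (s f : Finset ℕ) :
    MeasurableSet[F A ((s : Finset ℕ) : Set ℕ)] {ω | ∀ x ∈ s, (x ∈ A ω ↔ x ∈ f)} := by
  classical
  have h1 : {ω | ∀ x ∈ s, (x ∈ A ω ↔ x ∈ f)} =
      ⋂ n ∈ s, (if n ∈ f then {ω | n ∈ A ω} else {ω | n ∈ A ω}ᶜ) := by
    ext ω
    simp only [Set.mem_ofPred_eq, Set.mem_iInter]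
    refine forall₂_congr fun n _ => ?_
    by_cases hn : n ∈ f
    · rw [if_pos hn]; simp [hn]
    · rw [if_neg hn]; simp [hn]
  rw [h1]
  refine Finset.measurableSet_biInter s (fun n hn => ?_)
  by_cases hf : n ∈ f
  · rw [if_pos hf]
    exact F_mem (Finset.mem_coe.2 hn)
  · rw [if_neg hf]
    exact MeasurableSet.compl (F_mem (Finset.mem_coe.2 hn))

/-- Deviations of the number of patterns in a window. -/
theorem win_tail {p : ℕ → ℝ} (hp : ∀ n, 0 ≤ p n ∧ p n ≤ 1) {W J : Finset ℕ} {s f : ℕ → Finset ℕ}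
    (hs : ∀ i ∈ J, s i ⊆ W) (hf : ∀ i ∈ J, f i ⊆ s i) {κ : ℕ} (col : ℕ → ℕ) (hκ : 0 < κ) (hcol : ∀ i ∈ J, col i < κ)
    (hd : ∀ i ∈ J, ∀ j ∈ J, i ≠ j → col i = col j → Disjoint (s i) (s j)) {V t : ℝ} (hV : mean p J s f ≤ V) (ht : 0 < t) :
    PP p W (fun T => t ≤ |(cnt J s f ((T : Finset ℕ) : Set ℕ) : ℝ) - mean p J s f|) ≤
      2 * κ * Real.exp (-(t ^ 2 / (4 * (κ : ℝ) ^ 2 * (V + t)))) := by
  classical
  have hmod : IsModel (prodMeasure p) p (trueSet (ι := ℕ)) := isModel p (fun n => (hp n).1) (fun n => (hp n).2)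
  obtain ⟨A, hAd⟩ : ∃ A : (ℕ → Bool) → Set ℕ, A = trueSet (ι := ℕ) := ⟨_, rfl⟩
  rw [← hAd] at hmod
  have hA : IsRandomSet A := hmod.meas
  rw [PP_model hmod]
  obtain ⟨G, hGd⟩ : ∃ G : ℕ → Set (ℕ → Bool), G = fun i => {ω | ∀ x ∈ s i, (x ∈ A ω ↔ x ∈ f i)} := ⟨_, rfl⟩
  have hGm : ∀ n, MeasurableSet (G n) := fun n => by rw [hGd]; exact measurableSet_law hA _ _
  have hGr : ∀ i ∈ J, (prodMeasure p).real (G i) = prodOn p (s i) (f i) := by
    intro i hi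
    rw [hGd]
    exact Pool.Agent.Q150.TT.law_model hmod (s i) (f i) (hf i hi)
  have hκr : (0 : ℝ) < κ := by exact_mod_cast hκ
  obtain ⟨Jc, hJc⟩ : ∃ Jc : ℕ → Finset ℕ, Jc = fun c => J.filter fun n => col n = c := ⟨_, rfl⟩
  have hJmem : ∀ c n, n ∈ Jc c ↔ n ∈ J ∧ col n = c := fun c n => by rw [hJc, mem_filter]
  have hsum : ∀ g : ℕ → ℝ, ∑ n ∈ J, g n = ∑ c ∈ range κ, ∑ n ∈ Jc c, g n := by
    intro g
    rw [hJc]
    exact (sum_fiberwise_of_maps_to (fun n hn => mem_range.2 (hcol n hn)) g).symm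
  have hmut : ∀ c, Mutual (prodMeasure p) (Jc c) G := by
    intro c T hT
    apply indep_many hmod T (fun n => ((s n : Finset ℕ) : Set ℕ))
    · intro i hi j hj hij
      rw [Finset.disjoint_coe]
      have h1 := (hJmem c i).1 (hT hi)
      have h2 := (hJmem c j).1 (hT hj)
      exact hd i h1.1 j h2.1 hij (h1.2.trans h2.2.symm)
    · intro i _
      rw [hGd]
      exact F_pattern (s i) (f i)
  obtain ⟨Ec, hEc⟩ : ∃ Ec : ℕ → ℝ, Ec = fun c => ∑ n ∈ Jc c, (prodMeasure p).real (G n) := ⟨_, rfl⟩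
  have hE : mean p J s f = ∑ c ∈ range κ, Ec c := by
    unfold mean
    rw [hsum, hEc]
    exact sum_congr rfl fun c _ => sum_congr rfl fun n hn => (hGr n ((hJmem c n).1 hn).1).symm
  have hEc0 : ∀ c, 0 ≤ Ec c := fun c => by rw [hEc]; exact sum_nonneg fun _ _ => measureReal_nonneg
  have hcnt : ∀ ω, (cnt J s f ((tr A W ω : Finset ℕ) : Set ℕ) : ℝ) = ∑ c ∈ range κ, num (Jc c) G ω := by
    intro ω
    unfold cnt num
    rw [← hsum, card_filter]
    push_cast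
    refine sum_congr rfl fun i hi => ?_
    have h1 : (∀ x ∈ s i, (x ∈ ((tr A W ω : Finset ℕ) : Set ℕ) ↔ x ∈ f i)) ↔ ω ∈ G i := by
      rw [hGd]
      refine forall₂_congr fun x hx => ?_
      rw [Finset.mem_coe, mem_tr]
      have h2 := hs i hi hx
      constructor
      · intro h
        exact ⟨fun h3 => h.1 ⟨h2, h3⟩, fun h3 => (h.2 h3).2⟩
      · intro h
        exact ⟨fun h3 => h.1 h3.2, fun h3 => ⟨h2, h.2 h3⟩⟩
    by_cases h3 : ω ∈ G i
    · rw [if_pos (h1.2 h3), Set.indicator_of_mem h3]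
    · rw [if_neg (fun h => h3 (h1.1 h)), Set.indicator_of_notMem h3]
  have hsub : {ω | t ≤ |(cnt J s f ((tr A W ω : Finset ℕ) : Set ℕ) : ℝ) - mean p J s f|} ⊆
      ⋃ c ∈ range κ, {ω | t / κ ≤ |num (Jc c) G ω - Ec c|} := by
    intro ω hω
    have hω' : t ≤ |(cnt J s f ((tr A W ω : Finset ℕ) : Set ℕ) : ℝ) - mean p J s f| := hω
    rw [hcnt, hE, ← sum_sub_distrib] at hω'
    by_contra hcon
    simp only [Set.mem_iUnion, not_exists, Set.mem_ofPred_eq, not_le] at hcon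
    have h1 := abs_sum_le_sum_abs (fun c => num (Jc c) G ω - Ec c) (range κ)
    have h2 : ∑ c ∈ range κ, |num (Jc c) G ω - Ec c| < ∑ c ∈ range κ, t / κ :=
      sum_lt_sum_of_nonempty ⟨0, mem_range.2 hκ⟩ fun c hc => hcon c hc
    rw [sum_const, card_range, nsmul_eq_mul] at h2
    have h3 : (κ : ℝ) * (t / κ) = t := by field_simp
    linarith
  refine (measureReal_mono hsub (measure_ne_top _ _)).trans ?_
  refine (measureReal_biUnion_finset_le _ _).trans ?_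
  have hVt : 0 ≤ V := le_trans (by rw [hE]; exact sum_nonneg fun c _ => hEc0 c) hV
  have hbound : ∀ c ∈ range κ, (prodMeasure p).real {ω | t / κ ≤ |num (Jc c) G ω - Ec c|} ≤
      2 * Real.exp (-(t ^ 2 / (4 * (κ : ℝ) ^ 2 * (V + t)))) := by
    intro c hc
    refine (Pool.Agent.Q150.TT.bern_two (fun j _ => hGm j) (hmut c) (by rw [hEc]) (by positivity)).trans ?_
    refine mul_le_mul_of_nonneg_left (Real.exp_le_exp.2 (neg_le_neg ?_)) (by norm_num)
    have h1 : Ec c ≤ V := by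
      refine le_trans ?_ hV
      rw [hE]
      exact single_le_sum (fun c _ => hEc0 c) hc
    have h2 : t / κ ≤ t := by
      rw [div_le_iff₀ hκr]
      have : (1 : ℝ) ≤ κ := by exact_mod_cast hκ
      nlinarith
    have h3 : t ^ 2 / (4 * (κ : ℝ) ^ 2 * (V + t)) = (t / κ) ^ 2 / (4 * (V + t)) := by
      field_simp
    rw [h3]
    have h4 := hEc0 c
    have h5 : 0 < t / κ := by positivity
    exact div_le_div_of_nonneg_left (by positivity) (by positivity) (by linarith)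
  refine (sum_le_sum hbound).trans (le_of_eq ?_)
  rw [sum_const, card_range, nsmul_eq_mul]
  ring

/-- Relative deviations: the bound `exp (- c E)`. -/
theorem win_dev {p : ℕ → ℝ} (hp : ∀ n, 0 ≤ p n ∧ p n ≤ 1) {W J : Finset ℕ} {s f : ℕ → Finset ℕ}
    (hs : ∀ i ∈ J, s i ⊆ W) (hf : ∀ i ∈ J, f i ⊆ s i) {κ : ℕ} (col : ℕ → ℕ) (hκ : 0 < κ) (hcol : ∀ i ∈ J, col i < κ)
    (hd : ∀ i ∈ J, ∀ j ∈ J, i ≠ j → col i = col j → Disjoint (s i) (s j)) {a e δ : ℝ} (ha : 0 < a) (hδ : 0 < δ)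
    (he : |mean p J s f - a * e| ≤ δ * e) (he0 : 0 < e) :
    PP p W (fun T => 2 * δ * e ≤ |(cnt J s f ((T : Finset ℕ) : Set ℕ) : ℝ) - a * e|) ≤
      2 * κ * Real.exp (-(δ ^ 2 / (4 * (κ : ℝ) ^ 2 * (a + 2 * δ)) * e)) := by
  have h1 := abs_le.1 he
  have hδe : 0 < δ * e := mul_pos hδ he0
  have h2 := win_tail hp hs hf col hκ hcol hd (V := (a + δ) * e) (t := δ * e) (by linarith) hδe
  refine (PP_mono hp (fun T _ hT => ?_)).trans (h2.trans (le_of_eq ?_))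
  · have h3 : |(cnt J s f ((T : Finset ℕ) : Set ℕ) : ℝ) - a * e| ≤
        |(cnt J s f ((T : Finset ℕ) : Set ℕ) : ℝ) - mean p J s f| + |mean p J s f - a * e| := by
      have := abs_add_le ((cnt J s f ((T : Finset ℕ) : Set ℕ) : ℝ) - mean p J s f) (mean p J s f - a * e)
      rwa [sub_add_sub_cancel] at this
    linarith
  · have hκr : (0 : ℝ) < κ := by exact_mod_cast hκ
    have h4 : (δ * e) ^ 2 / (4 * (κ : ℝ) ^ 2 * ((a + δ) * e + δ * e)) = δ ^ 2 / (4 * (κ : ℝ) ^ 2 * (a + 2 * δ)) * e := by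
      have : a + 2 * δ ≠ 0 := by positivity
      have h5 : (a + δ) * e + δ * e = (a + 2 * δ) * e := by ring
      rw [h5]
      field_simp
    rw [h4]

/-- A window without patterns (Harris). -/
theorem win_void {p : ℕ → ℝ} (hp : ∀ n, 0 ≤ p n ∧ p n ≤ 1) {W J : Finset ℕ} {f : ℕ → Finset ℕ}
    (hf : ∀ i ∈ J, f i ⊆ W) (hhalf : ∀ i ∈ J, ∏ x ∈ f i, p x ≤ 1 / 2) :
    Real.exp (-(2 * ∑ i ∈ J, ∏ x ∈ f i, p x)) ≤ PP p W (fun T => ∀ i ∈ J, ¬ f i ⊆ T) := by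
  classical
  have hmod : IsModel (prodMeasure p) p (trueSet (ι := ℕ)) := isModel p (fun n => (hp n).1) (fun n => (hp n).2)
  rw [PP_model hmod]
  have h1 := harris hmod J f
  have h2 : {ω : ℕ → Bool | ∀ i ∈ J, ¬ f i ⊆ tr (trueSet (ι := ℕ)) W ω} = none (trueSet (ι := ℕ)) J f := by
    ext ω
    refine forall₂_congr fun i hi => not_congr ?_
    constructor
    · intro h x hx
      exact (mem_tr.1 (h hx)).2
    · intro h x hx
      exact mem_tr.2 ⟨hf i hi hx, h x hx⟩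
  rw [h2]
  refine le_trans ?_ h1
  rw [mul_sum, ← sum_neg_distrib, Real.exp_sum]
  refine prod_le_prod (fun i _ => (Real.exp_pos _).le) (fun i hi => ?_)
  obtain ⟨t, ht⟩ : ∃ t, t = ∏ x ∈ f i, p x := ⟨_, rfl⟩
  have ht0 : 0 ≤ t := by rw [ht]; exact prod_nonneg (fun x _ => (hp x).1)
  have ht1 : t ≤ 1 / 2 := by rw [ht]; exact hhalf i hi
  rw [← ht, ← Real.le_log_iff_exp_le (by linarith)]
  have h7 := Real.one_sub_inv_le_log_of_pos (show 0 < 1 - t by linarith)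
  refine le_trans ?_ h7
  have h8 : (1 - t)⁻¹ ≤ 1 + 2 * t := by
    rw [inv_le_iff_one_le_mul₀ (by linarith)]
    nlinarith
  linarith

end Pool.Agent.Q197.WN
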