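import Pool.Agent.Q197.WN.Event

/-!
# An adversary who looks at the smaller elements
-/

set_option autoImplicit false

namespace Pool.Agent.Q197.WN

open Finset MeasureTheory Filter Pool.Agent.Q120.TT Pool.Agent.Q120.ET Pool.Agent.Q120.GM
open scoped Topology

section

variable {p : ℕ → ℝ} {B C V T : Finset ℕ}

theorem PP_eq (hT : T ⊆ B) : PP p B (fun S => S = T) = prodOn p B T := by
  classical
  unfold PP
  rw [sum_filter, sum_eq_single T]
  · rw [if_pos rfl]
  · intro S _ hS
    rw [if_neg hS]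
  · intro h
    exact absurd (mem_powerset.2 hT) h

/-- The law after the deletion of `V`. -/
theorem PP_delete (hp : ∀ n, 0 ≤ p n ∧ p n ≤ 1) (hV : V ⊆ B) (hT : T ⊆ B) {v : ℝ} (hv : Real.exp (-v) ≤ ∏ x ∈ V, (1 - p x)) :
    PP p B (fun S => S \ V = T) ≤ Real.exp v * prodOn p B T := by
  classical
  have h1 : PP p B (fun S => S \ V = T) = PP p B (fun S => (fun S' => S' = T) (S ∩ (B \ V))) := by
    refine PP_congr (fun S hS => ?_)
    have : S \ V = S ∩ (B \ V) := by
      ext x
      rw [Finset.mem_sdiff, mem_inter, Finset.mem_sdiff]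
      exact ⟨fun h => ⟨h.1, hS h.1, h.2⟩, fun h => ⟨h.1, h.2.2⟩⟩
    rw [this]
  rw [h1, PP_sub (F := fun S' => S' = T) Finset.sdiff_subset]
  by_cases h2 : T ⊆ B \ V
  · rw [PP_eq h2]
    have h3 : prodOn p B T = prodOn p V ∅ * prodOn p (B \ V) T := by
      have h4 := prodOn_union (p := p) (s := V) (t := B \ V) (U := ∅) (V := T) disjoint_sdiff (empty_subset _) h2
      rw [union_sdiff_of_subset hV, empty_union] at h4
      exact h4
    have h4 : prodOn p V ∅ = ∏ x ∈ V, (1 - p x) := by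
      unfold prodOn
      rw [prod_empty, one_mul, sdiff_empty]
    rw [h3, h4, ← mul_assoc]
    have h5 : 1 ≤ Real.exp v * ∏ x ∈ V, (1 - p x) := by
      have h6 : Real.exp v * Real.exp (-v) = 1 := by rw [← Real.exp_add]; simp
      exact h6.symm.le.trans (mul_le_mul_of_nonneg_left hv (Real.exp_pos v).le)
    have h6 : 0 ≤ prodOn p (B \ V) T := prodOn_nn hp h2
    nlinarith
  · have h3 : PP p (B \ V) (fun S' => S' = T) = 0 := by
      unfold PP
      refine sum_eq_zero (fun S hS => ?_)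
      obtain ⟨h5, h6⟩ := (mem_pp (H := fun S' => S' = T)).1 hS
      have h7 : S = T := h6
      rw [h7] at h5
      exact absurd h5 h2
    rw [h3]
    exact mul_nonneg (Real.exp_pos v).le (prodOn_nn hp hT)

open Classical in
/-- The law after a deletion depending on the elements in `C`. -/
noncomputable def del (p : ℕ → ℝ) (B C : Finset ℕ) (R : Finset ℕ → Finset ℕ) (T : Finset ℕ) : ℝ :=
  PP p (C ∪ B) (fun S => (S ∩ B) \ R (S ∩ C) = T)

theorem del_le (hp : ∀ n, 0 ≤ p n ∧ p n ≤ 1) (hd : Disjoint C B) {R : Finset ℕ → Finset ℕ} (hR : ∀ U, R U ⊆ B) (hT : T ⊆ B) {v : ℝ}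
    (hv : ∀ U, U ⊆ C → Real.exp (-v) ≤ ∏ x ∈ R U, (1 - p x)) : del p B C R T ≤ Real.exp v * prodOn p B T := by
  classical
  have h1 : del p B C R T ≤ PP p (C ∪ B) (fun S => ∃ U ∈ C.powerset, S ∩ C = U ∧ (S ∩ B) \ R U = T) := by
    unfold del
    refine PP_mono hp (fun S _ hS => ⟨S ∩ C, mem_powerset.2 inter_subset_right, rfl, hS⟩)
  have h2 := PP_exists_le (B := C ∪ B) hp C.powerset (fun U S => S ∩ C = U ∧ (S ∩ B) \ R U = T)
  refine (h1.trans h2).trans ?_
  have h3 : ∀ U ∈ C.powerset, PP p (C ∪ B) (fun S => S ∩ C = U ∧ (S ∩ B) \ R U = T) ≤ prodOn p C U * (Real.exp v * prodOn p B T) := by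
    intro U hU
    have hU' := mem_powerset.1 hU
    have h4 := PP_prod (p := p) (s := C) (t := B) (F := fun S => S = U) (G := fun S => S \ R U = T) hd
    rw [h4, PP_eq hU']
    exact mul_le_mul_of_nonneg_left (PP_delete hp (hR U) hT (hv U hU')) (prodOn_nn hp hU')
  refine (sum_le_sum h3).trans ?_
  rw [← sum_mul, Pool.Agent.Q111.TT.sum_prodOn p C, one_mul]

theorem del_sum {R : Finset ℕ → Finset ℕ} : ∑ T ∈ B.powerset, del p B C R T = 1 := by
  classical
  have h1 : ∀ T ∈ B.powerset, del p B C R T = ∑ S ∈ (C ∪ B).powerset with (S ∩ B) \ R (S ∩ C) = T, prodOn p (C ∪ B) S := by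
    intro T _
    unfold del PP
    exact sum_congr (by ext S; simp only [mem_filter]) (fun _ _ => rfl)
  rw [sum_congr rfl h1, sum_fiberwise_of_maps_to (g := fun S => (S ∩ B) \ R (S ∩ C))
    (fun S _ => mem_powerset.2 (Finset.sdiff_subset.trans inter_subset_right))]
  exact Pool.Agent.Q111.TT.sum_prodOn p (C ∪ B)

theorem del_law (hp : ∀ n, 0 ≤ p n ∧ p n ≤ 1) (hd : Disjoint C B) {R : Finset ℕ → Finset ℕ} (hR : ∀ U, R U ⊆ B) {v : ℝ}
    (hv : ∀ U, U ⊆ C → Real.exp (-v) ≤ ∏ x ∈ R U, (1 - p x)) : IsLaw p B (del p B C R) ∧ entOf p B (del p B C R) ≤ v := by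
  classical
  have hnn : ∀ T ∈ B.powerset, 0 ≤ del p B C R T := fun T _ => PP_nonneg hp
  constructor
  · refine ⟨hnn, del_sum, fun T hT h => ?_⟩
    have h1 := del_le hp hd hR (mem_powerset.1 hT) hv
    rw [h, mul_zero] at h1
    exact le_antisymm h1 (hnn T hT)
  · unfold entOf
    have h1 : ∀ T ∈ B.powerset, del p B C R T * Real.log (del p B C R T / prodOn p B T) ≤ del p B C R T * v := by
      intro T hT
      rcases (hnn T hT).eq_or_lt with h | h
      · rw [← h, zero_mul, zero_mul]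
      · refine mul_le_mul_of_nonneg_left ?_ h.le
        have h2 := del_le hp hd hR (mem_powerset.1 hT) hv
        have h3 : 0 < prodOn p B T := by
          rcases (prodOn_nn hp (mem_powerset.1 hT)).eq_or_lt with h4 | h4
          · rw [← h4, mul_zero] at h2
            linarith
          · exact h4
        have h4 : del p B C R T / prodOn p B T ≤ Real.exp v := by
          rw [div_le_iff₀ h3]
          exact h2
        have h5 := Real.log_le_log (div_pos h h3) h4
        rwa [Real.log_exp] at h5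
    refine (sum_le_sum h1).trans ?_
    rw [← sum_mul, del_sum, one_mul]

end

end Pool.Agent.Q197.WN
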