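import Pool.Agent.Q197.WN.Adv

/-!
# An adversary who looks at the smaller elements: the construction
-/

set_option autoImplicit false

namespace Pool.Agent.Q197.WN

open Finset MeasureTheory Filter Pool.Agent.Q120.TT Pool.Agent.Q120.ET Pool.Agent.Q120.GM
open scoped Topology

/-- Coins. -/
theorem coins {q : ℕ → ℝ} (hq : ∀ k, 0 ≤ q k ∧ q k ≤ 1) :
    ∃ (Ω : Type) (_ : MeasurableSpace Ω) (μ : Measure Ω) (_ : IsProbabilityMeasure μ) (Y : Ω → Set ℕ),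
      IsRandomSet Y ∧ (∀ k, μ.real {ω | k ∈ Y ω} = q k) ∧ (¬ Summable q → ∀ᵐ ω ∂μ, ∃ᶠ k : ℕ in atTop, k ∈ Y ω) := by
  classical
  have hm := isModel q (fun k => (hq k).1) (fun k => (hq k).2)
  refine ⟨ℕ → Bool, inferInstance, prodMeasure q, inferInstance, trueSet, hm.meas, hm.prob, fun hs => ?_⟩
  have h1 : ∑' k, prodMeasure q {ω | k ∈ trueSet ω} = ⊤ := by
    by_contra h
    apply hs
    have h2 := ENNReal.summable_toReal h
    refine h2.congr (fun k => ?_)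
    exact (hm.prob k).symm ▸ rfl
  have h3 := ProbabilityTheory.measure_limsup_eq_one (μ := prodMeasure q) hm.meas hm.indep h1
  have h4 : MeasurableSet (limsup (fun k => {ω : ℕ → Bool | k ∈ trueSet ω}) atTop) := MeasurableSet.measurableSet_limsup hm.meas
  have h5 : ∀ᵐ ω ∂(prodMeasure q), ω ∈ limsup (fun k => {ω : ℕ → Bool | k ∈ trueSet ω}) atTop := by
    rw [← prob_compl_eq_zero_iff h4] at h3
    exact h3
  filter_upwards [h5] with ω hω
  rw [mem_limsup_iff_frequently_mem] at hω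
  exact hω

theorem meas_event {Ω : Type} [MeasurableSpace Ω] {A : Ω → Set ℕ} (hA : IsRandomSet A) (B : Finset ℕ) (F : Finset ℕ → Prop) :
    MeasurableSet {ω | F (tr A B ω)} := by
  classical
  have h1 : {ω | F (tr A B ω)} = ⋃ T ∈ B.powerset.filter F, {ω | tr A B ω = T} := by
    ext ω
    simp only [Set.mem_ofPred_eq, Set.mem_iUnion, exists_prop, mem_filter, mem_powerset]
    constructor
    · intro h
      refine ⟨_, ⟨fun n hn => (mem_tr.1 hn).1, h⟩, rfl⟩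
    · rintro ⟨T, ⟨_, h⟩, h2⟩
      rw [h2]; exact h
  rw [h1]
  refine Finset.measurableSet_biUnion _ (fun T hT => ?_)
  rw [← law_set_eq A (mem_powerset.1 (mem_filter.1 hT).1)]
  exact measurableSet_law hA B T

section

variable {Ω₀ Ω₁ : Type} [MeasurableSpace Ω₀] [MeasurableSpace Ω₁]

/-- The set after the deletions. -/
def adv (X : Ω₀ → Set ℕ) (Y : Ω₁ → Set ℕ) (C : ℕ → Finset ℕ) (R : ℕ → Finset ℕ → Finset ℕ) (ω : Ω₀ × Ω₁) : Set ℕ :=
  {x | x ∈ X ω.1 ∧ ∀ k, k ∈ Y ω.2 → x ∉ R k (tr X (C k) ω.1)}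

theorem adv_meas {X : Ω₀ → Set ℕ} {Y : Ω₁ → Set ℕ} {C : ℕ → Finset ℕ} {R : ℕ → Finset ℕ → Finset ℕ} (hX : IsRandomSet X)
    (hY : IsRandomSet Y) : IsRandomSet (adv X Y C R) := by
  intro x
  have h1 : {ω : Ω₀ × Ω₁ | x ∈ adv X Y C R ω} = (Prod.fst ⁻¹' {ω | x ∈ X ω}) ∩
      ⋂ k, ((Prod.snd ⁻¹' {ω | k ∈ Y ω})ᶜ ∪ Prod.fst ⁻¹' {ω | (fun U => x ∉ R k U) (tr X (C k) ω)}) := by
    ext ω
    unfold adv
    simp only [Set.mem_ofPred_eq, Set.mem_inter_iff, Set.mem_preimage, Set.mem_iInter, Set.mem_union, Set.mem_compl_iff]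
    refine and_congr_right (fun _ => forall_congr' (fun k => ?_))
    tauto
  rw [h1]
  refine (measurable_fst (hX x)).inter (MeasurableSet.iInter (fun k => ?_))
  exact ((measurable_snd (hY k)).compl).union (measurable_fst (meas_event hX (C k) (fun U => x ∉ R k U)))

theorem adv_low {X : Ω₀ → Set ℕ} {Y : Ω₁ → Set ℕ} {C : ℕ → Finset ℕ} {R : ℕ → Finset ℕ → Finset ℕ}
    (hRC : ∀ j k U, Disjoint (R j U) (C k)) (k : ℕ) (ω : Ω₀ × Ω₁) : tr (adv X Y C R) (C k) ω = tr X (C k) ω.1 := by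
  ext x
  rw [mem_tr, mem_tr]
  refine and_congr_right (fun hx => ?_)
  unfold adv
  show (x ∈ X ω.1 ∧ ∀ k, k ∈ Y ω.2 → x ∉ R k (tr X (C k) ω.1)) ↔ _
  exact ⟨fun h => h.1, fun h => ⟨h, fun j _ hj => (Finset.disjoint_left.1 (hRC j k _)) hj hx⟩⟩

theorem adv_block {X : Ω₀ → Set ℕ} {Y : Ω₁ → Set ℕ} {B C : ℕ → Finset ℕ} {R : ℕ → Finset ℕ → Finset ℕ}
    (hB : ∀ i j, i ≠ j → Disjoint (B i) (B j)) (hR : ∀ k U, R k U ⊆ B k) (k : ℕ) (ω : Ω₀ × Ω₁) :
    (k ∉ Y ω.2 → tr (adv X Y C R) (B k) ω = tr X (B k) ω.1) ∧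
    (k ∈ Y ω.2 → tr (adv X Y C R) (B k) ω = tr X (B k) ω.1 \ R k (tr X (C k) ω.1)) := by
  have key : ∀ x ∈ B k, (x ∈ adv X Y C R ω ↔ x ∈ X ω.1 ∧ (k ∈ Y ω.2 → x ∉ R k (tr X (C k) ω.1))) := by
    intro x hx
    unfold adv
    show (x ∈ X ω.1 ∧ ∀ k, k ∈ Y ω.2 → x ∉ R k (tr X (C k) ω.1)) ↔ _
    refine and_congr_right (fun _ => ⟨fun h => h k, fun h j hj hxj => ?_⟩)
    by_cases hjk : j = k
    · subst hjk
      exact h hj hxj
    · exact (Finset.disjoint_left.1 (hB j k hjk)) (hR j _ hxj) hx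
  constructor
  · intro hk
    ext x
    rw [mem_tr, mem_tr]
    refine and_congr_right (fun hx => ?_)
    rw [key x hx]
    tauto
  · intro hk
    ext x
    rw [Finset.mem_sdiff, mem_tr, mem_tr]
    constructor
    · rintro ⟨hx, h⟩
      rw [key x hx] at h
      exact ⟨⟨hx, h.1⟩, h.2 hk⟩
    · rintro ⟨⟨hx, h1⟩, h2⟩
      refine ⟨hx, ?_⟩
      rw [key x hx]
      exact ⟨h1, fun _ => h2⟩

end

/-- The adversary. -/
theorem adversary {p : ℕ → ℝ} (hp : ∀ n, 0 ≤ p n ∧ p n ≤ 1) {B C : ℕ → Finset ℕ} (hB : ∀ i j, i ≠ j → Disjoint (B i) (B j))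
    (hBC : ∀ k, Disjoint (C k) (B k)) {R : ℕ → Finset ℕ → Finset ℕ} (hR : ∀ k U, R k U ⊆ B k)
    (hRC : ∀ j k U, Disjoint (R j U) (C k)) {v q : ℕ → ℝ} (hq : ∀ k, 0 ≤ q k ∧ q k ≤ 1)
    (hv : ∀ k U, U ⊆ C k → Real.exp (-v k) ≤ ∏ x ∈ R k U, (1 - p x)) :
    ∃ (Ω : Type) (_ : MeasurableSpace Ω) (μ : Measure Ω) (_ : IsProbabilityMeasure μ) (A : Ω → Set ℕ),
      IsRandomSet A ∧ (∀ᵐ ω ∂μ, ∀ n ∈ A ω, 0 < p n) ∧
      (∀ k, relEnt p μ A (B k) ≤ q k * v k) ∧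
      (∀ k (G : Finset ℕ → Prop), q k * PP p (C k) G ≤ μ.real {ω | G (tr A (C k) ω) ∧ ∀ x ∈ R k (tr A (C k) ω), x ∉ A ω}) ∧
      (¬ Summable q → ∀ G : ℕ → Finset ℕ → Prop, Summable (fun k => PP p (C k) (fun T => ¬ G k T)) →
        ∀ᵐ ω ∂μ, ∃ᶠ k : ℕ in atTop, G k (tr A (C k) ω) ∧ ∀ x ∈ R k (tr A (C k) ω), x ∉ A ω) := by
  classical
  have hX := isModel p (fun n => (hp n).1) (fun n => (hp n).2)
  obtain ⟨Ω₁, mΩ₁, μ₁, hμ₁, Y, hY1, hY2, hY3⟩ := coins hq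
  obtain ⟨μ₀, hμ₀⟩ : ∃ μ₀ : Measure (ℕ → Bool), μ₀ = prodMeasure p := ⟨_, rfl⟩
  have hpr : IsProbabilityMeasure μ₀ := by rw [hμ₀]; infer_instance
  rw [← hμ₀] at hX
  obtain ⟨X, hXe⟩ : ∃ X : (ℕ → Bool) → Set ℕ, X = trueSet := ⟨_, rfl⟩
  rw [← hXe] at hX
  have hXm : IsRandomSet X := hX.meas
  refine ⟨(ℕ → Bool) × Ω₁, inferInstance, μ₀.prod μ₁, inferInstance, adv X Y C R, adv_meas hXm hY1, ?_, ?_, ?_, ?_⟩
  · have h1 : ∀ᵐ ω ∂μ₀, ∀ n ∈ X ω, 0 < p n := by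
      rw [ae_all_iff]
      intro n
      rcases (hp n).1.eq_or_lt with h | h
      · have h2 : μ₀ {ω | n ∈ X ω} = 0 := by
          have h3 := hX.prob n
          rw [← h] at h3
          exact (measureReal_eq_zero_iff).1 h3
        have h4 : ∀ᵐ ω ∂μ₀, ¬ n ∈ X ω := by
          rw [ae_iff]
          simp only [not_not]
          exact h2
        filter_upwards [h4] with ω hω hn
        exact absurd hn hω
      · exact Eventually.of_forall (fun _ _ => h)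
    have h2 : ∀ᵐ ω ∂(μ₀.prod μ₁), ∀ n ∈ X ω.1, 0 < p n := Measure.quasiMeasurePreserving_fst.ae h1
    filter_upwards [h2] with ω hω n hn
    exact hω n hn.1
  · intro k
    have hY2k : μ₁.real {ω | k ∈ Y ω} = q k := hY2 k
    have hY3k : μ₁.real {ω | k ∈ Y ω}ᶜ = 1 - q k := by
      rw [measureReal_compl (hY1 k), hY2k, probReal_univ]
    have hlaw : ∀ T ∈ (B k).powerset, lawOn (μ₀.prod μ₁) (adv X Y C R) (B k) T =
        (1 - q k) * prodOn p (B k) T + q k * del p (B k) (C k) (R k) T := by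
      intro T hT
      have hT' := mem_powerset.1 hT
      unfold lawOn
      rw [law_set_eq _ hT']
      have h1 : {ω : (ℕ → Bool) × Ω₁ | tr (adv X Y C R) (B k) ω = T} =
          ({ω | tr X (B k) ω = T} ×ˢ {ω | k ∈ Y ω}ᶜ) ∪ ({ω | tr X (B k) ω \ R k (tr X (C k) ω) = T} ×ˢ {ω | k ∈ Y ω}) := by
        ext ω
        obtain ⟨e1, e2⟩ := adv_block (X := X) (Y := Y) (C := C) hB hR k ω
        simp only [Set.mem_ofPred_eq, Set.mem_union, Set.mem_prod, Set.mem_compl_iff]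
        by_cases hk : k ∈ Y ω.2
        · rw [e2 hk]
          tauto
        · rw [e1 hk]
          tauto
      have hm1 : MeasurableSet {ω | tr X (B k) ω = T} := meas_event hXm (B k) (fun S => S = T)
      have e3 : ∀ ω, tr X (B k) ω \ R k (tr X (C k) ω) = T ↔
          (fun S => (S ∩ B k) \ R k (S ∩ C k) = T) (tr X (C k ∪ B k) ω) := by
        intro ω
        show _ ↔ (tr X (C k ∪ B k) ω ∩ B k) \ R k (tr X (C k ∪ B k) ω ∩ C k) = T
        rw [tr_inter subset_union_right, tr_inter subset_union_left]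
      have hm2 : MeasurableSet {ω | tr X (B k) ω \ R k (tr X (C k) ω) = T} := by
        have := meas_event hXm (C k ∪ B k) (fun S => (S ∩ B k) \ R k (S ∩ C k) = T)
        convert this using 2
        ext ω
        exact e3 ω
      rw [h1, measureReal_union (by
        rw [Set.disjoint_left]
        rintro ω ⟨_, h2⟩ ⟨_, h3⟩
        exact h2 h3) (hm2.prod (hY1 k)), measureReal_prod_prod, measureReal_prod_prod, hY2k, hY3k]
      have h2 : μ₀.real {ω | tr X (B k) ω = T} = prodOn p (B k) T := by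
        rw [← law_set_eq X hT']
        exact Pool.Agent.Q150.TT.law_model hX (B k) T hT'
      have h3 : μ₀.real {ω | tr X (B k) ω \ R k (tr X (C k) ω) = T} = del p (B k) (C k) (R k) T := by
        unfold del
        rw [PP_model hX]
        congr 1
        ext ω
        exact e3 ω
      rw [h2, h3]
      ring
    have hde := del_law hp (hBC k) (hR k) (hv k)
    have hmix := (Pool.Agent.Q150.TT.t_MIXL p (B k) (fun n _ => hp n)).2 _ hde.1 (q k) (hq k).1 (hq k).2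
    have h1 : relEnt p (μ₀.prod μ₁) (adv X Y C R) (B k) = entOf p (B k)
        (fun T => (1 - q k) * prodOn p (B k) T + q k * del p (B k) (C k) (R k) T) := by
      unfold relEnt entOf
      refine sum_congr rfl (fun T hT => ?_)
      rw [hlaw T hT]
    rw [h1]
    exact hmix.2.trans (mul_le_mul_of_nonneg_left hde.2 (hq k).1)
  · intro k G
    have h1 : ({ω | G (tr X (C k) ω)} ×ˢ {ω | k ∈ Y ω}) ⊆
        {ω : (ℕ → Bool) × Ω₁ | G (tr (adv X Y C R) (C k) ω) ∧ ∀ x ∈ R k (tr (adv X Y C R) (C k) ω), x ∉ adv X Y C R ω} := by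
      rintro ω ⟨h2, h3⟩
      show G (tr (adv X Y C R) (C k) ω) ∧ ∀ x ∈ R k (tr (adv X Y C R) (C k) ω), x ∉ adv X Y C R ω
      rw [adv_low hRC]
      refine ⟨h2, fun x hx hxA => ?_⟩
      exact hxA.2 k h3 hx
    have h2 := measureReal_mono (μ := μ₀.prod μ₁) h1
    rw [measureReal_prod_prod, hY2 k, ← PP_model hX] at h2
    linarith
  · intro hs G hG
    have h1 : ∀ᵐ ω ∂μ₁, ∃ᶠ k : ℕ in atTop, k ∈ Y ω := hY3 hs
    have h2 : ∀ᵐ ω ∂μ₀, ∀ᶠ k : ℕ in atTop, G k (tr X (C k) ω) := by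
      have h3 : ∑' k, μ₀ {ω | ¬ G k (tr X (C k) ω)} ≠ ⊤ := by
        have h4 : ∀ k, μ₀ {ω | ¬ G k (tr X (C k) ω)} = ENNReal.ofReal (PP p (C k) (fun T => ¬ G k T)) := by
          intro k
          rw [PP_model hX, Measure.real, ENNReal.ofReal_toReal (measure_ne_top _ _)]
        simp_rw [h4]
        rw [← ENNReal.ofReal_tsum_of_nonneg (fun k => PP_nonneg hp) hG]
        exact ENNReal.ofReal_ne_top
      filter_upwards [ae_eventually_notMem h3] with ω hω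
      filter_upwards [hω] with k hk
      by_contra hcon
      exact hk hcon
    have h3 : ∀ᵐ ω ∂(μ₀.prod μ₁), ∀ᶠ k : ℕ in atTop, G k (tr X (C k) ω.1) := Measure.quasiMeasurePreserving_fst.ae h2
    have h4 : ∀ᵐ ω ∂(μ₀.prod μ₁), ∃ᶠ k : ℕ in atTop, k ∈ Y ω.2 := Measure.quasiMeasurePreserving_snd.ae h1
    filter_upwards [h3, h4] with ω h5 h6
    refine (h6.and_eventually h5).mono (fun k hk => ?_)
    rw [adv_low hRC]
    refine ⟨hk.2, fun x hx hxA => ?_⟩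
    exact hxA.2 k hk.1 hx

end Pool.Agent.Q197.WN
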