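import Pool.Agent.Q197.WN.CellD

/-!
# Consecutive elements with distant square roots: number and total length
-/

set_option autoImplicit false

namespace Pool.Agent.Q197.WN

open Finset MeasureTheory Filter Pool.Agent.Q120.TT Pool.Agent.Q120.ET Pool.Agent.Q120.GM
  Pool.Agent.Q120.CL
open scoped Topology

/-- `g.1 < g.2` are consecutive elements of `S`. -/
def Consec (S : Set ℕ) (g : ℕ × ℕ) : Prop := g.1 ∈ S ∧ g.2 ∈ S ∧ g.1 < g.2 ∧ ∀ x, g.1 < x → x < g.2 → x ∉ S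

open Classical in
/-- The pairs of consecutive elements `a < b` of `S` in the block with `√b - √a ≥ θ`. -/
noncomputable def exceps (θ : ℝ) (k : ℕ) (S : Set ℕ) : Finset (ℕ × ℕ) :=
  (Bk k ×ˢ Bk k).filter (fun g => Consec S g ∧ θ ≤ √(g.2 : ℝ) - √(g.1 : ℝ))

/-- Their number. -/
noncomputable def num (θ : ℝ) (k : ℕ) (S : Set ℕ) : ℕ := (exceps θ k S).card

/-- The sum of the differences `b - a`. -/
noncomputable def total (θ : ℝ) (k : ℕ) (S : Set ℕ) : ℝ := ∑ g ∈ exceps θ k S, ((g.2 : ℝ) - g.1)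

theorem mem_exceps {θ : ℝ} {k : ℕ} {S : Set ℕ} {g : ℕ × ℕ} : g ∈ exceps θ k S ↔
    (g.1 ∈ Bk k ∧ g.2 ∈ Bk k) ∧ Consec S g ∧ θ ≤ √(g.2 : ℝ) - √(g.1 : ℝ) := by
  classical
  unfold exceps
  rw [mem_filter, mem_product]

theorem exceps_congr {θ : ℝ} {k : ℕ} {S S' : Set ℕ} (h : ∀ x ∈ Bk k, (x ∈ S ↔ x ∈ S')) : exceps θ k S = exceps θ k S' := by
  have key : ∀ {S S' : Set ℕ}, (∀ x ∈ Bk k, (x ∈ S ↔ x ∈ S')) → ∀ g ∈ exceps θ k S, g ∈ exceps θ k S' := by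
    intro S S' h g hg
    rw [mem_exceps] at hg ⊢
    refine ⟨hg.1, ⟨(h _ hg.1.1).1 hg.2.1.1, (h _ hg.1.2).1 hg.2.1.2.1, hg.2.1.2.2.1, fun x hx hx' hxS => ?_⟩, hg.2.2⟩
    refine hg.2.1.2.2.2 x hx hx' ((h x ?_).2 hxS)
    have h1 := hg.1
    unfold Bk at h1 ⊢
    rw [mem_Ico, mem_Ico] at h1
    rw [mem_Ico]
    omega
  ext g
  exact ⟨fun hg => key h g hg, fun hg => key (fun x hx => (h x hx).symm) g hg⟩

theorem exceps_sep {θ : ℝ} {k : ℕ} {S : Set ℕ} {g g' : ℕ × ℕ} (h : g ∈ exceps θ k S) (h' : g' ∈ exceps θ k S) (hne : g ≠ g') :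
    g.2 ≤ g'.1 ∨ g'.2 ≤ g.1 := by
  rw [mem_exceps] at h h'
  by_contra hcon
  rw [not_or, not_le, not_le] at hcon
  obtain ⟨h1, h2, h3, h4⟩ := h.2.1
  obtain ⟨h1', h2', h3', h4'⟩ := h'.2.1
  apply hne
  have e1 : g.1 = g'.1 := by
    rcases lt_trichotomy g.1 g'.1 with h5 | h5 | h5
    · exact absurd h1' (h4 _ h5 hcon.1)
    · exact h5
    · exact absurd h1 (h4' _ h5 hcon.2)
  have e2 : g.2 = g'.2 := by
    rcases lt_trichotomy g.2 g'.2 with h5 | h5 | h5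
    · exact absurd h2 (h4' _ (by omega) h5)
    · exact h5
    · exact absurd h2' (h4 _ (by omega) h5)
  exact Prod.ext e1 e2

theorem sqrt_sub {a b : ℝ} (ha : 0 ≤ a) (hb : 0 ≤ b) : b - a = (√b - √a) * (√b + √a) := by
  have h1 := Real.sq_sqrt ha
  have h2 := Real.sq_sqrt hb
  nlinarith

/-- Disjoint intervals with long square roots. -/
theorem pack {θ X : ℝ} (hθ : 0 < θ) (G : Finset (ℕ × ℕ)) (h1 : ∀ g ∈ G, θ ≤ √(g.2 : ℝ) - √(g.1 : ℝ))
    (h2 : ∀ g ∈ G, X ≤ √(g.1 : ℝ)) (h3 : ∀ g ∈ G, ∀ g' ∈ G, g ≠ g' → g.2 ≤ g'.1 ∨ g'.2 ≤ g.1) :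
    (G.card * θ * (2 * X + G.card * θ) ≤ ∑ g ∈ G, ((g.2 : ℝ) - g.1)) ∧
      ∀ B : ℕ, (∀ g ∈ G, g.2 ≤ B) → X ≤ √(B : ℝ) → X + G.card * θ ≤ √(B : ℝ) := by
  classical
  induction G using Finset.induction_on_max_value (f := fun g : ℕ × ℕ => g.1) with
  | empty => simp
  | insert a s ha hmax ih =>
    have ih' := ih (fun g hg => h1 g (mem_insert_of_mem hg)) (fun g hg => h2 g (mem_insert_of_mem hg))
      (fun g hg g' hg' => h3 g (mem_insert_of_mem hg) g' (mem_insert_of_mem hg'))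
    have ha1 := h1 a (mem_insert_self _ _)
    have ha2 := h2 a (mem_insert_self _ _)
    have hle : ∀ g ∈ s, g.2 ≤ a.1 := by
      intro g hg
      have hne : g ≠ a := fun h => ha (h ▸ hg)
      rcases h3 g (mem_insert_of_mem hg) a (mem_insert_self _ _) hne with h | h
      · exact h
      · exfalso
        have h4 := hmax g hg
        have h5 : √(a.2 : ℝ) ≤ √(a.1 : ℝ) := Real.sqrt_le_sqrt (by exact_mod_cast h.trans h4)
        linarith
    have h4 := ih'.2 a.1 hle ha2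
    rw [card_insert_of_notMem ha, sum_insert ha]
    push_cast
    obtain ⟨n, hn⟩ : ∃ n : ℝ, n = s.card := ⟨_, rfl⟩
    rw [← hn] at ih' h4 ⊢
    refine ⟨?_, fun B hB _ => ?_⟩
    · have h5 := sqrt_sub (Nat.cast_nonneg a.1) (Nat.cast_nonneg (α := ℝ) a.2)
      have h6 : θ * (2 * (X + n * θ) + θ) ≤ (a.2 : ℝ) - a.1 := by
        rw [h5]
        have h7 : 0 ≤ √(a.1 : ℝ) := Real.sqrt_nonneg _
        have h8 : 2 * (X + n * θ) + θ ≤ √(a.2 : ℝ) + √(a.1 : ℝ) := by linarith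
        calc θ * (2 * (X + n * θ) + θ) ≤ θ * (√(a.2 : ℝ) + √(a.1 : ℝ)) := mul_le_mul_of_nonneg_left h8 hθ.le
          _ ≤ (√(a.2 : ℝ) - √(a.1 : ℝ)) * (√(a.2 : ℝ) + √(a.1 : ℝ)) :=
              mul_le_mul_of_nonneg_right ha1 (by positivity)
      nlinarith [ih'.1]
    · have h5 : √(a.2 : ℝ) ≤ √(B : ℝ) := Real.sqrt_le_sqrt (by exact_mod_cast hB a (mem_insert_self _ _))
      linarith

theorem Bk_sqrt {k x : ℕ} (h : x ∈ Bk k) : (2 : ℝ) ^ k ≤ √(x : ℝ) := by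
  unfold Bk at h
  rw [mem_Ico] at h
  apply Real.le_sqrt_of_sq_le
  rw [← pow_mul, mul_comm, pow_mul]
  have : ((4 ^ k : ℕ) : ℝ) ≤ x := by exact_mod_cast h.1
  push_cast at this
  norm_num
  exact this

/-- The total length is at least the one of `num` minimal gaps at the beginning of the block. -/
theorem total_ge {θ : ℝ} (hθ : 0 < θ) (k : ℕ) (S : Set ℕ) :
    num θ k S * θ * (2 ^ (k + 1) + num θ k S * θ) ≤ total θ k S := by
  have h := (pack (X := 2 ^ k) hθ (exceps θ k S) (fun g hg => (mem_exceps.1 hg).2.2)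
    (fun g hg => Bk_sqrt (mem_exceps.1 hg).1.1) (fun g hg g' hg' hne => exceps_sep hg hg' hne)).1
  unfold num total
  rw [pow_succ, mul_comm ((2 : ℝ) ^ k) 2]
  exact h

end Pool.Agent.Q197.WN
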