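import Pool.Agent.Q197.WN.Andr

/-!
# Distant square roots leave empty cells
-/

set_option autoImplicit false

namespace Pool.Agent.Q197.WN

open Finset MeasureTheory Filter Pool.Agent.Q120.TT Pool.Agent.Q120.ET Pool.Agent.Q120.GM
  Pool.Agent.Q120.CL
open scoped Topology

theorem len_ge (s i j : ℕ) : (cl s j : ℝ) - cl s i ≤ ∑ l ∈ Ico i j, len s l := by
  rcases le_total i j with h | h
  · rw [sum_len s h]
  · rw [Ico_eq_empty_of_le h, sum_empty]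
    have : (cl s j : ℝ) ≤ cl s i := by exact_mod_cast cl_mono h
    linarith

/-- The cells strictly between `a` and `b`. -/
def btw (s a b : ℕ) : Finset ℕ := Ico (Nat.sqrt (4 ^ s * a) + 1) (Nat.sqrt (4 ^ s * b))

theorem btw_disj {s a b a' b' : ℕ} (h : b ≤ a') : Disjoint (btw s a b) (btw s a' b') := by
  rw [disjoint_left]
  intro j hj hj'
  unfold btw at hj hj'
  rw [mem_Ico] at hj hj'
  have := Nat.sqrt_le_sqrt (Nat.mul_le_mul_left (4 ^ s) h)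
  omega

theorem btw_mem {s a b j x : ℕ} (hj : j ∈ btw s a b) (hx : x ∈ cell s j) : a < x ∧ x < b := by
  unfold btw at hj
  rw [mem_Ico] at hj
  rw [mem_cell] at hx
  constructor
  · by_contra h
    rw [not_lt] at h
    have h1 : 4 ^ s * x ≤ 4 ^ s * a := Nat.mul_le_mul_left _ h
    have h2 : 4 ^ s * a < (Nat.sqrt (4 ^ s * a) + 1) ^ 2 := by rw [pow_two]; exact Nat.lt_succ_sqrt _
    have h3 : (Nat.sqrt (4 ^ s * a) + 1) ^ 2 ≤ j ^ 2 := Nat.pow_le_pow_left hj.1 2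
    omega
  · by_contra h
    rw [not_lt] at h
    have h1 : 4 ^ s * b ≤ 4 ^ s * x := Nat.mul_le_mul_left _ h
    have h2 : Nat.sqrt (4 ^ s * b) ^ 2 ≤ 4 ^ s * b := by rw [pow_two]; exact Nat.sqrt_le _
    have h3 : (j + 1) ^ 2 ≤ Nat.sqrt (4 ^ s * b) ^ 2 := Nat.pow_le_pow_left hj.2 2
    omega

theorem btw_sub {s k a b : ℕ} (ha : a ∈ Bk k) (hb : b ∈ Bk k) : btw s a b ⊆ block (k + s) := by
  intro j hj
  unfold btw at hj
  unfold Bk at ha hb
  unfold block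
  rw [mem_Ico] at hj ha hb ⊢
  constructor
  · have h1 : 2 ^ (k + s) ≤ Nat.sqrt (4 ^ s * a) := by
      rw [Nat.le_sqrt']
      calc (2 ^ (k + s)) ^ 2 = 4 ^ s * 4 ^ k := by
            rw [← pow_mul, mul_comm, pow_mul, ← pow_add, add_comm]
            norm_num
        _ ≤ 4 ^ s * a := Nat.mul_le_mul_left _ ha.1
    omega
  · have h1 : Nat.sqrt (4 ^ s * b) < 2 ^ (k + s + 1) := by
      rw [Nat.sqrt_lt']
      calc 4 ^ s * b < 4 ^ s * 4 ^ (k + 1) := Nat.mul_lt_mul_of_pos_left hb.2 (by positivity)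
        _ = (2 ^ (k + s + 1)) ^ 2 := by rw [← pow_add, ← pow_mul, mul_comm (k + s + 1) 2, pow_mul]; congr 1; ring
    omega

/-- The length of the cells between `a` and `b`. -/
theorem btw_len (s a b : ℕ) : ((b : ℝ) - a) - 2 * (√(a : ℝ) + √(b : ℝ)) / 2 ^ s - 2 ≤ ∑ j ∈ btw s a b, len s j := by
  refine le_trans ?_ (len_ge s _ _)
  obtain ⟨m, hm⟩ : ∃ m : ℝ, m = 2 ^ s := ⟨_, rfl⟩
  have hm1 : 1 ≤ m := by rw [hm]; exact one_le_pow₀ (by norm_num)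
  have hm4 : (4 : ℝ) ^ s = m ^ 2 := by rw [hm, ← pow_mul, show (4 : ℝ) = 2 ^ 2 by norm_num, ← pow_mul]; ring_nf
  rw [← hm]
  obtain ⟨ja, hja⟩ : ∃ ja : ℕ, ja = Nat.sqrt (4 ^ s * a) := ⟨_, rfl⟩
  obtain ⟨jb, hjb⟩ : ∃ jb : ℕ, jb = Nat.sqrt (4 ^ s * b) := ⟨_, rfl⟩
  rw [← hja, ← hjb]
  have h1 := cl_ge s jb
  have h2 := cl_lt s (ja + 1)
  rw [hm4] at h1 h2
  have ha0 : 0 ≤ √(a : ℝ) := Real.sqrt_nonneg _
  have hb0 : 0 ≤ √(b : ℝ) := Real.sqrt_nonneg _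
  have ha2 := Real.sq_sqrt (Nat.cast_nonneg (α := ℝ) a)
  have hb2 := Real.sq_sqrt (Nat.cast_nonneg (α := ℝ) b)
  have e1 : (ja : ℝ) ≤ m * √(a : ℝ) := by
    have h3 : ja ^ 2 ≤ 4 ^ s * a := by rw [hja, pow_two]; exact Nat.sqrt_le _
    have h4 : ((ja : ℝ)) ^ 2 ≤ 4 ^ s * a := by exact_mod_cast h3
    rw [hm4] at h4
    refine abs_le_of_sq_le_sq' ?_ (by positivity) |>.2
    rw [mul_pow, ha2]
    exact h4
  have e2 : m * √(b : ℝ) ≤ (jb : ℝ) + 1 := by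
    have h3 : 4 ^ s * b < (jb + 1) ^ 2 := by rw [hjb, pow_two]; exact Nat.lt_succ_sqrt _
    have h4 : (4 : ℝ) ^ s * b < ((jb : ℝ) + 1) ^ 2 := by exact_mod_cast h3
    rw [hm4] at h4
    refine abs_le_of_sq_le_sq' ?_ (by positivity) |>.2
    rw [mul_pow, hb2]
    exact h4.le
  have e3 : (b : ℝ) - 2 * √(b : ℝ) / m ≤ (jb : ℝ) ^ 2 / m ^ 2 := by
    rw [le_div_iff₀ (by positivity)]
    have h5 : ((b : ℝ) - 2 * √(b : ℝ) / m) * m ^ 2 = m ^ 2 * b - 2 * (m * √(b : ℝ)) := by field_simp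
    rw [h5]
    have h6 : m ^ 2 * b = (m * √(b : ℝ)) ^ 2 := by rw [mul_pow, hb2]
    rw [h6]
    by_cases h7 : 2 ≤ m * √(b : ℝ)
    · nlinarith
    · have h8 : 0 ≤ m * √(b : ℝ) := by positivity
      have h9 : 0 ≤ (jb : ℝ) ^ 2 := by positivity
      nlinarith
  have e4 : ((ja : ℝ) + 1) ^ 2 / m ^ 2 ≤ (a : ℝ) + 2 * √(a : ℝ) / m + 1 := by
    rw [div_le_iff₀ (by positivity)]
    have h5 : ((a : ℝ) + 2 * √(a : ℝ) / m + 1) * m ^ 2 = m ^ 2 * a + 2 * (m * √(a : ℝ)) + m ^ 2 := by field_simp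
    rw [h5]
    have h6 : m ^ 2 * a = (m * √(a : ℝ)) ^ 2 := by rw [mul_pow, ha2]
    rw [h6]
    have h7 : (0 : ℝ) ≤ ja := Nat.cast_nonneg ja
    nlinarith
  push_cast at h2
  have e5 : 2 * (√(a : ℝ) + √(b : ℝ)) / m = 2 * √(a : ℝ) / m + 2 * √(b : ℝ) / m := by ring
  rw [e5]
  linarith

theorem holes {θ : ℝ} (hθ : 0 < θ) (s k : ℕ) (T : Finset ℕ) :
    total θ k ((T : Finset ℕ) : Set ℕ) * (1 - 2 / (θ * 2 ^ s)) - 2 * num θ k ((T : Finset ℕ) : Set ℕ) ≤ hol s k T := by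
  classical
  have h1 : (exceps θ k ((T : Finset ℕ) : Set ℕ)).biUnion (fun g => btw s g.1 g.2) ⊆
      (block (k + s)).filter (fun j => T ∩ cell s j = ∅) := by
    intro j hj
    rw [mem_biUnion] at hj
    obtain ⟨g, hg, hj⟩ := hj
    rw [mem_exceps] at hg
    rw [mem_filter]
    refine ⟨btw_sub hg.1.1 hg.1.2 hj, ?_⟩
    rw [eq_empty_iff_forall_notMem]
    intro x hx
    rw [mem_inter] at hx
    have h2 := btw_mem hj hx.2
    exact hg.2.1.2.2.2 x h2.1 h2.2 (by exact_mod_cast hx.1)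
  have h2 : ∑ j ∈ (exceps θ k ((T : Finset ℕ) : Set ℕ)).biUnion (fun g => btw s g.1 g.2), len s j ≤ hol s k T := by
    unfold hol
    refine (sum_le_sum_of_subset_of_nonneg h1 (fun j _ _ => len_nonneg s j)).trans (le_of_eq ?_)
    exact sum_congr (by ext j; simp only [mem_filter]) (fun _ _ => rfl)
  refine le_trans ?_ h2
  rw [sum_biUnion]
  · unfold total num
    rw [sum_mul, ← nsmul_eq_mul', ← sum_const, ← sum_sub_distrib]
    apply sum_le_sum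
    intro g hg
    rw [mem_exceps] at hg
    have h3 := btw_len s g.1 g.2
    have h4 := sqrt_sub (Nat.cast_nonneg g.1) (Nat.cast_nonneg (α := ℝ) g.2)
    have h5 : 0 ≤ √(g.2 : ℝ) + √(g.1 : ℝ) := by positivity
    have h6 : √(g.1 : ℝ) + √(g.2 : ℝ) ≤ ((g.2 : ℝ) - g.1) / θ := by
      rw [le_div_iff₀ hθ, h4]
      nlinarith [hg.2.2]
    have h7 : 2 * (√(g.1 : ℝ) + √(g.2 : ℝ)) / 2 ^ s ≤ 2 * (((g.2 : ℝ) - g.1) / θ) / 2 ^ s :=
      div_le_div_of_nonneg_right (by linarith) (by positivity)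
    have h8 : ((g.2 : ℝ) - g.1) * (1 - 2 / (θ * 2 ^ s)) = ((g.2 : ℝ) - g.1) - 2 * (((g.2 : ℝ) - g.1) / θ) / 2 ^ s := by
      field_simp
    rw [h8]
    linarith
  · intro g hg g' hg' hne
    simp only [Function.onFun]
    rcases exceps_sep (by exact_mod_cast hg) (by exact_mod_cast hg') hne with h | h
    · exact btw_disj h
    · exact (btw_disj h).symm

/-- The probability of a total length `L` of the gaps with distant square roots. -/
theorem andr_up {z : ℕ → ℕ} (hz : Small z) {θ ε : ℝ} (hθ : 0 < θ) (hε : 0 < ε) : ∀ᶠ k : ℕ in atTop, ∀ L : ℝ,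
    θ * 2 ^ (k + 1) ≤ L → PP (pr z) (Bk k) (fun T => L ≤ total θ k ((T : Finset ℕ) : Set ℕ)) ≤
      Real.exp (-((1 - ε) * (L / (2 * k * Real.log 2)))) := by
  have hp : ∀ n, 0 ≤ pr z n ∧ pr z n ≤ 1 := fun n => ⟨pr_nonneg z n, pr_le_one z n⟩
  obtain ⟨δ, hδ⟩ : ∃ δ : ℝ, δ = min ε 1 / 4 := ⟨_, rfl⟩
  have hδ0 : 0 < δ := by rw [hδ]; exact div_pos (lt_min hε one_pos) (by norm_num)
  have hδ1 : 4 * δ ≤ ε := by rw [hδ]; have := min_le_left ε 1; linarith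
  have hδ2 : 4 * δ ≤ 1 := by rw [hδ]; have := min_le_right ε 1; linarith
  have hl2 : 0 < Real.log 2 := Real.log_pos (by norm_num)
  obtain ⟨s, hs⟩ : ∃ s : ℕ, 2 / (θ * δ) < 2 ^ s := pow_unbounded_of_one_lt _ (by norm_num)
  have hs1 : 2 / (θ * 2 ^ s) ≤ δ := by
    rw [div_lt_iff₀ (by positivity)] at hs
    rw [div_le_iff₀ (by positivity)]
    nlinarith
  have hs2 : ∀ᶠ k : ℕ in atTop, 2 / (θ * 2 ^ (k + 1)) ≤ δ := by
    filter_upwards [eventually_ge_atTop s] with k hk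
    refine le_trans ?_ hs1
    apply div_le_div_of_nonneg_left (by norm_num) (by positivity)
    exact mul_le_mul_of_nonneg_left (pow_le_pow_right₀ (by norm_num) (by omega)) hθ.le
  filter_upwards [cells_up hz s hδ0 (show 0 < θ by exact hθ), hs2, eventually_ge_atTop 1] with k hk hk2 hk1 L hL
  have hX : (0 : ℝ) < 2 ^ k := by positivity
  have hL0 : 0 < L := lt_of_lt_of_le (by positivity) hL
  have hK0 : 0 < 2 * (k : ℝ) * Real.log 2 := by
    have : (1 : ℝ) ≤ k := by exact_mod_cast hk1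
    positivity
  have hC : θ * 2 ^ k ≤ (1 - 2 * δ) * L := by
    rw [pow_succ] at hL
    have h1 : (1 / 2) * L ≤ (1 - 2 * δ) * L := mul_le_mul_of_nonneg_right (by linarith) hL0.le
    nlinarith
  refine (PP_mono hp (fun T _ hT => ?_)).trans ((hk _ hC).trans ?_)
  · refine le_trans ?_ (holes hθ s k T)
    have h1 := total_ge hθ k ((T : Finset ℕ) : Set ℕ)
    obtain ⟨t, ht⟩ : ∃ t : ℝ, t = total θ k ((T : Finset ℕ) : Set ℕ) := ⟨_, rfl⟩
    obtain ⟨n, hn⟩ : ∃ n : ℝ, n = num θ k ((T : Finset ℕ) : Set ℕ) := ⟨_, rfl⟩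
    rw [← ht, ← hn] at h1 ⊢
    rw [← ht] at hT
    have hn0 : 0 ≤ n := by rw [hn]; exact Nat.cast_nonneg _
    have ht0 : 0 ≤ t := hL0.le.trans hT
    have h2 : n * (θ * 2 ^ (k + 1)) ≤ t := by
      refine le_trans ?_ h1
      have : 0 ≤ n * θ * (n * θ) := by positivity
      nlinarith
    have h3 : 2 * n ≤ δ * t := by
      have h4 : 2 * n ≤ 2 / (θ * 2 ^ (k + 1)) * t := by
        rw [div_mul_eq_mul_div, le_div_iff₀ (by positivity)]
        linarith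
      exact h4.trans (mul_le_mul_of_nonneg_right hk2 ht0)
    have h5 : t * (1 - δ) ≤ t * (1 - 2 / (θ * 2 ^ s)) := mul_le_mul_of_nonneg_left (by linarith) ht0
    have h6 : (1 - 2 * δ) * L ≤ (1 - 2 * δ) * t := mul_le_mul_of_nonneg_left hT (by linarith)
    linarith
  · apply Real.exp_le_exp.2
    have h1 : 0 ≤ L / (2 * (k : ℝ) * Real.log 2) := by positivity
    have h2 : (1 - 2 * δ) * L / (2 * (k : ℝ) * Real.log 2) = (1 - 2 * δ) * (L / (2 * (k : ℝ) * Real.log 2)) := by ring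
    rw [h2]
    obtain ⟨Q, hQ⟩ : ∃ Q : ℝ, Q = L / (2 * (k : ℝ) * Real.log 2) := ⟨_, rfl⟩
    rw [← hQ] at h1 ⊢
    have h3 : (1 - ε) * Q ≤ ((1 - δ) * (1 - 2 * δ)) * Q := by
      apply mul_le_mul_of_nonneg_right _ h1
      nlinarith
    linarith

end Pool.Agent.Q197.WN
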