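import Pool.Agent.Q197.WN.AndrB

/-!
# Patterns of cells give distant square roots
-/

set_option autoImplicit false

namespace Pool.Agent.Q197.WN

open Finset MeasureTheory Filter Pool.Agent.Q120.TT Pool.Agent.Q120.ET Pool.Agent.Q120.GM
  Pool.Agent.Q120.CL
open scoped Topology

theorem cell_sub {s k j x : ℕ} (hj : j ∈ block (k + s)) (hx : x ∈ cell s j) : x ∈ Bk k := by
  rw [← cells_union s k, mem_biUnion]
  exact ⟨j, hj, hx⟩

theorem cell_le {s i j x y : ℕ} (hx : x ∈ cell s i) (hy : y ∈ cell s j) (h : i < j) : x < y := by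
  rw [mem_cell] at hx hy
  by_contra hcon
  rw [not_lt] at hcon
  have h1 : 4 ^ s * y ≤ 4 ^ s * x := Nat.mul_le_mul_left _ hcon
  have h2 : (i + 1) ^ 2 ≤ j ^ 2 := Nat.pow_le_pow_left h 2
  omega

theorem cell_eq {s i j x : ℕ} (hx : x ∈ cell s i) (hy : x ∈ cell s j) : i = j := by
  rcases lt_trichotomy i j with h | h | h
  · exact absurd (cell_le hx hy h) (lt_irrefl _)
  · exact h
  · exact absurd (cell_le hy hx h) (lt_irrefl _)

theorem cell_own (s x : ℕ) : x ∈ cell s (Nat.sqrt (4 ^ s * x)) := by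
  rw [mem_cell]
  exact ⟨by rw [pow_two]; exact Nat.sqrt_le _, by rw [pow_two]; exact Nat.lt_succ_sqrt _⟩

theorem cell_sqrt {s j x : ℕ} (hx : x ∈ cell s j) : (j : ℝ) / 2 ^ s ≤ √(x : ℝ) ∧ √(x : ℝ) ≤ ((j : ℝ) + 1) / 2 ^ s := by
  rw [mem_cell] at hx
  have h4 : (4 : ℝ) ^ s = (2 ^ s) ^ 2 := by rw [← pow_mul, mul_comm, pow_mul]; norm_num
  constructor
  · apply Real.le_sqrt_of_sq_le
    rw [div_pow, div_le_iff₀ (by positivity), ← h4, mul_comm]
    exact_mod_cast hx.1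
  · rw [Real.sqrt_le_left (by positivity), div_pow, le_div_iff₀ (by positivity), ← h4, mul_comm]
    exact_mod_cast hx.2.le

/-- A pattern gives `M` pairs. -/
theorem patt_num {s k g M : ℕ} {θ : ℝ} (hg : θ * 2 ^ s ≤ g) (hg1 : 1 ≤ g) (hM : M * (g + 1) + 1 ≤ 2 ^ (k + s)) {T : Finset ℕ}
    (hT : Patt s k g M T) : M ≤ num θ k ((T : Finset ℕ) : Set ℕ) := by
  classical
  obtain ⟨A, hA⟩ : ∃ A, A = 2 ^ (k + s) := ⟨_, rfl⟩
  have hsub := seps_sub hM
  obtain ⟨hT1, hT2⟩ := hT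
  rw [← hA] at hT1 hT2 hsub
  have hsep : ∀ i ≤ M, A + i * (g + 1) ∈ seps A g M := by
    intro i hi
    unfold seps
    rw [mem_image]
    exact ⟨i, mem_range.2 (by omega), rfl⟩
  have hmax : ∀ i ≤ M, ∃ x ∈ T ∩ cell s (A + i * (g + 1)), ∀ y ∈ T ∩ cell s (A + i * (g + 1)), y ≤ x := by
    intro i hi
    have h := hT2 _ (hsep i hi)
    exact ⟨_, max'_mem _ h, fun y hy => le_max' _ y hy⟩
  have hmin : ∀ i ≤ M, ∃ x ∈ T ∩ cell s (A + i * (g + 1)), ∀ y ∈ T ∩ cell s (A + i * (g + 1)), x ≤ y := by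
    intro i hi
    have h := hT2 _ (hsep i hi)
    exact ⟨_, min'_mem _ h, fun y hy => min'_le _ y hy⟩
  choose! a ha1 ha2 using hmax
  choose! b hb1 hb2 using hmin
  have hmap : ∀ i ∈ range M, (a i, b (i + 1)) ∈ exceps θ k ((T : Finset ℕ) : Set ℕ) := by
    intro i hi
    rw [mem_range] at hi
    have h1 := mem_inter.1 (ha1 i hi.le)
    have h2 := mem_inter.1 (hb1 (i + 1) hi)
    rw [mem_exceps]
    refine ⟨⟨cell_sub (hsub (hsep i hi.le)) h1.2, cell_sub (hsub (hsep (i + 1) hi)) h2.2⟩, ⟨?_, ?_, ?_, ?_⟩, ?_⟩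
    · exact_mod_cast h1.1
    · exact_mod_cast h2.1
    · exact cell_le h1.2 h2.2 (by nlinarith)
    · intro x hx1 hx2 hxT
      have hxT' : x ∈ T := by exact_mod_cast hxT
      have hx := cell_own s x
      obtain ⟨j, hj⟩ : ∃ j, j = Nat.sqrt (4 ^ s * x) := ⟨_, rfl⟩
      rw [← hj] at hx
      have hj1 : A + i * (g + 1) ≤ j := by
        by_contra hcon
        rw [not_le] at hcon
        have := cell_le hx h1.2 hcon
        simp only at hx1
        omega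
      have hj2 : j ≤ A + (i + 1) * (g + 1) := by
        by_contra hcon
        rw [not_le] at hcon
        have := cell_le h2.2 hx hcon
        simp only at hx2
        omega
      rcases hj1.lt_or_eq with h3 | h3
      · rcases hj2.lt_or_eq with h4 | h4
        · have h5 : j ∈ runs A g M := by
            unfold runs run
            rw [mem_biUnion]
            exact ⟨i, mem_range.2 hi, mem_Ico.2 ⟨h3, h4⟩⟩
          have h6 := hT1 j h5
          rw [eq_empty_iff_forall_notMem] at h6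
          exact h6 x (mem_inter.2 ⟨hxT', hx⟩)
        · rw [h4] at hx
          have := hb2 (i + 1) hi x (mem_inter.2 ⟨hxT', hx⟩)
          simp only at hx2
          omega
      · rw [← h3] at hx
        have := ha2 i hi.le x (mem_inter.2 ⟨hxT', hx⟩)
        simp only at hx1
        omega
    · have h3 := (cell_sqrt h1.2).2
      have h4 := (cell_sqrt h2.2).1
      push_cast at h3 h4
      have h5 : θ ≤ ((A : ℝ) + (i + 1) * (g + 1)) / 2 ^ s - ((A : ℝ) + i * (g + 1) + 1) / 2 ^ s := by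
        rw [← sub_div, le_div_iff₀ (by positivity)]
        linarith
      simp only
      linarith
  unfold num
  rw [← card_range M]
  refine card_le_card_of_injOn (fun i => (a i, b (i + 1))) hmap ?_
  intro i hi j hj hij
  simp only [coe_range, Set.mem_Iio] at hi hj
  have h1 := (mem_inter.1 (ha1 i hi.le)).2
  have h2 := (mem_inter.1 (ha1 j hj.le)).2
  simp only [Prod.mk.injEq] at hij
  rw [hij.1] at h1
  have h3 := cell_eq h1 h2
  have h4 : i * (g + 1) = j * (g + 1) := by omega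
  exact Nat.eq_of_mul_eq_mul_right (by omega) h4

theorem runs_len (s A g M : ℕ) : ∑ j ∈ runs A g M, len s j ≤
    (g : ℝ) * (2 * A * M + M ^ 2 * (g + 1) + M) / 4 ^ s + M := by
  rw [runs_sum]
  have h1 : ∀ i ∈ range M, ((cl s (A + (i + 1) * (g + 1)) : ℝ) - cl s (A + i * (g + 1) + 1)) ≤
      (g : ℝ) * (2 * A + (2 * i + 1) * (g + 1) + 1) / 4 ^ s + 1 := by
    intro i _
    have h2 := cl_lt s (A + (i + 1) * (g + 1))
    have h3 := cl_ge s (A + i * (g + 1) + 1)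
    push_cast at h2 h3
    have h4 : (g : ℝ) * (2 * A + (2 * i + 1) * (g + 1) + 1) / 4 ^ s =
        ((A : ℝ) + (i + 1) * (g + 1)) ^ 2 / 4 ^ s - ((A : ℝ) + i * (g + 1) + 1) ^ 2 / 4 ^ s := by
      rw [← sub_div]
      congr 1
      ring
    rw [h4]
    linarith
  refine (sum_le_sum h1).trans (le_of_eq ?_)
  clear h1
  induction M with
  | zero => simp
  | succ n ih =>
    rw [sum_range_succ, ih]
    push_cast
    ring

theorem patt_size {θ ε : ℝ} (hθ : 0 < θ) (hε : 0 < ε) (hε1 : ε < 1) : ∃ s g : ℕ, 1 ≤ g ∧ θ * 2 ^ s ≤ g ∧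
    ∀ᶠ k : ℕ in atTop, ∀ M : ℕ, 1 ≤ M → θ * M ≤ (1 - ε) * 2 ^ k → M * (g + 1) + 1 ≤ 2 ^ (k + s) ∧
      ∑ j ∈ runs (2 ^ (k + s)) g M, len s j ≤ (1 + ε) * (M * θ * (2 ^ (k + 1) + M * θ)) := by
  obtain ⟨δ, hδ⟩ : ∃ δ : ℝ, δ = ε / 16 := ⟨_, rfl⟩
  have hδ0 : 0 < δ := by rw [hδ]; positivity
  obtain ⟨s, hs⟩ : ∃ s : ℕ, 2 / (θ * δ) < 2 ^ s := pow_unbounded_of_one_lt _ (by norm_num)
  obtain ⟨m, hm⟩ : ∃ m : ℝ, m = 2 ^ s := ⟨_, rfl⟩
  have hm1 : 1 ≤ m := by rw [hm]; exact one_le_pow₀ (by norm_num)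
  have hm4 : (4 : ℝ) ^ s = m ^ 2 := by rw [hm, ← pow_mul, show (4 : ℝ) = 2 ^ 2 by norm_num, ← pow_mul]; ring_nf
  rw [← hm, div_lt_iff₀ (by positivity)] at hs
  have hs1 : 2 ≤ δ * (θ * m) := by nlinarith
  refine ⟨s, ⌈θ * 2 ^ s⌉₊, Nat.one_le_iff_ne_zero.2 (Nat.ceil_pos.2 (by positivity)).ne', Nat.le_ceil _, ?_⟩
  obtain ⟨g, hg⟩ : ∃ g, g = ⌈θ * 2 ^ s⌉₊ := ⟨_, rfl⟩
  rw [← hg]
  have hg1 : (g : ℝ) ≤ θ * m + 1 := by rw [hg, hm]; exact (Nat.ceil_lt_add_one (by positivity)).le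
  have hg2 : (g : ℝ) + 1 ≤ (1 + δ) * (θ * m) := by nlinarith
  have hg0 : (0 : ℝ) ≤ g := Nat.cast_nonneg g
  have hlim : Tendsto (fun k : ℕ => (2 : ℝ) ^ k) atTop atTop := tendsto_pow_atTop_atTop_of_one_lt (by norm_num)
  filter_upwards [hlim.eventually_ge_atTop (2 / ε), hlim.eventually_ge_atTop (((1 + δ) ^ 2 + 1 / θ) / δ)] with k hk1 hk2 M hM hMk
  obtain ⟨X, hX⟩ : ∃ X : ℝ, X = 2 ^ k := ⟨_, rfl⟩
  rw [← hX] at hk1 hk2 hMk
  have hX0 : 0 < X := by rw [hX]; positivity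
  rw [div_le_iff₀ hε] at hk1
  rw [div_le_iff₀ hδ0] at hk2
  have hM1 : (1 : ℝ) ≤ M := by exact_mod_cast hM
  have hA : (((2 ^ (k + s) : ℕ)) : ℝ) = X * m := by rw [hX, hm, ← pow_add]; push_cast; rfl
  constructor
  · have h1 : (M : ℝ) * (g + 1) + 1 ≤ (2 ^ (k + s) : ℕ) := by
      rw [hA]
      have h2 : (M : ℝ) * (g + 1) ≤ M * ((1 + δ) * (θ * m)) := mul_le_mul_of_nonneg_left hg2 (by positivity)
      have h3 : (M : ℝ) * ((1 + δ) * (θ * m)) = (1 + δ) * m * (θ * M) := by ring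
      have h4 : (1 + δ) * m * (θ * M) ≤ (1 + δ) * m * ((1 - ε) * X) := mul_le_mul_of_nonneg_left hMk (by positivity)
      have h5 : (1 + δ) * m * ((1 - ε) * X) ≤ (1 - ε / 2) * (X * m) := by
        have h6 : (1 + δ) * (1 - ε) ≤ 1 - ε / 2 := by rw [hδ]; nlinarith
        have h7 : 0 ≤ X * m := by positivity
        have := mul_le_mul_of_nonneg_right h6 h7
        nlinarith
      have h8 : 1 ≤ ε / 2 * (X * m) := by
        have h9 : ε / 2 * X ≤ ε / 2 * X * m := le_mul_of_one_le_right (by positivity) hm1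
        nlinarith
      nlinarith
    exact_mod_cast h1
  · refine (runs_len s _ g M).trans ?_
    rw [hA, hm4, pow_succ (2 : ℝ) k, ← hX]
    have h1 : (g : ℝ) * (2 * (X * m) * M + M ^ 2 * (g + 1) + M) / m ^ 2 ≤ (1 + δ) ^ 2 * (M * θ) * (X * 2 + M * θ + 1) := by
      rw [div_le_iff₀ (by positivity)]
      have h2 : 2 * (X * m) * M + M ^ 2 * ((g : ℝ) + 1) + M ≤ (1 + δ) * (m * M * (X * 2 + M * θ + 1)) := by
        have h3 : (M : ℝ) ^ 2 * (g + 1) ≤ M ^ 2 * ((1 + δ) * (θ * m)) := mul_le_mul_of_nonneg_left hg2 (by positivity)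
        have h4 : (M : ℝ) ≤ (1 + δ) * (m * M) := by
          have h5 : (M : ℝ) ≤ m * M := le_mul_of_one_le_left (by positivity) hm1
          have h6 : 0 ≤ δ * (m * M) := by positivity
          linarith
        have h7 : 0 ≤ δ * (2 * (X * m) * M) := by positivity
        nlinarith
      have h3 : (g : ℝ) ≤ (1 + δ) * (θ * m) := by linarith
      calc (g : ℝ) * (2 * (X * m) * M + M ^ 2 * (g + 1) + M) ≤
          (1 + δ) * (θ * m) * ((1 + δ) * (m * M * (X * 2 + M * θ + 1))) :=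
            mul_le_mul h3 h2 (by positivity) (by positivity)
        _ = (1 + δ) ^ 2 * (M * θ) * (X * 2 + M * θ + 1) * m ^ 2 := by ring
    have h2 : (M : ℝ) = M * θ * (1 / θ) := by field_simp
    have h3 : (1 + δ) ^ 2 * (M * θ) * (X * 2 + M * θ + 1) + M ≤ (M * θ) * ((1 + δ) ^ 2 * (X * 2 + M * θ) + δ * X) := by
      have h4 : (M : ℝ) * θ * ((1 + δ) ^ 2 + 1 / θ) ≤ M * θ * (X * δ) := mul_le_mul_of_nonneg_left hk2 (by positivity)
      nlinarith
    have h4 : (1 + δ) ^ 2 * (X * 2 + M * θ) + δ * X ≤ (1 + ε) * (X * 2 + M * θ) := by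
      have h5 : (1 + δ) ^ 2 ≤ 1 + 3 * δ := by
        have : δ ≤ 1 := by rw [hδ]; linarith
        nlinarith
      have h6 : 0 ≤ M * θ := by positivity
      have h7 : (1 + δ) ^ 2 * (X * 2 + M * θ) ≤ (1 + 3 * δ) * (X * 2 + M * θ) :=
        mul_le_mul_of_nonneg_right h5 (by positivity)
      have h8 : 4 * δ * (X * 2 + M * θ) ≤ ε * (X * 2 + M * θ) :=
        mul_le_mul_of_nonneg_right (by rw [hδ]; linarith) (by positivity)
      have h9 : 0 ≤ δ * (X + M * θ) := by positivity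
      nlinarith
    calc (g : ℝ) * (2 * (X * m) * M + M ^ 2 * (g + 1) + M) / m ^ 2 + M ≤
        (1 + δ) ^ 2 * (M * θ) * (X * 2 + M * θ + 1) + M := by linarith
      _ ≤ (M * θ) * ((1 + δ) ^ 2 * (X * 2 + M * θ) + δ * X) := h3
      _ ≤ (M * θ) * ((1 + ε) * (X * 2 + M * θ)) := mul_le_mul_of_nonneg_left h4 (by positivity)
      _ = (1 + ε) * (M * θ * (X * 2 + M * θ)) := by ring

/-- The probability of `M` pairs. -/
theorem andr_lo {z : ℕ → ℕ} (hz : Small z) {θ ε : ℝ} (hθ : 0 < θ) (hε : 0 < ε) (hε1 : ε < 1) :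
    ∀ᶠ k : ℕ in atTop, ∀ M : ℕ, 1 ≤ M → θ * M ≤ (1 - ε) * 2 ^ k →
      Real.exp (-((1 + ε) * (M * θ * (2 ^ (k + 1) + M * θ) / (2 * k * Real.log 2)))) ≤
        PP (pr z) (Bk k) (fun T => M ≤ num θ k ((T : Finset ℕ) : Set ℕ)) := by
  have hp : ∀ n, 0 ≤ pr z n ∧ pr z n ≤ 1 := fun n => ⟨pr_nonneg z n, pr_le_one z n⟩
  obtain ⟨δ, hδ⟩ : ∃ δ : ℝ, δ = ε / 8 := ⟨_, rfl⟩
  have hδ0 : 0 < δ := by rw [hδ]; positivity
  have hl2 : 0 < Real.log 2 := Real.log_pos (by norm_num)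
  have hl21 : Real.log 2 ≤ 1 := by have := Real.log_two_lt_d9; linarith
  obtain ⟨s, g, hg1, hg, hk⟩ := patt_size hθ hδ0 (by linarith : δ < 1)
  filter_upwards [hk, patt_prob hz s hδ0, two_pow_big 0 (show 0 < δ * θ by positivity), eventually_ge_atTop 1] with
    k hk hpp hbig hk1 M hM hMk
  have hMk' : θ * M ≤ (1 - δ) * 2 ^ k := hMk.trans (mul_le_mul_of_nonneg_right (by linarith) (by positivity))
  obtain ⟨h1, h2⟩ := hk M hM hMk'
  refine le_trans (Real.exp_le_exp.2 ?_) ((hpp g M h1).trans (PP_mono hp (fun T _ hT => patt_num hg hg1 h1 hT)))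
  have hk0 : (1 : ℝ) ≤ k := by exact_mod_cast hk1
  obtain ⟨K, hK⟩ : ∃ K, K = 2 * (k : ℝ) * Real.log 2 := ⟨_, rfl⟩
  have hK0 : 0 < K := by rw [hK]; positivity
  obtain ⟨V, hV⟩ : ∃ V : ℝ, V = M * θ * (2 ^ (k + 1) + M * θ) := ⟨_, rfl⟩
  obtain ⟨S, hS⟩ : ∃ S : ℝ, S = ∑ j ∈ runs (2 ^ (k + s)) g M, len s j := ⟨_, rfl⟩
  rw [← hK, ← hV, ← hS]
  rw [← hV, ← hS] at h2
  have hM1 : (1 : ℝ) ≤ M := by exact_mod_cast hM
  have hV1 : 2 * θ * 2 ^ k ≤ V := by
    rw [hV, pow_succ]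
    have h3 : (0 : ℝ) < 2 ^ k := by positivity
    have h4 : θ * (2 ^ k * 2) ≤ M * θ * (2 ^ k * 2) := by
      apply mul_le_mul_of_nonneg_right _ (by positivity)
      exact le_mul_of_one_le_left hθ.le hM1
    have h5 : (0 : ℝ) ≤ M * θ * (M * θ) := by positivity
    nlinarith
  have hV0 : 0 ≤ V := le_trans (by positivity) hV1
  have h3 : 1 ≤ δ * (V / K) := by
    rw [mul_div_assoc', le_div_iff₀ hK0, hK]
    push_cast at hbig
    have h4 : δ * (2 * θ * 2 ^ k) ≤ δ * V := mul_le_mul_of_nonneg_left hV1 hδ0.le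
    have h5 : 2 * (k : ℝ) * Real.log 2 ≤ 2 * (k + 0 + 1) ^ 2 := by nlinarith
    nlinarith
  have h4 : S / K ≤ (1 + δ) * (V / K) := by
    rw [mul_div_assoc']
    exact div_le_div_of_nonneg_right h2 hK0.le
  have h5 : 0 ≤ V / K := div_nonneg hV0 hK0.le
  have h6 : (1 + δ) * (S / K) ≤ (1 + δ) * ((1 + δ) * (V / K)) := mul_le_mul_of_nonneg_left h4 (by linarith)
  have h7 : ((1 + δ) * (1 + δ) + δ) * (V / K) ≤ (1 + ε) * (V / K) := by
    apply mul_le_mul_of_nonneg_right _ h5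
    have : δ ≤ 1 := by rw [hδ]; linarith
    nlinarith
  nlinarith

end Pool.Agent.Q197.WN
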