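import Pool.Agent.Q197.WN.AndrC

/-!
# The number of pairs with distant square roots: price and budget
-/

set_option autoImplicit false

namespace Pool.Agent.Q197.WN

open Finset MeasureTheory Filter Pool.Agent.Q120.TT Pool.Agent.Q120.ET Pool.Agent.Q120.GM
  Pool.Agent.Q120.CL
open scoped Topology

theorem num_tr {Ω : Type} (A : Ω → Set ℕ) (θ : ℝ) (k : ℕ) (ω : Ω) :
    num θ k ((tr A (Bk k) ω : Finset ℕ) : Set ℕ) = num θ k (A ω) := by
  classical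
  unfold num
  congr 1
  apply exceps_congr
  intro x hx
  unfold tr
  rw [mem_coe, mem_filter]
  exact ⟨fun h => h.2, fun h => ⟨hx, h⟩⟩

theorem pr_half {z : ℕ → ℕ} (hz : Small z) : ∀ᶠ k : ℕ in atTop, ∀ n ∈ Bk k, pr z n ≤ 1 / 2 := by
  obtain ⟨N, hN⟩ := eventually_atTop.1 (pr_tendsto hz (show (0 : ℝ) < 1 / 2 by norm_num))
  filter_upwards [eventually_ge_atTop N] with k hk n hn
  apply hN
  unfold Bk at hn
  rw [mem_Ico] at hn
  have h1 : k < 4 ^ k := Nat.lt_pow_self (by norm_num)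
  omega

/-- The price of `M` pairs. -/
noncomputable def fee (θ : ℝ) (k M : ℕ) : ℝ := M * θ * (2 ^ (k + 1) + M * θ) / (2 * k * Real.log 2)

theorem num_up {z : ℕ → ℕ} (hz : Small z) {θ ε : ℝ} (hθ : 0 < θ) (hε : 0 < ε) : ∀ᶠ k : ℕ in atTop, ∀ M : ℕ, 1 ≤ M →
    PP (pr z) (Bk k) (fun T => M ≤ num θ k ((T : Finset ℕ) : Set ℕ)) ≤ Real.exp (-((1 - ε) * fee θ k M)) := by
  have hp : ∀ n, 0 ≤ pr z n ∧ pr z n ≤ 1 := fun n => ⟨pr_nonneg z n, pr_le_one z n⟩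
  filter_upwards [andr_up hz hθ hε] with k hk M hM
  have hM1 : (1 : ℝ) ≤ M := by exact_mod_cast hM
  have h1 : θ * 2 ^ (k + 1) ≤ M * θ * (2 ^ (k + 1) + M * θ) := by
    have h2 : θ * 2 ^ (k + 1) ≤ M * θ * 2 ^ (k + 1) :=
      mul_le_mul_of_nonneg_right (le_mul_of_one_le_left hθ.le hM1) (by positivity)
    have h3 : (0 : ℝ) ≤ M * θ * (M * θ) := by positivity
    nlinarith
  refine (PP_mono hp (fun T _ hT => ?_)).trans (hk _ h1)
  refine le_trans ?_ (total_ge hθ k ((T : Finset ℕ) : Set ℕ))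
  have h2 : (M : ℝ) ≤ num θ k ((T : Finset ℕ) : Set ℕ) := by exact_mod_cast hT
  gcongr

theorem fee_bounds {θ : ℝ} (hθ : 0 < θ) {k M : ℕ} (hk : 1 ≤ k) (h : θ * M ≤ 2 ^ k) :
    θ / Real.log 2 * (M * 2 ^ k / k) ≤ fee θ k M ∧ fee θ k M ≤ 2 * (θ / Real.log 2) * (M * 2 ^ k / k) := by
  have hl2 : 0 < Real.log 2 := Real.log_pos (by norm_num)
  have hk0 : (0 : ℝ) < k := by exact_mod_cast hk
  have h0 : 0 ≤ (M : ℝ) * θ := by positivity
  unfold fee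
  rw [pow_succ]
  constructor
  · rw [le_div_iff₀ (by positivity)]
    have e : θ / Real.log 2 * (M * 2 ^ k / k) * (2 * k * Real.log 2) = M * θ * (2 ^ k * 2) := by
      field_simp
    rw [e]
    nlinarith
  · rw [div_le_iff₀ (by positivity)]
    have e : 2 * (θ / Real.log 2) * (M * 2 ^ k / k) * (2 * k * Real.log 2) = M * θ * (2 ^ k * 4) := by
      field_simp
      ring
    rw [e]
    apply mul_le_mul_of_nonneg_left _ h0
    have : (0 : ℝ) < 2 ^ k := by positivity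
    nlinarith

/-- The upper bound of the price. -/
theorem andr_price {z : ℕ → ℕ} (hz : Small z) {θ ε : ℝ} (hθ : 0 < θ) (hε : 0 < ε) : ∀ᶠ k : ℕ in atTop,
    ∀ (Ω : Type) [MeasurableSpace Ω] (μ : Measure Ω) [IsProbabilityMeasure μ] (A : Ω → Set ℕ), IsRandomSet A →
      (∀ᵐ ω ∂μ, ∀ n ∈ A ω, 0 < pr z n) → ∀ M : ℕ, 1 ≤ M →
        (1 - ε) * fee θ k M * μ.real {ω | M ≤ num θ k (A ω)} ≤ 1 + relEnt (pr z) μ A (Bk k) := by
  have hp : ∀ n, 0 ≤ pr z n ∧ pr z n ≤ 1 := fun n => ⟨pr_nonneg z n, pr_le_one z n⟩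
  filter_upwards [num_up hz hθ hε, pr_half hz] with k hk hk2 Ω _ μ _ A hA hs M hM
  have h1 := ev_price hp hk2 (hk M hM) hA hs
  simp only [num_tr] at h1
  exact h1

/-- The price is attained. -/
theorem andr_exists {z : ℕ → ℕ} (hz : Small z) {θ ε : ℝ} (hθ : 0 < θ) (hε : 0 < ε) (hε1 : ε < 1) {M : ℕ → ℕ} (hM : ∀ k, 1 ≤ M k)
    (hMk : ∀ k, θ * M k ≤ (1 - ε) * 2 ^ k) {q : ℕ → ℝ} (hq0 : ∀ k, 0 ≤ q k) (hq1 : ∀ k, q k ≤ 1) :
    ∃ (Ω : Type) (_ : MeasurableSpace Ω) (μ : Measure Ω) (_ : IsProbabilityMeasure μ) (A : Ω → Set ℕ),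
      Near (pr z) Bk (fun k => (1 + ε) * (q k * fee θ k (M k))) μ A ∧ (∀ᶠ k : ℕ in atTop, q k ≤ μ.real {ω | M k ≤ num θ k (A ω)}) ∧
      (¬ Summable q → ∀ᵐ ω ∂μ, ∃ᶠ k : ℕ in atTop, M k ≤ num θ k (A ω)) := by
  have hp : ∀ n, 0 ≤ pr z n ∧ pr z n ≤ 1 := fun n => ⟨pr_nonneg z n, pr_le_one z n⟩
  obtain ⟨Ω, m, μ, hμ, A, h1, h2, h3, h4, h5⟩ := event_down (B := Bk) (F := fun k T => M k ≤ num θ k ((T : Finset ℕ) : Set ℕ))
    (v := fun k => (1 + ε) * fee θ k (M k)) hp Bk_disj (by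
      filter_upwards [andr_lo hz hθ hε hε1] with k hk
      exact hk (M k) (hM k) (hMk k)) hq0 hq1
  simp only [num_tr] at h4 h5
  refine ⟨Ω, m, μ, hμ, A, ⟨h1, h2, ?_⟩, h4, h5⟩
  filter_upwards [h3] with k hk
  refine hk.trans (le_of_eq ?_)
  ring

/-- The budget. -/
theorem andr_budget {z : ℕ → ℕ} (hz : Small z) {θ δ : ℝ} (hθ : 0 < θ) (hδ : 0 < δ) {M : ℕ → ℕ} (hM : ∀ k, 1 ≤ M k)
    (hMk : ∀ k, θ * M k ≤ (1 - δ) * 2 ^ k) {d : ℕ → ℝ} (hd : ∀ k, 0 ≤ d k) :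
    (Summable (fun k : ℕ => d k * k / (2 ^ k * M k)) ↔ ∀ (Ω : Type) [MeasurableSpace Ω] (μ : Measure Ω) [IsProbabilityMeasure μ]
      (A : Ω → Set ℕ), Near (pr z) Bk d μ A → ∀ᵐ ω ∂μ, ∀ᶠ k : ℕ in atTop, num θ k (A ω) < M k) ∧
    (¬ Summable (fun k : ℕ => d k * k / (2 ^ k * M k)) → ∃ (Ω : Type) (_ : MeasurableSpace Ω) (μ : Measure Ω)
      (_ : IsProbabilityMeasure μ) (A : Ω → Set ℕ), Near (pr z) Bk d μ A ∧ ∀ᵐ ω ∂μ, ∃ᶠ k : ℕ in atTop, M k ≤ num θ k (A ω)) := by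
  have hp : ∀ n, 0 ≤ pr z n ∧ pr z n ≤ 1 := fun n => ⟨pr_nonneg z n, pr_le_one z n⟩
  have hl2 : 0 < Real.log 2 := Real.log_pos (by norm_num)
  obtain ⟨ε, hε⟩ : ∃ ε : ℝ, ε = min δ (1 / 2) := ⟨_, rfl⟩
  have hε0 : 0 < ε := by rw [hε]; exact lt_min hδ (by norm_num)
  have hεδ : ε ≤ δ := by rw [hε]; exact min_le_left _ _
  have hε2 : ε ≤ 1 / 2 := by rw [hε]; exact min_le_right _ _
  have hMk' : ∀ k, θ * M k ≤ (1 - ε) * 2 ^ k := fun k =>
    (hMk k).trans (mul_le_mul_of_nonneg_right (by linarith) (by positivity))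
  have hMk2 : ∀ k, θ * M k ≤ 2 ^ k := fun k => (hMk' k).trans (by
    have : (0 : ℝ) < 2 ^ k := by positivity
    nlinarith)
  have h1 := ev_iff (B := Bk) (F := fun k T => M k ≤ num θ k ((T : Finset ℕ) : Set ℕ)) (v := fun k => (M k : ℝ) * 2 ^ k / k)
    (c := 1 / 2 * (θ / Real.log 2)) (C := 3 / 2 * (2 * (θ / Real.log 2))) hp Bk_disj (pr_half hz) (by positivity) (by positivity)
    (by
      filter_upwards [num_up hz hθ (show (0 : ℝ) < 1 / 2 by norm_num), eventually_ge_atTop 1] with k hk hk1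
      refine (hk (M k) (hM k)).trans (Real.exp_le_exp.2 ?_)
      have := (fee_bounds hθ hk1 (hMk2 k)).1
      linarith)
    (by
      filter_upwards [andr_lo hz hθ hε0 (by linarith), eventually_ge_atTop 1] with k hk hk1
      refine le_trans (Real.exp_le_exp.2 ?_) (hk (M k) (hM k) (hMk' k))
      have h2 := fee_bounds hθ hk1 (hMk2 k)
      have h3 : 0 ≤ fee θ k (M k) := le_trans (by positivity) h2.1
      have h4 : (1 + ε) * fee θ k (M k) ≤ 3 / 2 * fee θ k (M k) := mul_le_mul_of_nonneg_right (by linarith) h3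
      have h5 : (1 + ε) * (M k * θ * (2 ^ (k + 1) + M k * θ) / (2 * k * Real.log 2)) = (1 + ε) * fee θ k (M k) := rfl
      rw [h5]
      linarith [h2.2])
    (by
      have hlim := (tendsto_pow_const_div_const_pow_of_one_lt 3 (show (1 : ℝ) < 2 by norm_num)).eventually_lt_const
        (show (0 : ℝ) < 1 / 2 * (θ / Real.log 2) by positivity)
      filter_upwards [hlim, eventually_ge_atTop 1] with k hk hk1
      have hk0 : (0 : ℝ) < k := by exact_mod_cast hk1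
      have hM1 : (1 : ℝ) ≤ M k := by exact_mod_cast hM k
      rw [div_lt_iff₀ (by positivity)] at hk
      rw [mul_div_assoc', le_div_iff₀ hk0]
      have h2 : (2 : ℝ) ^ k ≤ M k * 2 ^ k := le_mul_of_one_le_left (by positivity) hM1
      have h3 : 1 / 2 * (θ / Real.log 2) * 2 ^ k ≤ 1 / 2 * (θ / Real.log 2) * (M k * 2 ^ k) :=
        mul_le_mul_of_nonneg_left h2 (by positivity)
      have h4 : (k : ℝ) ^ 2 * k = k ^ 3 := by ring
      rw [h4]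
      linarith) hd
  simp only [num_tr, not_le] at h1
  have e : (fun k : ℕ => d k / ((M k : ℝ) * 2 ^ k / k)) = (fun k : ℕ => d k * k / (2 ^ k * M k)) := by
    funext k
    rw [div_div_eq_mul_div, mul_comm (M k : ℝ)]
  rw [e] at h1
  exact h1

end Pool.Agent.Q197.WN
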