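import Pool.Agent.Q197.WN.Half
import Pool.Agent.Q197.WN.AdvB

/-!
# The squares of consecutive elements: the windows between odd squares
-/

set_option autoImplicit false

namespace Pool.Agent.Q197.WN

open Finset MeasureTheory Filter Pool.Agent.Q120.TT Pool.Agent.Q120.ET Pool.Agent.Q120.GM
  Pool.Agent.Q120.CL Pool.Agent.Q120.MG Pool.Agent.Q120.HL
open scoped Topology

def bu (n : ℕ) : ℕ := (2 * n + 1) ^ 2 + 1

def bv (n : ℕ) : ℕ := (2 * n + 3) ^ 2

/-- The integers strictly between the squares of `2 n + 1` and `2 n + 3`. -/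
def bW (n : ℕ) : Finset ℕ := Ico (bu n) (bv n)

/-- The expected number. -/
noncomputable def bE (n : ℕ) : ℝ := 8 * n / (2 * Real.log n)

theorem bro_wins : Wins bu bv (1 / 4) := by
  refine Wins.of ?_ ?_ ?_ ?_
  · filter_upwards with n
    unfold bu
    nlinarith
  · filter_upwards with n
    have e : bv n - bu n = 8 * n + 7 := by
      unfold bv bu
      have : (2 * n + 3) ^ 2 = (2 * n + 1) ^ 2 + 1 + (8 * n + 7) := by ring
      omega
    rw [e]
    refine ⟨by unfold bv bu; nlinarith, ?_⟩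
    unfold bu
    have h1 : (2 * n + 1) ^ 2 + 1 ≤ (8 * n + 7) ^ 2 := by nlinarith
    have h2 : (8 * n + 7) ^ 2 ≤ (8 * n + 7) ^ 4 := Nat.pow_le_pow_right (by omega) (by norm_num)
    exact h1.trans h2
  · filter_upwards [eventually_ge_atTop 4] with n hn
    unfold bu bv
    nlinarith
  · intro i j hij
    unfold bu bv
    have h1 : (2 * i + 3) ^ 2 ≤ (2 * j + 1) ^ 2 := Nat.pow_le_pow_left (by omega) 2
    omega

theorem bro_asy : Asy bE (wt bu bv 1) 1 := by
  refine sq_asy (c := 4) (C := 10) (β := 8) bro_wins (by norm_num) (by norm_num) ?_ ?_ (fun n => rfl)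
  · filter_upwards [eventually_ge_atTop 1] with n hn
    have hn0 : (1 : ℝ) ≤ n := by exact_mod_cast hn
    unfold bu
    push_cast
    constructor <;> nlinarith
  · refine lin_ratio (by norm_num) (γ := 7) (Eventually.of_forall (fun n => ?_))
    unfold bu bv
    push_cast
    ring

theorem bro_sharp {z : ℕ → ℕ} (hz : Small z) : WSharp (pr z) bW (fun n => els (bW n)) bE := by
  have h1 := bro_wins.sharp (tend_one z) hz (D := {0}) (H := 0) (by simp) (singleton_nonempty 0) one_pos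
    (Ex := bE) (by rw [card_singleton]; exact bro_asy)
  have e : (fun n : ℕ => pat {0} {0} 0 (bu n) (bv n)) = (fun n => els (bW n)) := by
    funext n S
    exact pat_els _ _ S
  rw [e] at h1
  exact h1

/-- The price of one failure. -/
noncomputable def bp (k : ℕ) : ℝ := 4 * 2 ^ k / (k * Real.log 2)

theorem bp_pos {k : ℕ} (hk : 1 ≤ k) : 0 < bp k := by
  have hl2 : 0 < Real.log 2 := Real.log_pos (by norm_num)
  have hk0 : (0 : ℝ) < k := by exact_mod_cast hk
  unfold bp
  positivity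

theorem bE_ge {ε : ℝ} (hε : 0 < ε) : ∀ᶠ k : ℕ in atTop, ∀ n ∈ block k, (1 - ε) * bp k ≤ bE n := by
  have hlim : Tendsto (fun k : ℕ => (k : ℝ) / (k + 1)) atTop (𝓝 1) := tendsto_natCast_div_add_atTop 1
  filter_upwards [hlim.eventually (Ioi_mem_nhds (show 1 - ε < 1 by linarith)), eventually_ge_atTop 1] with k h1 h2 n hn
  have h1' : 1 - ε < (k : ℝ) / (k + 1) := h1
  have hl2 : 0 < Real.log 2 := Real.log_pos (by norm_num)
  have hk0 : (0 : ℝ) < k := by exact_mod_cast h2
  unfold block at hn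
  rw [mem_Ico] at hn
  have hn1 : (2 : ℝ) ^ k ≤ n := by exact_mod_cast hn.1
  have hn2 : (n : ℝ) ≤ 2 ^ (k + 1) := by exact_mod_cast hn.2.le
  have hn0 : (0 : ℝ) < n := lt_of_lt_of_le (by positivity) hn1
  have hlo : k * Real.log 2 ≤ Real.log n := by
    rw [← Real.log_pow]
    exact Real.log_le_log (by positivity) hn1
  have hup : Real.log n ≤ (k + 1) * Real.log 2 := by
    have := Real.log_le_log hn0 hn2
    rw [Real.log_pow] at this
    push_cast at this
    exact this
  have hln : 0 < Real.log (n : ℝ) := lt_of_lt_of_le (by positivity) hlo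
  unfold bp bE
  have h4 : (1 - ε) * (4 * 2 ^ k / (k * Real.log 2)) ≤ (k : ℝ) / (k + 1) * (4 * 2 ^ k / (k * Real.log 2)) :=
    mul_le_mul_of_nonneg_right h1'.le (by positivity)
  have h5 : (k : ℝ) / (k + 1) * (4 * 2 ^ k / (k * Real.log 2)) = 8 * 2 ^ k / (2 * ((k + 1) * Real.log 2)) := by
    field_simp
    ring
  rw [h5] at h4
  refine h4.trans ?_
  apply div_le_div₀ (by positivity) (by linarith) (by positivity)
  linarith

open Classical in
/-- `a ∈ S`, and there are at most `j` elements of `S` between the squares of `a` and of the next element. -/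
def Fail (j : ℕ) (S : Set ℕ) (a : ℕ) : Prop :=
  a ∈ S ∧ ∃ b ∈ S, a < b ∧ (∀ x, a < x → x < b → x ∉ S) ∧ ((Ioo (a ^ 2) (b ^ 2)).filter (fun x => x ∈ S)).card ≤ j

open Classical in
/-- The number of the failures. -/
noncomputable def fails (j k : ℕ) (S : Set ℕ) : ℕ := ((Ico (2 ^ (k + 1)) (2 ^ (k + 2))).filter (fun a => Fail j S a)).card

theorem le_exc {Q : ℕ → Set ℕ → Prop} {k : ℕ} {S : Set ℕ} {F : Finset ℕ} {f : ℕ → ℕ} (hf : ∀ a ∈ F, f a ∈ block k ∧ Q (f a) S)
    (hinj : ∀ a ∈ F, ∀ b ∈ F, f a = f b → a = b) : F.card ≤ exc Q k S := by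
  unfold exc
  refine card_le_card_of_injOn f (fun a ha => ?_) (fun a ha b hb h => hinj a ha b hb h)
  rw [Finset.mem_coe, @mem_filter]
  exact hf a ha

theorem fails_le {j k : ℕ} {S : Set ℕ} (hodd : ∀ x ∈ S, 2 ^ (k + 1) ≤ x → Odd x) :
    fails j k S ≤ exc (fun n S => els (bW n) S ≤ j) k S := by
  classical
  unfold fails
  refine le_exc (f := fun a => a / 2) ?_ ?_
  · intro a ha
    rw [mem_filter, mem_Ico] at ha
    obtain ⟨⟨h1, h2⟩, h3, b, hb, hab, h4, h5⟩ := ha
    obtain ⟨i, hi⟩ := hodd a h3 h1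
    obtain ⟨l, hl⟩ := hodd b hb (by omega)
    have e : a / 2 = i := by omega
    have hp1 : 2 ^ (k + 1) = 2 * 2 ^ k := by rw [pow_succ]; ring
    have hp2 : 2 ^ (k + 2) = 2 * 2 ^ (k + 1) := by rw [pow_succ]; ring
    show a / 2 ∈ block k ∧ els (bW (a / 2)) S ≤ j
    rw [e]
    refine ⟨?_, le_trans ?_ h5⟩
    · unfold block
      rw [mem_Ico]
      omega
    · unfold els
      apply card_le_card
      intro x hx
      rw [mem_filter] at hx ⊢
      refine ⟨?_, hx.2⟩
      have hx1 := hx.1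
      unfold bW bu bv at hx1
      rw [mem_Ico] at hx1
      rw [mem_Ioo]
      have e1 : a ^ 2 = (2 * i + 1) ^ 2 := by rw [hi]
      have e2 : (2 * i + 3) ^ 2 ≤ b ^ 2 := Nat.pow_le_pow_left (by omega) 2
      omega
  · intro a ha b hb hab
    rw [mem_filter, mem_Ico] at ha hb
    obtain ⟨i, hi⟩ := hodd a ha.2.1 ha.1.1
    obtain ⟨l, hl⟩ := hodd b hb.2.1 hb.1.1
    have : a / 2 = b / 2 := hab
    omega

theorem even_zero {z : ℕ → ℕ} (hz : Tendsto z atTop atTop) : ∀ᶠ x : ℕ in atTop, ¬ Odd x → pr z x = 0 := by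
  have hlog : Tendsto (fun n : ℕ => Nat.log 2 n) atTop atTop := by
    refine tendsto_atTop.2 (fun b => ?_)
    filter_upwards [eventually_ge_atTop (2 ^ b)] with n hn
    exact (Nat.le_log_iff_pow_le (by norm_num) (by have := Nat.one_le_two_pow (n := b); omega)).2 hn
  filter_upwards [(hz.comp hlog).eventually_ge_atTop 3] with x hx hodd
  have hx' : 3 ≤ z (Nat.log 2 x) := hx
  classical
  unfold pr
  rw [if_neg]
  intro hr
  rw [Nat.not_odd_iff_even] at hodd
  exact hr 2 Nat.prime_two (by omega) hodd.two_dvd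

theorem ae_odd {z : ℕ → ℕ} (hz : Tendsto z atTop atTop) {Ω : Type} [MeasurableSpace Ω] {μ : Measure Ω} {A : Ω → Set ℕ}
    (hs : ∀ᵐ ω ∂μ, ∀ n ∈ A ω, 0 < pr z n) : ∀ᶠ k : ℕ in atTop, ∀ᵐ ω ∂μ, ∀ x ∈ A ω, 2 ^ (k + 1) ≤ x → Odd x := by
  obtain ⟨N, hN⟩ := eventually_atTop.1 (even_zero hz)
  filter_upwards [eventually_ge_atTop N] with k hk
  filter_upwards [hs] with ω hω x hx hxk
  by_contra hodd
  have h1 : k < 2 ^ (k + 1) := lt_of_lt_of_le Nat.lt_two_pow_self (Nat.pow_le_pow_right (by norm_num) (by omega))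
  have h2 := hN x (by omega) hodd
  have h3 := hω x hx
  linarith

/-- The upper bound for the probability of many failures. -/
theorem bro_price {z : ℕ → ℕ} (hz : Tendsto z atTop atTop) (hs : Small z) {ε : ℝ} (hε : 0 < ε) (j : ℕ) {Ω : Type} [MeasurableSpace Ω]
    {μ : Measure Ω} [IsProbabilityMeasure μ] {A : Ω → Set ℕ} (hA : IsRandomSet A) (hsu : ∀ᵐ ω ∂μ, ∀ n ∈ A ω, 0 < pr z n) :
    ∀ᶠ k : ℕ in atTop, ∀ M : ℕ, 1 ≤ M → M ≤ 2 ^ k →
      (1 - ε) * (M * bp k * μ.real {ω | M ≤ fails j k (A ω)}) ≤ 1 + relEnt (pr z) μ A (un bW k) := by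
  have hw := bro_sharp hs
  have hpos : ∀ᶠ k : ℕ in atTop, 0 ≤ relEnt (pr z) μ A (un bW k) := by
    filter_upwards [ev_block hw.half] with k hhalf
    have hlaw := law_ok (μ := μ) hA hsu (B := un bW k) (p := pr z) (fun x hx => by
      obtain ⟨n, hn, hx⟩ := mem_biUnion.1 hx
      exact hhalf n hn x hx)
    have h4 := Pool.Agent.Q111.TT.entropy_gen (fun n _ => hw.prob n) hlaw (fun _ => False) 0
    simp at h4
    unfold relEnt
    linarith
  have hε2 : 0 < min (ε / 2) (1 / 2) := lt_min (by linarith) (by norm_num)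
  obtain ⟨δ, hδ⟩ : ∃ δ : ℝ, δ = min (ε / 2) (1 / 2) := ⟨_, rfl⟩
  rw [← hδ] at hε2
  have hδ1 : δ ≤ ε / 2 := by rw [hδ]; exact min_le_left _ _
  have hδ2 : δ ≤ 1 / 2 := by rw [hδ]; exact min_le_right _ _
  filter_upwards [hpos, (price hw).1 δ hε2 j Ω μ A hA hsu, bE_ge hε2, ae_odd hz hsu, eventually_ge_atTop 1] with k h0 h1 h2 h3 hk M hM hMk
  have h5 := h1 M hM hMk
  have h6 := le_cost (e := bE) (I := block k) (M := M) (by rw [block_card]; exact hMk) h2
  have h7 : μ.real {ω | M ≤ fails j k (A ω)} ≤ μ.real {ω | M ≤ exc (fun n S => els (bW n) S ≤ j) k (A ω)} := by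
    refine ENNReal.toReal_mono (measure_ne_top _ _) (measure_mono_ae ?_)
    filter_upwards [h3] with ω hω hM
    exact le_trans hM (fails_le hω)
  have h8 : 0 ≤ μ.real {ω | M ≤ fails j k (A ω)} := measureReal_nonneg
  have hb := bp_pos hk
  have hM0 : (0 : ℝ) < M := by exact_mod_cast hM
  have h9 : (1 - δ) * ((1 - δ) * (M * bp k * μ.real {ω | M ≤ fails j k (A ω)})) ≤ 1 + relEnt (pr z) μ A (un bW k) := by
    refine le_trans ?_ h5
    refine mul_le_mul_of_nonneg_left ?_ (by linarith)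
    have h10 : (1 - δ) * (M * bp k * μ.real {ω | M ≤ fails j k (A ω)}) = (M * ((1 - δ) * bp k)) * μ.real {ω | M ≤ fails j k (A ω)} := by ring
    rw [h10]
    exact mul_le_mul h6 h7 h8 (le_trans (by have : 0 < 1 - δ := by linarith
                                            positivity) h6)
  have h11 : 0 ≤ M * bp k * μ.real {ω | M ≤ fails j k (A ω)} := by positivity
  have h12 : (1 - ε) * (M * bp k * μ.real {ω | M ≤ fails j k (A ω)}) ≤ (1 - δ) * ((1 - δ) * (M * bp k * μ.real {ω | M ≤ fails j k (A ω)})) := by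
    rw [← mul_assoc (1 - δ)]
    refine mul_le_mul_of_nonneg_right ?_ h11
    nlinarith
  linarith

end Pool.Agent.Q197.WN
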