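import Pool.Agent.Q197.WN.Cell

/-!
# Empty cells
-/

set_option autoImplicit false

namespace Pool.Agent.Q197.WN

open Finset MeasureTheory Filter Pool.Agent.Q120.TT Pool.Agent.Q120.ET Pool.Agent.Q120.GM
  Pool.Agent.Q120.CL
open scoped Topology

theorem PP_empty {p : ℕ → ℝ} {W : Finset ℕ} : PP p W (fun T => T = ∅) = ∏ x ∈ W, (1 - p x) := by
  classical
  have h1 : W.powerset.filter (fun T : Finset ℕ => T = ∅) = {∅} := by
    ext T
    simp only [mem_filter, mem_powerset, mem_singleton]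
    exact ⟨fun h => h.2, fun h => by rw [h]; exact ⟨empty_subset _, rfl⟩⟩
  have h2 : PP p W (fun T => T = ∅) = ∑ T ∈ W.powerset.filter (fun T : Finset ℕ => T = ∅), prodOn p W T := by
    unfold PP
    exact sum_congr (by ext T; simp only [mem_filter]) (fun _ _ => rfl)
  rw [h2, h1, sum_singleton]
  unfold prodOn
  simp

theorem void_up {p : ℕ → ℝ} (hp : ∀ n, 0 ≤ p n ∧ p n ≤ 1) (W : Finset ℕ) :
    PP p W (fun T => T = ∅) ≤ Real.exp (-∑ x ∈ W, p x) := by
  rw [PP_empty, ← sum_neg_distrib, Real.exp_sum]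
  refine prod_le_prod (fun x _ => by linarith [(hp x).2]) (fun x _ => ?_)
  have := Real.add_one_le_exp (-p x)
  linarith

theorem void_lo {p : ℕ → ℝ} (hp : ∀ n, 0 ≤ p n ∧ p n ≤ 1) {W : Finset ℕ} {δ : ℝ} (hδ : δ ≤ 1 / 2) (hW : ∀ x ∈ W, p x ≤ δ) :
    Real.exp (-((1 + 2 * δ) * ∑ x ∈ W, p x)) ≤ PP p W (fun T => T = ∅) := by
  rw [PP_empty, mul_sum, ← sum_neg_distrib, Real.exp_sum]
  refine prod_le_prod (fun x _ => (Real.exp_pos _).le) (fun x hx => ?_)
  exact exp_low (hp x).1 (hW x hx) hδ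

/-- Powers of two grow faster than polynomials. -/
theorem two_pow_big (s : ℕ) {c : ℝ} (hc : 0 < c) : ∀ᶠ k : ℕ in atTop, ((k : ℝ) + s + 1) ^ 2 ≤ c * 2 ^ k := by
  have h1 := (tendsto_pow_const_div_const_pow_of_one_lt 2 (show (1 : ℝ) < 2 by norm_num)).eventually_lt_const
    (show (0 : ℝ) < c / ((s : ℝ) + 2) ^ 2 by positivity)
  filter_upwards [h1, eventually_ge_atTop 1] with k hk hk1
  have hk0 : (1 : ℝ) ≤ k := by exact_mod_cast hk1
  have hs0 : (0 : ℝ) ≤ s := Nat.cast_nonneg s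
  rw [div_lt_div_iff₀ (by positivity) (by positivity)] at hk
  have h2 : (k : ℝ) + s + 1 ≤ k * (s + 2) := by nlinarith
  calc ((k : ℝ) + s + 1) ^ 2 ≤ (k * (s + 2)) ^ 2 := pow_le_pow_left₀ (by positivity) h2 2
    _ = (k : ℝ) ^ 2 * (s + 2) ^ 2 := by ring
    _ ≤ c * 2 ^ k := hk.le

open Classical in
/-- The total length of the empty cells. -/
noncomputable def hol (s k : ℕ) (T : Finset ℕ) : ℝ := ∑ j ∈ (block (k + s)).filter (fun j => T ∩ cell s j = ∅), len s j

/-- The total length of the empty cells is large with very small probability. -/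
theorem cells_up {z : ℕ → ℕ} (hz : Small z) (s : ℕ) {ε c : ℝ} (hε : 0 < ε) (hc : 0 < c) : ∀ᶠ k : ℕ in atTop, ∀ C : ℝ,
    c * 2 ^ k ≤ C → PP (pr z) (Bk k) (fun T => C ≤ hol s k T) ≤ Real.exp (-((1 - ε) * (C / (2 * k * Real.log 2)))) := by
  classical
  have hp : ∀ n, 0 ≤ pr z n ∧ pr z n ≤ 1 := fun n => ⟨pr_nonneg z n, pr_le_one z n⟩
  obtain ⟨δ, hδ⟩ : ∃ δ : ℝ, δ = min ε 1 / 4 := ⟨_, rfl⟩
  have hδ0 : 0 < δ := by rw [hδ]; exact div_pos (lt_min hε one_pos) (by norm_num)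
  have hδ1 : 4 * δ ≤ ε := by rw [hδ]; have := min_le_left ε 1; linarith
  have hδ2 : 4 * δ ≤ 1 := by rw [hδ]; have := min_le_right ε 1; linarith
  have hl2 : 0 < Real.log 2 := Real.log_pos (by norm_num)
  have hl21 : Real.log 2 ≤ 1 := by have := Real.log_two_lt_d9; linarith
  obtain ⟨m, hm⟩ : ∃ m : ℝ, m = 2 ^ s := ⟨_, rfl⟩
  have hm1 : 1 ≤ m := by rw [hm]; exact one_le_pow₀ (by norm_num)
  have hm4 : (4 : ℝ) ^ s = m ^ 2 := by rw [hm, ← pow_mul, show (4 : ℝ) = 2 ^ 2 by norm_num, ← pow_mul]; ring_nf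
  filter_upwards [cell_mass hz s hδ0, two_pow_big s (show 0 < δ / (2 * m) by positivity),
    two_pow_big 0 (show 0 < c * δ by positivity), eventually_ge_atTop (s + 1)] with k hk hbig hbig2 hk1 C hC
  have hk0 : (1 : ℝ) ≤ k := by
    have : 1 ≤ k := by omega
    exact_mod_cast this
  obtain ⟨X, hX⟩ : ∃ X : ℝ, X = 2 ^ k := ⟨_, rfl⟩
  have hXm : m ≤ X := by
    rw [hX, hm]
    exact pow_le_pow_right₀ (by norm_num) (by omega)
  rw [← hX] at hbig hbig2 hC
  have hX0 : 0 < X := by linarith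
  obtain ⟨K, hK⟩ : ∃ K, K = 2 * (k : ℝ) * Real.log 2 := ⟨_, rfl⟩
  have hK0 : 0 < K := by rw [hK]; positivity
  rw [← hK] at hk ⊢
  have hcard : ((block (k + s)).card : ℝ) = 2 ^ (k + s) := by rw [block_card]; push_cast; rfl
  have hlog : Real.log ((block (k + s)).card : ℝ) = (k + s) * Real.log 2 := by
    rw [hcard, Real.log_pow]
    push_cast
    ring
  have hcpos : (0 : ℝ) < (block (k + s)).card := by rw [hcard]; positivity
  have hlen : ∀ j ∈ block (k + s), X / m ≤ len s j := by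
    intro j hj
    unfold block at hj
    rw [mem_Ico] at hj
    have hj1 : X * m ≤ j := by
      rw [hX, hm, ← pow_add]
      exact_mod_cast hj.1
    refine le_trans ?_ (len_bounds s j).1
    rw [hm4]
    have h1 : 2 * X / m ≤ (2 * (j : ℝ) + 1) / m ^ 2 := by
      rw [div_le_div_iff₀ (by positivity) (by positivity)]
      nlinarith
    have h2 : 1 ≤ X / m := by rw [le_div_iff₀ (by positivity)]; linarith
    have h3 : 2 * X / m = 2 * (X / m) := by ring
    linarith
  obtain ⟨e, he⟩ : ∃ e : ℕ → ℝ, e = fun j => (∑ x ∈ cell s j, pr z x) - Real.log ((block (k + s)).card : ℝ) := ⟨_, rfl⟩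
  have hQ : ∀ j ∈ block (k + s), PP (pr z) (cell s j) (fun T => T = ∅) ≤ Real.exp (-e j) / (block (k + s)).card := by
    intro j _
    refine (void_up hp _).trans (le_of_eq ?_)
    rw [he, neg_sub, sub_eq_add_neg, Real.exp_add, Real.exp_log hcpos]
    field_simp
  have hej : ∀ j ∈ block (k + s), (1 - 2 * δ) * (len s j / K) ≤ e j := by
    intro j hj
    have h1 := (hk j hj).1
    have h2 := hlen j hj
    rw [he]
    simp only
    rw [hlog]
    have h3 : ((k : ℝ) + s) * Real.log 2 ≤ δ * (len s j / K) := by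
      rw [mul_div_assoc', le_div_iff₀ hK0, hK]
      have hs0 : (0 : ℝ) ≤ s := Nat.cast_nonneg s
      have h4 : ((k : ℝ) + s) * Real.log 2 * (2 * k * Real.log 2) ≤ 2 * ((k : ℝ) + s + 1) ^ 2 := by
        have h5 : ((k : ℝ) + s) * Real.log 2 ≤ (k : ℝ) + s + 1 := by nlinarith
        have h6 : (2 * k * Real.log 2) ≤ 2 * ((k : ℝ) + s + 1) := by nlinarith
        have h7 : 0 ≤ ((k : ℝ) + s) * Real.log 2 := by positivity
        nlinarith
      have h8 : 2 * (δ / (2 * m) * X) = δ * (X / m) := by field_simp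
      have h9 : δ * (X / m) ≤ δ * len s j := mul_le_mul_of_nonneg_left h2 hδ0.le
      linarith
    linarith
  have h1 := wt_chern hp (cell s) (block (k + s)) (fun i _ j _ h => cell_disj h) (fun _ T => T = ∅) e hQ
    ((1 - 2 * δ) * (C / K))
  rw [cells_union] at h1
  have hC0 : 0 ≤ C := le_trans (by positivity) hC
  refine (PP_mono hp (fun T _ hT => ?_)).trans (h1.trans ?_)
  · have h2 : (1 - 2 * δ) * (C / K) ≤ (1 - 2 * δ) * (hol s k T / K) :=
      mul_le_mul_of_nonneg_left (div_le_div_of_nonneg_right hT hK0.le) (by linarith)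
    refine h2.trans ?_
    unfold hol
    rw [sum_div, mul_sum]
    refine le_trans (sum_le_sum (g := e) (fun j hj => hej j (mem_filter.1 hj).1)) (le_of_eq ?_)
    exact sum_congr (by ext j; simp only [mem_filter]) (fun _ _ => rfl)
  · apply Real.exp_le_exp.2
    have h2 : 1 ≤ 2 * δ * (C / K) := by
      rw [mul_div_assoc', le_div_iff₀ hK0, hK]
      have h3 : 2 * (k : ℝ) * Real.log 2 ≤ 2 * (k + 0 + 1) ^ 2 := by nlinarith
      push_cast at hbig2
      have h4 : δ * (c * X) ≤ δ * C := mul_le_mul_of_nonneg_left hC hδ0.le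
      nlinarith
    have h3 : 0 ≤ C / K := div_nonneg hC0 hK0.le
    nlinarith

end Pool.Agent.Q197.WN
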