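import Pool.Agent.Q197.WN.Bro
import Pool.Agent.Q197.WN.CellE

/-!
# The squares of consecutive elements: the adversary looks at the pairs of consecutive odd elements
-/

set_option autoImplicit false

namespace Pool.Agent.Q197.WN

open Finset MeasureTheory Filter Pool.Agent.Q120.TT Pool.Agent.Q120.ET Pool.Agent.Q120.GM
  Pool.Agent.Q120.CL Pool.Agent.Q120.MG Pool.Agent.Q120.HL
open scoped Topology

/-- The adversary, from `k0` on. -/
theorem adversary_ev {p : ℕ → ℝ} (hp : ∀ n, 0 ≤ p n ∧ p n ≤ 1) {B C : ℕ → Finset ℕ} (hB : ∀ i j, i ≠ j → Disjoint (B i) (B j))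
    {R : ℕ → Finset ℕ → Finset ℕ} {v q : ℕ → ℝ} (hq : ∀ k, 0 ≤ q k ∧ q k ≤ 1) (k0 : ℕ)
    (hBC : ∀ k, k0 ≤ k → Disjoint (C k) (B k)) (hR : ∀ k U, k0 ≤ k → R k U ⊆ B k)
    (hRC : ∀ j k U, k0 ≤ j → k0 ≤ k → Disjoint (R j U) (C k))
    (hv : ∀ k U, k0 ≤ k → U ⊆ C k → Real.exp (-v k) ≤ ∏ x ∈ R k U, (1 - p x)) :
    ∃ (Ω : Type) (_ : MeasurableSpace Ω) (μ : Measure Ω) (_ : IsProbabilityMeasure μ) (A : Ω → Set ℕ),
      IsRandomSet A ∧ (∀ᵐ ω ∂μ, ∀ n ∈ A ω, 0 < p n) ∧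
      (∀ k, k0 ≤ k → relEnt p μ A (B k) ≤ q k * v k) ∧
      (∀ k, k0 ≤ k → ∀ (G : Finset ℕ → Prop), q k * PP p (C k) G ≤
        μ.real {ω | G (tr A (C k) ω) ∧ ∀ x ∈ R k (tr A (C k) ω), x ∉ A ω}) ∧
      (¬ Summable q → ∀ G : ℕ → Finset ℕ → Prop, Summable (fun k => PP p (C k) (fun T => ¬ G k T)) →
        ∀ᵐ ω ∂μ, ∃ᶠ k : ℕ in atTop, G k (tr A (C k) ω) ∧ ∀ x ∈ R k (tr A (C k) ω), x ∉ A ω) := by
  classical
  obtain ⟨C', hC'⟩ : ∃ C' : ℕ → Finset ℕ, C' = fun k => if k0 ≤ k then C k else ∅ := ⟨_, rfl⟩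
  obtain ⟨R', hR'⟩ : ∃ R' : ℕ → Finset ℕ → Finset ℕ, R' = fun k U => if k0 ≤ k then R k U else ∅ := ⟨_, rfl⟩
  obtain ⟨v', hv'⟩ : ∃ v' : ℕ → ℝ, v' = fun k => if k0 ≤ k then v k else 0 := ⟨_, rfl⟩
  have eC : ∀ k, k0 ≤ k → C' k = C k := fun k hk => by rw [hC']; exact if_pos hk
  have eR : ∀ k U, k0 ≤ k → R' k U = R k U := fun k U hk => by rw [hR']; exact if_pos hk
  have ev : ∀ k, k0 ≤ k → v' k = v k := fun k hk => by rw [hv']; exact if_pos hk
  have eC0 : ∀ k, ¬ k0 ≤ k → C' k = ∅ := fun k hk => by rw [hC']; exact if_neg hk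
  have eR0 : ∀ k U, ¬ k0 ≤ k → R' k U = ∅ := fun k U hk => by rw [hR']; exact if_neg hk
  have ev0 : ∀ k, ¬ k0 ≤ k → v' k = 0 := fun k hk => by rw [hv']; exact if_neg hk
  obtain ⟨Ω, mΩ, μ, hμ, A, h1, h2, h3, h4, h5⟩ := adversary hp hB (C := C') (R := R') (v := v') (q := q)
    (fun k => by
      by_cases hk : k0 ≤ k
      · rw [eC k hk]; exact hBC k hk
      · rw [eC0 k hk]; exact disjoint_empty_left _)
    (fun k U => by
      by_cases hk : k0 ≤ k
      · rw [eR k U hk]; exact hR k U hk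
      · rw [eR0 k U hk]; exact empty_subset _)
    (fun j k U => by
      by_cases hj : k0 ≤ j
      · by_cases hk : k0 ≤ k
        · rw [eR j U hj, eC k hk]; exact hRC j k U hj hk
        · rw [eC0 k hk]; exact disjoint_empty_right _
      · rw [eR0 j U hj]; exact disjoint_empty_left _)
    hq
    (fun k U hU => by
      by_cases hk : k0 ≤ k
      · rw [eR k U hk, ev k hk]
        rw [eC k hk] at hU
        exact hv k U hk hU
      · rw [eR0 k U hk, ev0 k hk]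
        simp)
  refine ⟨Ω, mΩ, μ, hμ, A, h1, h2, fun k hk => ?_, fun k hk G => ?_, fun hs G hG => ?_⟩
  · rw [← ev k hk]
    exact h3 k
  · have h6 := h4 k G
    rw [eC k hk] at h6
    refine h6.trans (le_of_eq ?_)
    congr 1
    ext ω
    simp only [Set.mem_ofPred_eq, eR k _ hk]
  · have h6 : Summable (fun k => PP p (C' k) (fun T => ¬ G k T)) := by
      refine (summable_nat_add_iff k0).1 ?_
      refine ((summable_nat_add_iff k0).2 hG).congr (fun k => ?_)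
      rw [eC _ (Nat.le_add_left k0 k)]
    filter_upwards [h5 hs G h6] with ω hω
    refine (hω.and_eventually (eventually_ge_atTop k0)).mono (fun k hk => ?_)
    obtain ⟨⟨h7, h8⟩, h9⟩ := hk
    rw [eC k h9] at h7 h8
    rw [eR k _ h9] at h8
    exact ⟨h7, h8⟩

/-- The left end of the region of control. -/
def rgu (r k : ℕ) : ℕ := 2 ^ (k + 1) + 2 ^ (k + 1 - r)

/-- The right end of the region of control. -/
def rgv (r k : ℕ) : ℕ := rgu r k + 2 ^ (k - r)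

section

variable {r : ℕ}

theorem rgu_ge (k : ℕ) : 2 ^ (k + 1) ≤ rgu r k := Nat.le_add_right _ _

theorem rgv_le (hr : 2 ≤ r) (k : ℕ) : rgv r k ≤ 2 ^ (k + 2) := by
  unfold rgv rgu
  have h1 : 2 ^ (k + 1 - r) ≤ 2 ^ k := Nat.pow_le_pow_right (by norm_num) (by omega)
  have h2 : 2 ^ (k - r) ≤ 2 ^ k := Nat.pow_le_pow_right (by norm_num) (by omega)
  have h3 : 2 ^ (k + 2) = 4 * 2 ^ k := by rw [pow_add]; ring
  have h4 : 2 ^ (k + 1) = 2 * 2 ^ k := by rw [pow_add]; ring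
  omega

theorem rgu_wins (hr : 2 ≤ r) : Wins (rgu r) (rgv r) (1 / 2) := by
  refine ⟨by norm_num, ?_, ?_, ?_, ?_⟩
  · filter_upwards with k
    have h1 := (Nat.lt_two_pow_self (n := k)).le
    have h2 := rgu_ge (r := r) k
    have h4 : 2 ^ (k + 1) = 2 * 2 ^ k := by rw [pow_add]; ring
    omega
  · filter_upwards [eventually_ge_atTop (2 * r + 2)] with k hk
    have h1 : rgu r k ≤ (2 ^ (k - r)) ^ 2 := by
      have h2 : rgu r k ≤ 2 ^ (k + 2) := le_trans (Nat.le_add_right _ _) (rgv_le hr k)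
      refine h2.trans ?_
      rw [← pow_mul]
      exact Nat.pow_le_pow_right (by norm_num) (by omega)
    have h3 : ((rgv r k : ℕ) : ℝ) - rgu r k = 2 ^ (k - r) := by
      unfold rgv
      push_cast
      ring
    rw [h3, ← Real.sqrt_eq_rpow]
    rw [Real.sqrt_le_left (by positivity)]
    exact_mod_cast h1
  · filter_upwards with k
    have h1 : 2 ^ (k - r) ≤ 2 ^ k := Nat.pow_le_pow_right (by norm_num) (by omega)
    have h4 : 2 ^ (k + 1) = 2 * 2 ^ k := by rw [pow_add]; ring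
    have h5 : 0 ≤ 2 ^ (k + 1 - r) := Nat.zero_le _
    have h6 := rgu_ge (r := r) k
    unfold rgv
    omega
  · intro i j hij
    rw [Finset.disjoint_left]
    intro x hx hx'
    rw [mem_Ico] at hx hx'
    have a1 := rgu_ge (r := r) i
    have a2 := rgu_ge (r := r) j
    have a3 := rgv_le hr i
    have a4 := rgv_le hr j
    rcases lt_or_gt_of_ne hij with h | h
    · have : 2 ^ (i + 2) ≤ 2 ^ (j + 1) := Nat.pow_le_pow_right (by norm_num) (by omega)
      omega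
    · have : 2 ^ (j + 2) ≤ 2 ^ (i + 1) := Nat.pow_le_pow_right (by norm_num) (by omega)
      omega

/-- The blocks are far above. -/
theorem un_ge {k x : ℕ} (hx : x ∈ un bW k) : 2 ^ (k + 2) ≤ x := by
  unfold un at hx
  obtain ⟨n, hn, hx⟩ := mem_biUnion.1 hx
  unfold block at hn
  unfold bW bu at hx
  rw [mem_Ico] at hn hx
  have h1 : 1 ≤ 2 ^ k := Nat.one_le_two_pow
  have h3 : 2 ^ (k + 2) = 4 * 2 ^ k := by rw [pow_add]; ring
  have h4 : (2 * 2 ^ k) ^ 2 ≤ (2 * n + 1) ^ 2 := Nat.pow_le_pow_left (by omega) 2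
  nlinarith

/-- The squares of the region of control are outside of all regions of control. -/
theorem rgu_sq (hr : 2 ≤ r) {j k x : ℕ} (hj : r ≤ j) (hk : r ≤ k) (h1 : rgu r j ^ 2 ≤ x) (h2 : x < rgv r j ^ 2) :
    x ∉ Ico (rgu r k) (rgv r k) := by
  intro hx
  rw [mem_Ico] at hx
  obtain ⟨m, rfl⟩ : ∃ m, j = m + r := ⟨j - r, by omega⟩
  obtain ⟨l, rfl⟩ : ∃ l, k = l + r := ⟨k - r, by omega⟩
  obtain ⟨Z, hZ⟩ : ∃ Z : ℕ, Z = 2 ^ r := ⟨_, rfl⟩
  have hZ4 : 4 ≤ Z := by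
    rw [hZ]
    calc 4 = 2 ^ 2 := by norm_num
      _ ≤ 2 ^ r := Nat.pow_le_pow_right (by norm_num) hr
  have e1 : ∀ m, rgu r (m + r) = 2 ^ m * (2 * Z + 2) := by
    intro m
    unfold rgu
    rw [show m + r + 1 - r = m + 1 by omega, hZ]
    ring
  have e2 : ∀ m, rgv r (m + r) = 2 ^ m * (2 * Z + 3) := by
    intro m
    unfold rgv
    rw [e1, show m + r - r = m by omega]
    ring
  rw [e1] at h1 hx
  rw [e2] at h2 hx
  obtain ⟨P, hP⟩ : ∃ P : ℕ, P = 2 ^ m := ⟨_, rfl⟩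
  obtain ⟨Q, hQ⟩ : ∃ Q : ℕ, Q = 2 ^ l := ⟨_, rfl⟩
  rw [← hP] at h1 h2
  rw [← hQ] at hx
  have hQ0 : 0 < Q := by rw [hQ]; positivity
  -- the comparison of `l` with `2 m + r + 1`
  have hPP : ∀ t, 2 ^ (2 * m + r + t) = P * P * Z * 2 ^ t := by
    intro t
    rw [hP, hZ]
    ring
  rcases lt_trichotomy l (2 * m + r + 1) with h | h | h
  · have h3 : Q ≤ P * P * Z := by
      have : 2 ^ l ≤ 2 ^ (2 * m + r + 0) := Nat.pow_le_pow_right (by norm_num) (by omega)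
      rw [hPP] at this
      rw [hQ]
      simpa using this
    have h4 : Q * (2 * Z + 3) ≤ P * P * Z * (2 * Z + 3) := Nat.mul_le_mul_right _ h3
    nlinarith
  · have h3 : Q = 2 * (P * P * Z) := by
      rw [hQ, h, hPP]
      ring
    rw [h3] at hx
    nlinarith
  · have h3 : 4 * (P * P * Z) ≤ Q := by
      have : 2 ^ (2 * m + r + 2) ≤ 2 ^ l := Nat.pow_le_pow_right (by norm_num) (by omega)
      rw [hPP] at this
      rw [hQ]
      linarith
    have h4 : 4 * (P * P * Z) * (2 * Z + 2) ≤ Q * (2 * Z + 2) := Nat.mul_le_mul_right _ h3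
    nlinarith

end

end Pool.Agent.Q197.WN
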