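import Pool.Agent.Q197.WN.Model

/-!
# Windows between consecutive powers
-/

set_option autoImplicit false

namespace Pool.Agent.Q197.WN

open Finset MeasureTheory Filter Pool.Agent.Q120.TT Pool.Agent.Q120.ET Pool.Agent.Q120.GM
  Pool.Agent.Q120.CL Pool.Agent.Q120.MG Pool.Agent.Q120.HL Pool.Agent.Q150.TT
open scoped Topology

/-- A convenient form of the assumptions on the windows. -/
theorem Wins.of {u v : ℕ → ℕ} (h1 : ∀ᶠ n : ℕ in atTop, n ≤ u n) (h2 : ∀ᶠ n : ℕ in atTop, u n ≤ v n ∧ u n ≤ (v n - u n) ^ 4)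
    (h3 : ∀ᶠ n : ℕ in atTop, 2 * v n ≤ 3 * u n) (h4 : ∀ i j, i < j → v i ≤ u j) : Wins u v (1 / 4) := by
  refine ⟨by norm_num, h1, ?_, h3, ?_⟩
  · filter_upwards [h2] with n hn
    have e1 : ((v n - u n : ℕ) : ℝ) = (v n : ℝ) - u n := Nat.cast_sub hn.1
    rw [← e1]
    have e2 : (u n : ℝ) ≤ ((v n - u n : ℕ) : ℝ) ^ (4 : ℕ) := by exact_mod_cast hn.2
    have e3 : (((v n - u n : ℕ) : ℝ) ^ (4 : ℕ)) ^ (1 / 4 : ℝ) = ((v n - u n : ℕ) : ℝ) := by
      rw [← Real.rpow_natCast, ← Real.rpow_mul (Nat.cast_nonneg _)]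
      norm_num
    rw [← e3]
    exact Real.rpow_le_rpow (Nat.cast_nonneg _) e2 (by norm_num)
  · intro i j hij
    rw [Finset.disjoint_left]
    intro x hx hx'
    rw [mem_Ico] at hx hx'
    rcases lt_or_gt_of_ne hij with h | h
    · have := h4 i j h
      omega
    · have := h4 j i h
      omega

theorem asy_of {u v : ℕ → ℕ} {θ : ℝ} (hw : Wins u v θ) {r : ℕ} {σ : ℝ} (g L : ℕ → ℝ)
    (hg : Tendsto (fun n => g n / ((v n : ℝ) - u n)) atTop (𝓝 1))
    (hL : Tendsto (fun n => Real.log (u n) / L n) atTop (𝓝 1)) : Asy (fun n => σ * (g n / L n ^ r)) (wt u v r) σ := by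
  intro ε hε
  have h1 : Tendsto (fun n => g n / ((v n : ℝ) - u n) * (Real.log (u n) / L n) ^ r) atTop (𝓝 1) := by
    have := hg.mul (hL.pow r)
    rwa [one_pow, one_mul] at this
  have h2 := (Metric.tendsto_nhds.1 h1) (ε / (|σ| + 1)) (by positivity)
  have h3 := hL.eventually (Ioi_mem_nhds (show (0 : ℝ) < 1 by norm_num))
  filter_upwards [h2, h3, hw.wt_ge r, hw.ltend.eventually_gt_atTop 0] with n hn hLn hwt hlen
  rw [Real.dist_eq] at hn
  have hw0 : 0 ≤ wt u v r n := le_trans (by positivity) hwt.2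
  have hL0 : L n ≠ 0 := by
    intro h0
    have h4 : (0 : ℝ) < Real.log (u n) / L n := hLn
    rw [h0, div_zero] at h4
    exact lt_irrefl _ h4
  have hl0 : Real.log (u n) ≠ 0 := by linarith [hwt.1]
  have e1 : σ * (g n / L n ^ r) = σ * (g n / ((v n : ℝ) - u n) * (Real.log (u n) / L n) ^ r) * wt u v r n := by
    unfold wt
    rw [div_pow]
    have h5 : (v n : ℝ) - u n ≠ 0 := hlen.ne'
    field_simp
  rw [e1]
  have e2 : σ * (g n / ((v n : ℝ) - u n) * (Real.log (u n) / L n) ^ r) * wt u v r n - σ * wt u v r n =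
      σ * (g n / ((v n : ℝ) - u n) * (Real.log (u n) / L n) ^ r - 1) * wt u v r n := by ring
  rw [e2, abs_mul, abs_mul, abs_of_nonneg hw0]
  apply mul_le_mul_of_nonneg_right _ hw0
  have h6 : |σ| * |g n / ((v n : ℝ) - u n) * (Real.log (u n) / L n) ^ r - 1| ≤ |σ| * (ε / (|σ| + 1)) :=
    mul_le_mul_of_nonneg_left hn.le (abs_nonneg _)
  refine h6.trans ?_
  rw [mul_div_assoc', div_le_iff₀ (by positivity)]
  nlinarith [abs_nonneg σ]

theorem pow_lower (n m : ℕ) : n ^ (m + 1) + (m + 1) * n ^ m ≤ (n + 1) ^ (m + 1) := by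
  induction m with
  | zero => simp
  | succ m ih =>
    have h1 : (n + 1) * (n ^ (m + 1) + (m + 1) * n ^ m) ≤ (n + 1) * (n + 1) ^ (m + 1) := Nat.mul_le_mul_left _ ih
    have h2 : (n + 1) ^ (m + 1 + 1) = (n + 1) * (n + 1) ^ (m + 1) := by ring
    rw [h2]
    refine le_trans ?_ h1
    have h3 : (n + 1) * (n ^ (m + 1) + (m + 1) * n ^ m) =
        n ^ (m + 1 + 1) + (m + 1 + 1) * n ^ (m + 1) + (m + 1) * n ^ m := by ring
    rw [h3]
    exact Nat.le_add_right _ _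

theorem pow_upper (n m : ℕ) : (n + 1) ^ (m + 1) ≤ n ^ (m + 1) + (m + 1) * (n + 1) ^ m := by
  induction m with
  | zero => simp
  | succ m ih =>
    have h1 : (n + 1) * (n + 1) ^ (m + 1) ≤ (n + 1) * (n ^ (m + 1) + (m + 1) * (n + 1) ^ m) := Nat.mul_le_mul_left _ ih
    have h2 : (n + 1) ^ (m + 1 + 1) = (n + 1) * (n + 1) ^ (m + 1) := by ring
    rw [h2]
    refine h1.trans ?_
    have h3 : n ^ (m + 1) ≤ (n + 1) ^ (m + 1) := Nat.pow_le_pow_left (by omega) _
    have h4 : (n + 1) * (n ^ (m + 1) + (m + 1) * (n + 1) ^ m) =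
        n ^ (m + 1 + 1) + n ^ (m + 1) + (m + 1) * (n + 1) ^ (m + 1) := by ring
    have h5 : n ^ (m + 1 + 1) + (m + 1 + 1) * (n + 1) ^ (m + 1) =
        n ^ (m + 1 + 1) + (n + 1) ^ (m + 1) + (m + 1) * (n + 1) ^ (m + 1) := by ring
    rw [h4, h5]
    omega

theorem succ_div_tendsto (m : ℕ) : Tendsto (fun n : ℕ => (((n : ℝ) + 1) / n) ^ m) atTop (𝓝 1) := by
  have h1 : Tendsto (fun k : ℕ => ((k : ℝ) / (k + 1))⁻¹) atTop (𝓝 1) := by
    have := (tendsto_natCast_div_add_atTop (1 : ℝ)).inv₀ one_ne_zero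
    rwa [inv_one] at this
  have h2 := h1.pow m
  rw [one_pow] at h2
  refine h2.congr (fun k => ?_)
  rw [inv_div]

/-- Windows between consecutive `m`-th powers. -/
theorem pow_wins {m : ℕ} (hm : 1 ≤ m) : Wins (fun n => n ^ (m + 1) + 1) (fun n => (n + 1) ^ (m + 1)) (1 / 4) := by
  refine Wins.of ?_ ?_ ?_ ?_
  · filter_upwards with n
    have := Nat.le_self_pow (n := m + 1) (by omega) n
    omega
  · filter_upwards [eventually_ge_atTop 2] with n hn
    have h1 := pow_lower n m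
    have h2 : 2 * n ^ m ≤ (m + 1) * n ^ m := Nat.mul_le_mul_right _ (by omega)
    have h3 : 1 ≤ n ^ m := Nat.one_le_pow _ _ (by omega)
    have h4 : n ^ m ≤ (n + 1) ^ (m + 1) - (n ^ (m + 1) + 1) := by omega
    refine ⟨by omega, ?_⟩
    have h5 : (n ^ m) ^ 4 ≤ ((n + 1) ^ (m + 1) - (n ^ (m + 1) + 1)) ^ 4 := Nat.pow_le_pow_left h4 4
    refine le_trans ?_ h5
    rw [← pow_mul]
    have h6 : n ^ (m + 2) ≤ n ^ (m * 4) := Nat.pow_le_pow_right (by omega) (by omega)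
    have h7 : n ^ (m + 2) = n * n ^ (m + 1) := by ring
    have h8 : 2 * n ^ (m + 1) ≤ n * n ^ (m + 1) := Nat.mul_le_mul_right _ hn
    have h9 : 1 ≤ n ^ (m + 1) := Nat.one_le_pow _ _ (by omega)
    omega
  · filter_upwards [(succ_div_tendsto (m + 1)).eventually (Iio_mem_nhds (show (1 : ℝ) < 3 / 2 by norm_num)),
      eventually_ge_atTop 1] with n hn hn1
    have hn0 : (0 : ℝ) < n := by exact_mod_cast hn1
    have h1 : (((n : ℝ) + 1) / n) ^ (m + 1) < 3 / 2 := hn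
    rw [div_pow, div_lt_iff₀ (by positivity)] at h1
    have h2 : 2 * ((n : ℝ) + 1) ^ (m + 1) ≤ 3 * ((n : ℝ) ^ (m + 1) + 1) := by linarith
    exact_mod_cast h2
  · intro i j hij
    have h1 : (i + 1) ^ (m + 1) ≤ j ^ (m + 1) := Nat.pow_le_pow_left (by omega) _
    show (i + 1) ^ (m + 1) ≤ j ^ (m + 1) + 1
    omega

theorem log_tend : Tendsto (fun n : ℕ => Real.log n) atTop atTop := Real.tendsto_log_atTop.comp tendsto_natCast_atTop_atTop

/-- `log (u n) / (m log n) → 1` if `n ^ m ≤ u n ≤ C n ^ m`. -/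
theorem log_ratio {u : ℕ → ℕ} {m : ℕ} (hm : 1 ≤ m) {c C : ℝ} (hc : 0 < c) (hC : 0 < C)
    (h : ∀ᶠ n : ℕ in atTop, c * (n : ℝ) ^ m ≤ u n ∧ (u n : ℝ) ≤ C * (n : ℝ) ^ m) :
    Tendsto (fun n => Real.log (u n) / (m * Real.log n)) atTop (𝓝 1) := by
  have hm0 : (0 : ℝ) < m := by exact_mod_cast hm
  have h1 : ∀ a : ℝ, Tendsto (fun n : ℕ => 1 + a / (m * Real.log n)) atTop (𝓝 1) := by
    intro a
    have h2 : Tendsto (fun n : ℕ => (m : ℝ) * Real.log n) atTop atTop := log_tend.const_mul_atTop hm0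
    have h3 := (h2.const_div_atTop a).const_add 1
    rwa [add_zero] at h3
  refine tendsto_of_tendsto_of_tendsto_of_le_of_le' (h1 (Real.log c)) (h1 (Real.log C)) ?_ ?_
  · filter_upwards [h, eventually_ge_atTop 2] with n hn hn2
    have hn0 : (0 : ℝ) < n := by
      have : 0 < n := by omega
      exact_mod_cast this
    have hl : 0 < Real.log n := Real.log_pos (by exact_mod_cast hn2)
    have h2 := Real.log_le_log (by positivity) hn.1
    rw [Real.log_mul hc.ne' (by positivity), Real.log_pow] at h2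
    rw [le_div_iff₀ (by positivity), add_mul, div_mul_cancel₀ _ (by positivity)]
    linarith
  · filter_upwards [h, eventually_ge_atTop 2] with n hn hn2
    have hn0 : (0 : ℝ) < n := by
      have : 0 < n := by omega
      exact_mod_cast this
    have hl : 0 < Real.log n := Real.log_pos (by exact_mod_cast hn2)
    have hu0 : (0 : ℝ) < u n := lt_of_lt_of_le (by positivity) hn.1
    have h2 := Real.log_le_log hu0 hn.2
    rw [Real.log_mul hC.ne' (by positivity), Real.log_pow] at h2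
    rw [div_le_iff₀ (by positivity), add_mul, div_mul_cancel₀ _ (by positivity)]
    linarith

theorem pow_asy {m : ℕ} (hm : 1 ≤ m) (r : ℕ) (σ : ℝ) :
    Asy (fun n => σ * ((((m + 1 : ℕ) : ℝ) * (n : ℝ) ^ m) / (((m + 1 : ℕ) : ℝ) * Real.log n) ^ r))
      (wt (fun n => n ^ (m + 1) + 1) (fun n => (n + 1) ^ (m + 1)) r) σ := by
  refine asy_of (pow_wins hm) (fun n => ((m + 1 : ℕ) : ℝ) * (n : ℝ) ^ m) (fun n => ((m + 1 : ℕ) : ℝ) * Real.log n) ?_ ?_
  · have h1 : Tendsto (fun n : ℕ => ((((n + 1) ^ (m + 1) : ℕ) : ℝ) - ((n ^ (m + 1) + 1 : ℕ) : ℝ)) /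
        (((m + 1 : ℕ) : ℝ) * (n : ℝ) ^ m)) atTop (𝓝 1) := by
      have h2 : Tendsto (fun n : ℕ => 1 - 1 / (n : ℝ)) atTop (𝓝 1) := by
        have := tendsto_one_div_atTop_nhds_zero_nat (𝕜 := ℝ)
        have h3 := this.const_sub 1
        rwa [sub_zero] at h3
      refine tendsto_of_tendsto_of_tendsto_of_le_of_le' h2 (succ_div_tendsto m) ?_ ?_
      · filter_upwards [eventually_ge_atTop 1] with n hn1
        have hn0 : (0 : ℝ) < n := by exact_mod_cast hn1
        have h3 : ((n : ℝ) ^ (m + 1) + ((m : ℝ) + 1) * (n : ℝ) ^ m) ≤ ((n : ℝ) + 1) ^ (m + 1) := by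
          exact_mod_cast pow_lower n m
        push_cast
        rw [le_div_iff₀ (by positivity)]
        have h4 : (n : ℝ) ≤ (n : ℝ) ^ m := by
          have h5 : (1 : ℝ) ≤ n := by exact_mod_cast hn1
          calc (n : ℝ) = (n : ℝ) ^ 1 := (pow_one _).symm
            _ ≤ (n : ℝ) ^ m := pow_le_pow_right₀ h5 hm
        have h6 : 1 ≤ 1 / (n : ℝ) * (((m : ℝ) + 1) * (n : ℝ) ^ m) := by
          rw [one_div, inv_mul_eq_div, le_div_iff₀ hn0]
          have : (0 : ℝ) ≤ m := Nat.cast_nonneg m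
          nlinarith [pow_pos hn0 m]
        rw [sub_mul, one_mul]
        linarith
      · filter_upwards [eventually_ge_atTop 1] with n hn1
        have hn0 : (0 : ℝ) < n := by exact_mod_cast hn1
        have h3 : ((n : ℝ) + 1) ^ (m + 1) ≤ (n : ℝ) ^ (m + 1) + ((m : ℝ) + 1) * ((n : ℝ) + 1) ^ m := by
          exact_mod_cast pow_upper n m
        push_cast
        rw [div_le_iff₀ (by positivity), div_pow]
        have h4 : ((n : ℝ) + 1) ^ m / (n : ℝ) ^ m * (((m : ℝ) + 1) * (n : ℝ) ^ m) = ((m : ℝ) + 1) * ((n : ℝ) + 1) ^ m := by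
          field_simp
        rw [h4]
        linarith
    have h2 := h1.inv₀ one_ne_zero
    rw [inv_one] at h2
    refine h2.congr (fun n => ?_)
    rw [inv_div]
  · refine log_ratio (u := fun n => n ^ (m + 1) + 1) (by omega) one_pos two_pos ?_
    filter_upwards [eventually_ge_atTop 1] with n hn1
    have h1 : (1 : ℝ) ≤ (n : ℝ) ^ (m + 1) := one_le_pow₀ (by exact_mod_cast hn1)
    push_cast
    constructor
    · linarith
    · linarith

/-- The explicit cost. -/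
theorem cost_explicit {Ex : ℕ → ℝ} {a r : ℕ} {c C : ℝ} (hc : 0 < c) (hC : 0 < C)
    (h : ∀ᶠ n : ℕ in atTop, c * ((n : ℝ) ^ a / Real.log n ^ r) ≤ Ex n ∧ Ex n ≤ C * ((n : ℝ) ^ a / Real.log n ^ r)) :
    ∀ᶠ k : ℕ in atTop, ∀ M : ℕ, 1 ≤ M → M ≤ 2 ^ k → 0 < (M : ℝ) * ((2 ^ k) ^ a / (k : ℝ) ^ r) ∧
      c / 2 ^ r * ((M : ℝ) * ((2 ^ k) ^ a / (k : ℝ) ^ r)) ≤ cost Ex (block k) M ∧
      cost Ex (block k) M ≤ C * 2 ^ a * 2 ^ r * ((M : ℝ) * ((2 ^ k) ^ a / (k : ℝ) ^ r)) := by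
  filter_upwards [ev_block h, eventually_ge_atTop 1] with k hk hk1 M hM1 hM2
  have hk0 : (0 : ℝ) < k := by exact_mod_cast hk1
  have hM0 : (0 : ℝ) < M := by exact_mod_cast hM1
  have hMc : M ≤ (block k).card := by rw [block_card]; exact hM2
  have hl := Real.log_two_gt_d9
  have hl' := Real.log_two_lt_d9
  have hb : ∀ n ∈ block k, (2 : ℝ) ^ k ≤ n ∧ (n : ℝ) ≤ 2 * 2 ^ k ∧ (k : ℝ) / 2 ≤ Real.log n ∧ Real.log n ≤ 2 * k := by
    intro n hn
    rw [block, mem_Ico] at hn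
    have h1 := log_block hn.1 hn.2
    have h2 : (n : ℝ) ≤ 2 * 2 ^ k := by
      have : n ≤ 2 * 2 ^ k := by rw [← pow_succ']; exact hn.2.le
      exact_mod_cast this
    refine ⟨by exact_mod_cast hn.1, h2, ?_, ?_⟩
    · nlinarith [h1.2.1]
    · have hk1' : (1 : ℝ) ≤ k := by exact_mod_cast hk1
      nlinarith [h1.2.2]
  refine ⟨by positivity, ?_, ?_⟩
  · have h1 := le_cost (e := Ex) hMc (b := c / 2 ^ r * ((2 ^ k) ^ a / (k : ℝ) ^ r)) (fun n hn => by
      obtain ⟨h1, h2, h3, h4⟩ := hb n hn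
      refine le_trans ?_ (hk n hn).1
      have hln : 0 < Real.log n := by linarith
      have h5 : ((2 : ℝ) ^ k) ^ a / (2 * k : ℝ) ^ r ≤ (n : ℝ) ^ a / Real.log n ^ r :=
        div_le_div₀ (by positivity) (pow_le_pow_left₀ (by positivity) h1 a) (by positivity)
          (pow_le_pow_left₀ hln.le h4 r)
      have h6 : c / 2 ^ r * (((2 : ℝ) ^ k) ^ a / (k : ℝ) ^ r) = c * (((2 : ℝ) ^ k) ^ a / (2 * k : ℝ) ^ r) := by
        rw [mul_pow]
        field_simp
      rw [h6]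
      exact mul_le_mul_of_nonneg_left h5 hc.le)
    refine le_trans (le_of_eq ?_) h1
    ring
  · have h1 := cost_le_mul (e := Ex) hMc (b := C * 2 ^ a * 2 ^ r * ((2 ^ k) ^ a / (k : ℝ) ^ r)) (fun n hn => by
      obtain ⟨h1, h2, h3, h4⟩ := hb n hn
      refine le_trans (hk n hn).2 ?_
      have hln : 0 < Real.log n := by linarith
      have hn0 : (0 : ℝ) ≤ n := Nat.cast_nonneg n
      have h5 : (n : ℝ) ^ a / Real.log n ^ r ≤ (2 * (2 : ℝ) ^ k) ^ a / ((k : ℝ) / 2) ^ r :=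
        div_le_div₀ (by positivity) (pow_le_pow_left₀ hn0 h2 a) (by positivity)
          (pow_le_pow_left₀ (by positivity) h3 r)
      have h6 : C * 2 ^ a * 2 ^ r * (((2 : ℝ) ^ k) ^ a / (k : ℝ) ^ r) = C * ((2 * (2 : ℝ) ^ k) ^ a / ((k : ℝ) / 2) ^ r) := by
        rw [mul_pow, div_pow]
        field_simp
      rw [h6]
      exact mul_le_mul_of_nonneg_left h5 hC.le)
    refine h1.trans (le_of_eq ?_)
    ring

section

variable {z : ℕ → ℕ} {D E : Finset ℕ} {H : ℕ} {σ : ℝ} {m : ℕ}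

/-- Patterns between consecutive powers. -/
theorem pow_phase (hm : 1 ≤ m) (hS : Tendsto (fun k => Sz D (z k)) atTop (𝓝 σ)) (hz : Small z)
    (hDE : D ⊆ E) (hE : ∀ h ∈ E, h ≤ H) (hne : D.Nonempty) (hσ : 0 < σ) :
    Phase (pr z) (fun n => Ico (n ^ (m + 1) + 1) ((n + 1) ^ (m + 1)))
      (fun n => pat D E H (n ^ (m + 1) + 1) ((n + 1) ^ (m + 1)))
      (fun n => σ * ((((m + 1 : ℕ) : ℝ) * (n : ℝ) ^ m) / (((m + 1 : ℕ) : ℝ) * Real.log n) ^ D.card))
      (fun k M => (M : ℝ) * ((2 ^ k) ^ m / (k : ℝ) ^ D.card)) := by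
  have h1 := phase ((pow_wins hm).model hS hz hDE hE hne hσ (pow_asy hm D.card σ))
  have hc : 0 < σ * ((m + 1 : ℕ) : ℝ) / ((m + 1 : ℕ) : ℝ) ^ D.card := by positivity
  refine h1.congr (c := σ * ((m + 1 : ℕ) : ℝ) / ((m + 1 : ℕ) : ℝ) ^ D.card / 2 ^ D.card)
    (C := σ * ((m + 1 : ℕ) : ℝ) / ((m + 1 : ℕ) : ℝ) ^ D.card * 2 ^ m * 2 ^ D.card) (by positivity) (by positivity) ?_
  refine cost_explicit hc hc ?_
  filter_upwards with n
  have h2 : σ * ((((m + 1 : ℕ) : ℝ) * (n : ℝ) ^ m) / (((m + 1 : ℕ) : ℝ) * Real.log n) ^ D.card) =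
      σ * ((m + 1 : ℕ) : ℝ) / ((m + 1 : ℕ) : ℝ) ^ D.card * ((n : ℝ) ^ m / Real.log n ^ D.card) := by
    rw [mul_pow, mul_div_mul_comm]
    ring
  exact ⟨h2.ge, h2.le⟩

theorem pow_price (hm : 1 ≤ m) (hS : Tendsto (fun k => Sz D (z k)) atTop (𝓝 σ)) (hz : Small z)
    (hD : ∀ h ∈ D, h ≤ H) (hne : D.Nonempty) (hσ : 0 < σ) :
    Price (pr z) (fun n => Ico (n ^ (m + 1) + 1) ((n + 1) ^ (m + 1)))
      (fun n => pat D D H (n ^ (m + 1) + 1) ((n + 1) ^ (m + 1)))
      (fun n => σ * ((((m + 1 : ℕ) : ℝ) * (n : ℝ) ^ m) / (((m + 1 : ℕ) : ℝ) * Real.log n) ^ D.card)) :=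
  price ((pow_wins hm).sharp hS hz hD hne hσ (pow_asy hm D.card σ))

end

/-- The singular series of an admissible set is positive. -/
theorem SS_pos {D : Finset ℕ} (h : ∀ p : ℕ, p.Prime → p < 4 * D.card ^ 2 + 2 * D.card + 1 → nu D p < p) : 0 < SS D := by
  have h1 := SS_lower (D := D) (z := 4 * D.card ^ 2 + 2 * D.card + 1) (by omega) (by omega)
  refine lt_of_lt_of_le (mul_pos ?_ ?_) h1
  · push_cast
    rw [sub_pos, div_lt_one (by positivity)]
    nlinarith [Nat.cast_nonneg (α := ℝ) D.card, sq_nonneg (D.card : ℝ)]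
  · unfold Sz
    refine prod_pos (fun p hp => ?_)
    rw [mem_filter, mem_range] at hp
    have hpp := hp.2
    have hp0 : (0 : ℝ) < p := by exact_mod_cast hpp.pos
    have hp1 : (1 : ℝ) < p := by exact_mod_cast hpp.one_lt
    unfold loc
    have h3 : (nu D p : ℝ) < p := by exact_mod_cast h p hpp hp.1
    apply div_pos
    · rw [sub_pos, div_lt_one hp0]
      exact h3
    · apply pow_pos
      rw [sub_pos, div_lt_one hp0]
      exact hp1

/-- The series is `1` for one element, at all levels. -/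
theorem Sz_one (z : ℕ) : Sz {0} z = 1 := by
  unfold Sz
  refine prod_eq_one (fun p hp => ?_)
  rw [mem_filter] at hp
  have hp1 : (1 : ℝ) < p := by exact_mod_cast hp.2.one_lt
  unfold loc nu
  rw [image_singleton, card_singleton, card_singleton, pow_one, Nat.cast_one]
  apply div_self
  rw [sub_ne_zero]
  intro h
  rw [eq_div_iff (by linarith)] at h
  linarith

end Pool.Agent.Q197.WN
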