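import Pool.Agent.Q197.WN.BroB
import Pool.Agent.Q197.WN.Pow

/-!
# The squares of consecutive elements: the random sets with many failures
-/

set_option autoImplicit false

namespace Pool.Agent.Q197.WN

open Finset MeasureTheory Filter Pool.Agent.Q120.TT Pool.Agent.Q120.ET Pool.Agent.Q120.GM
  Pool.Agent.Q120.CL Pool.Agent.Q120.MG Pool.Agent.Q120.HL Pool.Agent.Q150.TT
open scoped Topology

open Classical in
/-- The `i` with `i, i + 2 ∈ S` and `i + 1 ∉ S`. -/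
noncomputable def prs (a b : ℕ) (S : Set ℕ) : Finset ℕ := (Ico a (b - 2)).filter (fun i => i ∈ S ∧ i + 1 ∉ S ∧ i + 2 ∈ S)

theorem mem_prs {a b i : ℕ} {S : Set ℕ} : i ∈ prs a b S ↔ (a ≤ i ∧ i < b - 2) ∧ i ∈ S ∧ i + 1 ∉ S ∧ i + 2 ∈ S := by
  unfold prs
  rw [@mem_filter, mem_Ico]

theorem prs_card (a b : ℕ) (S : Set ℕ) : (prs a b S).card = pat {0, 2} {0, 1, 2} 2 a b S := by
  classical
  unfold prs pat cnt
  refine congrArg card (filter_congr (fun i _ => ?_))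
  have h0 : i ∈ sh {0, 1, 2} i := mem_sh.2 ⟨0, by simp, by simp⟩
  have h1 : i + 1 ∈ sh {0, 1, 2} i := mem_sh.2 ⟨1, by simp, by simp⟩
  have h2 : i + 2 ∈ sh {0, 1, 2} i := mem_sh.2 ⟨2, by simp, by simp⟩
  have k0 : i ∈ sh {0, 2} i := mem_sh.2 ⟨0, by simp, by simp⟩
  have k1 : i + 1 ∉ sh {0, 2} i := by
    intro h
    obtain ⟨x, hx, hx2⟩ := mem_sh.1 h
    simp only [mem_insert, mem_singleton] at hx
    omega
  have k2 : i + 2 ∈ sh {0, 2} i := mem_sh.2 ⟨2, by simp, by simp⟩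
  constructor
  · rintro ⟨a1, a2, a3⟩ x hx
    obtain ⟨h, hh, rfl⟩ := mem_sh.1 hx
    simp only [mem_insert, mem_singleton] at hh
    rcases hh with rfl | rfl | rfl
    · rw [add_zero]; tauto
    · tauto
    · tauto
  · intro h
    refine ⟨(h i h0).2 k0, fun h3 => k1 ((h _ h1).1 h3), (h _ h2).2 k2⟩

theorem bro_disj (i j : ℕ) (h : i ≠ j) : Disjoint (un bW i) (un bW j) := by
  unfold un
  rw [disjoint_biUnion_left]
  intro a ha
  rw [disjoint_biUnion_right]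
  intro b hb
  apply bro_wins.disj
  intro hab
  subst hab
  exact (Finset.disjoint_left.1 (block_disj i j h)) ha hb

/-- Enough empty windows give failures. -/
theorem fails_ge {a b k : ℕ} {S : Set ℕ} {J : Finset ℕ} (hJ : J ⊆ prs a b S) (hlo : 2 ^ (k + 1) ≤ a) (hhi : b ≤ 2 ^ (k + 2))
    (hodd : ∀ x ∈ S, 2 ^ (k + 1) ≤ x → Odd x)
    (hemp : ∀ i ∈ J, ∀ x ∈ Ico (i ^ 2 + 1) ((i + 2) ^ 2), x ∈ un bW k → x ∉ S) : J.card ≤ fails 0 k S := by
  classical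
  unfold fails
  apply card_le_card
  intro i hi
  obtain ⟨⟨h1, h2⟩, h3, h4, h5⟩ := mem_prs.1 (hJ hi)
  rw [mem_filter, mem_Ico]
  refine ⟨⟨by omega, by omega⟩, h3, i + 2, h5, by omega, ?_, ?_⟩
  · intro x hx1 hx2
    have : x = i + 1 := by omega
    rw [this]
    exact h4
  · rw [Nat.le_zero, card_eq_zero, filter_eq_empty_iff]
    intro x hx hxS
    obtain ⟨n, hn⟩ := hodd i h3 (by omega)
    rw [mem_Ioo] at hx
    refine hemp i hi x (mem_Ico.2 ⟨hx.1, hx.2⟩) ?_ hxS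
    unfold un
    rw [mem_biUnion]
    refine ⟨n, ?_, ?_⟩
    · unfold block
      rw [mem_Ico]
      have hp1 : 2 ^ (k + 1) = 2 * 2 ^ k := by rw [pow_succ]; ring
      have hp2 : 2 ^ (k + 2) = 2 * 2 ^ (k + 1) := by rw [pow_succ]; ring
      omega
    · unfold bW bu bv
      rw [mem_Ico]
      have e1 : i ^ 2 = (2 * n + 1) ^ 2 := by rw [hn]
      have e2 : (i + 2) ^ 2 = (2 * n + 3) ^ 2 := by rw [hn]
      omega

/-- The windows of the region of control are cheap. -/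
theorem reg_mass {z : ℕ → ℕ} (hs : Small z) {r : ℕ} (hr : 2 ≤ r) {δ : ℝ} (hδ : 0 < δ) (hrδ : 3 / 2 * (1 / 2 : ℝ) ^ r ≤ δ) :
    ∀ᶠ k : ℕ in atTop, ∀ a ∈ Ico (rgu r k) (rgv r k),
      ∑ x ∈ Ico (a ^ 2 + 1) ((a + 2) ^ 2), pr z x ≤ (1 + 2 * δ) * (1 + δ) * (1 + δ) * bp k := by
  obtain ⟨N, hN⟩ := eventually_atTop.1 (mean_win (D := {0}) (H := 0) (tend_one z) hs (by simp) hδ (show (0 : ℝ) < 1 / 2 by norm_num))
  have hlim : Tendsto (fun k : ℕ => δ * (4 * (2 : ℝ) ^ (k + 1))) atTop atTop := by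
    refine Tendsto.const_mul_atTop hδ (Tendsto.const_mul_atTop (by norm_num) ?_)
    exact (tendsto_pow_atTop_atTop_of_one_lt (by norm_num)).comp (tendsto_add_atTop_nat 1)
  filter_upwards [eventually_ge_atTop (N + 4), eventually_ge_atTop r, hlim.eventually_ge_atTop 3] with k hk hkr hbig a ha
  rw [mem_Ico] at ha
  have hl2 : 0 < Real.log 2 := Real.log_pos (by norm_num)
  have hk0 : (0 : ℝ) < k := by
    have : 0 < k := by omega
    exact_mod_cast this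
  have h1 : 2 ^ (k + 1) ≤ a := (rgu_ge k).trans ha.1
  have h2 : k < 2 ^ k := Nat.lt_two_pow_self
  have h3 : 2 ^ (k + 1) = 2 * 2 ^ k := by rw [pow_succ]; ring
  have haN : N + 4 ≤ a := by omega
  have h4 : a ≤ a ^ 2 := by nlinarith
  have h5 := hN (a ^ 2 + 1) (by omega) ((a + 2) ^ 2) (by nlinarith) (by nlinarith)
  have ha0 : (0 : ℝ) < a := by
    have : 0 < a := by omega
    exact_mod_cast this
  have ha1 : (2 : ℝ) ^ (k + 1) ≤ a := by exact_mod_cast h1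
  have hEI : EI (pr z) {0} (a ^ 2 + 1) ((a + 2) ^ 2) = ∑ x ∈ Ico (a ^ 2 + 1) ((a + 2) ^ 2), pr z x := by
    unfold EI
    refine sum_congr rfl (fun x _ => ?_)
    rw [prod_singleton, add_zero]
  rw [hEI, card_singleton, pow_one, one_mul] at h5
  have hlen : ((((a + 2) ^ 2 : ℕ) : ℝ) - ((a ^ 2 + 1 : ℕ) : ℝ)) = 4 * a + 3 := by push_cast; ring
  rw [hlen] at h5
  have hlog : 2 * (k * Real.log 2) ≤ Real.log ((a ^ 2 + 1 : ℕ) : ℝ) := by
    have h6 : Real.log ((a : ℝ) ^ 2) ≤ Real.log ((a ^ 2 + 1 : ℕ) : ℝ) := by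
      apply Real.log_le_log (by positivity)
      push_cast
      linarith
    rw [Real.log_pow] at h6
    have h7 : Real.log ((2 : ℝ) ^ (k + 1)) ≤ Real.log a := Real.log_le_log (by positivity) ha1
    rw [Real.log_pow] at h7
    push_cast at h6 h7
    push_cast
    nlinarith
  have hroot : (((a ^ 2 + 1 : ℕ) : ℝ)) ^ ((1 : ℝ) / 2) ≤ 4 * a + 3 := by
    rw [← Real.sqrt_eq_rpow, Real.sqrt_le_left (by positivity)]
    push_cast
    nlinarith
  have hkl : 0 < 2 * (k * Real.log 2) := by positivity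
  have hL : 0 < Real.log ((a ^ 2 + 1 : ℕ) : ℝ) := lt_of_lt_of_le hkl hlog
  have h6 := (abs_le.1 h5).2
  have h7 : δ * (4 * (a : ℝ) + 3 + (((a ^ 2 + 1 : ℕ) : ℝ)) ^ ((1 : ℝ) / 2)) / Real.log ((a ^ 2 + 1 : ℕ) : ℝ) ≤
      δ * (2 * (4 * a + 3)) / Real.log ((a ^ 2 + 1 : ℕ) : ℝ) := by
    apply div_le_div_of_nonneg_right _ hL.le
    exact mul_le_mul_of_nonneg_left (by linarith) hδ.le
  have h8 : ∑ x ∈ Ico (a ^ 2 + 1) ((a + 2) ^ 2), pr z x ≤ (1 + 2 * δ) * (4 * a + 3) / Real.log ((a ^ 2 + 1 : ℕ) : ℝ) := by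
    have e : (1 + 2 * δ) * (4 * (a : ℝ) + 3) / Real.log ((a ^ 2 + 1 : ℕ) : ℝ) =
      (4 * a + 3) / Real.log ((a ^ 2 + 1 : ℕ) : ℝ) + δ * (2 * (4 * a + 3)) / Real.log ((a ^ 2 + 1 : ℕ) : ℝ) := by ring
    rw [e]
    linarith
  have h9 : (4 * (a : ℝ) + 3) ≤ (1 + δ) * ((1 + δ) * (4 * 2 ^ (k + 1))) := by
    have h10 : (a : ℝ) ≤ (1 + δ) * 2 ^ (k + 1) := by
      have h11 : (a : ℝ) ≤ rgv r k := by exact_mod_cast ha.2.le
      refine h11.trans ?_
      have h12 : ((rgv r k : ℕ) : ℝ) = 2 ^ (k + 1) + 2 ^ (k + 1 - r) + 2 ^ (k - r) := by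
        unfold rgv rgu
        push_cast
        ring
      rw [h12]
      obtain ⟨m, rfl⟩ : ∃ m, k = m + r := ⟨k - r, by omega⟩
      rw [show m + r + 1 - r = m + 1 by omega, show m + r - r = m by omega]
      have h13 : (2 : ℝ) ^ m = (1 / 2 : ℝ) ^ r * 2 ^ (m + r) := by
        rw [pow_add, one_div, inv_pow]
        field_simp
      have h14 : (2 : ℝ) ^ (m + 1) + 2 ^ m = 3 / 2 * (1 / 2 : ℝ) ^ r * 2 ^ (m + r + 1) := by
        rw [pow_succ, pow_succ, h13]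
        ring
      have h15 : 3 / 2 * (1 / 2 : ℝ) ^ r * 2 ^ (m + r + 1) ≤ δ * 2 ^ (m + r + 1) := mul_le_mul_of_nonneg_right hrδ (by positivity)
      linarith
    have h11 : (3 : ℝ) ≤ (1 + δ) * (δ * (4 * 2 ^ (k + 1))) := by nlinarith
    nlinarith
  refine h8.trans ?_
  have h10 : (1 + 2 * δ) * (4 * (a : ℝ) + 3) / Real.log ((a ^ 2 + 1 : ℕ) : ℝ) ≤
      (1 + 2 * δ) * ((1 + δ) * ((1 + δ) * (4 * 2 ^ (k + 1)))) / (2 * (k * Real.log 2)) := by
    apply div_le_div₀ (by positivity) _ hkl hlog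
    exact mul_le_mul_of_nonneg_left h9 (by linarith)
  refine h10.trans (le_of_eq ?_)
  unfold bp
  rw [pow_succ]
  field_simp

end Pool.Agent.Q197.WN
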