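import Pool.Agent.Q197.WN.BroC

/-!
# The squares of consecutive elements: the budget
-/

set_option autoImplicit false

namespace Pool.Agent.Q197.WN

open Finset MeasureTheory Filter Pool.Agent.Q120.TT Pool.Agent.Q120.ET Pool.Agent.Q120.GM
  Pool.Agent.Q120.CL Pool.Agent.Q120.MG Pool.Agent.Q120.HL Pool.Agent.Q150.TT
open scoped Topology

theorem SS_twin : 0 < SS {0, 2} := by
  apply SS_pos
  intro p hp _
  have hcard : nu {0, 2} p ≤ 2 := by
    unfold nu
    exact card_image_le.trans (by rw [card_pair (by norm_num)])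
  rcases hp.two_le.eq_or_lt with h | h
  · rw [← h]
    unfold nu
    decide
  · omega

/-- There are many pairs in the region of control. -/
theorem prs_many {z : ℕ → ℕ} (hz : Tendsto z atTop atTop) (hs : Small z) {r : ℕ} (hr : 2 ≤ r) {M : ℕ → ℕ}
    (hM : Tendsto (fun k : ℕ => (M k : ℝ) * (k : ℝ) ^ 2 / 2 ^ k) atTop (𝓝 0)) :
    ∃ C : ℝ, 0 < C ∧ ∀ᶠ k : ℕ in atTop, PP (pr z) (Ico (rgu r k) (rgv r k))
      (fun T => ¬ M k ≤ (prs (rgu r k) (rgv r k) ((T : Finset ℕ) : Set ℕ)).card) ≤ C * Real.exp (-(k : ℝ)) := by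
  have hp : ∀ n, 0 ≤ pr z n ∧ pr z n ≤ 1 := fun n => ⟨pr_nonneg z n, pr_le_one z n⟩
  have hw := rgu_wins hr
  obtain ⟨σ, hσd⟩ : ∃ σ : ℝ, σ = SS {0, 2} := ⟨_, rfl⟩
  have hσ : 0 < σ := by rw [hσd]; exact SS_twin
  have hS : Tendsto (fun k => Sz {0, 2} (z k)) atTop (𝓝 σ) := by
    rw [hσd]
    exact (Sz_tendsto {0, 2}).comp hz
  obtain ⟨w, hwd⟩ : ∃ w : ℕ → ℝ, w = wt (rgu r) (rgv r) (({0, 2} : Finset ℕ).card) := ⟨_, rfl⟩
  have hmod := hw.model (D := {0, 2}) (E := {0, 1, 2}) (H := 2) (Ex := fun k => σ * w k) hS hs (by decide) (by decide)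
    ⟨0, by decide⟩ hσ (by
      rw [← hwd]
      intro ε hε
      filter_upwards [hw.wt_ge ({0, 2} : Finset ℕ).card] with k hk
      rw [← hwd] at hk
      rw [sub_self, abs_zero]
      exact mul_nonneg hε.le (le_trans (by positivity) hk.2))
  obtain ⟨C, c, hC, hc, hdev⟩ := hmod.dev (1 / 2) (by norm_num)
  refine ⟨C, hC, ?_⟩
  have hlog := hw.log_le (({0, 2} : Finset ℕ).card) (2 / (c * σ))
  rw [← hwd] at hlog
  have hsm := hM.eventually (Iio_mem_nhds (show (0 : ℝ) < σ / (8 * 2 ^ r) by positivity))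
  filter_upwards [hdev, hlog, hsm, eventually_ge_atTop (r + 2)] with k h1 h2 h3 hk
  have hk0 : (0 : ℝ) < k := by
    have : 0 < k := by omega
    exact_mod_cast this
  have h3' : (M k : ℝ) * (k : ℝ) ^ 2 / 2 ^ k < σ / (8 * 2 ^ r) := h3
  have hlo : (2 : ℝ) ^ (k + 1) ≤ rgu r k := by exact_mod_cast rgu_ge k
  have hhi : ((rgu r k : ℕ) : ℝ) ≤ 2 ^ (k + 2) := by
    have : rgu r k ≤ 2 ^ (k + 2) := le_trans (Nat.le_add_right _ _) (rgv_le hr k)
    exact_mod_cast this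
  have hl2 := Real.log_two_gt_d9
  have hl3 := Real.log_two_lt_d9
  have hL1 : (k : ℝ) / 2 ≤ Real.log (rgu r k) := by
    have := Real.log_le_log (by positivity) hlo
    rw [Real.log_pow] at this
    push_cast at this
    nlinarith
  have hL2 : Real.log (rgu r k) ≤ 2 * k := by
    have := Real.log_le_log (lt_of_lt_of_le (by positivity) hlo) hhi
    rw [Real.log_pow] at this
    push_cast at this
    have hk2 : (2 : ℝ) ≤ k := by
      have : 2 ≤ k := by omega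
      exact_mod_cast this
    nlinarith
  -- the number is at least twice M
  have hL0 : 0 < Real.log (rgu r k) := lt_of_lt_of_le (by positivity) hL1
  have hwk : w k = 2 ^ (k - r) / Real.log (rgu r k) ^ 2 := by
    rw [hwd]
    unfold wt
    rw [show ({0, 2} : Finset ℕ).card = 2 by decide]
    congr 1
    unfold rgv
    push_cast
    ring
  have hME : (M k : ℝ) ≤ 1 / 2 * (σ * w k) := by
    rw [div_lt_div_iff₀ (by positivity) (by positivity)] at h3'
    rw [hwk]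
    have h4 : Real.log (rgu r k) ^ 2 ≤ (2 * k) ^ 2 := pow_le_pow_left₀ hL0.le hL2 2
    have h5 : (2 : ℝ) ^ (k - r) / (2 * k) ^ 2 ≤ 2 ^ (k - r) / Real.log (rgu r k) ^ 2 :=
      div_le_div_of_nonneg_left (by positivity) (by positivity) h4
    have h6 : 1 / 2 * (σ * ((2 : ℝ) ^ (k - r) / (2 * k) ^ 2)) ≤ 1 / 2 * (σ * (2 ^ (k - r) / Real.log (rgu r k) ^ 2)) := by
      have := mul_le_mul_of_nonneg_left h5 hσ.le
      linarith
    refine le_trans ?_ h6
    have h7 : (2 : ℝ) ^ k = 2 ^ (k - r) * 2 ^ r := by rw [← pow_add]; congr 1; omega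
    rw [h7] at h3'
    have h8 : (M k : ℝ) * (k : ℝ) ^ 2 * 8 ≤ σ * 2 ^ (k - r) := by
      have h9 : (M k : ℝ) * (k : ℝ) ^ 2 * (8 * 2 ^ r) = (M k : ℝ) * (k : ℝ) ^ 2 * 8 * 2 ^ r := by ring
      have h10 : σ * (2 ^ (k - r) * 2 ^ r) = σ * 2 ^ (k - r) * (2 : ℝ) ^ r := by ring
      rw [h9, h10] at h3'
      exact (lt_of_mul_lt_mul_right h3' (by positivity)).le
    have h9 : 1 / 2 * (σ * ((2 : ℝ) ^ (k - r) / (2 * k) ^ 2)) = σ * 2 ^ (k - r) / (8 * (k : ℝ) ^ 2) := by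
      field_simp
      ring
    rw [h9, le_div_iff₀ (by positivity)]
    linarith
  -- the probability
  refine (PP_mono hp (fun T _ hT => ?_)).trans (h1.trans ?_)
  · have h4 : ((prs (rgu r k) (rgv r k) ((T : Finset ℕ) : Set ℕ)).card : ℝ) ≤ M k := by exact_mod_cast (not_le.1 hT).le
    rw [prs_card] at h4
    have h5 := neg_le_abs ((pat {0, 2} {0, 1, 2} 2 (rgu r k) (rgv r k) ((T : Finset ℕ) : Set ℕ) : ℝ) - σ * w k)
    show 1 / 2 * (σ * w k) ≤ |(pat {0, 2} {0, 1, 2} 2 (rgu r k) (rgv r k) ((T : Finset ℕ) : Set ℕ) : ℝ) - σ * w k|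
    linarith
  · apply mul_le_mul_of_nonneg_left _ hC.le
    apply Real.exp_le_exp.2
    have h4 : (k : ℝ) ≤ c * (σ * w k) := by
      have h5 : c * σ * (2 / (c * σ) * Real.log (rgu r k)) ≤ c * σ * w k := mul_le_mul_of_nonneg_left h2 (by positivity)
      have h6 : c * σ * (2 / (c * σ) * Real.log (rgu r k)) = 2 * Real.log (rgu r k) := by field_simp
      linarith
    linarith

open Classical in
/-- A choice of `m` pairs. -/
noncomputable def pick (m : ℕ) (X : Finset ℕ) : Finset ℕ :=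
  if h : ∃ Y ⊆ X, Y.card = m then h.choose else ∅

theorem pick_sub (m : ℕ) (X : Finset ℕ) : pick m X ⊆ X := by
  unfold pick
  split_ifs with h
  · exact h.choose_spec.1
  · exact empty_subset _

theorem pick_card_le (m : ℕ) (X : Finset ℕ) : (pick m X).card ≤ m := by
  unfold pick
  split_ifs with h
  · exact h.choose_spec.2.le
  · simp

theorem pick_card {m : ℕ} {X : Finset ℕ} (h : m ≤ X.card) : (pick m X).card = m := by
  unfold pick
  rw [dif_pos (exists_subset_card_eq h)]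
  exact (exists_subset_card_eq h).choose_spec.2

theorem sum_bi_le {f : ℕ → ℝ} (hf : ∀ x, 0 ≤ f x) (I : Finset ℕ) (W : ℕ → Finset ℕ) :
    ∑ x ∈ I.biUnion W, f x ≤ ∑ i ∈ I, ∑ x ∈ W i, f x := by
  classical
  induction I using Finset.induction_on with
  | empty => simp
  | insert a s ha ih =>
    rw [biUnion_insert, sum_insert ha]
    have h1 := sum_union_inter (s₁ := W a) (s₂ := s.biUnion W) (f := f)
    have h2 : 0 ≤ ∑ x ∈ W a ∩ s.biUnion W, f x := sum_nonneg (fun x _ => hf x)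
    linarith

/-- The removed integers. -/
noncomputable def rem (r : ℕ) (M : ℕ → ℕ) (k : ℕ) (U : Finset ℕ) : Finset ℕ :=
  ((pick (M k) (prs (rgu r k) (rgv r k) (U : Set ℕ))).biUnion (fun a => Ico (a ^ 2 + 1) ((a + 2) ^ 2))) ∩ un bW k

theorem rem_cost {z : ℕ → ℕ} (hs : Small z) {r : ℕ} (hr : 2 ≤ r) {δ : ℝ} (hδ : 0 < δ) (hδ2 : δ ≤ 1 / 2)
    (hrδ : 3 / 2 * (1 / 2 : ℝ) ^ r ≤ δ) (M : ℕ → ℕ) : ∀ᶠ k : ℕ in atTop, ∀ U : Finset ℕ,
      Real.exp (-((1 + 2 * δ) * ((1 + 2 * δ) * (1 + δ) * (1 + δ)) * (M k * bp k))) ≤ ∏ x ∈ rem r M k U, (1 - pr z x) := by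
  classical
  have hp : ∀ n, 0 ≤ pr z n ∧ pr z n ≤ 1 := fun n => ⟨pr_nonneg z n, pr_le_one z n⟩
  obtain ⟨N, hN⟩ := eventually_atTop.1 (pr_tendsto hs hδ)
  filter_upwards [reg_mass hs hr hδ hrδ, eventually_ge_atTop N, eventually_ge_atTop 1] with k hk hkN hk1 U
  have hb := bp_pos hk1
  rw [← PP_empty]
  refine le_trans (Real.exp_le_exp.2 ?_) (void_lo hp hδ2 (W := rem r M k U) (fun x hx => ?_))
  · have h1 : ∑ x ∈ rem r M k U, pr z x ≤ (M k : ℝ) * ((1 + 2 * δ) * (1 + δ) * (1 + δ) * bp k) := by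
      have h2 : ∑ x ∈ rem r M k U, pr z x ≤
          ∑ x ∈ (pick (M k) (prs (rgu r k) (rgv r k) (U : Set ℕ))).biUnion (fun a => Ico (a ^ 2 + 1) ((a + 2) ^ 2)), pr z x :=
        sum_le_sum_of_subset_of_nonneg inter_subset_left (fun x _ _ => (hp x).1)
      have h3 := sum_bi_le (f := pr z) (fun x => (hp x).1)
        (pick (M k) (prs (rgu r k) (rgv r k) (U : Set ℕ))) (fun a => Ico (a ^ 2 + 1) ((a + 2) ^ 2))
      refine h2.trans (h3.trans ?_)
      have h4 : ∀ a ∈ pick (M k) (prs (rgu r k) (rgv r k) (U : Set ℕ)), ∑ x ∈ Ico (a ^ 2 + 1) ((a + 2) ^ 2), pr z x ≤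
          (1 + 2 * δ) * (1 + δ) * (1 + δ) * bp k := by
        intro a ha
        have h5 := (mem_prs.1 (pick_sub _ _ ha)).1
        exact hk a (mem_Ico.2 ⟨h5.1, by omega⟩)
      refine (sum_le_sum h4).trans ?_
      rw [sum_const, nsmul_eq_mul]
      refine mul_le_mul_of_nonneg_right ?_ (by positivity)
      exact_mod_cast pick_card_le _ _
    have h2 : (1 + 2 * δ) * ∑ x ∈ rem r M k U, pr z x ≤ (1 + 2 * δ) * ((M k : ℝ) * ((1 + 2 * δ) * (1 + δ) * (1 + δ) * bp k)) :=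
      mul_le_mul_of_nonneg_left h1 (by positivity)
    linarith
  · unfold rem at hx
    have h1 := un_ge (mem_inter.1 hx).2
    have h2 : k < 2 ^ k := Nat.lt_two_pow_self
    have h3 : 2 ^ (k + 2) = 4 * 2 ^ k := by rw [pow_add]; ring
    exact hN x (by omega)

end Pool.Agent.Q197.WN
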