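import Pool.Agent.Q197.WN.BroD

/-!
# The squares of consecutive elements: the budget
-/

set_option autoImplicit false

namespace Pool.Agent.Q197.WN

open Finset MeasureTheory Filter Pool.Agent.Q120.TT Pool.Agent.Q120.ET Pool.Agent.Q120.GM
  Pool.Agent.Q120.CL Pool.Agent.Q120.MG Pool.Agent.Q120.HL Pool.Agent.Q150.TT
open scoped Topology

theorem prs_tr {Ω : Type} [MeasurableSpace Ω] {A : Ω → Set ℕ} {a b : ℕ} (ω : Ω) :
    prs a b ((tr A (Ico a b) ω : Finset ℕ) : Set ℕ) = prs a b (A ω) := by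
  ext i
  rw [mem_prs, mem_prs]
  refine and_congr_right (fun h => ?_)
  have e : ∀ x, a ≤ x → x < b → (x ∈ ((tr A (Ico a b) ω : Finset ℕ) : Set ℕ) ↔ x ∈ A ω) := by
    intro x h1 h2
    rw [Finset.mem_coe, mem_tr, mem_Ico]
    exact ⟨fun h => h.2, fun h => ⟨⟨h1, h2⟩, h⟩⟩
  rw [e i h.1 (by omega), e (i + 1) (by omega) (by omega), e (i + 2) (by omega) (by omega)]

/-- Success of the adversary. -/
theorem fail_of {r : ℕ} (hr : 2 ≤ r) {M : ℕ → ℕ} {k : ℕ} {Ω : Type} [MeasurableSpace Ω] {A : Ω → Set ℕ} {ω : Ω}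
    (hodd : ∀ x ∈ A ω, 2 ^ (k + 1) ≤ x → Odd x)
    (hG : M k ≤ (prs (rgu r k) (rgv r k) ((tr A (Ico (rgu r k) (rgv r k)) ω : Finset ℕ) : Set ℕ)).card)
    (hR : ∀ x ∈ rem r M k (tr A (Ico (rgu r k) (rgv r k)) ω), x ∉ A ω) : M k ≤ fails 0 k (A ω) := by
  have h1 := pick_card hG
  rw [← h1]
  refine fails_ge (a := rgu r k) (b := rgv r k) ?_ (rgu_ge k) (rgv_le hr k) hodd ?_
  · refine (pick_sub _ _).trans ?_
    rw [prs_tr]
  · intro i hi x hx hxu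
    refine hR x ?_
    unfold rem
    rw [mem_inter, mem_biUnion]
    exact ⟨⟨i, hi, hx⟩, hxu⟩

/-- Random sets with many failures, at the least possible price. -/
theorem bro_down {z : ℕ → ℕ} (hz : Tendsto z atTop atTop) (hs : Small z) {ε : ℝ} (hε : 0 < ε) {M : ℕ → ℕ}
    (hM : Tendsto (fun k : ℕ => (M k : ℝ) * (k : ℝ) ^ 2 / 2 ^ k) atTop (𝓝 0)) {q : ℕ → ℝ} (hq : ∀ k, 0 ≤ q k ∧ q k ≤ 1) :
    ∃ (Ω : Type) (_ : MeasurableSpace Ω) (μ : Measure Ω) (_ : IsProbabilityMeasure μ) (A : Ω → Set ℕ),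
      IsRandomSet A ∧ (∀ᵐ ω ∂μ, ∀ n ∈ A ω, 0 < pr z n) ∧
      (∀ᶠ k : ℕ in atTop, relEnt (pr z) μ A (un bW k) ≤ q k * ((1 + ε) * (M k * bp k))) ∧
      (∀ᶠ k : ℕ in atTop, (1 - ε) * q k ≤ μ.real {ω | M k ≤ fails 0 k (A ω)}) ∧
      (¬ Summable q → ∀ᵐ ω ∂μ, ∃ᶠ k : ℕ in atTop, M k ≤ fails 0 k (A ω)) := by
  classical
  have hp : ∀ n, 0 ≤ pr z n ∧ pr z n ≤ 1 := fun n => ⟨pr_nonneg z n, pr_le_one z n⟩
  obtain ⟨δ, hδ⟩ : ∃ δ : ℝ, δ = min ε 1 / 16 := ⟨_, rfl⟩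
  have hδ0 : 0 < δ := by rw [hδ]; exact div_pos (lt_min hε one_pos) (by norm_num)
  have hδ1 : 16 * δ ≤ ε := by rw [hδ]; have := min_le_left ε 1; linarith
  have hδ2 : 16 * δ ≤ 1 := by rw [hδ]; have := min_le_right ε 1; linarith
  obtain ⟨r, hr, hrδ⟩ : ∃ r : ℕ, 2 ≤ r ∧ 3 / 2 * (1 / 2 : ℝ) ^ r ≤ δ := by
    obtain ⟨n, hn⟩ := exists_pow_lt_of_lt_one (show 0 < δ / 2 by linarith) (show (1 / 2 : ℝ) < 1 by norm_num)
    refine ⟨n + 2, by omega, ?_⟩
    have h1 : (1 / 2 : ℝ) ^ (n + 2) = (1 / 2 : ℝ) ^ n * (1 / 4) := by rw [pow_add]; norm_num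
    rw [h1]
    linarith
  obtain ⟨k1, hk1⟩ := eventually_atTop.1 (rem_cost hs hr hδ0 (by linarith) hrδ M)
  obtain ⟨C, hC, hm⟩ := prs_many hz hs hr hM
  have hfac : (1 + 2 * δ) * ((1 + 2 * δ) * (1 + δ) * (1 + δ)) ≤ 1 + ε := by
    have h1 : (1 + 2 * δ) * (1 + 2 * δ) ≤ 1 + 5 * δ := by nlinarith
    have h2 : (1 + δ) * (1 + δ) ≤ 1 + 3 * δ := by nlinarith
    have h3 : (1 + 2 * δ) * ((1 + 2 * δ) * (1 + δ) * (1 + δ)) = ((1 + 2 * δ) * (1 + 2 * δ)) * ((1 + δ) * (1 + δ)) := by ring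
    rw [h3]
    have h4 : ((1 + 2 * δ) * (1 + 2 * δ)) * ((1 + δ) * (1 + δ)) ≤ (1 + 5 * δ) * (1 + 3 * δ) :=
      mul_le_mul h1 h2 (by positivity) (by positivity)
    nlinarith
  obtain ⟨Ω, mΩ, μ, hμ, A, hA1, hA2, hA3, hA4, hA5⟩ := adversary_ev hp bro_disj (C := fun k => Ico (rgu r k) (rgv r k))
    (R := rem r M) (v := fun k => (1 + 2 * δ) * ((1 + 2 * δ) * (1 + δ) * (1 + δ)) * (M k * bp k)) hq (max k1 r)
    (fun k _ => by
      rw [Finset.disjoint_left]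
      intro x hx hx'
      rw [mem_Ico] at hx
      have h1 := un_ge hx'
      have h2 := rgv_le hr k
      omega)
    (fun k U _ => inter_subset_right)
    (fun j k U hj hk => by
      rw [Finset.disjoint_left]
      intro x hx
      unfold rem at hx
      obtain ⟨a, ha, hxa⟩ := mem_biUnion.1 (mem_inter.1 hx).1
      obtain ⟨⟨h1, h2⟩, _⟩ := mem_prs.1 (pick_sub _ _ ha)
      rw [mem_Ico] at hxa
      have h3 : rgu r j ^ 2 ≤ a ^ 2 := Nat.pow_le_pow_left h1 2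
      have h4 : (a + 2) ^ 2 ≤ rgv r j ^ 2 := Nat.pow_le_pow_left (by omega) 2
      exact rgu_sq hr (le_trans (le_max_right _ _) hj) (le_trans (le_max_right _ _) hk) (by omega) (by omega))
    (fun k U hk _ => hk1 k (le_trans (le_max_left _ _) hk) U)
  obtain ⟨G, hG⟩ : ∃ G : ℕ → Finset ℕ → Prop, G = fun k T => M k ≤ (prs (rgu r k) (rgv r k) ((T : Finset ℕ) : Set ℕ)).card :=
    ⟨_, rfl⟩
  have hsum : Summable (fun k => PP (pr z) (Ico (rgu r k) (rgv r k)) (fun T => ¬ G k T)) := by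
    refine Summable.of_norm_bounded_eventually_nat (Real.summable_exp_neg_nat.mul_left C) ?_
    filter_upwards [hm] with k hk
    rw [Real.norm_eq_abs, abs_of_nonneg (PP_nonneg hp)]
    rw [hG]
    exact hk
  have hodd := ae_odd hz hA2
  refine ⟨Ω, mΩ, μ, hμ, A, hA1, hA2, ?_, ?_, fun hns => ?_⟩
  · filter_upwards [eventually_ge_atTop (max k1 r), eventually_ge_atTop 1] with k hk hk2
    refine (hA3 k hk).trans (mul_le_mul_of_nonneg_left ?_ (hq k).1)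
    have := bp_pos hk2
    exact mul_le_mul_of_nonneg_right hfac (by positivity)
  · have hlim := hsum.tendsto_atTop_zero.eventually (Iio_mem_nhds hε)
    filter_upwards [eventually_ge_atTop (max k1 r), hlim, hodd] with k hk hk2 hk3
    have hk2' : PP (pr z) (Ico (rgu r k) (rgv r k)) (fun T => ¬ G k T) < ε := hk2
    have h1 := hA4 k hk (G k)
    have h2 : 1 - ε ≤ PP (pr z) (Ico (rgu r k) (rgv r k)) (G k) := by
      have h3 := PP_or (p := pr z) (B := Ico (rgu r k) (rgv r k)) hp (F := G k) (G := fun T => ¬ G k T)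
      have h4 : PP (pr z) (Ico (rgu r k) (rgv r k)) (fun T => G k T ∨ ¬ G k T) = 1 := by
        rw [← PP_true (p := pr z) (B := Ico (rgu r k) (rgv r k))]
        exact PP_congr (fun T _ => by tauto)
      linarith
    have h3 : (1 - ε) * q k ≤ q k * PP (pr z) (Ico (rgu r k) (rgv r k)) (G k) := by
      rw [mul_comm]
      exact mul_le_mul_of_nonneg_left h2 (hq k).1
    refine h3.trans (h1.trans ?_)
    refine ENNReal.toReal_mono (measure_ne_top _ _) (measure_mono_ae ?_)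
    filter_upwards [hk3] with ω hω hω2
    have hω2' : G k (tr A (Ico (rgu r k) (rgv r k)) ω) ∧ ∀ x ∈ rem r M k (tr A (Ico (rgu r k) (rgv r k)) ω), x ∉ A ω := hω2
    rw [hG] at hω2'
    exact fail_of hr hω hω2'.1 hω2'.2
  · have h5 : ∀ᵐ ω ∂μ, ∀ᶠ k : ℕ in atTop, ∀ x ∈ A ω, 2 ^ (k + 1) ≤ x → Odd x := by
      obtain ⟨K, hK⟩ := eventually_atTop.1 (even_zero hz)
      filter_upwards [hA2] with ω hω
      filter_upwards [eventually_ge_atTop K] with k hk x hx hxk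
      by_contra hcon
      have h1 : k < 2 ^ (k + 1) := lt_of_lt_of_le Nat.lt_two_pow_self (Nat.pow_le_pow_right (by norm_num) (by omega))
      have h2 := hK x (by omega) hcon
      have h3 := hω x hx
      linarith
    filter_upwards [hA5 hns G hsum, h5] with ω hω hω2
    refine (hω.and_eventually hω2).mono (fun k hk => ?_)
    obtain ⟨⟨h1, h2⟩, h3⟩ := hk
    rw [hG] at h1
    exact fail_of hr h3 h1 h2

end Pool.Agent.Q197.WN
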