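import Pool.Agent.Q197.WN.BroE

/-!
# The squares of consecutive elements: the budget, and the asymptotic law
-/

set_option autoImplicit false

namespace Pool.Agent.Q197.WN

open Finset MeasureTheory Filter Pool.Agent.Q120.TT Pool.Agent.Q120.ET Pool.Agent.Q120.GM
  Pool.Agent.Q120.CL Pool.Agent.Q120.MG Pool.Agent.Q120.HL Pool.Agent.Q150.TT
open scoped Topology

theorem bro_phase {z : ℕ → ℕ} (hs : Small z) :
    Phase (pr z) bW (fun n => els (bW n)) bE (fun k M => (M : ℝ) * (2 ^ k / k)) :=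
  sq_phase (β := 8) (by norm_num) (fun n => rfl) (phase (bro_sharp hs).toWModel)

theorem summand_eq (d M : ℝ) (k : ℕ) : d / (M * (2 ^ k / k)) = d * k / (2 ^ k * M) := by
  rcases Nat.eq_zero_or_pos k with h | h
  · subst h
    simp
  · have hk : (k : ℝ) ≠ 0 := by exact_mod_cast h.ne'
    rcases eq_or_ne M 0 with hM | hM
    · subst hM
      simp
    · field_simp

/-- The random sets with infinitely many failures. -/
theorem bro_often {z : ℕ → ℕ} (hz : Tendsto z atTop atTop) (hs : Small z) {M : ℕ → ℕ} (hM1 : ∀ k, 1 ≤ M k)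
    (hM : Tendsto (fun k : ℕ => (M k : ℝ) * (k : ℝ) ^ 2 / 2 ^ k) atTop (𝓝 0)) {d : ℕ → ℝ} (hd : ∀ k, 0 ≤ d k)
    (hns : ¬ Summable (fun k : ℕ => d k * k / (2 ^ k * M k))) :
    ∃ (Ω : Type) (_ : MeasurableSpace Ω) (μ : Measure Ω) (_ : IsProbabilityMeasure μ) (A : Ω → Set ℕ),
      Near (pr z) (un bW) d μ A ∧ ∀ᵐ ω ∂μ, ∃ᶠ k : ℕ in atTop, M k ≤ fails 0 k (A ω) := by
  have hl2 : 0 < Real.log 2 := Real.log_pos (by norm_num)
  obtain ⟨q, hq⟩ : ∃ q : ℕ → ℝ, q = fun k => min 1 (|d k / (2 * (M k * bp k))|) := ⟨_, rfl⟩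
  have hq0 : ∀ k, 0 ≤ q k := fun k => by rw [hq]; exact le_min zero_le_one (abs_nonneg _)
  have hq1 : ∀ k, q k ≤ 1 := fun k => by rw [hq]; exact min_le_left _ _
  obtain ⟨Ω, mΩ, μ, hμ, A, hA1, hA2, hA3, hA4, hA5⟩ := bro_down hz hs one_pos hM (fun k => ⟨hq0 k, hq1 k⟩)
  refine ⟨Ω, mΩ, μ, hμ, A, ⟨hA1, hA2, ?_⟩, hA5 ?_⟩
  · filter_upwards [hA3, eventually_ge_atTop 1] with k hk hk1
    refine hk.trans ?_
    have hb := bp_pos hk1
    have hM0 : (0 : ℝ) < M k := by exact_mod_cast hM1 k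
    have h1 : q k ≤ d k / (2 * (M k * bp k)) := by
      rw [hq]
      refine (min_le_right _ _).trans (le_of_eq (abs_of_nonneg ?_))
      have := hd k
      positivity
    calc q k * ((1 + 1) * (M k * bp k)) ≤ d k / (2 * (M k * bp k)) * ((1 + 1) * (M k * bp k)) :=
          mul_le_mul_of_nonneg_right h1 (by positivity)
      _ = d k := by field_simp; ring
  · rw [hq]
    apply not_summable_min
    intro hcon
    apply hns
    refine Summable.of_norm_bounded_eventually_nat (hcon.mul_left (8 / Real.log 2)) ?_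
    filter_upwards [eventually_ge_atTop 1] with k hk1
    have hk0 : (0 : ℝ) < k := by exact_mod_cast hk1
    have hM0 : (0 : ℝ) < M k := by exact_mod_cast hM1 k
    have h1 := hd k
    have hb := bp_pos hk1
    rw [Real.norm_eq_abs, abs_of_nonneg (by positivity), abs_of_nonneg (by positivity)]
    apply le_of_eq
    unfold bp
    field_simp
    ring

/-- **The budget for the number of failures.** -/
theorem bro_budget {z : ℕ → ℕ} (hz : Tendsto z atTop atTop) (hs : Small z) {M : ℕ → ℕ} (hM1 : ∀ k, 1 ≤ M k)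
    (hM : Tendsto (fun k : ℕ => (M k : ℝ) * (k : ℝ) ^ 2 / 2 ^ k) atTop (𝓝 0)) {d : ℕ → ℝ} (hd : ∀ k, 0 ≤ d k) (j : ℕ) :
    Summable (fun k : ℕ => d k * k / (2 ^ k * M k)) ↔
      ∀ (Ω : Type) [MeasurableSpace Ω] (μ : Measure Ω) [IsProbabilityMeasure μ] (A : Ω → Set ℕ), Near (pr z) (un bW) d μ A →
        ∀ᵐ ω ∂μ, ∀ᶠ k : ℕ in atTop, fails j k (A ω) < M k := by
  constructor
  · intro hsum Ω _ μ _ A hA
    obtain ⟨M', hM'⟩ : ∃ M' : ℕ → ℕ, M' = fun k => min (M k) (2 ^ k) := ⟨_, rfl⟩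
    have hM'1 : ∀ k, 1 ≤ M' k ∧ M' k ≤ 2 ^ k := fun k => by
      rw [hM']
      exact ⟨le_min (hM1 k) Nat.one_le_two_pow, min_le_right _ _⟩
    have hev : ∀ᶠ k : ℕ in atTop, M' k = M k := by
      filter_upwards [hM.eventually (Iio_mem_nhds (show (0 : ℝ) < 1 by norm_num)), eventually_ge_atTop 1] with k hk hk1
      have h1 : (M k : ℝ) * (k : ℝ) ^ 2 / 2 ^ k < 1 := hk
      rw [div_lt_one (by positivity)] at h1
      have hk0 : (1 : ℝ) ≤ k := by exact_mod_cast hk1
      have h2 : (M k : ℝ) ≤ 2 ^ k := by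
        have h3 : (M k : ℝ) ≤ (M k : ℝ) * (k : ℝ) ^ 2 := by
          have : (1 : ℝ) ≤ (k : ℝ) ^ 2 := one_le_pow₀ hk0
          have h4 : (0 : ℝ) ≤ M k := Nat.cast_nonneg _
          nlinarith
        linarith
      rw [hM']
      exact min_eq_left (by exact_mod_cast h2)
    have h1 : Summable (fun k => d k / ((M' k : ℝ) * (2 ^ k / k))) := by
      have h2 : Summable (fun k : ℕ => d k * k / (2 ^ k * M' k)) := by
        refine Summable.of_norm_bounded_eventually_nat hsum.norm ?_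
        filter_upwards [hev] with k hk
        rw [hk]
      exact h2.congr (fun k => (summand_eq _ _ _).symm)
    have h2 := (((bro_phase hs) d M' hd hM'1).2.1 j).1 h1 Ω μ A hA
    have h5 : ∀ᵐ ω ∂μ, ∀ᶠ k : ℕ in atTop, ∀ x ∈ A ω, 2 ^ (k + 1) ≤ x → Odd x := by
      obtain ⟨K, hK⟩ := eventually_atTop.1 (even_zero hz)
      filter_upwards [hA.supp] with ω hω
      filter_upwards [eventually_ge_atTop K] with k hk x hx hxk
      by_contra hcon
      have h1 : k < 2 ^ (k + 1) := lt_of_lt_of_le Nat.lt_two_pow_self (Nat.pow_le_pow_right (by norm_num) (by omega))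
      have h2 := hK x (by omega) hcon
      have h3 := hω x hx
      linarith
    filter_upwards [h2, h5] with ω hω hω2
    filter_upwards [hω, hω2, hev] with k hk hk2 hk3
    have h6 := fails_le (j := j) hk2
    omega
  · intro hf
    by_contra hns
    obtain ⟨Ω, mΩ, μ, hμ, A, hA, hA2⟩ := bro_often hz hs hM1 hM hd hns
    have h1 := hf Ω μ A hA
    have h2 : ∀ᵐ ω ∂μ, False := by
      filter_upwards [h1, hA2] with ω hω hω2
      obtain ⟨k, hk1, hk2⟩ := (hω2.and_eventually hω).exists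
      have h3 : fails 0 k (A ω) ≤ fails j k (A ω) := by
        classical
        unfold fails
        refine card_le_card (fun a ha => ?_)
        rw [mem_filter] at ha ⊢
        obtain ⟨h4, h5, b, h6, h7, h8, h9⟩ := ha
        exact ⟨h4, h5, b, h6, h7, h8, h9.trans (Nat.zero_le _)⟩
      omega
    rw [ae_iff] at h2
    simp at h2

end Pool.Agent.Q197.WN
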