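import Pool.Agent.Q197.WN.BroF

/-!
# The squares of consecutive elements: the asymptotic law
-/

set_option autoImplicit false

namespace Pool.Agent.Q197.WN

open Finset MeasureTheory Filter Pool.Agent.Q120.TT Pool.Agent.Q120.ET Pool.Agent.Q120.GM
  Pool.Agent.Q120.CL Pool.Agent.Q120.MG Pool.Agent.Q120.HL Pool.Agent.Q150.TT
open scoped Topology

open Classical in
/-- The number of the elements of `S` between `a ^ 2` and `b ^ 2`. -/
noncomputable def btw (a b : ℕ) (S : Set ℕ) : ℕ := ((Ioo (a ^ 2) (b ^ 2)).filter (fun x => x ∈ S)).card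

/-- Between the squares of large consecutive elements `a < b` there are asymptotically `(b ^ 2 - a ^ 2) / (2 log a)` elements. -/
def Law (S : Set ℕ) : Prop :=
  ∀ ε : ℝ, 0 < ε → ∀ᶠ a : ℕ in atTop, a ∈ S → ∀ b ∈ S, a < b → (∀ x, a < x → x < b → x ∉ S) →
    |(btw a b S : ℝ) - ((b : ℝ) ^ 2 - (a : ℝ) ^ 2) / (2 * Real.log a)| ≤ ε * (((b : ℝ) ^ 2 - (a : ℝ) ^ 2) / (2 * Real.log a))

theorem btw_ge {i l : ℕ} (S : Set ℕ) : ∑ n ∈ Ico i l, els (bW n) S ≤ btw (2 * i + 1) (2 * l + 1) S := by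
  classical
  have h1 : ∑ n ∈ Ico i l, els (bW n) S = ((Ico i l).biUnion (fun n => (bW n).filter (fun x => x ∈ S))).card := by
    rw [card_biUnion]
    · unfold els
      exact sum_congr rfl (fun n _ => by congr 1)
    · intro a _ b _ hab
      exact (bro_wins.disj a b hab).mono (filter_subset _ _) (filter_subset _ _)
  rw [h1]
  unfold btw
  apply card_le_card
  intro x hx
  obtain ⟨n, hn, hx⟩ := mem_biUnion.1 hx
  rw [mem_filter] at hx ⊢
  refine ⟨?_, hx.2⟩
  have h2 := hx.1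
  unfold bW bu bv at h2
  rw [mem_Ico] at h2 hn
  rw [mem_Ioo]
  have h3 : (2 * i + 1) ^ 2 ≤ (2 * n + 1) ^ 2 := Nat.pow_le_pow_left (by omega) 2
  have h4 : (2 * n + 3) ^ 2 ≤ (2 * l + 1) ^ 2 := Nat.pow_le_pow_left (by omega) 2
  omega

theorem btw_le {i l : ℕ} (S : Set ℕ) : btw (2 * i + 1) (2 * l + 1) S ≤ ∑ n ∈ Ico i l, (els (bW n) S + 1) := by
  classical
  have h1 : (Ioo ((2 * i + 1) ^ 2) ((2 * l + 1) ^ 2)).filter (fun x => x ∈ S) ⊆
      (Ico i l).biUnion (fun n => insert ((2 * n + 1) ^ 2) ((bW n).filter (fun x => x ∈ S))) := by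
    intro x hx
    rw [mem_filter, mem_Ioo] at hx
    obtain ⟨⟨h2, h3⟩, h4⟩ := hx
    obtain ⟨t, ht⟩ : ∃ t, t = Nat.sqrt x := ⟨_, rfl⟩
    have h5 : t * t ≤ x := by rw [ht]; exact Nat.sqrt_le x
    have h6 : x < (t + 1) * (t + 1) := by rw [ht]; exact Nat.lt_succ_sqrt x
    rw [pow_two] at h2 h3
    have h7 : 2 * i + 1 ≤ t := by
      by_contra hcon
      have : (t + 1) * (t + 1) ≤ (2 * i + 1) * (2 * i + 1) := Nat.mul_self_le_mul_self (by omega)
      omega
    have h8 : t < 2 * l + 1 := by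
      by_contra hcon
      have : (2 * l + 1) * (2 * l + 1) ≤ t * t := Nat.mul_self_le_mul_self (by omega)
      omega
    obtain ⟨n, hn⟩ : ∃ n, n = (t - 1) / 2 := ⟨_, rfl⟩
    rw [mem_biUnion]
    refine ⟨n, by rw [mem_Ico]; omega, ?_⟩
    rw [mem_insert, mem_filter]
    have h9 : (2 * n + 1) ^ 2 ≤ t * t := by
      rw [pow_two]
      exact Nat.mul_self_le_mul_self (by omega)
    have h10 : (t + 1) * (t + 1) ≤ (2 * n + 3) ^ 2 := by
      rw [pow_two]
      exact Nat.mul_self_le_mul_self (by omega)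
    by_cases h11 : x = (2 * n + 1) ^ 2
    · exact Or.inl h11
    · refine Or.inr ⟨?_, h4⟩
      unfold bW bu bv
      rw [mem_Ico]
      omega
  unfold btw
  refine (card_le_card h1).trans (card_biUnion_le.trans (sum_le_sum (fun n _ => ?_)))
  refine (card_insert_le _ _).trans (Nat.add_le_add_right (le_of_eq ?_) 1)
  unfold els
  congr 1

/-- Deterministic: all windows good imply the law. -/
theorem law_of {S : Set ℕ} (hodd : ∀ᶠ x : ℕ in atTop, x ∈ S → Odd x)
    (h : ∀ ε : ℝ, 0 < ε → ∀ᶠ n : ℕ in atTop, |(els (bW n) S : ℝ) - bE n| ≤ ε * bE n) : Law S := by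
  intro ε hε
  obtain ⟨δ, hδ⟩ : ∃ δ : ℝ, δ = min ε 1 / 16 := ⟨_, rfl⟩
  have hδ0 : 0 < δ := by rw [hδ]; exact div_pos (lt_min hε one_pos) (by norm_num)
  have hδ1 : 16 * δ ≤ ε := by rw [hδ]; have := min_le_left ε 1; linarith
  have hδ2 : 16 * δ ≤ 1 := by rw [hδ]; have := min_le_right ε 1; linarith
  obtain ⟨K, hK⟩ := eventually_atTop.1 hodd
  obtain ⟨N, hN⟩ := eventually_atTop.1 (h δ hδ0)
  have hlog : Tendsto (fun a : ℕ => Real.log a) atTop atTop := Real.tendsto_log_atTop.comp tendsto_natCast_atTop_atTop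
  have hlo := (Real.isLittleO_log_id_atTop.bound hδ0)
  have hlo2 := tendsto_natCast_atTop_atTop.eventually hlo
  filter_upwards [eventually_ge_atTop K, eventually_ge_atTop (2 * N + 8), eventually_ge_atTop ((2 * N + 16) ^ 2),
    hlog.eventually_ge_atTop ((1 + δ) * Real.log 4 / δ), hlog.eventually_ge_atTop 1, hlo2,
    tendsto_natCast_atTop_atTop.eventually_ge_atTop (4 / δ)]
    with a hKa ha1 ha2 ha3 ha4 ha5 ha6 haS b hbS hab hbet
  have hl4 : 0 < Real.log 4 := Real.log_pos (by norm_num)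
  have ha0 : (0 : ℝ) < a := by
    have : 0 < a := by omega
    exact_mod_cast this
  have hL0 : 0 < Real.log a := by linarith
  obtain ⟨i, hi⟩ := hK a hKa haS
  obtain ⟨l, hl⟩ := hK b (by omega) hbS
  -- b is at most 2 a
  have hb2 : b ≤ 2 * a := by
    obtain ⟨t, ht⟩ : ∃ t, t = Nat.sqrt a := ⟨_, rfl⟩
    have h5 : t * t ≤ a := by rw [ht]; exact Nat.sqrt_le a
    have h6 : a < (t + 1) * (t + 1) := by rw [ht]; exact Nat.lt_succ_sqrt a
    have h7 : 2 * N + 15 ≤ t := by
      by_contra hcon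
      have e1 : (t + 1) * (t + 1) ≤ (2 * N + 15) * (2 * N + 15) := Nat.mul_self_le_mul_self (by omega)
      have e2 : (2 * N + 15) * (2 * N + 15) ≤ (2 * N + 16) ^ 2 := by
        rw [pow_two]
        exact Nat.mul_self_le_mul_self (by omega)
      omega
    obtain ⟨m, hm⟩ : ∃ m, m = (t - 1) / 2 := ⟨_, rfl⟩
    have hmN : N ≤ m + 1 ∧ 7 ≤ m := by omega
    have h8 := hN (m + 1) hmN.1
    have hE : 0 < bE (m + 1) := by
      unfold bE
      have h9 : (1 : ℝ) < ((m + 1 : ℕ) : ℝ) := by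
        have : 1 < m + 1 := by omega
        exact_mod_cast this
      have h10 := Real.log_pos h9
      positivity
    have h9 : 0 < els (bW (m + 1)) S := by
      rcases Nat.eq_zero_or_pos (els (bW (m + 1)) S) with h0 | h0
      · exfalso
        rw [h0, Nat.cast_zero, zero_sub, abs_neg, abs_of_pos hE] at h8
        have := mul_pos hE (show 0 < 1 - δ by linarith)
        linarith
      · exact h0
    classical
    unfold els at h9
    obtain ⟨x, hx⟩ := card_pos.1 h9
    rw [mem_filter] at hx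
    obtain ⟨hx1, hxS⟩ := hx
    unfold bW bu bv at hx1
    rw [mem_Ico] at hx1
    have h10 : (t + 1) * (t + 1) ≤ (2 * (m + 1) + 1) ^ 2 := by
      rw [pow_two]
      exact Nat.mul_self_le_mul_self (by omega)
    have h11 : ¬ x < b := fun hxb => hbet x (by omega) hxb hxS
    have h12 : (2 * m + 1) * (2 * m + 1) ≤ t * t := Nat.mul_self_le_mul_self (by omega)
    have h13 : (2 * (m + 1) + 3) ^ 2 ≤ 2 * ((2 * m + 1) * (2 * m + 1)) := by
      obtain ⟨w, hw⟩ : ∃ w, m = w + 7 := ⟨m - 7, by omega⟩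
      have e : 2 * ((2 * m + 1) * (2 * m + 1)) = (2 * (m + 1) + 3) ^ 2 + (4 * w * w + 44 * w + 89) := by
        rw [hw]
        ring
      rw [e]
      exact Nat.le_add_right _ _
    omega
  -- the expected numbers
  obtain ⟨P, hP⟩ : ∃ P : ℕ → ℝ, P = fun n : ℕ => (8 * (n : ℝ) + 8) / (2 * Real.log a) := ⟨_, rfl⟩
  have hT : ∑ n ∈ Ico i l, P n = ((b : ℝ) ^ 2 - (a : ℝ) ^ 2) / (2 * Real.log a) := by
    have h5 : ∀ t, i ≤ t → ∑ n ∈ Ico i t, P n = ((2 * (t : ℝ) + 1) ^ 2 - (2 * (i : ℝ) + 1) ^ 2) / (2 * Real.log a) := by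
      intro t ht
      induction t, ht using Nat.le_induction with
      | base => simp
      | succ t ht ih =>
        rw [sum_Ico_succ_top ht, ih, hP]
        push_cast
        ring
    rw [h5 l (by omega), hi, hl]
    push_cast
    ring
  have hPn : ∀ n ∈ Ico i l, 0 < P n ∧ 1 ≤ δ * P n ∧ (1 - δ) * P n ≤ bE n ∧ bE n ≤ (1 + δ) * P n := by
    intro n hn
    rw [mem_Ico] at hn
    have hn0 : (0 : ℝ) < n := by
      have : 0 < n := by omega
      exact_mod_cast this
    have hna : (n : ℝ) ≤ a := by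
      have : n ≤ a := by omega
      exact_mod_cast this
    have hna2 : (a : ℝ) ≤ 2 * n + 1 := by
      have : a ≤ 2 * n + 1 := by omega
      exact_mod_cast this
    have hn1 : (1 : ℝ) ≤ n := by
      have : 1 ≤ n := by omega
      exact_mod_cast this
    have hup : Real.log n ≤ Real.log a := Real.log_le_log hn0 hna
    have hlw : Real.log a - Real.log 4 ≤ Real.log n := by
      rw [← Real.log_div ha0.ne' (by norm_num)]
      apply Real.log_le_log (by positivity)
      linarith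
    rw [div_le_iff₀ hδ0] at ha3
    have hln : 0 < Real.log n := by
      have : δ * Real.log 4 < Real.log a * δ := by
        have := mul_pos hδ0 hl4
        linarith
      have h5 : Real.log 4 < Real.log a := by
        have h6 : Real.log 4 * δ < Real.log a * δ := by linarith
        exact lt_of_mul_lt_mul_right h6 hδ0.le
      linarith
    have hPp : 0 < P n := by rw [hP]; positivity
    refine ⟨hPp, ?_, ?_, ?_⟩
    · rw [Real.norm_eq_abs, Real.norm_eq_abs, abs_of_pos hL0] at ha5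
      have h5 : |id (a : ℝ)| = a := abs_of_pos ha0
      rw [h5] at ha5
      rw [hP]
      show 1 ≤ δ * ((8 * (n : ℝ) + 8) / (2 * Real.log a))
      rw [← mul_div_assoc, le_div_iff₀ (by positivity)]
      have h6 : δ * (a : ℝ) ≤ δ * (2 * n + 1) := mul_le_mul_of_nonneg_left hna2 hδ0.le
      linarith
    · rw [hP]
      unfold bE
      show (1 - δ) * ((8 * (n : ℝ) + 8) / (2 * Real.log a)) ≤ 8 * n / (2 * Real.log n)
      have h5 : (1 - δ) * ((8 * (n : ℝ) + 8) / (2 * Real.log a)) ≤ 8 * n / (2 * Real.log a) := by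
        rw [← mul_div_assoc]
        apply div_le_div_of_nonneg_right _ (by positivity)
        rw [div_le_iff₀ hδ0] at ha6
        have h6 : (a : ℝ) * δ ≤ (2 * n + 1) * δ := mul_le_mul_of_nonneg_right hna2 hδ0.le
        linarith
      refine h5.trans ?_
      apply div_le_div_of_nonneg_left (by positivity) (by positivity)
      linarith
    · rw [hP]
      unfold bE
      show 8 * (n : ℝ) / (2 * Real.log n) ≤ (1 + δ) * ((8 * (n : ℝ) + 8) / (2 * Real.log a))
      rw [← mul_div_assoc, div_le_div_iff₀ (by positivity) (by positivity)]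
      have h5 : Real.log a ≤ (1 + δ) * Real.log n := by
        have h6 : (1 + δ) * (Real.log a - Real.log 4) ≤ (1 + δ) * Real.log n := mul_le_mul_of_nonneg_left hlw (by linarith)
        linarith
      have h6 : 8 * (n : ℝ) * (2 * Real.log a) ≤ 8 * n * (2 * ((1 + δ) * Real.log n)) :=
        mul_le_mul_of_nonneg_left (by linarith) (by positivity)
      have h7 : 0 ≤ (1 + δ) * Real.log n := by positivity
      linarith
  have hels : ∀ n ∈ Ico i l, (1 - 2 * δ) * P n ≤ els (bW n) S ∧ (els (bW n) S : ℝ) + 1 ≤ (1 + 4 * δ) * P n := by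
    intro n hn
    obtain ⟨p1, p2, p3, p4⟩ := hPn n hn
    rw [mem_Ico] at hn
    have h5 := abs_le.1 (hN n (by omega))
    obtain ⟨h6, h7⟩ := h5
    have h8 : (1 - δ) * ((1 - δ) * P n) ≤ (1 - δ) * bE n := mul_le_mul_of_nonneg_left p3 (by linarith)
    have h9 : (1 + δ) * bE n ≤ (1 + δ) * ((1 + δ) * P n) := mul_le_mul_of_nonneg_left p4 (by linarith)
    have h10 : 0 ≤ δ * δ * P n := by positivity
    have h11 : δ * δ * P n ≤ δ * P n := by
      have : δ * P n * δ ≤ δ * P n * 1 := mul_le_mul_of_nonneg_left (by linarith) (by positivity)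
      linarith
    constructor
    · linarith
    · linarith
  have hTp : 0 ≤ ∑ n ∈ Ico i l, P n := sum_nonneg (fun n hn => (hPn n hn).1.le)
  have e1 : (∑ n ∈ Ico i l, (els (bW n) S : ℝ)) ≤ btw a b S := by
    have h5 := btw_ge (i := i) (l := l) S
    rw [← hi, ← hl] at h5
    exact_mod_cast h5
  have e2 : (btw a b S : ℝ) ≤ ∑ n ∈ Ico i l, ((els (bW n) S : ℝ) + 1) := by
    have h5 := btw_le (i := i) (l := l) S
    rw [← hi, ← hl] at h5
    exact_mod_cast h5
  have e3 : (1 - 2 * δ) * ∑ n ∈ Ico i l, P n ≤ ∑ n ∈ Ico i l, (els (bW n) S : ℝ) := by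
    rw [mul_sum]
    exact sum_le_sum (fun n hn => (hels n hn).1)
  have e4 : ∑ n ∈ Ico i l, ((els (bW n) S : ℝ) + 1) ≤ (1 + 4 * δ) * ∑ n ∈ Ico i l, P n := by
    rw [mul_sum]
    exact sum_le_sum (fun n hn => (hels n hn).2)
  have h12 : 4 * δ * ∑ n ∈ Ico i l, P n ≤ ε * ∑ n ∈ Ico i l, P n := mul_le_mul_of_nonneg_right (by linarith) hTp
  have h13 : 0 ≤ δ * ∑ n ∈ Ico i l, P n := mul_nonneg hδ0.le hTp
  rw [← hT, abs_le]
  constructor
  · linarith
  · linarith

end Pool.Agent.Q197.WN
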