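import Pool.Agent.Q197.WN.BroG

/-!
# The squares of consecutive elements: the budget for the asymptotic law
-/

set_option autoImplicit false

namespace Pool.Agent.Q197.WN

open Finset MeasureTheory Filter Pool.Agent.Q120.TT Pool.Agent.Q120.ET Pool.Agent.Q120.GM
  Pool.Agent.Q120.CL Pool.Agent.Q120.MG Pool.Agent.Q120.HL Pool.Agent.Q150.TT
open scoped Topology

theorem one_small : Tendsto (fun k : ℕ => (((fun _ => 1 : ℕ → ℕ) k : ℕ) : ℝ) * (k : ℝ) ^ 2 / 2 ^ k) atTop (𝓝 0) := by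
  have h1 := tendsto_pow_const_div_const_pow_of_one_lt 2 (show (1 : ℝ) < 2 by norm_num)
  refine h1.congr (fun k => ?_)
  simp

theorem not_law {S : Set ℕ} (h : ∃ᶠ k : ℕ in atTop, 1 ≤ fails 0 k S) : ¬ Law S := by
  classical
  intro hl
  obtain ⟨N, hN⟩ := eventually_atTop.1 (hl (1 / 2) (by norm_num))
  obtain ⟨k, hk, hkN⟩ := (h.and_eventually (eventually_ge_atTop (N + 1))).exists
  unfold fails at hk
  obtain ⟨a, ha⟩ := card_pos.1 hk
  rw [mem_filter, mem_Ico] at ha
  obtain ⟨⟨h1, h2⟩, h3, b, h4, h5, h6, h7⟩ := ha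
  have h8 : k < 2 ^ (k + 1) := lt_of_lt_of_le Nat.lt_two_pow_self (Nat.pow_le_pow_right (by norm_num) (by omega))
  have h9 := hN a (by omega) h3 b h4 h5 h6
  have h10 : btw a b S = 0 := by
    unfold btw
    exact Nat.le_zero.1 h7
  rw [h10, Nat.cast_zero, zero_sub, abs_neg] at h9
  have ha1 : (1 : ℝ) < a := by
    have : 1 < a := by omega
    exact_mod_cast this
  have hab : (a : ℝ) < b := by exact_mod_cast h5
  have hlog := Real.log_pos ha1
  have hpos : 0 < ((b : ℝ) ^ 2 - (a : ℝ) ^ 2) / (2 * Real.log a) := by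
    apply div_pos _ (by positivity)
    have : (a : ℝ) ^ 2 < (b : ℝ) ^ 2 := pow_lt_pow_left₀ hab (by linarith) (by norm_num)
    linarith
  rw [abs_of_pos hpos] at h9
  linarith

/-- **The budget for the asymptotic law.** -/
theorem bro_law {z : ℕ → ℕ} (hz : Tendsto z atTop atTop) (hs : Small z) {d : ℕ → ℝ} (hd : ∀ k, 0 ≤ d k) :
    Summable (fun k : ℕ => d k * k / 2 ^ k) ↔
      ∀ (Ω : Type) [MeasurableSpace Ω] (μ : Measure Ω) [IsProbabilityMeasure μ] (A : Ω → Set ℕ), Near (pr z) (un bW) d μ A →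
        ∀ᵐ ω ∂μ, Law (A ω) := by
  have e1 : (fun k : ℕ => d k * k / 2 ^ k) = (fun k : ℕ => d k * k / (2 ^ k * (((fun _ => 1 : ℕ → ℕ) k : ℕ) : ℝ))) := by
    funext k
    simp
  constructor
  · intro hsum Ω _ μ _ A hA
    have h1 : Summable (fun k => d k / ((((fun _ => 1 : ℕ → ℕ) k : ℕ) : ℝ) * (2 ^ k / k))) := by
      rw [e1] at hsum
      exact hsum.congr (fun k => (summand_eq _ _ _).symm)
    have h2 := ((bro_phase hs) d (fun _ => 1) hd (fun k => ⟨le_rfl, Nat.one_le_two_pow⟩)).1.1 h1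
    have h3 : ∀ᵐ ω ∂μ, ∀ m : ℕ, ∀ᶠ k : ℕ in atTop,
        exc (fun n S => (1 / ((m : ℝ) + 1)) * bE n ≤ |(els (bW n) S : ℝ) - bE n|) k (A ω) < 1 := by
      rw [ae_all_iff]
      intro m
      exact h2 (1 / ((m : ℝ) + 1)) (by positivity) Ω μ A hA
    have h5 : ∀ᵐ ω ∂μ, ∀ᶠ x : ℕ in atTop, x ∈ A ω → Odd x := by
      filter_upwards [hA.supp] with ω hω
      filter_upwards [even_zero hz] with x hx hxA
      by_contra hcon
      have h6 := hx hcon
      have h7 := hω x hxA
      linarith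
    filter_upwards [h3, h5] with ω hω hω2
    refine law_of hω2 (fun ε hε => ?_)
    obtain ⟨m, hm⟩ := exists_nat_one_div_lt hε
    obtain ⟨K, hK⟩ := eventually_atTop.1 (hω m)
    filter_upwards [eventually_ge_atTop (2 ^ K), eventually_ge_atTop 2] with n hn hn2
    have h6 := hK (Nat.log 2 n) ((Nat.le_log_iff_pow_le (by norm_num) (by omega)).2 hn)
    have h7 : n ∈ block (Nat.log 2 n) := by
      unfold block
      rw [mem_Ico]
      exact ⟨Nat.pow_log_le_self 2 (by omega), Nat.lt_pow_succ_log_self (by norm_num) n⟩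
    by_contra hcon
    rw [not_le] at hcon
    have hE : 0 ≤ bE n := by
      unfold bE
      have h9 : (1 : ℝ) < n := by exact_mod_cast hn2
      have h10 := Real.log_pos h9
      positivity
    have h8 : (1 / ((m : ℝ) + 1)) * bE n ≤ |(els (bW n) (A ω) : ℝ) - bE n| :=
      (mul_le_mul_of_nonneg_right hm.le hE).trans hcon.le
    classical
    have h9 : 1 ≤ exc (fun n S => (1 / ((m : ℝ) + 1)) * bE n ≤ |(els (bW n) S : ℝ) - bE n|) (Nat.log 2 n) (A ω) := by
      have h10 := le_exc (Q := fun n S => (1 / ((m : ℝ) + 1)) * bE n ≤ |(els (bW n) S : ℝ) - bE n|) (k := Nat.log 2 n) (S := A ω)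
        (F := {n}) (f := id) (fun a ha => by
          rw [mem_singleton] at ha
          subst ha
          exact ⟨h7, h8⟩) (fun a _ b _ h => h)
      rwa [card_singleton] at h10
    omega
  · intro hf
    by_contra hns
    rw [e1] at hns
    obtain ⟨Ω, mΩ, μ, hμ, A, hA, hA2⟩ := bro_often hz hs (fun _ => le_rfl) one_small hd hns
    have h1 := hf Ω μ A hA
    have h2 : ∀ᵐ ω ∂μ, False := by
      filter_upwards [h1, hA2] with ω hω hω2
      exact not_law hω2 hω
    rw [ae_iff] at h2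
    simp at h2

end Pool.Agent.Q197.WN
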