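import Pool.Agent.Q197.WN.Lap
import Pool.Agent.Q197.WN.Pow

/-!
# The number of elements in a window
-/

set_option autoImplicit false

namespace Pool.Agent.Q197.WN

open Finset MeasureTheory Filter Pool.Agent.Q120.TT Pool.Agent.Q120.ET Pool.Agent.Q120.GM
  Pool.Agent.Q120.CL Pool.Agent.Q120.MG Pool.Agent.Q120.HL Pool.Agent.Q150.TT
open scoped Topology

open Classical in
/-- The number of the elements of `S` in the finite set `W`. -/
noncomputable def els (W : Finset ℕ) (S : Set ℕ) : ℕ := (W.filter (fun x => x ∈ S)).card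

theorem sh_zero (x : ℕ) : sh {0} x = {x} := by
  unfold sh
  rw [image_singleton, add_zero]

theorem pat_els (a b : ℕ) (S : Set ℕ) : pat {0} {0} 0 a b S = els (Ico a b) S := by
  classical
  unfold pat Pool.Agent.Q197.WN.cnt els
  refine congrArg card ?_
  ext x
  simp only [mem_filter, sh_zero, Finset.mem_singleton, forall_eq, iff_true, Nat.sub_zero]

theorem inn_one {a b : ℕ} {T : Finset ℕ} (hT : T ⊆ Ico a b) : inn (Ico a b) {0} T = T.card := by
  unfold inn
  congr 1
  ext x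
  rw [mem_filter, sh_zero, singleton_subset_iff]
  exact ⟨fun h => h.2, fun h => ⟨hT h, h⟩⟩

theorem lam_prod (p : ℕ → ℝ) (a b : ℕ) (t : ℝ) : Lam p (Ico a b) (inn (Ico a b) {0}) t = ∏ x ∈ Ico a b, (t * p x + (1 - p x)) := by
  rw [Finset.prod_add]
  unfold Lam
  refine sum_congr rfl (fun T hT => ?_)
  rw [inn_one (mem_powerset.1 hT), prod_mul_distrib, prod_const]
  unfold prodOn
  ring

section

variable {z : ℕ → ℕ} {u v : ℕ → ℕ} {θ : ℝ}

theorem tend_one (z : ℕ → ℕ) : Tendsto (fun k => Sz {0} (z k)) atTop (𝓝 1) := by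
  simp only [Sz_one]
  exact tendsto_const_nhds

theorem Wins.lap_elem (hw : Wins u v θ) (hz : Small z) {Ex : ℕ → ℝ} (hEx : Asy Ex (wt u v 1) 1) :
    WLap (pr z) (fun n => Ico (u n) (v n)) (fun n => pat {0} {0} 0 (u n) (v n)) Ex (Set.Ioi 0) := by
  have hp : ∀ n, 0 ≤ pr z n ∧ pr z n ≤ 1 := fun n => ⟨pr_nonneg z n, pr_le_one z n⟩
  intro t ht γ hγ
  have ht0 : 0 < t := ht
  rcases le_or_gt t 1 with ht1 | ht1
  · exact hw.lap (D := {0}) (H := 0) (tend_one z) hz (by simp) (singleton_nonempty 0) one_pos hEx t ⟨ht0, ht1⟩ γ hγ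
  · obtain ⟨δ, hδ⟩ : ∃ δ : ℝ, δ = min (1 / (2 * t)) (γ / (8 * (t ^ 2 + t + γ))) := ⟨_, rfl⟩
    have hδ0 : 0 < δ := by rw [hδ]; exact lt_min (by positivity) (by positivity)
    have hδ1 : δ * (2 * t) ≤ 1 := by
      have h1 : δ ≤ 1 / (2 * t) := by rw [hδ]; exact min_le_left _ _
      rwa [le_div_iff₀ (by positivity)] at h1
    have hδ2 : δ * (8 * (t ^ 2 + t + γ)) ≤ γ := by
      have h1 : δ ≤ γ / (8 * (t ^ 2 + t + γ)) := by rw [hδ]; exact min_le_right _ _
      rwa [le_div_iff₀ (by positivity)] at h1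
    filter_upwards [hw.EI_near (D := {0}) (H := 0) (tend_one z) hz (by simp) hδ0, hw.small hz hδ0, hEx δ hδ0, hw.wt_ge 1]
      with n hEI hsm hEn hwt
    have hw0 : 0 ≤ wt u v 1 n := le_trans (by positivity) hwt.2
    have hN : (fun T => pat {0} {0} 0 (u n) (v n) ((T : Finset ℕ) : Set ℕ)) = inn (Ico (u n) (v n)) {0} := by
      funext T
      rw [pat_inn, Nat.sub_zero]
    rw [hN, lam_prod]
    obtain ⟨S, hS⟩ : ∃ S, S = ∑ x ∈ Ico (u n) (v n), pr z x := ⟨_, rfl⟩
    have hES : EI (pr z) {0} (u n) (v n - 0) = S := by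
      unfold EI
      rw [hS, Nat.sub_zero]
      exact sum_congr rfl (fun x _ => by rw [prod_singleton, add_zero])
    have hc : ({0} : Finset ℕ).card = 1 := card_singleton 0
    rw [hES, hc, one_mul] at hEI
    rw [one_mul] at hEn
    obtain ⟨w, hwd⟩ : ∃ w, w = wt u v 1 n := ⟨_, rfl⟩
    rw [← hwd] at hEI hEn hw0
    have a1 := abs_le.1 hEI
    have a2 := abs_le.1 hEn
    have b1 : S ≤ Ex n + 2 * δ * w := by linarith
    have b2 : Ex n - 2 * δ * w ≤ S := by linarith
    have b3 : (1 - δ) * w ≤ Ex n := by linarith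
    have b4 : S ≤ (1 + δ) * w := by linarith
    have hδt : δ ≤ 1 / 2 := by nlinarith
    constructor
    · have h1 : Real.exp ((t - 1) * S - (t - 1) ^ 2 * δ * S) ≤ ∏ x ∈ Ico (u n) (v n), (t * pr z x + (1 - pr z x)) := by
        have h2 : (t - 1) * S - (t - 1) ^ 2 * δ * S = ∑ x ∈ Ico (u n) (v n), ((t - 1) * pr z x - (t - 1) ^ 2 * δ * pr z x) := by
          rw [sum_sub_distrib, ← mul_sum, ← mul_sum, hS]
        rw [h2, Real.exp_sum]
        refine prod_le_prod (fun x _ => (Real.exp_pos _).le) (fun x hx => ?_)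
        have h3 := (hp x).1
        have h4 := hsm x (mem_Ico.1 hx).1
        obtain ⟨y, hy⟩ : ∃ y, y = (t - 1) * pr z x := ⟨_, rfl⟩
        have hy0 : 0 ≤ y := by rw [hy]; exact mul_nonneg (by linarith) h3
        have h5 : t * pr z x + (1 - pr z x) = 1 + y := by rw [hy]; ring
        rw [h5, ← Real.le_log_iff_exp_le (by linarith)]
        have h6 := Real.one_sub_inv_le_log_of_pos (show 0 < 1 + y by linarith)
        refine le_trans ?_ h6
        have h7 : (1 + y)⁻¹ ≤ 1 - y + y ^ 2 := by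
          rw [inv_le_iff_one_le_mul₀ (by linarith)]
          nlinarith [mul_nonneg (mul_nonneg hy0 hy0) hy0]
        have h8 : y ^ 2 ≤ (t - 1) ^ 2 * δ * pr z x := by
          rw [hy, mul_pow]
          have h9 : pr z x ^ 2 ≤ δ * pr z x := by nlinarith
          nlinarith [mul_le_mul_of_nonneg_left h9 (sq_nonneg (t - 1))]
        rw [← hy]
        linarith
      refine le_trans (Real.exp_le_exp.2 ?_) h1
      have hS0 : 0 ≤ S := by rw [hS]; exact sum_nonneg (fun x _ => (hp x).1)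
      have c1 : (t - 1) ^ 2 * δ * S ≤ (t - 1) ^ 2 * δ * ((1 + δ) * w) := mul_le_mul_of_nonneg_left b4 (by positivity)
      have c2 : (t - 1) * (Ex n - 2 * δ * w) ≤ (t - 1) * S := mul_le_mul_of_nonneg_left b2 (by linarith)
      have c3 : (t - 1) * (2 * δ * w) + (t - 1) ^ 2 * δ * ((1 + δ) * w) ≤ γ * ((1 - δ) * w) := by
        have c4 : (t - 1) * (2 * δ) + (t - 1) ^ 2 * δ * (1 + δ) ≤ γ * (1 - δ) := by
          have c5 : (t - 1) ^ 2 ≤ t ^ 2 := by nlinarith
          have c6 : (t - 1) ^ 2 * δ * (1 + δ) ≤ t ^ 2 * δ * 2 := by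
            have : (t - 1) ^ 2 * δ ≤ t ^ 2 * δ := mul_le_mul_of_nonneg_right c5 hδ0.le
            have h9 : 0 ≤ t ^ 2 * δ := by positivity
            nlinarith
          nlinarith [mul_pos hδ0 hγ, mul_pos hδ0 ht0]
        nlinarith [mul_le_mul_of_nonneg_right c4 hw0]
      have c4 : γ * ((1 - δ) * w) ≤ γ * Ex n := mul_le_mul_of_nonneg_left b3 hγ.le
      nlinarith
    · have h1 : ∏ x ∈ Ico (u n) (v n), (t * pr z x + (1 - pr z x)) ≤ Real.exp ((t - 1) * S) := by
        rw [hS, mul_sum, Real.exp_sum]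
        refine prod_le_prod (fun x _ => ?_) (fun x _ => ?_)
        · have h3 := (hp x).1
          have h4 := (hp x).2
          nlinarith [mul_nonneg ht0.le h3]
        · have := Real.add_one_le_exp ((t - 1) * pr z x)
          linarith
      refine h1.trans (Real.exp_le_exp.2 ?_)
      have c2 : (t - 1) * S ≤ (t - 1) * (Ex n + 2 * δ * w) := mul_le_mul_of_nonneg_left b1 (by linarith)
      have c3 : (t - 1) * (2 * δ * w) ≤ γ * ((1 - δ) * w) := by
        have c4 : (t - 1) * (2 * δ) ≤ γ * (1 - δ) := by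
          nlinarith [mul_pos hδ0 hγ, mul_pos hδ0 ht0, mul_pos hδ0 (show 0 < t ^ 2 by positivity)]
        nlinarith [mul_le_mul_of_nonneg_right c4 hw0]
      have c4 : γ * ((1 - δ) * w) ≤ γ * Ex n := mul_le_mul_of_nonneg_left b3 hγ.le
      nlinarith

/-- All statements for the elements in windows. -/
theorem Wins.elem (hw : Wins u v θ) (hz : Small z) {Ex : ℕ → ℝ} (hEx : Asy Ex (wt u v 1) 1) :
    Phase (pr z) (fun n => Ico (u n) (v n)) (fun n => els (Ico (u n) (v n))) Ex (fun k M => cost Ex (block k) M) ∧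
      Low (pr z) (fun n => Ico (u n) (v n)) (fun n => els (Ico (u n) (v n))) Ex ∧
      High (pr z) (fun n => Ico (u n) (v n)) (fun n => els (Ico (u n) (v n))) Ex := by
  have hN : (fun n => els (Ico (u n) (v n))) = (fun n => pat {0} {0} 0 (u n) (v n)) := by
    funext n S
    rw [pat_els]
  rw [hN]
  have h1 := hw.sharp (D := {0}) (H := 0) (tend_one z) hz (by simp) (singleton_nonempty 0) one_pos hEx
  have h2 := hw.lap_elem hz hEx
  exact ⟨phase h1.toWModel, Pool.Agent.Q197.WN.low h1 h2 (fun t h _ => h),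
    Pool.Agent.Q197.WN.high h1.toWModel h2 (fun t h => h)⟩

/-- Patterns between consecutive powers: the exact price. -/
theorem pow_low {D : Finset ℕ} {H : ℕ} {σ : ℝ} {m : ℕ} (hm : 1 ≤ m) (hS : Tendsto (fun k => Sz D (z k)) atTop (𝓝 σ))
    (hz : Small z) (hD : ∀ h ∈ D, h ≤ H) (hne : D.Nonempty) (hσ : 0 < σ) :
    Low (pr z) (fun n => Ico (n ^ (m + 1) + 1) ((n + 1) ^ (m + 1)))
      (fun n => pat D D H (n ^ (m + 1) + 1) ((n + 1) ^ (m + 1)))
      (fun n => σ * ((((m + 1 : ℕ) : ℝ) * (n : ℝ) ^ m) / (((m + 1 : ℕ) : ℝ) * Real.log n) ^ D.card)) :=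
  (pow_wins hm).low hS hz hD hne hσ (pow_asy hm D.card σ)

end

end Pool.Agent.Q197.WN
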