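import Pool.Agent.Q197.WN.Wt
import Pool.Agent.Q197.WN.Elem

/-!
# Cells: the integers whose square root lies in `[j / 2 ^ s, (j + 1) / 2 ^ s)`
-/

set_option autoImplicit false

namespace Pool.Agent.Q197.WN

open Finset MeasureTheory Filter Pool.Agent.Q120.TT Pool.Agent.Q120.ET Pool.Agent.Q120.GM
  Pool.Agent.Q120.CL
open scoped Topology

/-- The least integer whose square root is at least `j / 2 ^ s`. -/
def cl (s j : ℕ) : ℕ := (j ^ 2) ⌈/⌉ (4 ^ s)

theorem cl_le {s j x : ℕ} : cl s j ≤ x ↔ j ^ 2 ≤ 4 ^ s * x := ceilDiv_le_iff_le_mul (by positivity)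

theorem lt_cl {s j x : ℕ} : x < cl s j ↔ 4 ^ s * x < j ^ 2 := by
  rw [← not_le, cl_le, not_le]

theorem cl_mono {s i j : ℕ} (h : i ≤ j) : cl s i ≤ cl s j := by
  rw [cl_le]
  exact (Nat.pow_le_pow_left h 2).trans (cl_le.1 le_rfl)

theorem cl_ge (s j : ℕ) : (j : ℝ) ^ 2 / 4 ^ s ≤ cl s j := by
  rw [div_le_iff₀ (by positivity)]
  have h := cl_le (s := s) (j := j) (x := cl s j)
  have h1 := h.1 le_rfl
  have h2 : ((j ^ 2 : ℕ) : ℝ) ≤ ((4 ^ s * cl s j : ℕ) : ℝ) := by exact_mod_cast h1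
  push_cast at h2
  linarith

theorem cl_lt (s j : ℕ) : (cl s j : ℝ) < (j : ℝ) ^ 2 / 4 ^ s + 1 := by
  rcases Nat.eq_zero_or_pos (cl s j) with h | h
  · rw [h]
    push_cast
    positivity
  · have h1 : cl s j - 1 < cl s j := by omega
    rw [lt_cl] at h1
    have h2 : ((4 ^ s * (cl s j - 1) : ℕ) : ℝ) < ((j ^ 2 : ℕ) : ℝ) := by exact_mod_cast h1
    rw [Nat.cast_mul, Nat.cast_sub h] at h2
    push_cast at h2
    have h3 : (cl s j : ℝ) - 1 < (j : ℝ) ^ 2 / 4 ^ s := by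
      rw [lt_div_iff₀ (by positivity)]
      linarith
    linarith

/-- The cells. -/
def cell (s j : ℕ) : Finset ℕ := Ico (cl s j) (cl s (j + 1))

theorem mem_cell {s j x : ℕ} : x ∈ cell s j ↔ j ^ 2 ≤ 4 ^ s * x ∧ 4 ^ s * x < (j + 1) ^ 2 := by
  unfold cell
  rw [mem_Ico, cl_le, lt_cl]

theorem cell_disj {s i j : ℕ} (h : i ≠ j) : Disjoint (cell s i) (cell s j) := by
  rw [disjoint_left]
  intro x hx hx'
  rw [mem_cell] at hx hx'
  rcases lt_or_gt_of_ne h with h1 | h1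
  · have := Nat.pow_le_pow_left (show i + 1 ≤ j by omega) 2
    omega
  · have := Nat.pow_le_pow_left (show j + 1 ≤ i by omega) 2
    omega

theorem cl_pow (s k : ℕ) : cl s (2 ^ (k + s)) = 4 ^ k := by
  have e : (2 ^ (k + s)) ^ 2 = 4 ^ s * 4 ^ k := by
    rw [← pow_mul, show (4 : ℕ) = 2 ^ 2 by norm_num, ← pow_mul, ← pow_mul, ← pow_add]
    congr 1
    ring
  apply le_antisymm
  · rw [cl_le, e]
  · have h := cl_le (s := s) (j := 2 ^ (k + s)) (x := cl s (2 ^ (k + s)))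
    have h1 := h.1 le_rfl
    rw [e] at h1
    exact Nat.le_of_mul_le_mul_left h1 (by positivity)

/-- The blocks: the integers from `4 ^ k` to `4 ^ (k + 1)`. -/
def Bk (k : ℕ) : Finset ℕ := Ico (4 ^ k) (4 ^ (k + 1))

theorem Bk_disj (i j : ℕ) (h : i ≠ j) : Disjoint (Bk i) (Bk j) := by
  unfold Bk
  rw [disjoint_left]
  intro x hx hx'
  rw [mem_Ico] at hx hx'
  rcases lt_or_gt_of_ne h with h1 | h1
  · have := Nat.pow_le_pow_right (show 0 < 4 by norm_num) (show i + 1 ≤ j by omega)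
    omega
  · have := Nat.pow_le_pow_right (show 0 < 4 by norm_num) (show j + 1 ≤ i by omega)
    omega

theorem cells_union (s k : ℕ) : (block (k + s)).biUnion (cell s) = Bk k := by
  ext x
  unfold Bk block
  rw [mem_biUnion, mem_Ico]
  constructor
  · rintro ⟨j, hj, hx⟩
    rw [mem_Ico] at hj
    unfold cell at hx
    rw [mem_Ico] at hx
    have h1 := cl_mono (s := s) hj.1
    have h2 := cl_mono (s := s) (show j + 1 ≤ 2 ^ (k + s + 1) by omega)
    rw [cl_pow] at h1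
    have h3 : cl s (2 ^ (k + s + 1)) = 4 ^ (k + 1) := by
      rw [← cl_pow s (k + 1)]
      congr 2
      omega
    rw [h3] at h2
    omega
  · rintro ⟨h1, h2⟩
    have e : (2 ^ (k + s)) ^ 2 = 4 ^ s * 4 ^ k := by
      rw [← pow_mul, show (4 : ℕ) = 2 ^ 2 by norm_num, ← pow_mul, ← pow_mul, ← pow_add]
      congr 1
      ring
    have e2 : (2 ^ (k + s + 1)) ^ 2 = 4 ^ s * 4 ^ (k + 1) := by
      rw [← pow_mul, show (4 : ℕ) = 2 ^ 2 by norm_num, ← pow_mul, ← pow_mul, ← pow_add]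
      congr 1
      ring
    refine ⟨Nat.sqrt (4 ^ s * x), ?_, ?_⟩
    · rw [mem_Ico]
      constructor
      · rw [Nat.le_sqrt']
        rw [e]
        exact Nat.mul_le_mul_left _ h1
      · rw [Nat.sqrt_lt']
        rw [e2]
        exact (Nat.mul_lt_mul_left (by positivity)).2 h2
    · rw [mem_cell]
      exact ⟨Nat.sqrt_le' _, Nat.lt_succ_sqrt' _⟩

/-- The length of a cell. -/
noncomputable def len (s j : ℕ) : ℝ := (cl s (j + 1) : ℝ) - cl s j

theorem len_nonneg (s j : ℕ) : 0 ≤ len s j := by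
  unfold len
  have : (cl s j : ℝ) ≤ cl s (j + 1) := by exact_mod_cast cl_mono (by omega)
  linarith

theorem len_bounds (s j : ℕ) : (2 * (j : ℝ) + 1) / 4 ^ s - 1 ≤ len s j ∧ len s j ≤ (2 * (j : ℝ) + 1) / 4 ^ s + 1 := by
  have h1 := cl_ge s j
  have h2 := cl_lt s j
  have h3 := cl_ge s (j + 1)
  have h4 := cl_lt s (j + 1)
  push_cast at h3 h4
  have e : ((j : ℝ) + 1) ^ 2 / 4 ^ s = (j : ℝ) ^ 2 / 4 ^ s + (2 * (j : ℝ) + 1) / 4 ^ s := by ring
  rw [e] at h3 h4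
  unfold len
  constructor <;> linarith

theorem sum_len (s : ℕ) {i j : ℕ} (h : i ≤ j) : ∑ l ∈ Ico i j, len s l = (cl s j : ℝ) - cl s i := by
  unfold len
  exact sum_Ico_sub (fun l => (cl s l : ℝ)) h

/-- The expected number of elements in a cell. -/
theorem cell_mass {z : ℕ → ℕ} (hz : Small z) (s : ℕ) {ε : ℝ} (hε : 0 < ε) : ∀ᶠ k : ℕ in atTop, ∀ j ∈ block (k + s),
    (1 - ε) * (len s j / (2 * k * Real.log 2)) ≤ ∑ x ∈ cell s j, pr z x ∧
      ∑ x ∈ cell s j, pr z x ≤ (1 + ε) * (len s j / (2 * k * Real.log 2)) := by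
  obtain ⟨δ, hδ⟩ : ∃ δ : ℝ, δ = min ε 1 / 8 := ⟨_, rfl⟩
  have hδ0 : 0 < δ := by rw [hδ]; exact div_pos (lt_min hε one_pos) (by norm_num)
  have hδ1 : 8 * δ ≤ ε := by rw [hδ]; have := min_le_left ε 1; linarith
  have hδ2 : 8 * δ ≤ 1 := by rw [hδ]; have := min_le_right ε 1; linarith
  obtain ⟨N, hN⟩ := eventually_atTop.1 (mean_win (z := z) (D := {0}) (H := 0) (tend_one z) hz (by simp) hδ0
    (show (0 : ℝ) < 1 / 4 by norm_num))
  filter_upwards [eventually_ge_atTop (N + 2 * s + 10), (tendsto_natCast_atTop_atTop (R := ℝ)).eventually_ge_atTop (1 / δ)]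
    with k hk hkδ j hj
  unfold block at hj
  rw [mem_Ico] at hj
  have hk0 : (0 : ℝ) < k := by
    have : 0 < k := by omega
    exact_mod_cast this
  have hl2 : 0 < Real.log 2 := Real.log_pos (by norm_num)
  obtain ⟨m, hm⟩ : ∃ m : ℝ, m = 2 ^ s := ⟨_, rfl⟩
  have hm1 : 1 ≤ m := by rw [hm]; exact one_le_pow₀ (by norm_num)
  have hm4 : (4 : ℝ) ^ s = m ^ 2 := by rw [hm, ← pow_mul, show (4 : ℝ) = 2 ^ 2 by norm_num, ← pow_mul]; ring_nf
  obtain ⟨X, hX⟩ : ∃ X : ℝ, X = 2 ^ k := ⟨_, rfl⟩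
  have hXm : 4 * m ^ 2 ≤ X := by
    rw [hX, hm, ← pow_mul, show (4 : ℝ) = 2 ^ 2 by norm_num, ← pow_add]
    exact pow_le_pow_right₀ (by norm_num) (by omega)
  have hX10 : 1024 ≤ X := by
    rw [hX, show (1024 : ℝ) = 2 ^ 10 by norm_num]
    exact pow_le_pow_right₀ (by norm_num) (by omega)
  have hj1 : X * m ≤ j := by
    rw [hX, hm, ← pow_add]
    exact_mod_cast hj.1
  have hlb := len_bounds s j
  rw [hm4] at hlb
  have ha1 : 4 ^ k ≤ cl s j := by rw [← cl_pow s k]; exact cl_mono hj.1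
  have ha2 : cl s (j + 1) ≤ 4 ^ (k + 1) := by
    rw [← cl_pow s (k + 1)]
    exact cl_mono (by rw [show k + 1 + s = k + s + 1 by omega]; omega)
  have hab : cl s j ≤ cl s (j + 1) := cl_mono (by omega)
  have hNa : N ≤ cl s j := by
    refine le_trans ?_ ha1
    have h1 : k < 4 ^ k := Nat.lt_pow_self (by norm_num)
    omega
  have hlen : √(2 * X) ≤ len s j := by
    refine le_trans ?_ hlb.1
    have h1 : 2 * X / m ≤ (2 * (j : ℝ) + 1) / m ^ 2 := by
      rw [div_le_div_iff₀ (by positivity) (by positivity)]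
      nlinarith
    obtain ⟨y, hy⟩ : ∃ y, y = √(2 * X) := ⟨_, rfl⟩
    have hy2 : y ^ 2 = 2 * X := by rw [hy, Real.sq_sqrt (by linarith)]
    have hy0 : 0 ≤ y := by rw [hy]; exact Real.sqrt_nonneg _
    have hym : 2 * m ≤ y := by
      apply le_of_sq_le_sq _ hy0
      nlinarith
    rw [← hy]
    have h2 : 2 * y ≤ 2 * X / m := by
      rw [le_div_iff₀ (by positivity), ← hy2]
      nlinarith
    nlinarith
  have hshort : 2 * cl s (j + 1) ≤ 3 * cl s j := by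
    have h1 := cl_lt s (j + 1)
    have h2 := cl_ge s j
    rw [hm4] at h1 h2
    push_cast at h1
    have h3 : ((j : ℝ) + 1) ^ 2 / m ^ 2 = (j : ℝ) ^ 2 / m ^ 2 + (2 * (j : ℝ) + 1) / m ^ 2 := by ring
    rw [h3] at h1
    have h4 : 2 * ((2 * (j : ℝ) + 1) / m ^ 2) + 2 ≤ (j : ℝ) ^ 2 / m ^ 2 := by
      rw [mul_div_assoc', div_add' _ _ _ (by positivity), div_le_div_iff_of_pos_right (by positivity)]
      have hj10 : 1024 ≤ (j : ℝ) := by nlinarith
      have hjm : 2 * m ≤ (j : ℝ) := by nlinarith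
      nlinarith
    have h5 : (2 : ℝ) * cl s (j + 1) ≤ 3 * cl s j := by linarith
    exact_mod_cast h5
  have h1 := hN (cl s j) hNa (cl s (j + 1)) hab hshort
  have hEI : EI (pr z) {0} (cl s j) (cl s (j + 1)) = ∑ x ∈ cell s j, pr z x := by
    unfold EI cell
    simp
  rw [hEI, card_singleton, pow_one, one_mul] at h1
  have hlena : (cl s (j + 1) : ℝ) - cl s j = len s j := rfl
  rw [hlena] at h1
  have hapos : (0 : ℝ) < cl s j := by
    have : 0 < cl s j := lt_of_lt_of_le (by positivity) ha1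
    exact_mod_cast this
  have hlog1 : 2 * k * Real.log 2 ≤ Real.log (cl s j) := by
    have h2 : Real.log ((4 : ℝ) ^ k) ≤ Real.log (cl s j) := Real.log_le_log (by positivity) (by exact_mod_cast ha1)
    rw [Real.log_pow, show (4 : ℝ) = 2 ^ 2 by norm_num, Real.log_pow] at h2
    push_cast at h2
    linarith
  have hlog2 : Real.log (cl s j) ≤ 2 * (k + 1) * Real.log 2 := by
    have h2 : Real.log (cl s j) ≤ Real.log ((4 : ℝ) ^ (k + 1)) :=
      Real.log_le_log hapos (by exact_mod_cast hab.trans ha2)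
    rw [Real.log_pow, show (4 : ℝ) = 2 ^ 2 by norm_num, Real.log_pow] at h2
    push_cast at h2
    linarith
  have hlogpos : 0 < Real.log (cl s j) := lt_of_lt_of_le (by positivity) hlog1
  have hrp : (cl s j : ℝ) ^ (1 / 4 : ℝ) ≤ len s j := by
    refine le_trans ?_ hlen
    have h2 : (cl s j : ℝ) ^ (1 / 4 : ℝ) ≤ ((2 * X) ^ 2) ^ (1 / 4 : ℝ) := by
      apply Real.rpow_le_rpow hapos.le _ (by norm_num)
      have h3 : (cl s j : ℝ) ≤ (4 : ℝ) ^ (k + 1) := by exact_mod_cast hab.trans ha2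
      refine h3.trans (le_of_eq ?_)
      rw [hX, mul_pow, ← pow_mul, pow_succ, show (4 : ℝ) = 2 ^ 2 by norm_num, ← pow_mul]
      ring_nf
    refine h2.trans (le_of_eq ?_)
    rw [← Real.rpow_natCast, ← Real.rpow_mul (by linarith), Real.sqrt_eq_rpow]
    norm_num
  have hl0 := len_nonneg s j
  obtain ⟨E, hE⟩ : ∃ E, E = ∑ x ∈ cell s j, pr z x := ⟨_, rfl⟩
  rw [← hE] at h1 ⊢
  obtain ⟨ℓ, hℓ⟩ : ∃ ℓ, ℓ = len s j := ⟨_, rfl⟩
  rw [← hℓ] at h1 hl0 hrp ⊢
  obtain ⟨L, hL⟩ : ∃ L, L = Real.log (cl s j) := ⟨_, rfl⟩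
  rw [← hL] at h1 hlog1 hlog2 hlogpos
  have h2 : δ * (ℓ + (cl s j : ℝ) ^ (1 / 4 : ℝ)) / L ≤ 2 * δ * (ℓ / L) := by
    rw [mul_div_assoc']
    apply div_le_div_of_nonneg_right _ hlogpos.le
    nlinarith
  have h3 := abs_le.1 (h1.trans h2)
  obtain ⟨K, hK⟩ : ∃ K, K = 2 * k * Real.log 2 := ⟨_, rfl⟩
  have hK0 : 0 < K := by rw [hK]; positivity
  rw [← hK] at hlog1 ⊢
  have h4 : ℓ / L ≤ ℓ / K := div_le_div_of_nonneg_left hl0 hK0 hlog1
  have h5 : (1 - δ) * (ℓ / K) ≤ ℓ / L := by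
    have h6 : (1 - δ) * L ≤ K := by
      have h7 : (1 - δ) * (k + 1) ≤ (k : ℝ) := by
        have h8 : 1 / δ ≤ (k : ℝ) := hkδ
        rw [div_le_iff₀ hδ0] at h8
        nlinarith
      calc (1 - δ) * L ≤ (1 - δ) * (2 * (k + 1) * Real.log 2) := mul_le_mul_of_nonneg_left hlog2 (by linarith)
        _ = 2 * ((1 - δ) * (k + 1)) * Real.log 2 := by ring
        _ ≤ 2 * k * Real.log 2 := by
            apply mul_le_mul_of_nonneg_right _ hl2.le
            linarith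
        _ = K := hK.symm
    rw [mul_div_assoc', div_le_div_iff₀ hK0 hlogpos]
    nlinarith
  have h9 : 0 ≤ ℓ / K := div_nonneg hl0 hK0.le
  have h10 : 0 ≤ ℓ / L := div_nonneg hl0 hlogpos.le
  constructor
  · have h11 : (1 - ε) * (ℓ / K) ≤ (1 - 8 * δ) * (ℓ / K) := mul_le_mul_of_nonneg_right (by linarith) h9
    have h12 : (1 - 2 * δ) * (ℓ / L) ≤ E := by linarith [h3.1]
    have h13 : (1 - 2 * δ) * ((1 - δ) * (ℓ / K)) ≤ (1 - 2 * δ) * (ℓ / L) := mul_le_mul_of_nonneg_left h5 (by linarith)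
    nlinarith
  · have h11 : E ≤ (1 + 2 * δ) * (ℓ / L) := by linarith [h3.2]
    have h12 : (1 + 2 * δ) * (ℓ / L) ≤ (1 + 2 * δ) * (ℓ / K) := mul_le_mul_of_nonneg_left h4 (by linarith)
    have h13 : (1 + 2 * δ) * (ℓ / K) ≤ (1 + ε) * (ℓ / K) := mul_le_mul_of_nonneg_right (by linarith) h9
    linarith

end Pool.Agent.Q197.WN
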