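import Pool.Agent.Q197.WN.CellE

/-!
# Long empty runs of cells between nonempty cells
-/

set_option autoImplicit false

namespace Pool.Agent.Q197.WN

open Finset MeasureTheory Filter Pool.Agent.Q120.TT Pool.Agent.Q120.ET Pool.Agent.Q120.GM
  Pool.Agent.Q120.CL
open scoped Topology

/-- The cells of the `i`-th run, and all of them. -/
def run (A g i : ℕ) : Finset ℕ := Ico (A + i * (g + 1) + 1) (A + (i + 1) * (g + 1))

def runs (A g M : ℕ) : Finset ℕ := (range M).biUnion (run A g)

/-- The cells between the runs. -/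
def seps (A g M : ℕ) : Finset ℕ := (range (M + 1)).image (fun i => A + i * (g + 1))

theorem run_disj {A g i j : ℕ} (h : i ≠ j) : Disjoint (run A g i) (run A g j) := by
  unfold run
  rw [disjoint_left]
  intro x hx hx'
  rw [mem_Ico] at hx hx'
  rcases lt_or_gt_of_ne h with h1 | h1
  · have := Nat.mul_le_mul_right (g + 1) (show i + 1 ≤ j by omega)
    omega
  · have := Nat.mul_le_mul_right (g + 1) (show j + 1 ≤ i by omega)
    omega

theorem run_seps {A g M : ℕ} : Disjoint (runs A g M) (seps A g M) := by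
  unfold runs seps run
  rw [disjoint_left]
  intro x hx hx'
  rw [mem_biUnion] at hx
  rw [mem_image] at hx'
  obtain ⟨i, _, hi⟩ := hx
  obtain ⟨j, _, hj⟩ := hx'
  rw [mem_Ico] at hi
  rcases le_or_gt j i with h1 | h1
  · have := Nat.mul_le_mul_right (g + 1) h1
    omega
  · have := Nat.mul_le_mul_right (g + 1) (show i + 1 ≤ j by omega)
    omega

theorem runs_sub {s k g M : ℕ} (h : M * (g + 1) + 1 ≤ 2 ^ (k + s)) : runs (2 ^ (k + s)) g M ⊆ block (k + s) := by
  intro x hx
  unfold runs run at hx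
  rw [mem_biUnion] at hx
  obtain ⟨i, hi, hx⟩ := hx
  rw [mem_range] at hi
  rw [mem_Ico] at hx
  unfold block
  rw [mem_Ico, pow_succ]
  have := Nat.mul_le_mul_right (g + 1) (show i + 1 ≤ M by omega)
  omega

theorem seps_sub {s k g M : ℕ} (h : M * (g + 1) + 1 ≤ 2 ^ (k + s)) : seps (2 ^ (k + s)) g M ⊆ block (k + s) := by
  intro x hx
  unfold seps at hx
  rw [mem_image] at hx
  obtain ⟨i, hi, rfl⟩ := hx
  rw [mem_range] at hi
  unfold block
  rw [mem_Ico, pow_succ]
  have := Nat.mul_le_mul_right (g + 1) (show i ≤ M by omega)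
  omega

/-- The pattern: the runs are empty, the cells between them are not. -/
def Patt (s k g M : ℕ) (T : Finset ℕ) : Prop :=
  (∀ j ∈ runs (2 ^ (k + s)) g M, T ∩ cell s j = ∅) ∧ ∀ j ∈ seps (2 ^ (k + s)) g M, (T ∩ cell s j).Nonempty

theorem runs_sum (s A g M : ℕ) : ∑ j ∈ runs A g M, len s j =
    ∑ i ∈ range M, ((cl s (A + (i + 1) * (g + 1)) : ℝ) - cl s (A + i * (g + 1) + 1)) := by
  unfold runs
  rw [sum_biUnion (fun i _ j _ h => run_disj h)]
  refine sum_congr rfl (fun i _ => ?_)
  unfold run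
  apply sum_len
  have : (i + 1) * (g + 1) = i * (g + 1) + (g + 1) := by ring
  omega

/-- The probability of the pattern. -/
theorem patt_prob {z : ℕ → ℕ} (hz : Small z) (s : ℕ) {ε : ℝ} (hε : 0 < ε) : ∀ᶠ k : ℕ in atTop, ∀ g M : ℕ,
    M * (g + 1) + 1 ≤ 2 ^ (k + s) →
      Real.exp (-((1 + ε) * ((∑ j ∈ runs (2 ^ (k + s)) g M, len s j) / (2 * k * Real.log 2)) + 1)) ≤
        PP (pr z) (Bk k) (Patt s k g M) := by
  classical
  have hp : ∀ n, 0 ≤ pr z n ∧ pr z n ≤ 1 := fun n => ⟨pr_nonneg z n, pr_le_one z n⟩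
  obtain ⟨δ, hδ⟩ : ∃ δ : ℝ, δ = min ε 1 / 8 := ⟨_, rfl⟩
  have hδ0 : 0 < δ := by rw [hδ]; exact div_pos (lt_min hε one_pos) (by norm_num)
  have hδ1 : 8 * δ ≤ ε := by rw [hδ]; have := min_le_left ε 1; linarith
  have hδ2 : 8 * δ ≤ 1 := by rw [hδ]; have := min_le_right ε 1; linarith
  have hl2 : 0 < Real.log 2 := Real.log_pos (by norm_num)
  have hl21 : Real.log 2 ≤ 1 := by have := Real.log_two_lt_d9; linarith
  obtain ⟨m, hm⟩ : ∃ m : ℝ, m = 2 ^ s := ⟨_, rfl⟩
  have hm1 : 1 ≤ m := by rw [hm]; exact one_le_pow₀ (by norm_num)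
  have hm4 : (4 : ℝ) ^ s = m ^ 2 := by rw [hm, ← pow_mul, show (4 : ℝ) = 2 ^ 2 by norm_num, ← pow_mul]; ring_nf
  obtain ⟨N, hN⟩ := eventually_atTop.1 (pr_tendsto hz hδ0)
  filter_upwards [cell_mass hz s (show (0 : ℝ) < δ by exact hδ0), two_pow_big s (show 0 < 1 / (8 * m) by positivity),
    eventually_ge_atTop (N + s + 1)] with k hk hbig hk1 g M hgM
  have hk0 : (1 : ℝ) ≤ k := by
    have : 1 ≤ k := by omega
    exact_mod_cast this
  obtain ⟨X, hX⟩ : ∃ X : ℝ, X = 2 ^ k := ⟨_, rfl⟩
  have hXm : m ≤ X := by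
    rw [hX, hm]
    exact pow_le_pow_right₀ (by norm_num) (by omega)
  have hX0 : 0 < X := by linarith
  rw [← hX] at hbig
  obtain ⟨K, hK⟩ : ∃ K, K = 2 * (k : ℝ) * Real.log 2 := ⟨_, rfl⟩
  have hK0 : 0 < K := by rw [hK]; positivity
  rw [← hK] at hk ⊢
  obtain ⟨A, hA⟩ : ∃ A, A = 2 ^ (k + s) := ⟨_, rfl⟩
  have hA' : (A : ℝ) = 2 ^ (k + s) := by rw [hA]; push_cast; rfl
  -- the probabilities of the cells
  have hlen : ∀ j ∈ block (k + s), X / m ≤ len s j := by
    intro j hj
    unfold block at hj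
    rw [mem_Ico] at hj
    have hj1 : X * m ≤ j := by
      rw [hX, hm, ← pow_add]
      exact_mod_cast hj.1
    refine le_trans ?_ (len_bounds s j).1
    rw [hm4]
    have h1 : 2 * X / m ≤ (2 * (j : ℝ) + 1) / m ^ 2 := by
      rw [div_le_div_iff₀ (by positivity) (by positivity)]
      nlinarith
    have h2 : 1 ≤ X / m := by rw [le_div_iff₀ (by positivity)]; linarith
    have h3 : 2 * X / m = 2 * (X / m) := by ring
    linarith
  have hempty : ∀ j ∈ block (k + s), Real.exp (-((1 + 4 * δ) * (len s j / K))) ≤ PP (pr z) (cell s j) (fun T => T = ∅) := by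
    intro j hj
    have h1 : ∀ x ∈ cell s j, pr z x ≤ δ := by
      intro x hx
      apply hN
      have h2 : x ∈ Bk k := by rw [← cells_union s k]; exact mem_biUnion.2 ⟨j, hj, hx⟩
      unfold Bk at h2
      rw [mem_Ico] at h2
      have h3 : k < 4 ^ k := Nat.lt_pow_self (by norm_num)
      omega
    refine le_trans (Real.exp_le_exp.2 ?_) (void_lo hp (by linarith) h1)
    have h2 := (hk j hj).2
    have h3 : 0 ≤ len s j / K := div_nonneg (len_nonneg s j) hK0.le
    have h4 : (1 + 2 * δ) * ∑ x ∈ cell s j, pr z x ≤ (1 + 2 * δ) * ((1 + δ) * (len s j / K)) :=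
      mul_le_mul_of_nonneg_left h2 (by linarith)
    have h5 : (1 + 2 * δ) * (1 + δ) ≤ 1 + 4 * δ := by nlinarith
    have h6 : (1 + 2 * δ) * ((1 + δ) * (len s j / K)) ≤ (1 + 4 * δ) * (len s j / K) := by
      rw [← mul_assoc]
      exact mul_le_mul_of_nonneg_right h5 h3
    linarith
  have hfull : ∀ j ∈ block (k + s), 1 - 1 / (2 * A : ℝ) ≤ PP (pr z) (cell s j) (fun T => T.Nonempty) := by
    intro j hj
    have h1 := void_up hp (cell s j)
    have h2 := PP_not (p := pr z) (B := cell s j) (F := fun T => T = ∅)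
    have h3 : PP (pr z) (cell s j) (fun T => T.Nonempty) = PP (pr z) (cell s j) (fun T => ¬ T = ∅) :=
      PP_congr (fun T _ => Finset.nonempty_iff_ne_empty)
    rw [h3, h2]
    have h4 : Real.exp (-∑ x ∈ cell s j, pr z x) ≤ 1 / (2 * A) := by
      have h5 : Real.log (2 * A) ≤ ∑ x ∈ cell s j, pr z x := by
        have h6 := (hk j hj).1
        have h7 := hlen j hj
        have h8 : Real.log (2 * A) = ((k : ℝ) + s + 1) * Real.log 2 := by
          rw [hA', ← pow_succ', Real.log_pow]
          push_cast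
          ring
        rw [h8]
        refine le_trans ?_ h6
        rw [mul_div_assoc', le_div_iff₀ hK0, hK]
        have hs0 : (0 : ℝ) ≤ s := Nat.cast_nonneg s
        have h9 : ((k : ℝ) + s + 1) * Real.log 2 * (2 * k * Real.log 2) ≤ 2 * ((k : ℝ) + s + 1) ^ 2 := by
          have h10 : ((k : ℝ) + s + 1) * Real.log 2 ≤ (k : ℝ) + s + 1 := by nlinarith
          have h11 : (2 * k * Real.log 2) ≤ 2 * ((k : ℝ) + s + 1) := by nlinarith
          have h12 : 0 ≤ ((k : ℝ) + s + 1) * Real.log 2 := by positivity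
          nlinarith
        have h13 : 2 * (1 / (8 * m) * X) = 1 / 4 * (X / m) := by field_simp; ring
        have h14 : 0 ≤ X / m := by positivity
        nlinarith
      have hA0 : (0 : ℝ) < 2 * A := by rw [hA']; positivity
      calc Real.exp (-∑ x ∈ cell s j, pr z x) ≤ Real.exp (-Real.log (2 * A)) := Real.exp_le_exp.2 (by linarith)
        _ = 1 / (2 * A) := by rw [Real.exp_neg, Real.exp_log hA0, one_div]
    linarith
  -- independence
  obtain ⟨Q, hQ⟩ : ∃ Q : ℕ → Finset ℕ → Prop, Q = fun j T => if j ∈ runs A g M then T = ∅ else T.Nonempty := ⟨_, rfl⟩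
  have hr := runs_sub (s := s) (k := k) hgM
  have hse := seps_sub (s := s) (k := k) hgM
  have hrs := run_seps (A := A) (g := g) (M := M)
  rw [← hA] at hr hse
  have h1 := PP_windows (p := pr z) (cell s) (union_subset hr hse) (fun i _ j _ h => cell_disj h) Q
  rw [cells_union] at h1
  have h2 : PP (pr z) (Bk k) (Patt s k g M) = PP (pr z) (Bk k) (fun T => ∀ i ∈ runs A g M ∪ seps A g M, Q i (T ∩ cell s i)) := by
    refine PP_congr (fun T _ => ?_)
    unfold Patt
    rw [← hA, hQ]
    constructor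
    · rintro ⟨h3, h4⟩ i hi
      by_cases h5 : i ∈ runs A g M
      · rw [if_pos h5]; exact h3 i h5
      · rw [if_neg h5]
        rcases mem_union.1 hi with h6 | h6
        · exact absurd h6 h5
        · exact h4 i h6
    · intro h
      refine ⟨fun j hj => ?_, fun j hj => ?_⟩
      · have := h j (mem_union_left _ hj)
        simp only at this
        rwa [if_pos hj] at this
      · have h3 := h j (mem_union_right _ hj)
        simp only at h3
        rwa [if_neg (fun h4 => disjoint_left.1 hrs h4 hj)] at h3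
  rw [h2, h1, prod_union hrs]
  have h3 : Real.exp (-((1 + ε) * ((∑ j ∈ runs A g M, len s j) / K))) ≤ ∏ i ∈ runs A g M, PP (pr z) (cell s i) (Q i) := by
    rw [sum_div, mul_sum, ← sum_neg_distrib, Real.exp_sum]
    refine prod_le_prod (fun i _ => (Real.exp_pos _).le) (fun i hi => ?_)
    have h4 : Q i = fun T => T = ∅ := by
      rw [hQ]
      funext T
      simp only
      rw [if_pos hi]
    rw [h4]
    refine le_trans (Real.exp_le_exp.2 ?_) (hempty i (hr hi))
    have h5 : 0 ≤ len s i / K := div_nonneg (len_nonneg s i) hK0.le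
    nlinarith
  have h4 : (1 / 2 : ℝ) ≤ ∏ i ∈ seps A g M, PP (pr z) (cell s i) (Q i) := by
    have hA0 : (1 : ℝ) ≤ A := by rw [hA']; exact one_le_pow₀ (by norm_num)
    have h5 : (1 - 1 / (2 * A : ℝ)) ^ (seps A g M).card ≤ ∏ i ∈ seps A g M, PP (pr z) (cell s i) (Q i) := by
      rw [← prod_const]
      refine prod_le_prod (fun i _ => ?_) (fun i hi => ?_)
      · rw [sub_nonneg, div_le_one (by positivity)]
        linarith
      · have h6 : Q i = fun T => T.Nonempty := by
          rw [hQ]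
          funext T
          simp only
          rw [if_neg (fun h7 => disjoint_left.1 hrs h7 hi)]
        rw [h6]
        exact hfull i (hse hi)
    refine le_trans ?_ h5
    have h6 := one_add_mul_le_pow (show (-2 : ℝ) ≤ -(1 / (2 * A)) by
      have : 1 / (2 * (A : ℝ)) ≤ 1 := by rw [div_le_one (by positivity)]; linarith
      linarith) (seps A g M).card
    have h7 : (1 : ℝ) + -(1 / (2 * A)) = 1 - 1 / (2 * A) := by ring
    rw [h7] at h6
    refine le_trans ?_ h6
    have h8 : ((seps A g M).card : ℝ) ≤ A := by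
      have h9 : (seps A g M).card ≤ (block (k + s)).card := card_le_card hse
      rw [block_card, ← hA] at h9
      exact_mod_cast h9
    have h10 : ((seps A g M).card : ℝ) * (1 / (2 * A)) ≤ 1 / 2 := by
      rw [mul_one_div, div_le_iff₀ (by positivity)]
      linarith
    linarith
  have h5 : Real.exp (-1) ≤ 1 / 2 := by
    have := Real.exp_one_gt_d9
    rw [Real.exp_neg, ← one_div]
    apply one_div_le_one_div_of_le (by norm_num)
    linarith
  have h6 : -((1 + ε) * ((∑ j ∈ runs (2 ^ (k + s)) g M, len s j) / K) + 1) =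
      -((1 + ε) * ((∑ j ∈ runs A g M, len s j) / K)) + (-1) := by rw [hA]; ring
  rw [h6, Real.exp_add]
  exact mul_le_mul h3 (h5.trans h4) (Real.exp_pos _).le (prod_nonneg (fun _ _ => PP_nonneg hp))

end Pool.Agent.Q197.WN
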