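import Pool.Agent.Q197.WN.LapG

/-!
# Windows at the critical scale: the exact price of many exceptional windows
-/

set_option autoImplicit false

namespace Pool.Agent.Q197.WN

open Finset MeasureTheory Filter Pool.Agent.Q120.TT Pool.Agent.Q120.ET Pool.Agent.Q120.GM
open scoped Topology

/-- The price of `M` exceptional windows in the block `k`. -/
noncomputable def V (κ : ℝ) (k M : ℕ) : ℝ := M * ((κ - 1) * (k * Real.log 2) + Real.log M)

section

variable {p : ℕ → ℝ} {W : ℕ → Finset ℕ}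

theorem many_up (hp : ∀ n, 0 ≤ p n ∧ p n ≤ 1) (hW : ∀ i j, i ≠ j → Disjoint (W i) (W j)) {I : Finset ℕ}
    {Q : ℕ → Finset ℕ → Prop} {w : ℝ} (hQ : ∀ n ∈ I, PP p (W n) (Q n) ≤ Real.exp (-w)) {M : ℕ} (hM1 : 1 ≤ M) (hI : 0 < I.card) :
    PP p (I.biUnion W) (fun T => M ≤ many W I Q T) ≤ Real.exp (-(M * (w - Real.log I.card + Real.log M - 1))) := by
  classical
  have h1 : PP p (I.biUnion W) (fun T => M ≤ many W I Q T) ≤
      PP p (I.biUnion W) (fun T => ∃ J ∈ powersetCard M I, ∀ n ∈ J, Q n (T ∩ W n)) := by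
    refine PP_mono hp (fun T _ hT => ?_)
    unfold many at hT
    obtain ⟨J, hJ, hJM⟩ := exists_subset_card_eq hT
    refine ⟨J, mem_powersetCard.2 ⟨hJ.trans (filter_subset _ _), hJM⟩, fun n hn => ?_⟩
    exact (mem_filter.1 (hJ hn)).2
  refine h1.trans ((PP_exists_le hp _ _).trans ?_)
  have h2 : ∀ J ∈ powersetCard M I, PP p (I.biUnion W) (fun T => ∀ n ∈ J, Q n (T ∩ W n)) ≤ Real.exp (-(M * w)) := by
    intro J hJ
    obtain ⟨hJI, hJM⟩ := mem_powersetCard.1 hJ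
    rw [PP_windows W hJI (fun i _ j _ h => hW i j h)]
    calc ∏ n ∈ J, PP p (W n) (Q n) ≤ ∏ n ∈ J, Real.exp (-w) :=
          prod_le_prod (fun n _ => PP_nonneg hp) (fun n hn => hQ n (hJI hn))
      _ = Real.exp (-(M * w)) := by
          rw [prod_const, hJM, ← Real.exp_nat_mul]
          congr 1
          ring
  refine (sum_le_sum h2).trans ?_
  rw [sum_const, nsmul_eq_mul, card_powersetCard]
  have hM0 : (0 : ℝ) < M := by exact_mod_cast hM1
  have hI0 : (0 : ℝ) < I.card := by exact_mod_cast hI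
  have h3 : ((I.card.choose M : ℕ) : ℝ) ≤ Real.exp (M * (Real.log I.card - Real.log M + 1)) := by
    have h4 : ((I.card.choose M : ℕ) : ℝ) ≤ (I.card : ℝ) ^ M / (M.factorial : ℝ) := Nat.choose_le_pow_div M I.card
    refine h4.trans ?_
    have h5 := Real.pow_div_factorial_le_exp (M : ℝ) hM0.le M
    have h6 : (I.card : ℝ) ^ M / (M.factorial : ℝ) = ((I.card : ℝ) / M) ^ M * ((M : ℝ) ^ M / (M.factorial : ℝ)) := by
      rw [div_pow]
      field_simp
    rw [h6]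
    have h7 : Real.exp (M * (Real.log I.card - Real.log M + 1)) = ((I.card : ℝ) / M) ^ M * Real.exp M := by
      rw [mul_add, mul_one, Real.exp_add, ← Real.log_div hI0.ne' hM0.ne', mul_comm (M : ℝ) (Real.log _), Real.exp_mul,
        Real.exp_log (div_pos hI0 hM0), Real.rpow_natCast]
    rw [h7]
    exact mul_le_mul_of_nonneg_left h5 (by positivity)
  refine (mul_le_mul_of_nonneg_right h3 (Real.exp_pos _).le).trans ?_
  rw [← Real.exp_add]
  apply Real.exp_le_exp.2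
  linarith

theorem many_lo (hp : ∀ n, 0 ≤ p n ∧ p n ≤ 1) (hW : ∀ i j, i ≠ j → Disjoint (W i) (W j)) {k : ℕ}
    {Q : ℕ → Finset ℕ → Prop} {w : ℝ} (hQ : ∀ n ∈ block k, Real.exp (-w) ≤ PP p (W n) (Q n)) (hw : k * Real.log 2 ≤ w)
    {M : ℕ} (hM1 : 1 ≤ M) (hM : M ≤ 2 ^ k) :
    Real.exp (-(M * (w - k * Real.log 2 + Real.log M + Real.log 4))) ≤
      PP p ((block k).biUnion W) (fun T => M ≤ many W (block k) Q T) := by
  classical
  obtain ⟨g, hg⟩ : ∃ g, g = 2 ^ k / M := ⟨_, rfl⟩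
  have hg1 : 1 ≤ g := by rw [hg]; exact (Nat.one_le_div_iff (by omega)).2 hM
  have hgM : g * M ≤ 2 ^ k := by rw [hg]; exact Nat.div_mul_le_self _ _
  have hgM2 : 2 ^ k ≤ 2 * (g * M) := by
    have h1 : 2 ^ k < (g + 1) * M := by
      rw [hg]
      have h2 := Nat.div_add_mod (2 ^ k) M
      have h3 := Nat.mod_lt (2 ^ k) (show 0 < M by omega)
      nlinarith
    nlinarith
  have hM0 : (0 : ℝ) < M := by exact_mod_cast hM1
  obtain ⟨J, hJ⟩ : ∃ J : ℕ → Finset ℕ, J = fun i => Ico (2 ^ k + i * g) (2 ^ k + (i + 1) * g) := ⟨_, rfl⟩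
  have hJc : ∀ i, (J i).card = g := by
    intro i
    rw [hJ]
    simp only [Nat.card_Ico]
    have : (i + 1) * g = i * g + g := by ring
    omega
  have hJs : ∀ i ∈ range M, J i ⊆ block k := by
    intro i hi n hn
    rw [mem_range] at hi
    rw [hJ, mem_Ico] at hn
    unfold block
    rw [mem_Ico]
    have h1 : (i + 1) * g ≤ M * g := Nat.mul_le_mul_right _ hi
    have h2 : 2 ^ (k + 1) = 2 ^ k + 2 ^ k := by ring
    constructor
    · omega
    · have h3 : M * g = g * M := Nat.mul_comm _ _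
      omega
  have hJd : ∀ i j, i ≠ j → Disjoint (J i) (J j) := by
    intro i j hij
    rw [Finset.disjoint_left]
    intro n hn hn'
    rw [hJ, mem_Ico] at hn hn'
    rcases lt_or_gt_of_ne hij with h | h
    · have : (i + 1) * g ≤ j * g := Nat.mul_le_mul_right _ h
      omega
    · have : (j + 1) * g ≤ i * g := Nat.mul_le_mul_right _ h
      omega
  obtain ⟨W', hW'⟩ : ∃ W' : ℕ → Finset ℕ, W' = fun i => (J i).biUnion W := ⟨_, rfl⟩
  have hWd : ∀ i ∈ range M, ∀ j ∈ range M, i ≠ j → Disjoint (W' i) (W' j) := by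
    intro i _ j _ hij
    rw [hW', disjoint_biUnion_left]
    intro a ha
    rw [disjoint_biUnion_right]
    intro b hb
    apply hW
    rintro rfl
    exact disjoint_left.1 (hJd i j hij) ha hb
  obtain ⟨Q', hQ'⟩ : ∃ Q' : ℕ → Finset ℕ → Prop, Q' = fun i T => ∃ n ∈ J i, Q n (T ∩ W n) := ⟨_, rfl⟩
  have hq : Real.exp (-w) * (2 : ℝ) ^ k ≤ 1 := by
    have h1 : (2 : ℝ) ^ k = Real.exp (k * Real.log 2) := by
      rw [mul_comm, Real.exp_mul, Real.exp_log (by norm_num), Real.rpow_natCast]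
    rw [h1, ← Real.exp_add]
    apply Real.exp_le_one_iff.2
    linarith
  have hg2 : (g : ℝ) ≤ (2 : ℝ) ^ k := by
    have : g ≤ 2 ^ k := le_trans (Nat.le_mul_of_pos_right g (by omega)) hgM
    exact_mod_cast this
  have hany : ∀ i ∈ range M, Real.exp (-w) * g / 2 ≤ PP p (W' i) (Q' i) := by
    intro i hi
    rw [hW', hQ']
    have h1 := PP_any_ge hp W (J i) (fun a _ b _ h => hW a b h) Q (Real.exp_pos (-w)).le (fun n hn => hQ n (hJs i hi hn)) (by
      rw [hJc]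
      exact (mul_le_mul_of_nonneg_left hg2 (Real.exp_pos _).le).trans hq)
    rw [hJc] at h1
    exact h1
  have hprod := PP_biUnion (p := p) W' (range M) hWd Q'
  have hsub : (range M).biUnion W' ⊆ (block k).biUnion W := by
    intro x hx
    obtain ⟨i, hi, hx⟩ := mem_biUnion.1 hx
    rw [hW'] at hx
    obtain ⟨n, hn, hx⟩ := mem_biUnion.1 hx
    exact mem_biUnion.2 ⟨n, hJs i hi hn, hx⟩
  have hge : (Real.exp (-w) * g / 2) ^ M ≤ PP p ((range M).biUnion W') (fun T => ∀ i ∈ range M, Q' i (T ∩ W' i)) := by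
    rw [hprod]
    have h1 : (Real.exp (-w) * g / 2) ^ M = ∏ i ∈ range M, (Real.exp (-w) * g / 2) := by rw [prod_const, card_range]
    rw [h1]
    exact prod_le_prod (fun i _ => by positivity) hany
  rw [← PP_sub hsub] at hge
  refine le_trans ?_ (hge.trans (PP_mono hp (fun T _ hT => ?_)))
  · have h1 : Real.exp (-(w - k * Real.log 2 + Real.log M + Real.log 4)) ≤ Real.exp (-w) * g / 2 := by
      have h2 : Real.exp (-(w - k * Real.log 2 + Real.log M + Real.log 4)) = Real.exp (-w) * ((2 : ℝ) ^ k / M / 4) := by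
        have h3 : -(w - k * Real.log 2 + Real.log M + Real.log 4) = -w + (k * Real.log 2 - Real.log M - Real.log 4) := by ring
        rw [h3, Real.exp_add, Real.exp_sub, Real.exp_sub, Real.exp_log hM0, Real.exp_log (by norm_num), mul_comm (k : ℝ),
          Real.exp_mul, Real.exp_log (by norm_num), Real.rpow_natCast]
      rw [h2, mul_div_assoc]
      apply mul_le_mul_of_nonneg_left _ (Real.exp_pos _).le
      rw [div_div, div_le_div_iff₀ (by positivity) (by norm_num)]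
      have h4 : (2 : ℝ) ^ k ≤ 2 * (g * M) := by exact_mod_cast hgM2
      linarith
    have h5 : Real.exp (-(M * (w - k * Real.log 2 + Real.log M + Real.log 4))) =
        Real.exp (-(w - k * Real.log 2 + Real.log M + Real.log 4)) ^ M := by
      rw [← Real.exp_nat_mul]
      congr 1
      ring
    rw [h5]
    exact pow_le_pow_left₀ (Real.exp_pos _).le h1 M
  · have hT' : ∀ i ∈ range M, ∃ n ∈ J i, Q n (T ∩ W n) := by
      intro i hi
      have h1 := hT i hi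
      rw [hQ'] at h1
      obtain ⟨n, hn, h2⟩ := h1
      refine ⟨n, hn, ?_⟩
      have h3 : T ∩ (range M).biUnion W' ∩ W' i ∩ W n = T ∩ W n := by
        ext x
        simp only [mem_inter]
        constructor
        · rintro ⟨⟨⟨h4, _⟩, _⟩, h5⟩
          exact ⟨h4, h5⟩
        · rintro ⟨h4, h5⟩
          have h6 : x ∈ W' i := by rw [hW']; exact mem_biUnion.2 ⟨n, hn, h5⟩
          exact ⟨⟨⟨h4, mem_biUnion.2 ⟨i, hi, h6⟩⟩, h6⟩, h5⟩
      rw [h3] at h2
      exact h2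
    choose! f hf1 hf2 using hT'
    unfold many
    have h6 : (range M).card ≤ ((block k).filter (fun n => Q n (T ∩ W n))).card := by
      apply card_le_card_of_injOn f
      · intro i hi
        have hi' : i ∈ range M := hi
        exact mem_coe.2 (mem_filter.2 ⟨hJs i hi' (hf1 i hi'), hf2 i hi'⟩)
      · intro i hi j hj hij
        by_contra hne
        have h7 := hf1 i hi
        have h8 := hf1 j hj
        have hij' : f i = f j := hij
        rw [← hij'] at h8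
        exact disjoint_left.1 (hJd i j hne) h7 h8
    rwa [card_range] at h6

/-- The property of `S` depends on the window only. -/
def Local (W : ℕ → Finset ℕ) (Q : ℕ → Set ℕ → Prop) : Prop :=
  ∀ n (S S' : Set ℕ), (∀ x ∈ W n, (x ∈ S ↔ x ∈ S')) → (Q n S ↔ Q n S')

theorem exc_many {Q : ℕ → Set ℕ → Prop} (hQ : Local W Q) {Ω : Type} [MeasurableSpace Ω] {A : Ω → Set ℕ} (k : ℕ) (ω : Ω) :
    exc Q k (A ω) = many W (block k) (fun n T => Q n ((T : Finset ℕ) : Set ℕ)) (tr A (un W k) ω) := by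
  classical
  unfold exc many
  refine congrArg card (filter_congr (fun n hn => ?_))
  refine hQ n _ _ (fun x hx => ?_)
  rw [Finset.mem_coe, mem_inter, mem_tr]
  unfold un
  rw [mem_biUnion]
  constructor
  · exact fun h => ⟨⟨⟨n, hn, hx⟩, h⟩, hx⟩
  · exact fun h => h.1.2

/-- The upper bound for the probability of many exceptional windows, for all random sets. -/
def CritUp (p : ℕ → ℝ) (W : ℕ → Finset ℕ) (Q : ℕ → Set ℕ → Prop) (κ : ℝ) : Prop :=
  ∀ ε : ℝ, 0 < ε → ε < 1 → ∀ (Ω : Type) [MeasurableSpace Ω] (μ : Measure Ω) [IsProbabilityMeasure μ] (A : Ω → Set ℕ),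
    IsRandomSet A → (∀ᵐ ω ∂μ, ∀ n ∈ A ω, 0 < p n) → ∀ᶠ k : ℕ in atTop, ∀ M : ℕ, 1 ≤ M → M ≤ 2 ^ k →
      (1 - ε) * (V κ k M * μ.real {ω | M ≤ exc Q k (A ω)}) ≤ ε + relEnt p μ A (un W k)

/-- Random sets for which the upper bound is attained. -/
def CritLo (p : ℕ → ℝ) (W : ℕ → Finset ℕ) (Q : ℕ → Set ℕ → Prop) (κ : ℝ) : Prop :=
  ∀ ε : ℝ, 0 < ε → ∀ (M : ℕ → ℕ) (q : ℕ → ℝ), (∀ k, 1 ≤ M k ∧ M k ≤ 2 ^ k) → (∀ k, 0 ≤ q k ∧ q k ≤ 1) →
    ∃ (Ω : Type) (_ : MeasurableSpace Ω) (μ : Measure Ω) (_ : IsProbabilityMeasure μ) (A : Ω → Set ℕ),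
      Near p (un W) (fun k => (1 + ε) * (q k * V κ k (M k))) μ A ∧
        ∀ᶠ k : ℕ in atTop, q k ≤ μ.real {ω | M k ≤ exc Q k (A ω)}

/-- The exact budget. -/
def CritPhase (p : ℕ → ℝ) (W : ℕ → Finset ℕ) (Q Q' : ℕ → Set ℕ → Prop) : Prop :=
  ∀ (d : ℕ → ℝ) (M : ℕ → ℕ), (∀ k, 0 ≤ d k) → (∀ k, 1 ≤ M k ∧ M k ≤ 2 ^ k) →
    (Summable (fun k : ℕ => d k / (k * M k)) ↔ Few p W d M Q) ∧
    (¬ Summable (fun k : ℕ => d k / (k * M k)) → Often p W d M Q')

theorem V_ge {κ : ℝ} {k M : ℕ} (hM1 : 1 ≤ M) : (κ - 1) * Real.log 2 * (k * M) ≤ V κ k M := by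
  unfold V
  have hM0 : (1 : ℝ) ≤ M := by exact_mod_cast hM1
  have := mul_nonneg (show (0 : ℝ) ≤ M by linarith) (Real.log_nonneg hM0)
  nlinarith

theorem V_le {κ : ℝ} {k M : ℕ} (hM1 : 1 ≤ M) (hM : M ≤ 2 ^ k) : V κ k M ≤ κ * Real.log 2 * (k * M) := by
  unfold V
  have hM0 : (1 : ℝ) ≤ M := by exact_mod_cast hM1
  have h1 : Real.log M ≤ k * Real.log 2 := by
    rw [← Real.log_pow]
    apply Real.log_le_log (by linarith)
    exact_mod_cast hM
  have := mul_le_mul_of_nonneg_left h1 (show (0 : ℝ) ≤ M by linarith)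
  nlinarith

variable {Q Q' : ℕ → Set ℕ → Prop} {κ : ℝ}

theorem blk_up (hp : ∀ n, 0 ≤ p n ∧ p n ≤ 1) (hW : ∀ i j, i ≠ j → Disjoint (W i) (W j)) (hκ : 1 < κ)
    (hup : ∀ δ : ℝ, 0 < δ → ∀ᶠ k : ℕ in atTop, ∀ n ∈ block k,
      PP p (W n) (fun T => Q n ((T : Finset ℕ) : Set ℕ)) ≤ Real.exp (-((κ - δ) * (k * Real.log 2)))) {δ : ℝ} (hδ : 0 < δ) :
    ∀ᶠ k : ℕ in atTop, ∀ M : ℕ, 1 ≤ M → M ≤ 2 ^ k →
      PP p (un W k) (fun T => M ≤ many W (block k) (fun n T => Q n ((T : Finset ℕ) : Set ℕ)) T) ≤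
        Real.exp (-((1 - δ) * V κ k M)) := by
  have hl2 : 0 < Real.log 2 := Real.log_pos (by norm_num)
  have hlim : Tendsto (fun k : ℕ => δ * (κ - 1) / 2 * (k * Real.log 2)) atTop atTop :=
    (tendsto_natCast_atTop_atTop.atTop_mul_const hl2).const_mul_atTop (by have := mul_pos hδ (show 0 < κ - 1 by linarith); positivity)
  filter_upwards [hup (δ * (κ - 1) / 2) (by have := mul_pos hδ (show 0 < κ - 1 by linarith); positivity),
    hlim.eventually_ge_atTop 1] with k hk h1 M hM1 hM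
  have hM0 : (1 : ℝ) ≤ M := by exact_mod_cast hM1
  have h2 := many_up hp hW hk hM1 (by rw [block_card]; positivity)
  unfold un
  refine h2.trans (Real.exp_le_exp.2 ?_)
  have h3 : Real.log ((block k).card : ℝ) = k * Real.log 2 := by
    rw [block_card, Nat.cast_pow, Real.log_pow, Nat.cast_ofNat]
  rw [h3]
  have h4 : (1 - δ) * ((κ - 1) * (k * Real.log 2) + Real.log M) ≤
      (κ - δ * (κ - 1) / 2) * (k * Real.log 2) - k * Real.log 2 + Real.log M - 1 := by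
    have h5 := mul_nonneg hδ.le (Real.log_nonneg hM0)
    nlinarith
  have h6 := mul_le_mul_of_nonneg_left h4 (show (0 : ℝ) ≤ M by linarith)
  unfold V
  nlinarith

theorem blk_lo (hp : ∀ n, 0 ≤ p n ∧ p n ≤ 1) (hW : ∀ i j, i ≠ j → Disjoint (W i) (W j)) (hκ : 1 < κ)
    (hlo : ∀ δ : ℝ, 0 < δ → ∀ᶠ k : ℕ in atTop, ∀ n ∈ block k,
      Real.exp (-((κ + δ) * (k * Real.log 2))) ≤ PP p (W n) (fun T => Q n ((T : Finset ℕ) : Set ℕ))) {δ : ℝ} (hδ : 0 < δ) :
    ∀ᶠ k : ℕ in atTop, ∀ M : ℕ, 1 ≤ M → M ≤ 2 ^ k → Real.exp (-((1 + δ) * V κ k M)) ≤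
      PP p (un W k) (fun T => M ≤ many W (block k) (fun n T => Q n ((T : Finset ℕ) : Set ℕ)) T) := by
  have hl2 : 0 < Real.log 2 := Real.log_pos (by norm_num)
  have hlim : Tendsto (fun k : ℕ => δ * (κ - 1) / 2 * (k * Real.log 2)) atTop atTop :=
    (tendsto_natCast_atTop_atTop.atTop_mul_const hl2).const_mul_atTop (by have := mul_pos hδ (show 0 < κ - 1 by linarith); positivity)
  filter_upwards [hlo (δ * (κ - 1) / 2) (by have := mul_pos hδ (show 0 < κ - 1 by linarith); positivity),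
    hlim.eventually_ge_atTop (Real.log 4)] with k hk h1 M hM1 hM
  have hM0 : (1 : ℝ) ≤ M := by exact_mod_cast hM1
  have hδκ := mul_pos hδ (show 0 < κ - 1 by linarith)
  have hk0 : (0 : ℝ) ≤ k * Real.log 2 := by positivity
  have h2 := many_lo hp hW hk (by nlinarith) hM1 hM
  unfold un
  refine (Real.exp_le_exp.2 ?_).trans h2
  have h4 : (κ + δ * (κ - 1) / 2) * (k * Real.log 2) - k * Real.log 2 + Real.log M + Real.log 4 ≤
      (1 + δ) * ((κ - 1) * (k * Real.log 2) + Real.log M) := by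
    have h5 := mul_nonneg hδ.le (Real.log_nonneg hM0)
    nlinarith
  have h6 := mul_le_mul_of_nonneg_left h4 (show (0 : ℝ) ≤ M by linarith)
  unfold V
  nlinarith

theorem un_disj (hW : ∀ i j, i ≠ j → Disjoint (W i) (W j)) : ∀ i j, i ≠ j → Disjoint (un W i) (un W j) := by
  intro i j hij
  unfold un
  rw [disjoint_biUnion_left]
  intro a ha
  rw [disjoint_biUnion_right]
  intro b hb
  apply hW
  rintro rfl
  exact disjoint_left.1 (block_disj i j hij) ha hb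

theorem crit_up (hp : ∀ n, 0 ≤ p n ∧ p n ≤ 1) (hW : ∀ i j, i ≠ j → Disjoint (W i) (W j))
    (hhalf : ∀ᶠ k : ℕ in atTop, ∀ x ∈ un W k, p x ≤ 1 / 2) (hQ : Local W Q) (hκ : 1 < κ)
    (hup : ∀ δ : ℝ, 0 < δ → ∀ᶠ k : ℕ in atTop, ∀ n ∈ block k,
      PP p (W n) (fun T => Q n ((T : Finset ℕ) : Set ℕ)) ≤ Real.exp (-((κ - δ) * (k * Real.log 2)))) : CritUp p W Q κ := by
  intro ε hε hε1 Ω _ μ _ A hA hs
  have hl2 : 0 < Real.log 2 := Real.log_pos (by norm_num)
  have hκ1 : 0 < κ - 1 := by linarith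
  have hlim : Tendsto (fun k : ℕ => Real.exp (-(ε / 2 * ((κ - 1) * Real.log 2 * k)))) atTop (𝓝 0) := by
    refine Real.tendsto_exp_neg_atTop_nhds_zero.comp ?_
    exact (tendsto_natCast_atTop_atTop.const_mul_atTop (by positivity)).const_mul_atTop (by positivity)
  filter_upwards [blk_up hp hW hκ hup (show 0 < ε / 2 by linarith), hhalf, hlim.eventually (Iio_mem_nhds hε)] with k hk hhk hlk M hM1 hM
  have hM0 : (1 : ℝ) ≤ M := by exact_mod_cast hM1
  have h1 := event_up hp hhk (hk M hM1 hM) hA hs ((1 - ε) * V κ k M)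
  simp only [exc_many hQ]
  have hV : (κ - 1) * Real.log 2 * k ≤ V κ k M := by
    refine le_trans ?_ (V_ge (κ := κ) (k := k) hM1)
    have h3 : (k : ℝ) ≤ k * M := by nlinarith [Nat.cast_nonneg (α := ℝ) k]
    exact mul_le_mul_of_nonneg_left h3 (by positivity)
  have h2 : Real.exp ((1 - ε) * V κ k M - (1 - ε / 2) * V κ k M) ≤ ε := by
    have h3 : (1 - ε) * V κ k M - (1 - ε / 2) * V κ k M = -(ε / 2 * V κ k M) := by ring
    rw [h3]
    have h4 : Real.exp (-(ε / 2 * V κ k M)) ≤ Real.exp (-(ε / 2 * ((κ - 1) * Real.log 2 * k))) := by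
      apply Real.exp_le_exp.2
      have := mul_le_mul_of_nonneg_left hV (show 0 ≤ ε / 2 by linarith)
      linarith
    exact h4.trans (show Real.exp (-(ε / 2 * ((κ - 1) * Real.log 2 * k))) < ε from hlk).le
  rw [mul_assoc] at h1
  linarith

theorem crit_lo (hp : ∀ n, 0 ≤ p n ∧ p n ≤ 1) (hW : ∀ i j, i ≠ j → Disjoint (W i) (W j)) (hQ : Local W Q) (hκ : 1 < κ)
    (hlo : ∀ δ : ℝ, 0 < δ → ∀ᶠ k : ℕ in atTop, ∀ n ∈ block k,
      Real.exp (-((κ + δ) * (k * Real.log 2))) ≤ PP p (W n) (fun T => Q n ((T : Finset ℕ) : Set ℕ))) {ε : ℝ} (hε : 0 < ε)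
    {M : ℕ → ℕ} {q : ℕ → ℝ} (hM : ∀ k, 1 ≤ M k ∧ M k ≤ 2 ^ k) (hq : ∀ k, 0 ≤ q k ∧ q k ≤ 1) :
    ∃ (Ω : Type) (_ : MeasurableSpace Ω) (μ : Measure Ω) (_ : IsProbabilityMeasure μ) (A : Ω → Set ℕ),
      Near p (un W) (fun k => (1 + ε) * (q k * V κ k (M k))) μ A ∧
        (∀ᶠ k : ℕ in atTop, q k ≤ μ.real {ω | M k ≤ exc Q k (A ω)}) ∧
        (¬ Summable q → ∀ᵐ ω ∂μ, ∃ᶠ k : ℕ in atTop, M k ≤ exc Q k (A ω)) := by
  have h1 : ∀ᶠ k : ℕ in atTop, Real.exp (-((1 + ε) * V κ k (M k))) ≤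
      PP p (un W k) (fun T => M k ≤ many W (block k) (fun n T => Q n ((T : Finset ℕ) : Set ℕ)) T) := by
    filter_upwards [blk_lo hp hW hκ hlo hε] with k hk
    exact hk (M k) (hM k).1 (hM k).2
  obtain ⟨Ω, mΩ, μ, hμ, A, hA1, hA2, hA3, hA4, hA5⟩ := event_down hp (un_disj hW) (v := fun k => (1 + ε) * V κ k (M k)) h1
    (fun k => (hq k).1) (fun k => (hq k).2)
  refine ⟨Ω, mΩ, μ, hμ, A, ⟨hA1, hA2, ?_⟩, ?_, ?_⟩
  · filter_upwards [hA3] with k hk
    linarith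
  · filter_upwards [hA4] with k hk
    simp only [exc_many hQ]
    exact hk
  · intro hns
    filter_upwards [hA5 hns] with ω hω
    refine hω.mono (fun k hk => ?_)
    rw [exc_many hQ]
    exact hk

theorem crit_few (hp : ∀ n, 0 ≤ p n ∧ p n ≤ 1) (hW : ∀ i j, i ≠ j → Disjoint (W i) (W j))
    (hhalf : ∀ᶠ k : ℕ in atTop, ∀ x ∈ un W k, p x ≤ 1 / 2) (hQ : Local W Q) (hκ : 1 < κ)
    (hup : ∀ δ : ℝ, 0 < δ → ∀ᶠ k : ℕ in atTop, ∀ n ∈ block k,
      PP p (W n) (fun T => Q n ((T : Finset ℕ) : Set ℕ)) ≤ Real.exp (-((κ - δ) * (k * Real.log 2))))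
    {d : ℕ → ℝ} {M : ℕ → ℕ} (hM : ∀ k, 1 ≤ M k ∧ M k ≤ 2 ^ k) (hs : Summable (fun k : ℕ => d k / (k * M k))) :
    Few p W d M Q := by
  intro Ω _ μ _ A hA
  have hl2 : 0 < Real.log 2 := Real.log_pos (by norm_num)
  have hκ1 : 0 < κ - 1 := by linarith
  obtain ⟨a, ha⟩ : ∃ a, a = (κ - 1) * Real.log 2 := ⟨_, rfl⟩
  have ha0 : 0 < a := by rw [ha]; positivity
  obtain ⟨g, hg⟩ : ∃ g : ℕ → ℝ, g = fun k => 2 / a * Real.exp (-(a / 4)) ^ k + 2 / a * (d k / (k * M k)) := ⟨_, rfl⟩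
  have hgs : Summable g := by
    rw [hg]
    refine Summable.add (Summable.mul_left _ ?_) (hs.mul_left _)
    exact summable_geometric_of_lt_one (Real.exp_pos _).le (by rw [Real.exp_lt_one_iff]; linarith)
  have h1 : ∀ᶠ k : ℕ in atTop, μ.real {ω | M k ≤ exc Q k (A ω)} ≤ g k := by
    filter_upwards [blk_up hp hW hκ hup (show (0 : ℝ) < 1 / 4 by norm_num), hhalf, hA.ent, eventually_ge_atTop 1] with k hk hhk hek hk1
    have hM0 : (1 : ℝ) ≤ M k := by exact_mod_cast (hM k).1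
    have hk0 : (1 : ℝ) ≤ k := by exact_mod_cast hk1
    have h2 := event_up hp hhk (hk (M k) (hM k).1 (hM k).2) hA.rand hA.supp (1 / 2 * V κ k (M k))
    simp only [exc_many hQ]
    obtain ⟨x, hx⟩ : ∃ x, x = μ.real {ω | M k ≤ many W (block k) (fun n T => Q n ((T : Finset ℕ) : Set ℕ)) (tr A (un W k) ω)} := ⟨_, rfl⟩
    have h2' : 1 / 2 * V κ k (M k) * x ≤ Real.exp (1 / 2 * V κ k (M k) - (1 - 1 / 4) * V κ k (M k)) + relEnt p μ A (un W k) := by
      rw [hx]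
      exact h2
    rw [← hx]
    have hx0 : 0 ≤ x := by rw [hx]; exact measureReal_nonneg
    have hV : a * (k * M k) ≤ V κ k (M k) := by rw [ha]; exact V_ge (hM k).1
    have hkM : (k : ℝ) ≤ k * M k := by nlinarith
    have h3 : Real.exp (1 / 2 * V κ k (M k) - (1 - 1 / 4) * V κ k (M k)) ≤ Real.exp (-(a / 4)) ^ k := by
      rw [← Real.exp_nat_mul]
      apply Real.exp_le_exp.2
      have := mul_le_mul_of_nonneg_left hkM ha0.le
      linarith
    have h4 : 1 / 2 * (a * (k * M k)) * x ≤ 1 / 2 * V κ k (M k) * x :=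
      mul_le_mul_of_nonneg_right (by linarith) hx0
    have h5 : a / 2 * (k * M k) * x ≤ Real.exp (-(a / 4)) ^ k + d k := by linarith
    have hkM0 : (0 : ℝ) < k * M k := by positivity
    have h6 : x ≤ 2 / a * ((Real.exp (-(a / 4)) ^ k + d k) / (k * M k)) := by
      have h7 : x = 2 / a * (a / 2 * (k * M k) * x / (k * M k)) := by
        field_simp
      rw [h7]
      apply mul_le_mul_of_nonneg_left _ (by positivity)
      exact div_le_div_of_nonneg_right h5 hkM0.le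
    refine h6.trans ?_
    rw [hg, add_div, mul_add]
    have h8 : Real.exp (-(a / 4)) ^ k / (k * M k) ≤ Real.exp (-(a / 4)) ^ k :=
      div_le_self (pow_nonneg (Real.exp_pos _).le _) (by nlinarith)
    have := mul_le_mul_of_nonneg_left h8 (show 0 ≤ 2 / a by positivity)
    linarith
  filter_upwards [bc hgs h1] with ω hω
  filter_upwards [hω] with k hk
  by_contra hcon
  exact hk (not_lt.1 hcon)

theorem crit_often (hp : ∀ n, 0 ≤ p n ∧ p n ≤ 1) (hW : ∀ i j, i ≠ j → Disjoint (W i) (W j)) (hQ : Local W Q) (hκ : 1 < κ)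
    (hlo : ∀ δ : ℝ, 0 < δ → ∀ᶠ k : ℕ in atTop, ∀ n ∈ block k,
      Real.exp (-((κ + δ) * (k * Real.log 2))) ≤ PP p (W n) (fun T => Q n ((T : Finset ℕ) : Set ℕ)))
    {d : ℕ → ℝ} {M : ℕ → ℕ} (hd : ∀ k, 0 ≤ d k) (hM : ∀ k, 1 ≤ M k ∧ M k ≤ 2 ^ k)
    (hs : ¬ Summable (fun k : ℕ => d k / (k * M k))) : Often p W d M Q := by
  have hl2 : 0 < Real.log 2 := Real.log_pos (by norm_num)
  obtain ⟨b, hb⟩ : ∃ b, b = 2 * (κ * Real.log 2) := ⟨_, rfl⟩
  have hb0 : 0 < b := by rw [hb]; positivity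
  obtain ⟨q, hq⟩ : ∃ q : ℕ → ℝ, q = fun k : ℕ => min 1 (d k / (b * (k * M k))) := ⟨_, rfl⟩
  have hr : ∀ k : ℕ, 0 ≤ d k / (b * (k * M k)) := fun k => by have := hd k; positivity
  have hq0 : ∀ k, 0 ≤ q k := fun k => by rw [hq]; exact le_min zero_le_one (hr k)
  have hq1 : ∀ k, q k ≤ 1 := fun k => by rw [hq]; exact min_le_left _ _
  obtain ⟨Ω, mΩ, μ, hμ, A, hA, hA2, hA3⟩ := crit_lo hp hW hQ hκ hlo (show (0 : ℝ) < 1 by norm_num) hM (fun k => ⟨hq0 k, hq1 k⟩)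
  refine ⟨Ω, mΩ, μ, hμ, A, ⟨hA.rand, hA.supp, ?_⟩, ?_⟩
  · filter_upwards [hA.ent, eventually_ge_atTop 1] with k hk hk1
    refine hk.trans ?_
    have hM0 : (0 : ℝ) < M k := by exact_mod_cast (hM k).1
    have hk0 : (0 : ℝ) < k := by exact_mod_cast hk1
    have h1 : q k ≤ d k / (b * (k * M k)) := by rw [hq]; exact min_le_right _ _
    have h2 : V κ k (M k) ≤ κ * Real.log 2 * (k * M k) := V_le (hM k).1 (hM k).2
    have h3 : 0 ≤ κ * Real.log 2 * (k * M k) := by positivity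
    calc (1 + 1) * (q k * V κ k (M k)) ≤ (1 + 1) * (q k * (κ * Real.log 2 * (k * M k))) := by
          have := mul_le_mul_of_nonneg_left h2 (hq0 k)
          linarith
      _ ≤ (1 + 1) * (d k / (b * (k * M k)) * (κ * Real.log 2 * (k * M k))) := by
          have := mul_le_mul_of_nonneg_right h1 h3
          linarith
      _ = d k := by
          rw [hb]
          field_simp
          ring
  · apply hA3
    rw [hq]
    apply not_summable_min
    intro hcon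
    apply hs
    have h1 := hcon.mul_left b
    refine h1.congr (fun k => ?_)
    rcases eq_or_ne ((k : ℝ) * M k) 0 with h0 | h0
    · rw [h0]; simp
    · field_simp

/-- Everything about the windows at the critical scale. -/
theorem crit_all (hp : ∀ n, 0 ≤ p n ∧ p n ≤ 1) (hW : ∀ i j, i ≠ j → Disjoint (W i) (W j))
    (hhalf : ∀ᶠ k : ℕ in atTop, ∀ x ∈ un W k, p x ≤ 1 / 2) (hQ : Local W Q) (hQ' : Local W Q') (hκ : 1 < κ)
    (hup : ∀ δ : ℝ, 0 < δ → ∀ᶠ k : ℕ in atTop, ∀ n ∈ block k,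
      PP p (W n) (fun T => Q n ((T : Finset ℕ) : Set ℕ)) ≤ Real.exp (-((κ - δ) * (k * Real.log 2))))
    (hlo : ∀ δ : ℝ, 0 < δ → ∀ᶠ k : ℕ in atTop, ∀ n ∈ block k,
      Real.exp (-((κ + δ) * (k * Real.log 2))) ≤ PP p (W n) (fun T => Q' n ((T : Finset ℕ) : Set ℕ)))
    (hQQ : ∀ n S, Q' n S → Q n S) : CritUp p W Q κ ∧ CritLo p W Q' κ ∧ CritPhase p W Q Q' := by
  refine ⟨crit_up hp hW hhalf hQ hκ hup, ?_, ?_⟩
  · intro ε hε M q hM hq
    obtain ⟨Ω, mΩ, μ, hμ, A, h1, h2, _⟩ := crit_lo hp hW hQ' hκ hlo hε hM hq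
    exact ⟨Ω, mΩ, μ, hμ, A, h1, h2⟩
  · intro d M hd hM
    refine ⟨⟨crit_few hp hW hhalf hQ hκ hup hM, fun hf => ?_⟩, crit_often hp hW hQ' hκ hlo hd hM⟩
    by_contra hs
    exact not_few (crit_often hp hW hQ' hκ hlo hd hM hs) (Eventually.of_forall hQQ) hf

end

end Pool.Agent.Q197.WN
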