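import Pool.Agent.Q197.WN.CritW
import Pool.Agent.Q120.PT.Basic

/-!
# Windows at the critical scale in the model of Cramer
-/

set_option autoImplicit false

namespace Pool.Agent.Q197.WN

open Finset MeasureTheory Filter Pool.Agent.Q120.ET
open scoped Topology

/-- The probabilities of Cramer's model. -/
noncomputable def cr (x : ℕ) : ℝ := if 3 ≤ x then 1 / Real.log x else 0

theorem cr_ok (x : ℕ) : 0 ≤ cr x ∧ cr x ≤ 1 := by
  unfold cr
  split_ifs with h
  · have h1 : (1 : ℝ) < Real.log x := by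
      have h2 : (3 : ℝ) ≤ x := by exact_mod_cast h
      rw [Real.lt_log_iff_exp_lt (by linarith)]
      linarith [Real.exp_one_lt_d9]
    constructor
    · positivity
    · rw [div_le_one (by linarith)]
      exact h1.le
  · exact ⟨le_rfl, zero_le_one⟩

/-- The expected number of elements of a window. -/
theorem mean_cr {W : ℕ → Finset ℕ} {X G E : ℕ → ℝ} (hX : Tendsto X atTop atTop)
    (hW : ∀ᶠ n : ℕ in atTop, ∀ x ∈ W n, X n ≤ x ∧ (x : ℝ) ≤ 2 * X n)
    (hc : Tendsto (fun n => ((W n).card : ℝ) / (E n * G n)) atTop (𝓝 1)) (hG : Tendsto (fun n => Real.log (X n) / G n) atTop (𝓝 1))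
    (hE : ∀ᶠ n : ℕ in atTop, 0 < E n) {δ : ℝ} (hδ : 0 < δ) : ∀ᶠ n : ℕ in atTop, |∑ x ∈ W n, cr x - E n| ≤ δ * E n := by
  have hlX : Tendsto (fun n => Real.log (X n)) atTop atTop := Real.tendsto_log_atTop.comp hX
  have h2X : Tendsto (fun n => Real.log (2 * X n) / Real.log (X n)) atTop (𝓝 1) := by
    have h1 : Tendsto (fun n => 1 + Real.log 2 * (Real.log (X n))⁻¹) atTop (𝓝 (1 + Real.log 2 * 0)) :=
      tendsto_const_nhds.add (tendsto_const_nhds.mul (tendsto_inv_atTop_zero.comp hlX))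
    rw [mul_zero, add_zero] at h1
    refine h1.congr' ?_
    filter_upwards [hX.eventually_gt_atTop 1, hlX.eventually_gt_atTop 0] with n hn hn2
    rw [Real.log_mul (by norm_num) (by linarith)]
    field_simp
    ring
  have hup : Tendsto (fun n => ((W n).card : ℝ) / Real.log (X n) / E n) atTop (𝓝 1) := by
    have h1 := hc.div hG one_ne_zero
    rw [div_one] at h1
    refine h1.congr' ?_
    filter_upwards [hlX.eventually_gt_atTop 0, hE, hG.eventually (Ioi_mem_nhds (show (0 : ℝ) < 1 by norm_num))] with n h2 h3 h4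
    have h5 : G n ≠ 0 := by
      intro h0
      have h6 : (0 : ℝ) < Real.log (X n) / G n := h4
      rw [h0, div_zero] at h6
      exact lt_irrefl _ h6
    show ((W n).card : ℝ) / (E n * G n) / (Real.log (X n) / G n) = _
    field_simp
  have hlo : Tendsto (fun n => ((W n).card : ℝ) / Real.log (2 * X n) / E n) atTop (𝓝 1) := by
    have h1 := hup.div h2X one_ne_zero
    rw [div_one] at h1
    refine h1.congr' ?_
    filter_upwards [hlX.eventually_gt_atTop 0, hX.eventually_gt_atTop 1] with n h2 h3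
    have h4 : 0 < Real.log (2 * X n) := Real.log_pos (by linarith)
    show ((W n).card : ℝ) / Real.log (X n) / E n / (Real.log (2 * X n) / Real.log (X n)) = _
    field_simp
  filter_upwards [hup.eventually (Iic_mem_nhds (show (1 : ℝ) < 1 + δ by linarith)), hlo.eventually (Ici_mem_nhds (show 1 - δ < (1 : ℝ) by linarith)),
    hW, hE, hX.eventually_ge_atTop 3] with n h1 h2 h3 h4 h5
  have h1' : ((W n).card : ℝ) / Real.log (X n) / E n ≤ 1 + δ := h1
  have h2' : 1 - δ ≤ ((W n).card : ℝ) / Real.log (2 * X n) / E n := h2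
  rw [div_le_iff₀ h4] at h1'
  rw [le_div_iff₀ h4] at h2'
  have hlog : 0 < Real.log (X n) := Real.log_pos (by linarith)
  have hlog2 : 0 < Real.log (2 * X n) := Real.log_pos (by linarith)
  have hcr : ∀ x ∈ W n, 1 / Real.log (2 * X n) ≤ cr x ∧ cr x ≤ 1 / Real.log (X n) := by
    intro x hx
    obtain ⟨h6, h7⟩ := h3 x hx
    have h8 : 3 ≤ x := by
      have : (3 : ℝ) ≤ x := by linarith
      exact_mod_cast this
    unfold cr
    rw [if_pos h8]
    have h9 : (0 : ℝ) < x := by linarith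
    constructor
    · exact one_div_le_one_div_of_le (Real.log_pos (by linarith)) (Real.log_le_log h9 h7)
    · exact one_div_le_one_div_of_le hlog (Real.log_le_log (by linarith) h6)
  have hs1 : ∑ x ∈ W n, cr x ≤ ((W n).card : ℝ) / Real.log (X n) := by
    have h6 := sum_le_card_nsmul (W n) cr (1 / Real.log (X n)) (fun x hx => (hcr x hx).2)
    rw [nsmul_eq_mul, mul_one_div] at h6
    exact h6
  have hs2 : ((W n).card : ℝ) / Real.log (2 * X n) ≤ ∑ x ∈ W n, cr x := by
    have h6 := card_nsmul_le_sum (W n) cr (1 / Real.log (2 * X n)) (fun x hx => (hcr x hx).1)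
    rw [nsmul_eq_mul, mul_one_div] at h6
    exact h6
  rw [abs_le]
  constructor <;> linarith

theorem small_cr {W : ℕ → Finset ℕ} {X : ℕ → ℝ} (hX : Tendsto X atTop atTop)
    (hW : ∀ᶠ n : ℕ in atTop, ∀ x ∈ W n, X n ≤ x ∧ (x : ℝ) ≤ 2 * X n) {δ : ℝ} (hδ : 0 < δ) :
    ∀ᶠ n : ℕ in atTop, ∀ x ∈ W n, cr x ≤ δ := by
  have hlX : Tendsto (fun n => Real.log (X n)) atTop atTop := Real.tendsto_log_atTop.comp hX
  filter_upwards [hW, hlX.eventually_ge_atTop (1 / δ), hX.eventually_ge_atTop 3] with n h1 h2 h3 x hx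
  obtain ⟨h4, _⟩ := h1 x hx
  unfold cr
  split_ifs
  · have h5 : 1 / δ ≤ Real.log x := h2.trans (Real.log_le_log (by linarith) h4)
    rw [div_le_iff₀ (lt_of_lt_of_le (by positivity) h5)]
    rw [div_le_iff₀ hδ] at h5
    linarith
  · exact hδ.le

/-- Windows at the critical scale in Cramer's model. -/
theorem crit_cr {W : ℕ → Finset ℕ} {X G : ℕ → ℝ} {l : ℝ} {n0 : ℕ} (hl : 0 < l)
    (hd : ∀ i j, n0 ≤ i → n0 ≤ j → i ≠ j → Disjoint (W i) (W j)) (hX : Tendsto X atTop atTop)
    (hW : ∀ᶠ n : ℕ in atTop, ∀ x ∈ W n, X n ≤ x ∧ (x : ℝ) ≤ 2 * X n)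
    (hc : Tendsto (fun n : ℕ => ((W n).card : ℝ) / (l * Real.log n * G n)) atTop (𝓝 1))
    (hG : Tendsto (fun n => Real.log (X n) / G n) atTop (𝓝 1)) :
    (∀ θ : ℝ, 0 ≤ θ → θ < 1 → 1 < l * rate θ → ∀ ε : ℝ, 0 < ε →
      Crit cr W (fun n S => (els (W n) S : ℝ) ≤ θ * (l * Real.log n))
        (fun n S => (θ - ε) * (l * Real.log n) ≤ els (W n) S ∧ (els (W n) S : ℝ) ≤ θ * (l * Real.log n)) (l * rate θ)) ∧
    (∀ θ : ℝ, 1 < θ → 1 < l * rate θ → ∀ ε : ℝ, 0 < ε →
      Crit cr W (fun n S => θ * (l * Real.log n) ≤ (els (W n) S : ℝ))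
        (fun n S => θ * (l * Real.log n) ≤ els (W n) S ∧ (els (W n) S : ℝ) ≤ (θ + ε) * (l * Real.log n)) (l * rate θ)) := by
  have hE : ∀ᶠ n : ℕ in atTop, 0 < l * Real.log n := by
    filter_upwards [log_tend.eventually_gt_atTop 0] with n hn
    have hn' : 0 < Real.log (n : ℝ) := hn
    positivity
  refine crit_els (E := fun n : ℕ => l * Real.log n) cr_ok hd hl (fun δ hδ => small_cr hX hW hδ)
    (fun δ hδ => mean_cr hX hW hc hG hE hδ) ?_
  refine tendsto_const_nhds.congr' ?_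
  filter_upwards [log_tend.eventually_gt_atTop 0] with n hn
  have hn' : Real.log (n : ℝ) ≠ 0 := ne_of_gt hn
  show l = l * Real.log n / Real.log n
  field_simp

end Pool.Agent.Q197.WN
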