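import Pool.Agent.Q197.WN.Crit

/-!
# Elements in windows at the critical scale
-/

set_option autoImplicit false

namespace Pool.Agent.Q197.WN

open Finset MeasureTheory Filter Pool.Agent.Q120.TT Pool.Agent.Q120.ET Pool.Agent.Q120.GM
open scoped Topology

section

variable {p : ℕ → ℝ} {W W' : ℕ → Finset ℕ} {Q Q' R R' : ℕ → Set ℕ → Prop} {κ : ℝ}

theorem near_congr (h : ∀ᶠ k : ℕ in atTop, un W k = un W' k) {d : ℕ → ℝ} {Ω : Type} [MeasurableSpace Ω] {μ : Measure Ω}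
    {A : Ω → Set ℕ} (hA : Near p (un W) d μ A) : Near p (un W') d μ A := by
  refine ⟨hA.rand, hA.supp, ?_⟩
  filter_upwards [hA.ent, h] with k hk hk2
  rw [← hk2]
  exact hk

theorem CritUp.congr (hW : ∀ᶠ k : ℕ in atTop, un W k = un W' k) (hQ : ∀ᶠ k : ℕ in atTop, ∀ S, exc Q k S = exc R k S)
    (h : CritUp p W Q κ) : CritUp p W' R κ := by
  intro ε hε hε1 Ω _ μ _ A hA hs
  filter_upwards [h ε hε hε1 Ω μ A hA hs, hW, hQ] with k hk h1 h2 M hM1 hM
  have h3 := hk M hM1 hM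
  simp only [h2] at h3
  rw [← h1]
  exact h3

theorem CritLo.congr (hW : ∀ᶠ k : ℕ in atTop, un W k = un W' k) (hQ : ∀ᶠ k : ℕ in atTop, ∀ S, exc Q k S = exc R k S)
    (h : CritLo p W Q κ) : CritLo p W' R κ := by
  intro ε hε M q hM hq
  obtain ⟨Ω, mΩ, μ, hμ, A, h1, h2⟩ := h ε hε M q hM hq
  refine ⟨Ω, mΩ, μ, hμ, A, near_congr hW h1, ?_⟩
  filter_upwards [h2, hQ] with k hk h3
  simp only [h3] at hk
  exact hk

theorem CritPhase.congr (hW : ∀ᶠ k : ℕ in atTop, un W k = un W' k) (hQ : ∀ᶠ k : ℕ in atTop, ∀ S, exc Q k S = exc R k S)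
    (hQ' : ∀ᶠ k : ℕ in atTop, ∀ S, exc Q' k S = exc R' k S) (h : CritPhase p W Q Q') : CritPhase p W' R R' := by
  intro d M hd hM
  obtain ⟨h1, h2⟩ := h d M hd hM
  refine ⟨h1.trans ⟨fun hf Ω _ μ _ A hA => ?_, fun hf Ω _ μ _ A hA => ?_⟩, fun hs => ?_⟩
  · filter_upwards [hf Ω μ A (near_congr (hW.mono fun _ h => h.symm) hA)] with ω hω
    filter_upwards [hω, hQ] with k hk h3
    rw [← h3]
    exact hk
  · filter_upwards [hf Ω μ A (near_congr hW hA)] with ω hω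
    filter_upwards [hω, hQ] with k hk h3
    rw [h3]
    exact hk
  · obtain ⟨Ω, mΩ, μ, hμ, A, h3, h4⟩ := h2 hs
    refine ⟨Ω, mΩ, μ, hμ, A, near_congr hW h3, ?_⟩
    filter_upwards [h4] with ω hω
    refine (hω.and_eventually hQ').mono (fun k hk => ?_)
    rw [← hk.2]
    exact hk.1

end

/-- Statements on both sides. -/
def Crit (p : ℕ → ℝ) (W : ℕ → Finset ℕ) (Q Q' : ℕ → Set ℕ → Prop) (κ : ℝ) : Prop :=
  CritUp p W Q κ ∧ CritLo p W Q' κ ∧ CritPhase p W Q Q'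

section

variable {p : ℕ → ℝ} {W : ℕ → Finset ℕ} {E : ℕ → ℝ} {l : ℝ}

theorem local_els (R : ℕ → ℕ → Prop) : Local W (fun n S => R n (els (W n) S)) := by
  classical
  intro n S S' h
  have : els (W n) S = els (W n) S' := by
    unfold els
    exact congrArg card (filter_congr (fun x hx => h x hx))
  simp only [this]

theorem rate_block_up (hl : 0 < l) (hE : Tendsto (fun n : ℕ => E n / Real.log n) atTop (𝓝 l)) {P : ℕ → ℝ} {r : ℝ} (hr : 0 < r)
    (hP : ∀ δ : ℝ, 0 < δ → ∀ᶠ n : ℕ in atTop, P n ≤ Real.exp (-((r - δ) * E n))) {δ : ℝ} (hδ : 0 < δ) :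
    ∀ᶠ k : ℕ in atTop, ∀ n ∈ block k, P n ≤ Real.exp (-((l * r - δ) * (k * Real.log 2))) := by
  have hl2 : 0 < Real.log 2 := Real.log_pos (by norm_num)
  have hcont : Tendsto (fun τ : ℝ => (r - τ) * (l - τ)) (𝓝 0) (𝓝 (l * r)) := by
    have h1 : ContinuousAt (fun τ : ℝ => (r - τ) * (l - τ)) 0 := by fun_prop
    have h2 := h1.tendsto
    simp only [sub_zero] at h2
    rwa [mul_comm r l] at h2
  have e1 := hcont.eventually (Ioi_mem_nhds (show l * r - δ < l * r by linarith))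
  have e2 : ∀ᶠ τ : ℝ in 𝓝 0, τ < r := Iio_mem_nhds hr
  have e3 : ∀ᶠ τ : ℝ in 𝓝 0, τ < l := Iio_mem_nhds hl
  obtain ⟨τ, ⟨h1, h2, h3⟩, hτ0⟩ := (((e1.and (e2.and e3)).filter_mono nhdsWithin_le_nhds).and
      (self_mem_nhdsWithin (s := Set.Ioi (0 : ℝ)))).exists
  have hτ : 0 < τ := hτ0
  have h1' : l * r - δ < (r - τ) * (l - τ) := h1
  have hEl : ∀ᶠ n : ℕ in atTop, (l - τ) * Real.log n ≤ E n := by
    filter_upwards [hE.eventually (Ioi_mem_nhds (show l - τ < l by linarith)), log_tend.eventually_gt_atTop 0] with n hn hlog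
    have hn' : l - τ < E n / Real.log n := hn
    rw [lt_div_iff₀ hlog] at hn'
    exact hn'.le
  filter_upwards [ev_block (hP τ hτ), ev_block hEl] with k hk1 hk2 n hn
  refine (hk1 n hn).trans (Real.exp_le_exp.2 ?_)
  have hn2 : 2 ^ k ≤ n := by
    unfold block at hn
    exact (mem_Ico.1 hn).1
  have h4 : k * Real.log 2 ≤ Real.log n := by
    rw [← Real.log_pow]
    apply Real.log_le_log (by positivity)
    exact_mod_cast hn2
  have h5 : (l - τ) * (k * Real.log 2) ≤ E n := le_trans (mul_le_mul_of_nonneg_left h4 (by linarith)) (hk2 n hn)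
  have h6 : (l * r - δ) * (k * Real.log 2) ≤ (r - τ) * (l - τ) * (k * Real.log 2) :=
    mul_le_mul_of_nonneg_right h1'.le (by positivity)
  have h7 : (r - τ) * ((l - τ) * (k * Real.log 2)) ≤ (r - τ) * E n := mul_le_mul_of_nonneg_left h5 (by linarith)
  linarith

theorem rate_block_lo (hl : 0 < l) (hE : Tendsto (fun n : ℕ => E n / Real.log n) atTop (𝓝 l)) {P : ℕ → ℝ} {r : ℝ} (hr : 0 < r)
    (hP : ∀ δ : ℝ, 0 < δ → ∀ᶠ n : ℕ in atTop, Real.exp (-((r + δ) * E n)) ≤ P n) {δ : ℝ} (hδ : 0 < δ) :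
    ∀ᶠ k : ℕ in atTop, ∀ n ∈ block k, Real.exp (-((l * r + δ) * (k * Real.log 2))) ≤ P n := by
  have hl2 : 0 < Real.log 2 := Real.log_pos (by norm_num)
  have hcont : Tendsto (fun τ : ℝ => (r + τ) * ((l + τ) * (1 + τ))) (𝓝 0) (𝓝 (l * r)) := by
    have h1 : ContinuousAt (fun τ : ℝ => (r + τ) * ((l + τ) * (1 + τ))) 0 := by fun_prop
    have h2 := h1.tendsto
    simp only [add_zero, mul_one] at h2
    rwa [mul_comm r l] at h2
  have e1 := hcont.eventually (Iio_mem_nhds (show l * r < l * r + δ by linarith))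
  obtain ⟨τ, h1, hτ0⟩ := ((e1.filter_mono nhdsWithin_le_nhds).and
      (self_mem_nhdsWithin (s := Set.Ioi (0 : ℝ)))).exists
  have hτ : 0 < τ := hτ0
  have h1' : (r + τ) * ((l + τ) * (1 + τ)) < l * r + δ := h1
  have hEl : ∀ᶠ n : ℕ in atTop, E n ≤ (l + τ) * Real.log n := by
    filter_upwards [hE.eventually (Iio_mem_nhds (show l < l + τ by linarith)), log_tend.eventually_gt_atTop 0] with n hn hlog
    have hn' : E n / Real.log n < l + τ := hn
    rw [div_lt_iff₀ hlog] at hn'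
    exact hn'.le
  have hk1 : ∀ᶠ k : ℕ in atTop, ((k : ℝ) + 1) * Real.log 2 ≤ (1 + τ) * (k * Real.log 2) := by
    filter_upwards [(tendsto_natCast_atTop_atTop (R := ℝ)).eventually_ge_atTop (1 / τ)] with k hk
    rw [div_le_iff₀ hτ] at hk
    nlinarith
  filter_upwards [ev_block (hP τ hτ), ev_block hEl, hk1] with k hk1 hk2 hk3 n hn
  refine le_trans (Real.exp_le_exp.2 ?_) (hk1 n hn)
  unfold block at hn
  have hn2 : n < 2 ^ (k + 1) := (mem_Ico.1 hn).2
  have hn3 : 2 ^ k ≤ n := (mem_Ico.1 hn).1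
  have hn4 : 0 < n := lt_of_lt_of_le (by positivity) hn3
  have h4 : Real.log n ≤ ((k : ℝ) + 1) * Real.log 2 := by
    have h8 : ((k : ℝ) + 1) * Real.log 2 = Real.log ((2 : ℝ) ^ (k + 1)) := by
      rw [Real.log_pow]
      push_cast
      ring
    rw [h8]
    apply Real.log_le_log (by exact_mod_cast hn4)
    exact_mod_cast hn2.le
  have h5 : E n ≤ (l + τ) * ((1 + τ) * (k * Real.log 2)) :=
    (hk2 n hn).trans (mul_le_mul_of_nonneg_left (h4.trans hk3) (by linarith))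
  have h6 : (r + τ) * E n ≤ (r + τ) * ((l + τ) * ((1 + τ) * (k * Real.log 2))) := mul_le_mul_of_nonneg_left h5 (by linarith)
  have h7 : (r + τ) * ((l + τ) * (1 + τ)) * (k * Real.log 2) ≤ (l * r + δ) * (k * Real.log 2) :=
    mul_le_mul_of_nonneg_right h1'.le (by positivity)
  linarith

/-- The numbers of elements in windows at the critical scale. -/
theorem crit_els (hp : ∀ n, 0 ≤ p n ∧ p n ≤ 1) {n0 : ℕ} (hW : ∀ i j, n0 ≤ i → n0 ≤ j → i ≠ j → Disjoint (W i) (W j)) (hl : 0 < l)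
    (hsm : ∀ δ : ℝ, 0 < δ → ∀ᶠ n : ℕ in atTop, ∀ x ∈ W n, p x ≤ δ)
    (hm : ∀ δ : ℝ, 0 < δ → ∀ᶠ n : ℕ in atTop, |∑ x ∈ W n, p x - E n| ≤ δ * E n)
    (hE : Tendsto (fun n : ℕ => E n / Real.log n) atTop (𝓝 l)) :
    (∀ θ : ℝ, 0 ≤ θ → θ < 1 → 1 < l * rate θ → ∀ ε : ℝ, 0 < ε →
      Crit p W (fun n S => (els (W n) S : ℝ) ≤ θ * E n)
        (fun n S => (θ - ε) * E n ≤ els (W n) S ∧ (els (W n) S : ℝ) ≤ θ * E n) (l * rate θ)) ∧
    (∀ θ : ℝ, 1 < θ → 1 < l * rate θ → ∀ ε : ℝ, 0 < ε →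
      Crit p W (fun n S => θ * E n ≤ (els (W n) S : ℝ))
        (fun n S => θ * E n ≤ els (W n) S ∧ (els (W n) S : ℝ) ≤ (θ + ε) * E n) (l * rate θ)) := by
  classical
  have hEt : Tendsto E atTop atTop := by
    have h1 : Tendsto (fun n : ℕ => E n / Real.log n * Real.log n) atTop atTop := hE.pos_mul_atTop hl log_tend
    refine h1.congr' ?_
    filter_upwards [log_tend.eventually_gt_atTop 0] with n hn
    have hn' : Real.log (n : ℝ) ≠ 0 := ne_of_gt hn
    field_simp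
  have hlap := lap_gen hp hsm hm (hEt.eventually_ge_atTop 0)
  obtain ⟨W', hW'⟩ : ∃ W' : ℕ → Finset ℕ, W' = fun n => if n0 ≤ n then W n else ∅ := ⟨_, rfl⟩
  have hWn : ∀ n, n0 ≤ n → W' n = W n := fun n hn => by rw [hW']; exact if_pos hn
  have hWd : ∀ i j, i ≠ j → Disjoint (W' i) (W' j) := by
    intro i j hij
    rw [hW']
    simp only
    split_ifs with h1 h2
    · exact hW i j h1 h2 hij
    · exact disjoint_empty_right _
    · exact disjoint_empty_left _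
    · exact disjoint_empty_left _
  have hblk : ∀ᶠ k : ℕ in atTop, ∀ n ∈ block k, n0 ≤ n := ev_block (eventually_ge_atTop n0)
  have hun : ∀ᶠ k : ℕ in atTop, un W' k = un W k := by
    filter_upwards [hblk] with k hk
    unfold un
    exact biUnion_congr rfl (fun n hn => hWn n (hk n hn))
  have hhalf : ∀ᶠ k : ℕ in atTop, ∀ x ∈ un W' k, p x ≤ 1 / 2 := by
    filter_upwards [hun, ev_block (hsm (1 / 2) (by norm_num))] with k hk hk2 x hx
    rw [hk] at hx
    unfold un at hx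
    obtain ⟨n, hn, hx⟩ := mem_biUnion.1 hx
    exact hk2 n hn x hx
  have key : ∀ (R R' : ℕ → ℕ → Prop) (r : ℝ), 0 < r → 1 < l * r →
      (∀ δ : ℝ, 0 < δ → ∀ᶠ n : ℕ in atTop, PP p (W n) (fun T => R n (els (W n) ((T : Finset ℕ) : Set ℕ))) ≤
        Real.exp (-((r - δ) * E n))) →
      (∀ δ : ℝ, 0 < δ → ∀ᶠ n : ℕ in atTop, Real.exp (-((r + δ) * E n)) ≤
        PP p (W n) (fun T => R' n (els (W n) ((T : Finset ℕ) : Set ℕ)))) →
      (∀ n m, R' n m → R n m) → Crit p W (fun n S => R n (els (W n) S)) (fun n S => R' n (els (W n) S)) (l * r) := by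
    intro R R' r hr hlr h1 h2 h3
    have hb1 : ∀ δ : ℝ, 0 < δ → ∀ᶠ k : ℕ in atTop, ∀ n ∈ block k,
        PP p (W' n) (fun T => R n (els (W' n) ((T : Finset ℕ) : Set ℕ))) ≤ Real.exp (-((l * r - δ) * (k * Real.log 2))) := by
      intro δ hδ
      filter_upwards [rate_block_up hl hE hr h1 hδ, hblk] with k hk hk2 n hn
      rw [hWn n (hk2 n hn)]
      exact hk n hn
    have hb2 : ∀ δ : ℝ, 0 < δ → ∀ᶠ k : ℕ in atTop, ∀ n ∈ block k, Real.exp (-((l * r + δ) * (k * Real.log 2))) ≤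
        PP p (W' n) (fun T => R' n (els (W' n) ((T : Finset ℕ) : Set ℕ))) := by
      intro δ hδ
      filter_upwards [rate_block_lo hl hE hr h2 hδ, hblk] with k hk hk2 n hn
      rw [hWn n (hk2 n hn)]
      exact hk n hn
    obtain ⟨c1, c2, c3⟩ := crit_all (Q := fun n S => R n (els (W' n) S)) (Q' := fun n S => R' n (els (W' n) S)) hp hWd hhalf
      (local_els R) (local_els R') hlr hb1 hb2 (fun n S h => h3 _ _ h)
    have hexc : ∀ X : ℕ → ℕ → Prop, ∀ᶠ k : ℕ in atTop, ∀ S, exc (fun n S => X n (els (W' n) S)) k S = exc (fun n S => X n (els (W n) S)) k S := by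
      intro X
      filter_upwards [hblk] with k hk S
      unfold exc
      refine congrArg card (filter_congr (fun n hn => ?_))
      show X n (els (W' n) S) ↔ X n (els (W n) S)
      rw [hWn n (hk n hn)]
    exact ⟨c1.congr hun (hexc R), c2.congr hun (hexc R'), c3.congr hun (hexc R) (hexc R')⟩
  constructor
  · intro θ h0 h1 hlr ε hε
    exact key (fun n m => (m : ℝ) ≤ θ * E n) (fun n m => (θ - ε) * E n ≤ m ∧ (m : ℝ) ≤ θ * E n) (rate θ) (rate_pos h0 h1.ne) hlr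
      (fun δ hδ => low_up hlap hp h0 h1.le hδ) (fun δ hδ => low_lo hlap hp hEt h0 hε hδ) (fun n m h => h.2)
  · intro θ h1 hlr ε hε
    exact key (fun n m => θ * E n ≤ (m : ℝ)) (fun n m => θ * E n ≤ m ∧ (m : ℝ) ≤ (θ + ε) * E n) (rate θ)
      (rate_pos (by linarith) h1.ne') hlr
      (fun δ hδ => high_up hlap hp h1.le hδ) (fun δ hδ => high_lo hlap hp hEt h1.le hε hδ) (fun n m h => h.1)

end

end Pool.Agent.Q197.WN
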