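import Pool.Agent.Q197.WN.Exact

/-!
# The price of an arbitrary event of the blocks
-/

set_option autoImplicit false

namespace Pool.Agent.Q197.WN

open Finset MeasureTheory Filter Pool.Agent.Q120.TT Pool.Agent.Q120.ET Pool.Agent.Q120.GM
open scoped Topology

theorem PP_not {p : ℕ → ℝ} {B : Finset ℕ} {F : Finset ℕ → Prop} :
    PP p B (fun T => ¬ F T) = 1 - PP p B F := by
  classical
  have h1 : ∑ T ∈ B.powerset, prodOn p B T = 1 := Pool.Agent.Q111.TT.sum_prodOn p B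
  have h2 := sum_filter_add_sum_filter_not B.powerset F (fun T => prodOn p B T)
  have h3 : PP p B F = ∑ T ∈ B.powerset with F T, prodOn p B T := by
    unfold PP
    exact sum_congr (by ext T; simp only [mem_filter]) (fun _ _ => rfl)
  have h4 : PP p B (fun T => ¬ F T) = ∑ T ∈ B.powerset with ¬ F T, prodOn p B T := by
    unfold PP
    exact sum_congr (by ext T; simp only [mem_filter]) (fun _ _ => rfl)
  rw [h3, h4]
  linarith

/-- Some window is bad. -/
theorem PP_any {p : ℕ → ℝ} (W : ℕ → Finset ℕ) (I : Finset ℕ) (hW : ∀ i ∈ I, ∀ j ∈ I, i ≠ j → Disjoint (W i) (W j))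
    (Q : ℕ → Finset ℕ → Prop) :
    PP p (I.biUnion W) (fun T => ∃ i ∈ I, Q i (T ∩ W i)) = 1 - ∏ i ∈ I, (1 - PP p (W i) (Q i)) := by
  have h1 := PP_biUnion (p := p) W I hW (fun i T => ¬ Q i T)
  have h2 := PP_not (p := p) (B := I.biUnion W) (F := fun T => ∃ i ∈ I, Q i (T ∩ W i))
  have h3 : PP p (I.biUnion W) (fun T => ¬ ∃ i ∈ I, Q i (T ∩ W i)) = PP p (I.biUnion W) (fun T => ∀ i ∈ I, ¬ Q i (T ∩ W i)) :=
    PP_congr (fun T _ => by push Not; rfl)
  rw [h3, h1] at h2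
  have h4 : ∏ i ∈ I, PP p (W i) (fun T => ¬ Q i T) = ∏ i ∈ I, (1 - PP p (W i) (Q i)) :=
    prod_congr rfl (fun i _ => PP_not)
  rw [h4] at h2
  linarith

theorem PP_any_ge {p : ℕ → ℝ} (hp : ∀ n, 0 ≤ p n ∧ p n ≤ 1) (W : ℕ → Finset ℕ) (I : Finset ℕ)
    (hW : ∀ i ∈ I, ∀ j ∈ I, i ≠ j → Disjoint (W i) (W j)) (Q : ℕ → Finset ℕ → Prop) {q : ℝ} (hq : 0 ≤ q)
    (hQ : ∀ i ∈ I, q ≤ PP p (W i) (Q i)) (h1 : q * I.card ≤ 1) :
    q * I.card / 2 ≤ PP p (I.biUnion W) (fun T => ∃ i ∈ I, Q i (T ∩ W i)) := by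
  rw [PP_any W I hW Q]
  have h2 : ∏ i ∈ I, (1 - PP p (W i) (Q i)) ≤ Real.exp (-(q * I.card)) := by
    have h3 : Real.exp (-(q * I.card)) = ∏ i ∈ I, Real.exp (-q) := by
      rw [prod_const, ← Real.exp_nat_mul]
      ring_nf
    rw [h3]
    refine prod_le_prod (fun i _ => by linarith [PP_le_one (p := p) (B := W i) (F := Q i) hp]) (fun i hi => ?_)
    have := Real.add_one_le_exp (-q)
    linarith [hQ i hi]
  have h0 : 0 ≤ q * I.card := mul_nonneg hq (Nat.cast_nonneg _)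
  obtain ⟨x, hx⟩ : ∃ x, x = q * I.card := ⟨_, rfl⟩
  rw [← hx] at h0 h1 h2 ⊢
  have h4 : Real.exp (-x) ≤ 1 - x / 2 := by
    have h5 := Real.add_one_le_exp x
    have h6 : Real.exp (-x) * Real.exp x = 1 := by rw [← Real.exp_add]; simp
    have h7 := Real.exp_pos (-x)
    have h8 : Real.exp (-x) ≤ 1 / (1 + x) := by
      rw [le_div_iff₀ (by linarith)]
      nlinarith
    refine h8.trans ?_
    rw [div_le_iff₀ (by linarith)]
    nlinarith
  linarith

/-- Every event which is unlikely in the model is unlikely for every random set of small entropy. -/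
theorem event_up {p : ℕ → ℝ} (hp : ∀ n, 0 ≤ p n ∧ p n ≤ 1) {B : Finset ℕ} (hB : ∀ n ∈ B, p n ≤ 1 / 2)
    {F : Finset ℕ → Prop} {v : ℝ} (hF : PP p B F ≤ Real.exp (-v)) {Ω : Type} [MeasurableSpace Ω] {μ : Measure Ω}
    [IsProbabilityMeasure μ] {A : Ω → Set ℕ} (hA : IsRandomSet A) (hs : ∀ᵐ ω ∂μ, ∀ n ∈ A ω, 0 < p n) (u : ℝ) :
    u * μ.real {ω | F (tr A B ω)} ≤ Real.exp (u - v) + relEnt p μ A B := by
  classical
  have h1 := Pool.Agent.Q111.TT.entropy_gen (p := p) (B := B) (fun n _ => hp n) (law_ok (μ := μ) hA hs hB) F u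
  have h2 := real_event (μ := μ) hA B F
  have h3 : PP p B F = ∑ T ∈ B.powerset with F T, prodOn p B T := by
    unfold PP
    exact sum_congr (by ext T; simp only [mem_filter]) (fun _ _ => rfl)
  rw [← h3] at h1
  rw [h2]
  have h4 : Real.exp u * PP p B F ≤ Real.exp (u - v) := by
    rw [sub_eq_add_neg, Real.exp_add]
    exact mul_le_mul_of_nonneg_left hF (Real.exp_pos u).le
  have h5 : relEnt p μ A B = entOf p B (lawOn μ A B) := rfl
  rw [h5]
  have h6 : ∑ T ∈ B.powerset with F T, lawOn μ A B T ≤ ∑ T ∈ B.powerset with F T, lawOn μ A B T := le_rfl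
  linarith

/-- Random sets which have given properties in the blocks with given probabilities. -/
theorem event_down {p : ℕ → ℝ} {B : ℕ → Finset ℕ} (hp : ∀ n, 0 ≤ p n ∧ p n ≤ 1) (hBd : ∀ i j, i ≠ j → Disjoint (B i) (B j))
    {F : ℕ → Finset ℕ → Prop} {v : ℕ → ℝ} (hF : ∀ᶠ k : ℕ in atTop, Real.exp (-v k) ≤ PP p (B k) (F k)) {q : ℕ → ℝ}
    (hq0 : ∀ k, 0 ≤ q k) (hq1 : ∀ k, q k ≤ 1) :
    ∃ (Ω : Type) (_ : MeasurableSpace Ω) (μ : Measure Ω) (_ : IsProbabilityMeasure μ) (A : Ω → Set ℕ),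
      IsRandomSet A ∧ (∀ᵐ ω ∂μ, ∀ n ∈ A ω, 0 < p n) ∧
      (∀ᶠ k : ℕ in atTop, relEnt p μ A (B k) ≤ q k * v k) ∧
      (∀ᶠ k : ℕ in atTop, q k ≤ μ.real {ω | F k (tr A (B k) ω)}) ∧
      (¬ Summable q → ∀ᵐ ω ∂μ, ∃ᶠ k : ℕ in atTop, F k (tr A (B k) ω)) := by
  classical
  obtain ⟨R, hR⟩ : ∃ R : ℕ → Finset ℕ → ℝ, R = fun k => if 0 < PP p (B k) (F k) then
      (fun T => (1 - q k) * prodOn p (B k) T + q k * cond p (B k) (F k) T)
    else prodOn p (B k) := ⟨_, rfl⟩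
  have hRlaw : ∀ k, IsLaw p (B k) (R k) := by
    intro k
    rw [hR]
    simp only
    by_cases h : 0 < PP p (B k) (F k)
    · rw [if_pos h]
      exact ((Pool.Agent.Q150.TT.t_MIXL p _ (fun n _ => hp n)).2 _ (cond_law hp h) (q k) (hq0 k) (hq1 k)).1
    · rw [if_neg h]
      exact (Pool.Agent.Q150.TT.t_MIXL p _ (fun n _ => hp n)).1
  obtain ⟨Ω, mΩ, μ, hμ, A, hA1, hA2, hA3, hA4⟩ := exi hBd hRlaw (fun n => (hp n).1)
  have hbound : ∀ᶠ k : ℕ in atTop, q k ≤ μ.real {ω | F k (tr A (B k) ω)} := by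
    filter_upwards [hF] with k hk
    have hP : 0 < PP p (B k) (F k) := lt_of_lt_of_le (Real.exp_pos _) hk
    rw [real_event (μ := μ) hA1 (B k) (F k)]
    have h1 : ∀ T ∈ (B k).powerset.filter (F k),
        lawOn μ A (B k) T = (1 - q k) * prodOn p (B k) T + q k * cond p (B k) (F k) T := by
      intro T hT
      rw [hA3 k T (mem_filter.1 hT).1, hR]
      simp only
      rw [if_pos hP]
    rw [sum_congr rfl h1, sum_add_distrib, ← mul_sum, ← mul_sum]
    have h2 : ∑ T ∈ (B k).powerset with F k T, cond p (B k) (F k) T = 1 := by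
      rw [← cond_sum hP]
      refine sum_subset (filter_subset _ _) (fun T hT hT2 => ?_)
      unfold cond
      rw [if_neg]
      intro hFT
      exact hT2 (mem_filter.2 ⟨hT, hFT⟩)
    rw [h2]
    have h3 : 0 ≤ ∑ T ∈ (B k).powerset with F k T, prodOn p (B k) T :=
      sum_nonneg (fun T hT => prodOn_nn hp (mem_powerset.1 (mem_filter.1 hT).1))
    have h4 : 0 ≤ 1 - q k := by linarith [hq1 k]
    nlinarith [mul_nonneg h4 h3]
  refine ⟨Ω, mΩ, μ, hμ, A, hA1, hA2, ?_, hbound, ?_⟩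
  · filter_upwards [hF] with k hk
    have hP : 0 < PP p (B k) (F k) := lt_of_lt_of_le (Real.exp_pos _) hk
    have h1 : relEnt p μ A (B k) = entOf p (B k)
        (fun T => (1 - q k) * prodOn p (B k) T + q k * cond p (B k) (F k) T) := by
      unfold relEnt entOf
      refine sum_congr rfl (fun T hT => ?_)
      rw [hA3 k T hT, hR]
      simp only
      rw [if_pos hP]
    rw [h1]
    refine (((Pool.Agent.Q150.TT.t_MIXL p _ (fun n _ => hp n)).2 _ (cond_law hp hP) (q k) (hq0 k) (hq1 k)).2).trans ?_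
    rw [cond_ent hP]
    refine mul_le_mul_of_nonneg_left ?_ (hq0 k)
    have h2 := Real.log_le_log (Real.exp_pos _) hk
    rw [Real.log_exp] at h2
    linarith
  · intro hq
    apply hA4 (fun k T => F k T)
    intro hs
    apply hq
    refine Summable.of_norm_bounded_eventually_nat hs ?_
    filter_upwards [hbound] with k hk
    rw [Real.norm_eq_abs, abs_of_nonneg (hq0 k)]
    exact hk

end Pool.Agent.Q197.WN
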