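import Pool.Agent.Q197.WN.Elem

/-!
# Exact patterns (consecutive elements): the exact price
-/

set_option autoImplicit false

namespace Pool.Agent.Q197.WN

open Finset MeasureTheory Filter Pool.Agent.Q120.TT Pool.Agent.Q120.ET Pool.Agent.Q120.GM
  Pool.Agent.Q120.CL Pool.Agent.Q120.MG Pool.Agent.Q120.HL Pool.Agent.Q150.TT Pool.Agent.Q112.LE
open scoped Topology

theorem PP_or {p : ℕ → ℝ} (hp : ∀ n, 0 ≤ p n ∧ p n ≤ 1) {B : Finset ℕ} {F G : Finset ℕ → Prop} :
    PP p B (fun T => F T ∨ G T) ≤ PP p B F + PP p B G := by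
  classical
  have h1 := PP_exists_le hp (B := B) ({0, 1} : Finset ℕ) (fun i => if i = 0 then F else G)
  rw [sum_pair (by norm_num)] at h1
  refine le_trans (PP_mono hp (fun T _ hT => ?_)) h1
  rcases hT with h | h
  · exact ⟨0, by simp, h⟩
  · exact ⟨1, by simp, h⟩

theorem rate_le_one {θ : ℝ} (h0 : 0 ≤ θ) (h1 : θ ≤ 1) : rate θ ≤ 1 := by
  unfold rate
  have h2 : θ * Real.log θ ≤ 0 := mul_nonpos_of_nonneg_of_nonpos h0 (Real.log_nonpos h0 h1)
  linarith

/-- Upper tail of the number of patterns, with a free parameter. -/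
theorem win_up {p : ℕ → ℝ} (hp : ∀ n, 0 ≤ p n ∧ p n ≤ 1) {W J : Finset ℕ} {s f : ℕ → Finset ℕ}
    (hs : ∀ i ∈ J, s i ⊆ W) (hf : ∀ i ∈ J, f i ⊆ s i) {κ : ℕ} (col : ℕ → ℕ) (hκ : 0 < κ) (hcol : ∀ i ∈ J, col i < κ)
    (hd : ∀ i ∈ J, ∀ j ∈ J, i ≠ j → col i = col j → Disjoint (s i) (s j)) {V t l : ℝ} (hV : mean p J s f ≤ V) (hl : 0 ≤ l) :
    PP p W (fun T => t ≤ (cnt J s f ((T : Finset ℕ) : Set ℕ) : ℝ)) ≤ κ * Real.exp ((Real.exp l - 1) * V - l * (t / κ)) := by
  classical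
  have hmod : IsModel (prodMeasure p) p (trueSet (ι := ℕ)) := isModel p (fun n => (hp n).1) (fun n => (hp n).2)
  obtain ⟨A, hAd⟩ : ∃ A : (ℕ → Bool) → Set ℕ, A = trueSet (ι := ℕ) := ⟨_, rfl⟩
  rw [← hAd] at hmod
  have hA : IsRandomSet A := hmod.meas
  rw [PP_model hmod]
  obtain ⟨G, hGd⟩ : ∃ G : ℕ → Set (ℕ → Bool), G = fun i => {ω | ∀ x ∈ s i, (x ∈ A ω ↔ x ∈ f i)} := ⟨_, rfl⟩
  have hGm : ∀ n, MeasurableSet (G n) := fun n => by rw [hGd]; exact measurableSet_law hA _ _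
  have hGr : ∀ i ∈ J, (prodMeasure p).real (G i) = prodOn p (s i) (f i) := by
    intro i hi
    rw [hGd]
    exact Pool.Agent.Q150.TT.law_model hmod (s i) (f i) (hf i hi)
  have hκr : (0 : ℝ) < κ := by exact_mod_cast hκ
  obtain ⟨Jc, hJc⟩ : ∃ Jc : ℕ → Finset ℕ, Jc = fun c => J.filter fun n => col n = c := ⟨_, rfl⟩
  have hJmem : ∀ c n, n ∈ Jc c ↔ n ∈ J ∧ col n = c := fun c n => by rw [hJc, mem_filter]
  have hsum : ∀ g : ℕ → ℝ, ∑ n ∈ J, g n = ∑ c ∈ range κ, ∑ n ∈ Jc c, g n := by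
    intro g
    rw [hJc]
    exact (sum_fiberwise_of_maps_to (fun n hn => mem_range.2 (hcol n hn)) g).symm
  have hmut : ∀ c, Mutual (prodMeasure p) (Jc c) G := by
    intro c T hT
    apply indep_many hmod T (fun n => ((s n : Finset ℕ) : Set ℕ))
    · intro i hi j hj hij
      rw [Finset.disjoint_coe]
      have h1 := (hJmem c i).1 (hT hi)
      have h2 := (hJmem c j).1 (hT hj)
      exact hd i h1.1 j h2.1 hij (h1.2.trans h2.2.symm)
    · intro i _
      rw [hGd]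
      exact F_pattern (s i) (f i)
  obtain ⟨Ec, hEc⟩ : ∃ Ec : ℕ → ℝ, Ec = fun c => ∑ n ∈ Jc c, (prodMeasure p).real (G n) := ⟨_, rfl⟩
  have hE : mean p J s f = ∑ c ∈ range κ, Ec c := by
    unfold mean
    rw [hsum, hEc]
    exact sum_congr rfl fun c _ => sum_congr rfl fun n hn => (hGr n ((hJmem c n).1 hn).1).symm
  have hEc0 : ∀ c, 0 ≤ Ec c := fun c => by rw [hEc]; exact sum_nonneg fun _ _ => measureReal_nonneg
  have hcnt : ∀ ω, (cnt J s f ((tr A W ω : Finset ℕ) : Set ℕ) : ℝ) = ∑ c ∈ range κ, num (Jc c) G ω := by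
    intro ω
    unfold Pool.Agent.Q197.WN.cnt num
    rw [← hsum, card_filter]
    push_cast
    refine sum_congr rfl fun i hi => ?_
    have h1 : (∀ x ∈ s i, (x ∈ ((tr A W ω : Finset ℕ) : Set ℕ) ↔ x ∈ f i)) ↔ ω ∈ G i := by
      rw [hGd]
      refine forall₂_congr fun x hx => ?_
      rw [Finset.mem_coe, mem_tr]
      have h2 := hs i hi hx
      constructor
      · intro h
        exact ⟨fun h3 => h.1 ⟨h2, h3⟩, fun h3 => (h.2 h3).2⟩
      · intro h
        exact ⟨fun h3 => h.1 h3.2, fun h3 => ⟨h2, h.2 h3⟩⟩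
    by_cases h3 : ω ∈ G i
    · rw [if_pos (h1.2 h3), Set.indicator_of_mem h3]
    · rw [if_neg (fun h => h3 (h1.1 h)), Set.indicator_of_notMem h3]
  have hsub : {ω | t ≤ (cnt J s f ((tr A W ω : Finset ℕ) : Set ℕ) : ℝ)} ⊆
      ⋃ c ∈ range κ, {ω | t / κ ≤ num (Jc c) G ω} := by
    intro ω hω
    have hω' : t ≤ (cnt J s f ((tr A W ω : Finset ℕ) : Set ℕ) : ℝ) := hω
    rw [hcnt] at hω'
    by_contra hcon
    simp only [Set.mem_iUnion, not_exists, Set.mem_ofPred_eq, not_le] at hcon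
    have h2 : ∑ c ∈ range κ, num (Jc c) G ω < ∑ c ∈ range κ, t / κ :=
      sum_lt_sum_of_nonempty ⟨0, mem_range.2 hκ⟩ fun c hc => hcon c hc
    rw [sum_const, card_range, nsmul_eq_mul] at h2
    have h3 : (κ : ℝ) * (t / κ) = t := by field_simp
    linarith
  refine (measureReal_mono hsub (measure_ne_top _ _)).trans ?_
  refine (measureReal_biUnion_finset_le _ _).trans ?_
  have hbound : ∀ c ∈ range κ, (prodMeasure p).real {ω | t / κ ≤ num (Jc c) G ω} ≤
      Real.exp ((Real.exp l - 1) * V - l * (t / κ)) := by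
    intro c hc
    refine (tail_up (fun j _ => hGm j) (hmut c) hl (t / κ)).trans (Real.exp_le_exp.2 ?_)
    have h1 : ∑ a ∈ Jc c, (prodMeasure p).real (G a) ≤ V := by
      refine le_trans ?_ hV
      rw [hE]
      have h2 := single_le_sum (f := Ec) (fun c _ => hEc0 c) hc
      rw [hEc] at h2 ⊢
      exact h2
    have h2 : 0 ≤ Real.exp l - 1 := by
      have := Real.one_le_exp hl
      linarith
    have := mul_le_mul_of_nonneg_left h1 h2
    linarith
  refine (sum_le_sum hbound).trans (le_of_eq ?_)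
  rw [sum_const, card_range, nsmul_eq_mul]

section

variable {p : ℕ → ℝ} {W : ℕ → Finset ℕ} {N N' : ℕ → Set ℕ → ℕ} {E : ℕ → ℝ}

theorem fact_up (h : WSharp p W N E) {R : Set ℝ} (hl : WLap p W N E R) (hR : ∀ t : ℝ, 0 < t → t ≤ 1 → t ∈ R) {θ : ℝ}
    (h0 : 0 ≤ θ) (h1 : θ < 1) {δ : ℝ} (hδ : 0 < δ) : ∃ C : ℝ, 0 < C ∧ ∀ᶠ n : ℕ in atTop,
      PP p (W n) (fun T => (N n ((T : Finset ℕ) : Set ℕ) : ℝ) ≤ θ * E n) ≤ C * Real.exp (-((rate θ - δ) * E n)) := by
  rcases h0.eq_or_lt with h2 | h2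
  · obtain ⟨C, hC, hu⟩ := h.up 0 δ hδ
    refine ⟨C, hC, ?_⟩
    filter_upwards [hu] with n hn
    rw [← h2, rate_zero]
    refine le_trans (PP_mono h.prob (fun T _ hT => ?_)) hn
    have h3 : (N n ((T : Finset ℕ) : Set ℕ) : ℝ) ≤ 0 := by
      have h4 : (N n ((T : Finset ℕ) : Set ℕ) : ℝ) ≤ 0 * E n := hT
      linarith
    exact_mod_cast h3
  · refine ⟨1, one_pos, ?_⟩
    filter_upwards [hl.down h.prob (hR θ h2 h1.le) h2 h1.le hδ] with n hn
    rw [one_mul]
    exact hn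

theorem fact_lo (h : WSharp p W N E) {R : Set ℝ} (hl : WLap p W N E R) (hR : ∀ t : ℝ, 0 < t → t ≤ 1 → t ∈ R) {θ : ℝ}
    (h0 : 0 ≤ θ) (h1 : θ < 1) {ε : ℝ} (hε : 0 < ε) : ∀ᶠ n : ℕ in atTop, Real.exp (-((1 + ε) * rate θ * E n)) ≤
      PP p (W n) (fun T => (θ - ε) * E n ≤ N n ((T : Finset ℕ) : Set ℕ) ∧ (N n ((T : Finset ℕ) : Set ℕ) : ℝ) ≤ θ * E n) := by
  have hr : 0 < rate θ := rate_pos h0 h1.ne
  rcases h0.eq_or_lt with h2 | h2
  · filter_upwards [h.lo ε hε, h.tend.eventually_ge_atTop 0] with n hn hE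
    rw [← h2, rate_zero, mul_one]
    refine hn.trans (PP_mono h.prob (fun T _ hT => ?_))
    have h3 : N n ((T : Finset ℕ) : Set ℕ) = 0 := hT
    rw [h3]
    push_cast
    constructor
    · nlinarith
    · linarith
  · have hcont : Tendsto (fun τ : ℝ => rate (θ - τ) + 2 * τ * |Real.log (θ - τ)|) (𝓝 0) (𝓝 (rate θ)) := by
      have c1 : ContinuousAt (fun τ : ℝ => rate (θ - τ) + 2 * τ * |Real.log (θ - τ)|) 0 := by
        refine ContinuousAt.add ?_ ?_
        · exact (rate_cont.comp (continuous_const.sub continuous_id)).continuousAt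
        · refine ContinuousAt.mul (by fun_prop) ?_
          refine ContinuousAt.abs ?_
          refine ContinuousAt.log (by fun_prop) ?_
          simp only [sub_zero]
          exact h2.ne'
      have c2 := c1.tendsto
      simpa using c2
    have e1 := hcont.eventually (Iio_mem_nhds (show rate θ < (1 + ε / 2) * rate θ by nlinarith))
    have e2 : ∀ᶠ τ : ℝ in 𝓝 0, τ < θ / 4 := Iio_mem_nhds (by linarith)
    have e3 : ∀ᶠ τ : ℝ in 𝓝 0, τ < ε / 4 := Iio_mem_nhds (by linarith)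
    obtain ⟨τ, ⟨hτ1, hτ2, hτ3⟩, hτ0⟩ := (((e1.and (e2.and e3)).filter_mono nhdsWithin_le_nhds).and
      (self_mem_nhdsWithin (s := Set.Ioi (0 : ℝ)))).exists
    have hτ0' : 0 < τ := hτ0
    have hτ1' : rate (θ - τ) + 2 * τ * |Real.log (θ - τ)| < (1 + ε / 2) * rate θ := hτ1
    filter_upwards [hl.lo h.prob h.tend (θ := θ - τ) (θ1 := θ - 2 * τ) (θ2 := θ) (hR _ (by linarith) (by linarith))
      (hR _ (by linarith) (by linarith)) (hR _ h2 h1.le) (by linarith) (by linarith) (by linarith)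
      (show 0 < ε / 2 * rate θ by positivity), h.tend.eventually_ge_atTop 0] with n hn hE
    refine le_trans (Real.exp_le_exp.2 ?_) (hn.trans (PP_mono h.prob (fun T _ hT => ?_)))
    · have h3 : rate (θ - τ) + (θ - (θ - 2 * τ)) * |Real.log (θ - τ)| + ε / 2 * rate θ ≤ (1 + ε) * rate θ := by
        have h4 : θ - (θ - 2 * τ) = 2 * τ := by ring
        rw [h4]
        linarith
      have := mul_le_mul_of_nonneg_right h3 hE
      linarith
    · refine ⟨le_trans ?_ hT.1, hT.2⟩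
      exact mul_le_mul_of_nonneg_right (by linarith) hE

/-- Transfer to a slightly smaller number. -/
theorem low_transfer (h : WSharp p W N E) {R : Set ℝ} (hl : WLap p W N E R) (hR : ∀ t : ℝ, 0 < t → t ≤ 1 → t ∈ R)
    (h' : WModel p W N' E) (hle : ∀ n S, N' n S ≤ N n S) (hrest : ∀ δ K : ℝ, 0 < δ → ∃ C : ℝ, 0 < C ∧ ∀ᶠ n : ℕ in atTop,
      PP p (W n) (fun T => δ * E n ≤ (N n ((T : Finset ℕ) : Set ℕ) : ℝ) - N' n ((T : Finset ℕ) : Set ℕ)) ≤
        C * Real.exp (-(K * E n))) : Low p W N' E := by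
  intro θ h0 h1 ε hε
  have hr : 0 < rate θ := rate_pos h0 h1.ne
  constructor
  · intro Ω _ μ _ A hA hs
    refine price_up h' (R := fun n m => (m : ℝ) ≤ θ * E n) hr ?_ hε hA hs
    intro δ hδ
    have e1 := (rate_cont.tendsto θ).eventually (Ioi_mem_nhds (show rate θ - δ / 2 < rate θ by linarith))
    have e2 : ∀ᶠ y : ℝ in 𝓝 θ, y < 1 := Iio_mem_nhds h1
    obtain ⟨y, ⟨hy1, hy2⟩, hy3⟩ := (((e1.and e2).filter_mono nhdsWithin_le_nhds).and
      (self_mem_nhdsWithin (s := Set.Ioi θ))).exists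
    have hy3' : θ < y := hy3
    have hy1' : rate θ - δ / 2 < rate y := hy1
    obtain ⟨C1, hC1, hu1⟩ := fact_up h hl hR (by linarith) hy2 (show 0 < δ / 2 by linarith)
    obtain ⟨C2, hC2, hu2⟩ := hrest (y - θ) 1 (by linarith)
    refine ⟨C1 + C2, by linarith, ?_⟩
    filter_upwards [hu1, hu2, h.tend.eventually_ge_atTop 0] with n hn1 hn2 hE
    have k1 : PP p (W n) (fun T => (N' n ((T : Finset ℕ) : Set ℕ) : ℝ) ≤ θ * E n) ≤
        PP p (W n) (fun T => (N n ((T : Finset ℕ) : Set ℕ) : ℝ) ≤ y * E n ∨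
          (y - θ) * E n ≤ (N n ((T : Finset ℕ) : Set ℕ) : ℝ) - N' n ((T : Finset ℕ) : Set ℕ)) := by
      refine PP_mono h.prob (fun T _ hT => ?_)
      by_cases h3 : (N n ((T : Finset ℕ) : Set ℕ) : ℝ) ≤ y * E n
      · exact Or.inl h3
      · right
        have h4 : (N' n ((T : Finset ℕ) : Set ℕ) : ℝ) ≤ θ * E n := hT
        linarith
    refine k1.trans ((PP_or h.prob).trans ?_)
    rw [add_mul]
    refine add_le_add (hn1.trans ?_) (hn2.trans ?_)
    · apply mul_le_mul_of_nonneg_left _ hC1.le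
      apply Real.exp_le_exp.2
      have := mul_le_mul_of_nonneg_right (show rate θ - δ ≤ rate y - δ / 2 by linarith) hE
      linarith
    · apply mul_le_mul_of_nonneg_left _ hC2.le
      apply Real.exp_le_exp.2
      have h5 := rate_le_one h0 h1.le
      have := mul_le_mul_of_nonneg_right (show rate θ - δ ≤ 1 by linarith) hE
      linarith
  · intro M q hM hq
    obtain ⟨C2, hC2, hu2⟩ := hrest (ε / 2) ((1 + ε) * rate θ + 1) (by linarith)
    have hlo : ∀ᶠ n : ℕ in atTop, Real.exp (-((1 + ε) * rate θ * E n)) ≤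
        PP p (W n) (fun T => (θ - ε) * E n ≤ N' n ((T : Finset ℕ) : Set ℕ) ∧ (N' n ((T : Finset ℕ) : Set ℕ) : ℝ) ≤ θ * E n) := by
      filter_upwards [fact_lo h hl hR h0 h1 (show 0 < ε / 2 by linarith), hu2, h.tend.eventually_ge_atTop 0,
        h.tend.eventually_ge_atTop (Real.log 2 / (ε / 2 * rate θ)), h.tend.eventually_ge_atTop (Real.log C2)] with n hn hn2 hE hb1 hb2
      have k1 : PP p (W n) (fun T => (θ - ε / 2) * E n ≤ N n ((T : Finset ℕ) : Set ℕ) ∧
          (N n ((T : Finset ℕ) : Set ℕ) : ℝ) ≤ θ * E n) ≤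
          PP p (W n) (fun T => ((θ - ε) * E n ≤ N' n ((T : Finset ℕ) : Set ℕ) ∧ (N' n ((T : Finset ℕ) : Set ℕ) : ℝ) ≤ θ * E n) ∨
            ε / 2 * E n ≤ (N n ((T : Finset ℕ) : Set ℕ) : ℝ) - N' n ((T : Finset ℕ) : Set ℕ)) := by
        refine PP_mono h.prob (fun T _ hT => ?_)
        by_cases h3 : ε / 2 * E n ≤ (N n ((T : Finset ℕ) : Set ℕ) : ℝ) - N' n ((T : Finset ℕ) : Set ℕ)
        · exact Or.inr h3
        · left
          have h4 : (N' n ((T : Finset ℕ) : Set ℕ) : ℝ) ≤ N n ((T : Finset ℕ) : Set ℕ) := by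
            exact_mod_cast hle n _
          obtain ⟨h5, h6⟩ := hT
          exact ⟨by linarith, by linarith⟩
      have k2 := (hn.trans k1).trans (PP_or h.prob)
      have k3 : C2 * Real.exp (-(((1 + ε) * rate θ + 1) * E n)) ≤ Real.exp (-((1 + ε) * rate θ * E n)) := by
        have h5 : C2 = Real.exp (Real.log C2) := (Real.exp_log hC2).symm
        rw [h5, ← Real.exp_add]
        apply Real.exp_le_exp.2
        linarith
      have k4 : Real.exp (Real.log 2) * Real.exp (-((1 + ε) * rate θ * E n)) ≤ Real.exp (-((1 + ε / 2) * rate θ * E n)) := by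
        rw [← Real.exp_add]
        apply Real.exp_le_exp.2
        rw [div_le_iff₀ (by positivity)] at hb1
        linarith
      rw [Real.exp_log (by norm_num)] at k4
      linarith
    have h3 := price_lo h' (R := fun n m => (θ - ε) * E n ≤ m ∧ (m : ℝ) ≤ θ * E n) hlo hM hq
    simp only [mul_assoc] at h3
    exact h3

end

section

variable {z : ℕ → ℕ} {D E : Finset ℕ} {H : ℕ} {σ : ℝ} {u v : ℕ → ℕ} {θ : ℝ}

theorem pat_le (hDE : D ⊆ E) (a b : ℕ) (S : Set ℕ) : pat D E H a b S ≤ pat D D H a b S := by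
  classical
  unfold pat Pool.Agent.Q197.WN.cnt
  refine card_le_card (fun x hx => ?_)
  rw [mem_filter] at hx ⊢
  exact ⟨hx.1, fun y hy => hx.2 y (sh_mono hDE x hy)⟩

/-- The patterns which are not exact contain one more element. -/
theorem pat_diff (a b : ℕ) (S : Set ℕ) :
    (pat D D H a b S : ℝ) - pat D E H a b S ≤ ∑ h ∈ E \ D, (pat (insert h D) (insert h D) H a b S : ℝ) := by
  classical
  have h1 : pat D D H a b S ≤ pat D E H a b S + ∑ h ∈ E \ D, pat (insert h D) (insert h D) H a b S := by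
    have h2 : (Ico a (b - H)).filter (fun i => ∀ x ∈ sh D i, (x ∈ S ↔ x ∈ sh D i)) ⊆
        (Ico a (b - H)).filter (fun i => ∀ x ∈ sh E i, (x ∈ S ↔ x ∈ sh D i)) ∪
          (E \ D).biUnion (fun h => (Ico a (b - H)).filter (fun i => ∀ x ∈ sh (insert h D) i,
            (x ∈ S ↔ x ∈ sh (insert h D) i))) := by
      intro i hi
      rw [mem_filter] at hi
      by_cases hcase : ∀ x ∈ sh E i, (x ∈ S ↔ x ∈ sh D i)
      · exact mem_union_left _ (mem_filter.2 ⟨hi.1, hcase⟩)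
      · push Not at hcase
        obtain ⟨x, hx, hx2⟩ := hcase
        have hx3 : x ∈ S ∧ x ∉ sh D i := by
          rcases hx2 with h3 | h3
          · exact h3
          · exact absurd ((hi.2 x h3.2).2 h3.2) h3.1
        obtain ⟨h, hh, rfl⟩ := mem_sh.1 hx
        have hhD : h ∉ D := fun h4 => hx3.2 (mem_sh.2 ⟨h, h4, rfl⟩)
        refine mem_union_right _ (mem_biUnion.2 ⟨h, Finset.mem_sdiff.2 ⟨hh, hhD⟩, mem_filter.2 ⟨hi.1, fun y hy => ?_⟩⟩)
        refine ⟨fun _ => hy, fun _ => ?_⟩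
        obtain ⟨g, hg, rfl⟩ := mem_sh.1 hy
        rw [mem_insert] at hg
        rcases hg with rfl | hg
        · exact hx3.1
        · exact (hi.2 _ (mem_sh.2 ⟨g, hg, rfl⟩)).2 (mem_sh.2 ⟨g, hg, rfl⟩)
    have h3 := card_le_card h2
    have h4 := h3.trans (card_union_le _ _)
    exact h4.trans (Nat.add_le_add_left card_biUnion_le _)
  have h2 : (pat D D H a b S : ℝ) ≤ (pat D E H a b S : ℝ) +
      ∑ h ∈ E \ D, (pat (insert h D) (insert h D) H a b S : ℝ) := by exact_mod_cast h1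
  linarith

theorem Wins.rest (hw : Wins u v θ) (hS : Tendsto (fun k => Sz D (z k)) atTop (𝓝 σ)) (hz : Small z)
    (hDE : D ⊆ E) (hE : ∀ h ∈ E, h ≤ H) (hσ : 0 < σ) {Ex : ℕ → ℝ} (hEx : Asy Ex (wt u v D.card) σ) {δ : ℝ} (K : ℝ)
    (hδ : 0 < δ) : ∃ C : ℝ, 0 < C ∧ ∀ᶠ n : ℕ in atTop, PP (pr z) (Ico (u n) (v n))
      (fun T => δ * Ex n ≤ (pat D D H (u n) (v n) ((T : Finset ℕ) : Set ℕ) : ℝ) - pat D E H (u n) (v n) ((T : Finset ℕ) : Set ℕ)) ≤
        C * Real.exp (-(K * Ex n)) := by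
  classical
  have hp : ∀ n, 0 ≤ pr z n ∧ pr z n ≤ 1 := fun n => ⟨pr_nonneg z n, pr_le_one z n⟩
  obtain ⟨r, hr⟩ : ∃ r : ℕ, r = (E \ D).card + 1 := ⟨_, rfl⟩
  have hr0 : (0 : ℝ) < r := by rw [hr]; positivity
  obtain ⟨κ, hκ⟩ : ∃ κ : ℕ, κ = H + 1 := ⟨_, rfl⟩
  have hκ0 : (0 : ℝ) < κ := by rw [hκ]; positivity
  obtain ⟨l, hl⟩ : ∃ l : ℝ, l = (|K| + 1) * κ * r / δ := ⟨_, rfl⟩
  have hl0 : 0 < l := by rw [hl]; positivity
  obtain ⟨η, hη⟩ : ∃ η : ℝ, η = 1 / (3 * Real.exp l) := ⟨_, rfl⟩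
  have hη0 : 0 < η := by rw [hη]; positivity
  refine ⟨r * κ, by positivity, ?_⟩
  filter_upwards [hw.EI_near hS hz (fun h hh => hE h (hDE hh)) (show 0 < σ / 2 by linarith), hw.small hz hη0,
    hEx (σ / 2) (by linarith), hw.wt_ge D.card, eventually_ge_atTop 1] with n hEI hsm hEn hwt hn1
  have hw0 : 0 < wt u v D.card n := lt_of_lt_of_le (by
    have : (0 : ℝ) < n := by exact_mod_cast hn1
    positivity) hwt.2
  have a1 := abs_le.1 hEI
  have a2 := abs_le.1 hEn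
  have hEx0 : 0 < Ex n := by nlinarith
  obtain ⟨X, hX⟩ : ∃ X, X = EI (pr z) D (u n) (v n - H) := ⟨_, rfl⟩
  rw [← hX] at a1
  have hX0 : 0 ≤ X := by rw [hX]; exact EI_nonneg hp D _ _
  have hX3 : X ≤ 3 * Ex n := by
    have h1 : σ / 2 * wt u v D.card n ≤ Ex n := by linarith
    have h2 : X ≤ 3 * (σ / 2 * wt u v D.card n) := by linarith
    linarith
  have k1 : PP (pr z) (Ico (u n) (v n))
      (fun T => δ * Ex n ≤ (pat D D H (u n) (v n) ((T : Finset ℕ) : Set ℕ) : ℝ) - pat D E H (u n) (v n) ((T : Finset ℕ) : Set ℕ)) ≤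
      PP (pr z) (Ico (u n) (v n)) (fun T => ∃ h ∈ E \ D, δ / r * Ex n ≤
        (pat (insert h D) (insert h D) H (u n) (v n) ((T : Finset ℕ) : Set ℕ) : ℝ)) := by
    refine PP_mono hp (fun T _ hT => ?_)
    by_contra hcon
    push Not at hcon
    have h1 : δ * Ex n ≤ (pat D D H (u n) (v n) ((T : Finset ℕ) : Set ℕ) : ℝ) -
      pat D E H (u n) (v n) ((T : Finset ℕ) : Set ℕ) := hT
    have h2 := pat_diff (D := D) (E := E) (H := H) (u n) (v n) ((T : Finset ℕ) : Set ℕ)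
    have h3 : ∑ h ∈ E \ D, (pat (insert h D) (insert h D) H (u n) (v n) ((T : Finset ℕ) : Set ℕ) : ℝ) ≤
        ∑ h ∈ E \ D, δ / r * Ex n := sum_le_sum (fun h hh => (hcon h hh).le)
    rw [sum_const, nsmul_eq_mul] at h3
    have h4 : ((E \ D).card : ℝ) = r - 1 := by rw [hr]; push_cast; ring
    rw [h4] at h3
    have h5 : ((r : ℝ) - 1) * (δ / r * Ex n) = δ * Ex n - δ * Ex n / r := by field_simp
    have h6 : 0 < δ * Ex n / r := by positivity
    linarith
  refine k1.trans ((PP_exists_le hp _ _).trans ?_)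
  have k2 : ∀ h ∈ E \ D, PP (pr z) (Ico (u n) (v n)) (fun T => δ / r * Ex n ≤
      (pat (insert h D) (insert h D) H (u n) (v n) ((T : Finset ℕ) : Set ℕ) : ℝ)) ≤ κ * Real.exp (-(K * Ex n)) := by
    intro h hh
    rw [Finset.mem_sdiff] at hh
    have hins : ∀ g ∈ insert h D, g ≤ H := by
      intro g hg
      rw [mem_insert] at hg
      rcases hg with rfl | hg
      · exact hE _ hh.1
      · exact hE g (hDE hg)
    have hmean : mean (pr z) (Ico (u n) (v n - H)) (sh (insert h D)) (sh (insert h D)) ≤ η * X := by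
      unfold mean
      rw [hX]
      unfold EI
      rw [mul_sum]
      refine sum_le_sum (fun x hx => ?_)
      unfold prodOn
      rw [Finset.sdiff_self, prod_empty, mul_one, prod_sh, prod_insert hh.2]
      exact mul_le_mul_of_nonneg_right (hsm (x + h) (by rw [mem_Ico] at hx; omega)) (prod_nonneg (fun _ _ => (hp _).1))
    have h1 := win_up hp (W := Ico (u n) (v n)) (J := Ico (u n) (v n - H)) (s := sh (insert h D)) (f := sh (insert h D))
      (fun x hx => sh_sub hins hx) (fun x _ => Finset.Subset.refl _) (κ := κ) (fun x => x % κ) (by omega)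
      (fun x _ => Nat.mod_lt _ (by omega)) (fun x _ y _ hxy hc => sh_disjoint hins hxy (by rw [← hκ]; exact hc))
      (V := η * X) (t := δ / r * Ex n) (l := l) hmean hl0.le
    refine h1.trans ?_
    apply mul_le_mul_of_nonneg_left _ hκ0.le
    apply Real.exp_le_exp.2
    have h2 : (Real.exp l - 1) * (η * X) ≤ Ex n := by
      have h3 : (Real.exp l - 1) * (η * X) ≤ Real.exp l * (η * X) :=
        mul_le_mul_of_nonneg_right (by linarith) (by positivity)
      have h4 : Real.exp l * (η * X) = X / 3 := by rw [hη]; field_simp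
      linarith
    have h3 : l * (δ / r * Ex n / κ) = (|K| + 1) * Ex n := by rw [hl]; field_simp
    rw [h3]
    have h4 : K * Ex n ≤ |K| * Ex n := mul_le_mul_of_nonneg_right (le_abs_self K) hEx0.le
    linarith
  refine (sum_le_sum k2).trans ?_
  rw [sum_const, nsmul_eq_mul]
  have h4 : ((E \ D).card : ℝ) ≤ r := by rw [hr]; push_cast; linarith
  have h5 : 0 ≤ κ * Real.exp (-(K * Ex n)) := by positivity
  calc _ ≤ (r : ℝ) * (κ * Real.exp (-(K * Ex n))) := mul_le_mul_of_nonneg_right h4 h5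
    _ = _ := by ring

/-- The exact price of lower deviations for exact patterns. -/
theorem Wins.low_exact (hw : Wins u v θ) (hS : Tendsto (fun k => Sz D (z k)) atTop (𝓝 σ)) (hz : Small z)
    (hDE : D ⊆ E) (hE : ∀ h ∈ E, h ≤ H) (hne : D.Nonempty) (hσ : 0 < σ) {Ex : ℕ → ℝ} (hEx : Asy Ex (wt u v D.card) σ) :
    Low (pr z) (fun n => Ico (u n) (v n)) (fun n => pat D E H (u n) (v n)) Ex :=
  low_transfer (hw.sharp hS hz (fun h hh => hE h (hDE hh)) hne hσ hEx)
    (hw.lap hS hz (fun h hh => hE h (hDE hh)) hne hσ hEx) (fun _ h1 h2 => ⟨h1, h2⟩) (hw.model hS hz hDE hE hne hσ hEx)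
    (fun n S => pat_le hDE (u n) (v n) S) (fun _ K hδ => hw.rest hS hz hDE hE hσ hEx K hδ)

end

end Pool.Agent.Q197.WN
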