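import Pool.Agent.Q197.WN.LapG

/-!
# Counts of disjoint groups of elements: all large deviations
-/

set_option autoImplicit false

namespace Pool.Agent.Q197.WN

open Finset MeasureTheory Filter Pool.Agent.Q120.TT Pool.Agent.Q120.ET Pool.Agent.Q120.GM
open scoped Topology

theorem Lam_congr {p : ℕ → ℝ} {B : Finset ℕ} {N N' : Finset ℕ → ℕ} (h : ∀ T, T ⊆ B → N T = N' T) (t : ℝ) :
    Lam p B N t = Lam p B N' t := by
  unfold Lam
  exact sum_congr rfl (fun T hT => by rw [h T (mem_powerset.1 hT)])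

theorem Lam_union {p : ℕ → ℝ} {s r : Finset ℕ} (hd : Disjoint s r) (N N' : Finset ℕ → ℕ) (t : ℝ) :
    Lam p (s ∪ r) (fun T => N (T ∩ s) + N' (T ∩ r)) t = Lam p s N t * Lam p r N' t := by
  classical
  unfold Lam
  rw [sum_mul_sum, ← sum_product']
  refine sum_nbij' (fun T => (T ∩ s, T ∩ r)) (fun x => x.1 ∪ x.2) ?_ ?_ ?_ ?_ ?_
  · intro T hT
    exact mem_product.2 ⟨mem_powerset.2 inter_subset_right, mem_powerset.2 inter_subset_right⟩
  · rintro ⟨U, V⟩ h
    have h1 := mem_powerset.1 (mem_product.1 h).1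
    have h3 := mem_powerset.1 (mem_product.1 h).2
    exact mem_powerset.2 (union_subset_union h1 h3)
  · intro T hT
    have hT1 := mem_powerset.1 hT
    show T ∩ s ∪ T ∩ r = T
    rw [← inter_union_distrib_left]
    exact inter_eq_left.2 hT1
  · rintro ⟨U, V⟩ h
    have h1 := mem_powerset.1 (mem_product.1 h).1
    have h3 := mem_powerset.1 (mem_product.1 h).2
    simp only at h1 h3
    have e1 : (U ∪ V) ∩ s = U := by
      ext n
      simp only [mem_inter, mem_union]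
      constructor
      · rintro ⟨h | h, h5⟩
        · exact h
        · exact absurd (h3 h) (disjoint_left.1 hd h5)
      · exact fun h => ⟨Or.inl h, h1 h⟩
    have e2 : (U ∪ V) ∩ r = V := by
      ext n
      simp only [mem_inter, mem_union]
      constructor
      · rintro ⟨h | h, h5⟩
        · exact absurd h5 (disjoint_left.1 hd (h1 h))
        · exact h
      · exact fun h => ⟨Or.inr h, h3 h⟩
    show ((U ∪ V) ∩ s, (U ∪ V) ∩ r) = (U, V)
    rw [e1, e2]
  · intro T hT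
    have hT1 := mem_powerset.1 hT
    have h1 : prodOn p (s ∪ r) T = prodOn p s (T ∩ s) * prodOn p r (T ∩ r) := by
      rw [← prodOn_union hd inter_subset_right inter_subset_right, ← inter_union_distrib_left,
        inter_eq_left.2 hT1]
    show prodOn p (s ∪ r) T * t ^ (N (T ∩ s) + N' (T ∩ r)) =
      prodOn p s (T ∩ s) * t ^ N (T ∩ s) * (prodOn p r (T ∩ r) * t ^ N' (T ∩ r))
    rw [h1, pow_add]
    ring

theorem Lam_none (p : ℕ → ℝ) (B : Finset ℕ) (t : ℝ) : Lam p B (fun _ => 0) t = 1 := by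
  unfold Lam
  have h1 : ∀ T ∈ B.powerset, prodOn p B T * t ^ 0 = prodOn p B T := fun T _ => by rw [pow_zero, mul_one]
  rw [sum_congr rfl h1]
  exact Pool.Agent.Q111.TT.sum_prodOn p B

open Classical in
theorem Lam_one (p : ℕ → ℝ) (s : Finset ℕ) (t : ℝ) :
    Lam p s (fun T => if s ⊆ T then 1 else 0) t = 1 - (1 - t) * ∏ x ∈ s, p x := by
  have h1 : Lam p s (fun T => if s ⊆ T then 1 else 0) t = ∑ T ∈ s.powerset, (prodOn p s T + if T = s then (t - 1) * prodOn p s s else 0) := by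
    unfold Lam
    refine sum_congr rfl (fun T hT => ?_)
    have hT1 := mem_powerset.1 hT
    show prodOn p s T * t ^ (if s ⊆ T then 1 else 0) = _
    by_cases h : s ⊆ T
    · have h2 : T = s := hT1.antisymm h
      rw [if_pos h, if_pos h2, pow_one, h2]
      ring
    · have h2 : ¬ T = s := fun h3 => h (by rw [h3])
      rw [if_neg h, if_neg h2, pow_zero, mul_one, add_zero]
  rw [h1, sum_add_distrib, Pool.Agent.Q111.TT.sum_prodOn p s, sum_ite_eq' s.powerset s, if_pos (mem_powerset_self s)]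
  have h2 : prodOn p s s = ∏ x ∈ s, p x := by
    unfold prodOn
    rw [Finset.sdiff_self, prod_empty, mul_one]
  rw [h2]
  ring

open Classical in
/-- The number of the `k ∈ K` with `f k ⊆ S`. -/
noncomputable def grp (K : Finset ℕ) (f : ℕ → Finset ℕ) (S : Set ℕ) : ℕ := (K.filter (fun k => ∀ x ∈ f k, x ∈ S)).card

open Classical in
theorem grp_coe {K : Finset ℕ} {f : ℕ → Finset ℕ} (T : Finset ℕ) :
    grp K f ((T : Finset ℕ) : Set ℕ) = ∑ k ∈ K, if f k ⊆ T then 1 else 0 := by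
  unfold grp
  rw [card_filter]
  refine sum_congr rfl (fun k _ => ?_)
  have : (∀ x ∈ f k, x ∈ ((T : Finset ℕ) : Set ℕ)) ↔ f k ⊆ T := by
    simp only [Finset.mem_coe]
    exact Iff.rfl
  by_cases h : f k ⊆ T
  · rw [if_pos h, if_pos (this.2 h)]
  · rw [if_neg h, if_neg (fun h2 => h (this.1 h2))]

/-- The generating function of the number of groups. -/
theorem lam_grp (p : ℕ → ℝ) {W K : Finset ℕ} {f : ℕ → Finset ℕ} (hf : ∀ k ∈ K, f k ⊆ W)
    (hd : ∀ i ∈ K, ∀ j ∈ K, i ≠ j → Disjoint (f i) (f j)) (t : ℝ) :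
    Lam p W (fun T => grp K f ((T : Finset ℕ) : Set ℕ)) t = ∏ k ∈ K, (1 - (1 - t) * ∏ x ∈ f k, p x) := by
  classical
  induction K using Finset.induction_on generalizing W with
  | empty =>
    rw [prod_empty, ← Lam_none p W t]
    exact Lam_congr (fun T _ => by rw [grp_coe, sum_empty]) t
  | insert a K ha ih =>
    rw [prod_insert ha]
    have hda : ∀ k ∈ K, Disjoint (f a) (f k) := fun k hk =>
      hd a (mem_insert_self _ _) k (mem_insert_of_mem hk) (by rintro rfl; exact ha hk)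
    have ih' := ih (W := W \ f a) (fun k hk => by
      rw [subset_sdiff]
      exact ⟨hf k (mem_insert_of_mem hk), (hda k hk).symm⟩)
      (fun i hi j hj => hd i (mem_insert_of_mem hi) j (mem_insert_of_mem hj))
    rw [← ih', ← Lam_one p (f a) t, ← Lam_union disjoint_sdiff,
      union_sdiff_of_subset (hf a (mem_insert_self _ _))]
    refine Lam_congr (fun T hT => ?_) t
    rw [grp_coe, grp_coe, sum_insert ha]
    congr 1
    · have : f a ⊆ T ↔ f a ⊆ T ∩ f a := by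
        rw [subset_inter_iff]
        exact ⟨fun h => ⟨h, Subset.refl _⟩, fun h => h.1⟩
      by_cases h : f a ⊆ T
      · rw [if_pos h, if_pos (this.1 h)]
      · rw [if_neg h, if_neg (fun h2 => h (this.2 h2))]
    · refine sum_congr rfl (fun k hk => ?_)
      have : f k ⊆ T ↔ f k ⊆ T ∩ (W \ f a) := by
        rw [subset_inter_iff]
        exact ⟨fun h => ⟨h, by rw [subset_sdiff]; exact ⟨hf k (mem_insert_of_mem hk), (hda k hk).symm⟩⟩, fun h => h.1⟩
      by_cases h : f k ⊆ T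
      · rw [if_pos h, if_pos (this.1 h)]
      · rw [if_neg h, if_neg (fun h2 => h (this.2 h2))]

/-- The asymptotics of such a product. -/
theorem lap_prod {π : ℕ → ℕ → ℝ} {K : ℕ → Finset ℕ} {E : ℕ → ℝ} (hp : ∀ n k, 0 ≤ π n k)
    (hsm : ∀ δ : ℝ, 0 < δ → ∀ᶠ n : ℕ in atTop, ∀ x ∈ K n, π n x ≤ δ)
    (hm : ∀ δ : ℝ, 0 < δ → ∀ᶠ n : ℕ in atTop, |∑ x ∈ K n, π n x - E n| ≤ δ * E n) (hE : ∀ᶠ n : ℕ in atTop, 0 ≤ E n)
    (t : ℝ) {γ : ℝ} (hγ : 0 < γ) : ∀ᶠ n : ℕ in atTop,
      Real.exp (-(((1 - t) + γ) * E n)) ≤ ∏ x ∈ K n, (1 - (1 - t) * π n x) ∧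
      ∏ x ∈ K n, (1 - (1 - t) * π n x) ≤ Real.exp (-(((1 - t) - γ) * E n)) := by
  obtain ⟨a, ha⟩ : ∃ a : ℝ, a = |1 - t| := ⟨_, rfl⟩
  have ha0 : 0 ≤ a := by rw [ha]; exact abs_nonneg _
  obtain ⟨δ, hδ⟩ : ∃ δ : ℝ, δ = min (min 1 (1 / (2 * (a + 1)))) (γ / (a + 4 * a ^ 2 + 1)) := ⟨_, rfl⟩
  have hδ0 : 0 < δ := by
    rw [hδ]
    exact lt_min (lt_min one_pos (by positivity)) (by positivity)
  have hδ1 : δ ≤ 1 := by rw [hδ]; exact (min_le_left _ _).trans (min_le_left _ _)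
  have hδ2 : a * δ ≤ 1 / 2 := by
    have h1 : δ ≤ 1 / (2 * (a + 1)) := by rw [hδ]; exact (min_le_left _ _).trans (min_le_right _ _)
    rw [le_div_iff₀ (by positivity)] at h1
    nlinarith
  have hδ3 : (a + 4 * a ^ 2) * δ ≤ γ := by
    have h1 : δ ≤ γ / (a + 4 * a ^ 2 + 1) := by rw [hδ]; exact min_le_right _ _
    rw [le_div_iff₀ (by positivity)] at h1
    nlinarith
  filter_upwards [hsm δ hδ0, hm δ hδ0, hE] with n hs hmn hEn
  obtain ⟨q, hq⟩ : ∃ q : ℕ → ℝ, q = π n := ⟨_, rfl⟩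
  have hq0 : ∀ k, 0 ≤ q k := fun k => by rw [hq]; exact hp n k
  rw [← hq] at hs hmn ⊢
  obtain ⟨S, hS⟩ : ∃ S, S = ∑ x ∈ K n, q x := ⟨_, rfl⟩
  rw [← hS] at hmn
  obtain ⟨hm1, hm2⟩ := abs_le.1 hmn
  have hS0 : 0 ≤ S := by rw [hS]; exact sum_nonneg (fun x _ => hq0 x)
  have hS2 : S ≤ 2 * E n := by nlinarith
  have hat : -a ≤ 1 - t ∧ 1 - t ≤ a := by rw [ha]; exact ⟨neg_abs_le _, le_abs_self _⟩
  have hkey : |(1 - t) * (S - E n)| ≤ a * (δ * E n) := by
    rw [abs_mul, ← ha]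
    exact mul_le_mul_of_nonneg_left hmn ha0
  obtain ⟨k1, k2⟩ := abs_le.1 hkey
  have hx : ∀ x ∈ K n, |(1 - t) * q x| ≤ 1 / 2 := by
    intro x hx
    rw [abs_mul, ← ha, abs_of_nonneg (hq0 x)]
    exact (mul_le_mul_of_nonneg_left (hs x hx) ha0).trans hδ2
  constructor
  · have h1 : Real.exp (-((1 - t) * S) - 2 * a ^ 2 * δ * S) ≤ ∏ x ∈ K n, (1 - (1 - t) * q x) := by
      have h2 : -((1 - t) * S) - 2 * a ^ 2 * δ * S = ∑ x ∈ K n, (-((1 - t) * q x) - 2 * a ^ 2 * δ * q x) := by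
        rw [sum_sub_distrib, sum_neg_distrib, ← mul_sum, ← mul_sum, hS]
      rw [h2, Real.exp_sum]
      refine prod_le_prod (fun x _ => (Real.exp_pos _).le) (fun x hxW => ?_)
      have h3 := hq0 x
      obtain ⟨y, hy⟩ : ∃ y, y = (1 - t) * q x := ⟨_, rfl⟩
      have hy1 := abs_le.1 (hx x hxW)
      rw [← hy] at hy1 ⊢
      rw [← Real.le_log_iff_exp_le (by linarith)]
      have h6 := Real.one_sub_inv_le_log_of_pos (show 0 < 1 - y by linarith)
      have h9 : y ^ 2 ≤ a ^ 2 * δ * q x := by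
        have h10 : y ^ 2 = a ^ 2 * (q x * q x) := by
          rw [hy, ha, sq_abs]; ring
        rw [h10, mul_assoc]
        apply mul_le_mul_of_nonneg_left _ (sq_nonneg a)
        exact mul_le_mul_of_nonneg_right (hs x hxW) h3
      have h7 : -y - 2 * y ^ 2 ≤ Real.log (1 - y) := by
        refine le_trans ?_ h6
        have h12 : 0 < 1 - y := by linarith
        have h13 : 1 - (1 - y)⁻¹ = -y / (1 - y) := by field_simp; ring
        rw [h13, le_div_iff₀ h12]
        nlinarith [mul_nonneg (sq_nonneg y) (show 0 ≤ 1 - 2 * y by linarith)]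
      linarith
    refine le_trans (Real.exp_le_exp.2 ?_) h1
    have h4 : 2 * a ^ 2 * δ * S ≤ 4 * a ^ 2 * δ * E n := by
      have : 2 * a ^ 2 * δ * S ≤ 2 * a ^ 2 * δ * (2 * E n) := mul_le_mul_of_nonneg_left hS2 (by positivity)
      linarith
    have h5 : (a + 4 * a ^ 2) * δ * E n ≤ γ * E n := mul_le_mul_of_nonneg_right hδ3 hEn
    nlinarith
  · have h1 : ∏ x ∈ K n, (1 - (1 - t) * q x) ≤ Real.exp (-((1 - t) * S)) := by
      rw [hS, mul_sum, ← sum_neg_distrib, Real.exp_sum]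
      refine prod_le_prod (fun x hxW => ?_) (fun x _ => ?_)
      · have := (abs_le.1 (hx x hxW)).2
        linarith
      · have := Real.add_one_le_exp (-((1 - t) * q x))
        linarith
    refine h1.trans (Real.exp_le_exp.2 ?_)
    have h5 : (a + 4 * a ^ 2) * δ * E n ≤ γ * E n := mul_le_mul_of_nonneg_right hδ3 hEn
    have h6 : 0 ≤ 4 * a ^ 2 * δ * E n := by positivity
    nlinarith

end Pool.Agent.Q197.WN
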