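import Pool.Agent.Q197.WN.Elem

/-!
# Elements in windows of length proportional to the square root
-/

set_option autoImplicit false

namespace Pool.Agent.Q197.WN

open Finset MeasureTheory Filter Pool.Agent.Q120.TT Pool.Agent.Q120.ET Pool.Agent.Q120.GM
  Pool.Agent.Q120.CL Pool.Agent.Q120.MG Pool.Agent.Q120.HL Pool.Agent.Q150.TT
open scoped Topology

/-- Elements in windows near `n ^ 2` of length about `β * n`. -/
theorem sq_elem {z : ℕ → ℕ} (hz : Small z) {u v : ℕ → ℕ} {θ c C β : ℝ} (hw : Wins u v θ) (hc : 0 < c) (hC : 0 < C) (hβ : 0 < β)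
    (h : ∀ᶠ n : ℕ in atTop, c * (n : ℝ) ^ 2 ≤ u n ∧ (u n : ℝ) ≤ C * (n : ℝ) ^ 2)
    (hg : Tendsto (fun n : ℕ => β * n / ((v n : ℝ) - u n)) atTop (𝓝 1)) {E : ℕ → ℝ}
    (hE : ∀ n : ℕ, E n = β * n / (2 * Real.log n)) :
    Phase (pr z) (fun n => Ico (u n) (v n)) (fun n => els (Ico (u n) (v n))) E (fun k M => (M : ℝ) * (2 ^ k / k)) ∧
      Low (pr z) (fun n => Ico (u n) (v n)) (fun n => els (Ico (u n) (v n))) E ∧
      High (pr z) (fun n => Ico (u n) (v n)) (fun n => els (Ico (u n) (v n))) E := by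
  have hL : Tendsto (fun n : ℕ => Real.log (u n) / (((2 : ℕ) : ℝ) * Real.log n)) atTop (𝓝 1) :=
    log_ratio (by norm_num) hc hC h
  have h1 : Asy E (wt u v 1) 1 := by
    have h2 := asy_of hw (r := 1) (σ := 1) (fun n : ℕ => β * n) (fun n : ℕ => ((2 : ℕ) : ℝ) * Real.log n) hg hL
    have e : (fun n : ℕ => (1 : ℝ) * (β * n / (((2 : ℕ) : ℝ) * Real.log n) ^ 1)) = E := by
      funext n
      rw [hE]
      norm_num
    rwa [e] at h2
  obtain ⟨h2, h3, h4⟩ := hw.elem hz h1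
  refine ⟨?_, h3, h4⟩
  have h5 := cost_explicit (Ex := E) (a := 1) (r := 1) (c := β / 2) (C := β / 2) (by positivity) (by positivity) (by
    filter_upwards with n
    rw [hE, pow_one, pow_one]
    have e : β * (n : ℝ) / (2 * Real.log n) = β / 2 * ((n : ℝ) / Real.log n) := by
      rw [mul_div_mul_comm]
    rw [e]
    exact ⟨le_rfl, le_rfl⟩)
  apply h2.congr (c := β / 2 / 2 ^ 1) (C := β / 2 * 2 ^ 1 * 2 ^ 1) (by positivity) (by positivity)
  filter_upwards [h5] with k hk M hM hM2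
  obtain ⟨h6, h7, h8⟩ := hk M hM hM2
  simp only [pow_one] at h6 h7 h8 ⊢
  exact ⟨h6, h7, h8⟩

end Pool.Agent.Q197.WN
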