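import Pool.Agent.Q197.WN.Exact
import Pool.Agent.Q197.WN.Sqr

/-!
# Two windows at once: the smaller of the two numbers
-/

set_option autoImplicit false

namespace Pool.Agent.Q197.WN

open Finset MeasureTheory Filter Pool.Agent.Q120.TT Pool.Agent.Q120.ET Pool.Agent.Q120.GM
  Pool.Agent.Q120.CL Pool.Agent.Q120.MG Pool.Agent.Q120.HL Pool.Agent.Q150.TT
open scoped Topology

/-- A number in a part of the window. -/
theorem PP_part {p : ℕ → ℝ} {s B : Finset ℕ} (hs : s ⊆ B) {N : Set ℕ → ℕ}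
    (hloc : ∀ S S' : Set ℕ, (∀ x ∈ s, (x ∈ S ↔ x ∈ S')) → N S = N S') (R : ℕ → Prop) :
    PP p B (fun T => R (N ((T : Finset ℕ) : Set ℕ))) = PP p s (fun T => R (N ((T : Finset ℕ) : Set ℕ))) := by
  rw [← PP_sub hs]
  refine PP_congr (fun T _ => ?_)
  have : N ((T : Finset ℕ) : Set ℕ) = N ((T ∩ s : Finset ℕ) : Set ℕ) := by
    apply hloc
    intro x hx
    simp [hx]
  rw [this]

/-- Numbers in two disjoint parts of the window. -/
theorem PP_parts {p : ℕ → ℝ} {s t B : Finset ℕ} (hs : s ⊆ B) (ht : t ⊆ B) (hd : Disjoint s t) {N M : Set ℕ → ℕ}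
    (hN : ∀ S S' : Set ℕ, (∀ x ∈ s, (x ∈ S ↔ x ∈ S')) → N S = N S')
    (hM : ∀ S S' : Set ℕ, (∀ x ∈ t, (x ∈ S ↔ x ∈ S')) → M S = M S') (R Q : ℕ → Prop) :
    PP p B (fun T => R (N ((T : Finset ℕ) : Set ℕ)) ∧ Q (M ((T : Finset ℕ) : Set ℕ))) =
      PP p s (fun T => R (N ((T : Finset ℕ) : Set ℕ))) * PP p t (fun T => Q (M ((T : Finset ℕ) : Set ℕ))) := by
  rw [← PP_prod hd, ← PP_sub (Finset.union_subset hs ht)]
  refine PP_congr (fun T _ => ?_)
  have e1 : N ((T : Finset ℕ) : Set ℕ) = N ((T ∩ (s ∪ t) ∩ s : Finset ℕ) : Set ℕ) := by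
    apply hN
    intro x hx
    simp [hx]
  have e2 : M ((T : Finset ℕ) : Set ℕ) = M ((T ∩ (s ∪ t) ∩ t : Finset ℕ) : Set ℕ) := by
    apply hM
    intro x hx
    simp [hx]
  rw [e1, e2]

section

variable {p : ℕ → ℝ} {W W₁ W₂ : ℕ → Finset ℕ} {N₁ N₂ : ℕ → Set ℕ → ℕ} {E : ℕ → ℝ}

/-- The smaller of two numbers in disjoint parts of a window. -/
theorem min_model (h₁ : WModel p W₁ N₁ E) (h₂ : WModel p W₂ N₂ E) (hW₁ : ∀ n, W₁ n ⊆ W n) (hW₂ : ∀ n, W₂ n ⊆ W n)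
    (hdis : ∀ i j, i ≠ j → Disjoint (W i) (W j)) (hhalf : ∀ᶠ n : ℕ in atTop, ∀ x ∈ W n, p x ≤ 1 / 2) :
    WModel p W (fun n S => min (N₁ n S) (N₂ n S)) E where
  prob := h₁.prob
  disj := hdis
  half := hhalf
  loc := by
    intro n S S' h
    rw [h₁.loc n S S' (fun x hx => h x (hW₁ n hx)), h₂.loc n S S' (fun x hx => h x (hW₂ n hx))]
  grow := h₁.grow
  dev := by
    intro ε hε
    obtain ⟨C1, c1, hC1, hc1, hd1⟩ := h₁.dev ε hε
    obtain ⟨C2, c2, hC2, hc2, hd2⟩ := h₂.dev ε hε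
    refine ⟨C1 + C2, min c1 c2, by linarith, lt_min hc1 hc2, ?_⟩
    filter_upwards [hd1, hd2, h₁.tend.eventually_ge_atTop 0] with n hn1 hn2 hE
    have k1 : PP p (W n) (fun T => ε * E n ≤ |((min (N₁ n ((T : Finset ℕ) : Set ℕ)) (N₂ n ((T : Finset ℕ) : Set ℕ)) : ℕ) : ℝ) - E n|) ≤
        PP p (W n) (fun T => ε * E n ≤ |(N₁ n ((T : Finset ℕ) : Set ℕ) : ℝ) - E n| ∨
          ε * E n ≤ |(N₂ n ((T : Finset ℕ) : Set ℕ) : ℝ) - E n|) := by
      refine PP_mono h₁.prob (fun T _ hT => ?_)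
      rcases min_choice (N₁ n ((T : Finset ℕ) : Set ℕ)) (N₂ n ((T : Finset ℕ) : Set ℕ)) with h | h
      · left; rw [h] at hT; exact hT
      · right; rw [h] at hT; exact hT
    refine k1.trans ((PP_or h₁.prob).trans ?_)
    rw [PP_part (hW₁ n) (h₁.loc n) (fun m => ε * E n ≤ |(m : ℝ) - E n|),
      PP_part (hW₂ n) (h₂.loc n) (fun m => ε * E n ≤ |(m : ℝ) - E n|), add_mul]
    refine add_le_add (hn1.trans ?_) (hn2.trans ?_)
    · apply mul_le_mul_of_nonneg_left _ hC1.le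
      apply Real.exp_le_exp.2
      have := mul_le_mul_of_nonneg_right (min_le_left c1 c2) hE
      linarith
    · apply mul_le_mul_of_nonneg_left _ hC2.le
      apply Real.exp_le_exp.2
      have := mul_le_mul_of_nonneg_right (min_le_right c1 c2) hE
      linarith
  void := by
    obtain ⟨C, hC, hv⟩ := h₁.void
    refine ⟨C, hC, ?_⟩
    filter_upwards [hv] with n hn
    refine hn.trans ?_
    rw [← PP_part (hW₁ n) (h₁.loc n) (fun m => m = 0)]
    refine PP_mono h₁.prob (fun T _ hT => ?_)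
    have h0 : N₁ n ((T : Finset ℕ) : Set ℕ) = 0 := hT
    show min (N₁ n ((T : Finset ℕ) : Set ℕ)) (N₂ n ((T : Finset ℕ) : Set ℕ)) = 0
    rw [h0]
    exact Nat.zero_min _

theorem min_low (h₁ : WSharp p W₁ N₁ E) (h₂ : WSharp p W₂ N₂ E) (hW₁ : ∀ n, W₁ n ⊆ W n) (hW₂ : ∀ n, W₂ n ⊆ W n)
    (hd : ∀ n, Disjoint (W₁ n) (W₂ n)) (h : WModel p W (fun n S => min (N₁ n S) (N₂ n S)) E)
    {R₁ R₂ : Set ℝ} (hl₁ : WLap p W₁ N₁ E R₁) (hR₁ : ∀ t : ℝ, 0 < t → t ≤ 1 → t ∈ R₁)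
    (hl₂ : WLap p W₂ N₂ E R₂) (hR₂ : ∀ t : ℝ, 0 < t → t ≤ 1 → t ∈ R₂) :
    Low p W (fun n S => min (N₁ n S) (N₂ n S)) E := by
  intro θ h0 h1 ε hε
  have hr : 0 < rate θ := rate_pos h0 h1.ne
  constructor
  · intro Ω _ μ _ A hA hs
    refine price_up h (R := fun n m => (m : ℝ) ≤ θ * E n) hr ?_ hε hA hs
    intro δ hδ
    obtain ⟨C1, hC1, hu1⟩ := fact_up h₁ hl₁ hR₁ h0 h1 hδ
    obtain ⟨C2, hC2, hu2⟩ := fact_up h₂ hl₂ hR₂ h0 h1 hδ
    refine ⟨C1 + C2, by linarith, ?_⟩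
    filter_upwards [hu1, hu2] with n hn1 hn2
    have k1 : PP p (W n) (fun T => ((min (N₁ n ((T : Finset ℕ) : Set ℕ)) (N₂ n ((T : Finset ℕ) : Set ℕ)) : ℕ) : ℝ) ≤ θ * E n) ≤
        PP p (W n) (fun T => (N₁ n ((T : Finset ℕ) : Set ℕ) : ℝ) ≤ θ * E n ∨
          (N₂ n ((T : Finset ℕ) : Set ℕ) : ℝ) ≤ θ * E n) := by
      refine PP_mono h.prob (fun T _ hT => ?_)
      rcases min_choice (N₁ n ((T : Finset ℕ) : Set ℕ)) (N₂ n ((T : Finset ℕ) : Set ℕ)) with h | h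
      · left; rw [h] at hT; exact hT
      · right; rw [h] at hT; exact hT
    refine k1.trans ((PP_or h.prob).trans ?_)
    rw [PP_part (hW₁ n) (h₁.loc n) (fun m => (m : ℝ) ≤ θ * E n), PP_part (hW₂ n) (h₂.loc n) (fun m => (m : ℝ) ≤ θ * E n), add_mul]
    exact add_le_add hn1 hn2
  · intro M q hM hq
    have hlo : ∀ᶠ n : ℕ in atTop, Real.exp (-((1 + ε) * rate θ * E n)) ≤
        PP p (W n) (fun T => (θ - ε) * E n ≤ ((min (N₁ n ((T : Finset ℕ) : Set ℕ)) (N₂ n ((T : Finset ℕ) : Set ℕ)) : ℕ) : ℝ) ∧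
          ((min (N₁ n ((T : Finset ℕ) : Set ℕ)) (N₂ n ((T : Finset ℕ) : Set ℕ)) : ℕ) : ℝ) ≤ θ * E n) := by
      obtain ⟨C2, c2, hC2, hc2, hd2⟩ := h₂.dev ((1 - θ) / 2) (by linarith)
      have hsmall : ∀ᶠ n : ℕ in atTop, C2 * Real.exp (-(c2 * E n)) ≤ 1 / 2 := by
        have t1 : Tendsto (fun n : ℕ => C2 * Real.exp (-(c2 * E n))) atTop (𝓝 (C2 * 0)) :=
          tendsto_const_nhds.mul (Real.tendsto_exp_neg_atTop_nhds_zero.comp (h.tend.const_mul_atTop hc2))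
        rw [mul_zero] at t1
        filter_upwards [t1.eventually (Iio_mem_nhds (show (0 : ℝ) < 1 / 2 by norm_num))] with n hn
        exact (show C2 * Real.exp (-(c2 * E n)) < 1 / 2 from hn).le
      filter_upwards [fact_lo h₁ hl₁ hR₁ h0 h1 (show 0 < ε / 2 by linarith), hd2, hsmall, h.tend.eventually_gt_atTop 0,
        h.tend.eventually_ge_atTop (Real.log 2 / (ε / 2 * rate θ))] with n hn hn2 hsm hE hb1
      have k1 : PP p (W n) (fun T => ((θ - ε / 2) * E n ≤ N₁ n ((T : Finset ℕ) : Set ℕ) ∧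
          (N₁ n ((T : Finset ℕ) : Set ℕ) : ℝ) ≤ θ * E n) ∧ θ * E n < N₂ n ((T : Finset ℕ) : Set ℕ)) ≤
          PP p (W n) (fun T => (θ - ε) * E n ≤ ((min (N₁ n ((T : Finset ℕ) : Set ℕ)) (N₂ n ((T : Finset ℕ) : Set ℕ)) : ℕ) : ℝ) ∧
          ((min (N₁ n ((T : Finset ℕ) : Set ℕ)) (N₂ n ((T : Finset ℕ) : Set ℕ)) : ℕ) : ℝ) ≤ θ * E n) := by
        refine PP_mono h.prob (fun T _ hT => ?_)
        obtain ⟨⟨a1, a2⟩, a3⟩ := hT
        have a4 : N₁ n ((T : Finset ℕ) : Set ℕ) < N₂ n ((T : Finset ℕ) : Set ℕ) := by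
          have : (N₁ n ((T : Finset ℕ) : Set ℕ) : ℝ) < N₂ n ((T : Finset ℕ) : Set ℕ) := by linarith
          exact_mod_cast this
        rw [min_eq_left a4.le]
        exact ⟨by nlinarith, a2⟩
      refine le_trans ?_ k1
      rw [PP_parts (hW₁ n) (hW₂ n) (hd n) (h₁.loc n) (h₂.loc n)
        (fun m => (θ - ε / 2) * E n ≤ m ∧ (m : ℝ) ≤ θ * E n) (fun m => θ * E n < m)]
      have k2 : (1 : ℝ) ≤ PP p (W₂ n) (fun T => θ * E n < N₂ n ((T : Finset ℕ) : Set ℕ)) + 1 / 2 := by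
        have k0 := PP_true (p := p) (B := W₂ n)
        refine k0.symm.le.trans ?_
        refine (PP_mono h.prob (G := fun T => θ * E n < N₂ n ((T : Finset ℕ) : Set ℕ) ∨
          (1 - θ) / 2 * E n ≤ |(N₂ n ((T : Finset ℕ) : Set ℕ) : ℝ) - E n|) (fun T _ _ => ?_)).trans ((PP_or h.prob).trans ?_)
        · by_cases h3 : θ * E n < N₂ n ((T : Finset ℕ) : Set ℕ)
          · exact Or.inl h3
          · right
            rw [not_lt] at h3
            have h4 := neg_le_abs ((N₂ n ((T : Finset ℕ) : Set ℕ) : ℝ) - E n)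
            nlinarith
        · exact add_le_add le_rfl (hn2.trans hsm)
      have k3 : 1 / 2 ≤ PP p (W₂ n) (fun T => θ * E n < N₂ n ((T : Finset ℕ) : Set ℕ)) := by linarith
      have k4 : Real.exp (Real.log 2) * Real.exp (-((1 + ε) * rate θ * E n)) ≤ Real.exp (-((1 + ε / 2) * rate θ * E n)) := by
        rw [← Real.exp_add]
        apply Real.exp_le_exp.2
        rw [div_le_iff₀ (by positivity)] at hb1
        linarith
      rw [Real.exp_log (by norm_num)] at k4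
      have k5 : Real.exp (-((1 + ε / 2) * rate θ * E n)) * (1 / 2) ≤
          PP p (W₁ n) (fun T => (θ - ε / 2) * E n ≤ N₁ n ((T : Finset ℕ) : Set ℕ) ∧ (N₁ n ((T : Finset ℕ) : Set ℕ) : ℝ) ≤ θ * E n) *
            PP p (W₂ n) (fun T => θ * E n < N₂ n ((T : Finset ℕ) : Set ℕ)) :=
        mul_le_mul hn k3 (by norm_num) (PP_nonneg h.prob)
      linarith
    have h3 := price_lo h (R := fun n m => (θ - ε) * E n ≤ m ∧ (m : ℝ) ≤ θ * E n) hlo hM hq
    simp only [mul_assoc] at h3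
    exact h3

end

section

variable {z : ℕ → ℕ} {θ₁ θ₂ : ℝ} {u w w' v : ℕ → ℕ}

/-- The size of the windows near `n ^ 2` of length about `β * n`. -/
theorem sq_asy {u v : ℕ → ℕ} {θ c C β : ℝ} (hw : Wins u v θ) (hc : 0 < c) (hC : 0 < C)
    (h : ∀ᶠ n : ℕ in atTop, c * (n : ℝ) ^ 2 ≤ u n ∧ (u n : ℝ) ≤ C * (n : ℝ) ^ 2)
    (hg : Tendsto (fun n : ℕ => β * n / ((v n : ℝ) - u n)) atTop (𝓝 1)) {E : ℕ → ℝ}
    (hE : ∀ n : ℕ, E n = β * n / (2 * Real.log n)) : Asy E (wt u v 1) 1 := by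
  have hL : Tendsto (fun n : ℕ => Real.log (u n) / (((2 : ℕ) : ℝ) * Real.log n)) atTop (𝓝 1) :=
    log_ratio (by norm_num) hc hC h
  have h2 := asy_of hw (r := 1) (σ := 1) (fun n : ℕ => β * n) (fun n : ℕ => ((2 : ℕ) : ℝ) * Real.log n) hg hL
  have e : (fun n : ℕ => (1 : ℝ) * (β * n / (((2 : ℕ) : ℝ) * Real.log n) ^ 1)) = E := by
    funext n
    rw [hE]
    norm_num
  rwa [e] at h2

/-- The threshold for windows near `n ^ 2` of length about `β * n`. -/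
theorem sq_phase {p : ℕ → ℝ} {W : ℕ → Finset ℕ} {N : ℕ → Set ℕ → ℕ} {β : ℝ} (hβ : 0 < β) {E : ℕ → ℝ}
    (hE : ∀ n : ℕ, E n = β * n / (2 * Real.log n)) (h : Phase p W N E (fun k M => cost E (block k) M)) :
    Phase p W N E (fun k M => (M : ℝ) * (2 ^ k / k)) := by
  have h5 := cost_explicit (Ex := E) (a := 1) (r := 1) (c := β / 2) (C := β / 2) (by positivity) (by positivity) (by
    filter_upwards with n
    rw [hE, pow_one, pow_one]
    have e : β * (n : ℝ) / (2 * Real.log n) = β / 2 * ((n : ℝ) / Real.log n) := by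
      rw [mul_div_mul_comm]
    rw [e]
    exact ⟨le_rfl, le_rfl⟩)
  apply h.congr (c := β / 2 / 2 ^ 1) (C := β / 2 * 2 ^ 1 * 2 ^ 1) (by positivity) (by positivity)
  filter_upwards [h5] with k hk M hM hM2
  obtain ⟨h6, h7, h8⟩ := hk M hM hM2
  simp only [pow_one] at h6 h7 h8 ⊢
  exact ⟨h6, h7, h8⟩

theorem lin_ratio {β γ : ℝ} (hβ : 0 < β) {f : ℕ → ℝ} (hf : ∀ᶠ n : ℕ in atTop, f n = β * n + γ) :
    Tendsto (fun n : ℕ => β * n / f n) atTop (𝓝 1) := by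
  have h4 : Tendsto (fun n : ℕ => 1 + (γ / β) * ((n : ℝ))⁻¹) atTop (𝓝 (1 + γ / β * 0)) :=
    tendsto_const_nhds.add (tendsto_const_nhds.mul (tendsto_inv_atTop_zero.comp tendsto_natCast_atTop_atTop))
  rw [mul_zero, add_zero] at h4
  have h6 := h4.inv₀ one_ne_zero
  rw [inv_one] at h6
  refine h6.congr' ?_
  filter_upwards [eventually_ge_atTop 1, hf] with n hn hfn
  have hn' : (n : ℝ) ≠ 0 := by exact_mod_cast (by omega : n ≠ 0)
  rw [hfn, ← inv_div]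
  have hb := hβ.ne'
  field_simp

/-- The smaller of the numbers of elements in two parts of a window. -/
theorem half_elem (hl : Wins u w θ₁) (hr : Wins w' v θ₂) (h1 : ∀ n, w n ≤ w' n) (h2 : ∀ n, w n ≤ v n ∧ u n ≤ w' n)
    (hdis : ∀ i j, i ≠ j → Disjoint (Ico (u i) (v i)) (Ico (u j) (v j))) (hz : Small z) {Ex : ℕ → ℝ}
    (hE1 : Asy Ex (wt u w 1) 1) (hE2 : Asy Ex (wt w' v 1) 1) :
    Phase (pr z) (fun n => Ico (u n) (v n)) (fun n S => min (els (Ico (u n) (w n)) S) (els (Ico (w' n) (v n)) S)) Ex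
      (fun k M => cost Ex (block k) M) ∧
      Low (pr z) (fun n => Ico (u n) (v n)) (fun n S => min (els (Ico (u n) (w n)) S) (els (Ico (w' n) (v n)) S)) Ex := by
  have e1 : (fun n => els (Ico (u n) (w n))) = (fun n => pat {0} {0} 0 (u n) (w n)) := by
    funext n S
    rw [pat_els]
  have e2 : (fun n => els (Ico (w' n) (v n))) = (fun n => pat {0} {0} 0 (w' n) (v n)) := by
    funext n S
    rw [pat_els]
  have s1 := hl.sharp (D := {0}) (H := 0) (tend_one z) hz (by simp) (singleton_nonempty 0) one_pos hE1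
  have s2 := hr.sharp (D := {0}) (H := 0) (tend_one z) hz (by simp) (singleton_nonempty 0) one_pos hE2
  have l1 := hl.lap_elem hz hE1
  have l2 := hr.lap_elem hz hE2
  rw [← e1] at s1 l1
  rw [← e2] at s2 l2
  have hW1 : ∀ n, Ico (u n) (w n) ⊆ Ico (u n) (v n) := fun n => Ico_subset_Ico_right (h2 n).1
  have hW2 : ∀ n, Ico (w' n) (v n) ⊆ Ico (u n) (v n) := fun n => Ico_subset_Ico_left (h2 n).2
  have hm := min_model s1.toWModel s2.toWModel hW1 hW2 hdis (by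
    filter_upwards [hl.small hz (show (0 : ℝ) < 1 / 2 by norm_num)] with n hn x hx
    exact hn x (mem_Ico.1 hx).1)
  refine ⟨phase hm, min_low s1 s2 hW1 hW2 (fun n => ?_) hm l1 (fun t h _ => h) l2 (fun t h _ => h)⟩
  rw [Finset.disjoint_left]
  intro x hx hx'
  rw [mem_Ico] at hx hx'
  have := h1 n
  omega

end

end Pool.Agent.Q197.WN
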