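import Pool.Agent.Q197.WN.Mach

/-!
# Entropy budgets for the number of exceptional windows: statements and the abstract theorem
-/

set_option autoImplicit false

namespace Pool.Agent.Q197.WN

open Finset MeasureTheory Filter Pool.Agent.Q120.TT Pool.Agent.Q120.ET Pool.Agent.Q120.GM
open scoped Topology

/-- The union of the windows whose index `n` is in the block `k`: `2 ^ k ≤ n < 2 ^ (k + 1)`. -/
def un (W : ℕ → Finset ℕ) (k : ℕ) : Finset ℕ := (block k).biUnion W

open Classical in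
/-- The number of the indices `n` of the block `k` with `Q n S`. -/
noncomputable def exc (Q : ℕ → Set ℕ → Prop) (k : ℕ) (S : Set ℕ) : ℕ := ((block k).filter (fun n => Q n S)).card

/-- Every random set with the relative entropies `d k` has almost surely, for all large `k`, fewer than `M k` indices `n` of the
block `k` with the property `Q n`. -/
def Few (p : ℕ → ℝ) (W : ℕ → Finset ℕ) (d : ℕ → ℝ) (M : ℕ → ℕ) (Q : ℕ → Set ℕ → Prop) : Prop :=
  ∀ (Ω : Type) [MeasurableSpace Ω] (μ : Measure Ω) [IsProbabilityMeasure μ] (A : Ω → Set ℕ), Near p (un W) d μ A →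
    ∀ᵐ ω ∂μ, ∀ᶠ k : ℕ in atTop, exc Q k (A ω) < M k

/-- Some random set with the relative entropies `d k` has almost surely, for infinitely many `k`, at least `M k` such indices. -/
def Often (p : ℕ → ℝ) (W : ℕ → Finset ℕ) (d : ℕ → ℝ) (M : ℕ → ℕ) (Q : ℕ → Set ℕ → Prop) : Prop :=
  ∃ (Ω : Type) (_ : MeasurableSpace Ω) (μ : Measure Ω) (_ : IsProbabilityMeasure μ) (A : Ω → Set ℕ), Near p (un W) d μ A ∧
    ∀ᵐ ω ∂μ, ∃ᶠ k : ℕ in atTop, M k ≤ exc Q k (A ω)

/-- The phase diagram: the exact entropy budget for fewer than `M k` exceptional windows in the block `k`. -/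
def Phase (p : ℕ → ℝ) (W : ℕ → Finset ℕ) (N : ℕ → Set ℕ → ℕ) (E : ℕ → ℝ) (U : ℕ → ℕ → ℝ) : Prop :=
  ∀ (d : ℕ → ℝ) (M : ℕ → ℕ), (∀ k, 0 ≤ d k) → (∀ k, 1 ≤ M k ∧ M k ≤ 2 ^ k) →
    (Summable (fun k => d k / U k (M k)) ↔ ∀ ε : ℝ, 0 < ε → Few p W d M (fun n S => ε * E n ≤ |(N n S : ℝ) - E n|)) ∧
    (∀ j : ℕ, Summable (fun k => d k / U k (M k)) ↔ Few p W d M (fun n S => N n S ≤ j)) ∧
    (¬ Summable (fun k => d k / U k (M k)) → Often p W d M (fun n S => N n S = 0))

/-- The price: the least relative entropy, in the block `k`, of a random set which has with probability `q` at least `M` windows with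
at most `j` patterns is `q U (1 + o(1))`, where `U` is the sum of the `M` smallest `E n`. -/
def Price (p : ℕ → ℝ) (W : ℕ → Finset ℕ) (N : ℕ → Set ℕ → ℕ) (E : ℕ → ℝ) : Prop :=
  (∀ ε : ℝ, 0 < ε → ∀ (j : ℕ) (Ω : Type) [MeasurableSpace Ω] (μ : Measure Ω) [IsProbabilityMeasure μ] (A : Ω → Set ℕ),
    IsRandomSet A → (∀ᵐ ω ∂μ, ∀ n ∈ A ω, 0 < p n) → ∀ᶠ k : ℕ in atTop, ∀ M : ℕ, 1 ≤ M → M ≤ 2 ^ k →
      (1 - ε) * (cost E (block k) M * μ.real {ω | M ≤ exc (fun n S => N n S ≤ j) k (A ω)}) ≤ 1 + relEnt p μ A (un W k)) ∧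
  (∀ ε : ℝ, 0 < ε → ∀ (M : ℕ → ℕ) (q : ℕ → ℝ), (∀ k, M k ≤ 2 ^ k) → (∀ k, 0 ≤ q k ∧ q k ≤ 1) →
    ∃ (Ω : Type) (_ : MeasurableSpace Ω) (μ : Measure Ω) (_ : IsProbabilityMeasure μ) (A : Ω → Set ℕ),
      Near p (un W) (fun k => (1 + ε) * (q k * cost E (block k) (M k))) μ A ∧
        ∀ᶠ k : ℕ in atTop, q k ≤ μ.real {ω | M k ≤ exc (fun n S => N n S = 0) k (A ω)})

/-- The facts about one window. -/
structure WModel (p : ℕ → ℝ) (W : ℕ → Finset ℕ) (N : ℕ → Set ℕ → ℕ) (E : ℕ → ℝ) : Prop where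
  prob : ∀ n, 0 ≤ p n ∧ p n ≤ 1
  disj : ∀ i j, i ≠ j → Disjoint (W i) (W j)
  half : ∀ᶠ n : ℕ in atTop, ∀ x ∈ W n, p x ≤ 1 / 2
  loc : ∀ n (S S' : Set ℕ), (∀ x ∈ W n, (x ∈ S ↔ x ∈ S')) → N n S = N n S'
  grow : ∃ η : ℝ, 0 < η ∧ ∀ᶠ n : ℕ in atTop, (n : ℝ) ^ η ≤ E n
  dev : ∀ ε : ℝ, 0 < ε → ∃ C c : ℝ, 0 < C ∧ 0 < c ∧ ∀ᶠ n : ℕ in atTop,
    PP p (W n) (fun T => ε * E n ≤ |(N n ((T : Finset ℕ) : Set ℕ) : ℝ) - E n|) ≤ C * Real.exp (-(c * E n))
  void : ∃ C : ℝ, 0 < C ∧ ∀ᶠ n : ℕ in atTop,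
    Real.exp (-(C * E n)) ≤ PP p (W n) (fun T => N n ((T : Finset ℕ) : Set ℕ) = 0)

/-- The sharp probabilities of an empty window. -/
structure WSharp (p : ℕ → ℝ) (W : ℕ → Finset ℕ) (N : ℕ → Set ℕ → ℕ) (E : ℕ → ℝ) : Prop extends WModel p W N E where
  lo : ∀ ε : ℝ, 0 < ε → ∀ᶠ n : ℕ in atTop,
    Real.exp (-((1 + ε) * E n)) ≤ PP p (W n) (fun T => N n ((T : Finset ℕ) : Set ℕ) = 0)
  up : ∀ (j : ℕ) (ε : ℝ), 0 < ε → ∃ C : ℝ, 0 < C ∧ ∀ᶠ n : ℕ in atTop,
    PP p (W n) (fun T => N n ((T : Finset ℕ) : Set ℕ) ≤ j) ≤ C * Real.exp (-((1 - ε) * E n))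

section

variable {p : ℕ → ℝ} {W : ℕ → Finset ℕ} {N : ℕ → Set ℕ → ℕ} {E : ℕ → ℝ}

theorem block_card (k : ℕ) : (block k).card = 2 ^ k := by
  unfold block
  rw [Nat.card_Ico, pow_succ]
  omega

theorem block_disj (i j : ℕ) (h : i ≠ j) : Disjoint (block i) (block j) := by
  rw [Finset.disjoint_left]
  intro x hx hx'
  apply h
  rw [block, mem_Ico] at hx hx'
  have h1 : Nat.log 2 x = i := Nat.log_eq_of_pow_le_of_lt_pow hx.1 hx.2
  have h2 : Nat.log 2 x = j := Nat.log_eq_of_pow_le_of_lt_pow hx'.1 hx'.2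
  rw [← h1, ← h2]

theorem ev_block {P : ℕ → Prop} (h : ∀ᶠ n : ℕ in atTop, P n) : ∀ᶠ k : ℕ in atTop, ∀ n ∈ block k, P n := by
  obtain ⟨K, hK⟩ := eventually_atTop.1 h
  filter_upwards [eventually_ge_atTop K] with k hk n hn
  rw [block, mem_Ico] at hn
  have := (Nat.lt_two_pow_self (n := k)).le
  exact hK n (by omega)

theorem card_exp : ∀ᶠ k : ℕ in atTop, ((block k).card : ℝ) ≤ Real.exp (Real.log 2 * k) := by
  filter_upwards with k
  rw [block_card, Real.exp_mul, Real.exp_log (by norm_num), Real.rpow_natCast]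
  push_cast
  exact le_rfl

theorem WModel.sq (h : WModel p W N E) : ∀ᶠ k : ℕ in atTop, ∀ n ∈ block k, (k : ℝ) ^ 2 ≤ E n := by
  obtain ⟨η, hη, hg⟩ := h.grow
  filter_upwards [Pool.Agent.Q120.CL.ev_two 1 2 hη, ev_block hg] with k hk hkn n hn
  refine le_trans ?_ (hkn n hn)
  rw [one_mul] at hk
  refine hk.trans ?_
  rw [block, mem_Ico] at hn
  apply Real.rpow_le_rpow (by positivity) _ hη.le
  exact_mod_cast hn.1

/-- The count of a window, through the trace on the block. -/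
theorem exc_eq (hloc : ∀ n (S S' : Set ℕ), (∀ x ∈ W n, (x ∈ S ↔ x ∈ S')) → N n S = N n S') {Ω : Type} [MeasurableSpace Ω]
    {A : Ω → Set ℕ} (R : ℕ → ℕ → Prop) (k : ℕ) (ω : Ω) :
    exc (fun n S => R n (N n S)) k (A ω) =
      many W (block k) (fun n T => R n (N n ((T : Finset ℕ) : Set ℕ))) (tr A ((block k).biUnion W) ω) := by
  classical
  unfold exc many
  refine congrArg card (filter_congr (fun n hn => ?_))
  have h1 : N n (A ω) = N n (((tr A ((block k).biUnion W) ω ∩ W n : Finset ℕ)) : Set ℕ) := by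
    refine hloc n _ _ (fun x hx => ?_)
    rw [Finset.mem_coe, mem_inter, mem_tr, mem_biUnion]
    constructor
    · exact fun h => ⟨⟨⟨n, hn, hx⟩, h⟩, hx⟩
    · exact fun h => h.1.2
  show R n (N n (A ω)) ↔ R n (N n (((tr A ((block k).biUnion W) ω ∩ W n : Finset ℕ)) : Set ℕ))
  rw [h1]

theorem few_of (h : WModel p W N E) {d : ℕ → ℝ} {M : ℕ → ℕ} (hM : ∀ k, 1 ≤ M k ∧ M k ≤ 2 ^ k)
    (hs : Summable (fun k => d k / cost E (block k) (M k))) {R : ℕ → ℕ → Prop} {C c : ℝ} (hC : 0 < C) (hc : 0 < c)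
    (hR : ∀ᶠ n : ℕ in atTop, PP p (W n) (fun T => R n (N n ((T : Finset ℕ) : Set ℕ))) ≤ C * Real.exp (-(c * E n))) :
    Few p W d M (fun n S => R n (N n S)) := by
  intro Ω _ μ _ A hA
  have h1 := mach_up (I := block) (e := E) h.prob h.disj card_exp h.sq (ev_block h.half) hC hc (ev_block hR)
    (fun k => (hM k).1) (fun k => by rw [block_card]; exact (hM k).2) hs hA
  filter_upwards [h1] with ω hω
  filter_upwards [hω] with k hk
  rw [exc_eq h.loc]
  exact hk

theorem often_of (h : WModel p W N E) {d : ℕ → ℝ} {M : ℕ → ℕ} (hd : ∀ k, 0 ≤ d k) (hM : ∀ k, 1 ≤ M k ∧ M k ≤ 2 ^ k)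
    (hs : ¬ Summable (fun k => d k / cost E (block k) (M k))) : Often p W d M (fun n S => N n S = 0) := by
  obtain ⟨C, hC, hv⟩ := h.void
  have hM2 : ∀ k, M k ≤ (block k).card := fun k => by rw [block_card]; exact (hM k).2
  have hc0 : ∀ᶠ k : ℕ in atTop, 0 < cost E (block k) (M k) := by
    filter_upwards [h.sq, eventually_ge_atTop 1] with k hk hk1
    have h1 := le_cost (e := E) (hM2 k) hk
    have h2 : (0 : ℝ) < k := by exact_mod_cast hk1
    have h3 : (0 : ℝ) < M k := by exact_mod_cast (hM k).1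
    exact lt_of_lt_of_le (by positivity) h1
  obtain ⟨q, hq⟩ : ∃ q : ℕ → ℝ, q = fun k => min 1 (|d k / (C * cost E (block k) (M k))|) := ⟨_, rfl⟩
  have hq0 : ∀ k, 0 ≤ q k := fun k => by rw [hq]; exact le_min zero_le_one (abs_nonneg _)
  have hq1 : ∀ k, q k ≤ 1 := fun k => by rw [hq]; exact min_le_left _ _
  obtain ⟨Ω, mΩ, μ, hμ, A, hA1, hA2, hA3, hA4, hA5⟩ := mach_down (I := block) (e := E) (M := M) h.prob h.disj block_disj
    (ev_block hv) hM2 hq0 hq1
  refine ⟨Ω, mΩ, μ, hμ, A, ⟨hA1, hA2, ?_⟩, ?_⟩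
  · filter_upwards [hA3, hc0] with k hk hck
    refine hk.trans ?_
    have h1 : q k ≤ d k / (C * cost E (block k) (M k)) := by
      rw [hq]
      refine (min_le_right _ _).trans (le_of_eq (abs_of_nonneg ?_))
      have := hd k
      positivity
    have h2 : 0 < C * cost E (block k) (M k) := by positivity
    calc q k * (C * cost E (block k) (M k)) ≤ d k / (C * cost E (block k) (M k)) * (C * cost E (block k) (M k)) :=
          mul_le_mul_of_nonneg_right h1 h2.le
      _ = d k := by field_simp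
  · have hns : ¬ Summable q := by
      rw [hq]
      apply not_summable_min
      intro hcon
      apply hs
      refine Summable.of_norm_bounded_eventually_nat (hcon.mul_left C) ?_
      filter_upwards [hc0] with k hk
      have h1 := hd k
      rw [Real.norm_eq_abs, abs_of_nonneg (by positivity), abs_of_nonneg (by positivity)]
      apply le_of_eq
      field_simp
    filter_upwards [hA5 hns] with ω hω
    refine hω.mono (fun k hk => ?_)
    rw [exc_eq h.loc (fun _ m => m = 0)]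
    exact hk

theorem not_few {d : ℕ → ℝ} {M : ℕ → ℕ} {Q Q' : ℕ → Set ℕ → Prop} (h : Often p W d M Q')
    (hQ : ∀ᶠ n : ℕ in atTop, ∀ S, Q' n S → Q n S) : ¬ Few p W d M Q := by
  classical
  intro hf
  obtain ⟨Ω, mΩ, μ, hμ, A, hA, hA2⟩ := h
  have h1 := hf Ω μ A hA
  have h2 : ∀ᵐ ω ∂μ, False := by
    filter_upwards [h1, hA2] with ω hω hω2
    obtain ⟨k, hk1, hk2, hk3⟩ := (hω2.and_eventually (hω.and (ev_block hQ))).exists
    have h3 : exc Q' k (A ω) ≤ exc Q k (A ω) := by
      unfold exc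
      refine card_le_card (fun n hn => ?_)
      rw [mem_filter] at hn ⊢
      exact ⟨hn.1, hk3 n hn.1 _ hn.2⟩
    omega
  rw [ae_iff] at h2
  simp at h2

/-- **The phase diagram.** -/
theorem phase (h : WModel p W N E) : Phase p W N E (fun k M => cost E (block k) M) := by
  intro d M hd hM
  obtain ⟨η, hη, hg⟩ := h.grow
  have hEt : Tendsto E atTop atTop := by
    refine tendsto_atTop_mono' atTop hg ?_
    exact (tendsto_rpow_atTop hη).comp tendsto_natCast_atTop_atTop
  have hdev : ∀ ε : ℝ, 0 < ε → Summable (fun k => d k / cost E (block k) (M k)) →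
      Few p W d M (fun n S => ε * E n ≤ |(N n S : ℝ) - E n|) := by
    intro ε hε hs
    obtain ⟨C, c, hC, hc, hR⟩ := h.dev ε hε
    exact few_of h hM hs (R := fun n m => ε * E n ≤ |(m : ℝ) - E n|) hC hc hR
  have hj : ∀ j : ℕ, Summable (fun k => d k / cost E (block k) (M k)) → Few p W d M (fun n S => N n S ≤ j) := by
    intro j hs
    obtain ⟨C, c, hC, hc, hR⟩ := h.dev (1 / 2) (by norm_num)
    refine few_of h hM hs (R := fun n m => m ≤ j) hC hc ?_
    filter_upwards [hR, hEt.eventually_ge_atTop (2 * (j : ℝ))] with n hn hnj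
    refine (PP_mono h.prob (fun T _ hT => ?_)).trans hn
    have h1 : (N n ((T : Finset ℕ) : Set ℕ) : ℝ) ≤ j := by exact_mod_cast hT
    have h2 : E n - N n ((T : Finset ℕ) : Set ℕ) ≤ |(N n ((T : Finset ℕ) : Set ℕ) : ℝ) - E n| := by
      rw [abs_sub_comm]
      exact le_abs_self _
    linarith
  refine ⟨⟨fun hs ε hε => hdev ε hε hs, fun hf => ?_⟩, fun j => ⟨hj j, fun hf => ?_⟩, fun hs => often_of h hd hM hs⟩
  · by_contra hs
    refine not_few (often_of h hd hM hs) ?_ (hf 1 one_pos)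
    filter_upwards [hEt.eventually_ge_atTop 0] with n hn S hS
    rw [hS]
    rw [Nat.cast_zero, zero_sub, abs_neg, one_mul]
    exact le_abs_self _
  · by_contra hs
    refine not_few (often_of h hd hM hs) ?_ hf
    filter_upwards with n S hS
    rw [hS]
    exact Nat.zero_le _

theorem summable_iff_of {d : ℕ → ℝ} (hd : ∀ k, 0 ≤ d k) {U U' : ℕ → ℝ} {c C : ℝ} (hc : 0 < c) (hC : 0 < C)
    (h : ∀ᶠ k : ℕ in atTop, 0 < U' k ∧ c * U' k ≤ U k ∧ U k ≤ C * U' k) :
    Summable (fun k => d k / U k) ↔ Summable (fun k => d k / U' k) := by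
  constructor
  · intro hs
    refine Summable.of_norm_bounded_eventually_nat (hs.mul_left C) ?_
    filter_upwards [h] with k hk
    have h1 := hd k
    have h2 : 0 < U k := lt_of_lt_of_le (mul_pos hc hk.1) hk.2.1
    rw [Real.norm_eq_abs, abs_of_nonneg (div_nonneg h1 hk.1.le), div_le_iff₀ hk.1]
    have h3 : d k = d k / U k * U k := by field_simp
    have h4 : 0 ≤ d k / U k := div_nonneg h1 h2.le
    calc d k = d k / U k * U k := h3
      _ ≤ d k / U k * (C * U' k) := mul_le_mul_of_nonneg_left hk.2.2 h4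
      _ = _ := by ring
  · intro hs
    refine Summable.of_norm_bounded_eventually_nat (hs.mul_left (1 / c)) ?_
    filter_upwards [h] with k hk
    have h1 := hd k
    have h2 : 0 < U k := lt_of_lt_of_le (mul_pos hc hk.1) hk.2.1
    rw [Real.norm_eq_abs, abs_of_nonneg (div_nonneg h1 h2.le), div_le_iff₀ h2]
    have h3 : d k = d k / U' k * U' k := by have := hk.1; field_simp
    have h4 : 0 ≤ d k / U' k := div_nonneg h1 hk.1.le
    have h5 : U' k ≤ 1 / c * U k := by
      rw [one_div, inv_mul_eq_div, le_div_iff₀ hc]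
      linarith [hk.2.1]
    calc d k = d k / U' k * U' k := h3
      _ ≤ d k / U' k * (1 / c * U k) := mul_le_mul_of_nonneg_left h5 h4
      _ = _ := by ring

/-- Comparable costs give the same phase diagram. -/
theorem Phase.congr {U U' : ℕ → ℕ → ℝ} (h : Phase p W N E U) {c C : ℝ} (hc : 0 < c) (hC : 0 < C)
    (hU : ∀ᶠ k : ℕ in atTop, ∀ M : ℕ, 1 ≤ M → M ≤ 2 ^ k → 0 < U' k M ∧ c * U' k M ≤ U k M ∧ U k M ≤ C * U' k M) :
    Phase p W N E U' := by
  intro d M hd hM
  have h1 : Summable (fun k => d k / U k (M k)) ↔ Summable (fun k => d k / U' k (M k)) := by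
    refine summable_iff_of hd (U := fun k => U k (M k)) (U' := fun k => U' k (M k)) hc hC ?_
    filter_upwards [hU] with k hk
    exact hk (M k) (hM k).1 (hM k).2
  have h2 := h d M hd hM
  rw [h1] at h2
  exact h2

/-- **The price.** -/
theorem price (h : WSharp p W N E) : Price p W N E := by
  constructor
  · intro ε hε j Ω _ μ _ A hA hs
    rcases le_or_gt 1 ε with hε1 | hε1
    · have hsq := h.sq
      filter_upwards [hsq, ev_block h.half, eventually_ge_atTop 1] with k hk hhalf hk1 M hM1 hM2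
      have hM2' : M ≤ (block k).card := by rw [block_card]; exact hM2
      have h1 := le_cost (e := E) hM2' hk
      have h2 : 0 ≤ cost E (block k) M := le_trans (by positivity) h1
      have h3 : (1 - ε) * (cost E (block k) M * μ.real {ω | M ≤ exc (fun n S => N n S ≤ j) k (A ω)}) ≤ 0 :=
        mul_nonpos_of_nonpos_of_nonneg (by linarith) (mul_nonneg h2 measureReal_nonneg)
      have hlaw := law_ok (μ := μ) hA hs (B := un W k) (p := p) (fun x hx => by
        obtain ⟨n, hn, hx⟩ := mem_biUnion.1 hx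
        exact hhalf n hn x hx)
      have h4 := Pool.Agent.Q111.TT.entropy_gen (fun n _ => h.prob n) hlaw (fun _ => False) 0
      simp at h4
      unfold relEnt
      linarith
    · obtain ⟨C, hC, hR⟩ := h.up j (ε / 2) (by linarith)
      have hsq := h.sq
      filter_upwards [mach_price (I := block) (e := E) h.prob h.disj card_exp h.sq (ev_block h.half) hC
        (show 0 < 1 - ε by linarith) (show 1 - ε < 1 - ε / 2 by linarith) (ev_block hR) hA hs, hsq, eventually_ge_atTop 1]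
        with k hk hk2 hk1 M hM1 hM2
      have hM2' : M ≤ (block k).card := by rw [block_card]; exact hM2
      have h1 := hk M hM1 hM2'
      have h2 := le_cost (e := E) hM2' hk2
      have hk0 : (0 : ℝ) < k := by exact_mod_cast hk1
      have hM0 : (0 : ℝ) < M := by exact_mod_cast hM1
      have h3 : 0 < cost E (block k) M := lt_of_lt_of_le (by positivity) h2
      have h5 : 0 < (1 - ε) * cost E (block k) M := mul_pos (by linarith) h3
      rw [le_div_iff₀ h5] at h1
      have h4 : {ω | M ≤ exc (fun n S => N n S ≤ j) k (A ω)} =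
          {ω | M ≤ many W (block k) (fun n T => N n ((T : Finset ℕ) : Set ℕ) ≤ j) (tr A ((block k).biUnion W) ω)} := by
        ext ω
        simp only [Set.mem_ofPred_eq]
        rw [exc_eq h.loc (fun _ m => m ≤ j)]
      rw [h4]
      unfold un
      linarith
  · intro ε hε M q hM hq
    have hM2 : ∀ k, M k ≤ (block k).card := fun k => by rw [block_card]; exact hM k
    obtain ⟨Ω, mΩ, μ, hμ, A, hA1, hA2, hA3, hA4, _⟩ := mach_down (I := block) (e := E) (M := M) h.prob h.disj block_disj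
      (ev_block (h.lo ε hε)) hM2 (fun k => (hq k).1) (fun k => (hq k).2)
    refine ⟨Ω, mΩ, μ, hμ, A, ⟨hA1, hA2, ?_⟩, ?_⟩
    · filter_upwards [hA3] with k hk
      unfold un
      linarith
    · filter_upwards [hA4] with k hk
      have h4 : {ω | M k ≤ exc (fun n S => N n S = 0) k (A ω)} =
          {ω | M k ≤ many W (block k) (fun n T => N n ((T : Finset ℕ) : Set ℕ) = 0) (tr A ((block k).biUnion W) ω)} := by
        ext ω
        simp only [Set.mem_ofPred_eq]
        rw [exc_eq h.loc (fun _ m => m = 0)]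
      rw [h4]
      exact hk

end

end Pool.Agent.Q197.WN
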