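import Pool.Agent.Q197.WN.Rows
import Pool.Agent.Q197.WN.Phase

/-!
# The windows of the sieved model satisfy the assumptions of the machine
-/

set_option autoImplicit false

namespace Pool.Agent.Q197.WN

open Finset MeasureTheory Filter Pool.Agent.Q120.TT Pool.Agent.Q120.ET Pool.Agent.Q120.GM
  Pool.Agent.Q120.CL Pool.Agent.Q120.MG Pool.Agent.Q120.HL Pool.Agent.Q150.TT
open scoped Topology

section

variable {z : ℕ → ℕ} {D E : Finset ℕ} {H : ℕ} {σ : ℝ} {u v : ℕ → ℕ} {θ : ℝ}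

theorem Wins.log_le (hw : Wins u v θ) (r : ℕ) (K : ℝ) : ∀ᶠ n : ℕ in atTop, K * Real.log (u n) ≤ wt u v r n := by
  have h1 := (isLittleO_log_rpow_rpow_atTop ((r + 1 : ℕ) : ℝ) hw.pos).bound (show (0 : ℝ) < 1 / (|K| + 1) by positivity)
  have h2 := (tendsto_natCast_atTop_atTop.comp hw.utend).eventually h1
  filter_upwards [h2, hw.len, hw.wt_ge r] with n hn hlen hwt
  simp only [Function.comp] at hn
  obtain ⟨L, hL⟩ : ∃ L, L = Real.log (u n) := ⟨_, rfl⟩
  have hL1 : 1 ≤ L := by rw [hL]; exact hwt.1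
  have e1 : |L ^ (r + 1)| = L ^ (r + 1) := abs_of_nonneg (by positivity)
  have e2 : |(u n : ℝ) ^ θ| = (u n : ℝ) ^ θ := abs_of_nonneg (by positivity)
  rw [Real.rpow_natCast, Real.norm_eq_abs, Real.norm_eq_abs, ← hL, e1, e2, one_div, inv_mul_eq_div,
    le_div_iff₀ (by positivity)] at hn
  unfold wt
  rw [← hL, le_div_iff₀ (by positivity)]
  have h3 : K * L * L ^ r ≤ L ^ (r + 1) * (|K| + 1) := by
    have h4 : K ≤ |K| + 1 := by linarith [le_abs_self K]
    have h5 : 0 ≤ L ^ (r + 1) := by positivity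
    calc K * L * L ^ r = L ^ (r + 1) * K := by ring
      _ ≤ _ := mul_le_mul_of_nonneg_left h4 h5
  linarith

theorem pat_loc (hE : ∀ h ∈ E, h ≤ H) {a b : ℕ} (S S' : Set ℕ) (h : ∀ x ∈ Ico a b, (x ∈ S ↔ x ∈ S')) :
    pat D E H a b S = pat D E H a b S' := by
  classical
  unfold pat cnt
  refine congrArg card (filter_congr (fun x hx => forall₂_congr (fun y hy => ?_)))
  rw [h y (sh_sub hE hx hy)]

/-- The number `Ex` is asymptotically the expectation. -/
def Asy (Ex w : ℕ → ℝ) (σ : ℝ) : Prop := ∀ ε : ℝ, 0 < ε → ∀ᶠ n : ℕ in atTop, |Ex n - σ * w n| ≤ ε * w n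

theorem Wins.model (hw : Wins u v θ) (hS : Tendsto (fun k => Sz D (z k)) atTop (𝓝 σ)) (hz : Small z)
    (hDE : D ⊆ E) (hE : ∀ h ∈ E, h ≤ H) (hne : D.Nonempty) (hσ : 0 < σ) {Ex : ℕ → ℝ} (hEx : Asy Ex (wt u v D.card) σ) :
    WModel (pr z) (fun n => Ico (u n) (v n)) (fun n => pat D E H (u n) (v n)) Ex := by
  have hp : ∀ n, 0 ≤ pr z n ∧ pr z n ≤ 1 := fun n => ⟨pr_nonneg z n, pr_le_one z n⟩
  refine ⟨hp, hw.disj, ?_, ?_, ?_, ?_, ?_⟩
  · filter_upwards [hw.small hz (show (0 : ℝ) < 1 / 2 by norm_num)] with n hn x hx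
    rw [mem_Ico] at hx
    exact hn x hx.1
  · intro n S S' h
    exact pat_loc hE S S' h
  · refine ⟨θ / 4, by linarith [hw.pos], ?_⟩
    have h1 : Tendsto (fun n : ℕ => (n : ℝ) ^ (θ / 4)) atTop atTop :=
      (tendsto_rpow_atTop (by linarith [hw.pos])).comp tendsto_natCast_atTop_atTop
    filter_upwards [hEx (σ / 2) (by linarith), hw.wt_ge D.card, h1.eventually_ge_atTop (2 / σ), eventually_ge_atTop 1]
      with n hn hwt hbig hn1
    have hn0 : (0 : ℝ) < n := by exact_mod_cast hn1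
    have h2 := (abs_le.1 hn).1
    have h3 : (n : ℝ) ^ (θ / 2) = (n : ℝ) ^ (θ / 4) * (n : ℝ) ^ (θ / 4) := by
      rw [← Real.rpow_add hn0]
      congr 1
      ring
    obtain ⟨y, hy⟩ : ∃ y, y = (n : ℝ) ^ (θ / 4) := ⟨_, rfl⟩
    rw [h3, ← hy] at hwt
    rw [← hy] at hbig ⊢
    rw [div_le_iff₀ hσ] at hbig
    have h4 : σ / 2 * (y * y) ≤ σ / 2 * wt u v D.card n := mul_le_mul_of_nonneg_left hwt.2 (by linarith)
    have hy0 : 0 ≤ y := by rw [hy]; positivity
    nlinarith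
  · intro ε hε
    obtain ⟨δ, hδ⟩ : ∃ δ : ℝ, δ = ε * σ / (2 * (1 + ε)) := ⟨_, rfl⟩
    have hδ0 : 0 < δ := by rw [hδ]; positivity
    have hδ2 : δ * (1 + ε) = ε * σ / 2 := by rw [hδ]; field_simp
    obtain ⟨c, hc, h⟩ := hw.dev hS hz hDE hE hσ (show 0 < ε / 2 by linarith)
    refine ⟨2 * ((H + 1 : ℕ) : ℝ), c / (σ + 1), by positivity, by positivity, ?_⟩
    filter_upwards [h, hEx δ hδ0, hEx 1 one_pos, hw.wt_ge D.card] with n hn hEn hE1 hwt
    have hw0 : 0 ≤ wt u v D.card n := le_trans (by positivity) hwt.2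
    refine (PP_mono hp (fun T _ hT => ?_)).trans (hn.trans ?_)
    · have h1 := abs_le.1 hEn
      have h2 : |(pat D E H (u n) (v n) ((T : Finset ℕ) : Set ℕ) : ℝ) - Ex n| ≤
          |(pat D E H (u n) (v n) ((T : Finset ℕ) : Set ℕ) : ℝ) - σ * wt u v D.card n| + |σ * wt u v D.card n - Ex n| := by
        have := abs_add_le ((pat D E H (u n) (v n) ((T : Finset ℕ) : Set ℕ) : ℝ) - σ * wt u v D.card n)
          (σ * wt u v D.card n - Ex n)
        rwa [sub_add_sub_cancel] at this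
      rw [abs_sub_comm (σ * wt u v D.card n)] at h2
      have h3 : ε * Ex n ≤ |(pat D E H (u n) (v n) ((T : Finset ℕ) : Set ℕ) : ℝ) - Ex n| := hT
      have h4 : ε * (σ * wt u v D.card n - δ * wt u v D.card n) ≤ ε * Ex n :=
        mul_le_mul_of_nonneg_left (by linarith) hε.le
      show ε / 2 * (σ * wt u v D.card n) ≤ |(pat D E H (u n) (v n) ((T : Finset ℕ) : Set ℕ) : ℝ) - σ * wt u v D.card n|
      nlinarith
    · apply mul_le_mul_of_nonneg_left _ (by positivity)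
      apply Real.exp_le_exp.2
      have h1 := (abs_le.1 hE1).2
      have h2 : Ex n ≤ (σ + 1) * wt u v D.card n := by linarith
      have h3 : c / (σ + 1) * Ex n ≤ c * wt u v D.card n := by
        calc c / (σ + 1) * Ex n ≤ c / (σ + 1) * ((σ + 1) * wt u v D.card n) := mul_le_mul_of_nonneg_left h2 (by positivity)
          _ = c * wt u v D.card n := by field_simp
      linarith
  · refine ⟨4 * (σ + 1) / σ, by positivity, ?_⟩
    filter_upwards [hw.void hS hz (fun h hh => hE h (hDE hh)) hne, hEx (σ / 2) (by linarith), hw.wt_ge D.card]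
      with n hn hEn hwt
    have hw0 : 0 ≤ wt u v D.card n := le_trans (by positivity) hwt.2
    refine le_trans (Real.exp_le_exp.2 ?_) (hn.trans (PP_mono hp (fun T _ hT => ?_)))
    · have h1 := (abs_le.1 hEn).1
      have h2 : σ / 2 * wt u v D.card n ≤ Ex n := by linarith
      have h3 : 4 * (σ + 1) / σ * (σ / 2 * wt u v D.card n) ≤ 4 * (σ + 1) / σ * Ex n :=
        mul_le_mul_of_nonneg_left h2 (by positivity)
      have h4 : 4 * (σ + 1) / σ * (σ / 2 * wt u v D.card n) = 2 * (σ + 1) * wt u v D.card n := by field_simp; ring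
      linarith
    · refine pat_zero hDE (fun x hx => ?_)
      have h1 := hT x hx
      rw [Finset.not_subset] at h1
      obtain ⟨y, hy, hyT⟩ := h1
      exact ⟨y, hy, fun h => hyT (Finset.mem_coe.1 h)⟩

/-- Few sets of small cardinality. -/
theorem card_small (J : Finset ℕ) (j : ℕ) : ((J.powerset.filter (fun X => X.card ≤ j)).card : ℝ) ≤
    ((j : ℝ) + 1) * ((J.card : ℝ) + 1) ^ j := by
  classical
  have h1 : J.powerset.filter (fun X => X.card ≤ j) = (range (j + 1)).biUnion (fun i => powersetCard i J) := by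
    ext X
    simp only [mem_filter, mem_powerset, mem_biUnion, mem_range, mem_powersetCard]
    constructor
    · rintro ⟨h2, h3⟩
      exact ⟨X.card, by omega, h2, rfl⟩
    · rintro ⟨i, h2, h3, h4⟩
      exact ⟨h3, by omega⟩
  have h2 : (J.powerset.filter (fun X => X.card ≤ j)).card ≤ ∑ i ∈ range (j + 1), (powersetCard i J).card := by
    rw [h1]
    exact card_biUnion_le
  have h3 : ((∑ i ∈ range (j + 1), (powersetCard i J).card : ℕ) : ℝ) ≤ ∑ i ∈ range (j + 1), ((J.card : ℝ) + 1) ^ j := by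
    push_cast
    refine sum_le_sum (fun i hi => ?_)
    rw [card_powersetCard]
    have h4 : ((J.card.choose i : ℕ) : ℝ) ≤ (J.card : ℝ) ^ i := by exact_mod_cast Nat.choose_le_pow _ _
    have h5 : (J.card : ℝ) ^ i ≤ ((J.card : ℝ) + 1) ^ i := pow_le_pow_left₀ (Nat.cast_nonneg _) (by linarith) i
    have h6 : ((J.card : ℝ) + 1) ^ i ≤ ((J.card : ℝ) + 1) ^ j :=
      pow_le_pow_right₀ (by linarith [Nat.cast_nonneg (α := ℝ) J.card]) (by have := mem_range.1 hi; omega)
    linarith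
  rw [sum_const, card_range, nsmul_eq_mul] at h3
  push_cast at h3
  refine le_trans ?_ h3
  exact_mod_cast h2

theorem janson_sh {p : ℕ → ℝ} (hp : ∀ n, 0 ≤ p n ∧ p n ≤ 1) (hne : D.Nonempty) (hD : ∀ h ∈ D, h ≤ H) {W J : Finset ℕ}
    {δ : ℝ} (hδ : 0 ≤ δ) (hW : ∀ x ∈ J, sh D x ⊆ W) (hsm : ∀ y ∈ W, p y ≤ δ) :
    PP p W (fun T => ∀ x ∈ J, ¬ sh D x ⊆ T) ≤
      Real.exp (-((1 - (2 * (H : ℝ) + 1) * δ) * ∑ x ∈ J, ∏ h ∈ D, p (x + h))) := by
  classical
  have hmod : IsModel (prodMeasure p) p (trueSet (ι := ℕ)) := isModel p (fun n => (hp n).1) (fun n => (hp n).2)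
  rw [PP_model hmod]
  have h2 : {ω : ℕ → Bool | ∀ x ∈ J, ¬ sh D x ⊆ tr (trueSet (ι := ℕ)) W ω} = none (trueSet (ι := ℕ)) J (sh D) := by
    ext ω
    refine forall₂_congr fun x hx => not_congr ?_
    constructor
    · intro h y hy
      exact (mem_tr.1 (h hy)).2
    · intro h y hy
      exact mem_tr.2 ⟨hW x hx hy, h y hy⟩
  rw [h2]
  refine (janson hmod J (sh D)).trans (Real.exp_le_exp.2 ?_)
  have e1 : ∑ x ∈ J, ∏ y ∈ sh D x, p y = ∑ x ∈ J, ∏ h ∈ D, p (x + h) := sum_congr rfl (fun x _ => prod_sh p D x)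
  rw [e1]
  have e2 : ∑ x ∈ J, ∑ y ∈ J with y ≠ x ∧ ¬ Disjoint (sh D y) (sh D x), ∏ i ∈ sh D y ∪ sh D x, p i ≤
      ∑ x ∈ J, (2 * (H : ℝ) + 1) * δ * ∏ h ∈ D, p (x + h) := by
    refine sum_le_sum (fun x hx => ?_)
    have e3 : ∀ y ∈ J.filter (fun y => y ≠ x ∧ ¬ Disjoint (sh D y) (sh D x)), ∏ i ∈ sh D y ∪ sh D x, p i ≤
        δ * ∏ h ∈ D, p (x + h) := by
      intro y hy
      rw [mem_filter] at hy
      have h3 : ∃ w ∈ sh D y, w ∉ sh D x := by
        by_contra hcon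
        push Not at hcon
        have h4 : sh D y = sh D x := eq_of_subset_of_card_le hcon (by rw [sh_card, sh_card])
        apply hy.2.1
        obtain ⟨h0, hh0, hmax⟩ := exists_max_image D (fun h => h) hne
        have h5 : y + h0 ∈ sh D x := by rw [← h4]; exact mem_sh.2 ⟨h0, hh0, rfl⟩
        have h6 : x + h0 ∈ sh D y := by rw [h4]; exact mem_sh.2 ⟨h0, hh0, rfl⟩
        obtain ⟨h', hh', he'⟩ := mem_sh.1 h5
        obtain ⟨h'', hh'', he''⟩ := mem_sh.1 h6
        have h7 := hmax h' hh'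
        have h8 := hmax h'' hh''
        omega
      obtain ⟨w, hw1, hw2⟩ := h3
      have h4 : insert w (sh D x) ⊆ sh D y ∪ sh D x := by
        intro i hi
        rw [mem_insert] at hi
        rcases hi with rfl | hi
        · exact mem_union_left _ hw1
        · exact mem_union_right _ hi
      calc ∏ i ∈ sh D y ∪ sh D x, p i ≤ ∏ i ∈ insert w (sh D x), p i := by
            rw [← prod_sdiff h4]
            have h5 : ∏ i ∈ (sh D y ∪ sh D x) \ insert w (sh D x), p i ≤ 1 :=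
              prod_le_one (fun _ _ => (hp _).1) (fun _ _ => (hp _).2)
            have h6 : 0 ≤ ∏ i ∈ insert w (sh D x), p i := prod_nonneg (fun _ _ => (hp _).1)
            nlinarith
        _ = p w * ∏ i ∈ sh D x, p i := prod_insert hw2
        _ ≤ δ * ∏ i ∈ sh D x, p i :=
            mul_le_mul_of_nonneg_right (hsm w (hW y hy.1 hw1)) (prod_nonneg (fun _ _ => (hp _).1))
        _ = δ * ∏ h ∈ D, p (x + h) := by rw [prod_sh]
    refine (sum_le_sum e3).trans ?_
    rw [sum_const, nsmul_eq_mul]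
    have h3 : ((J.filter (fun y => y ≠ x ∧ ¬ Disjoint (sh D y) (sh D x))).card : ℝ) ≤ 2 * (H : ℝ) + 1 := by
      have h4 : J.filter (fun y => y ≠ x ∧ ¬ Disjoint (sh D y) (sh D x)) ⊆ Icc (x - H) (x + H) := by
        intro y hy
        rw [mem_filter] at hy
        obtain ⟨_, _, hy3⟩ := hy
        rw [Finset.not_disjoint_iff] at hy3
        obtain ⟨w, hw1, hw2⟩ := hy3
        obtain ⟨h, hh, rfl⟩ := mem_sh.1 hw1
        obtain ⟨h', hh', he⟩ := mem_sh.1 hw2
        have h5 := hD h hh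
        have h6 := hD h' hh'
        rw [mem_Icc]
        omega
      have h5 := card_le_card h4
      rw [Nat.card_Icc] at h5
      have h6 : (J.filter (fun y => y ≠ x ∧ ¬ Disjoint (sh D y) (sh D x))).card ≤ 2 * H + 1 := by omega
      exact_mod_cast h6
    have h4 : 0 ≤ δ * ∏ h ∈ D, p (x + h) := mul_nonneg hδ (prod_nonneg (fun _ _ => (hp _).1))
    calc _ ≤ (2 * (H : ℝ) + 1) * (δ * ∏ h ∈ D, p (x + h)) := mul_le_mul_of_nonneg_right h3 h4
      _ = _ := by ring
  rw [← mul_sum] at e2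
  linarith

/-- The probability of few patterns in a window. -/
theorem few_sh {p : ℕ → ℝ} (hp : ∀ n, 0 ≤ p n ∧ p n ≤ 1) (hne : D.Nonempty) (hD : ∀ h ∈ D, h ≤ H) {a b : ℕ} {δ : ℝ}
    (hδ : 0 ≤ δ) (hδ1 : (2 * (H : ℝ) + 1) * δ ≤ 1) (hsm : ∀ y, a ≤ y → p y ≤ δ) (j : ℕ) :
    PP p (Ico a b) (fun T => pat D D H a b ((T : Finset ℕ) : Set ℕ) ≤ j) ≤
      ((j : ℝ) + 1) * (((Ico a (b - H)).card : ℝ) + 1) ^ j * Real.exp (j) *
        Real.exp (-((1 - (2 * (H : ℝ) + 1) * δ) * EI p D a (b - H))) := by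
  classical
  obtain ⟨J, hJ⟩ : ∃ J, J = Ico a (b - H) := ⟨_, rfl⟩
  have h1 : PP p (Ico a b) (fun T => pat D D H a b ((T : Finset ℕ) : Set ℕ) ≤ j) ≤
      PP p (Ico a b) (fun T => ∃ X ∈ J.powerset.filter (fun X => X.card ≤ j), ∀ x ∈ J \ X, ¬ sh D x ⊆ T) := by
    refine PP_mono hp (fun T _ hT => ?_)
    unfold pat cnt at hT
    refine ⟨J.filter (fun i => ∀ x ∈ sh D i, (x ∈ ((T : Finset ℕ) : Set ℕ) ↔ x ∈ sh D i)), ?_, ?_⟩
    · rw [mem_filter, mem_powerset]
      refine ⟨filter_subset _ _, ?_⟩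
      rw [hJ]
      refine le_trans (le_of_eq (congrArg card ?_)) hT
      ext i
      simp only [mem_filter]
    · intro x hx hsub
      rw [Finset.mem_sdiff] at hx
      apply hx.2
      rw [mem_filter]
      refine ⟨hx.1, fun y hy => ⟨fun _ => hy, fun _ => Finset.mem_coe.2 (hsub hy)⟩⟩
  refine h1.trans ((PP_exists_le hp _ _).trans ?_)
  rw [← hJ]
  have hq : 0 ≤ 1 - (2 * (H : ℝ) + 1) * δ := by linarith
  have hq1 : 1 - (2 * (H : ℝ) + 1) * δ ≤ 1 := by
    have : 0 ≤ (2 * (H : ℝ) + 1) * δ := by positivity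
    linarith
  have h2 : ∀ X ∈ J.powerset.filter (fun X => X.card ≤ j), PP p (Ico a b) (fun T => ∀ x ∈ J \ X, ¬ sh D x ⊆ T) ≤
      Real.exp (j) * Real.exp (-((1 - (2 * (H : ℝ) + 1) * δ) * EI p D a (b - H))) := by
    intro X hX
    rw [mem_filter, mem_powerset] at hX
    have h3 := janson_sh (H := H) hp hne hD (W := Ico a b) (J := J \ X) hδ
      (fun x hx => sh_sub hD (by rw [← hJ]; exact (Finset.mem_sdiff.1 hx).1)) (fun y hy => hsm y (mem_Ico.1 hy).1)
    refine h3.trans ?_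
    rw [← Real.exp_add]
    apply Real.exp_le_exp.2
    have h4 : EI p D a (b - H) - j ≤ ∑ x ∈ J \ X, ∏ h ∈ D, p (x + h) := by
      unfold EI
      rw [← hJ, ← sum_sdiff hX.1]
      have h5 : ∑ x ∈ X, ∏ h ∈ D, p (x + h) ≤ ∑ x ∈ X, (1 : ℝ) :=
        sum_le_sum (fun x _ => prod_le_one (fun _ _ => (hp _).1) (fun _ _ => (hp _).2))
      rw [sum_const, nsmul_eq_mul, mul_one] at h5
      have h6 : (X.card : ℝ) ≤ j := by exact_mod_cast hX.2
      linarith
    have h5 := mul_le_mul_of_nonneg_left h4 hq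
    have h6 : (1 - (2 * (H : ℝ) + 1) * δ) * j ≤ j := by
      have : (0 : ℝ) ≤ j := Nat.cast_nonneg j
      nlinarith
    linarith
  refine (sum_le_sum h2).trans ?_
  rw [sum_const, nsmul_eq_mul]
  have h3 := card_small J j
  have h4 : 0 ≤ Real.exp (j) * Real.exp (-((1 - (2 * (H : ℝ) + 1) * δ) * EI p D a (b - H))) := by positivity
  calc _ ≤ ((j : ℝ) + 1) * ((J.card : ℝ) + 1) ^ j *
        (Real.exp (j) * Real.exp (-((1 - (2 * (H : ℝ) + 1) * δ) * EI p D a (b - H)))) := mul_le_mul_of_nonneg_right h3 h4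
    _ = _ := by ring

theorem exp_low {t δ : ℝ} (ht : 0 ≤ t) (htδ : t ≤ δ) (hδ : δ ≤ 1 / 2) : Real.exp (-((1 + 2 * δ) * t)) ≤ 1 - t := by
  rw [← Real.le_log_iff_exp_le (by linarith)]
  have h7 := Real.one_sub_inv_le_log_of_pos (show 0 < 1 - t by linarith)
  refine le_trans ?_ h7
  have h8 : (1 - t)⁻¹ ≤ 1 + (1 + 2 * δ) * t := by
    rw [inv_le_iff_one_le_mul₀ (by linarith)]
    nlinarith [mul_nonneg ht (sub_nonneg.2 htδ), mul_nonneg (mul_nonneg ht ht) (show 0 ≤ 1 - 2 * δ by linarith)]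
  linarith

/-- The sharp facts. -/
theorem Wins.sharp (hw : Wins u v θ) (hS : Tendsto (fun k => Sz D (z k)) atTop (𝓝 σ)) (hz : Small z)
    (hD : ∀ h ∈ D, h ≤ H) (hne : D.Nonempty) (hσ : 0 < σ) {Ex : ℕ → ℝ} (hEx : Asy Ex (wt u v D.card) σ) :
    WSharp (pr z) (fun n => Ico (u n) (v n)) (fun n => pat D D H (u n) (v n)) Ex := by
  have hp : ∀ n, 0 ≤ pr z n ∧ pr z n ≤ 1 := fun n => ⟨pr_nonneg z n, pr_le_one z n⟩
  refine { hw.model hS hz (Finset.Subset.refl D) hD hne hσ hEx with lo := ?_, up := ?_ }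
  · intro ε hε
    obtain ⟨δ, hδ⟩ : ∃ δ : ℝ, δ = min (1 / 2) (ε * σ / (8 * (σ + 1 + ε))) := ⟨_, rfl⟩
    have hδ0 : 0 < δ := by rw [hδ]; exact lt_min (by norm_num) (by positivity)
    have hδ1 : δ ≤ 1 / 2 := by rw [hδ]; exact min_le_left _ _
    have hδ2 : 8 * (δ * (σ + 1 + ε)) ≤ ε * σ := by
      have h1 : δ ≤ ε * σ / (8 * (σ + 1 + ε)) := by rw [hδ]; exact min_le_right _ _
      rw [le_div_iff₀ (by positivity)] at h1
      linarith
    filter_upwards [hw.EI_near hS hz hD hδ0, hw.small hz hδ0, hEx δ hδ0, hw.wt_ge D.card] with n hEI hsm hEn hwt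
    have hw0 : 0 ≤ wt u v D.card n := le_trans (by positivity) hwt.2
    have hmod : IsModel (prodMeasure (pr z)) (pr z) (trueSet (ι := ℕ)) := isModel _ (fun n => (hp n).1) (fun n => (hp n).2)
    have h1 : Real.exp (-((1 + ε) * Ex n)) ≤ ∏ x ∈ Ico (u n) (v n - H), (1 - ∏ y ∈ sh D x, pr z y) := by
      have h2 : ∏ x ∈ Ico (u n) (v n - H), Real.exp (-((1 + 2 * δ) * ∏ y ∈ sh D x, pr z y)) ≤
          ∏ x ∈ Ico (u n) (v n - H), (1 - ∏ y ∈ sh D x, pr z y) := by
        refine prod_le_prod (fun x _ => (Real.exp_pos _).le) (fun x hx => ?_)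
        rw [mem_Ico] at hx
        refine exp_low (prod_nonneg (fun _ _ => (hp _).1)) ?_ hδ1
        obtain ⟨h0, hh0⟩ := hne
        rw [prod_sh, ← mul_prod_erase D (fun h => pr z (x + h)) hh0]
        have h2 : ∏ h ∈ D.erase h0, pr z (x + h) ≤ 1 := prod_le_one (fun _ _ => (hp _).1) (fun _ _ => (hp _).2)
        have h3 : 0 ≤ ∏ h ∈ D.erase h0, pr z (x + h) := prod_nonneg (fun _ _ => (hp _).1)
        have h4 := hsm (x + h0) (by omega)
        have h5 := (hp (x + h0)).1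
        nlinarith
      refine le_trans ?_ h2
      rw [← Real.exp_sum, sum_neg_distrib, ← mul_sum]
      apply Real.exp_le_exp.2
      have h3 : ∑ x ∈ Ico (u n) (v n - H), ∏ y ∈ sh D x, pr z y = EI (pr z) D (u n) (v n - H) := by
        unfold EI
        exact sum_congr rfl (fun x _ => prod_sh _ _ _)
      rw [h3]
      have h4 := (abs_le.1 hEI).2
      have h5 := (abs_le.1 hEn).1
      have h6 : EI (pr z) D (u n) (v n - H) ≤ (σ + δ) * wt u v D.card n := by linarith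
      have h7 : (σ - δ) * wt u v D.card n ≤ Ex n := by linarith
      have h8 : (1 + 2 * δ) * EI (pr z) D (u n) (v n - H) ≤ (1 + 2 * δ) * ((σ + δ) * wt u v D.card n) :=
        mul_le_mul_of_nonneg_left h6 (by linarith)
      have h9 : (1 + ε) * ((σ - δ) * wt u v D.card n) ≤ (1 + ε) * Ex n := mul_le_mul_of_nonneg_left h7 (by linarith)
      have h10 : (1 + 2 * δ) * (σ + δ) ≤ (1 + ε) * (σ - δ) := by nlinarith
      have h11 := mul_le_mul_of_nonneg_right h10 hw0
      linarith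
    have h2 := harris hmod (Ico (u n) (v n - H)) (sh D)
    refine h1.trans (h2.trans ?_)
    rw [PP_model hmod]
    refine measureReal_mono (fun ω hω => ?_) (measure_ne_top _ _)
    refine pat_zero (Finset.Subset.refl D) (fun x hx => ?_)
    by_contra hcon
    push Not at hcon
    exact hω x hx (fun y hy => (mem_tr.1 (Finset.mem_coe.1 (hcon y hy))).2)
  · intro j ε hε
    rcases le_or_gt 1 ε with hε1 | hε1
    · refine ⟨1, one_pos, ?_⟩
      filter_upwards [hEx (σ / 2) (by linarith), hw.wt_ge D.card] with n hEn hwt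
      refine (PP_le_one hp).trans ?_
      rw [one_mul]
      apply Real.one_le_exp
      have hw0 : 0 ≤ wt u v D.card n := le_trans (by positivity) hwt.2
      have h1 := (abs_le.1 hEn).1
      have h2 : 0 ≤ Ex n := by nlinarith
      nlinarith
    obtain ⟨δ, hδ⟩ : ∃ δ : ℝ, δ = min (1 / (2 * (H : ℝ) + 1)) (min 1 (ε * σ / (2 * (2 + (2 * (H : ℝ) + 1) * (σ + 1))))) := ⟨_, rfl⟩
    have hδ0 : 0 < δ := by rw [hδ]; exact lt_min (by positivity) (lt_min one_pos (by positivity))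
    have hδ1 : (2 * (H : ℝ) + 1) * δ ≤ 1 := by
      have h1 : δ ≤ 1 / (2 * (H : ℝ) + 1) := by rw [hδ]; exact min_le_left _ _
      rw [le_div_iff₀ (by positivity)] at h1
      linarith
    have hδ3 : δ ≤ 1 := by rw [hδ]; exact (min_le_right _ _).trans (min_le_left _ _)
    have hδ2 : δ * (2 + (2 * (H : ℝ) + 1) * (σ + 1)) ≤ ε * σ / 2 := by
      have h1 : δ ≤ ε * σ / (2 * (2 + (2 * (H : ℝ) + 1) * (σ + 1))) := by
        rw [hδ]; exact (min_le_right _ _).trans (min_le_right _ _)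
      rw [le_div_iff₀ (by positivity)] at h1
      linarith
    refine ⟨((j : ℝ) + 1) * Real.exp (j), by positivity, ?_⟩
    filter_upwards [hw.EI_near hS hz hD hδ0, hw.small hz hδ0, hEx δ hδ0, hw.wt_ge D.card,
      hw.log_le D.card (2 * (2 * j) / (ε * σ)), hw.short, hw.utend.eventually_ge_atTop 1, hEx (σ / 2) (by linarith)]
      with n hEI hsm hEn hwt hlog hsh hu1 hEn2
    have hw0 : 0 ≤ wt u v D.card n := le_trans (by positivity) hwt.2
    refine (few_sh (H := H) hp hne hD hδ0.le hδ1 hsm j).trans ?_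
    obtain ⟨X, hX⟩ : ∃ X, X = EI (pr z) D (u n) (v n - H) := ⟨_, rfl⟩
    rw [← hX] at hEI ⊢
    have hu0 : (1 : ℝ) ≤ u n := by exact_mod_cast hu1
    have hcard : ((Ico (u n) (v n - H)).card : ℝ) + 1 ≤ (u n : ℝ) ^ 2 + 1 := by
      rw [Nat.card_Ico]
      have h1 : v n - H - u n ≤ u n := by omega
      have h2 : ((v n - H - u n : ℕ) : ℝ) ≤ u n := by exact_mod_cast h1
      nlinarith
    have hL : 1 ≤ Real.log (u n) := hwt.1
    have hL0 : 0 ≤ Real.log (u n) := by linarith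
    have hu3 : Real.exp 1 ≤ u n := by
      rw [← Real.le_log_iff_exp_le (by linarith)]
      exact hL
    have hcard2 : ((Ico (u n) (v n - H)).card : ℝ) + 1 ≤ Real.exp (2 * Real.log (u n)) := by
      rw [two_mul, Real.exp_add, Real.exp_log (by linarith)]
      rw [Nat.card_Ico]
      have h1 : v n - H - u n ≤ u n := by omega
      have h2 : ((v n - H - u n : ℕ) : ℝ) ≤ u n := by exact_mod_cast h1
      have h3 : (2 : ℝ) ≤ u n := by
        have := Real.add_one_le_exp (1 : ℝ)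
        linarith
      nlinarith
    have hpow : (((Ico (u n) (v n - H)).card : ℝ) + 1) ^ j ≤ Real.exp (j * (2 * Real.log (u n))) := by
      rw [Real.exp_nat_mul]
      exact pow_le_pow_left₀ (by positivity) hcard2 j
    have h1 : ((j : ℝ) + 1) * (((Ico (u n) (v n - H)).card : ℝ) + 1) ^ j * Real.exp (j) *
        Real.exp (-((1 - (2 * (H : ℝ) + 1) * δ) * X)) ≤
        ((j : ℝ) + 1) * Real.exp (j) * (Real.exp (j * (2 * Real.log (u n))) * Real.exp (-((1 - (2 * (H : ℝ) + 1) * δ) * X))) := by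
      have h2 : 0 ≤ ((j : ℝ) + 1) * Real.exp (j) * Real.exp (-((1 - (2 * (H : ℝ) + 1) * δ) * X)) := by positivity
      have h3 := mul_le_mul_of_nonneg_left hpow h2
      calc _ = ((j : ℝ) + 1) * Real.exp (j) * Real.exp (-((1 - (2 * (H : ℝ) + 1) * δ) * X)) *
            (((Ico (u n) (v n - H)).card : ℝ) + 1) ^ j := by ring
        _ ≤ _ := h3
        _ = _ := by ring
    refine h1.trans ?_
    apply mul_le_mul_of_nonneg_left _ (by positivity)
    rw [← Real.exp_add]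
    apply Real.exp_le_exp.2
    have h4 := (abs_le.1 hEI).1
    have h5 := (abs_le.1 hEn).2
    have h6 : (σ - δ) * wt u v D.card n ≤ X := by linarith
    have h7 : Ex n ≤ (σ + δ) * wt u v D.card n := by linarith
    have h8 : (1 - (2 * (H : ℝ) + 1) * δ) * ((σ - δ) * wt u v D.card n) ≤ (1 - (2 * (H : ℝ) + 1) * δ) * X :=
      mul_le_mul_of_nonneg_left h6 (by linarith)
    have hj : (j : ℝ) * (2 * Real.log (u n)) ≤ ε * σ / 2 * wt u v D.card n := by
      have h9 : ε * σ / 2 * (2 * (2 * j) / (ε * σ) * Real.log (u n)) ≤ ε * σ / 2 * wt u v D.card n :=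
        mul_le_mul_of_nonneg_left hlog (by positivity)
      have h10 : ε * σ / 2 * (2 * (2 * j) / (ε * σ) * Real.log (u n)) = (j : ℝ) * (2 * Real.log (u n)) := by field_simp
      linarith
    have h9 : (1 - ε) * Ex n ≤ (1 - ε) * ((σ + δ) * wt u v D.card n) := mul_le_mul_of_nonneg_left h7 (by linarith)
    have h10 : ε * σ / 2 + (1 - ε) * (σ + δ) ≤ (1 - (2 * (H : ℝ) + 1) * δ) * (σ - δ) := by
      have h11 : (σ - δ) * (1 - (2 * (H : ℝ) + 1) * δ) ≥ σ - δ * (1 + (2 * (H : ℝ) + 1) * σ) := by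
        nlinarith [mul_nonneg hδ0.le (show 0 ≤ (2 * (H : ℝ) + 1) * δ by positivity)]
      nlinarith [mul_nonneg hδ0.le (show 0 ≤ 1 + (2 * (H : ℝ) + 1) by positivity)]
    have h11 := mul_le_mul_of_nonneg_right h10 hw0
    nlinarith

end

end Pool.Agent.Q197.WN
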