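import Pool.Agent.Q197.WN.Low
import Pool.Agent.Q197.WN.Model

/-!
# The generating function of the number of patterns in a window
-/

set_option autoImplicit false

namespace Pool.Agent.Q197.WN

open Finset MeasureTheory Filter Pool.Agent.Q120.TT Pool.Agent.Q120.ET Pool.Agent.Q120.GM
  Pool.Agent.Q120.CL Pool.Agent.Q120.MG Pool.Agent.Q120.HL Pool.Agent.Q150.TT
open scoped Topology

section

variable {D : Finset ℕ} {H : ℕ}

/-- The number of the patterns inside `T`. -/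
def inn (J D : Finset ℕ) (T : Finset ℕ) : ℕ := (J.filter (fun x => sh D x ⊆ T)).card

theorem pat_inn {a b : ℕ} (T : Finset ℕ) : pat D D H a b ((T : Finset ℕ) : Set ℕ) = inn (Ico a (b - H)) D T := by
  classical
  unfold pat Pool.Agent.Q197.WN.cnt inn
  refine congrArg card ?_
  ext x
  simp only [mem_filter, Finset.mem_coe]
  refine and_congr_right (fun _ => ⟨fun h y hy => (h y hy).2 hy, fun h y hy => ⟨fun _ => hy, fun _ => h hy⟩⟩)

/-- A pattern with its coin. -/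
def cu (b : ℕ) (D : Finset ℕ) (x : ℕ) : Finset ℕ := insert (b + x) (sh D x)

/-- The probabilities with the coins. -/
noncomputable def pc (p : ℕ → ℝ) (b : ℕ) (q : ℝ) (y : ℕ) : ℝ := if y < b then p y else q

theorem pc_ok {p : ℕ → ℝ} (hp : ∀ n, 0 ≤ p n ∧ p n ≤ 1) {b : ℕ} {q : ℝ} (hq : 0 ≤ q ∧ q ≤ 1) (n : ℕ) :
    0 ≤ pc p b q n ∧ pc p b q n ≤ 1 := by
  unfold pc
  split_ifs
  · exact hp n
  · exact hq

theorem prod_cu {p : ℕ → ℝ} {b : ℕ} {q : ℝ} {x : ℕ} (h : ∀ y ∈ sh D x, y < b) :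
    ∏ y ∈ cu b D x, pc p b q y = q * ∏ h ∈ D, p (x + h) := by
  unfold cu
  rw [prod_insert]
  · have h1 : pc p b q (b + x) = q := by
      unfold pc
      rw [if_neg (by omega)]
    rw [h1, ← prod_sh]
    congr 1
    refine prod_congr rfl (fun y hy => ?_)
    unfold pc
    rw [if_pos (h y hy)]
  · intro hcon
    have := h _ hcon
    omega

/-- The generating function is a probability of the model with coins. -/
theorem lap_eq {p : ℕ → ℝ} {W J : Finset ℕ} {b : ℕ} {q : ℝ} (hW : ∀ y ∈ W, y < b)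
    (hJ : ∀ x ∈ J, sh D x ⊆ W) {Ω : Type} [MeasurableSpace Ω] {μ : Measure Ω} [IsProbabilityMeasure μ] {A : Ω → Set ℕ}
    (hA : IsModel μ (pc p b q) A) : μ.real (none A J (cu b D)) = Lam p W (inn J D) (1 - q) := by
  classical
  obtain ⟨V, hV⟩ : ∃ V : Finset ℕ → Finset ℕ, V = fun T => (J.filter (fun x => sh D x ⊆ T)).image (fun x => b + x) := ⟨_, rfl⟩
  have hset : ∀ T ∈ W.powerset, {ω | tr A W ω = T} ∩ none A J (cu b D) =
      {ω | ∀ n ∈ W, (n ∈ A ω ↔ n ∈ T)} ∩ free A (V T) := by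
    intro T hT
    rw [law_set_eq A (mem_powerset.1 hT)]
    ext ω
    refine and_congr_right (fun h => ?_)
    have h1 : tr A W ω = T := h
    have key : ∀ x ∈ J, ((∀ y ∈ sh D x, y ∈ A ω) ↔ sh D x ⊆ T) := by
      intro x hx
      constructor
      · intro h2 y hy
        rw [← h1, mem_tr]
        exact ⟨hJ x hx hy, h2 y hy⟩
      · intro h2 y hy
        have h3 := h2 hy
        rw [← h1, mem_tr] at h3
        exact h3.2
    constructor
    · intro h2 y hy
      rw [hV, mem_image] at hy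
      obtain ⟨x, hx, rfl⟩ := hy
      rw [mem_filter] at hx
      intro h3
      apply h2 x hx.1
      intro i hi
      unfold cu at hi
      rw [mem_insert] at hi
      rcases hi with rfl | hi
      · exact h3
      · exact (key x hx.1).2 hx.2 i hi
    · intro h2 x hx h3
      have h4 : sh D x ⊆ T := (key x hx).1 (fun y hy => h3 y (by unfold cu; exact mem_insert_of_mem hy))
      refine h2 (b + x) ?_ (h3 (b + x) (by unfold cu; exact mem_insert_self _ _))
      rw [hV, mem_image]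
      exact ⟨x, by rw [mem_filter]; exact ⟨hx, h4⟩, rfl⟩
  have hdec : none A J (cu b D) = ⋃ T ∈ W.powerset, ({ω | tr A W ω = T} ∩ none A J (cu b D)) := by
    ext ω
    simp only [Set.mem_iUnion, exists_prop, Set.mem_inter_iff, Set.mem_ofPred_eq, mem_powerset]
    constructor
    · intro h
      exact ⟨_, fun n hn => (mem_tr.1 hn).1, rfl, h⟩
    · rintro ⟨T, _, _, h⟩
      exact h
  rw [hdec, measureReal_biUnion_finset]
  · unfold Lam
    refine sum_congr rfl (fun T hT => ?_)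
    rw [hset T hT]
    have hVb : ∀ y ∈ V T, b ≤ y := by
      intro y hy
      rw [hV, mem_image] at hy
      obtain ⟨x, _, rfl⟩ := hy
      omega
    rw [indep_real hA (S := ((W : Finset ℕ) : Set ℕ)) (T := ((V T : Finset ℕ) : Set ℕ)) ?_ (F_pattern W T)
      (F_free (fun n hn => Finset.mem_coe.2 hn))]
    · have h1 : μ.real {ω | ∀ n ∈ W, (n ∈ A ω ↔ n ∈ T)} = prodOn (pc p b q) W T :=
        Pool.Agent.Q150.TT.law_model hA W T (mem_powerset.1 hT)
      rw [h1, real_free hA]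
      have h2 : prodOn (pc p b q) W T = prodOn p W T := by
        unfold prodOn
        congr 1
        · refine prod_congr rfl (fun y hy => ?_)
          unfold pc
          rw [if_pos (hW y (mem_powerset.1 hT hy))]
        · refine prod_congr rfl (fun y hy => ?_)
          unfold pc
          rw [if_pos (hW y (Finset.mem_sdiff.1 hy).1)]
      have h3 : ∏ n ∈ V T, (1 - pc p b q n) = (1 - q) ^ inn J D T := by
        have h4 : ∀ n ∈ V T, 1 - pc p b q n = 1 - q := by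
          intro n hn
          unfold pc
          rw [if_neg (by have := hVb n hn; omega)]
        rw [prod_congr rfl h4, prod_const]
        congr 1
        rw [hV]
        unfold inn
        exact card_image_of_injective _ (fun x y h => Nat.add_left_cancel h)
      rw [h2, h3]
    · rw [Finset.disjoint_coe, Finset.disjoint_left]
      intro y hy hy'
      have h1 := hW y hy
      have h2 := hVb y hy'
      omega
  · intro T _ T' _ hne
    rw [Function.onFun, Set.disjoint_left]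
    rintro ω ⟨h2, _⟩ ⟨h3, _⟩
    exact hne (h2.symm.trans h3)
  · intro T hT
    refine MeasurableSet.inter ?_ (meas_none hA _ _)
    rw [← law_set_eq A (mem_powerset.1 hT)]
    exact measurableSet_law hA.meas W T

/-- Upper bound (Janson). -/
theorem lap_le {p : ℕ → ℝ} (hp : ∀ n, 0 ≤ p n ∧ p n ≤ 1) (hne : D.Nonempty) (hD : ∀ h ∈ D, h ≤ H) {W J : Finset ℕ} {b : ℕ}
    (hWb : ∀ y ∈ W, y < b) {δ q : ℝ} (hδ : 0 ≤ δ) (hq : 0 ≤ q ∧ q ≤ 1) (hW : ∀ x ∈ J, sh D x ⊆ W) (hsm : ∀ y ∈ W, p y ≤ δ) :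
    Lam p W (inn J D) (1 - q) ≤ Real.exp (-((1 - (2 * (H : ℝ) + 1) * δ) * (q * ∑ x ∈ J, ∏ h ∈ D, p (x + h)))) := by
  classical
  have hp' := pc_ok (b := b) hp hq
  have hmod : IsModel (prodMeasure (pc p b q)) (pc p b q) (trueSet (ι := ℕ)) :=
    isModel _ (fun n => (hp' n).1) (fun n => (hp' n).2)
  rw [← lap_eq hWb hW hmod]
  refine (janson hmod J (cu b D)).trans (Real.exp_le_exp.2 ?_)
  have hlt : ∀ x ∈ J, ∀ y ∈ sh D x, y < b := fun x hx y hy => hWb y (hW x hx hy)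
  have e1 : ∑ x ∈ J, ∏ y ∈ cu b D x, pc p b q y = q * ∑ x ∈ J, ∏ h ∈ D, p (x + h) := by
    rw [mul_sum]
    exact sum_congr rfl (fun x hx => prod_cu (hlt x hx))
  rw [e1]
  have e2 : ∑ x ∈ J, ∑ y ∈ J with y ≠ x ∧ ¬ Disjoint (cu b D y) (cu b D x), ∏ i ∈ cu b D y ∪ cu b D x, pc p b q i ≤
      ∑ x ∈ J, (2 * (H : ℝ) + 1) * δ * (q * ∏ h ∈ D, p (x + h)) := by
    refine sum_le_sum (fun x hx => ?_)
    have e3 : ∀ y ∈ J.filter (fun y => y ≠ x ∧ ¬ Disjoint (cu b D y) (cu b D x)), ∏ i ∈ cu b D y ∪ cu b D x, pc p b q i ≤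
        δ * (q * ∏ h ∈ D, p (x + h)) := by
      intro y hy
      rw [mem_filter] at hy
      have h3 : ∃ w ∈ sh D y, w ∉ sh D x := by
        by_contra hcon
        push Not at hcon
        have h4 : sh D y = sh D x := eq_of_subset_of_card_le hcon (by rw [sh_card, sh_card])
        apply hy.2.1
        obtain ⟨h0, hh0, hmax⟩ := exists_max_image D (fun h => h) hne
        have h5 : y + h0 ∈ sh D x := by rw [← h4]; exact mem_sh.2 ⟨h0, hh0, rfl⟩
        have h6 : x + h0 ∈ sh D y := by rw [h4]; exact mem_sh.2 ⟨h0, hh0, rfl⟩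
        obtain ⟨h', hh', he'⟩ := mem_sh.1 h5
        obtain ⟨h'', hh'', he''⟩ := mem_sh.1 h6
        have h7 := hmax h' hh'
        have h8 := hmax h'' hh''
        omega
      obtain ⟨w, hw1, hw2⟩ := h3
      have hwb := hlt y hy.1 w hw1
      have h4 : insert w (cu b D x) ⊆ cu b D y ∪ cu b D x := by
        intro i hi
        rw [mem_insert] at hi
        rcases hi with rfl | hi
        · exact mem_union_left _ (by unfold cu; exact mem_insert_of_mem hw1)
        · exact mem_union_right _ hi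
      have hw3 : w ∉ cu b D x := by
        unfold cu
        rw [mem_insert, not_or]
        exact ⟨by omega, hw2⟩
      calc ∏ i ∈ cu b D y ∪ cu b D x, pc p b q i ≤ ∏ i ∈ insert w (cu b D x), pc p b q i := by
            rw [← prod_sdiff h4]
            have h5 : ∏ i ∈ (cu b D y ∪ cu b D x) \ insert w (cu b D x), pc p b q i ≤ 1 :=
              prod_le_one (fun _ _ => (hp' _).1) (fun _ _ => (hp' _).2)
            have h6 : 0 ≤ ∏ i ∈ insert w (cu b D x), pc p b q i := prod_nonneg (fun _ _ => (hp' _).1)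
            nlinarith
        _ = pc p b q w * ∏ i ∈ cu b D x, pc p b q i := prod_insert hw3
        _ ≤ δ * ∏ i ∈ cu b D x, pc p b q i := by
            refine mul_le_mul_of_nonneg_right ?_ (prod_nonneg (fun _ _ => (hp' _).1))
            unfold pc
            rw [if_pos hwb]
            exact hsm w (hW y hy.1 hw1)
        _ = δ * (q * ∏ h ∈ D, p (x + h)) := by rw [prod_cu (hlt x hx)]
    refine (sum_le_sum e3).trans ?_
    rw [sum_const, nsmul_eq_mul]
    have h3 : ((J.filter (fun y => y ≠ x ∧ ¬ Disjoint (cu b D y) (cu b D x))).card : ℝ) ≤ 2 * (H : ℝ) + 1 := by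
      have h4 : J.filter (fun y => y ≠ x ∧ ¬ Disjoint (cu b D y) (cu b D x)) ⊆ Icc (x - H) (x + H) := by
        intro y hy
        rw [mem_filter] at hy
        obtain ⟨hyJ, hyx, hy3⟩ := hy
        rw [Finset.not_disjoint_iff] at hy3
        obtain ⟨w, hw1, hw2⟩ := hy3
        unfold cu at hw1 hw2
        rw [mem_insert] at hw1 hw2
        rcases hw1 with h5 | hw1
        · rcases hw2 with h6 | hw2
          · exact absurd (show y = x by omega) hyx
          · have := hlt x hx w hw2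
            omega
        · rcases hw2 with h6 | hw2
          · have := hlt y hyJ w hw1
            omega
          · obtain ⟨h, hh, rfl⟩ := mem_sh.1 hw1
            obtain ⟨h', hh', he⟩ := mem_sh.1 hw2
            have h5 := hD h hh
            have h6 := hD h' hh'
            rw [mem_Icc]
            omega
      have h5 := card_le_card h4
      rw [Nat.card_Icc] at h5
      have h6 : (J.filter (fun y => y ≠ x ∧ ¬ Disjoint (cu b D y) (cu b D x))).card ≤ 2 * H + 1 := by omega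
      exact_mod_cast h6
    have h4 : 0 ≤ δ * (q * ∏ h ∈ D, p (x + h)) := mul_nonneg hδ (mul_nonneg hq.1 (prod_nonneg (fun _ _ => (hp _).1)))
    calc _ ≤ (2 * (H : ℝ) + 1) * (δ * (q * ∏ h ∈ D, p (x + h))) := mul_le_mul_of_nonneg_right h3 h4
      _ = _ := by ring
  rw [← mul_sum, ← mul_sum] at e2
  linarith

/-- Lower bound (Harris). -/
theorem le_lap {p : ℕ → ℝ} (hp : ∀ n, 0 ≤ p n ∧ p n ≤ 1) (hne : D.Nonempty) {W J : Finset ℕ} {b : ℕ}
    (hWb : ∀ y ∈ W, y < b) {δ q : ℝ} (hδ1 : δ ≤ 1 / 2) (hq : 0 ≤ q ∧ q ≤ 1) (hW : ∀ x ∈ J, sh D x ⊆ W) (hsm : ∀ y ∈ W, p y ≤ δ) :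
    Real.exp (-((1 + 2 * δ) * (q * ∑ x ∈ J, ∏ h ∈ D, p (x + h)))) ≤ Lam p W (inn J D) (1 - q) := by
  classical
  have hp' := pc_ok (b := b) hp hq
  have hmod : IsModel (prodMeasure (pc p b q)) (pc p b q) (trueSet (ι := ℕ)) :=
    isModel _ (fun n => (hp' n).1) (fun n => (hp' n).2)
  rw [← lap_eq hWb hW hmod]
  have hlt : ∀ x ∈ J, ∀ y ∈ sh D x, y < b := fun x hx y hy => hWb y (hW x hx hy)
  refine le_trans ?_ (harris hmod J (cu b D))
  rw [mul_sum, mul_sum, ← sum_neg_distrib, Real.exp_sum]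
  refine prod_le_prod (fun x _ => (Real.exp_pos _).le) (fun x hx => ?_)
  rw [prod_cu (hlt x hx)]
  have h0 : 0 ≤ ∏ h ∈ D, p (x + h) := prod_nonneg (fun _ _ => (hp _).1)
  refine exp_low (mul_nonneg hq.1 h0) ?_ hδ1
  obtain ⟨h0', hh0⟩ := hne
  have h1 : ∏ h ∈ D, p (x + h) ≤ δ := by
    rw [← mul_prod_erase D (fun h => p (x + h)) hh0]
    have h2 : ∏ h ∈ D.erase h0', p (x + h) ≤ 1 := prod_le_one (fun _ _ => (hp _).1) (fun _ _ => (hp _).2)
    have h3 : 0 ≤ ∏ h ∈ D.erase h0', p (x + h) := prod_nonneg (fun _ _ => (hp _).1)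
    have h4 := hsm (x + h0') (hW x hx (mem_sh.2 ⟨h0', hh0, rfl⟩))
    have h5 := (hp (x + h0')).1
    nlinarith
  nlinarith [hq.1, hq.2]

end

section

variable {z : ℕ → ℕ} {D : Finset ℕ} {H : ℕ} {σ : ℝ} {u v : ℕ → ℕ} {θ : ℝ}

theorem Wins.lap (hw : Wins u v θ) (hS : Tendsto (fun k => Sz D (z k)) atTop (𝓝 σ)) (hz : Small z)
    (hD : ∀ h ∈ D, h ≤ H) (hne : D.Nonempty) (hσ : 0 < σ) {Ex : ℕ → ℝ} (hEx : Asy Ex (wt u v D.card) σ) :
    WLap (pr z) (fun n => Ico (u n) (v n)) (fun n => pat D D H (u n) (v n)) Ex (Set.Ioc 0 1) := by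
  have hp : ∀ n, 0 ≤ pr z n ∧ pr z n ≤ 1 := fun n => ⟨pr_nonneg z n, pr_le_one z n⟩
  intro t ht γ hγ
  obtain ⟨δ, hδ⟩ : ∃ δ : ℝ, δ = min (1 / 2) (γ * σ / (8 * ((2 * (H : ℝ) + 1) * (σ + 1) + 2 + γ))) := ⟨_, rfl⟩
  have hδ0 : 0 < δ := by rw [hδ]; exact lt_min (by norm_num) (by positivity)
  have hδ1 : δ ≤ 1 / 2 := by rw [hδ]; exact min_le_left _ _
  have hδ2 : 8 * (δ * ((2 * (H : ℝ) + 1) * (σ + 1) + 2 + γ)) ≤ γ * σ := by
    have h1 : δ ≤ γ * σ / (8 * ((2 * (H : ℝ) + 1) * (σ + 1) + 2 + γ)) := by rw [hδ]; exact min_le_right _ _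
    rw [le_div_iff₀ (by positivity)] at h1
    linarith
  filter_upwards [hw.EI_near hS hz hD hδ0, hw.small hz hδ0, hEx δ hδ0, hw.wt_ge D.card] with n hEI hsm hEn hwt
  have hw0 : 0 ≤ wt u v D.card n := le_trans (by positivity) hwt.2
  have hq : 0 ≤ 1 - t ∧ 1 - t ≤ 1 := ⟨by linarith [ht.2], by linarith [ht.1]⟩
  obtain ⟨q, hqd⟩ : ∃ q, q = 1 - t := ⟨_, rfl⟩
  rw [← hqd] at hq ⊢
  have ht2 : t = 1 - q := by rw [hqd]; ring
  have hN : (fun T => pat D D H (u n) (v n) ((T : Finset ℕ) : Set ℕ)) = inn (Ico (u n) (v n - H)) D := by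
    funext T
    exact pat_inn T
  rw [hN, ht2]
  have hWb : ∀ y ∈ Ico (u n) (v n), y < v n := fun y hy => (mem_Ico.1 hy).2
  have hW : ∀ x ∈ Ico (u n) (v n - H), sh D x ⊆ Ico (u n) (v n) := fun x hx => sh_sub hD hx
  have hsm' : ∀ y ∈ Ico (u n) (v n), pr z y ≤ δ := fun y hy => hsm y (mem_Ico.1 hy).1
  have hE : ∑ x ∈ Ico (u n) (v n - H), ∏ h ∈ D, pr z (x + h) = EI (pr z) D (u n) (v n - H) := rfl
  have k1 := le_lap hp hne hWb hδ1 hq hW hsm'
  have k2 := lap_le (H := H) hp hne hD hWb hδ0.le hq hW hsm'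
  rw [hE] at k1 k2
  obtain ⟨X, hX⟩ : ∃ X, X = EI (pr z) D (u n) (v n - H) := ⟨_, rfl⟩
  obtain ⟨w, hwd⟩ : ∃ w, w = wt u v D.card n := ⟨_, rfl⟩
  rw [← hwd] at hEI hEn hw0
  rw [← hX] at k1 k2 hEI
  have a1 := abs_le.1 hEI
  have a2 := abs_le.1 hEn
  have hX0 : 0 ≤ X := by rw [hX]; exact EI_nonneg hp D _ _
  have hH0 : (0 : ℝ) ≤ (2 * (H : ℝ) + 1) := by positivity
  -- compare X and Ex n
  have b1 : X ≤ Ex n + 2 * δ * w := by linarith
  have b2 : Ex n - 2 * δ * w ≤ X := by linarith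
  have b3 : (σ - δ) * w ≤ Ex n := by linarith
  have b4 : X ≤ (σ + δ) * w := by linarith
  constructor
  · refine le_trans (Real.exp_le_exp.2 ?_) k1
    have c1 : (1 + 2 * δ) * (q * X) ≤ q * X + 2 * δ * ((σ + δ) * w) := by
      have : δ * (q * X) ≤ δ * ((σ + δ) * w) := mul_le_mul_of_nonneg_left (by nlinarith [hq.1, hq.2]) hδ0.le
      linarith
    have c2 : q * X ≤ q * Ex n + 2 * δ * w := by
      have h1 : q * X ≤ q * (Ex n + 2 * δ * w) := mul_le_mul_of_nonneg_left b1 hq.1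
      have h2 : q * (2 * δ * w) ≤ 1 * (2 * δ * w) := mul_le_mul_of_nonneg_right hq.2 (by positivity)
      linarith
    have c3 : 2 * δ * w + 2 * δ * ((σ + δ) * w) ≤ γ * ((σ - δ) * w) := by
      have : 2 * δ + 2 * δ * (σ + δ) ≤ γ * (σ - δ) := by
        nlinarith [mul_nonneg hδ0.le (mul_nonneg hH0 (show 0 ≤ σ + 1 by linarith)),
          mul_nonneg hδ0.le (show (0 : ℝ) ≤ 2 * (H : ℝ) by positivity),
          mul_nonneg (mul_nonneg hδ0.le (show (0 : ℝ) ≤ 2 * (H : ℝ) by positivity)) hσ.le]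
      nlinarith [mul_le_mul_of_nonneg_right this hw0]
    have c4 : γ * ((σ - δ) * w) ≤ γ * Ex n := mul_le_mul_of_nonneg_left b3 hγ.le
    nlinarith
  · refine k2.trans (Real.exp_le_exp.2 ?_)
    have c1 : (2 * (H : ℝ) + 1) * δ * (q * X) ≤ (2 * (H : ℝ) + 1) * δ * ((σ + δ) * w) :=
      mul_le_mul_of_nonneg_left (by nlinarith [hq.1, hq.2]) (by positivity)
    have c2 : q * Ex n - 2 * δ * w ≤ q * X := by
      have h1 : q * (Ex n - 2 * δ * w) ≤ q * X := mul_le_mul_of_nonneg_left b2 hq.1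
      have h2 : q * (2 * δ * w) ≤ 1 * (2 * δ * w) := mul_le_mul_of_nonneg_right hq.2 (by positivity)
      linarith
    have c3 : 2 * δ * w + (2 * (H : ℝ) + 1) * δ * ((σ + δ) * w) ≤ γ * ((σ - δ) * w) := by
      have : 2 * δ + (2 * (H : ℝ) + 1) * δ * (σ + δ) ≤ γ * (σ - δ) := by
        have h1 : (2 * (H : ℝ) + 1) * δ * (σ + δ) ≤ δ * ((2 * (H : ℝ) + 1) * (σ + 1)) := by
          nlinarith [mul_nonneg hH0 hδ0.le]
        nlinarith [mul_nonneg hδ0.le (mul_nonneg hH0 (show 0 ≤ σ + 1 by linarith))]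
      nlinarith [mul_le_mul_of_nonneg_right this hw0]
    have c4 : γ * ((σ - δ) * w) ≤ γ * Ex n := mul_le_mul_of_nonneg_left b3 hγ.le
    nlinarith

/-- The exact price of lower deviations for the patterns. -/
theorem Wins.low (hw : Wins u v θ) (hS : Tendsto (fun k => Sz D (z k)) atTop (𝓝 σ)) (hz : Small z)
    (hD : ∀ h ∈ D, h ≤ H) (hne : D.Nonempty) (hσ : 0 < σ) {Ex : ℕ → ℝ} (hEx : Asy Ex (wt u v D.card) σ) :
    Low (pr z) (fun n => Ico (u n) (v n)) (fun n => pat D D H (u n) (v n)) Ex :=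
  Pool.Agent.Q197.WN.low (hw.sharp hS hz hD hne hσ hEx) (hw.lap hS hz hD hne hσ hEx) (fun _ h1 h2 => ⟨h1, h2⟩)

end

end Pool.Agent.Q197.WN
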