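import Pool.Agent.Q197.WN.Event

/-!
# The number of elements in windows of small density: all large deviations
-/

set_option autoImplicit false

namespace Pool.Agent.Q197.WN

open Finset MeasureTheory Filter Pool.Agent.Q120.TT Pool.Agent.Q120.ET Pool.Agent.Q120.GM
open scoped Topology

theorem lam_set (p : ℕ → ℝ) (W : Finset ℕ) (t : ℝ) :
    Lam p W (fun T => els W ((T : Finset ℕ) : Set ℕ)) t = ∏ x ∈ W, (1 - (1 - t) * p x) := by
  classical
  have h1 : ∏ x ∈ W, (1 - (1 - t) * p x) = ∏ x ∈ W, (t * p x + (1 - p x)) :=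
    prod_congr rfl (fun x _ => by ring)
  rw [h1, Finset.prod_add]
  unfold Lam
  refine sum_congr rfl (fun T hT => ?_)
  have h2 : els W ((T : Finset ℕ) : Set ℕ) = T.card := by
    unfold els
    congr 1
    ext x
    simp only [mem_filter, Finset.mem_coe]
    exact ⟨fun h => h.2, fun h => ⟨mem_powerset.1 hT h, h⟩⟩
  show prodOn p W T * t ^ (els W ((T : Finset ℕ) : Set ℕ)) = _
  rw [h2, prod_mul_distrib, prod_const]
  unfold prodOn
  ring

/-- The Laplace transforms. -/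
theorem lap_gen {p : ℕ → ℝ} (hp : ∀ n, 0 ≤ p n ∧ p n ≤ 1) {W : ℕ → Finset ℕ} {E : ℕ → ℝ}
    (hsm : ∀ δ : ℝ, 0 < δ → ∀ᶠ n : ℕ in atTop, ∀ x ∈ W n, p x ≤ δ)
    (hm : ∀ δ : ℝ, 0 < δ → ∀ᶠ n : ℕ in atTop, |∑ x ∈ W n, p x - E n| ≤ δ * E n) (hE : ∀ᶠ n : ℕ in atTop, 0 ≤ E n) :
    WLap p W (fun n => els (W n)) E (Set.Ici 0) := by
  intro t ht γ hγ
  have ht0 : 0 ≤ t := ht
  obtain ⟨a, ha⟩ : ∃ a : ℝ, a = |1 - t| := ⟨_, rfl⟩
  have ha0 : 0 ≤ a := by rw [ha]; exact abs_nonneg _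
  obtain ⟨δ, hδ⟩ : ∃ δ : ℝ, δ = min (min 1 (1 / (2 * (a + 1)))) (γ / (a + 4 * a ^ 2 + 1)) := ⟨_, rfl⟩
  have hδ0 : 0 < δ := by
    rw [hδ]
    exact lt_min (lt_min one_pos (by positivity)) (by positivity)
  have hδ1 : δ ≤ 1 := by rw [hδ]; exact (min_le_left _ _).trans (min_le_left _ _)
  have hδ2 : a * δ ≤ 1 / 2 := by
    have h1 : δ ≤ 1 / (2 * (a + 1)) := by rw [hδ]; exact (min_le_left _ _).trans (min_le_right _ _)
    rw [le_div_iff₀ (by positivity)] at h1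
    nlinarith
  have hδ3 : (a + 4 * a ^ 2) * δ ≤ γ := by
    have h1 : δ ≤ γ / (a + 4 * a ^ 2 + 1) := by rw [hδ]; exact min_le_right _ _
    rw [le_div_iff₀ (by positivity)] at h1
    nlinarith
  filter_upwards [hsm δ hδ0, hm δ hδ0, hE] with n hs hmn hEn
  rw [lam_set]
  obtain ⟨S, hS⟩ : ∃ S, S = ∑ x ∈ W n, p x := ⟨_, rfl⟩
  rw [← hS] at hmn
  obtain ⟨hm1, hm2⟩ := abs_le.1 hmn
  have hS0 : 0 ≤ S := by rw [hS]; exact sum_nonneg (fun x _ => (hp x).1)
  have hS2 : S ≤ 2 * E n := by nlinarith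
  have hat : -a ≤ 1 - t ∧ 1 - t ≤ a := by rw [ha]; exact ⟨neg_abs_le _, le_abs_self _⟩
  have hkey : |(1 - t) * (S - E n)| ≤ a * (δ * E n) := by
    rw [abs_mul, ← ha]
    exact mul_le_mul_of_nonneg_left hmn ha0
  obtain ⟨k1, k2⟩ := abs_le.1 hkey
  have hx : ∀ x ∈ W n, |(1 - t) * p x| ≤ 1 / 2 := by
    intro x hx
    rw [abs_mul, ← ha, abs_of_nonneg (hp x).1]
    exact (mul_le_mul_of_nonneg_left (hs x hx) ha0).trans hδ2
  constructor
  · have h1 : Real.exp (-((1 - t) * S) - 2 * a ^ 2 * δ * S) ≤ ∏ x ∈ W n, (1 - (1 - t) * p x) := by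
      have h2 : -((1 - t) * S) - 2 * a ^ 2 * δ * S = ∑ x ∈ W n, (-((1 - t) * p x) - 2 * a ^ 2 * δ * p x) := by
        rw [sum_sub_distrib, sum_neg_distrib, ← mul_sum, ← mul_sum, hS]
      rw [h2, Real.exp_sum]
      refine prod_le_prod (fun x _ => (Real.exp_pos _).le) (fun x hxW => ?_)
      have h3 := (hp x).1
      obtain ⟨y, hy⟩ : ∃ y, y = (1 - t) * p x := ⟨_, rfl⟩
      have hy1 := abs_le.1 (hx x hxW)
      rw [← hy] at hy1 ⊢
      rw [← Real.le_log_iff_exp_le (by linarith)]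
      have h6 := Real.one_sub_inv_le_log_of_pos (show 0 < 1 - y by linarith)
      have h9 : y ^ 2 ≤ a ^ 2 * δ * p x := by
        have h10 : y ^ 2 = a ^ 2 * (p x * p x) := by
          rw [hy, ha, sq_abs]; ring
        rw [h10, mul_assoc]
        apply mul_le_mul_of_nonneg_left _ (sq_nonneg a)
        exact mul_le_mul_of_nonneg_right (hs x hxW) h3
      have h7 : -y - 2 * y ^ 2 ≤ Real.log (1 - y) := by
        refine le_trans ?_ h6
        have h12 : 0 < 1 - y := by linarith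
        have h13 : 1 - (1 - y)⁻¹ = -y / (1 - y) := by field_simp; ring
        rw [h13, le_div_iff₀ h12]
        nlinarith [mul_nonneg (sq_nonneg y) (show 0 ≤ 1 - 2 * y by linarith)]
      linarith
    refine le_trans (Real.exp_le_exp.2 ?_) h1
    have h4 : 2 * a ^ 2 * δ * S ≤ 4 * a ^ 2 * δ * E n := by
      have : 2 * a ^ 2 * δ * S ≤ 2 * a ^ 2 * δ * (2 * E n) := mul_le_mul_of_nonneg_left hS2 (by positivity)
      linarith
    have h5 : (a + 4 * a ^ 2) * δ * E n ≤ γ * E n := mul_le_mul_of_nonneg_right hδ3 hEn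
    nlinarith
  · have h1 : ∏ x ∈ W n, (1 - (1 - t) * p x) ≤ Real.exp (-((1 - t) * S)) := by
      rw [hS, mul_sum, ← sum_neg_distrib, Real.exp_sum]
      refine prod_le_prod (fun x hxW => ?_) (fun x _ => ?_)
      · have := (abs_le.1 (hx x hxW)).2
        linarith
      · have := Real.add_one_le_exp (-((1 - t) * p x))
        linarith
    refine h1.trans (Real.exp_le_exp.2 ?_)
    have h5 : (a + 4 * a ^ 2) * δ * E n ≤ γ * E n := mul_le_mul_of_nonneg_right hδ3 hEn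
    have h6 : 0 ≤ 4 * a ^ 2 * δ * E n := by positivity
    nlinarith

section

variable {p : ℕ → ℝ} {W : ℕ → Finset ℕ} {N : ℕ → Set ℕ → ℕ} {E : ℕ → ℝ}

theorem lam_zero (p : ℕ → ℝ) (W : Finset ℕ) (N : Finset ℕ → ℕ) : Lam p W N 0 = PP p W (fun T => N T = 0) := by
  classical
  have h1 : PP p W (fun T => N T = 0) = ∑ T ∈ W.powerset with N T = 0, prodOn p W T := by
    unfold PP
    exact sum_congr (by ext T; simp only [mem_filter]) (fun _ _ => rfl)
  rw [h1, sum_filter]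
  unfold Lam
  refine sum_congr rfl (fun T _ => ?_)
  by_cases h : N T = 0
  · rw [h, pow_zero, mul_one, if_pos rfl]
  · rw [if_neg h, zero_pow h, mul_zero]

theorem low_up (hl : WLap p W N E (Set.Ici 0)) (hp : ∀ n, 0 ≤ p n ∧ p n ≤ 1) {θ : ℝ} (h0 : 0 ≤ θ) (h1 : θ ≤ 1) {δ : ℝ}
    (hδ : 0 < δ) : ∀ᶠ n : ℕ in atTop,
      PP p (W n) (fun T => (N n ((T : Finset ℕ) : Set ℕ) : ℝ) ≤ θ * E n) ≤ Real.exp (-((rate θ - δ) * E n)) := by
  rcases h0.eq_or_lt with h2 | h2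
  · filter_upwards [hl 0 (Set.mem_Ici.2 le_rfl) δ hδ] with n hn
    rw [← h2, rate_zero]
    have h3 := hn.2
    rw [lam_zero, sub_zero] at h3
    refine le_trans (PP_mono hp (fun T _ hT => ?_)) h3
    have h4 : (N n ((T : Finset ℕ) : Set ℕ) : ℝ) ≤ 0 * E n := hT
    rw [zero_mul] at h4
    exact_mod_cast le_antisymm h4 (Nat.cast_nonneg _)
  · exact hl.down hp (Set.mem_Ici.2 h0) h2 h1 hδ

theorem low_lo (hl : WLap p W N E (Set.Ici 0)) (hp : ∀ n, 0 ≤ p n ∧ p n ≤ 1) (hE : Tendsto E atTop atTop) {θ : ℝ} (h0 : 0 ≤ θ)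
    {ε δ : ℝ} (hε : 0 < ε) (hδ : 0 < δ) : ∀ᶠ n : ℕ in atTop, Real.exp (-((rate θ + δ) * E n)) ≤
      PP p (W n) (fun T => (θ - ε) * E n ≤ N n ((T : Finset ℕ) : Set ℕ) ∧ (N n ((T : Finset ℕ) : Set ℕ) : ℝ) ≤ θ * E n) := by
  rcases h0.eq_or_lt with h2 | h2
  · filter_upwards [hl 0 (Set.mem_Ici.2 le_rfl) δ hδ, hE.eventually_ge_atTop 0] with n hn hEn
    rw [← h2, rate_zero]
    have h3 := hn.1
    rw [lam_zero, sub_zero] at h3
    refine h3.trans (PP_mono hp (fun T _ hT => ?_))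
    have h4 : N n ((T : Finset ℕ) : Set ℕ) = 0 := hT
    rw [h4]
    push_cast
    constructor
    · nlinarith
    · linarith
  · have hcont : Tendsto (fun τ : ℝ => rate (θ - τ) + 2 * τ * |Real.log (θ - τ)|) (𝓝 0) (𝓝 (rate θ)) := by
      have c1 : ContinuousAt (fun τ : ℝ => rate (θ - τ) + 2 * τ * |Real.log (θ - τ)|) 0 := by
        refine ContinuousAt.add ?_ ?_
        · exact (rate_cont.comp (continuous_const.sub continuous_id)).continuousAt
        · refine ContinuousAt.mul (by fun_prop) ?_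
          refine ContinuousAt.abs ?_
          refine ContinuousAt.log (by fun_prop) ?_
          simp only [sub_zero]
          exact h2.ne'
      have c2 := c1.tendsto
      simpa using c2
    have e1 := hcont.eventually (Iio_mem_nhds (show rate θ < rate θ + δ / 2 by linarith))
    have e2 : ∀ᶠ τ : ℝ in 𝓝 0, τ < θ / 4 := Iio_mem_nhds (by linarith)
    have e3 : ∀ᶠ τ : ℝ in 𝓝 0, τ < ε / 4 := Iio_mem_nhds (by linarith)
    obtain ⟨τ, ⟨hτ1, hτ2, hτ3⟩, hτ0⟩ := (((e1.and (e2.and e3)).filter_mono nhdsWithin_le_nhds).and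
      (self_mem_nhdsWithin (s := Set.Ioi (0 : ℝ)))).exists
    have hτ0' : 0 < τ := hτ0
    have hτ1' : rate (θ - τ) + 2 * τ * |Real.log (θ - τ)| < rate θ + δ / 2 := hτ1
    filter_upwards [hl.lo hp hE (θ := θ - τ) (θ1 := θ - 2 * τ) (θ2 := θ) (Set.mem_Ici.2 (by linarith))
      (Set.mem_Ici.2 (by linarith)) (Set.mem_Ici.2 h0) (by linarith) (by linarith) (by linarith)
      (show 0 < δ / 2 by positivity), hE.eventually_ge_atTop 0] with n hn hEn
    refine le_trans (Real.exp_le_exp.2 ?_) (hn.trans (PP_mono hp (fun T _ hT => ?_)))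
    · have h3 : rate (θ - τ) + (θ - (θ - 2 * τ)) * |Real.log (θ - τ)| + δ / 2 ≤ rate θ + δ := by
        have h4 : θ - (θ - 2 * τ) = 2 * τ := by ring
        rw [h4]
        linarith
      have := mul_le_mul_of_nonneg_right h3 hEn
      linarith
    · refine ⟨le_trans ?_ hT.1, hT.2⟩
      exact mul_le_mul_of_nonneg_right (by linarith) hEn

theorem high_up (hl : WLap p W N E (Set.Ici 0)) (hp : ∀ n, 0 ≤ p n ∧ p n ≤ 1) {θ : ℝ} (h1 : 1 ≤ θ) {δ : ℝ}
    (hδ : 0 < δ) : ∀ᶠ n : ℕ in atTop,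
      PP p (W n) (fun T => θ * E n ≤ (N n ((T : Finset ℕ) : Set ℕ) : ℝ)) ≤ Real.exp (-((rate θ - δ) * E n)) :=
  hl.up hp (Set.mem_Ici.2 (by linarith)) h1 hδ

theorem high_lo (hl : WLap p W N E (Set.Ici 0)) (hp : ∀ n, 0 ≤ p n ∧ p n ≤ 1) (hE : Tendsto E atTop atTop) {θ : ℝ} (h1 : 1 ≤ θ)
    {ε δ : ℝ} (hε : 0 < ε) (hδ : 0 < δ) : ∀ᶠ n : ℕ in atTop, Real.exp (-((rate θ + δ) * E n)) ≤
      PP p (W n) (fun T => θ * E n ≤ N n ((T : Finset ℕ) : Set ℕ) ∧ (N n ((T : Finset ℕ) : Set ℕ) : ℝ) ≤ (θ + ε) * E n) := by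
  have h0 : 0 < θ := by linarith
  have hcont : Tendsto (fun τ : ℝ => rate (θ + τ) + 2 * τ * |Real.log (θ + τ)|) (𝓝 0) (𝓝 (rate θ)) := by
    have c1 : ContinuousAt (fun τ : ℝ => rate (θ + τ) + 2 * τ * |Real.log (θ + τ)|) 0 := by
      refine ContinuousAt.add ?_ ?_
      · exact (rate_cont.comp (continuous_const.add continuous_id)).continuousAt
      · refine ContinuousAt.mul (by fun_prop) ?_
        refine ContinuousAt.abs ?_
        refine ContinuousAt.log (by fun_prop) ?_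
        simp only [add_zero]
        exact h0.ne'
    have c2 := c1.tendsto
    simpa using c2
  have e1 := hcont.eventually (Iio_mem_nhds (show rate θ < rate θ + δ / 2 by linarith))
  have e3 : ∀ᶠ τ : ℝ in 𝓝 0, τ < ε / 4 := Iio_mem_nhds (by linarith)
  obtain ⟨τ, ⟨hτ1, hτ3⟩, hτ0⟩ := (((e1.and e3).filter_mono nhdsWithin_le_nhds).and
    (self_mem_nhdsWithin (s := Set.Ioi (0 : ℝ)))).exists
  have hτ0' : 0 < τ := hτ0
  have hτ1' : rate (θ + τ) + 2 * τ * |Real.log (θ + τ)| < rate θ + δ / 2 := hτ1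
  filter_upwards [hl.lo hp hE (θ := θ + τ) (θ1 := θ) (θ2 := θ + 2 * τ) (Set.mem_Ici.2 (by linarith))
    (Set.mem_Ici.2 (by linarith)) (Set.mem_Ici.2 (by linarith)) (by linarith) (by linarith) (by linarith)
    (show 0 < δ / 2 by positivity), hE.eventually_ge_atTop 0] with n hn hEn
  refine le_trans (Real.exp_le_exp.2 ?_) (hn.trans (PP_mono hp (fun T _ hT => ?_)))
  · have h3 : rate (θ + τ) + (θ + 2 * τ - θ) * |Real.log (θ + τ)| + δ / 2 ≤ rate θ + δ := by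
      have h4 : θ + 2 * τ - θ = 2 * τ := by ring
      rw [h4]
      linarith
    have := mul_le_mul_of_nonneg_right h3 hEn
    linarith
  · refine ⟨hT.1, hT.2.trans ?_⟩
    exact mul_le_mul_of_nonneg_right (by linarith) hEn

end

end Pool.Agent.Q197.WN
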