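import Pool.Agent.Q197.WN.Rate

/-!
# The exact price of deviations in many windows
-/

set_option autoImplicit false

namespace Pool.Agent.Q197.WN

open Finset MeasureTheory Filter Pool.Agent.Q120.TT Pool.Agent.Q120.ET Pool.Agent.Q120.GM
open scoped Topology

/-- The exact price of lower deviations: for `0 ≤ θ < 1` the least relative entropy, in the block `k`, of a random set which has with
probability `q` at least `M` windows with `N n ≤ θ E n` is `q (1 - θ + θ log θ) U (1 + o(1))`, `U` the sum of the `M` smallest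
`E n`. -/
def Low (p : ℕ → ℝ) (W : ℕ → Finset ℕ) (N : ℕ → Set ℕ → ℕ) (E : ℕ → ℝ) : Prop :=
  ∀ θ : ℝ, 0 ≤ θ → θ < 1 → ∀ ε : ℝ, 0 < ε →
    (∀ (Ω : Type) [MeasurableSpace Ω] (μ : Measure Ω) [IsProbabilityMeasure μ] (A : Ω → Set ℕ),
      IsRandomSet A → (∀ᵐ ω ∂μ, ∀ n ∈ A ω, 0 < p n) → ∀ᶠ k : ℕ in atTop, ∀ M : ℕ, 1 ≤ M → M ≤ 2 ^ k →
        (1 - ε) * (rate θ * (cost E (block k) M * μ.real {ω | M ≤ exc (fun n S => (N n S : ℝ) ≤ θ * E n) k (A ω)})) ≤
          1 + relEnt p μ A (un W k)) ∧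
    (∀ (M : ℕ → ℕ) (q : ℕ → ℝ), (∀ k, M k ≤ 2 ^ k) → (∀ k, 0 ≤ q k ∧ q k ≤ 1) →
      ∃ (Ω : Type) (_ : MeasurableSpace Ω) (μ : Measure Ω) (_ : IsProbabilityMeasure μ) (A : Ω → Set ℕ),
        Near p (un W) (fun k => (1 + ε) * (rate θ * (q k * cost E (block k) (M k)))) μ A ∧ ∀ᶠ k : ℕ in atTop,
          q k ≤ μ.real {ω | M k ≤ exc (fun n S => (θ - ε) * E n ≤ N n S ∧ (N n S : ℝ) ≤ θ * E n) k (A ω)})

/-- The exact price of upper deviations, `θ > 1`. -/
def High (p : ℕ → ℝ) (W : ℕ → Finset ℕ) (N : ℕ → Set ℕ → ℕ) (E : ℕ → ℝ) : Prop :=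
  ∀ θ : ℝ, 1 < θ → ∀ ε : ℝ, 0 < ε →
    (∀ (Ω : Type) [MeasurableSpace Ω] (μ : Measure Ω) [IsProbabilityMeasure μ] (A : Ω → Set ℕ),
      IsRandomSet A → (∀ᵐ ω ∂μ, ∀ n ∈ A ω, 0 < p n) → ∀ᶠ k : ℕ in atTop, ∀ M : ℕ, 1 ≤ M → M ≤ 2 ^ k →
        (1 - ε) * (rate θ * (cost E (block k) M * μ.real {ω | M ≤ exc (fun n S => θ * E n ≤ (N n S : ℝ)) k (A ω)})) ≤
          1 + relEnt p μ A (un W k)) ∧
    (∀ (M : ℕ → ℕ) (q : ℕ → ℝ), (∀ k, M k ≤ 2 ^ k) → (∀ k, 0 ≤ q k ∧ q k ≤ 1) →
      ∃ (Ω : Type) (_ : MeasurableSpace Ω) (μ : Measure Ω) (_ : IsProbabilityMeasure μ) (A : Ω → Set ℕ),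
        Near p (un W) (fun k => (1 + ε) * (rate θ * (q k * cost E (block k) (M k)))) μ A ∧ ∀ᶠ k : ℕ in atTop,
          q k ≤ μ.real {ω | M k ≤ exc (fun n S => θ * E n ≤ N n S ∧ (N n S : ℝ) ≤ (θ + ε) * E n) k (A ω)})

section

variable {p : ℕ → ℝ} {W : ℕ → Finset ℕ} {N : ℕ → Set ℕ → ℕ} {E : ℕ → ℝ}

theorem price_up (h : WModel p W N E) {R : ℕ → ℕ → Prop} {r : ℝ} (hr : 0 < r)
    (hR : ∀ δ : ℝ, 0 < δ → ∃ C : ℝ, 0 < C ∧ ∀ᶠ n : ℕ in atTop,
      PP p (W n) (fun T => R n (N n ((T : Finset ℕ) : Set ℕ))) ≤ C * Real.exp (-((r - δ) * E n)))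
    {ε : ℝ} (hε : 0 < ε) {Ω : Type} [MeasurableSpace Ω] {μ : Measure Ω} [IsProbabilityMeasure μ] {A : Ω → Set ℕ}
    (hA : IsRandomSet A) (hs : ∀ᵐ ω ∂μ, ∀ n ∈ A ω, 0 < p n) : ∀ᶠ k : ℕ in atTop, ∀ M : ℕ, 1 ≤ M → M ≤ 2 ^ k →
      (1 - ε) * (r * (cost E (block k) M * μ.real {ω | M ≤ exc (fun n S => R n (N n S)) k (A ω)})) ≤
        1 + relEnt p μ A (un W k) := by
  rcases le_or_gt 1 ε with hε1 | hε1
  · filter_upwards [h.sq, ev_block h.half, eventually_ge_atTop 1] with k hk hhalf hk1 M hM1 hM2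
    have hM2' : M ≤ (block k).card := by rw [block_card]; exact hM2
    have h1 := le_cost (e := E) hM2' hk
    have h2 : 0 ≤ cost E (block k) M := le_trans (by positivity) h1
    have h3 : (1 - ε) * (r * (cost E (block k) M * μ.real {ω | M ≤ exc (fun n S => R n (N n S)) k (A ω)})) ≤ 0 :=
      mul_nonpos_of_nonpos_of_nonneg (by linarith) (mul_nonneg hr.le (mul_nonneg h2 measureReal_nonneg))
    have hlaw := law_ok (μ := μ) hA hs (B := un W k) (p := p) (fun x hx => by
      obtain ⟨n, hn, hx⟩ := mem_biUnion.1 hx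
      exact hhalf n hn x hx)
    have h4 := Pool.Agent.Q111.TT.entropy_gen (fun n _ => h.prob n) hlaw (fun _ => False) 0
    simp at h4
    unfold relEnt
    linarith
  · obtain ⟨C, hC, hR⟩ := hR (ε / 2 * r) (by positivity)
    have hc : 0 < (1 - ε) * r := mul_pos (by linarith) hr
    filter_upwards [mach_price (I := block) (e := E) h.prob h.disj card_exp h.sq (ev_block h.half) hC hc
      (show (1 - ε) * r < r - ε / 2 * r by nlinarith) (ev_block hR) hA hs, h.sq, eventually_ge_atTop 1]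
      with k hk hk2 hk1 M hM1 hM2
    have hM2' : M ≤ (block k).card := by rw [block_card]; exact hM2
    have h1 := hk M hM1 hM2'
    have h2 := le_cost (e := E) hM2' hk2
    have hk0 : (0 : ℝ) < k := by exact_mod_cast hk1
    have hM0 : (0 : ℝ) < M := by exact_mod_cast hM1
    have h3 : 0 < cost E (block k) M := lt_of_lt_of_le (by positivity) h2
    have h5 : 0 < (1 - ε) * r * cost E (block k) M := mul_pos hc h3
    rw [le_div_iff₀ h5] at h1
    have h4 : {ω | M ≤ exc (fun n S => R n (N n S)) k (A ω)} =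
        {ω | M ≤ many W (block k) (fun n T => R n (N n ((T : Finset ℕ) : Set ℕ))) (tr A ((block k).biUnion W) ω)} := by
      ext ω
      simp only [Set.mem_ofPred_eq]
      rw [exc_eq h.loc R]
    rw [h4]
    unfold un
    linarith

theorem price_lo (h : WModel p W N E) {R : ℕ → ℕ → Prop} {r : ℝ}
    (hR : ∀ᶠ n : ℕ in atTop, Real.exp (-(r * E n)) ≤ PP p (W n) (fun T => R n (N n ((T : Finset ℕ) : Set ℕ))))
    {M : ℕ → ℕ} {q : ℕ → ℝ} (hM : ∀ k, M k ≤ 2 ^ k) (hq : ∀ k, 0 ≤ q k ∧ q k ≤ 1) :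
    ∃ (Ω : Type) (_ : MeasurableSpace Ω) (μ : Measure Ω) (_ : IsProbabilityMeasure μ) (A : Ω → Set ℕ),
      Near p (un W) (fun k => r * (q k * cost E (block k) (M k))) μ A ∧
        ∀ᶠ k : ℕ in atTop, q k ≤ μ.real {ω | M k ≤ exc (fun n S => R n (N n S)) k (A ω)} := by
  have hM2 : ∀ k, M k ≤ (block k).card := fun k => by rw [block_card]; exact hM k
  obtain ⟨Ω, mΩ, μ, hμ, A, hA1, hA2, hA3, hA4, _⟩ := mach_down (I := block) (e := E) (M := M) h.prob h.disj block_disj
    (ev_block hR) hM2 (fun k => (hq k).1) (fun k => (hq k).2)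
  refine ⟨Ω, mΩ, μ, hμ, A, ⟨hA1, hA2, ?_⟩, ?_⟩
  · filter_upwards [hA3] with k hk
    unfold un
    linarith
  · filter_upwards [hA4] with k hk
    have h4 : {ω | M k ≤ exc (fun n S => R n (N n S)) k (A ω)} =
        {ω | M k ≤ many W (block k) (fun n T => R n (N n ((T : Finset ℕ) : Set ℕ))) (tr A ((block k).biUnion W) ω)} := by
      ext ω
      simp only [Set.mem_ofPred_eq]
      rw [exc_eq h.loc R]
    rw [h4]
    exact hk

theorem WModel.tend (h : WModel p W N E) : Tendsto E atTop atTop := by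
  obtain ⟨η, hη, hg⟩ := h.grow
  refine tendsto_atTop_mono' atTop hg ?_
  exact (tendsto_rpow_atTop hη).comp tendsto_natCast_atTop_atTop

/-- Near lists are monotone in the budget. -/
theorem Near.mono {Ω : Type} [MeasurableSpace Ω] {B : ℕ → Finset ℕ} {d d' : ℕ → ℝ} {μ : Measure Ω} {A : Ω → Set ℕ}
    (h : Near p B d μ A) (hd : ∀ᶠ k : ℕ in atTop, d k ≤ d' k) : Near p B d' μ A := by
  refine ⟨h.rand, h.supp, ?_⟩
  filter_upwards [h.ent, hd] with k h1 h2
  exact h1.trans h2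

theorem low (h : WSharp p W N E) {R : Set ℝ} (hl : WLap p W N E R) (hR : ∀ t : ℝ, 0 < t → t ≤ 1 → t ∈ R) : Low p W N E := by
  intro θ h0 h1 ε hε
  have hr : 0 < rate θ := rate_pos h0 h1.ne
  constructor
  · intro Ω _ μ _ A hA hs
    refine price_up h.toWModel (R := fun n m => (m : ℝ) ≤ θ * E n) hr ?_ hε hA hs
    intro δ hδ
    rcases h0.eq_or_lt with h2 | h2
    · obtain ⟨C, hC, hu⟩ := h.up 0 δ hδ
      refine ⟨C, hC, ?_⟩
      filter_upwards [hu] with n hn
      rw [← h2, rate_zero]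
      refine le_trans (PP_mono h.prob (fun T _ hT => ?_)) hn
      have h3 : (N n ((T : Finset ℕ) : Set ℕ) : ℝ) ≤ 0 := by
        have h4 : (N n ((T : Finset ℕ) : Set ℕ) : ℝ) ≤ 0 * E n := hT
        linarith
      exact_mod_cast h3
    · refine ⟨1, one_pos, ?_⟩
      filter_upwards [hl.down h.prob (hR θ h2 h1.le) h2 h1.le hδ] with n hn
      rw [one_mul]
      exact hn
  · intro M q hM hq
    rcases h0.eq_or_lt with h2 | h2
    · have hlo : ∀ᶠ n : ℕ in atTop, Real.exp (-((1 + ε) * rate θ * E n)) ≤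
          PP p (W n) (fun T => (θ - ε) * E n ≤ N n ((T : Finset ℕ) : Set ℕ) ∧ (N n ((T : Finset ℕ) : Set ℕ) : ℝ) ≤ θ * E n) := by
        filter_upwards [h.lo ε hε, h.tend.eventually_ge_atTop 0] with n hn hE
        rw [← h2, rate_zero, mul_one]
        refine hn.trans (PP_mono h.prob (fun T _ hT => ?_))
        have h3 : N n ((T : Finset ℕ) : Set ℕ) = 0 := hT
        rw [h3]
        push_cast
        constructor
        · nlinarith
        · linarith
      have h3 := price_lo h.toWModel (R := fun n m => (θ - ε) * E n ≤ m ∧ (m : ℝ) ≤ θ * E n) hlo hM hq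
      simp only [mul_assoc] at h3
      exact h3
    · have hcont : Tendsto (fun τ : ℝ => rate (θ - τ) + 2 * τ * |Real.log (θ - τ)|) (𝓝 0) (𝓝 (rate θ)) := by
        have c1 : ContinuousAt (fun τ : ℝ => rate (θ - τ) + 2 * τ * |Real.log (θ - τ)|) 0 := by
          refine ContinuousAt.add ?_ ?_
          · exact (rate_cont.comp (continuous_const.sub continuous_id)).continuousAt
          · refine ContinuousAt.mul (by fun_prop) ?_
            refine ContinuousAt.abs ?_
            refine ContinuousAt.log (by fun_prop) ?_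
            simp only [sub_zero]
            exact h2.ne'
        have c2 := c1.tendsto
        simpa using c2
      have e1 := hcont.eventually (Iio_mem_nhds (show rate θ < (1 + ε / 2) * rate θ by nlinarith))
      have e2 : ∀ᶠ τ : ℝ in 𝓝 0, τ < θ / 4 := Iio_mem_nhds (by linarith)
      have e3 : ∀ᶠ τ : ℝ in 𝓝 0, τ < ε / 4 := Iio_mem_nhds (by linarith)
      obtain ⟨τ, ⟨hτ1, hτ2, hτ3⟩, hτ0⟩ := (((e1.and (e2.and e3)).filter_mono nhdsWithin_le_nhds).and
        (self_mem_nhdsWithin (s := Set.Ioi (0 : ℝ)))).exists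
      have hτ0' : 0 < τ := hτ0
      have hτ1' : rate (θ - τ) + 2 * τ * |Real.log (θ - τ)| < (1 + ε / 2) * rate θ := hτ1
      have hlo : ∀ᶠ n : ℕ in atTop, Real.exp (-((1 + ε) * rate θ * E n)) ≤
          PP p (W n) (fun T => (θ - ε) * E n ≤ N n ((T : Finset ℕ) : Set ℕ) ∧ (N n ((T : Finset ℕ) : Set ℕ) : ℝ) ≤ θ * E n) := by
        filter_upwards [hl.lo h.prob h.tend (θ := θ - τ) (θ1 := θ - 2 * τ) (θ2 := θ) (hR _ (by linarith) (by linarith))
          (hR _ (by linarith) (by linarith)) (hR _ h2 h1.le) (by linarith) (by linarith) (by linarith)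
          (show 0 < ε / 2 * rate θ by positivity), h.tend.eventually_ge_atTop 0] with n hn hE
        refine le_trans (Real.exp_le_exp.2 ?_) (hn.trans (PP_mono h.prob (fun T _ hT => ?_)))
        · have h3 : rate (θ - τ) + (θ - (θ - 2 * τ)) * |Real.log (θ - τ)| + ε / 2 * rate θ ≤ (1 + ε) * rate θ := by
            have h4 : θ - (θ - 2 * τ) = 2 * τ := by ring
            rw [h4]
            linarith
          have := mul_le_mul_of_nonneg_right h3 hE
          linarith
        · refine ⟨le_trans ?_ hT.1, hT.2⟩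
          exact mul_le_mul_of_nonneg_right (by linarith) hE
      have h3 := price_lo h.toWModel (R := fun n m => (θ - ε) * E n ≤ m ∧ (m : ℝ) ≤ θ * E n) hlo hM hq
      simp only [mul_assoc] at h3
      exact h3

theorem high (h : WModel p W N E) {R : Set ℝ} (hl : WLap p W N E R) (hR : ∀ t : ℝ, 0 < t → t ∈ R) : High p W N E := by
  intro θ h1 ε hε
  have h0 : 0 < θ := by linarith
  have hr : 0 < rate θ := rate_pos h0.le h1.ne'
  constructor
  · intro Ω _ μ _ A hA hs
    refine price_up h (R := fun n m => θ * E n ≤ (m : ℝ)) hr ?_ hε hA hs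
    intro δ hδ
    refine ⟨1, one_pos, ?_⟩
    filter_upwards [hl.up h.prob (hR θ h0) h1.le hδ] with n hn
    rw [one_mul]
    exact hn
  · intro M q hM hq
    have hcont : Tendsto (fun τ : ℝ => rate (θ + τ) + 2 * τ * |Real.log (θ + τ)|) (𝓝 0) (𝓝 (rate θ)) := by
      have c1 : ContinuousAt (fun τ : ℝ => rate (θ + τ) + 2 * τ * |Real.log (θ + τ)|) 0 := by
        refine ContinuousAt.add ?_ ?_
        · exact (rate_cont.comp (continuous_const.add continuous_id)).continuousAt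
        · refine ContinuousAt.mul (by fun_prop) ?_
          refine ContinuousAt.abs ?_
          refine ContinuousAt.log (by fun_prop) ?_
          simp only [add_zero]
          exact h0.ne'
      have c2 := c1.tendsto
      simpa using c2
    have e1 := hcont.eventually (Iio_mem_nhds (show rate θ < (1 + ε / 2) * rate θ by nlinarith))
    have e3 : ∀ᶠ τ : ℝ in 𝓝 0, τ < ε / 4 := Iio_mem_nhds (by linarith)
    obtain ⟨τ, ⟨hτ1, hτ3⟩, hτ0⟩ := (((e1.and e3).filter_mono nhdsWithin_le_nhds).and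
      (self_mem_nhdsWithin (s := Set.Ioi (0 : ℝ)))).exists
    have hτ0' : 0 < τ := hτ0
    have hτ1' : rate (θ + τ) + 2 * τ * |Real.log (θ + τ)| < (1 + ε / 2) * rate θ := hτ1
    have hlo : ∀ᶠ n : ℕ in atTop, Real.exp (-((1 + ε) * rate θ * E n)) ≤
        PP p (W n) (fun T => θ * E n ≤ N n ((T : Finset ℕ) : Set ℕ) ∧ (N n ((T : Finset ℕ) : Set ℕ) : ℝ) ≤ (θ + ε) * E n) := by
      filter_upwards [hl.lo h.prob h.tend (θ := θ + τ) (θ1 := θ) (θ2 := θ + 2 * τ) (hR _ (by linarith))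
        (hR _ (by linarith)) (hR _ (by linarith)) (by linarith) (by linarith) (by linarith)
        (show 0 < ε / 2 * rate θ by positivity), h.tend.eventually_ge_atTop 0] with n hn hE
      refine le_trans (Real.exp_le_exp.2 ?_) (hn.trans (PP_mono h.prob (fun T _ hT => ?_)))
      · have h3 : rate (θ + τ) + (θ + 2 * τ - θ) * |Real.log (θ + τ)| + ε / 2 * rate θ ≤ (1 + ε) * rate θ := by
          have h4 : θ + 2 * τ - θ = 2 * τ := by ring
          rw [h4]
          linarith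
        have := mul_le_mul_of_nonneg_right h3 hE
        linarith
      · refine ⟨hT.1, hT.2.trans ?_⟩
        exact mul_le_mul_of_nonneg_right (by linarith) hE
    have h3 := price_lo h (R := fun n m => θ * E n ≤ m ∧ (m : ℝ) ≤ (θ + ε) * E n) hlo hM hq
    simp only [mul_assoc] at h3
    exact h3

end

end Pool.Agent.Q197.WN
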