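import Pool.Agent.Q197.WN.Exi

/-!
# The machine: entropy budgets against the number of exceptional windows
-/

set_option autoImplicit false

namespace Pool.Agent.Q197.WN

open Finset MeasureTheory Filter Pool.Agent.Q120.TT Pool.Agent.Q120.ET Pool.Agent.Q120.GM
open scoped Topology

/-- The least value of the sums of `M` of the numbers `e n`, `n ∈ I`. -/
noncomputable def cost (e : ℕ → ℝ) (I : Finset ℕ) (M : ℕ) : ℝ :=
  sInf ((fun J : Finset ℕ => ∑ n ∈ J, e n) '' {J | J ⊆ I ∧ J.card = M})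

theorem cost_fin (e : ℕ → ℝ) (I : Finset ℕ) (M : ℕ) :
    ((fun J : Finset ℕ => ∑ n ∈ J, e n) '' {J | J ⊆ I ∧ J.card = M}).Finite := by
  apply Set.Finite.image
  refine Set.Finite.subset (I.powerset.finite_toSet) (fun J hJ => ?_)
  rw [Finset.mem_coe, mem_powerset]
  exact hJ.1

theorem cost_le {e : ℕ → ℝ} {I J : Finset ℕ} (hJ : J ⊆ I) : cost e I J.card ≤ ∑ n ∈ J, e n :=
  csInf_le (cost_fin e I J.card).bddBelow ⟨J, ⟨hJ, rfl⟩, rfl⟩

theorem cost_mem {e : ℕ → ℝ} {I : Finset ℕ} {M : ℕ} (hM : M ≤ I.card) :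
    ∃ J ⊆ I, J.card = M ∧ ∑ n ∈ J, e n = cost e I M := by
  have hne : ((fun J : Finset ℕ => ∑ n ∈ J, e n) '' {J | J ⊆ I ∧ J.card = M}).Nonempty := by
    obtain ⟨J, hJ, hJM⟩ := exists_subset_card_eq hM
    exact ⟨_, J, ⟨hJ, hJM⟩, rfl⟩
  obtain ⟨J, hJ, hJM⟩ := hne.csInf_mem (cost_fin e I M)
  exact ⟨J, hJ.1, hJ.2, hJM⟩

theorem le_cost {e : ℕ → ℝ} {I : Finset ℕ} {M : ℕ} (hM : M ≤ I.card) {b : ℝ} (h : ∀ n ∈ I, b ≤ e n) :
    M * b ≤ cost e I M := by
  obtain ⟨J, hJ, hJM, hs⟩ := cost_mem (e := e) hM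
  rw [← hs, ← hJM, ← nsmul_eq_mul, ← sum_const]
  exact sum_le_sum (fun n hn => h n (hJ hn))

theorem cost_le_mul {e : ℕ → ℝ} {I : Finset ℕ} {M : ℕ} (hM : M ≤ I.card) {b : ℝ} (h : ∀ n ∈ I, e n ≤ b) :
    cost e I M ≤ M * b := by
  obtain ⟨J, hJ, hJM, hs⟩ := cost_mem (e := e) hM
  rw [← hs, ← hJM, ← nsmul_eq_mul, ← sum_const]
  exact sum_le_sum (fun n hn => h n (hJ hn))

/-- The number of the windows whose trace has the property `Q`. -/
noncomputable def many (W : ℕ → Finset ℕ) (I : Finset ℕ) (Q : ℕ → Finset ℕ → Prop) (T : Finset ℕ) : ℕ := by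
  classical
  exact (I.filter (fun n => Q n (T ∩ W n))).card

section

variable {p : ℕ → ℝ} {W : ℕ → Finset ℕ} {I : ℕ → Finset ℕ} {e : ℕ → ℝ}

/-- Many bad windows are very unlikely in the model. -/
theorem mach_model (hp : ∀ n, 0 ≤ p n ∧ p n ≤ 1) (hW : ∀ i j, i ≠ j → Disjoint (W i) (W j)) {K : ℝ}
    (hI : ∀ᶠ k : ℕ in atTop, ((I k).card : ℝ) ≤ Real.exp (K * k)) (he : ∀ᶠ k : ℕ in atTop, ∀ n ∈ I k, (k : ℝ) ^ 2 ≤ e n)
    {Q : ℕ → Finset ℕ → Prop} {C c c' : ℝ} (hC : 0 < C) (hc : 0 < c) (hcc : c' < c)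
    (hQ : ∀ᶠ k : ℕ in atTop, ∀ n ∈ I k, PP p (W n) (Q n) ≤ C * Real.exp (-(c * e n))) :
    ∀ᶠ k : ℕ in atTop, ∀ M : ℕ, 1 ≤ M → M ≤ (I k).card →
      PP p ((I k).biUnion W) (fun T => M ≤ many W (I k) Q T) ≤ Real.exp (-(c' * cost e (I k) M)) := by
  classical
  have hlim : ∀ᶠ k : ℕ in atTop, |K| * k + |Real.log C| ≤ (c - c') * (k : ℝ) ^ 2 := by
    obtain ⟨k0, hk0⟩ := exists_nat_gt ((|K| + |Real.log C|) / (c - c'))
    filter_upwards [eventually_ge_atTop (k0 + 1)] with k hk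
    have h1 : ((k0 : ℕ) : ℝ) ≤ k := by exact_mod_cast (by omega : k0 ≤ k)
    have h2 : (1 : ℝ) ≤ k := by exact_mod_cast (by omega : 1 ≤ k)
    have h3 : |K| + |Real.log C| ≤ (c - c') * k := by
      have h4 : (|K| + |Real.log C|) / (c - c') ≤ k := by linarith
      rw [div_le_iff₀ (by linarith)] at h4
      linarith
    have h5 := abs_nonneg K
    have h6 := abs_nonneg (Real.log C)
    nlinarith
  filter_upwards [hI, he, hQ, hlim] with k hIk hek hQk hlk M hM1 hM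
  have h1 : PP p ((I k).biUnion W) (fun T => M ≤ many W (I k) Q T) ≤
      PP p ((I k).biUnion W) (fun T => ∃ J ∈ powersetCard M (I k), ∀ n ∈ J, Q n (T ∩ W n)) := by
    refine PP_mono hp (fun T _ hT => ?_)
    unfold many at hT
    obtain ⟨J, hJ, hJM⟩ := exists_subset_card_eq hT
    refine ⟨J, mem_powersetCard.2 ⟨hJ.trans (filter_subset _ _), hJM⟩, fun n hn => ?_⟩
    exact (mem_filter.1 (hJ hn)).2
  refine h1.trans ((PP_exists_le hp _ _).trans ?_)
  have h2 : ∀ J ∈ powersetCard M (I k), PP p ((I k).biUnion W) (fun T => ∀ n ∈ J, Q n (T ∩ W n)) ≤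
      Real.exp (M * Real.log C - c * cost e (I k) M) := by
    intro J hJ
    obtain ⟨hJI, hJM⟩ := mem_powersetCard.1 hJ
    rw [PP_windows W hJI (fun i _ j _ h => hW i j h)]
    calc ∏ n ∈ J, PP p (W n) (Q n) ≤ ∏ n ∈ J, C * Real.exp (-(c * e n)) :=
          prod_le_prod (fun n _ => PP_nonneg hp) (fun n hn => hQk n (hJI hn))
      _ = Real.exp (M * Real.log C - c * ∑ n ∈ J, e n) := by
          rw [prod_mul_distrib, prod_const, hJM, ← Real.exp_sum, Real.exp_sub, mul_comm (M : ℝ), Real.exp_mul,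
            Real.exp_log hC, Real.rpow_natCast, sum_neg_distrib, ← mul_sum, Real.exp_neg, div_eq_mul_inv]
      _ ≤ Real.exp (M * Real.log C - c * cost e (I k) M) := by
          apply Real.exp_le_exp.2
          have h3 := cost_le (e := e) hJI
          rw [hJM] at h3
          have := mul_le_mul_of_nonneg_left h3 hc.le
          linarith
  refine (sum_le_sum h2).trans ?_
  rw [sum_const, nsmul_eq_mul, card_powersetCard]
  have h3 : (((I k).card.choose M : ℕ) : ℝ) ≤ Real.exp (M * (|K| * k)) := by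
    have h4 : (((I k).card.choose M : ℕ) : ℝ) ≤ ((I k).card : ℝ) ^ M := by exact_mod_cast Nat.choose_le_pow _ _
    refine h4.trans ?_
    rw [mul_comm, Real.exp_mul, Real.rpow_natCast]
    refine pow_le_pow_left₀ (Nat.cast_nonneg _) (hIk.trans ?_) M
    apply Real.exp_le_exp.2
    exact mul_le_mul_of_nonneg_right (le_abs_self K) (Nat.cast_nonneg k)
  refine (mul_le_mul_of_nonneg_right h3 (Real.exp_pos _).le).trans ?_
  rw [← Real.exp_add]
  apply Real.exp_le_exp.2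
  have h5 := le_cost (e := e) hM hek
  have hM0 : (0 : ℝ) ≤ M := Nat.cast_nonneg M
  have h6 : M * (|K| * k + |Real.log C|) ≤ M * ((c - c') * (k : ℝ) ^ 2) := mul_le_mul_of_nonneg_left hlk hM0
  have h7 : M * Real.log C ≤ M * |Real.log C| := mul_le_mul_of_nonneg_left (le_abs_self _) hM0
  have h8 : (c - c') * (M * (k : ℝ) ^ 2) ≤ (c - c') * cost e (I k) M := mul_le_mul_of_nonneg_left h5 (by linarith)
  linarith

/-- The class: random sets, absolutely continuous, whose relative entropy in the block `k` is at most `d k` for large `k`. -/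
structure Near {Ω : Type} [MeasurableSpace Ω] (p : ℕ → ℝ) (B : ℕ → Finset ℕ) (d : ℕ → ℝ) (μ : Measure Ω)
    (A : Ω → Set ℕ) : Prop where
  rand : IsRandomSet A
  supp : ∀ᵐ ω ∂μ, ∀ n ∈ A ω, 0 < p n
  ent : ∀ᶠ k : ℕ in atTop, relEnt p μ A (B k) ≤ d k

theorem law_ok {Ω : Type} [MeasurableSpace Ω] {μ : Measure Ω} [IsProbabilityMeasure μ] {A : Ω → Set ℕ}
    (hA : IsRandomSet A) (hs : ∀ᵐ ω ∂μ, ∀ n ∈ A ω, 0 < p n) {B : Finset ℕ} (hB : ∀ n ∈ B, p n ≤ 1 / 2) :
    IsLaw p B (lawOn μ A B) := by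
  classical
  refine ⟨fun T _ => measureReal_nonneg, ?_, ?_⟩
  · have h1 := real_event (μ := μ) hA B (fun _ => True)
    rw [filter_true] at h1
    rw [← h1]
    simp
  · intro T hT h0
    unfold prodOn at h0
    rcases mul_eq_zero.1 h0 with h1 | h1
    · obtain ⟨n, hn, hn0⟩ := prod_eq_zero_iff.1 h1
      have hnB : n ∈ B := mem_powerset.1 hT hn
      unfold lawOn
      have h2 : μ {ω | ∀ n ∈ B, (n ∈ A ω ↔ n ∈ T)} = 0 := by
        have h3 := hs
        rw [ae_iff] at h3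
        refine measure_mono_null (fun ω hω => ?_) h3
        simp only [Set.mem_ofPred_eq] at hω ⊢
        intro h4
        have h5 := h4 n ((hω n hnB).2 hn)
        rw [hn0] at h5
        exact lt_irrefl _ h5
      rw [Measure.real, h2, ENNReal.toReal_zero]
    · obtain ⟨n, hn, hn0⟩ := prod_eq_zero_iff.1 h1
      have h2 := hB n (Finset.mem_sdiff.1 hn).1
      linarith

theorem tr_inter {Ω : Type} [MeasurableSpace Ω] {A : Ω → Set ℕ} {B V : Finset ℕ} (hV : V ⊆ B) (ω : Ω) :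
    tr A B ω ∩ V = tr A V ω := by
  ext x
  rw [mem_inter, mem_tr, mem_tr]
  exact ⟨fun h => ⟨h.2, h.1.2⟩, fun h => ⟨⟨hV h.1, h.2⟩, h.1⟩⟩

/-- Many bad windows are unlikely for every random set: the price of exceptions. -/
theorem mach_price (hp : ∀ n, 0 ≤ p n ∧ p n ≤ 1) (hW : ∀ i j, i ≠ j → Disjoint (W i) (W j)) {K : ℝ}
    (hI : ∀ᶠ k : ℕ in atTop, ((I k).card : ℝ) ≤ Real.exp (K * k)) (he : ∀ᶠ k : ℕ in atTop, ∀ n ∈ I k, (k : ℝ) ^ 2 ≤ e n)
    (hhalf : ∀ᶠ k : ℕ in atTop, ∀ n ∈ I k, ∀ x ∈ W n, p x ≤ 1 / 2)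
    {Q : ℕ → Finset ℕ → Prop} {C c c' : ℝ} (hC : 0 < C) (hc' : 0 < c') (hcc : c' < c)
    (hQ : ∀ᶠ k : ℕ in atTop, ∀ n ∈ I k, PP p (W n) (Q n) ≤ C * Real.exp (-(c * e n)))
    {Ω : Type} [MeasurableSpace Ω] {μ : Measure Ω} [IsProbabilityMeasure μ] {A : Ω → Set ℕ}
    (hA : IsRandomSet A) (hs : ∀ᵐ ω ∂μ, ∀ n ∈ A ω, 0 < p n) :
    ∀ᶠ k : ℕ in atTop, ∀ M : ℕ, 1 ≤ M → M ≤ (I k).card →
      μ.real {ω | M ≤ many W (I k) Q (tr A ((I k).biUnion W) ω)} ≤
        (1 + relEnt p μ A ((I k).biUnion W)) / (c' * cost e (I k) M) := by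
  classical
  filter_upwards [mach_model hp hW hI he hC (hc'.trans hcc) hcc hQ, he, hhalf, eventually_ge_atTop 1] with k hk hek hhk hk1 M hM1 hM
  have h5 := le_cost (e := e) hM hek
  have hk0 : (0 : ℝ) < k := by exact_mod_cast hk1
  have hM0 : (0 : ℝ) < M := by exact_mod_cast hM1
  have hcost : 0 < cost e (I k) M := lt_of_lt_of_le (by positivity) h5
  have hlaw := law_ok (μ := μ) hA hs (B := (I k).biUnion W) (p := p) (fun x hx => by
    obtain ⟨n, hn, hx⟩ := mem_biUnion.1 hx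
    exact hhk n hn x hx)
  have h1 := Pool.Agent.Q111.TT.t_ENTG p ((I k).biUnion W) (fun n _ => hp n) _ hlaw
    (fun T => M ≤ many W (I k) Q T) (c' * cost e (I k) M) (by positivity) (hk M hM1 hM)
  have h2 := real_event (μ := μ) hA ((I k).biUnion W) (fun T => M ≤ many W (I k) Q T)
  rw [h2]
  unfold relEnt
  convert h1 using 2
  ext T
  simp only [mem_filter]

/-- A summable series. -/
theorem summable_ratio {d u : ℕ → ℝ} (hu : ∀ᶠ k : ℕ in atTop, (k : ℝ) ^ 2 ≤ u k)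
    (hs : Summable (fun k => d k / u k)) {c : ℝ} (hc : 0 < c) :
    ∃ g : ℕ → ℝ, Summable g ∧ ∀ᶠ k : ℕ in atTop, (1 + d k) / (c * u k) ≤ g k := by
  refine ⟨fun k => (1 / c) * (1 / (k : ℝ) ^ 2) + (1 / c) * (d k / u k), ?_, ?_⟩
  · exact ((Real.summable_one_div_nat_pow.2 (by norm_num : 1 < 2)).mul_left _).add (hs.mul_left _)
  · filter_upwards [hu, eventually_ge_atTop 1] with k hk hk1
    have hk0 : (0 : ℝ) < k := by exact_mod_cast hk1
    have hu0 : 0 < u k := lt_of_lt_of_le (by positivity) hk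
    have h1 : (1 + d k) / (c * u k) = (1 / c) * (1 / u k) + (1 / c) * (d k / u k) := by
      field_simp
    rw [h1]
    have h2 : 1 / u k ≤ 1 / (k : ℝ) ^ 2 := one_div_le_one_div_of_le (by positivity) hk
    have := mul_le_mul_of_nonneg_left h2 (show 0 ≤ 1 / c by positivity)
    linarith

/-- Positive half. -/
theorem mach_up (hp : ∀ n, 0 ≤ p n ∧ p n ≤ 1) (hW : ∀ i j, i ≠ j → Disjoint (W i) (W j)) {K : ℝ}
    (hI : ∀ᶠ k : ℕ in atTop, ((I k).card : ℝ) ≤ Real.exp (K * k)) (he : ∀ᶠ k : ℕ in atTop, ∀ n ∈ I k, (k : ℝ) ^ 2 ≤ e n)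
    (hhalf : ∀ᶠ k : ℕ in atTop, ∀ n ∈ I k, ∀ x ∈ W n, p x ≤ 1 / 2)
    {Q : ℕ → Finset ℕ → Prop} {C c : ℝ} (hC : 0 < C) (hc : 0 < c)
    (hQ : ∀ᶠ k : ℕ in atTop, ∀ n ∈ I k, PP p (W n) (Q n) ≤ C * Real.exp (-(c * e n)))
    {d : ℕ → ℝ} {M : ℕ → ℕ} (hM : ∀ k, 1 ≤ M k) (hM2 : ∀ k, M k ≤ (I k).card)
    (hsum : Summable (fun k => d k / cost e (I k) (M k)))
    {Ω : Type} [MeasurableSpace Ω] {μ : Measure Ω} [IsProbabilityMeasure μ] {A : Ω → Set ℕ}
    (hA : Near p (fun k => (I k).biUnion W) d μ A) :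
    ∀ᵐ ω ∂μ, ∀ᶠ k : ℕ in atTop, many W (I k) Q (tr A ((I k).biUnion W) ω) < M k := by
  have hu : ∀ᶠ k : ℕ in atTop, (k : ℝ) ^ 2 ≤ cost e (I k) (M k) := by
    filter_upwards [he] with k hek
    have h5 := le_cost (e := e) (hM2 k) hek
    have hM0 : (1 : ℝ) ≤ M k := by exact_mod_cast hM k
    nlinarith [sq_nonneg (k : ℝ)]
  obtain ⟨g, hg, hg2⟩ := summable_ratio hu hsum (show 0 < c / 2 by linarith)
  have h1 : ∀ᶠ k : ℕ in atTop, μ.real {ω | M k ≤ many W (I k) Q (tr A ((I k).biUnion W) ω)} ≤ g k := by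
    filter_upwards [mach_price hp hW hI he hhalf hC (show 0 < c / 2 by linarith) (show c / 2 < c by linarith) hQ hA.rand hA.supp, hg2, hA.ent, hu, eventually_ge_atTop 1]
      with k hk hgk hent huk hk1
    refine (hk (M k) (hM k) (hM2 k)).trans (le_trans ?_ hgk)
    have hk0 : (0 : ℝ) < k := by exact_mod_cast hk1
    have hc0 : 0 < cost e (I k) (M k) := lt_of_lt_of_le (by positivity) huk
    exact div_le_div_of_nonneg_right (by linarith) (by positivity)
  filter_upwards [bc hg h1] with ω hω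
  filter_upwards [hω] with k hk
  by_contra hcon
  exact hk (not_lt.1 hcon)

end

/-- The law of the model conditioned on an event. -/
noncomputable def cond (p : ℕ → ℝ) (B : Finset ℕ) (F : Finset ℕ → Prop) (T : Finset ℕ) : ℝ := by
  classical
  exact if F T then prodOn p B T / PP p B F else 0

theorem cond_sum {p : ℕ → ℝ} {B : Finset ℕ} {F : Finset ℕ → Prop} (hP : 0 < PP p B F) :
    ∑ T ∈ B.powerset, cond p B F T = 1 := by
  classical
  unfold cond
  rw [← sum_filter, ← sum_div]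
  exact div_self hP.ne'

theorem cond_law {p : ℕ → ℝ} (hp : ∀ n, 0 ≤ p n ∧ p n ≤ 1) {B : Finset ℕ} {F : Finset ℕ → Prop} (hP : 0 < PP p B F) :
    IsLaw p B (cond p B F) := by
  classical
  refine ⟨fun T hT => ?_, cond_sum hP, fun T _ h => ?_⟩
  · unfold cond
    split_ifs
    · exact div_nonneg (prodOn_nn hp (mem_powerset.1 hT)) hP.le
    · exact le_rfl
  · unfold cond
    split_ifs
    · rw [h, zero_div]
    · rfl

theorem cond_ent {p : ℕ → ℝ} {B : Finset ℕ} {F : Finset ℕ → Prop} (hP : 0 < PP p B F) :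
    entOf p B (cond p B F) = -Real.log (PP p B F) := by
  classical
  have h1 : ∀ T ∈ B.powerset, cond p B F T * Real.log (cond p B F T / prodOn p B T) =
      cond p B F T * (-Real.log (PP p B F)) := by
    intro T _
    by_cases h : F T
    · by_cases h0 : prodOn p B T = 0
      · have h2 : cond p B F T = 0 := by unfold cond; rw [if_pos h, h0, zero_div]
        rw [h2, zero_mul, zero_mul]
      · have h2 : cond p B F T / prodOn p B T = (PP p B F)⁻¹ := by
          unfold cond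
          rw [if_pos h]
          field_simp
        rw [h2, Real.log_inv]
    · have h2 : cond p B F T = 0 := by unfold cond; rw [if_neg h]
      rw [h2, zero_mul, zero_mul]
  unfold entOf
  rw [sum_congr rfl h1, ← sum_mul, cond_sum hP, one_mul]

theorem not_summable_min {a : ℕ → ℝ} (h : ¬ Summable a) : ¬ Summable (fun k => min 1 (a k)) := by
  intro hs
  apply h
  have h1 := hs.tendsto_atTop_zero
  have h2 : ∀ᶠ k in atTop, min 1 (a k) = a k := by
    filter_upwards [h1.eventually_lt_const (show (0 : ℝ) < 1 by norm_num)] with k hk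
    rcases min_lt_iff.1 hk with h3 | h3
    · exact absurd h3 (lt_irrefl _)
    · exact min_eq_right h3.le
  exact (summable_congr_atTop h2).1 hs

section

variable {p : ℕ → ℝ} {W : ℕ → Finset ℕ} {I : ℕ → Finset ℕ} {e : ℕ → ℝ}

/-- Random sets with many empty windows in the blocks, with the weights `q k`. -/
theorem mach_down (hp : ∀ n, 0 ≤ p n ∧ p n ≤ 1) (hW : ∀ i j, i ≠ j → Disjoint (W i) (W j))
    (hII : ∀ i j, i ≠ j → Disjoint (I i) (I j)) {Q : ℕ → Finset ℕ → Prop} {C : ℝ}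
    (hQ : ∀ᶠ k : ℕ in atTop, ∀ n ∈ I k, Real.exp (-(C * e n)) ≤ PP p (W n) (Q n))
    {M : ℕ → ℕ} (hM2 : ∀ k, M k ≤ (I k).card) {q : ℕ → ℝ} (hq0 : ∀ k, 0 ≤ q k) (hq1 : ∀ k, q k ≤ 1) :
    ∃ (Ω : Type) (_ : MeasurableSpace Ω) (μ : Measure Ω) (_ : IsProbabilityMeasure μ) (A : Ω → Set ℕ),
      IsRandomSet A ∧ (∀ᵐ ω ∂μ, ∀ n ∈ A ω, 0 < p n) ∧
      (∀ᶠ k : ℕ in atTop, relEnt p μ A ((I k).biUnion W) ≤ q k * (C * cost e (I k) (M k))) ∧
      (∀ᶠ k : ℕ in atTop, q k ≤ μ.real {ω | M k ≤ many W (I k) Q (tr A ((I k).biUnion W) ω)}) ∧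
      (¬ Summable q → ∀ᵐ ω ∂μ, ∃ᶠ k : ℕ in atTop, M k ≤ many W (I k) Q (tr A ((I k).biUnion W) ω)) := by
  classical
  have hBd : ∀ i j, i ≠ j → Disjoint ((I i).biUnion W) ((I j).biUnion W) := by
    intro i j hij
    rw [disjoint_biUnion_left]
    intro a ha
    rw [disjoint_biUnion_right]
    intro b hb
    apply hW
    rintro rfl
    exact disjoint_left.1 (hII i j hij) ha hb
  choose J hJ hJM hJs using fun k => cost_mem (e := e) (hM2 k)
  obtain ⟨F, hF⟩ : ∃ F : ℕ → Finset ℕ → Prop, F = fun k T => ∀ n ∈ J k, Q n (T ∩ W n) := ⟨_, rfl⟩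
  have hPge : ∀ᶠ k : ℕ in atTop, Real.exp (-(C * cost e (I k) (M k))) ≤ PP p ((I k).biUnion W) (F k) := by
    filter_upwards [hQ] with k hQk
    rw [hF]
    simp only
    rw [PP_windows W (hJ k) (fun i _ j _ h => hW i j h), ← hJs k, mul_sum, ← sum_neg_distrib, Real.exp_sum]
    exact prod_le_prod (fun n _ => (Real.exp_pos _).le) (fun n hn => hQk n (hJ k hn))
  obtain ⟨R, hR⟩ : ∃ R : ℕ → Finset ℕ → ℝ, R = fun k => if 0 < PP p ((I k).biUnion W) (F k) then
      (fun T => (1 - q k) * prodOn p ((I k).biUnion W) T + q k * cond p ((I k).biUnion W) (F k) T)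
    else prodOn p ((I k).biUnion W) := ⟨_, rfl⟩
  have hRlaw : ∀ k, IsLaw p ((I k).biUnion W) (R k) := by
    intro k
    rw [hR]
    simp only
    by_cases h : 0 < PP p ((I k).biUnion W) (F k)
    · rw [if_pos h]
      exact ((Pool.Agent.Q150.TT.t_MIXL p _ (fun n _ => hp n)).2 _ (cond_law hp h) (q k) (hq0 k) (hq1 k)).1
    · rw [if_neg h]
      exact (Pool.Agent.Q150.TT.t_MIXL p _ (fun n _ => hp n)).1
  obtain ⟨Ω, mΩ, μ, hμ, A, hA1, hA2, hA3, hA4⟩ := exi hBd hRlaw (fun n => (hp n).1)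
  have hbound : ∀ᶠ k : ℕ in atTop, q k ≤ μ.real {ω | M k ≤ many W (I k) Q (tr A ((I k).biUnion W) ω)} := by
    filter_upwards [hPge] with k hk
    have hP : 0 < PP p ((I k).biUnion W) (F k) := lt_of_lt_of_le (Real.exp_pos _) hk
    rw [real_event (μ := μ) hA1 ((I k).biUnion W) (fun T => M k ≤ many W (I k) Q T)]
    have h1 : ∀ T ∈ ((I k).biUnion W).powerset.filter (fun T => M k ≤ many W (I k) Q T),
        lawOn μ A ((I k).biUnion W) T = (1 - q k) * prodOn p ((I k).biUnion W) T +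
          q k * cond p ((I k).biUnion W) (F k) T := by
      intro T hT
      rw [hA3 k T (mem_filter.1 hT).1, hR]
      simp only
      rw [if_pos hP]
    rw [sum_congr rfl h1, sum_add_distrib, ← mul_sum, ← mul_sum]
    have h2 : ∑ T ∈ ((I k).biUnion W).powerset with M k ≤ many W (I k) Q T, cond p ((I k).biUnion W) (F k) T = 1 := by
      rw [← cond_sum hP]
      refine sum_subset (filter_subset _ _) (fun T hT hT2 => ?_)
      unfold cond
      rw [if_neg]
      intro hFT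
      apply hT2
      rw [mem_filter]
      refine ⟨hT, ?_⟩
      unfold many
      rw [← hJM k]
      refine card_le_card (fun n hn => ?_)
      rw [mem_filter]
      rw [hF] at hFT
      exact ⟨hJ k hn, hFT n hn⟩
    rw [h2]
    have h3 : 0 ≤ ∑ T ∈ ((I k).biUnion W).powerset with M k ≤ many W (I k) Q T, prodOn p ((I k).biUnion W) T :=
      sum_nonneg (fun T hT => prodOn_nn hp (mem_powerset.1 (mem_filter.1 hT).1))
    have h4 : 0 ≤ 1 - q k := by linarith [hq1 k]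
    nlinarith [mul_nonneg h4 h3]
  refine ⟨Ω, mΩ, μ, hμ, A, hA1, hA2, ?_, hbound, ?_⟩
  · filter_upwards [hPge] with k hk
    have hP : 0 < PP p ((I k).biUnion W) (F k) := lt_of_lt_of_le (Real.exp_pos _) hk
    have h1 : relEnt p μ A ((I k).biUnion W) = entOf p ((I k).biUnion W)
        (fun T => (1 - q k) * prodOn p ((I k).biUnion W) T + q k * cond p ((I k).biUnion W) (F k) T) := by
      unfold relEnt entOf
      refine sum_congr rfl (fun T hT => ?_)
      rw [hA3 k T hT, hR]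
      simp only
      rw [if_pos hP]
    rw [h1]
    refine (((Pool.Agent.Q150.TT.t_MIXL p _ (fun n _ => hp n)).2 _ (cond_law hp hP) (q k) (hq0 k) (hq1 k)).2).trans ?_
    rw [cond_ent hP]
    refine mul_le_mul_of_nonneg_left ?_ (hq0 k)
    have h2 := Real.log_le_log (Real.exp_pos _) hk
    rw [Real.log_exp] at h2
    linarith
  · intro hq
    apply hA4 (fun k T => M k ≤ many W (I k) Q T)
    intro hs
    apply hq
    refine Summable.of_norm_bounded_eventually_nat hs ?_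
    filter_upwards [hbound] with k hk
    rw [Real.norm_eq_abs, abs_of_nonneg (hq0 k)]
    exact hk

end

end Pool.Agent.Q197.WN
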