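import Pool.Agent.Q150.TT.MEAN
import Pool.Agent.Q197.WN.Win

/-!
# The expected number of patterns in a window of the sieved model
-/

set_option autoImplicit false

namespace Pool.Agent.Q197.WN

open Finset MeasureTheory Filter Pool.Agent.Q120.TT Pool.Agent.Q120.ET Pool.Agent.Q120.GM
  Pool.Agent.Q120.CL Pool.Agent.Q120.MG Pool.Agent.Q120.HL Pool.Agent.Q150.TT
open scoped Topology

/-- The level is `o(k)`. -/
def Small (z : ℕ → ℕ) : Prop := ∀ η : ℝ, 0 < η → ∀ᶠ k : ℕ in atTop, (z k : ℝ) ≤ η * k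

theorem mean_block {z : ℕ → ℕ} {D : Finset ℕ} {H : ℕ} {σ : ℝ} (hS : Tendsto (fun k => Sz D (z k)) atTop (𝓝 σ))
    (hz : Small z) (hD : ∀ h ∈ D, h ≤ H) {ε η : ℝ} (hε : 0 < ε) (hη : 0 < η) :
    ∀ᶠ k : ℕ in atTop, ∀ a b : ℕ, 2 ^ k ≤ a → a ≤ b → b + H ≤ 2 ^ (k + 1) →
      |EI (pr z) D a b - σ * ((b : ℝ) - a) / (k * Real.log 2) ^ D.card| ≤
        ε * (((b : ℝ) - a) + ((2 : ℝ) ^ k) ^ η) / (k * Real.log 2) ^ D.card := by
  classical
  have hL : 0 < Real.log 2 := Real.log_pos (by norm_num)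
  have hL2 : (0.6931471803 : ℝ) < Real.log 2 := Real.log_two_gt_d9
  obtain ⟨r, hr⟩ : ∃ r, r = D.card := ⟨_, rfl⟩
  rw [← hr]
  have hρ : Tendsto (fun k : ℕ => ((k : ℝ) / (k + 1)) ^ r) atTop (𝓝 1) := by
    have h1 : Tendsto (fun k : ℕ => (k : ℝ) / (k + 1)) atTop (𝓝 1) := tendsto_natCast_div_add_atTop 1
    have h2 := h1.pow r
    rwa [one_pow] at h2
  have hSρ : Tendsto (fun k : ℕ => ((k : ℝ) / (k + 1)) ^ r * Sz D (z k)) atTop (𝓝 σ) := by
    have := hρ.mul hS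
    rwa [one_mul] at this
  have e1 := hS.eventually (Iio_mem_nhds (show σ < σ + ε by linarith))
  have e2 := hSρ.eventually (Ioi_mem_nhds (show σ - ε < σ by linarith))
  have e3 := ev_two (1 / ε) r (show (0 : ℝ) < η / 2 by linarith)
  filter_upwards [e1, e2, e3, hz (1 / 8) (by norm_num), hz (η / 4) (by linarith), eventually_ge_atTop 8] with k h1 h2 h3 hzk hz2 h5
    a b hka hab hbH
  have hk0 : (0 : ℝ) < k := by
    have : 0 < k := by omega
    exact_mod_cast this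
  have hk8 : (8 : ℝ) ≤ k := by exact_mod_cast h5
  obtain ⟨V, hV⟩ : ∃ V, V = Vf (z k) := ⟨_, rfl⟩
  have hV0 : 0 < V := by rw [hV]; exact Vf_pos _
  have hV1 : 1 / ((z k : ℝ) + 1) ≤ V := by rw [hV]; exact le_Vf2 _
  have hz0 : (0 : ℝ) ≤ z k := Nat.cast_nonneg _
  have hV4 : 1 ≤ V * (((z k : ℝ)) + 1) := by
    rw [div_le_iff₀ (by linarith)] at hV1
    exact hV1
  have hV5 : 4 ≤ V * k := by nlinarith
  have hVk : 1 ≤ V * k := by linarith
  have hq : 1 ≤ V * (k * Real.log 2) := by nlinarith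
  obtain ⟨K, hK⟩ : ∃ K, K = (k : ℝ) * Real.log 2 := ⟨_, rfl⟩
  obtain ⟨K1, hK1⟩ : ∃ K1, K1 = ((k : ℝ) + 1) * Real.log 2 := ⟨_, rfl⟩
  have hK0 : 0 < K := by rw [hK]; positivity
  have hK10 : 0 < K1 := by rw [hK1]; positivity
  obtain ⟨W, hW⟩ : ∃ W, W = (Ico a b).filter fun n => ∀ h ∈ D, Rough (z k) (n + h) := ⟨_, rfl⟩
  have hcount := count_near D H hD (z k) a b hab
  rw [← hW] at hcount
  have hin : ∀ n ∈ Ico a b, ∀ h ∈ D, 2 ^ k ≤ n + h ∧ n + h < 2 ^ (k + 1) := by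
    intro n hn h hh
    rw [mem_Ico] at hn
    have := hD h hh
    constructor <;> omega
  -- upper
  have hup : EI (pr z) D a b ≤ W.card * (1 / (V * K)) ^ r := by
    unfold EI
    rw [hW, card_filter]
    push_cast
    rw [sum_mul]
    refine sum_le_sum fun n hn => ?_
    by_cases hrough : ∀ h ∈ D, Rough (z k) (n + h)
    · rw [if_pos hrough, one_mul, hr, ← prod_const]
      refine prod_le_prod (fun h _ => pr_nonneg z _) fun h hh => ?_
      rw [hV, hK]
      exact pr_le (by omega) (hin n hn h hh).1 (hin n hn h hh).2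
    · rw [if_neg hrough, zero_mul]
      push Not at hrough
      obtain ⟨h, hh, hnr⟩ := hrough
      exact le_of_eq (prod_eq_zero hh (pr_zero (hin n hn h hh).1 (hin n hn h hh).2 hnr))
  have hlo : W.card * (1 / (V * K1)) ^ r ≤ EI (pr z) D a b := by
    unfold EI
    rw [hW, card_filter]
    push_cast
    rw [sum_mul]
    refine sum_le_sum fun n hn => ?_
    by_cases hrough : ∀ h ∈ D, Rough (z k) (n + h)
    · rw [if_pos hrough, one_mul, hr, ← prod_const]
      refine prod_le_prod (fun h _ => by positivity) fun h hh => ?_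
      rw [hV, hK1]
      rw [hV] at hq
      exact le_pr (by omega) hq (hin n hn h hh).1 (hin n hn h hh).2 (hrough h hh)
    · rw [if_neg hrough, zero_mul]
      exact prod_nonneg fun h _ => pr_nonneg z _
  -- the error
  obtain ⟨Q, hQ⟩ : ∃ Q : ℝ, Q = PQ (z k) := ⟨_, rfl⟩
  have hQ0 : 0 ≤ Q := by rw [hQ]; exact Nat.cast_nonneg _
  have hQr : Q ≤ ((2 : ℝ) ^ k) ^ (η / 2) := by
    have h6 : Q ≤ 4 ^ (z k) := by rw [hQ]; exact_mod_cast PQ_le (z k)
    have h7 : (4 : ℝ) ^ (z k) = (2 : ℝ) ^ (2 * (z k : ℝ)) := by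
      rw [Real.rpow_mul (by norm_num), Real.rpow_natCast]
      norm_num
    have h8 : ((2 : ℝ) ^ k) ^ (η / 2) = (2 : ℝ) ^ (k * (η / 2)) := by
      rw [Real.rpow_mul (by norm_num), Real.rpow_natCast]
    rw [h8]
    refine h6.trans ?_
    rw [h7]
    exact Real.rpow_le_rpow_of_exponent_le (by norm_num) (by linarith)
  obtain ⟨Y, hY⟩ : ∃ Y : ℝ, Y = ((2 : ℝ) ^ k) ^ η := ⟨_, rfl⟩
  have hY0 : 0 ≤ Y := by rw [hY]; positivity
  have herr : Q / V ^ r ≤ ε * Y := by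
    have h6 : 1 / V ^ r ≤ (k : ℝ) ^ r := by
      rw [div_le_iff₀ (by positivity), ← mul_pow]
      exact one_le_pow₀ (by rw [mul_comm]; exact hVk)
    have h7 : (k : ℝ) ^ r ≤ ε * ((2 : ℝ) ^ k) ^ (η / 2) := by
      have h8 : ε * (1 / ε * (k : ℝ) ^ r) = (k : ℝ) ^ r := by
        field_simp
      rw [← h8]
      exact mul_le_mul_of_nonneg_left h3 (by linarith)
    have h8 : ((2 : ℝ) ^ k) ^ (η / 2) * ((2 : ℝ) ^ k) ^ (η / 2) = Y := by
      rw [hY, ← Real.rpow_add (by positivity)]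
      congr 1
      ring
    calc Q / V ^ r = Q * (1 / V ^ r) := by ring
      _ ≤ ((2 : ℝ) ^ k) ^ (η / 2) * (ε * ((2 : ℝ) ^ k) ^ (η / 2)) :=
          mul_le_mul hQr (h6.trans h7) (by positivity) (by positivity)
      _ = ε * (((2 : ℝ) ^ k) ^ (η / 2) * ((2 : ℝ) ^ k) ^ (η / 2)) := by ring
      _ = ε * Y := by rw [h8]
  have hde : de D (z k) = Sz D (z k) * V ^ r := by
    rw [Sz_eq, ← hV, ← hr]
    field_simp
  rw [hde, ← hQ] at hcount
  have hba0 : 0 ≤ (b : ℝ) - a := by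
    have : (a : ℝ) ≤ b := by exact_mod_cast hab
    linarith
  have hSz0 := Sz_nonneg D (z k)
  rw [abs_le] at hcount
  have hVr : 0 < V ^ r := by positivity
  have hKr : 0 < K ^ r := by positivity
  rw [← hK, ← hY]
  have h1' : Sz D (z k) < σ + ε := h1
  have h2' : σ - ε < ((k : ℝ) / (k + 1)) ^ r * Sz D (z k) := h2
  rw [abs_le]
  constructor
  · -- lower bound
    have h6 : (Sz D (z k) * V ^ r * ((b : ℝ) - a) - Q) * (1 / (V * K1)) ^ r ≤ EI (pr z) D a b := by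
      refine le_trans (mul_le_mul_of_nonneg_right ?_ (by positivity)) hlo
      linarith [hcount.1]
    obtain ⟨ρ, hρ'⟩ : ∃ ρ, ρ = ((k : ℝ) / (k + 1)) ^ r := ⟨_, rfl⟩
    have hρ0 : 0 ≤ ρ := by rw [hρ']; positivity
    have hρ1 : ρ ≤ 1 := by
      rw [hρ']
      refine pow_le_one₀ (by positivity) ?_
      rw [div_le_one (by positivity)]
      linarith
    have h7 : (Sz D (z k) * V ^ r * ((b : ℝ) - a) - Q) * (1 / (V * K1)) ^ r =
        (ρ * (Sz D (z k) * ((b : ℝ) - a)) - ρ * (Q / V ^ r)) / K ^ r := by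
      have h8 : (1 / (V * K1)) ^ r = ρ * (1 / V ^ r) * (1 / K ^ r) := by
        rw [hρ', ← one_div_pow, ← one_div_pow, ← mul_pow, ← mul_pow, hK, hK1]
        congr 1
        field_simp
      rw [h8]
      field_simp
    rw [h7] at h6
    rw [← hρ'] at h2'
    have h8 : -(ε * (((b : ℝ) - a) + Y) / K ^ r) + σ * ((b : ℝ) - a) / K ^ r ≤ EI (pr z) D a b := by
      refine le_trans ?_ h6
      have h9 : -(ε * (((b : ℝ) - a) + Y) / K ^ r) + σ * ((b : ℝ) - a) / K ^ r =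
        (σ * ((b : ℝ) - a) - ε * (((b : ℝ) - a) + Y)) / K ^ r := by ring
      rw [h9]
      apply div_le_div_of_nonneg_right _ hKr.le
      have h10 : ρ * (Q / V ^ r) ≤ ε * Y := by
        refine le_trans ?_ herr
        have : 0 ≤ Q / V ^ r := by positivity
        nlinarith
      have h11 : (σ - ε) * ((b : ℝ) - a) ≤ ρ * Sz D (z k) * ((b : ℝ) - a) :=
        mul_le_mul_of_nonneg_right h2'.le hba0
      nlinarith
    linarith
  · -- upper bound
    have h6 : EI (pr z) D a b ≤ (Sz D (z k) * V ^ r * ((b : ℝ) - a) + Q) * (1 / (V * K)) ^ r := by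
      refine hup.trans (mul_le_mul_of_nonneg_right ?_ (by positivity))
      linarith [hcount.2]
    have h7 : (Sz D (z k) * V ^ r * ((b : ℝ) - a) + Q) * (1 / (V * K)) ^ r =
        (Sz D (z k) * ((b : ℝ) - a) + Q / V ^ r) / K ^ r := by
      rw [one_div_pow, mul_pow]
      field_simp
    rw [h7] at h6
    have h8 : EI (pr z) D a b ≤ ε * (((b : ℝ) - a) + Y) / K ^ r + σ * ((b : ℝ) - a) / K ^ r := by
      refine le_trans h6 ?_
      have h9 : ε * (((b : ℝ) - a) + Y) / K ^ r + σ * ((b : ℝ) - a) / K ^ r =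
        (σ * ((b : ℝ) - a) + ε * (((b : ℝ) - a) + Y)) / K ^ r := by ring
      rw [h9]
      apply div_le_div_of_nonneg_right _ hKr.le
      have h11 : Sz D (z k) * ((b : ℝ) - a) ≤ (σ + ε) * ((b : ℝ) - a) :=
        mul_le_mul_of_nonneg_right h1'.le hba0
      nlinarith
    linarith

/-- The elements have small probabilities. -/
theorem pr_tendsto {z : ℕ → ℕ} (hz : Small z) {δ : ℝ} (hδ : 0 < δ) : ∀ᶠ n : ℕ in atTop, pr z n ≤ δ := by
  have hL : 0 < Real.log 2 := Real.log_pos (by norm_num)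
  have h1 : ∀ᶠ k : ℕ in atTop, (z k : ℝ) ≤ (δ * Real.log 2 / 2) * k := hz _ (by positivity)
  have h2 : ∀ᶠ k : ℕ in atTop, 2 / (δ * Real.log 2) ≤ (k : ℝ) := (tendsto_natCast_atTop_atTop).eventually_ge_atTop _
  have hlog : Tendsto (fun n : ℕ => Nat.log 2 n) atTop atTop := by
    refine tendsto_atTop.2 (fun b => ?_)
    filter_upwards [eventually_ge_atTop (2 ^ b)] with n hn
    exact (Nat.le_log_iff_pow_le (by norm_num) (by have := Nat.one_le_two_pow (n := b); omega)).2 hn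
  filter_upwards [hlog.eventually h1, hlog.eventually h2, hlog.eventually (eventually_ge_atTop 1), eventually_ge_atTop 1]
    with n h3 h4 h5 h6
  have h7 : 2 ^ (Nat.log 2 n) ≤ n := Nat.pow_log_le_self 2 (by omega)
  have h8 : n < 2 ^ (Nat.log 2 n + 1) := Nat.lt_pow_succ_log_self (by norm_num) n
  refine (pr_le h5 h7 h8).trans ?_
  obtain ⟨k, hk⟩ : ∃ k, k = Nat.log 2 n := ⟨_, rfl⟩
  rw [← hk] at h3 h4 h5 ⊢
  have hk0 : (0 : ℝ) < k := by exact_mod_cast h5
  have hV1 : 1 / ((z k : ℝ) + 1) ≤ Vf (z k) := le_Vf2 _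
  have hV0 := Vf_pos (z k)
  have hz0 : (0 : ℝ) ≤ z k := Nat.cast_nonneg _
  rw [div_le_iff₀ (by linarith)] at hV1
  rw [div_le_iff₀ (by positivity)]
  rw [div_le_iff₀ (by positivity)] at h4
  have h9 : ((z k : ℝ) + 1) ≤ δ * (k * Real.log 2) := by nlinarith
  nlinarith [mul_le_mul_of_nonneg_left h9 hV0.le]

end Pool.Agent.Q197.WN
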