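import Pool.Agent.Q197.WN.Mean

/-!
# The expected number of patterns in a short window, in terms of its left end
-/

set_option autoImplicit false

namespace Pool.Agent.Q197.WN

open Finset MeasureTheory Filter Pool.Agent.Q120.TT Pool.Agent.Q120.ET Pool.Agent.Q120.GM
  Pool.Agent.Q120.CL Pool.Agent.Q120.MG Pool.Agent.Q120.HL Pool.Agent.Q150.TT
open scoped Topology

theorem EI_split (p : ℕ → ℝ) (D : Finset ℕ) {a m b : ℕ} (h1 : a ≤ m) (h2 : m ≤ b) :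
    EI p D a b = EI p D a m + EI p D m b := by
  unfold EI
  exact (sum_Ico_consecutive _ h1 h2).symm

theorem EI_nonneg {p : ℕ → ℝ} (hp : ∀ n, 0 ≤ p n ∧ p n ≤ 1) (D : Finset ℕ) (a b : ℕ) : 0 ≤ EI p D a b :=
  sum_nonneg (fun _ _ => prod_nonneg (fun _ _ => (hp _).1))

theorem EI_le_len {p : ℕ → ℝ} (hp : ∀ n, 0 ≤ p n ∧ p n ≤ 1) (D : Finset ℕ) {a b : ℕ} (h : a ≤ b) :
    EI p D a b ≤ (b : ℝ) - a := by
  unfold EI
  have h1 : ∑ n ∈ Ico a b, ∏ h ∈ D, p (n + h) ≤ ∑ n ∈ Ico a b, (1 : ℝ) :=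
    sum_le_sum (fun n _ => prod_le_one (fun h _ => (hp _).1) (fun h _ => (hp _).2))
  refine h1.trans (le_of_eq ?_)
  rw [sum_const, Nat.card_Ico, nsmul_eq_mul, mul_one, Nat.cast_sub h]

theorem conv {x σ ℓ Y K L ε : ℝ} {r : ℕ} (hσ : 0 ≤ σ) (hℓ : 0 ≤ ℓ) (hY : 0 ≤ Y) (hK : 0 < K) (hL : 0 < L) (hε : 0 ≤ ε)
    (hε1 : ε ≤ 1) (h1 : |x - σ * ℓ / K ^ r| ≤ ε * (ℓ + Y) / K ^ r) (h2 : |(L / K) ^ r - 1| ≤ ε) :
    |x - σ * ℓ / L ^ r| ≤ (2 + σ) * ε * (ℓ + Y) / L ^ r := by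
  obtain ⟨ρ, hρ⟩ : ∃ ρ, ρ = (L / K) ^ r := ⟨_, rfl⟩
  rw [← hρ] at h2
  have hKr : 0 < K ^ r := by positivity
  have hLr : 0 < L ^ r := by positivity
  have h3 := abs_le.1 h2
  have e1 : ∀ y : ℝ, y / K ^ r = ρ * y / L ^ r := by
    intro y
    rw [hρ, div_pow]
    field_simp
  rw [e1, e1] at h1
  have h4 : |x - σ * ℓ / L ^ r| ≤ |x - ρ * (σ * ℓ) / L ^ r| + |ρ * (σ * ℓ) / L ^ r - σ * ℓ / L ^ r| := by
    have := abs_add_le (x - ρ * (σ * ℓ) / L ^ r) (ρ * (σ * ℓ) / L ^ r - σ * ℓ / L ^ r)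
    rwa [sub_add_sub_cancel] at this
  have h5 : ρ * (σ * ℓ) / L ^ r - σ * ℓ / L ^ r = (ρ - 1) * (σ * ℓ / L ^ r) := by ring
  rw [h5, abs_mul, abs_of_nonneg (show 0 ≤ σ * ℓ / L ^ r by positivity)] at h4
  have h6 : |ρ - 1| * (σ * ℓ / L ^ r) ≤ ε * (σ * ℓ / L ^ r) := mul_le_mul_of_nonneg_right h2 (by positivity)
  have h7 : ρ * (ε * (ℓ + Y)) / L ^ r ≤ 2 * (ε * (ℓ + Y)) / L ^ r := by
    apply div_le_div_of_nonneg_right _ hLr.le
    exact mul_le_mul_of_nonneg_right (by linarith) (by positivity)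
  have h8 : ε * (σ * ℓ / L ^ r) ≤ ε * (σ * (ℓ + Y) / L ^ r) := by
    apply mul_le_mul_of_nonneg_left _ hε
    apply div_le_div_of_nonneg_right _ hLr.le
    exact mul_le_mul_of_nonneg_left (by linarith) hσ
  have h9 : (2 + σ) * ε * (ℓ + Y) / L ^ r = 2 * (ε * (ℓ + Y)) / L ^ r + ε * (σ * (ℓ + Y) / L ^ r) := by ring
  rw [h9]
  linarith

theorem log2_tendsto : Tendsto (fun n : ℕ => Nat.log 2 n) atTop atTop := by
  refine tendsto_atTop.2 (fun b => ?_)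
  filter_upwards [eventually_ge_atTop (2 ^ b)] with n hn
  exact (Nat.le_log_iff_pow_le (by norm_num) (by have := Nat.one_le_two_pow (n := b); omega)).2 hn

theorem mean_win {z : ℕ → ℕ} {D : Finset ℕ} {H : ℕ} {σ : ℝ} (hS : Tendsto (fun k => Sz D (z k)) atTop (𝓝 σ))
    (hz : Small z) (hD : ∀ h ∈ D, h ≤ H) {ε η : ℝ} (hε : 0 < ε) (hη : 0 < η) :
    ∀ᶠ a : ℕ in atTop, ∀ b : ℕ, a ≤ b → 2 * b ≤ 3 * a →
      |EI (pr z) D a b - σ * ((b : ℝ) - a) / Real.log a ^ D.card| ≤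
        ε * (((b : ℝ) - a) + (a : ℝ) ^ η) / Real.log a ^ D.card := by
  have hσ : 0 ≤ σ := ge_of_tendsto' hS (fun k => Sz_nonneg D (z k))
  have hl2 : 0 < Real.log 2 := Real.log_pos (by norm_num)
  have hp : ∀ n, 0 ≤ pr z n ∧ pr z n ≤ 1 := fun n => ⟨pr_nonneg z n, pr_le_one z n⟩
  obtain ⟨r, hr⟩ : ∃ r, r = D.card := ⟨_, rfl⟩
  rw [← hr]
  obtain ⟨ε1, hε1⟩ : ∃ ε1, ε1 = min 1 (ε / (2 * ((2 + σ) * (1 + (2 : ℝ) ^ η)))) := ⟨_, rfl⟩
  have hden : 0 < 2 * ((2 + σ) * (1 + (2 : ℝ) ^ η)) := by positivity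
  have hε10 : 0 < ε1 := by rw [hε1]; exact lt_min one_pos (by positivity)
  have hε11 : ε1 ≤ 1 := by rw [hε1]; exact min_le_left _ _
  have hε12 : (2 + σ) * (1 + (2 : ℝ) ^ η) * ε1 ≤ ε / 2 := by
    have h1 : ε1 ≤ ε / (2 * ((2 + σ) * (1 + (2 : ℝ) ^ η))) := by rw [hε1]; exact min_le_right _ _
    rw [le_div_iff₀ hden] at h1
    linarith
  have hmb := mean_block hS hz hD hε10 hη
  have hmb2 : ∀ᶠ k : ℕ in atTop, ∀ a b : ℕ, 2 ^ (k + 1) ≤ a → a ≤ b → b + H ≤ 2 ^ (k + 1 + 1) →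
      |EI (pr z) D a b - σ * ((b : ℝ) - a) / (((k + 1 : ℕ) : ℝ) * Real.log 2) ^ D.card| ≤
        ε1 * (((b : ℝ) - a) + ((2 : ℝ) ^ (k + 1)) ^ η) / (((k + 1 : ℕ) : ℝ) * Real.log 2) ^ D.card :=
    (tendsto_add_atTop_nat 1).eventually hmb
  have hρ : Tendsto (fun k : ℕ => (((k : ℝ) + 1) / k) ^ r) atTop (𝓝 1) := by
    have h1 : Tendsto (fun k : ℕ => ((k : ℝ) / (k + 1))⁻¹) atTop (𝓝 1) := by
      have := (tendsto_natCast_div_add_atTop (1 : ℝ)).inv₀ one_ne_zero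
      rwa [inv_one] at this
    have h2 := h1.pow r
    rw [one_pow] at h2
    refine h2.congr (fun k => ?_)
    rw [inv_div]
  have hρ2 : Tendsto (fun k : ℕ => ((k : ℝ) / (k + 1)) ^ r) atTop (𝓝 1) := by
    have h2 := (tendsto_natCast_div_add_atTop (1 : ℝ)).pow r
    rwa [one_pow] at h2
  have e1 := hρ.eventually (Iio_mem_nhds (show (1 : ℝ) < 1 + ε1 by linarith))
  have e2 := hρ2.eventually (Ioi_mem_nhds (show 1 - ε1 < (1 : ℝ) by linarith))
  have e3 : ∀ᶠ k : ℕ in atTop, 4 * H + 4 ≤ 2 ^ k := by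
    filter_upwards [eventually_ge_atTop (4 * H + 4)] with k hk
    exact hk.trans (Nat.lt_two_pow_self).le
  have e4 : ∀ᶠ a : ℕ in atTop, (2 * ((H : ℝ) * (1 + σ)) / ε) * Real.log a ^ r ≤ (a : ℝ) ^ η := by
    have h1 := (isLittleO_log_rpow_rpow_atTop (r : ℝ) hη).bound (show (0 : ℝ) < 1 / (2 * ((H : ℝ) * (1 + σ)) / ε + 1) by positivity)
    filter_upwards [tendsto_natCast_atTop_atTop.eventually h1, eventually_ge_atTop 3] with a ha ha3
    have ha0 : (0 : ℝ) < a := by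
      have : 0 < a := by omega
      exact_mod_cast this
    have hla : 0 ≤ Real.log a := Real.log_natCast_nonneg a
    rw [Real.rpow_natCast, Real.norm_eq_abs, Real.norm_eq_abs, abs_of_nonneg (by positivity),
      abs_of_nonneg (by positivity)] at ha
    have hc : 0 < 2 * ((H : ℝ) * (1 + σ)) / ε + 1 := by positivity
    rw [one_div, inv_mul_eq_div, le_div_iff₀ hc] at ha
    have : 0 ≤ Real.log a ^ r := by positivity
    linarith
  filter_upwards [log2_tendsto.eventually hmb, log2_tendsto.eventually hmb2, log2_tendsto.eventually e1,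
    log2_tendsto.eventually e2, log2_tendsto.eventually e3, log2_tendsto.eventually (eventually_ge_atTop 2), e4,
    eventually_ge_atTop 3] with a h1 h2 h3 h4 h5 h6 h7 ha3 b hab hb
  obtain ⟨k, hk⟩ : ∃ k, k = Nat.log 2 a := ⟨_, rfl⟩
  rw [← hk] at h1 h2 h3 h4 h5 h6
  rw [← hr] at h1 h2
  have ha0 : (0 : ℝ) < a := by
    have : 0 < a := by omega
    exact_mod_cast this
  have hka : 2 ^ k ≤ a := by rw [hk]; exact Nat.pow_log_le_self 2 (by omega)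
  have hka2 : a < 2 ^ (k + 1) := by rw [hk]; exact Nat.lt_pow_succ_log_self (by norm_num) a
  have hk0 : (0 : ℝ) < k := by
    have : 0 < k := by omega
    exact_mod_cast this
  obtain ⟨L, hLd⟩ : ∃ L, L = Real.log a := ⟨_, rfl⟩
  have hLb := log_block hka hka2
  rw [← hLd] at hLb h7 ⊢
  obtain ⟨K, hK⟩ : ∃ K, K = (k : ℝ) * Real.log 2 := ⟨_, rfl⟩
  obtain ⟨K1, hK1⟩ : ∃ K1, K1 = ((k : ℝ) + 1) * Real.log 2 := ⟨_, rfl⟩
  have hK0 : 0 < K := by rw [hK]; positivity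
  have hK10 : 0 < K1 := by rw [hK1]; positivity
  have hKL : K ≤ L := by rw [hK]; exact hLb.2.1
  have hLK1 : L ≤ K1 := by rw [hK1]; exact hLb.2.2
  have hL0 : 0 < L := hK0.trans_le hKL
  have hLr : 0 < L ^ r := by positivity
  have c1 : |(L / K) ^ r - 1| ≤ ε1 := by
    have h8 : 1 ≤ (L / K) ^ r := one_le_pow₀ (by rw [le_div_iff₀ hK0]; linarith)
    have h9 : (L / K) ^ r ≤ (((k : ℝ) + 1) / k) ^ r := by
      refine pow_le_pow_left₀ (by positivity) ?_ r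
      have h10 : ((k : ℝ) + 1) / k = K1 / K := by rw [hK, hK1]; field_simp
      rw [h10]
      exact div_le_div_of_nonneg_right hLK1 hK0.le
    have h3' : (((k : ℝ) + 1) / k) ^ r < 1 + ε1 := h3
    rw [abs_le]
    constructor <;> linarith
  have c2 : |(L / K1) ^ r - 1| ≤ ε1 := by
    have h8 : (L / K1) ^ r ≤ 1 := pow_le_one₀ (by positivity) (by rw [div_le_one hK10]; exact hLK1)
    have h9 : ((k : ℝ) / (k + 1)) ^ r ≤ (L / K1) ^ r := by
      refine pow_le_pow_left₀ (by positivity) ?_ r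
      have h10 : (k : ℝ) / (k + 1) = K / K1 := by rw [hK, hK1]; field_simp
      rw [h10]
      exact div_le_div_of_nonneg_right hKL hK10.le
    have h4' : 1 - ε1 < ((k : ℝ) / (k + 1)) ^ r := h4
    rw [abs_le]
    constructor <;> linarith
  obtain ⟨c, hc⟩ : ∃ c : ℕ, c = 2 ^ (k + 1) := ⟨_, rfl⟩
  have hc2 : 2 ^ (k + 1 + 1) = 2 * c := by rw [hc]; ring
  have hc3 : c = 2 * 2 ^ k := by rw [hc]; ring
  obtain ⟨m1, hm1⟩ : ∃ m1 : ℕ, m1 = max a (min b (c - H)) := ⟨_, rfl⟩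
  obtain ⟨m2, hm2⟩ : ∃ m2 : ℕ, m2 = min b c := ⟨_, rfl⟩
  rw [← hc] at hka2 h2
  rw [hc2] at h2
  have o1 : a ≤ m1 := by rw [hm1]; exact le_max_left _ _
  have o2 : m1 ≤ m2 := by omega
  have o3 : m2 ≤ b := by omega
  have o4 : m2 ≤ m1 + H := by omega
  have hY1 : ((2 : ℝ) ^ k) ^ η ≤ (a : ℝ) ^ η := by
    apply Real.rpow_le_rpow (by positivity) _ hη.le
    exact_mod_cast hka
  have hY2 : ((2 : ℝ) ^ (k + 1)) ^ η ≤ (2 : ℝ) ^ η * (a : ℝ) ^ η := by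
    rw [← Real.mul_rpow (by norm_num) ha0.le]
    apply Real.rpow_le_rpow (by positivity) _ hη.le
    rw [pow_succ]
    have : (2 : ℝ) ^ k ≤ a := by exact_mod_cast hka
    linarith
  have hm1a : (0 : ℝ) ≤ (m1 : ℝ) - a := by
    have : (a : ℝ) ≤ m1 := by exact_mod_cast o1
    linarith
  have hm12 : (0 : ℝ) ≤ (m2 : ℝ) - m1 := by
    have : (m1 : ℝ) ≤ m2 := by exact_mod_cast o2
    linarith
  have hm2b : (0 : ℝ) ≤ (b : ℝ) - m2 := by
    have : (m2 : ℝ) ≤ b := by exact_mod_cast o3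
    linarith
  -- first part
  have p1 : |EI (pr z) D a m1 - σ * ((m1 : ℝ) - a) / L ^ r| ≤ (2 + σ) * ε1 * (((m1 : ℝ) - a) + (a : ℝ) ^ η) / L ^ r := by
    by_cases hcase : a < m1
    · have h8 := h1 a m1 hka o1 (by omega)
      rw [← hK] at h8
      have h9 := conv (L := L) hσ hm1a (by positivity) hK0 hL0 hε10.le hε11 h8 c1
      refine h9.trans ?_
      apply div_le_div_of_nonneg_right _ hLr.le
      exact mul_le_mul_of_nonneg_left (by linarith) (by positivity)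
    · have h8 : m1 = a := by omega
      rw [h8]
      have h9 : EI (pr z) D a a = 0 := by unfold EI; simp
      rw [h9]
      simp only [sub_self, mul_zero, zero_div, abs_zero, zero_add]
      positivity
  -- the third part
  have p3 : |EI (pr z) D m2 b - σ * ((b : ℝ) - m2) / L ^ r| ≤
      (2 + σ) * ε1 * (((b : ℝ) - m2) + (2 : ℝ) ^ η * (a : ℝ) ^ η) / L ^ r := by
    by_cases hcase : c < b
    · have h8 := h2 m2 b (by omega) o3 (by omega)
      have hcast : (((k + 1 : ℕ) : ℝ) * Real.log 2) = K1 := by rw [hK1]; push_cast; ring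
      rw [hcast] at h8
      have h9 := conv (L := L) hσ hm2b (by positivity) hK10 hL0 hε10.le hε11 h8 c2
      refine h9.trans ?_
      apply div_le_div_of_nonneg_right _ hLr.le
      exact mul_le_mul_of_nonneg_left (by linarith) (by positivity)
    · have h8 : m2 = b := by omega
      rw [h8]
      have h9 : EI (pr z) D b b = 0 := by unfold EI; simp
      rw [h9]
      simp only [sub_self, mul_zero, zero_div, abs_zero, zero_add]
      positivity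
  -- the second part
  have p2 : |EI (pr z) D m1 m2 - σ * ((m2 : ℝ) - m1) / L ^ r| ≤ ε / 2 * (a : ℝ) ^ η / L ^ r := by
    have q1 := EI_le_len hp D o2
    have q2 := EI_nonneg hp D m1 m2
    have q3 : (m2 : ℝ) - m1 ≤ H := by
      have : (m2 : ℝ) ≤ m1 + H := by exact_mod_cast o4
      linarith
    have q4 : 0 ≤ σ * ((m2 : ℝ) - m1) / L ^ r := by positivity
    have hLr1 : 1 ≤ L ^ r := by
      apply one_le_pow₀
      refine le_trans ?_ hKL
      rw [hK]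
      have h8 : (2 : ℝ) ≤ k := by exact_mod_cast h6
      have h9 := Real.log_two_gt_d9
      nlinarith
    have q5 : σ * ((m2 : ℝ) - m1) / L ^ r ≤ σ * H := by
      rw [div_le_iff₀ hLr]
      have h8 : σ * ((m2 : ℝ) - m1) ≤ σ * H := mul_le_mul_of_nonneg_left q3 hσ
      have h9 : 0 ≤ σ * H := by positivity
      nlinarith
    have q6 : (H : ℝ) * (1 + σ) ≤ ε / 2 * (a : ℝ) ^ η / L ^ r := by
      rw [le_div_iff₀ hLr]
      have h8 : ε / 2 * (2 * ((H : ℝ) * (1 + σ)) / ε * L ^ r) ≤ ε / 2 * (a : ℝ) ^ η :=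
        mul_le_mul_of_nonneg_left h7 (by linarith)
      have h9 : ε / 2 * (2 * ((H : ℝ) * (1 + σ)) / ε * L ^ r) = (H : ℝ) * (1 + σ) * L ^ r := by field_simp
      linarith
    rw [abs_le]
    have hH0 : (0 : ℝ) ≤ H := Nat.cast_nonneg H
    constructor
    · nlinarith
    · nlinarith
  rw [EI_split (pr z) D (o1.trans o2) o3, EI_split (pr z) D o1 o2]
  have hsum : σ * ((b : ℝ) - a) / L ^ r = σ * ((m1 : ℝ) - a) / L ^ r + σ * ((m2 : ℝ) - m1) / L ^ r +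
      σ * ((b : ℝ) - m2) / L ^ r := by ring
  rw [hsum]
  have t1 := abs_le.1 p1
  have t2 := abs_le.1 p2
  have t3 := abs_le.1 p3
  have htot : (2 + σ) * ε1 * (((m1 : ℝ) - a) + (a : ℝ) ^ η) / L ^ r +
      (2 + σ) * ε1 * (((b : ℝ) - m2) + (2 : ℝ) ^ η * (a : ℝ) ^ η) / L ^ r + ε / 2 * (a : ℝ) ^ η / L ^ r ≤
      ε * (((b : ℝ) - a) + (a : ℝ) ^ η) / L ^ r := by
    rw [← add_div, ← add_div]
    apply div_le_div_of_nonneg_right _ hLr.le
    have hA0 : 0 ≤ (a : ℝ) ^ η := by positivity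
    have u1 : (2 + σ) * ε1 * (((m1 : ℝ) - a) + (a : ℝ) ^ η) + (2 + σ) * ε1 * (((b : ℝ) - m2) + (2 : ℝ) ^ η * (a : ℝ) ^ η) =
        (2 + σ) * ε1 * (((m1 : ℝ) - a) + ((b : ℝ) - m2)) + (2 + σ) * (1 + (2 : ℝ) ^ η) * ε1 * (a : ℝ) ^ η := by ring
    have u2 : (2 + σ) * ε1 * (((m1 : ℝ) - a) + ((b : ℝ) - m2)) ≤ ε / 2 * ((b : ℝ) - a) := by
      have u3 : ((m1 : ℝ) - a) + ((b : ℝ) - m2) ≤ (b : ℝ) - a := by linarith
      have u4 : (2 + σ) * ε1 ≤ ε / 2 := by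
        refine le_trans ?_ hε12
        have u5 : 0 ≤ (2 : ℝ) ^ η := by positivity
        nlinarith [mul_nonneg (mul_nonneg (show 0 ≤ 2 + σ by linarith) u5) hε10.le]
      exact mul_le_mul u4 u3 (by linarith) (by linarith)
    have u3 : (2 + σ) * (1 + (2 : ℝ) ^ η) * ε1 * (a : ℝ) ^ η ≤ ε / 2 * (a : ℝ) ^ η :=
      mul_le_mul_of_nonneg_right hε12 hA0
    rw [u1]
    have u4 : 0 ≤ (b : ℝ) - a := by linarith
    nlinarith
  rw [abs_le]
  constructor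
  · linarith
  · linarith

end Pool.Agent.Q197.WN
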