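import Pool.Agent.Q150.TT.TAILT
import Pool.Agent.Q150.TT.MIXL
import Pool.Agent.Q111.TT.ENTG

/-!
# Windows in random sets: probabilities in the model with independent elements
-/

set_option autoImplicit false

namespace Pool.Agent.Q197.WN

open Finset MeasureTheory Filter Pool.Agent.Q120.TT Pool.Agent.Q120.ET Pool.Agent.Q120.GM

open Classical in
/-- The probability of a property of `A ∩ B` in the model with independent elements. -/
noncomputable def PP (p : ℕ → ℝ) (B : Finset ℕ) (F : Finset ℕ → Prop) : ℝ :=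
  ∑ T ∈ B.powerset with F T, prodOn p B T

open Classical in
theorem mem_pp {B T : Finset ℕ} {H : Finset ℕ → Prop} : T ∈ B.powerset.filter H ↔ T ⊆ B ∧ H T := by
  rw [mem_filter, mem_powerset]

section

variable {p : ℕ → ℝ} {B s t : Finset ℕ} {F G : Finset ℕ → Prop}

theorem prodOn_nn (hp : ∀ n, 0 ≤ p n ∧ p n ≤ 1) {T : Finset ℕ} (hT : T ⊆ B) : 0 ≤ prodOn p B T :=
  Pool.Agent.Q111.TT.prodOn_nonneg (fun n _ => hp n) hT

theorem PP_nonneg (hp : ∀ n, 0 ≤ p n ∧ p n ≤ 1) : 0 ≤ PP p B F := by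
  classical
  exact sum_nonneg (fun _ hT => prodOn_nn hp (mem_powerset.1 (mem_filter.1 hT).1))

theorem PP_mono (hp : ∀ n, 0 ≤ p n ∧ p n ≤ 1) (h : ∀ T, T ⊆ B → F T → G T) : PP p B F ≤ PP p B G := by
  classical
  refine sum_le_sum_of_subset_of_nonneg ?_ (fun T hT _ => prodOn_nn hp (mem_powerset.1 (mem_filter.1 hT).1))
  intro T hT
  have hT1 := mem_powerset.1 (mem_filter.1 hT).1
  exact mem_filter.2 ⟨mem_powerset.2 hT1, h T hT1 (mem_filter.1 hT).2⟩

theorem PP_congr (h : ∀ T, T ⊆ B → (F T ↔ G T)) : PP p B F = PP p B G := by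
  classical
  unfold PP
  refine sum_congr (filter_congr (fun T hT => h T (mem_powerset.1 hT))) (fun _ _ => rfl)

theorem PP_true : PP p B (fun _ => True) = 1 := by
  classical
  have h1 : (B.powerset).filter (fun T => (fun _ : Finset ℕ => True) T) = B.powerset :=
    filter_true_of_mem (fun _ _ => trivial)
  have h2 : PP p B (fun _ => True) = ∑ T ∈ (B.powerset).filter (fun T => (fun _ : Finset ℕ => True) T), prodOn p B T := by
    unfold PP
    refine sum_congr ?_ (fun _ _ => rfl)
    ext T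
    simp only [mem_filter]
  rw [h2, h1]
  exact Pool.Agent.Q111.TT.sum_prodOn p B

theorem PP_le_one (hp : ∀ n, 0 ≤ p n ∧ p n ≤ 1) : PP p B F ≤ 1 := by
  rw [← PP_true (p := p) (B := B)]
  exact PP_mono hp (fun _ _ _ => trivial)

theorem PP_exists_le (hp : ∀ n, 0 ≤ p n ∧ p n ≤ 1) {ι : Type*} (I : Finset ι) (Q : ι → Finset ℕ → Prop) :
    PP p B (fun T => ∃ i ∈ I, Q i T) ≤ ∑ i ∈ I, PP p B (Q i) := by
  classical
  unfold PP
  have h1 : ∀ i ∈ I, ∑ T ∈ B.powerset with Q i T, prodOn p B T = ∑ T ∈ B.powerset, (if Q i T then prodOn p B T else 0) :=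
    fun i _ => sum_filter _ _
  rw [sum_congr rfl h1, sum_comm, sum_filter]
  refine sum_le_sum (fun T hT => ?_)
  have hT' := mem_powerset.1 hT
  split_ifs with h
  · obtain ⟨i, hi, hQ⟩ := h
    have h2 : (if Q i T then prodOn p B T else 0) ≤ ∑ j ∈ I, (if Q j T then prodOn p B T else 0) :=
      single_le_sum (f := fun j => if Q j T then prodOn p B T else 0)
        (fun j _ => by split_ifs; exacts [prodOn_nn hp hT', le_rfl]) hi
    rw [if_pos hQ] at h2
    exact h2
  · exact sum_nonneg (fun j _ => by split_ifs; exacts [prodOn_nn hp hT', le_rfl])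

theorem prodOn_union (hd : Disjoint s t) {U V : Finset ℕ} (hU : U ⊆ s) (hV : V ⊆ t) :
    prodOn p (s ∪ t) (U ∪ V) = prodOn p s U * prodOn p t V := by
  unfold prodOn
  have hUV : Disjoint U V := disjoint_of_subset_left hU (disjoint_of_subset_right hV hd)
  have h1 : (s ∪ t) \ (U ∪ V) = (s \ U) ∪ (t \ V) := by
    ext n
    simp only [Finset.mem_sdiff, mem_union, not_or]
    constructor
    · rintro ⟨h | h, h2, h3⟩
      · exact Or.inl ⟨h, h2⟩
      · exact Or.inr ⟨h, h3⟩
    · rintro (⟨h, h2⟩ | ⟨h, h2⟩)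
      · exact ⟨Or.inl h, h2, fun h3 => disjoint_left.1 hd h (hV h3)⟩
      · exact ⟨Or.inr h, fun h3 => disjoint_left.1 hd (hU h3) h, h2⟩
  have h2 : Disjoint (s \ U) (t \ V) := disjoint_of_subset_left sdiff_subset (disjoint_of_subset_right sdiff_subset hd)
  rw [h1, prod_union hUV, prod_union h2]
  ring

/-- Independence of the traces on disjoint sets. -/
theorem PP_prod (hd : Disjoint s t) :
    PP p (s ∪ t) (fun T => F (T ∩ s) ∧ G (T ∩ t)) = PP p s F * PP p t G := by
  classical
  unfold PP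
  rw [sum_mul_sum, ← sum_product']
  refine sum_nbij' (fun T => (T ∩ s, T ∩ t)) (fun x => x.1 ∪ x.2) ?_ ?_ ?_ ?_ ?_
  · intro T hT
    have hT2 := (mem_pp.1 hT).2
    exact mem_product.2 ⟨mem_pp.2 ⟨inter_subset_right, hT2.1⟩, mem_pp.2 ⟨inter_subset_right, hT2.2⟩⟩
  · rintro ⟨U, V⟩ h
    obtain ⟨h1, h2⟩ := mem_pp.1 (mem_product.1 h).1
    obtain ⟨h3, h4⟩ := mem_pp.1 (mem_product.1 h).2
    simp only at h1 h2 h3 h4
    refine (mem_pp (H := fun T => F (T ∩ s) ∧ G (T ∩ t))).2 ?_
    have e1 : (U ∪ V) ∩ s = U := by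
      ext n
      simp only [mem_inter, mem_union]
      constructor
      · rintro ⟨h | h, h5⟩
        · exact h
        · exact absurd (h3 h) (disjoint_left.1 hd h5)
      · exact fun h => ⟨Or.inl h, h1 h⟩
    have e2 : (U ∪ V) ∩ t = V := by
      ext n
      simp only [mem_inter, mem_union]
      constructor
      · rintro ⟨h | h, h5⟩
        · exact absurd h5 (disjoint_left.1 hd (h1 h))
        · exact h
      · exact fun h => ⟨Or.inr h, h3 h⟩
    refine ⟨union_subset_union h1 h3, ?_, ?_⟩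
    · show F ((U ∪ V) ∩ s)
      rw [e1]; exact h2
    · show G ((U ∪ V) ∩ t)
      rw [e2]; exact h4
  · intro T hT
    have hT1 := (mem_pp.1 hT).1
    show T ∩ s ∪ T ∩ t = T
    rw [← inter_union_distrib_left]
    exact inter_eq_left.2 hT1
  · rintro ⟨U, V⟩ h
    obtain ⟨h1, h2⟩ := mem_pp.1 (mem_product.1 h).1
    obtain ⟨h3, h4⟩ := mem_pp.1 (mem_product.1 h).2
    simp only at h1 h2 h3 h4
    have e1 : (U ∪ V) ∩ s = U := by
      ext n
      simp only [mem_inter, mem_union]
      constructor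
      · rintro ⟨h | h, h5⟩
        · exact h
        · exact absurd (h3 h) (disjoint_left.1 hd h5)
      · exact fun h => ⟨Or.inl h, h1 h⟩
    have e2 : (U ∪ V) ∩ t = V := by
      ext n
      simp only [mem_inter, mem_union]
      constructor
      · rintro ⟨h | h, h5⟩
        · exact absurd h5 (disjoint_left.1 hd (h1 h))
        · exact h
      · exact fun h => ⟨Or.inr h, h3 h⟩
    show ((U ∪ V) ∩ s, (U ∪ V) ∩ t) = (U, V)
    rw [e1, e2]
  · intro T hT
    have hT1 := (mem_pp.1 hT).1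
    show prodOn p (s ∪ t) T = prodOn p s (T ∩ s) * prodOn p t (T ∩ t)
    rw [← prodOn_union hd inter_subset_right inter_subset_right, ← inter_union_distrib_left,
      inter_eq_left.2 hT1]

theorem PP_sub (hs : s ⊆ B) : PP p B (fun T => F (T ∩ s)) = PP p s F := by
  classical
  have h1 := PP_prod (p := p) (s := s) (t := B \ s) (F := F) (G := fun _ => True) disjoint_sdiff
  rw [union_sdiff_of_subset hs, PP_true, mul_one] at h1
  rw [← h1]
  exact PP_congr (fun T _ => by simp)

/-- Independence of many windows. -/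
theorem PP_biUnion (W : ℕ → Finset ℕ) (I : Finset ℕ) (hW : ∀ i ∈ I, ∀ j ∈ I, i ≠ j → Disjoint (W i) (W j))
    (Q : ℕ → Finset ℕ → Prop) :
    PP p (I.biUnion W) (fun T => ∀ i ∈ I, Q i (T ∩ W i)) = ∏ i ∈ I, PP p (W i) (Q i) := by
  classical
  induction I using Finset.induction_on with
  | empty =>
    rw [prod_empty, ← PP_true (p := p) (B := (∅ : Finset ℕ).biUnion W)]
    exact PP_congr (fun T _ => by simp)
  | insert a I ha ih =>
    rw [prod_insert ha, ← ih (fun i hi j hj => hW i (mem_insert_of_mem hi) j (mem_insert_of_mem hj)), biUnion_insert]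
    have hd : Disjoint (W a) (I.biUnion W) := by
      rw [disjoint_biUnion_right]
      intro i hi
      refine hW a (mem_insert_self _ _) i (mem_insert_of_mem hi) ?_
      rintro rfl
      exact ha hi
    rw [← PP_prod hd]
    refine PP_congr (fun T _ => ?_)
    rw [forall_mem_insert]
    refine and_congr_right (fun _ => forall₂_congr (fun i hi => ?_))
    have h1 : T ∩ I.biUnion W ∩ W i = T ∩ W i := by
      rw [inter_assoc, inter_eq_right.2 (subset_biUnion_of_mem W hi)]
    rw [h1]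

/-- The same for a part of the windows. -/
theorem PP_windows (W : ℕ → Finset ℕ) {I J : Finset ℕ} (hJ : J ⊆ I)
    (hW : ∀ i ∈ I, ∀ j ∈ I, i ≠ j → Disjoint (W i) (W j)) (Q : ℕ → Finset ℕ → Prop) :
    PP p (I.biUnion W) (fun T => ∀ i ∈ J, Q i (T ∩ W i)) = ∏ i ∈ J, PP p (W i) (Q i) := by
  classical
  rw [← PP_biUnion W J (fun i hi j hj => hW i (hJ hi) j (hJ hj)) Q, ← PP_sub (biUnion_subset_biUnion_of_subset_left W hJ)]
  refine PP_congr (fun T _ => forall₂_congr (fun i hi => ?_))
  have h1 : T ∩ J.biUnion W ∩ W i = T ∩ W i := by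
    rw [inter_assoc, inter_eq_right.2 (subset_biUnion_of_mem W hi)]
  rw [h1]

end

/-- The probability of a property of the trace, in a model. -/
theorem PP_model {Ω : Type} [MeasurableSpace Ω] {μ : Measure Ω} [IsProbabilityMeasure μ] {A : Ω → Set ℕ}
    {p : ℕ → ℝ} (hA : IsModel μ p A) (B : Finset ℕ) (F : Finset ℕ → Prop) :
    PP p B F = μ.real {ω | F (tr A B ω)} := by
  classical
  rw [real_event (μ := μ) hA.meas B F]
  unfold PP
  exact sum_congr rfl (fun T hT => (Pool.Agent.Q150.TT.law_model hA B T (mem_powerset.1 (mem_filter.1 hT).1)).symm)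

end Pool.Agent.Q197.WN
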