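import Pool.Agent.Q197.WN.Phase

/-!
# Large deviations of the number of patterns in a window, from the generating function
-/

set_option autoImplicit false

namespace Pool.Agent.Q197.WN

open Finset MeasureTheory Filter Pool.Agent.Q120.TT Pool.Agent.Q120.ET Pool.Agent.Q120.GM
open scoped Topology

/-- The rate function `θ log θ - θ + 1`. -/
noncomputable def rate (θ : ℝ) : ℝ := θ * Real.log θ - θ + 1

theorem rate_zero : rate 0 = 1 := by
  unfold rate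
  simp

theorem rate_pos {θ : ℝ} (h0 : 0 ≤ θ) (h1 : θ ≠ 1) : 0 < rate θ := by
  rcases h0.eq_or_lt with h | h
  · rw [← h, rate_zero]
    exact one_pos
  · unfold rate
    have h2 := Real.log_lt_sub_one_of_pos (show 0 < θ⁻¹ by positivity) (by
      intro h3
      apply h1
      rw [← inv_inv θ, h3, inv_one])
    rw [Real.log_inv] at h2
    have h3 : θ * (-Real.log θ) < θ * (θ⁻¹ - 1) := mul_lt_mul_of_pos_left h2 h
    have h4 : θ * (θ⁻¹ - 1) = 1 - θ := by field_simp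
    linarith

theorem rate_cont : Continuous rate := by
  unfold rate
  exact (Real.continuous_mul_log.sub continuous_id).add continuous_const

theorem gap_pos {x y : ℝ} (hx : 0 < x) (hy : 0 < y) (h : x ≠ y) : 0 < y * Real.log (y / x) - y + x := by
  have h2 := Real.log_lt_sub_one_of_pos (show 0 < x / y by positivity) (by
    intro h3
    rw [div_eq_one_iff_eq hy.ne'] at h3
    exact h h3)
  have h3 : Real.log (y / x) = -Real.log (x / y) := by
    rw [← Real.log_inv, inv_div]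
  rw [h3]
  have h4 : y * Real.log (x / y) < y * (x / y - 1) := mul_lt_mul_of_pos_left h2 hy
  have h5 : y * (x / y - 1) = x - y := by field_simp
  linarith

/-- The generating function of the number of patterns. -/
noncomputable def Lam (p : ℕ → ℝ) (W : Finset ℕ) (N : Finset ℕ → ℕ) (t : ℝ) : ℝ :=
  ∑ T ∈ W.powerset, prodOn p W T * t ^ N T

theorem three_term {θ θ1 θ2 e : ℝ} (h1 : 0 < θ1) (h2 : θ1 < θ) (h3 : θ < θ2) (N : ℕ) {g : ℝ}
    (hg : (θ1 * e ≤ N ∧ (N : ℝ) ≤ θ2 * e) → 1 ≤ g) (hg0 : 0 ≤ g) :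
    θ ^ N ≤ (θ / θ2) ^ (θ2 * e) * θ2 ^ N + (θ / θ1) ^ (θ1 * e) * θ1 ^ N +
      max (θ ^ (θ1 * e)) (θ ^ (θ2 * e)) * g := by
  have hθ : 0 < θ := h1.trans h2
  have hθ2 : 0 < θ2 := hθ.trans h3
  have a1 : 0 ≤ (θ / θ2) ^ (θ2 * e) * θ2 ^ N := by positivity
  have a2 : 0 ≤ (θ / θ1) ^ (θ1 * e) * θ1 ^ N := by positivity
  have a3 : 0 ≤ max (θ ^ (θ1 * e)) (θ ^ (θ2 * e)) * g :=
    mul_nonneg (le_trans (by positivity) (le_max_left _ _)) hg0
  rcases lt_or_ge (θ2 * e) (N : ℝ) with hN | hN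
  · have h4 : θ ^ N = (θ / θ2) ^ (N : ℝ) * θ2 ^ N := by
      rw [Real.rpow_natCast, ← mul_pow]
      congr 1
      field_simp
    have h5 : (θ / θ2) ^ (N : ℝ) ≤ (θ / θ2) ^ (θ2 * e) :=
      Real.rpow_le_rpow_of_exponent_ge (by positivity) (by rw [div_le_one hθ2]; exact h3.le) hN.le
    have h6 := mul_le_mul_of_nonneg_right h5 (show 0 ≤ θ2 ^ N by positivity)
    rw [h4]
    linarith
  · rcases lt_or_ge (N : ℝ) (θ1 * e) with hN' | hN'
    · have h4 : θ ^ N = (θ / θ1) ^ (N : ℝ) * θ1 ^ N := by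
        rw [Real.rpow_natCast, ← mul_pow]
        congr 1
        field_simp
      have h5 : (θ / θ1) ^ (N : ℝ) ≤ (θ / θ1) ^ (θ1 * e) :=
        Real.rpow_le_rpow_of_exponent_le (by rw [le_div_iff₀ h1]; linarith) hN'.le
      have h6 := mul_le_mul_of_nonneg_right h5 (show 0 ≤ θ1 ^ N by positivity)
      rw [h4]
      linarith
    · have h4 := hg ⟨hN', hN⟩
      have h5 : θ ^ N ≤ max (θ ^ (θ1 * e)) (θ ^ (θ2 * e)) := by
        rw [← Real.rpow_natCast]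
        rcases le_total θ 1 with h6 | h6
        · exact (Real.rpow_le_rpow_of_exponent_ge hθ h6 hN').trans (le_max_left _ _)
        · exact (Real.rpow_le_rpow_of_exponent_le h6 hN).trans (le_max_right _ _)
      have h6 : max (θ ^ (θ1 * e)) (θ ^ (θ2 * e)) * 1 ≤ max (θ ^ (θ1 * e)) (θ ^ (θ2 * e)) * g :=
        mul_le_mul_of_nonneg_left h4 (le_trans (by positivity) (le_max_left _ _))
      linarith

theorem three {p : ℕ → ℝ} (hp : ∀ n, 0 ≤ p n ∧ p n ≤ 1) {W : Finset ℕ} {N : Finset ℕ → ℕ} {θ θ1 θ2 e : ℝ} (h1 : 0 < θ1)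
    (h2 : θ1 < θ) (h3 : θ < θ2) :
    Lam p W N θ ≤ (θ / θ2) ^ (θ2 * e) * Lam p W N θ2 + (θ / θ1) ^ (θ1 * e) * Lam p W N θ1 +
      max (θ ^ (θ1 * e)) (θ ^ (θ2 * e)) * PP p W (fun T => θ1 * e ≤ N T ∧ (N T : ℝ) ≤ θ2 * e) := by
  classical
  unfold Lam PP
  rw [mul_sum, mul_sum, mul_sum, sum_filter, ← sum_add_distrib, ← sum_add_distrib]
  refine sum_le_sum (fun T hT => ?_)
  have h0 := prodOn_nn (p := p) hp (mem_powerset.1 hT)
  have h4 := mul_le_mul_of_nonneg_left (three_term (e := e) h1 h2 h3 (N T)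
    (g := if θ1 * e ≤ N T ∧ (N T : ℝ) ≤ θ2 * e then 1 else 0) (fun h => by rw [if_pos h]) (by split_ifs <;> norm_num)) h0
  refine h4.trans (le_of_eq ?_)
  split_ifs <;> ring

theorem rpow_exp {x : ℝ} (hx : 0 < x) (y : ℝ) : x ^ y = Real.exp (Real.log x * y) := Real.rpow_def_of_pos hx y

theorem max_rpow {θ : ℝ} (hθ : 0 < θ) {θ1 θ2 e : ℝ} (h2 : θ1 < θ) (h3 : θ < θ2) (he : 0 ≤ e) :
    max (θ ^ (θ1 * e)) (θ ^ (θ2 * e)) ≤ Real.exp ((θ * Real.log θ + (θ2 - θ1) * |Real.log θ|) * e) := by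
  rw [rpow_exp hθ, rpow_exp hθ]
  have hl1 := le_abs_self (Real.log θ)
  have hl2 := neg_abs_le (Real.log θ)
  apply max_le
  · apply Real.exp_le_exp.2
    have h4 : Real.log θ * θ1 ≤ θ * Real.log θ + (θ2 - θ1) * |Real.log θ| := by
      have h5 : (θ1 - θ) * Real.log θ ≤ (θ - θ1) * |Real.log θ| := by nlinarith
      have h6 : (θ - θ1) * |Real.log θ| ≤ (θ2 - θ1) * |Real.log θ| :=
        mul_le_mul_of_nonneg_right (by linarith) (abs_nonneg _)
      nlinarith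
    have := mul_le_mul_of_nonneg_right h4 he
    nlinarith
  · apply Real.exp_le_exp.2
    have h4 : Real.log θ * θ2 ≤ θ * Real.log θ + (θ2 - θ1) * |Real.log θ| := by
      have h5 : (θ2 - θ) * Real.log θ ≤ (θ2 - θ) * |Real.log θ| := mul_le_mul_of_nonneg_left hl1 (by linarith)
      have h6 : (θ2 - θ) * |Real.log θ| ≤ (θ2 - θ1) * |Real.log θ| :=
        mul_le_mul_of_nonneg_right (by linarith) (abs_nonneg _)
      nlinarith
    have := mul_le_mul_of_nonneg_right h4 he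
    nlinarith

/-- The generating function is `exp (-(1 - t) E)` up to `exp (δ E)`, for the `t ∈ R`. -/
def WLap (p : ℕ → ℝ) (W : ℕ → Finset ℕ) (N : ℕ → Set ℕ → ℕ) (E : ℕ → ℝ) (R : Set ℝ) : Prop :=
  ∀ t ∈ R, ∀ δ : ℝ, 0 < δ → ∀ᶠ n : ℕ in atTop,
    Real.exp (-(((1 - t) + δ) * E n)) ≤ Lam p (W n) (fun T => N n ((T : Finset ℕ) : Set ℕ)) t ∧
      Lam p (W n) (fun T => N n ((T : Finset ℕ) : Set ℕ)) t ≤ Real.exp (-(((1 - t) - δ) * E n))

section

variable {p : ℕ → ℝ} {W : ℕ → Finset ℕ} {N : ℕ → Set ℕ → ℕ} {E : ℕ → ℝ} {R : Set ℝ}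

/-- Upper bound for the lower deviations. -/
theorem WLap.down (h : WLap p W N E R) (hp : ∀ n, 0 ≤ p n ∧ p n ≤ 1) {θ : ℝ} (hθ : θ ∈ R) (h0 : 0 < θ) (h1 : θ ≤ 1) {δ : ℝ}
    (hδ : 0 < δ) : ∀ᶠ n : ℕ in atTop,
      PP p (W n) (fun T => (N n ((T : Finset ℕ) : Set ℕ) : ℝ) ≤ θ * E n) ≤ Real.exp (-((rate θ - δ) * E n)) := by
  classical
  filter_upwards [h θ hθ δ hδ] with n hn
  have h2 : θ ^ (θ * E n) * PP p (W n) (fun T => (N n ((T : Finset ℕ) : Set ℕ) : ℝ) ≤ θ * E n) ≤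
      Lam p (W n) (fun T => N n ((T : Finset ℕ) : Set ℕ)) θ := by
    unfold Lam PP
    rw [mul_sum, sum_filter]
    refine sum_le_sum (fun T hT => ?_)
    have h3 := prodOn_nn (p := p) hp (mem_powerset.1 hT)
    split_ifs with h4
    · have h5 : θ ^ (θ * E n) ≤ θ ^ (N n ((T : Finset ℕ) : Set ℕ)) := by
        rw [← Real.rpow_natCast]
        exact Real.rpow_le_rpow_of_exponent_ge h0 h1 h4
      rw [mul_comm]
      exact mul_le_mul_of_nonneg_left h5 h3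
    · positivity
  have h3 : 0 < θ ^ (θ * E n) := by positivity
  have h4 := h2.trans hn.2
  rw [← le_div_iff₀' h3] at h4
  refine h4.trans (le_of_eq ?_)
  rw [rpow_exp h0, ← Real.exp_sub]
  congr 1
  unfold rate
  ring

/-- Upper bound for the upper deviations. -/
theorem WLap.up (h : WLap p W N E R) (hp : ∀ n, 0 ≤ p n ∧ p n ≤ 1) {θ : ℝ} (hθ : θ ∈ R) (h1 : 1 ≤ θ) {δ : ℝ}
    (hδ : 0 < δ) : ∀ᶠ n : ℕ in atTop,
      PP p (W n) (fun T => θ * E n ≤ (N n ((T : Finset ℕ) : Set ℕ) : ℝ)) ≤ Real.exp (-((rate θ - δ) * E n)) := by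
  classical
  have h0 : 0 < θ := by linarith
  filter_upwards [h θ hθ δ hδ] with n hn
  have h2 : θ ^ (θ * E n) * PP p (W n) (fun T => θ * E n ≤ (N n ((T : Finset ℕ) : Set ℕ) : ℝ)) ≤
      Lam p (W n) (fun T => N n ((T : Finset ℕ) : Set ℕ)) θ := by
    unfold Lam PP
    rw [mul_sum, sum_filter]
    refine sum_le_sum (fun T hT => ?_)
    have h3 := prodOn_nn (p := p) hp (mem_powerset.1 hT)
    split_ifs with h4
    · have h5 : θ ^ (θ * E n) ≤ θ ^ (N n ((T : Finset ℕ) : Set ℕ)) := by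
        rw [← Real.rpow_natCast]
        exact Real.rpow_le_rpow_of_exponent_le h1 h4
      rw [mul_comm]
      exact mul_le_mul_of_nonneg_left h5 h3
    · positivity
  have h3 : 0 < θ ^ (θ * E n) := by positivity
  have h4 := h2.trans hn.2
  rw [← le_div_iff₀' h3] at h4
  refine h4.trans (le_of_eq ?_)
  rw [rpow_exp h0, ← Real.exp_sub]
  congr 1
  unfold rate
  ring

/-- Lower bound for the probability of a deviation. -/
theorem WLap.lo (h : WLap p W N E R) (hp : ∀ n, 0 ≤ p n ∧ p n ≤ 1) (hE : Tendsto E atTop atTop) {θ θ1 θ2 : ℝ}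
    (hθ : θ ∈ R) (hθ1 : θ1 ∈ R) (hθ2 : θ2 ∈ R) (h1 : 0 < θ1) (h2 : θ1 < θ) (h3 : θ < θ2) {η : ℝ} (hη : 0 < η) :
    ∀ᶠ n : ℕ in atTop, Real.exp (-((rate θ + (θ2 - θ1) * |Real.log θ| + η) * E n)) ≤
      PP p (W n) (fun T => θ1 * E n ≤ (N n ((T : Finset ℕ) : Set ℕ) : ℝ) ∧ (N n ((T : Finset ℕ) : Set ℕ) : ℝ) ≤ θ2 * E n) := by
  have h0 : 0 < θ := h1.trans h2
  have h02 : 0 < θ2 := h0.trans h3
  have g1 := gap_pos h0 h1 h2.ne'
  have g2 := gap_pos h0 h02 h3.ne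
  obtain ⟨γ1, hγ1⟩ : ∃ γ1, γ1 = θ1 * Real.log (θ1 / θ) - θ1 + θ := ⟨_, rfl⟩
  obtain ⟨γ2, hγ2⟩ : ∃ γ2, γ2 = θ2 * Real.log (θ2 / θ) - θ2 + θ := ⟨_, rfl⟩
  rw [← hγ1] at g1
  rw [← hγ2] at g2
  obtain ⟨δ, hδ⟩ : ∃ δ, δ = min (min (γ1 / 4) (γ2 / 4)) (η / 2) := ⟨_, rfl⟩
  have hδ0 : 0 < δ := by rw [hδ]; exact lt_min (lt_min (by linarith) (by linarith)) (by linarith)
  have hδ1 : 4 * δ ≤ γ1 := by
    have : δ ≤ γ1 / 4 := by rw [hδ]; exact (min_le_left _ _).trans (min_le_left _ _)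
    linarith
  have hδ2 : 4 * δ ≤ γ2 := by
    have : δ ≤ γ2 / 4 := by rw [hδ]; exact (min_le_left _ _).trans (min_le_right _ _)
    linarith
  have hδ3 : 2 * δ ≤ η := by
    have : δ ≤ η / 2 := by rw [hδ]; exact min_le_right _ _
    linarith
  filter_upwards [h θ hθ δ hδ0, h θ1 hθ1 δ hδ0, h θ2 hθ2 δ hδ0, hE.eventually_ge_atTop (Real.log 4 / δ),
    hE.eventually_ge_atTop 0] with n hn hn1 hn2 hbig hE0
  obtain ⟨e, he⟩ : ∃ e, e = E n := ⟨_, rfl⟩
  rw [← he] at hn hn1 hn2 hbig hE0 ⊢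
  rw [div_le_iff₀ hδ0] at hbig
  have k1 := three (p := p) hp (W := W n) (N := fun T => N n ((T : Finset ℕ) : Set ℕ)) (e := e) h1 h2 h3
  have hq4 : Real.exp (-(δ * e)) ≤ 1 / 4 := by
    rw [Real.exp_neg, one_div]
    apply inv_anti₀ (by norm_num)
    rw [← Real.log_le_iff_le_exp (by norm_num)]
    linarith
  -- the two tails
  have t2 : (θ / θ2) ^ (θ2 * e) * Lam p (W n) (fun T => N n ((T : Finset ℕ) : Set ℕ)) θ2 ≤
      Real.exp (-((1 - θ + 3 * δ) * e)) := by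
    refine (mul_le_mul_of_nonneg_left hn2.2 (by positivity)).trans ?_
    rw [rpow_exp (by positivity), ← Real.exp_add]
    apply Real.exp_le_exp.2
    have e1 : Real.log (θ / θ2) = -Real.log (θ2 / θ) := by rw [← Real.log_inv, inv_div]
    rw [e1]
    have e2 : -Real.log (θ2 / θ) * (θ2 * e) + -((1 - θ2 - δ) * e) = -((1 - θ + γ2 - δ) * e) := by rw [hγ2]; ring
    rw [e2]
    have := mul_le_mul_of_nonneg_right (show 1 - θ + 3 * δ ≤ 1 - θ + γ2 - δ by linarith) hE0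
    linarith
  have t1 : (θ / θ1) ^ (θ1 * e) * Lam p (W n) (fun T => N n ((T : Finset ℕ) : Set ℕ)) θ1 ≤
      Real.exp (-((1 - θ + 3 * δ) * e)) := by
    refine (mul_le_mul_of_nonneg_left hn1.2 (by positivity)).trans ?_
    rw [rpow_exp (by positivity), ← Real.exp_add]
    apply Real.exp_le_exp.2
    have e1 : Real.log (θ / θ1) = -Real.log (θ1 / θ) := by rw [← Real.log_inv, inv_div]
    rw [e1]
    have e2 : -Real.log (θ1 / θ) * (θ1 * e) + -((1 - θ1 - δ) * e) = -((1 - θ + γ1 - δ) * e) := by rw [hγ1]; ring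
    rw [e2]
    have := mul_le_mul_of_nonneg_right (show 1 - θ + 3 * δ ≤ 1 - θ + γ1 - δ by linarith) hE0
    linarith
  have t3 : Real.exp (-((1 - θ + 3 * δ) * e)) ≤ 1 / 4 * Real.exp (-((1 - θ + δ) * e)) := by
    have e1 : -((1 - θ + 3 * δ) * e) = -(δ * e) + -(δ * e) + -((1 - θ + δ) * e) := by ring
    rw [e1, Real.exp_add, Real.exp_add]
    have e2 : 0 < Real.exp (-(δ * e)) := Real.exp_pos _
    have e3 : Real.exp (-(δ * e)) * Real.exp (-(δ * e)) ≤ 1 / 4 := by nlinarith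
    exact mul_le_mul_of_nonneg_right e3 (Real.exp_pos _).le
  obtain ⟨X, hX⟩ : ∃ X, X = PP p (W n) (fun T => θ1 * e ≤ (N n ((T : Finset ℕ) : Set ℕ) : ℝ) ∧
    (N n ((T : Finset ℕ) : Set ℕ) : ℝ) ≤ θ2 * e) := ⟨_, rfl⟩
  rw [← hX] at k1 ⊢
  have hX0 : 0 ≤ X := by rw [hX]; exact PP_nonneg hp
  have t4 : 1 / 2 * Real.exp (-((1 - θ + δ) * e)) ≤
      Real.exp ((θ * Real.log θ + (θ2 - θ1) * |Real.log θ|) * e) * X := by
    have e1 := mul_le_mul_of_nonneg_right (max_rpow h0 h2 h3 hE0) hX0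
    have e2 := hn.1
    linarith
  have t5 : Real.exp (-(δ * e)) ≤ 1 / 2 := by linarith
  have e5 : Real.exp (-((rate θ + (θ2 - θ1) * |Real.log θ| + η) * e)) * Real.exp ((θ * Real.log θ + (θ2 - θ1) * |Real.log θ|) * e) ≤
      1 / 2 * Real.exp (-((1 - θ + δ) * e)) := by
    rw [← Real.exp_add]
    have e6 : -((rate θ + (θ2 - θ1) * |Real.log θ| + η) * e) + (θ * Real.log θ + (θ2 - θ1) * |Real.log θ|) * e =
        -((1 - θ + η) * e) := by unfold rate; ring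
    rw [e6]
    have e7 : Real.exp (-((1 - θ + η) * e)) ≤ Real.exp (-(δ * e) + -((1 - θ + δ) * e)) := by
      apply Real.exp_le_exp.2
      have := mul_le_mul_of_nonneg_right hδ3 hE0
      linarith
    refine e7.trans ?_
    rw [Real.exp_add]
    exact mul_le_mul_of_nonneg_right t5 (Real.exp_pos _).le
  have e8 : 0 < Real.exp ((θ * Real.log θ + (θ2 - θ1) * |Real.log θ|) * e) := Real.exp_pos _
  have e9 := e5.trans t4
  rw [mul_comm] at e9
  exact le_of_mul_le_mul_left e9 e8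

end

end Pool.Agent.Q197.WN
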