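import Pool.Agent.Q197.WN.MeanW
import Pool.Agent.Q197.WN.Mach

/-!
# Patterns in polynomially long windows of the sieved model
-/

set_option autoImplicit false

namespace Pool.Agent.Q197.WN

open Finset MeasureTheory Filter Pool.Agent.Q120.TT Pool.Agent.Q120.ET Pool.Agent.Q120.GM
  Pool.Agent.Q120.CL Pool.Agent.Q120.MG Pool.Agent.Q120.HL Pool.Agent.Q150.TT
open scoped Topology

/-- The translate `x + D`. -/
def sh (D : Finset ℕ) (x : ℕ) : Finset ℕ := D.image (fun h => x + h)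

theorem mem_sh {D : Finset ℕ} {x y : ℕ} : y ∈ sh D x ↔ ∃ h ∈ D, x + h = y := by
  unfold sh
  rw [mem_image]

theorem prod_sh (p : ℕ → ℝ) (D : Finset ℕ) (x : ℕ) : ∏ y ∈ sh D x, p y = ∏ h ∈ D, p (x + h) := by
  unfold sh
  exact prod_image (fun a _ b _ h => Nat.add_left_cancel h)

theorem sh_mono {D E : Finset ℕ} (h : D ⊆ E) (x : ℕ) : sh D x ⊆ sh E x := image_subset_image h

theorem sh_card (D : Finset ℕ) (x : ℕ) : (sh D x).card = D.card := by
  unfold sh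
  exact card_image_of_injective _ (fun a b h => Nat.add_left_cancel h)

theorem sh_sub {E : Finset ℕ} {H a b x : ℕ} (hE : ∀ h ∈ E, h ≤ H) (hx : x ∈ Ico a (b - H)) : sh E x ⊆ Ico a b := by
  intro y hy
  obtain ⟨h, hh, rfl⟩ := mem_sh.1 hy
  have := hE h hh
  rw [mem_Ico] at hx ⊢
  omega

theorem sh_disjoint {E : Finset ℕ} {H x y : ℕ} (hE : ∀ h ∈ E, h ≤ H) (hxy : x ≠ y) (hc : x % (H + 1) = y % (H + 1)) :
    Disjoint (sh E x) (sh E y) := by
  rw [Finset.disjoint_left]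
  intro w hw hw'
  obtain ⟨h, hh, rfl⟩ := mem_sh.1 hw
  obtain ⟨h', hh', he⟩ := mem_sh.1 hw'
  have h3 := hE h hh
  have h4 := hE h' hh'
  apply hxy
  have h5 : x ≡ y [MOD (H + 1)] := hc
  rcases le_total x y with hle | hle
  · exact Nat.ModEq.eq_of_abs_lt h5 (by rw [abs_lt]; constructor <;> omega)
  · exact Nat.ModEq.eq_of_abs_lt h5 (by rw [abs_lt]; constructor <;> omega)

/-- The number of the `x` with `a ≤ x`, `x + H < b` and `A ∩ (x + E) = x + D`. -/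
noncomputable def pat (D E : Finset ℕ) (H a b : ℕ) (S : Set ℕ) : ℕ := cnt (Ico a (b - H)) (sh E) (sh D) S

section

variable {z : ℕ → ℕ} {D E : Finset ℕ} {H : ℕ} {σ : ℝ}

theorem prod_lower {p : ℕ → ℝ} (hp : ∀ n, 0 ≤ p n ∧ p n ≤ 1) {x : ℕ} {δ : ℝ} (hδ : 0 ≤ δ) (hδ1 : δ ≤ 1)
    (h : ∀ y, x ≤ y → p y ≤ δ) :
    (1 - E.card * δ) * ∏ h ∈ D, p (x + h) ≤ prodOn p (sh E x) (sh D x) ∧
      prodOn p (sh E x) (sh D x) ≤ ∏ h ∈ D, p (x + h) := by
  unfold prodOn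
  rw [prod_sh]
  have h0 : 0 ≤ ∏ h ∈ D, p (x + h) := prod_nonneg (fun h _ => (hp _).1)
  have h1 : ∏ n ∈ sh E x \ sh D x, (1 - p n) ≤ 1 :=
    prod_le_one (fun n _ => by linarith [(hp n).2]) (fun n _ => by linarith [(hp n).1])
  have h2 : 1 - (E.card : ℝ) * δ ≤ ∏ n ∈ sh E x \ sh D x, (1 - p n) := by
    have h3 : ∏ n ∈ sh E x \ sh D x, (1 - δ) ≤ ∏ n ∈ sh E x \ sh D x, (1 - p n) := by
      refine prod_le_prod (fun n _ => by linarith) (fun n hn => ?_)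
      obtain ⟨h', _, rfl⟩ := mem_sh.1 (Finset.mem_sdiff.1 hn).1
      linarith [h (x + h') (Nat.le_add_right _ _)]
    refine le_trans ?_ h3
    rw [prod_const]
    have h4 := one_add_mul_le_pow (show (-2 : ℝ) ≤ -δ by linarith) (sh E x \ sh D x).card
    have h5 : ((sh E x \ sh D x).card : ℝ) ≤ E.card := by
      have : (sh E x \ sh D x).card ≤ E.card := (card_le_card Finset.sdiff_subset).trans (sh_card E x).le
      exact_mod_cast this
    have h6 : 1 + ((sh E x \ sh D x).card : ℝ) * -δ ≤ (1 - δ) ^ (sh E x \ sh D x).card := by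
      have h7 : 1 + -δ = 1 - δ := by ring
      rw [h7] at h4
      exact h4
    refine le_trans ?_ h6
    nlinarith
  constructor
  · rw [mul_comm]
    exact mul_le_mul_of_nonneg_left h2 h0
  · nlinarith

/-- The windows `[u n, v n)`. -/
structure Wins (u v : ℕ → ℕ) (θ : ℝ) : Prop where
  pos : 0 < θ
  big : ∀ᶠ n : ℕ in atTop, n ≤ u n
  len : ∀ᶠ n : ℕ in atTop, (u n : ℝ) ^ θ ≤ (v n : ℝ) - u n
  short : ∀ᶠ n : ℕ in atTop, 2 * v n ≤ 3 * u n
  disj : ∀ i j, i ≠ j → Disjoint (Ico (u i) (v i)) (Ico (u j) (v j))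

/-- The weights `(v n - u n) / log ^ r u n`. -/
noncomputable def wt (u v : ℕ → ℕ) (r : ℕ) (n : ℕ) : ℝ := ((v n : ℝ) - u n) / Real.log (u n) ^ r

variable {u v : ℕ → ℕ} {θ : ℝ}

theorem Wins.utend (hw : Wins u v θ) : Tendsto u atTop atTop :=
  tendsto_atTop_mono' atTop hw.big tendsto_id

theorem Wins.ltend (hw : Wins u v θ) : Tendsto (fun n => (v n : ℝ) - u n) atTop atTop := by
  refine tendsto_atTop_mono' atTop hw.len ?_
  exact (tendsto_rpow_atTop hw.pos).comp (tendsto_natCast_atTop_atTop.comp hw.utend)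

theorem Wins.le (hw : Wins u v θ) : ∀ᶠ n : ℕ in atTop, u n + H + 1 ≤ v n := by
  filter_upwards [hw.ltend.eventually_ge_atTop ((H : ℝ) + 1)] with n hn
  have h1 : ((u n + H + 1 : ℕ) : ℝ) ≤ v n := by push_cast; linarith
  exact_mod_cast h1

/-- The weights grow. -/
theorem Wins.wt_ge (hw : Wins u v θ) (r : ℕ) : ∀ᶠ n : ℕ in atTop, 1 ≤ Real.log (u n) ∧ (n : ℝ) ^ (θ / 2) ≤ wt u v r n := by
  have h1 := (isLittleO_log_rpow_rpow_atTop (r : ℝ) (half_pos hw.pos)).bound (show (0 : ℝ) < 1 by norm_num)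
  have h2 := (tendsto_natCast_atTop_atTop.comp hw.utend).eventually h1
  filter_upwards [h2, hw.len, hw.big, hw.utend.eventually_ge_atTop 3, eventually_ge_atTop 1] with n hn hlen hbig h3 hn1
  simp only [Function.comp] at hn
  have hu0 : (0 : ℝ) < u n := by
    have : 0 < u n := by omega
    exact_mod_cast this
  have hlog : 1 ≤ Real.log (u n) := by
    rw [Real.le_log_iff_exp_le hu0]
    have h4 : (3 : ℝ) ≤ u n := by exact_mod_cast h3
    have := Real.exp_one_lt_d9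
    linarith
  refine ⟨hlog, ?_⟩
  rw [Real.rpow_natCast, Real.norm_eq_abs, Real.norm_eq_abs, abs_of_nonneg (by positivity), abs_of_nonneg (by positivity),
    one_mul] at hn
  have hlr : 0 < Real.log (u n) ^ r := by positivity
  unfold wt
  rw [le_div_iff₀ hlr]
  have h5 : (n : ℝ) ^ (θ / 2) ≤ (u n : ℝ) ^ (θ / 2) := by
    apply Real.rpow_le_rpow (by positivity) _ (by linarith [hw.pos])
    exact_mod_cast hbig
  calc (n : ℝ) ^ (θ / 2) * Real.log (u n) ^ r ≤ (u n : ℝ) ^ (θ / 2) * (u n : ℝ) ^ (θ / 2) :=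
        mul_le_mul h5 hn hlr.le (by positivity)
    _ = (u n : ℝ) ^ θ := by rw [← Real.rpow_add hu0]; congr 1; ring
    _ ≤ _ := hlen

theorem Wins.sq_le (hw : Wins u v θ) (r : ℕ) : ∀ᶠ k : ℕ in atTop, ∀ n ∈ block k, (k : ℝ) ^ 2 ≤ wt u v r n := by
  obtain ⟨N, hN⟩ := eventually_atTop.1 (hw.wt_ge r)
  filter_upwards [ev_two 1 2 (show (0 : ℝ) < θ / 2 by linarith [hw.pos]), eventually_ge_atTop N] with k hk hkN n hn
  unfold block at hn
  rw [mem_Ico] at hn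
  have h1 : N ≤ n := by
    have := (Nat.lt_two_pow_self (n := k)).le
    omega
  refine le_trans ?_ (hN n h1).2
  rw [one_mul] at hk
  refine hk.trans ?_
  apply Real.rpow_le_rpow (by positivity) _ (by linarith [hw.pos])
  exact_mod_cast hn.1

theorem Wins.small (hw : Wins u v θ) (hz : Small z) {δ : ℝ} (hδ : 0 < δ) :
    ∀ᶠ n : ℕ in atTop, ∀ y, u n ≤ y → pr z y ≤ δ := by
  obtain ⟨N, hN⟩ := eventually_atTop.1 (pr_tendsto hz hδ)
  filter_upwards [hw.utend.eventually_ge_atTop N] with n hn y hy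
  exact hN y (hn.trans hy)

/-- The expectation of the number of the patterns of type `D`. -/
theorem Wins.EI_near (hw : Wins u v θ) (hS : Tendsto (fun k => Sz D (z k)) atTop (𝓝 σ)) (hz : Small z)
    (hD : ∀ h ∈ D, h ≤ H) {ε : ℝ} (hε : 0 < ε) :
    ∀ᶠ n : ℕ in atTop, |EI (pr z) D (u n) (v n - H) - σ * wt u v D.card n| ≤ ε * wt u v D.card n := by
  have hσ : 0 ≤ σ := ge_of_tendsto' hS (fun k => Sz_nonneg D (z k))
  have h1 := mean_win hS hz hD (show 0 < ε / 4 by linarith) (half_pos hw.pos)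
  filter_upwards [hw.utend.eventually h1, hw.le (H := H), hw.short, hw.len, hw.wt_ge D.card,
    hw.ltend.eventually_ge_atTop (2 * σ * H / ε), hw.utend.eventually_ge_atTop 1] with n hn hle hsh hlen hwt hbig hu1
  have hu0 : (1 : ℝ) ≤ u n := by exact_mod_cast hu1
  have h2 := hn (v n - H) (by omega) (by omega)
  have h3 : ((v n - H : ℕ) : ℝ) = v n - H := by rw [Nat.cast_sub (by omega)]
  rw [h3] at h2
  obtain ⟨L, hL⟩ : ∃ L, L = Real.log (u n) ^ D.card := ⟨_, rfl⟩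
  have hL0 : 0 < L := by rw [hL]; have := hwt.1; positivity
  have hE : wt u v D.card n = ((v n : ℝ) - u n) / L := by unfold wt; rw [hL]
  rw [hE]
  rw [← hL] at h2
  obtain ⟨ℓ, hℓ⟩ : ∃ ℓ, ℓ = (v n : ℝ) - u n := ⟨_, rfl⟩
  rw [← hℓ] at hlen hbig ⊢
  have h4 : (v n : ℝ) - H - u n = ℓ - H := by rw [hℓ]; ring
  rw [h4] at h2
  have h5 : (u n : ℝ) ^ (θ / 2) ≤ ℓ :=
    (Real.rpow_le_rpow_of_exponent_le hu0 (by linarith [hw.pos])).trans hlen
  have hH0 : (0 : ℝ) ≤ H := Nat.cast_nonneg H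
  have h6 : ε / 4 * (ℓ - H + (u n : ℝ) ^ (θ / 2)) / L ≤ ε / 4 * (2 * ℓ) / L := by
    apply div_le_div_of_nonneg_right _ hL0.le
    exact mul_le_mul_of_nonneg_left (by linarith) (by linarith)
  have h7 : σ * H / L ≤ ε / 2 * ℓ / L := by
    apply div_le_div_of_nonneg_right _ hL0.le
    rw [div_le_iff₀ hε] at hbig
    linarith
  have h8 := abs_le.1 (h2.trans h6)
  have h9 : σ * (ℓ - H) / L = σ * (ℓ / L) - σ * H / L := by ring
  have h10 : ε / 4 * (2 * ℓ) / L = ε / 2 * (ℓ / L) := by ring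
  have h11 : ε / 2 * ℓ / L = ε / 2 * (ℓ / L) := by ring
  have h12 : 0 ≤ σ * H / L := by positivity
  rw [h9, h10] at h8
  rw [h11] at h7
  rw [abs_le]
  constructor
  · linarith
  · linarith

/-- The expectation of the number of the patterns. -/
theorem Wins.mean_near (hw : Wins u v θ) (hS : Tendsto (fun k => Sz D (z k)) atTop (𝓝 σ)) (hz : Small z)
    (hDE : D ⊆ E) (hE : ∀ h ∈ E, h ≤ H) {ε : ℝ} (hε : 0 < ε) :
    ∀ᶠ n : ℕ in atTop, |mean (pr z) (Ico (u n) (v n - H)) (sh E) (sh D) - σ * wt u v D.card n| ≤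
      ε * wt u v D.card n := by
  have hσ : 0 ≤ σ := ge_of_tendsto' hS (fun k => Sz_nonneg D (z k))
  have hp : ∀ n, 0 ≤ pr z n ∧ pr z n ≤ 1 := fun n => ⟨pr_nonneg z n, pr_le_one z n⟩
  obtain ⟨δ, hδd⟩ : ∃ δ : ℝ, δ = min 1 (ε / (2 * ((E.card : ℝ) + 1) * (σ + ε))) := ⟨_, rfl⟩
  have hδ0 : 0 < δ := by rw [hδd]; exact lt_min one_pos (by positivity)
  have hδ1 : δ ≤ 1 := by rw [hδd]; exact min_le_left _ _
  have hδ2 : (E.card : ℝ) * δ * (σ + ε) ≤ ε / 2 := by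
    have h1 : δ ≤ ε / (2 * ((E.card : ℝ) + 1) * (σ + ε)) := by rw [hδd]; exact min_le_right _ _
    rw [le_div_iff₀ (by positivity)] at h1
    have h2 : 0 ≤ δ * (σ + ε) := by positivity
    nlinarith
  filter_upwards [hw.EI_near hS hz (fun h hh => hE h (hDE hh)) (show 0 < ε / 2 by linarith), hw.small hz hδ0, hw.wt_ge D.card]
    with n hn hsm hwt
  have hw0 : 0 ≤ wt u v D.card n := le_trans (by positivity) hwt.2
  have h1 : ∀ x ∈ Ico (u n) (v n - H), (1 - E.card * δ) * ∏ h ∈ D, pr z (x + h) ≤ prodOn (pr z) (sh E x) (sh D x) ∧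
      prodOn (pr z) (sh E x) (sh D x) ≤ ∏ h ∈ D, pr z (x + h) := by
    intro x hx
    rw [mem_Ico] at hx
    exact prod_lower hp hδ0.le hδ1 (fun y hy => hsm y (hx.1.trans hy))
  have h2 : mean (pr z) (Ico (u n) (v n - H)) (sh E) (sh D) ≤ EI (pr z) D (u n) (v n - H) := by
    unfold mean EI
    exact sum_le_sum (fun x hx => (h1 x hx).2)
  have h3 : (1 - E.card * δ) * EI (pr z) D (u n) (v n - H) ≤ mean (pr z) (Ico (u n) (v n - H)) (sh E) (sh D) := by
    unfold mean EI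
    rw [mul_sum]
    exact sum_le_sum (fun x hx => (h1 x hx).1)
  have h4 := abs_le.1 hn
  obtain ⟨e, he⟩ : ∃ e, e = wt u v D.card n := ⟨_, rfl⟩
  rw [← he] at h4 hw0 ⊢
  obtain ⟨X, hX⟩ : ∃ X, X = EI (pr z) D (u n) (v n - H) := ⟨_, rfl⟩
  rw [← hX] at h2 h3 h4
  have hX1 : X ≤ (σ + ε) * e := by nlinarith
  have hX0 : 0 ≤ X := by rw [hX]; exact EI_nonneg hp D _ _
  have h5 : (E.card : ℝ) * δ * X ≤ ε / 2 * e := by
    calc (E.card : ℝ) * δ * X ≤ (E.card : ℝ) * δ * ((σ + ε) * e) := mul_le_mul_of_nonneg_left hX1 (by positivity)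
      _ = (E.card : ℝ) * δ * (σ + ε) * e := by ring
      _ ≤ ε / 2 * e := mul_le_mul_of_nonneg_right hδ2 hw0
  rw [abs_le]
  constructor
  · nlinarith
  · linarith

/-- F1: deviations in one window. -/
theorem Wins.dev (hw : Wins u v θ) (hS : Tendsto (fun k => Sz D (z k)) atTop (𝓝 σ)) (hz : Small z)
    (hDE : D ⊆ E) (hE : ∀ h ∈ E, h ≤ H) (hσ : 0 < σ) {ε : ℝ} (hε : 0 < ε) :
    ∃ c : ℝ, 0 < c ∧ ∀ᶠ n : ℕ in atTop, PP (pr z) (Ico (u n) (v n))
      (fun T => ε * (σ * wt u v D.card n) ≤ |(pat D E H (u n) (v n) ((T : Finset ℕ) : Set ℕ) : ℝ) - σ * wt u v D.card n|) ≤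
        2 * ((H + 1 : ℕ) : ℝ) * Real.exp (-(c * wt u v D.card n)) := by
  obtain ⟨δ, hδ⟩ : ∃ δ : ℝ, δ = ε * σ / 2 := ⟨_, rfl⟩
  have hδ0 : 0 < δ := by rw [hδ]; positivity
  have hp : ∀ n, 0 ≤ pr z n ∧ pr z n ≤ 1 := fun n => ⟨pr_nonneg z n, pr_le_one z n⟩
  refine ⟨δ ^ 2 / (4 * ((H + 1 : ℕ) : ℝ) ^ 2 * (σ + 2 * δ)), by positivity, ?_⟩
  filter_upwards [hw.mean_near hS hz hDE hE hδ0, hw.wt_ge D.card, eventually_ge_atTop 1] with n hn hwt hn1
  have hw0 : 0 < wt u v D.card n := lt_of_lt_of_le (by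
    have : (0 : ℝ) < n := by exact_mod_cast hn1
    positivity) hwt.2
  have h1 := win_dev hp (W := Ico (u n) (v n)) (J := Ico (u n) (v n - H)) (s := sh E) (f := sh D)
    (fun x hx => sh_sub hE hx) (fun x _ => sh_mono hDE x) (κ := H + 1) (fun x => x % (H + 1)) (by omega)
    (fun x _ => Nat.mod_lt _ (by omega)) (fun x _ y _ hxy hc => sh_disjoint hE hxy hc) hσ hδ0 hn hw0
  refine le_trans (le_of_eq ?_) h1
  refine PP_congr (fun T _ => ?_)
  unfold pat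
  have h2 : 2 * δ * wt u v D.card n = ε * (σ * wt u v D.card n) := by rw [hδ]; ring
  rw [h2]

/-- F2: a window without the patterns of type `D`. -/
theorem Wins.void (hw : Wins u v θ) (hS : Tendsto (fun k => Sz D (z k)) atTop (𝓝 σ)) (hz : Small z)
    (hD : ∀ h ∈ D, h ≤ H) (hne : D.Nonempty) :
    ∀ᶠ n : ℕ in atTop, Real.exp (-(2 * (σ + 1) * wt u v D.card n)) ≤ PP (pr z) (Ico (u n) (v n))
      (fun T => ∀ x ∈ Ico (u n) (v n - H), ¬ sh D x ⊆ T) := by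
  have hp : ∀ n, 0 ≤ pr z n ∧ pr z n ≤ 1 := fun n => ⟨pr_nonneg z n, pr_le_one z n⟩
  filter_upwards [hw.EI_near hS hz hD one_pos, hw.small hz (show (0 : ℝ) < 1 / 2 by norm_num)] with n hn hsm
  have h1 := win_void hp (W := Ico (u n) (v n)) (J := Ico (u n) (v n - H)) (f := sh D) (fun x hx => sh_sub hD hx)
    (fun x hx => by
      rw [mem_Ico] at hx
      obtain ⟨h0, hh0⟩ := hne
      rw [prod_sh, ← mul_prod_erase D (fun h => pr z (x + h)) hh0]
      have h2 : ∏ h ∈ D.erase h0, pr z (x + h) ≤ 1 := prod_le_one (fun _ _ => (hp _).1) (fun _ _ => (hp _).2)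
      have h3 : 0 ≤ ∏ h ∈ D.erase h0, pr z (x + h) := prod_nonneg (fun _ _ => (hp _).1)
      have h4 := hsm (x + h0) (by omega)
      have h5 := (hp (x + h0)).1
      nlinarith)
  refine le_trans (Real.exp_le_exp.2 ?_) h1
  have h2 : ∑ x ∈ Ico (u n) (v n - H), ∏ y ∈ sh D x, pr z y = EI (pr z) D (u n) (v n - H) := by
    unfold EI
    exact sum_congr rfl (fun x _ => prod_sh _ _ _)
  rw [h2]
  have h3 := (abs_le.1 hn).2
  nlinarith

theorem pat_zero {a b : ℕ} {S : Set ℕ} (hDE : D ⊆ E) (h : ∀ x ∈ Ico a (b - H), ∃ y ∈ sh D x, y ∉ S) :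
    pat D E H a b S = 0 := by
  classical
  unfold pat cnt
  rw [card_eq_zero, filter_eq_empty_iff]
  intro x hx hcon
  obtain ⟨y, hy, hyS⟩ := h x hx
  exact hyS ((hcon y (sh_mono hDE x hy)).2 hy)

end

end Pool.Agent.Q197.WN
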