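import Pool.Agent.Q197.WN.AndrD

/-!
# The real numbers `x` for which `(x, x + c√x)` misses a set
-/

set_option autoImplicit false

namespace Pool.Agent.Q197.WN

open Finset MeasureTheory Filter Pool.Agent.Q120.TT Pool.Agent.Q120.ET Pool.Agent.Q120.GM
  Pool.Agent.Q120.CL
open scoped Topology

/-- The real `x` whose window `(x, x + c√x)` lies in the block and misses `S`. -/
def Bad (c : ℝ) (k : ℕ) (S : Set ℕ) : Set ℝ :=
  {x | 4 ^ k ≤ x ∧ x + c * √x ≤ 4 ^ (k + 1) ∧ ∀ n ∈ S, ¬ (x < (n : ℝ) ∧ (n : ℝ) < x + c * √x)}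

theorem consec_sep {S : Set ℕ} {g g' : ℕ × ℕ} (h : Consec S g) (h' : Consec S g') (hne : g ≠ g') :
    g.2 ≤ g'.1 ∨ g'.2 ≤ g.1 := by
  by_contra hcon
  rw [not_or, not_le, not_le] at hcon
  obtain ⟨h1, h2, h3, h4⟩ := h
  obtain ⟨h1', h2', h3', h4'⟩ := h'
  apply hne
  have e1 : g.1 = g'.1 := by
    rcases lt_trichotomy g.1 g'.1 with h5 | h5 | h5
    · exact absurd h1' (h4 _ h5 hcon.1)
    · exact h5
    · exact absurd h1 (h4' _ h5 hcon.2)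
  have e2 : g.2 = g'.2 := by
    rcases lt_trichotomy g.2 g'.2 with h5 | h5 | h5
    · exact absurd h2 (h4' _ (by omega) h5)
    · exact h5
    · exact absurd h2' (h4 _ (by omega) h5)
  exact Prod.ext e1 e2

theorem btw_sub' {s k a b : ℕ} (ha : 4 ^ k ≤ a) (hb : b ≤ 4 ^ (k + 1)) : btw s a b ⊆ block (k + s) := by
  intro j hj
  unfold btw at hj
  unfold block
  rw [mem_Ico] at hj ⊢
  constructor
  · have h1 : 2 ^ (k + s) ≤ Nat.sqrt (4 ^ s * a) := by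
      rw [Nat.le_sqrt']
      calc (2 ^ (k + s)) ^ 2 = 4 ^ s * 4 ^ k := by
            rw [← pow_mul, mul_comm, pow_mul, ← pow_add, add_comm]
            norm_num
        _ ≤ 4 ^ s * a := Nat.mul_le_mul_left _ ha
    omega
  · have h1 : Nat.sqrt (4 ^ s * b) < 2 ^ (k + s + 1) + 1 := by
      rw [Nat.sqrt_lt']
      calc 4 ^ s * b ≤ 4 ^ s * 4 ^ (k + 1) := Nat.mul_le_mul_left _ hb
        _ = (2 ^ (k + s + 1)) ^ 2 := by rw [← pow_add, ← pow_mul, mul_comm (k + s + 1) 2, pow_mul]; congr 1; ring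
        _ < (2 ^ (k + s + 1) + 1) ^ 2 := Nat.pow_lt_pow_left (by omega) (by norm_num)
    omega

theorem holes_gen {θ : ℝ} (hθ : 0 < θ) (s k : ℕ) (T : Finset ℕ) (G : Finset (ℕ × ℕ))
    (h1 : ∀ g ∈ G, 4 ^ k ≤ g.1 ∧ g.2 ≤ 4 ^ (k + 1)) (h2 : ∀ g ∈ G, θ ≤ √(g.2 : ℝ) - √(g.1 : ℝ))
    (h3 : ∀ g ∈ G, ∀ x ∈ T, ¬ (g.1 < x ∧ x < g.2)) (h4 : ∀ g ∈ G, ∀ g' ∈ G, g ≠ g' → g.2 ≤ g'.1 ∨ g'.2 ≤ g.1) :
    (∑ g ∈ G, ((g.2 : ℝ) - g.1)) * (1 - 2 / (θ * 2 ^ s)) - 2 * G.card ≤ hol s k T := by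
  classical
  have h5 : G.biUnion (fun g => btw s g.1 g.2) ⊆ (block (k + s)).filter (fun j => T ∩ cell s j = ∅) := by
    intro j hj
    rw [mem_biUnion] at hj
    obtain ⟨g, hg, hj⟩ := hj
    rw [mem_filter]
    refine ⟨btw_sub' (h1 g hg).1 (h1 g hg).2 hj, ?_⟩
    rw [eq_empty_iff_forall_notMem]
    intro x hx
    rw [mem_inter] at hx
    exact h3 g hg x hx.1 (btw_mem hj hx.2)
  have h6 : ∑ j ∈ G.biUnion (fun g => btw s g.1 g.2), len s j ≤ hol s k T := by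
    unfold hol
    refine (sum_le_sum_of_subset_of_nonneg h5 (fun j _ _ => len_nonneg s j)).trans (le_of_eq ?_)
    exact sum_congr (by ext j; simp only [mem_filter]) (fun _ _ => rfl)
  refine le_trans ?_ h6
  rw [sum_biUnion]
  · rw [sum_mul, ← nsmul_eq_mul', ← sum_const, ← sum_sub_distrib]
    apply sum_le_sum
    intro g hg
    have h3 := btw_len s g.1 g.2
    have h4 := sqrt_sub (Nat.cast_nonneg g.1) (Nat.cast_nonneg (α := ℝ) g.2)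
    have h5 : 0 ≤ √(g.2 : ℝ) + √(g.1 : ℝ) := by positivity
    have h6 : √(g.1 : ℝ) + √(g.2 : ℝ) ≤ ((g.2 : ℝ) - g.1) / θ := by
      rw [le_div_iff₀ hθ, h4]
      nlinarith [h2 g hg]
    have h7 : 2 * (√(g.1 : ℝ) + √(g.2 : ℝ)) / 2 ^ s ≤ 2 * (((g.2 : ℝ) - g.1) / θ) / 2 ^ s :=
      div_le_div_of_nonneg_right (by linarith) (by positivity)
    have h8 : ((g.2 : ℝ) - g.1) * (1 - 2 / (θ * 2 ^ s)) = ((g.2 : ℝ) - g.1) - 2 * (((g.2 : ℝ) - g.1) / θ) / 2 ^ s := by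
      field_simp
    rw [h8]
    linarith
  · intro g hg g' hg' hne
    simp only [Function.onFun]
    rcases h4 g (by exact_mod_cast hg) g' (by exact_mod_cast hg') hne with h | h
    · exact btw_disj h
    · exact (btw_disj h).symm

open Classical in
/-- The long gaps of `T` in the block, its end points added. -/
noncomputable def gps (c : ℝ) (k : ℕ) (T : Finset ℕ) : Finset (ℕ × ℕ) :=
  (Icc (4 ^ k) (4 ^ (k + 1)) ×ˢ Icc (4 ^ k) (4 ^ (k + 1))).filter (fun g =>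
    Consec ((T ∪ {4 ^ k, 4 ^ (k + 1)} : Finset ℕ) : Set ℕ) g ∧ c * 2 ^ k ≤ (g.2 : ℝ) - g.1)

theorem mem_gps {c : ℝ} {k : ℕ} {T : Finset ℕ} {g : ℕ × ℕ} : g ∈ gps c k T ↔
    ((4 ^ k ≤ g.1 ∧ g.1 ≤ 4 ^ (k + 1)) ∧ (4 ^ k ≤ g.2 ∧ g.2 ≤ 4 ^ (k + 1))) ∧
      Consec ((T ∪ {4 ^ k, 4 ^ (k + 1)} : Finset ℕ) : Set ℕ) g ∧ c * 2 ^ k ≤ (g.2 : ℝ) - g.1 := by
  classical
  unfold gps
  rw [mem_filter, mem_product, mem_Icc, mem_Icc]

theorem bad_sub {c : ℝ} (hc : 0 < c) {k : ℕ} {T : Finset ℕ} (x : ℝ) (hx : x ∈ Bad c k ((T : Finset ℕ) : Set ℕ)) :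
    ∃ g ∈ gps c k T, x ∈ Set.Icc (g.1 : ℝ) ((g.2 : ℝ) - c * 2 ^ k) := by
  classical
  obtain ⟨h1, h2, h3⟩ := hx
  have hx0 : 0 < x := lt_of_lt_of_le (by positivity) h1
  have hsx : 2 ^ k ≤ √x := by
    apply Real.le_sqrt_of_sq_le
    rw [← pow_mul, mul_comm, pow_mul]
    norm_num
    exact h1
  have hcx : c * 2 ^ k ≤ c * √x := mul_le_mul_of_nonneg_left hsx hc.le
  have hcp : 0 < c * √x := mul_pos hc (Real.sqrt_pos.2 hx0)
  obtain ⟨U, hU⟩ : ∃ U : Finset ℕ, U = T ∪ {4 ^ k, 4 ^ (k + 1)} := ⟨_, rfl⟩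
  have hU1 : 4 ^ k ∈ U := by rw [hU]; simp
  have hU2 : 4 ^ (k + 1) ∈ U := by rw [hU]; simp
  have hfl : 4 ^ k ≤ ⌊x⌋₊ := by
    rw [Nat.le_floor_iff hx0.le]
    push_cast
    exact h1
  have hfl2 : ⌊x⌋₊ < 4 ^ (k + 1) := by
    rw [Nat.floor_lt hx0.le]
    push_cast
    linarith
  have ha : (U.filter (fun n => n ≤ ⌊x⌋₊)).Nonempty := ⟨4 ^ k, mem_filter.2 ⟨hU1, hfl⟩⟩
  have hb : (U.filter (fun n => ⌊x⌋₊ < n)).Nonempty := ⟨4 ^ (k + 1), mem_filter.2 ⟨hU2, hfl2⟩⟩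
  obtain ⟨a, ha'⟩ : ∃ a, a = (U.filter (fun n => n ≤ ⌊x⌋₊)).max' ha := ⟨_, rfl⟩
  obtain ⟨b, hb'⟩ : ∃ b, b = (U.filter (fun n => ⌊x⌋₊ < n)).min' hb := ⟨_, rfl⟩
  have ha1 : a ∈ U.filter (fun n => n ≤ ⌊x⌋₊) := by rw [ha']; exact max'_mem _ _
  have hb1 : b ∈ U.filter (fun n => ⌊x⌋₊ < n) := by rw [hb']; exact min'_mem _ _
  rw [mem_filter] at ha1 hb1
  have ha2 : ∀ y ∈ U, y ≤ ⌊x⌋₊ → y ≤ a := fun y hy hy' => by rw [ha']; exact le_max' _ y (mem_filter.2 ⟨hy, hy'⟩)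
  have hb2 : ∀ y ∈ U, ⌊x⌋₊ < y → b ≤ y := fun y hy hy' => by rw [hb']; exact min'_le _ y (mem_filter.2 ⟨hy, hy'⟩)
  have ha3 : (a : ℝ) ≤ x := (Nat.le_floor_iff hx0.le).1 ha1.2
  have hb3 : x < b := (Nat.floor_lt hx0.le).1 hb1.2
  have hb4 : x + c * √x ≤ b := by
    have h4 := hb1.1
    rw [hU, mem_union, mem_insert, mem_singleton] at h4
    rcases h4 with h4 | h4 | h4
    · by_contra hcon
      exact h3 b (by exact_mod_cast h4) ⟨hb3, not_le.1 hcon⟩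
    · exfalso
      have : (b : ℝ) = 4 ^ k := by rw [h4]; push_cast; rfl
      linarith
    · have : (b : ℝ) = 4 ^ (k + 1) := by rw [h4]; push_cast; rfl
      linarith
  have ha4 := ha2 _ hU1 hfl
  have hb5 := hb2 _ hU2 hfl2
  have hab : a < b := by
    have : (a : ℝ) < b := by linarith
    exact_mod_cast this
  refine ⟨(a, b), mem_gps.2 ⟨⟨⟨ha4, by simp only; omega⟩, ⟨by simp only; omega, hb5⟩⟩, ?_, ?_⟩, ⟨ha3, ?_⟩⟩
  · rw [← hU]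
    refine ⟨by exact_mod_cast ha1.1, by exact_mod_cast hb1.1, hab, fun y hy1 hy2 hyU => ?_⟩
    have hyU' : y ∈ U := by exact_mod_cast hyU
    simp only at hy1 hy2
    by_cases h5 : y ≤ ⌊x⌋₊
    · have := ha2 y hyU' h5
      omega
    · have := hb2 y hyU' (by omega)
      omega
  · simp only
    linarith
  · simp only
    linarith

theorem bad_vol {c : ℝ} (hc : 0 < c) {k : ℕ} {T : Finset ℕ} (hne : (Bad c k ((T : Finset ℕ) : Set ℕ)).Nonempty) :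
    volume.real (Bad c k ((T : Finset ℕ) : Set ℕ)) + c * 2 ^ k ≤ ∑ g ∈ gps c k T, ((g.2 : ℝ) - g.1) ∧
      (gps c k T).card * (c * 2 ^ k) ≤ ∑ g ∈ gps c k T, ((g.2 : ℝ) - g.1) := by
  have hX : 0 < c * 2 ^ k := by positivity
  have h1 : Bad c k ((T : Finset ℕ) : Set ℕ) ⊆ ⋃ g ∈ gps c k T, Set.Icc (g.1 : ℝ) ((g.2 : ℝ) - c * 2 ^ k) := by
    intro x hx
    obtain ⟨g, hg, hx⟩ := bad_sub hc x hx
    exact Set.mem_iUnion₂.2 ⟨g, hg, hx⟩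
  have h2 : volume.real (Bad c k ((T : Finset ℕ) : Set ℕ)) ≤ ∑ g ∈ gps c k T, ((g.2 : ℝ) - g.1 - c * 2 ^ k) := by
    refine (measureReal_mono h1 ?_).trans ((measureReal_biUnion_finset_le _ _).trans (le_of_eq (sum_congr rfl (fun g hg => ?_))))
    · refine ne_of_lt (lt_of_le_of_lt (measure_biUnion_finset_le _ _) ?_)
      rw [ENNReal.sum_lt_top]
      intro g _
      exact measure_Icc_lt_top
    · have h3 := (mem_gps.1 hg).2.2
      rw [Real.volume_real_Icc_of_le (by linarith)]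
      ring
  have h3 : 1 ≤ (gps c k T).card := by
    obtain ⟨x, hx⟩ := hne
    obtain ⟨g, hg, _⟩ := bad_sub hc x hx
    exact card_pos.2 ⟨g, hg⟩
  have h4 : (1 : ℝ) ≤ (gps c k T).card := by exact_mod_cast h3
  rw [sum_sub_distrib, sum_const, nsmul_eq_mul] at h2
  constructor
  · nlinarith
  · rw [← nsmul_eq_mul, ← sum_const]
    exact sum_le_sum (fun g hg => (mem_gps.1 hg).2.2)

end Pool.Agent.Q197.WN
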