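import Pool.Agent.Q197.WN.Sch

/-!
# The measure of the real `x` for which `(x, x + c√x)` misses a random set
-/

set_option autoImplicit false

namespace Pool.Agent.Q197.WN

open Finset MeasureTheory Filter Pool.Agent.Q120.TT Pool.Agent.Q120.ET Pool.Agent.Q120.GM
  Pool.Agent.Q120.CL
open scoped Topology

/-- Some window misses the set and the measure of these windows is at least `m`. -/
def Miss (c : ℝ) (k : ℕ) (m : ℝ) (S : Set ℕ) : Prop := (Bad c k S).Nonempty ∧ m ≤ volume.real (Bad c k S)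

theorem four_pow (k : ℕ) : (4 : ℝ) ^ k = (2 ^ k) ^ 2 := by
  rw [← pow_mul, mul_comm, pow_mul]
  norm_num

theorem gps_sqrt {c : ℝ} {k : ℕ} {T : Finset ℕ} {g : ℕ × ℕ} (hg : g ∈ gps c k T) :
    c / 4 ≤ √(g.2 : ℝ) - √(g.1 : ℝ) := by
  obtain ⟨⟨h1, h2⟩, h3, h4⟩ := mem_gps.1 hg
  have hX : (0 : ℝ) < 2 ^ k := by positivity
  have h5 : ∀ n : ℕ, n ≤ 4 ^ (k + 1) → √(n : ℝ) ≤ 2 * 2 ^ k := by
    intro n hn
    rw [Real.sqrt_le_left (by positivity), mul_pow, ← four_pow]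
    have : (n : ℝ) ≤ 4 ^ (k + 1) := by exact_mod_cast hn
    rw [pow_succ] at this
    linarith
  have h6 := h5 _ h1.2
  have h7 := h5 _ h2.2
  have h8 := sqrt_sub (Nat.cast_nonneg g.1) (Nat.cast_nonneg (α := ℝ) g.2)
  have h9 : (0 : ℝ) < (g.2 : ℝ) - g.1 := by
    have : (g.1 : ℝ) < g.2 := by exact_mod_cast h3.2.2.1
    linarith
  have h10 : 0 ≤ √(g.2 : ℝ) + √(g.1 : ℝ) := by positivity
  by_contra hcon
  rw [not_le] at hcon
  have h11 : 0 < √(g.2 : ℝ) - √(g.1 : ℝ) := by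
    by_contra h12
    rw [not_lt] at h12
    nlinarith
  nlinarith

theorem sch_up {z : ℕ → ℕ} (hz : Small z) {c ε : ℝ} (hc : 0 < c) (hε : 0 < ε) : ∀ᶠ k : ℕ in atTop, ∀ m : ℝ, 0 ≤ m →
    PP (pr z) (Bk k) (fun T => Miss c k m ((T : Finset ℕ) : Set ℕ)) ≤
      Real.exp (-((1 - ε) * ((m + c * 2 ^ k) / (2 * k * Real.log 2)))) := by
  have hp : ∀ n, 0 ≤ pr z n ∧ pr z n ≤ 1 := fun n => ⟨pr_nonneg z n, pr_le_one z n⟩
  obtain ⟨δ, hδ⟩ : ∃ δ : ℝ, δ = min ε 1 / 4 := ⟨_, rfl⟩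
  have hδ0 : 0 < δ := by rw [hδ]; exact div_pos (lt_min hε one_pos) (by norm_num)
  have hδ1 : 4 * δ ≤ ε := by rw [hδ]; have := min_le_left ε 1; linarith
  have hδ2 : 4 * δ ≤ 1 := by rw [hδ]; have := min_le_right ε 1; linarith
  have hl2 : 0 < Real.log 2 := Real.log_pos (by norm_num)
  obtain ⟨s, hs⟩ : ∃ s : ℕ, 2 / (c / 4 * δ) < 2 ^ s := pow_unbounded_of_one_lt _ (by norm_num)
  have hs1 : 2 / (c / 4 * 2 ^ s) ≤ δ := by
    rw [div_lt_iff₀ (by positivity)] at hs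
    rw [div_le_iff₀ (by positivity)]
    nlinarith
  have hlim : Tendsto (fun k : ℕ => (2 : ℝ) ^ k) atTop atTop := tendsto_pow_atTop_atTop_of_one_lt (by norm_num)
  filter_upwards [cells_up hz s hδ0 (show 0 < c / 2 by positivity), hlim.eventually_ge_atTop (2 / (c * δ)),
    eventually_ge_atTop 1] with k hk hk2 hk1 m hm
  have hX : (0 : ℝ) < 2 ^ k := by positivity
  obtain ⟨L, hL⟩ : ∃ L : ℝ, L = m + c * 2 ^ k := ⟨_, rfl⟩
  rw [← hL]
  have hL0 : 0 < L := by rw [hL]; positivity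
  have hK0 : 0 < 2 * (k : ℝ) * Real.log 2 := by
    have : (1 : ℝ) ≤ k := by exact_mod_cast hk1
    positivity
  have hC : c / 2 * 2 ^ k ≤ (1 - 2 * δ) * L := by
    have h1 : (1 / 2) * L ≤ (1 - 2 * δ) * L := mul_le_mul_of_nonneg_right (by linarith) hL0.le
    have h2 : c * 2 ^ k ≤ L := by rw [hL]; linarith
    linarith
  refine (PP_mono hp (fun T _ hT => ?_)).trans ((hk _ hC).trans ?_)
  · obtain ⟨hT1, hT2⟩ := hT
    obtain ⟨h1, h2⟩ := bad_vol hc hT1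
    have h3 := holes_gen (show 0 < c / 4 by positivity) s k T (gps c k T)
      (fun g hg => ⟨(mem_gps.1 hg).1.1.1, (mem_gps.1 hg).1.2.2⟩) (fun g hg => gps_sqrt hg)
      (fun g hg x hx h => (mem_gps.1 hg).2.1.2.2.2 x h.1 h.2 (by
        rw [mem_coe, mem_union]
        exact Or.inl hx)) (fun g hg g' hg' hne => consec_sep (mem_gps.1 hg).2.1 (mem_gps.1 hg').2.1 hne)
    refine le_trans ?_ h3
    obtain ⟨t, ht⟩ : ∃ t : ℝ, t = ∑ g ∈ gps c k T, ((g.2 : ℝ) - g.1) := ⟨_, rfl⟩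
    obtain ⟨n, hn⟩ : ∃ n : ℝ, n = (gps c k T).card := ⟨_, rfl⟩
    rw [← ht, ← hn] at h2 ⊢
    rw [← ht] at h1
    have ht1 : L ≤ t := by rw [hL]; linarith
    have ht0 : 0 ≤ t := hL0.le.trans ht1
    have h4 : 2 * n ≤ δ * t := by
      rw [div_le_iff₀ (by positivity)] at hk2
      have hn0 : 0 ≤ n := by rw [hn]; exact Nat.cast_nonneg _
      have h5 : δ * (n * (c * 2 ^ k)) ≤ δ * t := mul_le_mul_of_nonneg_left h2 hδ0.le
      have h6 : n * 2 ≤ n * (2 ^ k * (c * δ)) := mul_le_mul_of_nonneg_left hk2 hn0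
      nlinarith
    have h5 : t * (1 - δ) ≤ t * (1 - 2 / (c / 4 * 2 ^ s)) := mul_le_mul_of_nonneg_left (by linarith) ht0
    have h6 : (1 - 2 * δ) * L ≤ (1 - 2 * δ) * t := mul_le_mul_of_nonneg_left ht1 (by linarith)
    linarith
  · apply Real.exp_le_exp.2
    have h1 : 0 ≤ L / (2 * (k : ℝ) * Real.log 2) := by positivity
    have h2 : (1 - 2 * δ) * L / (2 * (k : ℝ) * Real.log 2) = (1 - 2 * δ) * (L / (2 * (k : ℝ) * Real.log 2)) := by ring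
    rw [h2]
    obtain ⟨Q, hQ⟩ : ∃ Q : ℝ, Q = L / (2 * (k : ℝ) * Real.log 2) := ⟨_, rfl⟩
    rw [← hQ] at h1 ⊢
    have h3 : (1 - ε) * Q ≤ ((1 - δ) * (1 - 2 * δ)) * Q := by
      apply mul_le_mul_of_nonneg_right _ h1
      nlinarith
    linarith

theorem bad_bdd (c : ℝ) (hc : 0 ≤ c) (k : ℕ) (S : Set ℕ) : Bad c k S ⊆ Set.Icc (4 ^ k : ℝ) (4 ^ (k + 1)) := by
  intro x hx
  refine ⟨hx.1, le_trans ?_ hx.2.1⟩
  have : 0 ≤ c * √x := mul_nonneg hc (Real.sqrt_nonneg _)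
  linarith

/-- An empty interval of integers. -/
theorem run_bad {c : ℝ} (hc : 0 < c) {k u v : ℕ} {S : Set ℕ} (hu : 4 ^ k ≤ u) (hv : v ≤ 4 ^ (k + 1))
    (hS : ∀ n ∈ S, ¬ (u ≤ n ∧ n < v)) {m : ℝ} (hm : 0 ≤ m) (h : m + c * √(v : ℝ) ≤ (v : ℝ) - u) : Miss c k m S := by
  have hu' : (4 : ℝ) ^ k ≤ u := by exact_mod_cast hu
  have hv' : (v : ℝ) ≤ 4 ^ (k + 1) := by exact_mod_cast hv
  have h0 : 0 ≤ c * √(v : ℝ) := by positivity
  have hsub : Set.Icc (u : ℝ) ((v : ℝ) - c * √(v : ℝ)) ⊆ Bad c k S := by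
    intro x hx
    have hx1 : √x ≤ √(v : ℝ) := Real.sqrt_le_sqrt (by linarith [hx.2])
    have hx2 : c * √x ≤ c * √(v : ℝ) := mul_le_mul_of_nonneg_left hx1 hc.le
    refine ⟨hu'.trans hx.1, by linarith [hx.2], fun n hn hn' => hS n hn ⟨?_, ?_⟩⟩
    · have : (u : ℝ) < n := lt_of_le_of_lt hx.1 hn'.1
      exact_mod_cast this.le
    · have : (n : ℝ) < v := by linarith [hn'.2, hx.2]
      exact_mod_cast this
  refine ⟨⟨u, hsub ⟨le_rfl, by linarith⟩⟩, ?_⟩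
  have h1 := measureReal_mono (μ := volume) hsub (ne_of_lt (lt_of_le_of_lt (measure_mono (bad_bdd c hc.le k S)) measure_Icc_lt_top))
  rw [Real.volume_real_Icc_of_le (by linarith)] at h1
  linarith

end Pool.Agent.Q197.WN
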