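import Pool.Agent.Q197.WN.SchB

/-!
# One long empty run: the lower bound
-/

set_option autoImplicit false

namespace Pool.Agent.Q197.WN

open Finset MeasureTheory Filter Pool.Agent.Q120.TT Pool.Agent.Q120.ET Pool.Agent.Q120.GM
  Pool.Agent.Q120.CL
open scoped Topology

theorem cell_index {s j x : ℕ} : cl s j ≤ x ↔ j ≤ Nat.sqrt (4 ^ s * x) := by
  rw [cl_le, Nat.le_sqrt']

/-- A run of cells of a given length. -/
theorem run_length {c ε : ℝ} (hc : 0 < c) (hε : 0 < ε) (hε1 : ε < 1) : ∃ s : ℕ, ∀ᶠ k : ℕ in atTop, ∀ m : ℝ, 0 ≤ m →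
    m ≤ (1 - 2 * ε) * (3 * 4 ^ k) → ∃ g : ℕ, 1 * (g + 1) + 1 ≤ 2 ^ (k + s) ∧
      (1 + ε) * (m + c * 2 ^ k) ≤ (cl s (2 ^ (k + s) + (g + 1)) : ℝ) - cl s (2 ^ (k + s) + 1) ∧
      (cl s (2 ^ (k + s) + (g + 1)) : ℝ) - cl s (2 ^ (k + s) + 1) ≤ (1 + ε) * ((1 + ε) * (m + c * 2 ^ k)) := by
  obtain ⟨s, hs⟩ : ∃ s : ℕ, 8 / (ε * c) < 2 ^ s := pow_unbounded_of_one_lt _ (by norm_num)
  have hlim : Tendsto (fun k : ℕ => (2 : ℝ) ^ k) atTop atTop := tendsto_pow_atTop_atTop_of_one_lt (by norm_num)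
  refine ⟨s, ?_⟩
  filter_upwards [hlim.eventually_ge_atTop (2 / (ε * c)), hlim.eventually_ge_atTop ((2 * c + 8) / ε),
    hlim.eventually_ge_atTop 2] with k hk1 hk2 hk3 m hm0 hm
  obtain ⟨X, hX⟩ : ∃ X : ℝ, X = 2 ^ k := ⟨_, rfl⟩
  obtain ⟨w, hw⟩ : ∃ w : ℝ, w = 2 ^ s := ⟨_, rfl⟩
  have hw1 : 1 ≤ w := by rw [hw]; exact one_le_pow₀ (by norm_num)
  rw [← hX] at hk1 hk2 hk3 ⊢
  rw [four_pow, ← hX] at hm
  rw [← hw] at hs
  have hw4 : (4 : ℝ) ^ s = w ^ 2 := by rw [hw, ← four_pow]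
  obtain ⟨A, hA⟩ : ∃ A, A = 2 ^ (k + s) := ⟨_, rfl⟩
  rw [← hA]
  have hAr : (A : ℝ) = X * w := by rw [hA, hX, hw, ← pow_add]; push_cast; rfl
  have hA2 : 2 ≤ A := by
    have h1 : (2 : ℝ) ≤ A := by
      rw [hAr]
      nlinarith
    exact_mod_cast h1
  obtain ⟨L, hL⟩ : ∃ L : ℝ, L = (1 + ε) * (m + c * X) := ⟨_, rfl⟩
  rw [← hL]
  have hL0 : 0 < L := by rw [hL]; positivity
  obtain ⟨u, hu⟩ : ∃ u : ℝ, u = cl s (A + 1) := ⟨_, rfl⟩
  rw [← hu]
  have hu1 : u ≤ X ^ 2 + 2 * X + 2 := by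
    have h1 := (cl_lt s (A + 1)).le
    rw [← hu] at h1
    refine h1.trans ?_
    push_cast
    rw [hw4, hAr]
    have h2 : (X * w + 1) ^ 2 / w ^ 2 = X ^ 2 + 2 * X / w + 1 / w ^ 2 := by field_simp; ring
    rw [h2]
    have h3 : 2 * X / w ≤ 2 * X := div_le_self (by positivity) hw1
    have h4 : 1 / w ^ 2 ≤ 1 := by
      rw [div_le_one (by positivity)]
      exact one_le_pow₀ hw1
    linarith
  have hex : ∃ g : ℕ, L ≤ (cl s (A + (g + 1)) : ℝ) - u := by
    refine ⟨A - 2, ?_⟩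
    have e : A + (A - 2 + 1) = 2 * A - 1 := by omega
    rw [e]
    have h1 := cl_ge s (2 * A - 1)
    have e2 : ((2 * A - 1 : ℕ) : ℝ) = 2 * A - 1 := by
      rw [Nat.cast_sub (by omega)]
      push_cast
      rfl
    rw [e2, hw4, hAr] at h1
    have h2 : (2 * (X * w) - 1) ^ 2 / w ^ 2 = 4 * X ^ 2 - 4 * X / w + 1 / w ^ 2 := by field_simp; ring
    rw [h2] at h1
    have h3 : 4 * X / w ≤ 4 * X := div_le_self (by positivity) hw1
    have h4 : 0 ≤ 1 / w ^ 2 := by positivity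
    have h5 : L ≤ 3 * X ^ 2 - 6 * X - 2 := by
      rw [hL]
      rw [div_le_iff₀ hε] at hk2
      have h6 : (1 + ε) * m ≤ (1 + ε) * ((1 - 2 * ε) * (3 * X ^ 2)) := mul_le_mul_of_nonneg_left hm (by linarith)
      have h7 : (1 + ε) * ((1 - 2 * ε) * (3 * X ^ 2)) ≤ (1 - ε) * (3 * X ^ 2) := by
        have h8 : (1 + ε) * (1 - 2 * ε) ≤ 1 - ε := by nlinarith
        have h9 : 0 ≤ 3 * X ^ 2 := by positivity
        nlinarith
      have h8 : (1 + ε) * (c * X) ≤ 2 * (c * X) := mul_le_mul_of_nonneg_right (by linarith) (by positivity)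
      have h9 : (2 * c + 8) * X ≤ X * ε * X := mul_le_mul_of_nonneg_right hk2 (by positivity)
      nlinarith
    linarith
  obtain ⟨g, hg⟩ : ∃ g, g = Nat.find hex := ⟨_, rfl⟩
  have hg1 : L ≤ (cl s (A + (g + 1)) : ℝ) - u := by rw [hg]; exact Nat.find_spec hex
  have hgA : g ≤ A - 2 := by
    rw [hg]
    apply Nat.find_min' hex
    have e : A + (A - 2 + 1) = 2 * A - 1 := by omega
    rw [e]
    have h1 := cl_ge s (2 * A - 1)
    have e2 : ((2 * A - 1 : ℕ) : ℝ) = 2 * A - 1 := by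
      rw [Nat.cast_sub (by omega)]
      push_cast
      rfl
    rw [e2, hw4, hAr] at h1
    have h2 : (2 * (X * w) - 1) ^ 2 / w ^ 2 = 4 * X ^ 2 - 4 * X / w + 1 / w ^ 2 := by field_simp; ring
    rw [h2] at h1
    have h3 : 4 * X / w ≤ 4 * X := div_le_self (by positivity) hw1
    have h4 : 0 ≤ 1 / w ^ 2 := by positivity
    have h5 : L ≤ 3 * X ^ 2 - 6 * X - 2 := by
      rw [hL]
      rw [div_le_iff₀ hε] at hk2
      have h6 : (1 + ε) * m ≤ (1 + ε) * ((1 - 2 * ε) * (3 * X ^ 2)) := mul_le_mul_of_nonneg_left hm (by linarith)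
      have h7 : (1 + ε) * ((1 - 2 * ε) * (3 * X ^ 2)) ≤ (1 - ε) * (3 * X ^ 2) := by
        have h8 : (1 + ε) * (1 - 2 * ε) ≤ 1 - ε := by nlinarith
        have h9 : 0 ≤ 3 * X ^ 2 := by positivity
        nlinarith
      have h8 : (1 + ε) * (c * X) ≤ 2 * (c * X) := mul_le_mul_of_nonneg_right (by linarith) (by positivity)
      have h9 : (2 * c + 8) * X ≤ X * ε * X := mul_le_mul_of_nonneg_right hk2 (by positivity)
      nlinarith
    linarith
  have hg0 : 1 ≤ g := by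
    by_contra hcon
    have h0 : g = 0 := by omega
    rw [h0, zero_add, ← hu] at hg1
    linarith
  refine ⟨g, by omega, hg1, ?_⟩
  have hmin : ¬ L ≤ (cl s (A + ((g - 1) + 1)) : ℝ) - u := Nat.find_min hex (by omega)
  rw [not_le] at hmin
  have e : A + (g - 1 + 1) = A + g := by omega
  rw [e] at hmin
  have h1 := (len_bounds s (A + g)).2
  unfold len at h1
  have h2 : (2 * ((A + g : ℕ) : ℝ) + 1) / 4 ^ s ≤ 4 * X / w := by
    rw [hw4, div_le_div_iff₀ (by positivity) (by positivity)]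
    have h3 : 2 * ((A + g : ℕ) : ℝ) + 1 ≤ 4 * A := by
      have : 2 * (A + g) + 1 ≤ 4 * A := by omega
      exact_mod_cast this
    calc (2 * ((A + g : ℕ) : ℝ) + 1) * w ≤ (4 * A) * w := mul_le_mul_of_nonneg_right h3 (by positivity)
      _ = 4 * X * w ^ 2 := by rw [hAr]; ring
  have h3 : 4 * X / w ≤ ε * c * X / 2 := by
    rw [div_lt_iff₀ (by positivity)] at hs
    rw [div_le_div_iff₀ (by positivity) (by norm_num)]
    nlinarith
  have h4 : 1 ≤ ε * c * X / 2 := by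
    rw [div_le_iff₀ (by positivity)] at hk1
    linarith
  have h5 : ε * (c * X) ≤ ε * L := by
    apply mul_le_mul_of_nonneg_left _ hε.le
    rw [hL]
    nlinarith [mul_pos hc (by linarith : (0 : ℝ) < X)]
  have e3 : A + (g + 1) = A + g + 1 := by omega
  rw [e3]
  linarith

theorem sch_lo {z : ℕ → ℕ} (hz : Small z) {c ε : ℝ} (hc : 0 < c) (hε : 0 < ε) (hε1 : ε < 1) :
    ∀ᶠ k : ℕ in atTop, ∀ m : ℝ, 0 ≤ m → m ≤ (1 - ε) * (3 * 4 ^ k) →
      Real.exp (-((1 + ε) * ((m + c * 2 ^ k) / (2 * k * Real.log 2)))) ≤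
        PP (pr z) (Bk k) (fun T => Miss c k m ((T : Finset ℕ) : Set ℕ)) := by
  have hp : ∀ n, 0 ≤ pr z n ∧ pr z n ≤ 1 := fun n => ⟨pr_nonneg z n, pr_le_one z n⟩
  obtain ⟨δ, hδ⟩ : ∃ δ : ℝ, δ = ε / 16 := ⟨_, rfl⟩
  have hδ0 : 0 < δ := by rw [hδ]; positivity
  have hl2 : 0 < Real.log 2 := Real.log_pos (by norm_num)
  have hl21 : Real.log 2 ≤ 1 := by have := Real.log_two_lt_d9; linarith
  have hlim : Tendsto (fun k : ℕ => (2 : ℝ) ^ k) atTop atTop := tendsto_pow_atTop_atTop_of_one_lt (by norm_num)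
  obtain ⟨s, hrun⟩ := run_length hc hδ0 (by linarith : δ < 1)
  filter_upwards [hrun, patt_prob hz s hδ0, two_pow_big 0 (show 0 < δ * c by positivity), eventually_ge_atTop 1,
    hlim.eventually_ge_atTop (max ((4 * c / δ) ^ 2) (8 * c / δ) / c)] with k hrun hpp hbig hk1 hk2 m hm0 hm
  have h4k : (0 : ℝ) < 3 * 4 ^ k := by positivity
  obtain ⟨g, hg1, hg2, hg3⟩ := hrun m hm0 (hm.trans (mul_le_mul_of_nonneg_right (by linarith) h4k.le))
  obtain ⟨A, hA⟩ : ∃ A, A = 2 ^ (k + s) := ⟨_, rfl⟩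
  have hpatt := hpp g 1 hg1
  rw [runs_sum] at hpatt
  rw [← hA] at hg1 hg2 hg3 hpatt
  simp only [range_one, sum_singleton, zero_add, one_mul, zero_mul, add_zero] at hpatt
  obtain ⟨u, hu⟩ : ∃ u : ℕ, u = cl s (A + 1) := ⟨_, rfl⟩
  obtain ⟨v, hv⟩ : ∃ v : ℕ, v = cl s (A + (g + 1)) := ⟨_, rfl⟩
  rw [← hu, ← hv] at hg2 hg3 hpatt
  obtain ⟨X, hX⟩ : ∃ X : ℝ, X = 2 ^ k := ⟨_, rfl⟩
  rw [← hX] at hg2 hg3 hbig hk2 ⊢
  have hX0 : 0 < X := by rw [hX]; positivity
  obtain ⟨Y, hY⟩ : ∃ Y : ℝ, Y = m + c * X := ⟨_, rfl⟩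
  rw [← hY] at hg2 hg3 ⊢
  have hY0 : 0 < Y := by rw [hY]; positivity
  obtain ⟨R, hR⟩ : ∃ R : ℝ, R = (v : ℝ) - u := ⟨_, rfl⟩
  rw [← hR] at hg2 hg3 hpatt
  have hYR : Y ≤ R := by nlinarith
  have hR0 : 0 < R := by linarith
  refine le_trans ?_ (hpatt.trans (PP_mono hp (fun T _ hT => ?_)))
  · apply Real.exp_le_exp.2
    obtain ⟨K, hK⟩ : ∃ K, K = 2 * (k : ℝ) * Real.log 2 := ⟨_, rfl⟩
    have hk0 : (1 : ℝ) ≤ k := by exact_mod_cast hk1
    have hK0 : 0 < K := by rw [hK]; positivity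
    rw [← hK]
    have h1 : R / K ≤ (1 + δ) * (1 + δ) * (Y / K) := by
      rw [mul_div_assoc']
      apply div_le_div_of_nonneg_right _ hK0.le
      linarith
    have h2 : 1 ≤ δ * (Y / K) := by
      rw [mul_div_assoc', le_div_iff₀ hK0, hK]
      push_cast at hbig
      have h3 : δ * (c * X) ≤ δ * Y := mul_le_mul_of_nonneg_left (by rw [hY]; linarith) hδ0.le
      have h4 : 2 * (k : ℝ) * Real.log 2 ≤ (k + 0 + 1) ^ 2 := by nlinarith
      nlinarith
    have h3 : 0 ≤ Y / K := by positivity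
    have h4 : (1 + δ) * (R / K) ≤ (1 + δ) * ((1 + δ) * (1 + δ) * (Y / K)) := mul_le_mul_of_nonneg_left h1 (by linarith)
    have h5 : ((1 + δ) * ((1 + δ) * (1 + δ)) + δ) * (Y / K) ≤ (1 + ε) * (Y / K) := by
      apply mul_le_mul_of_nonneg_right _ h3
      have h6 : δ ≤ 1 / 16 := by rw [hδ]; linarith
      have h7 : (1 + δ) * (1 + δ) ≤ 1 + 3 * δ := by nlinarith
      have h8 : (1 + δ) * ((1 + δ) * (1 + δ)) ≤ (1 + δ) * (1 + 3 * δ) := mul_le_mul_of_nonneg_left h7 (by linarith)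
      have h9 : (1 + δ) * (1 + 3 * δ) ≤ 1 + 5 * δ := by nlinarith
      linarith
    linarith
  · have hA1 : 1 ≤ A := by omega
    refine run_bad hc (u := u) (v := v) ?_ ?_ ?_ hm0 ?_
    · rw [hu, ← cl_pow s k, ← hA]
      exact cl_mono (by omega)
    · rw [hv, ← cl_pow s (k + 1)]
      apply cl_mono
      have : 2 ^ (k + 1 + s) = A + A := by rw [hA]; ring
      omega
    · intro n hn hn'
      obtain ⟨hT1, _⟩ := hT
      rw [← hA] at hT1
      have h1 : A + 1 ≤ Nat.sqrt (4 ^ s * n) := cell_index.1 (by rw [← hu]; exact hn'.1)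
      have h2 : Nat.sqrt (4 ^ s * n) < A + (g + 1) := by
        by_contra hcon
        rw [not_lt, ← cell_index, ← hv] at hcon
        omega
      have h3 : Nat.sqrt (4 ^ s * n) ∈ runs A g 1 := by
        unfold runs run
        rw [mem_biUnion]
        refine ⟨0, mem_range.2 one_pos, mem_Ico.2 ⟨by omega, by omega⟩⟩
      have h4 := hT1 _ h3
      rw [eq_empty_iff_forall_notMem] at h4
      exact h4 n (mem_inter.2 ⟨by exact_mod_cast hn, cell_own s n⟩)
    · rw [← hR]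
      have hu1 : √(u : ℝ) ≤ X + 2 := by
        rw [Real.sqrt_le_left (by positivity)]
        have h1 := (cl_lt s (A + 1)).le
        rw [← hu] at h1
        refine h1.trans ?_
        obtain ⟨w, hw⟩ : ∃ w : ℝ, w = 2 ^ s := ⟨_, rfl⟩
        have hw1 : 1 ≤ w := by rw [hw]; exact one_le_pow₀ (by norm_num)
        have hw4 : (4 : ℝ) ^ s = w ^ 2 := by rw [hw, ← four_pow]
        have hAr : (A : ℝ) = X * w := by rw [hA, hX, hw, ← pow_add]; push_cast; rfl
        push_cast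
        rw [hw4, hAr]
        have h2 : (X * w + 1) ^ 2 / w ^ 2 = X ^ 2 + 2 * X / w + 1 / w ^ 2 := by field_simp; ring
        rw [h2]
        have h3 : 2 * X / w ≤ 2 * X := div_le_self (by positivity) hw1
        have h4 : 1 / w ^ 2 ≤ 1 := by
          rw [div_le_one (by positivity)]
          exact one_le_pow₀ hw1
        nlinarith
      have hv1 : √(v : ℝ) ≤ X + 2 + √R := by
        have h1 : (v : ℝ) = u + R := by rw [hR]; ring
        rw [h1]
        have h2 : √((u : ℝ) + R) ≤ √(u : ℝ) + √R := by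
          rw [Real.sqrt_le_left (by positivity)]
          have e1 := Real.sq_sqrt (Nat.cast_nonneg (α := ℝ) u)
          have e2 := Real.sq_sqrt hR0.le
          have e3 : 0 ≤ √(u : ℝ) * √R := by positivity
          nlinarith
        linarith
      have h1 : c * √(v : ℝ) ≤ c * (X + 2 + √R) := mul_le_mul_of_nonneg_left hv1 hc.le
      rw [div_le_iff₀ hc] at hk2
      have hcR : X * c ≤ R := by
        have : c * X ≤ Y := by rw [hY]; linarith
        linarith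
      have h2 : 4 * c / δ ≤ √R := by
        apply Real.le_sqrt_of_sq_le
        exact (le_max_left _ _).trans (hk2.trans hcR)
      have h3 : 8 * c / δ ≤ R := (le_max_right _ _).trans (hk2.trans hcR)
      rw [div_le_iff₀ hδ0] at h2 h3
      have h4 : c * √R ≤ δ / 4 * R := by
        have h5 : √R * √R = R := Real.mul_self_sqrt hR0.le
        have h6 : 0 ≤ √R := Real.sqrt_nonneg R
        nlinarith
      have h5 : c * 2 ≤ δ / 4 * R := by linarith
      have h6 : Y ≤ (1 - δ / 2) * R := by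
        have h7 : (1 + δ) * Y ≤ R := hg2
        have h8 : 1 ≤ (1 - δ / 2) * (1 + δ) := by
          have : δ ≤ 1 := by rw [hδ]; linarith
          nlinarith
        have h9 : (1 - δ / 2) * ((1 + δ) * Y) ≤ (1 - δ / 2) * R := mul_le_mul_of_nonneg_left h7 (by
          have : δ ≤ 1 := by rw [hδ]; linarith
          linarith)
        nlinarith
      rw [hY] at h6
      nlinarith

end Pool.Agent.Q197.WN
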