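import Pool.Agent.Q197.WN.SchC

/-!
# The measure of the exceptional `x`: price and budget
-/

set_option autoImplicit false

namespace Pool.Agent.Q197.WN

open Finset MeasureTheory Filter Pool.Agent.Q120.TT Pool.Agent.Q120.ET Pool.Agent.Q120.GM
  Pool.Agent.Q120.CL
open scoped Topology

theorem bad_congr (c : ℝ) {k : ℕ} {S S' : Set ℕ} (h : ∀ x ∈ Bk k, (x ∈ S ↔ x ∈ S')) : Bad c k S = Bad c k S' := by
  have key : ∀ {S S' : Set ℕ}, (∀ x ∈ Bk k, (x ∈ S ↔ x ∈ S')) → ∀ y ∈ Bad c k S, y ∈ Bad c k S' := by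
    intro S S' h y hy
    refine ⟨hy.1, hy.2.1, fun n hn hn' => hy.2.2 n ((h n ?_).2 hn) hn'⟩
    unfold Bk
    rw [mem_Ico]
    constructor
    · have : (4 : ℝ) ^ k ≤ n := hy.1.trans hn'.1.le
      exact_mod_cast this
    · have : (n : ℝ) < 4 ^ (k + 1) := lt_of_lt_of_le hn'.2 hy.2.1
      exact_mod_cast this
  ext y
  exact ⟨fun hy => key h y hy, fun hy => key (fun x hx => (h x hx).symm) y hy⟩

theorem miss_tr {Ω : Type} (A : Ω → Set ℕ) (c : ℝ) (k : ℕ) (m : ℝ) (ω : Ω) :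
    Miss c k m ((tr A (Bk k) ω : Finset ℕ) : Set ℕ) ↔ Miss c k m (A ω) := by
  classical
  unfold Miss
  rw [bad_congr c (S := ((tr A (Bk k) ω : Finset ℕ) : Set ℕ)) (S' := A ω) (by
    intro x hx
    unfold tr
    rw [mem_coe, mem_filter]
    exact ⟨fun h => h.2, fun h => ⟨hx, h⟩⟩)]

/-- The price. -/
noncomputable def toll (c : ℝ) (k : ℕ) (m : ℝ) : ℝ := (m + c * 2 ^ k) / (2 * k * Real.log 2)

theorem sch_price {z : ℕ → ℕ} (hz : Small z) {c ε : ℝ} (hc : 0 < c) (hε : 0 < ε) : ∀ᶠ k : ℕ in atTop,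
    ∀ (Ω : Type) [MeasurableSpace Ω] (μ : Measure Ω) [IsProbabilityMeasure μ] (A : Ω → Set ℕ), IsRandomSet A →
      (∀ᵐ ω ∂μ, ∀ n ∈ A ω, 0 < pr z n) → ∀ m : ℝ, 0 ≤ m →
        (1 - ε) * toll c k m * μ.real {ω | Miss c k m (A ω)} ≤ 1 + relEnt (pr z) μ A (Bk k) := by
  have hp : ∀ n, 0 ≤ pr z n ∧ pr z n ≤ 1 := fun n => ⟨pr_nonneg z n, pr_le_one z n⟩
  filter_upwards [sch_up hz hc hε, pr_half hz] with k hk hk2 Ω _ μ _ A hA hs m hm
  have h1 := ev_price hp hk2 (hk m hm) hA hs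
  simp only [miss_tr] at h1
  exact h1

theorem sch_exists {z : ℕ → ℕ} (hz : Small z) {c ε : ℝ} (hc : 0 < c) (hε : 0 < ε) (hε1 : ε < 1) {m : ℕ → ℝ}
    (hm : ∀ k, 0 ≤ m k) (hmk : ∀ k, m k ≤ (1 - ε) * (3 * 4 ^ k)) {q : ℕ → ℝ} (hq0 : ∀ k, 0 ≤ q k) (hq1 : ∀ k, q k ≤ 1) :
    ∃ (Ω : Type) (_ : MeasurableSpace Ω) (μ : Measure Ω) (_ : IsProbabilityMeasure μ) (A : Ω → Set ℕ),
      Near (pr z) Bk (fun k => (1 + ε) * (q k * toll c k (m k))) μ A ∧
      (∀ᶠ k : ℕ in atTop, q k ≤ μ.real {ω | Miss c k (m k) (A ω)}) ∧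
      (¬ Summable q → ∀ᵐ ω ∂μ, ∃ᶠ k : ℕ in atTop, Miss c k (m k) (A ω)) := by
  have hp : ∀ n, 0 ≤ pr z n ∧ pr z n ≤ 1 := fun n => ⟨pr_nonneg z n, pr_le_one z n⟩
  obtain ⟨Ω, i, μ, hμ, A, h1, h2, h3, h4, h5⟩ := event_down (B := Bk) (F := fun k T => Miss c k (m k) ((T : Finset ℕ) : Set ℕ))
    (v := fun k => (1 + ε) * toll c k (m k)) hp Bk_disj (by
      filter_upwards [sch_lo hz hc hε hε1] with k hk
      exact hk (m k) (hm k) (hmk k)) hq0 hq1
  simp only [miss_tr] at h4 h5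
  refine ⟨Ω, i, μ, hμ, A, ⟨h1, h2, ?_⟩, h4, h5⟩
  filter_upwards [h3] with k hk
  refine hk.trans (le_of_eq ?_)
  ring

theorem sch_budget {z : ℕ → ℕ} (hz : Small z) {c δ : ℝ} (hc : 0 < c) (hδ : 0 < δ) {m : ℕ → ℝ} (hm : ∀ k, 0 ≤ m k)
    (hmk : ∀ k, m k ≤ (1 - δ) * (3 * 4 ^ k)) {d : ℕ → ℝ} (hd : ∀ k, 0 ≤ d k) :
    (Summable (fun k : ℕ => d k * k / (2 ^ k + m k)) ↔ ∀ (Ω : Type) [MeasurableSpace Ω] (μ : Measure Ω)
      [IsProbabilityMeasure μ] (A : Ω → Set ℕ), Near (pr z) Bk d μ A → ∀ᵐ ω ∂μ, ∀ᶠ k : ℕ in atTop, ¬ Miss c k (m k) (A ω)) ∧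
    (¬ Summable (fun k : ℕ => d k * k / (2 ^ k + m k)) → ∃ (Ω : Type) (_ : MeasurableSpace Ω) (μ : Measure Ω)
      (_ : IsProbabilityMeasure μ) (A : Ω → Set ℕ), Near (pr z) Bk d μ A ∧ ∀ᵐ ω ∂μ, ∃ᶠ k : ℕ in atTop, Miss c k (m k) (A ω)) := by
  have hp : ∀ n, 0 ≤ pr z n ∧ pr z n ≤ 1 := fun n => ⟨pr_nonneg z n, pr_le_one z n⟩
  have hl2 : 0 < Real.log 2 := Real.log_pos (by norm_num)
  obtain ⟨ε, hε⟩ : ∃ ε : ℝ, ε = min δ (1 / 2) := ⟨_, rfl⟩
  have hε0 : 0 < ε := by rw [hε]; exact lt_min hδ (by norm_num)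
  have hεδ : ε ≤ δ := by rw [hε]; exact min_le_left _ _
  have hε2 : ε ≤ 1 / 2 := by rw [hε]; exact min_le_right _ _
  have hmk' : ∀ k, m k ≤ (1 - ε) * (3 * 4 ^ k) := fun k =>
    (hmk k).trans (mul_le_mul_of_nonneg_right (by linarith) (by positivity))
  obtain ⟨a, ha⟩ : ∃ a : ℝ, a = min c 1 := ⟨_, rfl⟩
  obtain ⟨b, hb⟩ : ∃ b : ℝ, b = max c 1 := ⟨_, rfl⟩
  have ha0 : 0 < a := by rw [ha]; exact lt_min hc one_pos
  have hb0 : 0 < b := by rw [hb]; exact lt_of_lt_of_le one_pos (le_max_right _ _)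
  have hac : a ≤ c := by rw [ha]; exact min_le_left _ _
  have ha1 : a ≤ 1 := by rw [ha]; exact min_le_right _ _
  have hbc : c ≤ b := by rw [hb]; exact le_max_left _ _
  have hb1 : 1 ≤ b := by rw [hb]; exact le_max_right _ _
  have hbds : ∀ k : ℕ, 1 ≤ k → a / (2 * Real.log 2) * ((2 ^ k + m k) / k) ≤ toll c k (m k) ∧
      toll c k (m k) ≤ b / (2 * Real.log 2) * ((2 ^ k + m k) / k) := by
    intro k hk
    have hk0 : (0 : ℝ) < k := by exact_mod_cast hk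
    have hX : (0 : ℝ) < 2 ^ k := by positivity
    have hmk0 := hm k
    unfold toll
    have e1 : ∀ r : ℝ, r / (2 * Real.log 2) * ((2 ^ k + m k) / k) = r * (2 ^ k + m k) / (2 * k * Real.log 2) := by
      intro r
      field_simp
    rw [e1, e1]
    constructor
    · apply div_le_div_of_nonneg_right _ (by positivity)
      nlinarith
    · apply div_le_div_of_nonneg_right _ (by positivity)
      nlinarith
  have h1 := ev_iff (B := Bk) (F := fun k T => Miss c k (m k) ((T : Finset ℕ) : Set ℕ)) (v := fun k => (2 ^ k + m k) / k)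
    (c := 1 / 2 * (a / (2 * Real.log 2))) (C := 3 / 2 * (b / (2 * Real.log 2))) hp Bk_disj (pr_half hz) (by positivity)
    (by positivity)
    (by
      filter_upwards [sch_up hz hc (show (0 : ℝ) < 1 / 2 by norm_num), eventually_ge_atTop 1] with k hk hk1
      refine (hk (m k) (hm k)).trans (Real.exp_le_exp.2 ?_)
      have h2 := (hbds k hk1).1
      unfold toll at h2
      linarith)
    (by
      filter_upwards [sch_lo hz hc hε0 (by linarith), eventually_ge_atTop 1] with k hk hk1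
      refine le_trans (Real.exp_le_exp.2 ?_) (hk (m k) (hm k) (hmk' k))
      have h2 := hbds k hk1
      have hk0 : (0 : ℝ) < k := by exact_mod_cast hk1
      have hmk0 := hm k
      have h3 : 0 ≤ toll c k (m k) := le_trans (by positivity) h2.1
      have h4 : (1 + ε) * toll c k (m k) ≤ 3 / 2 * toll c k (m k) := mul_le_mul_of_nonneg_right (by linarith) h3
      have h5 : (1 + ε) * ((m k + c * 2 ^ k) / (2 * k * Real.log 2)) = (1 + ε) * toll c k (m k) := rfl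
      rw [h5]
      linarith [h2.2])
    (by
      have hlim := (tendsto_pow_const_div_const_pow_of_one_lt 3 (show (1 : ℝ) < 2 by norm_num)).eventually_lt_const
        (show (0 : ℝ) < 1 / 2 * (a / (2 * Real.log 2)) by positivity)
      filter_upwards [hlim, eventually_ge_atTop 1] with k hk hk1
      have hk0 : (0 : ℝ) < k := by exact_mod_cast hk1
      rw [div_lt_iff₀ (by positivity)] at hk
      rw [mul_div_assoc', le_div_iff₀ hk0]
      have h3 : 1 / 2 * (a / (2 * Real.log 2)) * 2 ^ k ≤ 1 / 2 * (a / (2 * Real.log 2)) * (2 ^ k + m k) :=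
        mul_le_mul_of_nonneg_left (by linarith [hm k]) (by positivity)
      have h4 : (k : ℝ) ^ 2 * k = k ^ 3 := by ring
      rw [h4]
      linarith) hd
  simp only [miss_tr] at h1
  have e : (fun k : ℕ => d k / ((2 ^ k + m k) / k)) = (fun k : ℕ => d k * k / (2 ^ k + m k)) := by
    funext k
    rw [div_div_eq_mul_div]
  rw [e] at h1
  exact h1

end Pool.Agent.Q197.WN
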