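import Pool.Agent.Q197.WN.Grp

/-!
# From the generating functions to all phases
-/

set_option autoImplicit false

namespace Pool.Agent.Q197.WN

open Finset MeasureTheory Filter Pool.Agent.Q120.TT Pool.Agent.Q120.ET Pool.Agent.Q120.GM
open scoped Topology

section

variable {p : ℕ → ℝ} {W : ℕ → Finset ℕ} {N : ℕ → Set ℕ → ℕ} {E : ℕ → ℝ}

theorem grow_top (grow : ∃ η : ℝ, 0 < η ∧ ∀ᶠ n : ℕ in atTop, (n : ℝ) ^ η ≤ E n) : Tendsto E atTop atTop := by
  obtain ⟨η, hη, h⟩ := grow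
  refine tendsto_atTop_mono' atTop h ?_
  exact (tendsto_rpow_atTop hη).comp tendsto_natCast_atTop_atTop

theorem sharp_of_lap (prob : ∀ n, 0 ≤ p n ∧ p n ≤ 1) (disj : ∀ i j, i ≠ j → Disjoint (W i) (W j))
    (half : ∀ᶠ n : ℕ in atTop, ∀ x ∈ W n, p x ≤ 1 / 2)
    (loc : ∀ n (S S' : Set ℕ), (∀ x ∈ W n, (x ∈ S ↔ x ∈ S')) → N n S = N n S')
    (grow : ∃ η : ℝ, 0 < η ∧ ∀ᶠ n : ℕ in atTop, (n : ℝ) ^ η ≤ E n) (hl : WLap p W N E (Set.Ici 0)) : WSharp p W N E := by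
  have hE := grow_top grow
  have hvoid : ∀ δ : ℝ, 0 < δ → ∀ᶠ n : ℕ in atTop,
      Real.exp (-((1 + δ) * E n)) ≤ PP p (W n) (fun T => N n ((T : Finset ℕ) : Set ℕ) = 0) := by
    intro δ hδ
    filter_upwards [hl 0 (Set.mem_Ici.2 le_rfl) δ hδ] with n hn
    have h3 := hn.1
    rw [lam_zero, sub_zero] at h3
    exact h3
  refine { prob := prob, disj := disj, half := half, loc := loc, grow := grow, dev := ?_, void := ?_, lo := hvoid, up := ?_ }
  · intro ε hε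
    obtain ⟨θ, hθ⟩ : ∃ θ : ℝ, θ = max (1 - ε) 0 := ⟨_, rfl⟩
    have hθ0 : 0 ≤ θ := by rw [hθ]; exact le_max_right _ _
    have hθ1 : θ < 1 := by rw [hθ]; exact max_lt (by linarith) one_pos
    have hr1 : 0 < rate θ := rate_pos hθ0 hθ1.ne
    have hr2 : 0 < rate (1 + ε) := rate_pos (by linarith) (by linarith)
    obtain ⟨c, hc⟩ : ∃ c : ℝ, c = min (rate θ / 2) (rate (1 + ε) / 2) := ⟨_, rfl⟩
    have hc0 : 0 < c := by rw [hc]; exact lt_min (by linarith) (by linarith)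
    have hc1 : c ≤ rate θ / 2 := by rw [hc]; exact min_le_left _ _
    have hc2 : c ≤ rate (1 + ε) / 2 := by rw [hc]; exact min_le_right _ _
    refine ⟨2, c, by norm_num, hc0, ?_⟩
    filter_upwards [low_up hl prob hθ0 hθ1.le (show 0 < rate θ / 2 by linarith),
      high_up hl prob (show (1 : ℝ) ≤ 1 + ε by linarith) (show 0 < rate (1 + ε) / 2 by linarith), hE.eventually_ge_atTop 0]
      with n h1 h2 h3
    have h4 : PP p (W n) (fun T => ε * E n ≤ |(N n ((T : Finset ℕ) : Set ℕ) : ℝ) - E n|) ≤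
        PP p (W n) (fun T => (N n ((T : Finset ℕ) : Set ℕ) : ℝ) ≤ θ * E n ∨ (1 + ε) * E n ≤ (N n ((T : Finset ℕ) : Set ℕ) : ℝ)) := by
      refine PP_mono prob (fun T _ hT => ?_)
      have h5 : ε * E n ≤ |(N n ((T : Finset ℕ) : Set ℕ) : ℝ) - E n| := hT
      rcases le_abs.1 h5 with h6 | h6
      · right
        linarith
      · left
        have h7 : (N n ((T : Finset ℕ) : Set ℕ) : ℝ) ≤ (1 - ε) * E n := by linarith
        refine h7.trans (mul_le_mul_of_nonneg_right ?_ h3)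
        rw [hθ]
        exact le_max_left _ _
    refine (h4.trans (PP_or prob)).trans ?_
    have e1 : Real.exp (-((rate θ - rate θ / 2) * E n)) ≤ Real.exp (-(c * E n)) := by
      apply Real.exp_le_exp.2
      have : c * E n ≤ (rate θ - rate θ / 2) * E n := mul_le_mul_of_nonneg_right (by linarith) h3
      linarith
    have e2 : Real.exp (-((rate (1 + ε) - rate (1 + ε) / 2) * E n)) ≤ Real.exp (-(c * E n)) := by
      apply Real.exp_le_exp.2
      have : c * E n ≤ (rate (1 + ε) - rate (1 + ε) / 2) * E n := mul_le_mul_of_nonneg_right (by linarith) h3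
      linarith
    linarith
  · refine ⟨2, by norm_num, ?_⟩
    filter_upwards [hvoid 1 one_pos] with n hn
    norm_num at hn ⊢
    exact hn
  · intro j ε hε
    refine ⟨1, one_pos, ?_⟩
    have hcont : Tendsto rate (𝓝 0) (𝓝 1) := by
      have := rate_cont.tendsto 0
      rwa [rate_zero] at this
    have h1 : ∀ᶠ θ : ℝ in 𝓝 0, 1 - ε / 2 < rate θ := hcont.eventually (Ioi_mem_nhds (by linarith))
    obtain ⟨θ, hθ, hθ0, hθ1⟩ : ∃ θ : ℝ, 1 - ε / 2 < rate θ ∧ 0 < θ ∧ θ < 1 := by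
      have h2 : ∀ᶠ θ : ℝ in 𝓝[>] 0, 1 - ε / 2 < rate θ := h1.filter_mono nhdsWithin_le_nhds
      have h3 : ∀ᶠ θ : ℝ in 𝓝[>] (0 : ℝ), 0 < θ := eventually_mem_nhdsWithin
      have h4 : ∀ᶠ θ : ℝ in 𝓝[>] (0 : ℝ), θ < 1 := by
        have : ∀ᶠ θ : ℝ in 𝓝 (0 : ℝ), θ < 1 := Iio_mem_nhds one_pos
        exact this.filter_mono nhdsWithin_le_nhds
      exact (h2.and (h3.and h4)).exists
    filter_upwards [low_up hl prob hθ0.le hθ1.le (show 0 < ε / 2 by linarith), hE.eventually_ge_atTop (j / θ)] with n h2 h3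
    rw [one_mul]
    have hj : (j : ℝ) ≤ θ * E n := by
      rw [div_le_iff₀ hθ0] at h3
      linarith
    have hEn : 0 ≤ E n := by
      have : 0 ≤ (j : ℝ) / θ := by positivity
      linarith
    refine le_trans (PP_mono prob (fun T _ hT => ?_)) (h2.trans (Real.exp_le_exp.2 ?_))
    · have h4 : N n ((T : Finset ℕ) : Set ℕ) ≤ j := hT
      have h5 : (N n ((T : Finset ℕ) : Set ℕ) : ℝ) ≤ j := by exact_mod_cast h4
      exact h5.trans hj
    · have : (1 - ε) * E n ≤ (rate θ - ε / 2) * E n := mul_le_mul_of_nonneg_right (by linarith) hEn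
      linarith

/-- All phases. -/
theorem of_lap (prob : ∀ n, 0 ≤ p n ∧ p n ≤ 1) (disj : ∀ i j, i ≠ j → Disjoint (W i) (W j))
    (half : ∀ᶠ n : ℕ in atTop, ∀ x ∈ W n, p x ≤ 1 / 2)
    (loc : ∀ n (S S' : Set ℕ), (∀ x ∈ W n, (x ∈ S ↔ x ∈ S')) → N n S = N n S')
    (grow : ∃ η : ℝ, 0 < η ∧ ∀ᶠ n : ℕ in atTop, (n : ℝ) ^ η ≤ E n) (hl : WLap p W N E (Set.Ici 0)) :
    Phase p W N E (fun k M => cost E (block k) M) ∧ Low p W N E ∧ High p W N E := by
  have h := sharp_of_lap prob disj half loc grow hl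
  exact ⟨phase h.toWModel, low h hl (fun t ht _ => Set.mem_Ici.2 ht.le), high h.toWModel hl (fun t ht => Set.mem_Ici.2 ht.le)⟩

/-- All phases for the number of groups. -/
theorem of_grp (prob : ∀ n, 0 ≤ p n ∧ p n ≤ 1) (disj : ∀ i j, i ≠ j → Disjoint (W i) (W j))
    (half : ∀ᶠ n : ℕ in atTop, ∀ x ∈ W n, p x ≤ 1 / 2)
    {K : ℕ → Finset ℕ} {f : ℕ → ℕ → Finset ℕ} (hf : ∀ n, ∀ k ∈ K n, f n k ⊆ W n)
    (hd : ∀ n, ∀ i ∈ K n, ∀ j ∈ K n, i ≠ j → Disjoint (f n i) (f n j))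
    (grow : ∃ η : ℝ, 0 < η ∧ ∀ᶠ n : ℕ in atTop, (n : ℝ) ^ η ≤ E n)
    (hsm : ∀ δ : ℝ, 0 < δ → ∀ᶠ n : ℕ in atTop, ∀ k ∈ K n, ∏ x ∈ f n k, p x ≤ δ)
    (hm : ∀ δ : ℝ, 0 < δ → ∀ᶠ n : ℕ in atTop, |∑ k ∈ K n, ∏ x ∈ f n k, p x - E n| ≤ δ * E n) :
    Phase p W (fun n => grp (K n) (f n)) E (fun k M => cost E (block k) M) ∧ Low p W (fun n => grp (K n) (f n)) E ∧
      High p W (fun n => grp (K n) (f n)) E := by
  classical
  refine of_lap prob disj half ?_ grow ?_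
  · intro n S S' h
    unfold grp
    congr 1
    refine filter_congr (fun k hk => ?_)
    exact forall₂_congr (fun x hx => h x (hf n k hk hx))
  · intro t _ γ hγ
    have h1 := lap_prod (π := fun n k => ∏ x ∈ f n k, p x) (K := K) (E := E) (fun n k => prod_nonneg (fun x _ => (prob x).1)) hsm hm
      ((grow_top grow).eventually_ge_atTop 0) t hγ
    filter_upwards [h1] with n hn
    rw [lam_grp p (hf n) (hd n) t]
    exact hn

end

end Pool.Agent.Q197.WN
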