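import Pool.Agent.Q197.WN.Shp
import Pool.Agent.Q197.PH.Fun

/-!
# Symmetric pairs between consecutive squares: the expected number
-/

set_option autoImplicit false

namespace Pool.Agent.Q197.WN

open Finset MeasureTheory Filter Pool.Agent.Q120.TT Pool.Agent.Q120.ET Pool.Agent.Q120.GM
  Pool.Agent.Q120.CL Pool.Agent.Q120.MG Pool.Agent.Q120.HL
open scoped Topology

/-- The level `z k` for `4 ^ k ≤ x < 4 ^ (k + 1)`. -/
def z2 (z : ℕ → ℕ) (j : ℕ) : ℕ := z (j / 2)

theorem half_top : Tendsto (fun j : ℕ => j / 2) atTop atTop := Nat.tendsto_div_const_atTop (by norm_num)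

theorem small2 {z : ℕ → ℕ} (hz : Small z) : Small (z2 z) := by
  intro η hη
  filter_upwards [half_top.eventually (hz η hη)] with j hj
  unfold z2
  refine hj.trans (mul_le_mul_of_nonneg_left ?_ hη.le)
  exact_mod_cast Nat.div_le_self j 2

/-- The integers strictly between two consecutive squares. -/
def sW (n : ℕ) : Finset ℕ := Ioo (n ^ 2) ((n + 1) ^ 2)

theorem mem_block {k n : ℕ} : n ∈ block k ↔ 2 ^ k ≤ n ∧ n < 2 ^ (k + 1) := by
  unfold block
  exact mem_Ico

theorem win_log {k n x : ℕ} (hn : n ∈ block k) (hx : x ∈ sW n) : Nat.log 2 x / 2 = k := by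
  rw [mem_block] at hn
  unfold sW at hx
  rw [mem_Ioo] at hx
  have h1 : 2 ^ (2 * k) ≤ x := by
    have : (2 ^ k) ^ 2 ≤ n ^ 2 := Nat.pow_le_pow_left hn.1 2
    rw [← pow_mul, mul_comm k 2] at this
    omega
  have h2 : x < 2 ^ (2 * k + 2) := by
    have : (n + 1) ^ 2 ≤ (2 ^ (k + 1)) ^ 2 := Nat.pow_le_pow_left hn.2 2
    rw [← pow_mul, show (k + 1) * 2 = 2 * k + 2 by ring] at this
    omega
  have hx0 : x ≠ 0 := by
    have := Nat.one_le_two_pow (n := 2 * k)
    omega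
  have h3 : 2 * k ≤ Nat.log 2 x := (Nat.le_log_iff_pow_le (by norm_num) hx0).2 h1
  have h4 : Nat.log 2 x < 2 * k + 2 := Nat.log_lt_of_lt_pow hx0 h2
  omega

open Classical in
theorem pr_win {z : ℕ → ℕ} {k n x : ℕ} (hn : n ∈ block k) (hx : x ∈ sW n) :
    pr (z2 z) x = if Rough (z k) x then min 1 (1 / (Vf (z k) * Real.log x)) else 0 := by
  unfold pr z2
  rw [win_log hn hx]

theorem win_zero {z : ℕ → ℕ} {k n x : ℕ} (hn : n ∈ block k) (hx : x ∈ sW n) (h : ¬ Rough (z k) x) : pr (z2 z) x = 0 := by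
  classical
  rw [pr_win hn hx, if_neg h]

theorem win_bounds {n x : ℕ} (hn : 2 ≤ n) (hx : x ∈ sW n) :
    2 * Real.log n ≤ Real.log x ∧ Real.log x ≤ 2 * Real.log (n + 1) := by
  unfold sW at hx
  rw [mem_Ioo] at hx
  have hn0 : (0 : ℝ) < n := by
    have : 0 < n := by omega
    exact_mod_cast this
  have h1 : (n : ℝ) ^ 2 ≤ x := by exact_mod_cast hx.1.le
  have h2 : (x : ℝ) ≤ ((n : ℝ) + 1) ^ 2 := by exact_mod_cast hx.2.le
  have hx0 : (0 : ℝ) < x := lt_of_lt_of_le (by positivity) h1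
  constructor
  · have h3 := Real.log_le_log (by positivity) h1
    rw [Real.log_pow] at h3
    push_cast at h3
    exact h3
  · have h3 := Real.log_le_log hx0 h2
    rw [Real.log_pow] at h3
    push_cast at h3
    exact h3

theorem win_le {z : ℕ → ℕ} {k n x : ℕ} (hn2 : 2 ≤ n) (hn : n ∈ block k) (hx : x ∈ sW n) :
    pr (z2 z) x ≤ 1 / (Vf (z k) * (2 * Real.log n)) := by
  classical
  have hV := Vf_pos (z k)
  have hl : 0 < Real.log (n : ℝ) := Real.log_pos (by exact_mod_cast hn2)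
  rw [pr_win hn hx]
  split_ifs with h
  · refine (min_le_right _ _).trans ?_
    apply one_div_le_one_div_of_le (by positivity)
    exact mul_le_mul_of_nonneg_left (win_bounds hn2 hx).1 hV.le
  · positivity

theorem le_win {z : ℕ → ℕ} {k n x : ℕ} (hn2 : 2 ≤ n) (hn : n ∈ block k) (hx : x ∈ sW n)
    (hq : 1 ≤ Vf (z k) * (2 * Real.log n)) (h : Rough (z k) x) :
    1 / (Vf (z k) * (2 * Real.log (n + 1))) ≤ pr (z2 z) x := by
  classical
  have hV := Vf_pos (z k)
  have hl : 0 < Real.log (n : ℝ) := Real.log_pos (by exact_mod_cast hn2)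
  have hb := win_bounds hn2 hx
  rw [pr_win hn hx, if_pos h]
  have hlx : 0 < Real.log (x : ℝ) := by linarith
  refine le_min ?_ ?_
  · rw [div_le_one (mul_pos hV (by linarith))]
    refine hq.trans (mul_le_mul_of_nonneg_left (by linarith) hV.le)
  · apply one_div_le_one_div_of_le (by positivity)
    exact mul_le_mul_of_nonneg_left hb.2 hV.le

/-- The centre. -/
def cen (n : ℕ) : ℕ := n ^ 2 + n + 1

/-- The pair. -/
def sf (n k : ℕ) : Finset ℕ := {n ^ 2 + k + 1, (n + 1) ^ 2 - k}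

theorem sf_sub {n k : ℕ} (hk : k ∈ Ico n (2 * n)) : sf n k ⊆ sW n := by
  rw [mem_Ico] at hk
  have e : (n + 1) ^ 2 = n ^ 2 + 2 * n + 1 := by ring
  intro x hx
  unfold sf at hx
  rw [mem_insert, mem_singleton] at hx
  unfold sW
  rw [mem_Ioo]
  rcases hx with rfl | rfl
  · omega
  · omega

theorem sf_disj {n i j : ℕ} (hi : i ∈ Ico n (2 * n)) (hj : j ∈ Ico n (2 * n)) (h : i ≠ j) : Disjoint (sf n i) (sf n j) := by
  rw [mem_Ico] at hi hj
  have e : (n + 1) ^ 2 = n ^ 2 + 2 * n + 1 := by ring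
  unfold sf
  rw [Finset.disjoint_left]
  intro x hx hx'
  rw [mem_insert, mem_singleton] at hx hx'
  omega

theorem sW_disj (i j : ℕ) (h : i ≠ j) : Disjoint (sW i) (sW j) := by
  unfold sW
  rw [Finset.disjoint_left]
  intro x hx hx'
  rw [mem_Ioo] at hx hx'
  rcases Nat.lt_or_ge i j with h1 | h1
  · have : (i + 1) ^ 2 ≤ j ^ 2 := Nat.pow_le_pow_left h1 2
    omega
  · have : (j + 1) ^ 2 ≤ i ^ 2 := Nat.pow_le_pow_left (by omega) 2
    omega

theorem rough_pair {z c m : ℕ} (h1 : m ≤ 2 * c) : (Rough z m ∧ Rough z (2 * c - m)) ↔ Av z {0, 2 * c} m := by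
  unfold Rough Av
  constructor
  · rintro ⟨h2, h3⟩ p hp hm
    rw [mem_filter, mem_range] at hp
    rw [mem_image] at hm
    obtain ⟨d, hd, he⟩ := hm
    rw [mem_insert, mem_singleton] at hd
    rcases hd with rfl | rfl
    · refine h2 p hp.2 hp.1 ?_
      rw [Nat.zero_mod] at he
      exact Nat.dvd_of_mod_eq_zero he.symm
    · refine h3 p hp.2 hp.1 ?_
      rw [← Nat.modEq_iff_dvd' h1]
      exact he.symm
  · intro h
    constructor
    · intro p hp hpz hdvd
      refine h p (mem_filter.2 ⟨mem_range.2 hpz, hp⟩) (mem_image.2 ⟨0, by simp, ?_⟩)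
      rw [Nat.zero_mod]
      exact (Nat.mod_eq_zero_of_dvd hdvd).symm
    · intro p hp hpz hdvd
      refine h p (mem_filter.2 ⟨mem_range.2 hpz, hp⟩) (mem_image.2 ⟨2 * c, by simp, ?_⟩)
      rw [← Nat.modEq_iff_dvd' h1] at hdvd
      exact Eq.symm hdvd

theorem sum_shift (n : ℕ) (g : Finset ℕ → ℝ) :
    ∑ k ∈ Ico n (2 * n), g (sf n k) = ∑ m ∈ Ico (cen n) (cen n + n), g {m, 2 * cen n - m} := by
  have e : (n + 1) ^ 2 = n ^ 2 + 2 * n + 1 := by ring
  refine sum_nbij' (fun k => n ^ 2 + k + 1) (fun m => m - (n ^ 2 + 1)) ?_ ?_ ?_ ?_ ?_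
  · intro k hk
    rw [mem_Ico] at hk ⊢
    unfold cen
    omega
  · intro m hm
    rw [mem_Ico] at hm ⊢
    unfold cen at hm
    omega
  · intro k hk
    show n ^ 2 + k + 1 - (n ^ 2 + 1) = k
    omega
  · intro m hm
    rw [mem_Ico] at hm
    unfold cen at hm
    show n ^ 2 + (m - (n ^ 2 + 1)) + 1 = m
    omega
  · intro k hk
    rw [mem_Ico] at hk
    unfold sf cen
    congr 2
    rw [e]
    have : n ^ 2 + 2 * n + 1 - k = 2 * (n ^ 2 + n + 1) - (n ^ 2 + k + 1) := by omega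
    rw [this]

theorem pair_prod {p : ℕ → ℝ} {c m : ℕ} (h : c < m) (h2 : m < 2 * c) : ∏ x ∈ {m, 2 * c - m}, p x = p m * p (2 * c - m) := by
  rw [prod_pair (by omega)]

theorem pair_self {p : ℕ → ℝ} {c : ℕ} : ∏ x ∈ ({c, 2 * c - c} : Finset ℕ), p x = p c := by
  have : 2 * c - c = c := by omega
  rw [this, insert_eq_of_mem (mem_singleton_self c), prod_singleton]

theorem cen_win {n m : ℕ} (hn : 1 ≤ n) (hm : m ∈ Ico (cen n) (cen n + n)) : m ∈ sW n ∧ 2 * cen n - m ∈ sW n ∧ m < 2 * cen n := by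
  have e : (n + 1) ^ 2 = n ^ 2 + 2 * n + 1 := by ring
  rw [mem_Ico] at hm
  unfold cen at hm ⊢
  unfold sW
  rw [mem_Ioo, mem_Ioo]
  omega

/-- The expected number. -/
noncomputable def sS (z : ℕ → ℕ) (n : ℕ) : ℝ := ∑ k ∈ Ico n (2 * n), ∏ x ∈ sf n k, pr (z2 z) x

theorem sS_le {z : ℕ → ℕ} {k n : ℕ} (hn2 : 2 ≤ n) (hn : n ∈ block k) :
    sS z n ≤ 1 + NA (z k) {0, 2 * cen n} (cen n) n * (1 / (Vf (z k) * (2 * Real.log n))) ^ 2 := by
  classical
  unfold sS
  rw [sum_shift n (fun s => ∏ x ∈ s, pr (z2 z) x)]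
  have hV := Vf_pos (z k)
  have hl : 0 < Real.log (n : ℝ) := Real.log_pos (by exact_mod_cast hn2)
  have hc : 0 < cen n := by unfold cen; omega
  have h1 : ∑ m ∈ Ico (cen n) (cen n + n), ∏ x ∈ {m, 2 * cen n - m}, pr (z2 z) x ≤
      ∑ m ∈ Ico (cen n) (cen n + n), ((if m = cen n then 1 else 0) +
        (if Av (z k) {0, 2 * cen n} m then (1 / (Vf (z k) * (2 * Real.log n))) ^ 2 else 0)) := by
    refine sum_le_sum (fun m hm => ?_)
    obtain ⟨w1, w2, w3⟩ := cen_win (by omega) hm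
    rw [mem_Ico] at hm
    have h0 : 0 ≤ (if Av (z k) {0, 2 * cen n} m then (1 / (Vf (z k) * (2 * Real.log n))) ^ 2 else 0) := by
      split_ifs
      · positivity
      · exact le_rfl
    by_cases hmc : m = cen n
    · rw [if_pos hmc, hmc]
      rw [hmc] at h0
      rw [pair_self]
      have := pr_le_one (z2 z) (cen n)
      linarith
    · rw [if_neg hmc, zero_add, pair_prod (by omega) w3]
      by_cases hav : Av (z k) {0, 2 * cen n} m
      · rw [if_pos hav, sq]
        exact mul_le_mul (win_le hn2 hn w1) (win_le hn2 hn w2) (pr_nonneg _ _) (by positivity)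
      · rw [if_neg hav]
        rw [← rough_pair w3.le, not_and_or] at hav
        rcases hav with h | h
        · rw [win_zero hn w1 h, zero_mul]
        · rw [win_zero hn w2 h, mul_zero]
  refine h1.trans ?_
  rw [sum_add_distrib, sum_ite_eq' (Ico (cen n) (cen n + n)) (cen n) (fun _ => (1 : ℝ)), if_pos (by rw [mem_Ico]; omega),
    ← sum_filter, sum_const, nsmul_eq_mul]
  unfold NA
  exact le_rfl

theorem le_sS {z : ℕ → ℕ} {k n : ℕ} (hn2 : 2 ≤ n) (hn : n ∈ block k) (hq : 1 ≤ Vf (z k) * (2 * Real.log n)) :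
    NA (z k) {0, 2 * cen n} (cen n) n * (1 / (Vf (z k) * (2 * Real.log (n + 1)))) ^ 2 ≤ sS z n := by
  classical
  unfold sS
  rw [sum_shift n (fun s => ∏ x ∈ s, pr (z2 z) x)]
  have hV := Vf_pos (z k)
  have hl : 0 < Real.log (n : ℝ) := Real.log_pos (by exact_mod_cast hn2)
  have hl1 : Real.log (n : ℝ) ≤ Real.log ((n : ℝ) + 1) :=
    Real.log_le_log (by positivity) (by linarith)
  have hc : 0 < cen n := by unfold cen; omega
  obtain ⟨q, hqe⟩ : ∃ q : ℝ, q = 1 / (Vf (z k) * (2 * Real.log (n + 1))) := ⟨_, rfl⟩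
  have hl2 : 0 < Real.log ((n : ℝ) + 1) := by linarith
  have hq0 : 0 ≤ q := by rw [hqe]; positivity
  have hq1 : q ≤ 1 := by
    rw [hqe, div_le_one (by positivity)]
    exact hq.trans (mul_le_mul_of_nonneg_left (by linarith) hV.le)
  rw [← hqe]
  have h1 : ∑ m ∈ Ico (cen n) (cen n + n), (if Av (z k) {0, 2 * cen n} m then q ^ 2 else 0) ≤
      ∑ m ∈ Ico (cen n) (cen n + n), ∏ x ∈ {m, 2 * cen n - m}, pr (z2 z) x := by
    refine sum_le_sum (fun m hm => ?_)
    obtain ⟨w1, w2, w3⟩ := cen_win (by omega) hm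
    rw [mem_Ico] at hm
    by_cases hav : Av (z k) {0, 2 * cen n} m
    · rw [if_pos hav]
      obtain ⟨r1, r2⟩ := (rough_pair w3.le).2 hav
      have b1 := le_win hn2 hn w1 hq r1
      have b2 := le_win hn2 hn w2 hq r2
      rw [← hqe] at b1 b2
      by_cases hmc : m = cen n
      · rw [hmc, pair_self]
        rw [hmc] at b1
        nlinarith
      · rw [pair_prod (by omega) w3, sq]
        exact mul_le_mul b1 b2 hq0 (pr_nonneg _ _)
    · rw [if_neg hav]
      exact prod_nonneg (fun x _ => pr_nonneg _ _)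
  refine le_trans ?_ h1
  rw [← sum_filter, sum_const, nsmul_eq_mul]
  unfold NA
  exact le_rfl

end Pool.Agent.Q197.WN
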