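import Pool.Agent.Q197.WN.Sym

/-!
# Symmetric pairs between consecutive squares: the singular series and the asymptotics
-/

set_option autoImplicit false

namespace Pool.Agent.Q197.WN

open Finset MeasureTheory Filter Pool.Agent.Q120.TT Pool.Agent.Q120.ET Pool.Agent.Q120.GM
  Pool.Agent.Q120.CL Pool.Agent.Q120.MG Pool.Agent.Q120.HL
open scoped Topology

/-- The truncated twin prime constant (with its factor at `2`). -/
noncomputable def tw (z : ℕ) : ℝ := ∏ p ∈ (range z).filter Nat.Prime, (if p = 2 then 2 else 1 - 1 / ((p : ℝ) - 1) ^ 2)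

/-- The number of the forbidden classes at `p`. -/
def cls (n p : ℕ) : ℕ := if p = 2 ∨ p ∣ n ^ 2 + n + 1 then 1 else 2

/-- The truncated singular series. -/
noncomputable def Sg (z n : ℕ) : ℝ := ∏ p ∈ (range z).filter Nat.Prime, (1 - (cls n p : ℝ) / p) / (1 - 1 / (p : ℝ)) ^ 2

theorem nu_cen (n : ℕ) {p : ℕ} (hp : p.Prime) : nu {0, 2 * cen n} p = cls n p := by
  have e : cen n = n ^ 2 + n + 1 := rfl
  have h1 : ({0, 2 * cen n} : Finset ℕ).image (fun n => n % p) = {0 % p, (2 * cen n) % p} := by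
    rw [image_insert, image_singleton]
  unfold nu cls
  rw [h1, Nat.zero_mod]
  by_cases h : p = 2 ∨ p ∣ n ^ 2 + n + 1
  · rw [if_pos h]
    have h2 : (2 * cen n) % p = 0 := by
      apply Nat.mod_eq_zero_of_dvd
      rcases h with h | h
      · rw [h]; exact dvd_mul_right _ _
      · rw [e]; exact h.mul_left 2
    rw [h2, insert_eq_of_mem (mem_singleton_self 0), card_singleton]
  · rw [if_neg h]
    have h2 : ¬ (2 * cen n) % p = 0 := by
      intro h3
      have h4 := Nat.dvd_of_mod_eq_zero h3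
      rcases (Nat.Prime.dvd_mul hp).1 h4 with h5 | h5
      · exact h (Or.inl ((Nat.prime_dvd_prime_iff_eq hp Nat.prime_two).1 h5))
      · exact h (Or.inr h5)
    rw [card_pair (fun h3 => h2 h3.symm)]

theorem Sz_cen (z n : ℕ) : Sz {0, 2 * cen n} z = Sg z n := by
  have hc : 0 < cen n := by unfold cen; omega
  have hcard : ({0, 2 * cen n} : Finset ℕ).card = 2 := card_pair (by omega)
  unfold Sz Sg loc
  refine prod_congr rfl (fun p hp => ?_)
  rw [nu_cen n (mem_filter.1 hp).2, hcard]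

theorem fac_two : (1 - (1 : ℝ) / (2 : ℕ)) / (1 - 1 / ((2 : ℕ) : ℝ)) ^ 2 = 2 := by norm_num

theorem fac_odd {p : ℕ} (hp : p.Prime) : (1 - (2 : ℝ) / p) / (1 - 1 / (p : ℝ)) ^ 2 = 1 - 1 / ((p : ℝ) - 1) ^ 2 := by
  have h1 : (1 : ℝ) < p := by exact_mod_cast hp.one_lt
  have h2 : (p : ℝ) - 1 ≠ 0 := by linarith
  have h3 : (p : ℝ) ≠ 0 := by linarith
  have h4 : 1 - 1 / (p : ℝ) = ((p : ℝ) - 1) / p := by field_simp
  rw [h4, div_pow]
  field_simp
  ring

theorem tw_step (z : ℕ) : tw (z + 1) = tw z * (if z.Prime then (if z = 2 then 2 else 1 - 1 / ((z : ℝ) - 1) ^ 2) else 1) := by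
  unfold tw
  rw [range_add_one, filter_insert]
  by_cases h : z.Prime
  · rw [if_pos h, if_pos h, prod_insert (by simp), mul_comm]
  · rw [if_neg h, if_neg h, mul_one]

theorem tw_three : tw 3 = 2 := by
  have h0 : tw 0 = 1 := by unfold tw; simp
  have h1 : tw 1 = 1 := by rw [tw_step 0, h0, if_neg (by norm_num), mul_one]
  have h2 : tw 2 = 1 := by rw [tw_step 1, h1, if_neg (by norm_num), mul_one]
  rw [tw_step 2, h2, if_pos Nat.prime_two, if_pos rfl, one_mul]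

theorem tw_small {z : ℕ} (h : z ≤ 2) : tw z = 1 := by
  have h0 : tw 0 = 1 := by unfold tw; simp
  have h1 : tw 1 = 1 := by rw [tw_step 0, h0, if_neg (by norm_num), mul_one]
  have h2 : tw 2 = 1 := by rw [tw_step 1, h1, if_neg (by norm_num), mul_one]
  interval_cases z
  · exact h0
  · exact h1
  · exact h2

theorem tw_large (z : ℕ) (h : 3 ≤ z) : ((z : ℝ) - 1) / ((z : ℝ) - 2) ≤ tw z ∧ tw z ≤ 2 := by
  induction z, h using Nat.le_induction with
  | base =>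
    rw [tw_three]
    norm_num
  | succ z hz ih =>
    have hz3 : (3 : ℝ) ≤ z := by exact_mod_cast hz
    obtain ⟨h1, h2⟩ := ih
    have h0 : 0 < tw z := lt_of_lt_of_le (div_pos (by linarith) (by linarith)) h1
    rw [tw_step z]
    push_cast
    have e1 : (z : ℝ) + 1 - 1 = z := by ring
    have e2 : (z : ℝ) + 1 - 2 = z - 1 := by ring
    rw [e1, e2]
    by_cases hp : z.Prime
    · rw [if_pos hp, if_neg (by omega)]
      have h3 : 0 < 1 / ((z : ℝ) - 1) ^ 2 := by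
        have : 0 < (z : ℝ) - 1 := by linarith
        positivity
      constructor
      · have h4 : ((z : ℝ) - 1) / ((z : ℝ) - 2) * (1 - 1 / ((z : ℝ) - 1) ^ 2) = z / ((z : ℝ) - 1) := by
          have a1 : (z : ℝ) - 1 ≠ 0 := by linarith
          have a2 : (z : ℝ) - 2 ≠ 0 := by linarith
          field_simp
          ring
        rw [← h4]
        apply mul_le_mul_of_nonneg_right h1
        have h5 : 1 / ((z : ℝ) - 1) ^ 2 ≤ 1 := by
          rw [div_le_one (by nlinarith)]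
          nlinarith
        linarith
      · nlinarith
    · rw [if_neg hp, mul_one]
      refine ⟨le_trans ?_ h1, h2⟩
      rw [div_le_div_iff₀ (by linarith) (by linarith)]
      nlinarith

theorem tw_bounds (z : ℕ) : 1 ≤ tw z ∧ tw z ≤ 2 := by
  rcases Nat.lt_or_ge z 3 with h | h
  · rw [tw_small (by omega)]
    norm_num
  · obtain ⟨h1, h2⟩ := tw_large z h
    have hz3 : (3 : ℝ) ≤ z := by exact_mod_cast h
    refine ⟨le_trans ?_ h1, h2⟩
    rw [le_div_iff₀ (by linarith)]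
    linarith

theorem tw_fac_nonneg {p : ℕ} (hp : p.Prime) : (0 : ℝ) ≤ (if p = 2 then 2 else 1 - 1 / ((p : ℝ) - 1) ^ 2) := by
  split_ifs with h
  · norm_num
  · have h1 : 3 ≤ p := by
      have := hp.two_le
      omega
    have h2 : (3 : ℝ) ≤ p := by exact_mod_cast h1
    have h5 : 1 / ((p : ℝ) - 1) ^ 2 ≤ 1 := by
      rw [div_le_one (by nlinarith)]
      nlinarith
    linarith

theorem fac_ge (n : ℕ) {p : ℕ} (hp : p.Prime) : (if p = 2 then 2 else 1 - 1 / ((p : ℝ) - 1) ^ 2) ≤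
    (1 - (cls n p : ℝ) / p) / (1 - 1 / (p : ℝ)) ^ 2 := by
  unfold cls
  by_cases h2 : p = 2
  · rw [if_pos h2, if_pos (Or.inl h2), h2]
    push_cast
    norm_num
  · rw [if_neg h2]
    have h1 : (1 : ℝ) < p := by exact_mod_cast hp.one_lt
    by_cases h : p ∣ n ^ 2 + n + 1
    · rw [if_pos (Or.inr h), ← fac_odd hp]
      have h3 : 0 < 1 - 1 / (p : ℝ) := by
        have : 1 / (p : ℝ) < 1 := by rw [div_lt_one (by linarith)]; exact h1
        linarith
      apply div_le_div_of_nonneg_right _ (by positivity)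
      have : ((1 : ℕ) : ℝ) / p ≤ 2 / p := div_le_div_of_nonneg_right (by norm_num) (by linarith)
      linarith
    · rw [if_neg (by tauto), ← fac_odd hp]
      push_cast
      exact le_rfl

theorem Sg_ge (z n : ℕ) : tw z ≤ Sg z n :=
  prod_le_prod (fun p hp => tw_fac_nonneg (mem_filter.1 hp).2) (fun p hp => fac_ge n (mem_filter.1 hp).2)

theorem Sg_eq {z n : ℕ} (h : PQ z ∣ n) : Sg z n = tw z := by
  unfold Sg tw
  refine prod_congr rfl (fun p hp => ?_)
  have hpp := (mem_filter.1 hp).2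
  by_cases h2 : p = 2
  · rw [if_pos h2, h2]
    unfold cls
    rw [if_pos (Or.inl rfl)]
    norm_num
  · rw [if_neg h2, ← fac_odd hpp]
    have h3 : p ∣ n := (dvd_prod_of_mem _ hp).trans h
    have h4 : ¬ p ∣ n ^ 2 + n + 1 := by
      intro h5
      have h6 : p ∣ n ^ 2 + n := dvd_add (dvd_pow h3 (by norm_num)) h3
      have h7 : p ∣ 1 := (Nat.dvd_add_right h6).1 h5
      exact hpp.one_lt.ne' (Nat.dvd_one.1 h7)
    unfold cls
    rw [if_neg (by tauto)]
    push_cast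
    rfl

/-- The main term. -/
noncomputable def sE (z : ℕ → ℕ) (n : ℕ) : ℝ := Sg (z (Nat.log 2 n)) n * (n / (2 * Real.log n) ^ 2)

theorem log_top2 : Tendsto (fun n : ℕ => Nat.log 2 n) atTop atTop := by
  refine tendsto_atTop.2 (fun b => ?_)
  filter_upwards [eventually_ge_atTop (2 ^ b)] with n hn
  exact (Nat.le_log_iff_pow_le (by norm_num) (by have := Nat.one_le_two_pow (n := b); omega)).2 hn

theorem block_log {n : ℕ} (hn : n ≠ 0) : n ∈ block (Nat.log 2 n) := by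
  rw [mem_block]
  exact ⟨Nat.pow_log_le_self 2 hn, Nat.lt_pow_succ_log_self (by norm_num) n⟩

theorem logn_top : Tendsto (fun n : ℕ => Real.log (n : ℝ)) atTop atTop :=
  Real.tendsto_log_atTop.comp tendsto_natCast_atTop_atTop

/-- The algebra of the comparison. -/
theorem cmp_alg {δ l l' V A Q S X T : ℝ} (hδ : 0 < δ) (hδ1 : δ ≤ 1) (hl : 0 < l) (hll : l ≤ l') (hll2 : l' ≤ (1 + δ / 4) * l)
    (hV : 0 < V) (hS : 1 ≤ S) (hX : 0 < X) (hQ : Q / V ^ 2 ≤ δ / 8 * X) (hlog : (2 * l) ^ 2 ≤ δ / 8 * X)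
    (hA1 : S * V ^ 2 * X - Q ≤ A) (hA2 : A ≤ S * V ^ 2 * X + Q)
    (hup : T ≤ 1 + A * (1 / (V * (2 * l))) ^ 2) (hlo : A * (1 / (V * (2 * l'))) ^ 2 ≤ T) :
    |T - S * X / (2 * l) ^ 2| ≤ δ * (S * X / (2 * l) ^ 2) := by
  have hl' : 0 < l' := by linarith
  have hL0 : 0 < (2 * l) ^ 2 := by positivity
  have hVs : 0 < V ^ 2 := by positivity
  obtain ⟨Y, hY⟩ : ∃ Y, Y = S * X := ⟨_, rfl⟩
  have hXS : X ≤ Y := by rw [hY]; nlinarith
  have hY0 : 0 < Y := by linarith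
  obtain ⟨q, hq⟩ : ∃ q, q = Q / V ^ 2 := ⟨_, rfl⟩
  rw [← hq] at hQ
  have hδX : δ / 8 * X ≤ δ / 8 * Y := mul_le_mul_of_nonneg_left hXS (by positivity)
  rw [abs_le, ← hY]
  constructor
  · have h6 : (Y - q) / (2 * l') ^ 2 ≤ T := by
      refine le_trans (le_of_eq ?_) ((mul_le_mul_of_nonneg_right hA1 (by positivity)).trans hlo)
      rw [hY, hq]
      field_simp
    have h7 : (1 - δ / 8) * Y ≤ Y - q := by linarith
    have h8 : (2 * l') ^ 2 ≤ (1 + δ / 4) ^ 2 * (2 * l) ^ 2 := by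
      rw [← mul_pow]
      apply pow_le_pow_left₀ (by linarith)
      linarith
    have h70 : 0 ≤ (1 - δ / 8) * Y := mul_nonneg (by linarith) hY0.le
    have h9 : (1 - δ / 8) * Y / ((1 + δ / 4) ^ 2 * (2 * l) ^ 2) ≤ (Y - q) / (2 * l') ^ 2 :=
      div_le_div₀ (by linarith) h7 (by positivity) h8
    have h10 : (1 - δ) * (Y / (2 * l) ^ 2) ≤ (1 - δ / 8) * Y / ((1 + δ / 4) ^ 2 * (2 * l) ^ 2) := by
      rw [mul_div_assoc', div_le_div_iff₀ hL0 (by positivity)]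
      have h11 : (1 - δ) * (1 + δ / 4) ^ 2 ≤ 1 - δ / 8 := by
        have e : 1 - δ / 8 - (1 - δ) * (1 + δ / 4) ^ 2 = 3 / 8 * δ + 7 / 16 * δ ^ 2 + 1 / 16 * δ ^ 3 := by ring
        have : 0 ≤ 3 / 8 * δ + 7 / 16 * δ ^ 2 + 1 / 16 * δ ^ 3 := by positivity
        linarith
      have h12 : 0 ≤ Y * (2 * l) ^ 2 := by positivity
      calc (1 - δ) * Y * ((1 + δ / 4) ^ 2 * (2 * l) ^ 2) = (1 - δ) * (1 + δ / 4) ^ 2 * (Y * (2 * l) ^ 2) := by ring
        _ ≤ (1 - δ / 8) * (Y * (2 * l) ^ 2) := mul_le_mul_of_nonneg_right h11 h12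
        _ = (1 - δ / 8) * Y * (2 * l) ^ 2 := by ring
    linarith
  · have h6 : T ≤ 1 + (Y + q) / (2 * l) ^ 2 := by
      refine hup.trans ?_
      have : A * (1 / (V * (2 * l))) ^ 2 ≤ (Y + q) / (2 * l) ^ 2 := by
        refine (mul_le_mul_of_nonneg_right hA2 (by positivity)).trans (le_of_eq ?_)
        rw [hY, hq]
        field_simp
      linarith
    have h7 : 1 + (Y + q) / (2 * l) ^ 2 = ((2 * l) ^ 2 + Y + q) / (2 * l) ^ 2 := by
      field_simp
      ring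
    have h8 : ((2 * l) ^ 2 + Y + q) / (2 * l) ^ 2 ≤ (1 + δ) * Y / (2 * l) ^ 2 := by
      apply div_le_div_of_nonneg_right _ hL0.le
      have : 0 ≤ δ * Y := by positivity
      linarith
    have h9 : (1 + δ) * Y / (2 * l) ^ 2 = (1 + δ) * (Y / (2 * l) ^ 2) := by ring
    linarith

theorem sym_mean {z : ℕ → ℕ} (hz : Small z) {δ : ℝ} (hδ : 0 < δ) (hδ1 : δ ≤ 1) : ∀ᶠ n : ℕ in atTop,
    |sS z n - sE z n| ≤ δ * sE z n := by
  have hL2 : (0.6931471803 : ℝ) < Real.log 2 := Real.log_two_gt_d9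
  filter_upwards [log_top2.eventually (hz (1 / 8) (by norm_num)), log_top2.eventually (ev_two (8 / δ) 2 (show (0 : ℝ) < 1 / 2 by norm_num)),
    log_top2.eventually_ge_atTop 8, PH.log_le_pow (show (0 : ℝ) < 1 / 2 by norm_num) (32 / δ), logn_top.eventually_ge_atTop (4 / δ),
    eventually_ge_atTop 2] with n h1 h2 h3 h4 h5 hn2
  have hnb := block_log (show n ≠ 0 by omega)
  obtain ⟨k, hk⟩ : ∃ k, k = Nat.log 2 n := ⟨_, rfl⟩
  rw [← hk] at h1 h2 h3 hnb
  have hn0 : (0 : ℝ) < n := by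
    have : 0 < n := by omega
    exact_mod_cast this
  have hk8 : (8 : ℝ) ≤ k := by exact_mod_cast h3
  obtain ⟨V, hV⟩ : ∃ V, V = Vf (z k) := ⟨_, rfl⟩
  have hV0 : 0 < V := by rw [hV]; exact Vf_pos _
  have hV1 : 1 / ((z k : ℝ) + 1) ≤ V := by rw [hV]; exact le_Vf2 _
  have hz0 : (0 : ℝ) ≤ z k := Nat.cast_nonneg _
  have hV4 : 1 ≤ V * (((z k : ℝ)) + 1) := by
    rw [div_le_iff₀ (by linarith)] at hV1
    exact hV1
  have hV5 : 4 ≤ V * k := by nlinarith
  have hnk := (mem_block.1 hnb).1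
  have hnk' : (2 : ℝ) ^ k ≤ n := by exact_mod_cast hnk
  obtain ⟨l, hl⟩ : ∃ l, l = Real.log (n : ℝ) := ⟨_, rfl⟩
  have hlk : k * Real.log 2 ≤ l := by
    rw [hl, ← Real.log_pow]
    exact Real.log_le_log (by positivity) hnk'
  rw [← hl] at h4 h5
  have hl0 : 0 < l := by nlinarith
  have hq : 1 ≤ V * (2 * l) := by
    have h6 : V * (2 * (k * Real.log 2)) ≤ V * (2 * l) := by nlinarith
    have h7 : 1 ≤ V * (2 * (k * Real.log 2)) := by nlinarith
    linarith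
  obtain ⟨l', hl'⟩ : ∃ l', l' = Real.log ((n : ℝ) + 1) := ⟨_, rfl⟩
  have hll : l ≤ l' := by
    rw [hl, hl']
    exact Real.log_le_log hn0 (by linarith)
  have hll2 : l' ≤ (1 + δ / 4) * l := by
    have h6 : l' ≤ Real.log (2 * n) := by
      rw [hl']
      apply Real.log_le_log (by linarith)
      have : (2 : ℝ) ≤ n := by exact_mod_cast hn2
      linarith
    rw [Real.log_mul (by norm_num) hn0.ne', ← hl] at h6
    have h7 : Real.log 2 ≤ 1 := by have := Real.log_two_lt_d9; linarith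
    have h8 : 1 ≤ δ / 4 * l := by
      rw [div_le_iff₀ hδ] at h5
      linarith
    linarith
  have hup := sS_le (z := z) hn2 hnb
  have hlo := le_sS (z := z) hn2 hnb (by rw [← hV, ← hl]; exact hq)
  rw [← hV, ← hl] at hup
  rw [← hV, ← hl'] at hlo
  have hnear := NA_near (z k) {0, 2 * cen n} (cen n) n
  have hcard : ({0, 2 * cen n} : Finset ℕ).card = 2 := card_pair (by unfold cen; omega)
  have hde : de {0, 2 * cen n} (z k) = Sg (z k) n * V ^ 2 := by
    have := Sz_eq {0, 2 * cen n} (z k)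
    rw [hcard, Sz_cen, ← hV] at this
    rw [this]
    field_simp
  obtain ⟨A, hA⟩ : ∃ A : ℝ, A = NA (z k) {0, 2 * cen n} (cen n) n := ⟨_, rfl⟩
  obtain ⟨Q, hQ⟩ : ∃ Q : ℝ, Q = PQ (z k) := ⟨_, rfl⟩
  obtain ⟨S, hS⟩ : ∃ S : ℝ, S = Sg (z k) n := ⟨_, rfl⟩
  have hS1 : 1 ≤ S := by rw [hS]; exact (tw_bounds _).1.trans (Sg_ge _ _)
  rw [hde, ← hA, ← hQ, ← hS, abs_le] at hnear
  rw [← hA] at hup hlo
  have hQ0 : 0 ≤ Q := by rw [hQ]; exact Nat.cast_nonneg _
  have hQV : Q / V ^ 2 ≤ δ / 8 * n := by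
    have h6 : Q ≤ 4 ^ (z k) := by rw [hQ]; exact_mod_cast PQ_le (z k)
    have h7 : (4 : ℝ) ^ (z k) = (2 : ℝ) ^ (2 * (z k : ℝ)) := by
      rw [Real.rpow_mul (by norm_num), Real.rpow_natCast]
      norm_num
    have h8 : ((2 : ℝ) ^ k) ^ (1 / 2 : ℝ) = (2 : ℝ) ^ (k * (1 / 2 : ℝ)) := by
      rw [Real.rpow_mul (by norm_num), Real.rpow_natCast]
    have h9 : Q ≤ ((2 : ℝ) ^ k) ^ (1 / 2 : ℝ) := by
      rw [h8]
      refine h6.trans ?_
      rw [h7]
      exact Real.rpow_le_rpow_of_exponent_le (by norm_num) (by linarith)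
    have h10 : 1 / V ^ 2 ≤ (k : ℝ) ^ 2 := by
      rw [div_le_iff₀ (by positivity), ← mul_pow]
      exact one_le_pow₀ (by rw [mul_comm]; linarith)
    have h11 : (k : ℝ) ^ 2 ≤ δ / 8 * ((2 : ℝ) ^ k) ^ (1 / 2 : ℝ) := by
      have h12 : δ / 8 * (8 / δ * (k : ℝ) ^ 2) = (k : ℝ) ^ 2 := by
        field_simp
      rw [← h12]
      exact mul_le_mul_of_nonneg_left h2 (by positivity)
    have h12 : ((2 : ℝ) ^ k) ^ (1 / 2 : ℝ) * ((2 : ℝ) ^ k) ^ (1 / 2 : ℝ) = 2 ^ k := by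
      rw [← Real.rpow_add (by positivity)]
      norm_num
    calc Q / V ^ 2 = Q * (1 / V ^ 2) := by ring
      _ ≤ ((2 : ℝ) ^ k) ^ (1 / 2 : ℝ) * (δ / 8 * ((2 : ℝ) ^ k) ^ (1 / 2 : ℝ)) :=
          mul_le_mul h9 (h10.trans h11) (by positivity) (by positivity)
      _ = δ / 8 * (((2 : ℝ) ^ k) ^ (1 / 2 : ℝ) * ((2 : ℝ) ^ k) ^ (1 / 2 : ℝ)) := by ring
      _ = δ / 8 * 2 ^ k := by rw [h12]
      _ ≤ δ / 8 * n := mul_le_mul_of_nonneg_left hnk' (by positivity)
  have hlog : (2 * l) ^ 2 ≤ δ / 8 * n := by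
    have h6 : (32 / δ * l) ^ 2 ≤ ((n : ℝ) ^ (1 / 2 : ℝ)) ^ 2 := pow_le_pow_left₀ (by positivity) h4 2
    have h7 : ((n : ℝ) ^ (1 / 2 : ℝ)) ^ 2 = n := by
      rw [← Real.rpow_natCast, ← Real.rpow_mul hn0.le]
      norm_num
    rw [h7, mul_pow, div_pow] at h6
    have h8 : (32 : ℝ) ^ 2 / δ ^ 2 * l ^ 2 * δ ^ 2 = 1024 * l ^ 2 := by
      field_simp
      ring
    have h9 : 1024 * l ^ 2 ≤ n * δ ^ 2 := by
      rw [← h8]
      exact mul_le_mul_of_nonneg_right h6 (by positivity)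
    have h10 : δ ^ 2 ≤ δ := by nlinarith
    have h11 : (n : ℝ) * δ ^ 2 ≤ n * δ := mul_le_mul_of_nonneg_left h10 hn0.le
    nlinarith [sq_nonneg l]
  have hE : sE z n = S * n / (2 * l) ^ 2 := by
    unfold sE
    rw [← hk, ← hS, ← hl, mul_div_assoc]
  rw [hE]
  exact cmp_alg hδ hδ1 hl0 hll hll2 hV0 hS1 hn0 hQV hlog (by linarith [hnear.1]) (by linarith [hnear.2]) hup hlo

end Pool.Agent.Q197.WN
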