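import Pool.Agent.Q197.WN.SymB

/-!
# Symmetric pairs between consecutive squares: all phases, and the price of the failures
-/

set_option autoImplicit false

namespace Pool.Agent.Q197.WN

open Finset MeasureTheory Filter Pool.Agent.Q120.TT Pool.Agent.Q120.ET Pool.Agent.Q120.GM
  Pool.Agent.Q120.CL Pool.Agent.Q120.MG Pool.Agent.Q120.HL
open scoped Topology

theorem sE_ge (z : ℕ → ℕ) (n : ℕ) : tw (z (Nat.log 2 n)) * (n / (2 * Real.log n) ^ 2) ≤ sE z n := by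
  unfold sE
  exact mul_le_mul_of_nonneg_right (Sg_ge _ _) (by positivity)

theorem sym_grow (z : ℕ → ℕ) : ∀ᶠ n : ℕ in atTop, (n : ℝ) ^ (1 / 2 : ℝ) ≤ sE z n := by
  filter_upwards [PH.log_le_pow (show (0 : ℝ) < 1 / 4 by norm_num) 2, eventually_ge_atTop 2] with n h1 h2
  have hn0 : (0 : ℝ) < n := by
    have : 0 < n := by omega
    exact_mod_cast this
  have hl : 0 < Real.log (n : ℝ) := Real.log_pos (by exact_mod_cast h2)
  refine le_trans ?_ (sE_ge z n)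
  have h3 : (n : ℝ) ^ (1 / 2 : ℝ) ≤ n / (2 * Real.log n) ^ 2 := by
    rw [le_div_iff₀ (by positivity)]
    have h4 : (2 * Real.log n) ^ 2 ≤ (n : ℝ) ^ (1 / 2 : ℝ) := by
      have h5 : (2 * Real.log (n : ℝ)) ^ 2 ≤ ((n : ℝ) ^ (1 / 4 : ℝ)) ^ 2 := pow_le_pow_left₀ (by positivity) h1 2
      refine h5.trans (le_of_eq ?_)
      rw [← Real.rpow_natCast, ← Real.rpow_mul hn0.le]
      norm_num
    calc (n : ℝ) ^ (1 / 2 : ℝ) * (2 * Real.log n) ^ 2 ≤ (n : ℝ) ^ (1 / 2 : ℝ) * (n : ℝ) ^ (1 / 2 : ℝ) :=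
          mul_le_mul_of_nonneg_left h4 (by positivity)
      _ = n := by
          rw [← Real.rpow_add hn0]
          norm_num
  refine h3.trans ?_
  have h4 := (tw_bounds (z (Nat.log 2 n))).1
  have h5 : 0 ≤ (n : ℝ) / (2 * Real.log n) ^ 2 := by positivity
  nlinarith

theorem prod_le_mem {p : ℕ → ℝ} (hp : ∀ n, 0 ≤ p n ∧ p n ≤ 1) {s : Finset ℕ} {a : ℕ} (ha : a ∈ s) : ∏ x ∈ s, p x ≤ p a := by
  rw [← mul_prod_erase s p ha]
  have h1 : ∏ x ∈ s.erase a, p x ≤ 1 := prod_le_one (fun x _ => (hp x).1) (fun x _ => (hp x).2)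
  have h2 := (hp a).1
  nlinarith

/-- All phases. -/
theorem sym_all {z : ℕ → ℕ} (hz : Small z) :
    Phase (pr (z2 z)) sW (fun n => grp (Ico n (2 * n)) (sf n)) (sE z) (fun k M => cost (sE z) (block k) M) ∧
      Low (pr (z2 z)) sW (fun n => grp (Ico n (2 * n)) (sf n)) (sE z) ∧
      High (pr (z2 z)) sW (fun n => grp (Ico n (2 * n)) (sf n)) (sE z) := by
  have hsmall : ∀ δ : ℝ, 0 < δ → ∀ᶠ n : ℕ in atTop, ∀ x ∈ sW n, pr (z2 z) x ≤ δ := by
    intro δ hδ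
    obtain ⟨N, hN⟩ := eventually_atTop.1 (pr_tendsto (small2 hz) hδ)
    filter_upwards [eventually_ge_atTop (N + 1)] with n hn x hx
    refine hN x ?_
    unfold sW at hx
    rw [mem_Ioo] at hx
    have : n ≤ n ^ 2 := Nat.le_self_pow (by norm_num) n
    omega
  have prob : ∀ n, 0 ≤ pr (z2 z) n ∧ pr (z2 z) n ≤ 1 := fun n => ⟨pr_nonneg _ n, pr_le_one _ n⟩
  refine of_grp prob sW_disj (hsmall (1 / 2) (by norm_num)) (fun n k hk => sf_sub hk) (fun n i hi j hj => sf_disj hi hj)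
    ⟨1 / 2, by norm_num, sym_grow z⟩ ?_ ?_
  · intro δ hδ
    filter_upwards [hsmall δ hδ] with n hn k hk
    have hm : n ^ 2 + k + 1 ∈ sf n k := mem_insert_self _ _
    exact (prod_le_mem prob hm).trans (hn _ (sf_sub hk hm))
  · intro δ hδ
    filter_upwards [sym_mean hz (lt_min hδ one_pos) (min_le_right δ 1), (grow_top ⟨1 / 2, by norm_num, sym_grow z⟩).eventually_ge_atTop 0]
      with n hn hE
    exact hn.trans (mul_le_mul_of_nonneg_right (min_le_left _ _) hE)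

/-- The price of one failure. -/
noncomputable def su (z : ℕ → ℕ) (k : ℕ) : ℝ := tw (z k) * (2 ^ k / (2 * Real.log 2 * k) ^ 2)

theorem su_pos (z : ℕ → ℕ) {k : ℕ} (hk : 1 ≤ k) : 0 < su z k := by
  have h1 := (tw_bounds (z k)).1
  have hl2 : 0 < Real.log 2 := Real.log_pos (by norm_num)
  have hk0 : (0 : ℝ) < k := by exact_mod_cast hk
  unfold su
  have : (0 : ℝ) < 2 ^ k / (2 * Real.log 2 * k) ^ 2 := by positivity
  nlinarith

theorem block_log_eq {k n : ℕ} (hn : n ∈ block k) : Nat.log 2 n = k := by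
  rw [mem_block] at hn
  exact Nat.log_eq_of_pow_le_of_lt_pow hn.1 hn.2

theorem su_le {ε : ℝ} (hε : 0 < ε) (z : ℕ → ℕ) : ∀ᶠ k : ℕ in atTop, ∀ n ∈ block k, (1 - ε) * su z k ≤ sE z n := by
  have hlim : Tendsto (fun k : ℕ => ((k : ℝ) / (k + 1)) ^ 2) atTop (𝓝 1) := by
    have h1 : Tendsto (fun k : ℕ => (k : ℝ) / (k + 1)) atTop (𝓝 1) := tendsto_natCast_div_add_atTop 1
    have h2 := h1.pow 2
    rwa [one_pow] at h2
  filter_upwards [hlim.eventually (Ioi_mem_nhds (show 1 - ε < 1 by linarith)), eventually_ge_atTop 1] with k h1 h2 n hn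
  have h1' : 1 - ε < ((k : ℝ) / (k + 1)) ^ 2 := h1
  have hl2 : 0 < Real.log 2 := Real.log_pos (by norm_num)
  have hk0 : (0 : ℝ) < k := by exact_mod_cast h2
  refine le_trans ?_ (sE_ge z n)
  rw [block_log_eq hn]
  rw [mem_block] at hn
  have hn1 : (2 : ℝ) ^ k ≤ n := by exact_mod_cast hn.1
  have hn2 : (n : ℝ) ≤ 2 ^ (k + 1) := by exact_mod_cast hn.2.le
  have hn0 : (0 : ℝ) < n := lt_of_lt_of_le (by positivity) hn1
  have hlo : k * Real.log 2 ≤ Real.log n := by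
    rw [← Real.log_pow]
    exact Real.log_le_log (by positivity) hn1
  have hup : Real.log n ≤ (k + 1) * Real.log 2 := by
    have := Real.log_le_log hn0 hn2
    rw [Real.log_pow] at this
    push_cast at this
    exact this
  have hln : 0 < Real.log (n : ℝ) := lt_of_lt_of_le (by positivity) hlo
  have h3 : (1 - ε) * (2 ^ k / (2 * Real.log 2 * k) ^ 2) ≤ n / (2 * Real.log n) ^ 2 := by
    have h4 : (1 - ε) * (2 ^ k / (2 * Real.log 2 * k) ^ 2) ≤ ((k : ℝ) / (k + 1)) ^ 2 * (2 ^ k / (2 * Real.log 2 * k) ^ 2) :=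
      mul_le_mul_of_nonneg_right h1'.le (by positivity)
    have h5 : ((k : ℝ) / (k + 1)) ^ 2 * (2 ^ k / (2 * Real.log 2 * k) ^ 2) = 2 ^ k / (2 * ((k + 1) * Real.log 2)) ^ 2 := by
      field_simp
    rw [h5] at h4
    refine h4.trans ?_
    apply div_le_div₀ hn0.le hn1 (by positivity)
    apply pow_le_pow_left₀ (by positivity)
    linarith
  have h4 := (tw_bounds (z k)).1
  unfold su
  calc (1 - ε) * (tw (z k) * (2 ^ k / (2 * Real.log 2 * k) ^ 2)) = tw (z k) * ((1 - ε) * (2 ^ k / (2 * Real.log 2 * k) ^ 2)) := by ring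
    _ ≤ tw (z k) * (n / (2 * Real.log n) ^ 2) := mul_le_mul_of_nonneg_left h3 (by linarith)

theorem le_su {ε : ℝ} (hε : 0 < ε) {z : ℕ → ℕ} {k n : ℕ} (hk : 1 ≤ k) (hn : n ∈ block k) (hd : PQ (z k) ∣ n)
    (hle : (n : ℝ) ≤ (1 + ε) * 2 ^ k) : sE z n ≤ (1 + ε) * su z k := by
  have hl2 : 0 < Real.log 2 := Real.log_pos (by norm_num)
  have hk0 : (0 : ℝ) < k := by exact_mod_cast hk
  unfold sE su
  rw [block_log_eq hn, Sg_eq hd]
  rw [mem_block] at hn
  have hn1 : (2 : ℝ) ^ k ≤ n := by exact_mod_cast hn.1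
  have hlo : k * Real.log 2 ≤ Real.log n := by
    rw [← Real.log_pow]
    exact Real.log_le_log (by positivity) hn1
  have h3 : (n : ℝ) / (2 * Real.log n) ^ 2 ≤ (1 + ε) * 2 ^ k / (2 * Real.log 2 * k) ^ 2 := by
    apply div_le_div₀ (by positivity) hle (by positivity)
    apply pow_le_pow_left₀ (by positivity)
    linarith
  have h4 := (tw_bounds (z k)).1
  calc tw (z k) * (n / (2 * Real.log n) ^ 2) ≤ tw (z k) * ((1 + ε) * 2 ^ k / (2 * Real.log 2 * k) ^ 2) :=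
        mul_le_mul_of_nonneg_left h3 (by linarith)
    _ = (1 + ε) * (tw (z k) * (2 ^ k / (2 * Real.log 2 * k) ^ 2)) := by ring

/-- The asymptotic formula of the cost. -/
theorem sym_cost {z : ℕ → ℕ} (hz : Small z) {ε δ : ℝ} (hε : 0 < ε) (hδ : 0 < δ) : ∀ᶠ k : ℕ in atTop, ∀ M : ℕ, 1 ≤ M →
    (M : ℝ) ≤ 2 ^ ((1 - δ) * (k : ℝ)) →
    (1 - ε) * (M * su z k) ≤ cost (sE z) (block k) M ∧ cost (sE z) (block k) M ≤ (1 + ε) * (M * su z k) := by
  obtain ⟨η, hη⟩ : ∃ η : ℝ, η = min ε 1 / 2 := ⟨_, rfl⟩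
  have hη0 : 0 < η := by rw [hη]; exact div_pos (lt_min hε one_pos) (by norm_num)
  have hη1 : η ≤ ε := by rw [hη]; have := min_le_left ε 1; linarith
  have hη2 : η ≤ 1 / 2 := by rw [hη]; have := min_le_right ε 1; linarith
  have hlim : Tendsto (fun k : ℕ => (2 : ℝ) ^ ((δ / 2) * (k : ℝ))) atTop atTop := by
    have h1 : Tendsto (fun k : ℕ => (δ / 2) * (k : ℝ)) atTop atTop :=
      tendsto_natCast_atTop_atTop.const_mul_atTop (by linarith)
    have h2 : Tendsto (fun k : ℕ => Real.exp (Real.log 2 * ((δ / 2) * (k : ℝ)))) atTop atTop :=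
      Real.tendsto_exp_atTop.comp (h1.const_mul_atTop (Real.log_pos (by norm_num)))
    refine h2.congr (fun k => ?_)
    rw [Real.rpow_def_of_pos (by norm_num)]
  filter_upwards [su_le hη0 z, hlim.eventually_ge_atTop (2 / η), hz (δ / 4) (by linarith), eventually_ge_atTop 1] with k h1 h2 h3 h4 M hM hMk
  have hM0 : (1 : ℝ) ≤ M := by exact_mod_cast hM
  have hsu := su_pos z h4
  obtain ⟨Q, hQ⟩ : ∃ Q, Q = PQ (z k) := ⟨_, rfl⟩
  have hQ0 : 0 < Q := by rw [hQ]; exact PQ_pos _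
  have hQ1 : (1 : ℝ) ≤ Q := by exact_mod_cast hQ0
  have hQM : 2 * ((Q : ℝ) * M) ≤ η * 2 ^ k := by
    have h6 : (Q : ℝ) ≤ 4 ^ (z k) := by rw [hQ]; exact_mod_cast PQ_le (z k)
    have h7 : (4 : ℝ) ^ (z k) = (2 : ℝ) ^ (2 * (z k : ℝ)) := by
      rw [Real.rpow_mul (by norm_num), Real.rpow_natCast]
      norm_num
    have h8 : (Q : ℝ) ≤ (2 : ℝ) ^ (δ / 2 * (k : ℝ)) := by
      rw [h7] at h6
      exact h6.trans (Real.rpow_le_rpow_of_exponent_le (by norm_num) (by linarith))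
    have h9 : (2 : ℝ) ^ ((1 - δ) * (k : ℝ)) * ((2 : ℝ) ^ (δ / 2 * (k : ℝ)) * (2 : ℝ) ^ (δ / 2 * (k : ℝ))) = 2 ^ k := by
      rw [← Real.rpow_add (by norm_num), ← Real.rpow_add (by norm_num), ← Real.rpow_natCast 2 k]
      congr 1
      ring
    obtain ⟨Y, hY⟩ : ∃ Y : ℝ, Y = (2 : ℝ) ^ (δ / 2 * (k : ℝ)) := ⟨_, rfl⟩
    obtain ⟨X, hX⟩ : ∃ X : ℝ, X = (2 : ℝ) ^ ((1 - δ) * (k : ℝ)) := ⟨_, rfl⟩
    rw [← hY] at h2 h8 h9
    rw [← hX] at h9 hMk
    have hY0 : 0 < Y := by rw [hY]; positivity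
    have h10 : 2 ≤ η * Y := by
      rw [div_le_iff₀ hη0] at h2
      linarith
    have h11 : (Q : ℝ) * M ≤ Y * X := mul_le_mul h8 hMk (by linarith) hY0.le
    rw [← h9]
    have hX0 : 0 < X := by rw [hX]; positivity
    have h12 : 2 * (Y * X) ≤ η * Y * (Y * X) := mul_le_mul_of_nonneg_right h10 (by positivity)
    calc 2 * ((Q : ℝ) * M) ≤ 2 * (Y * X) := by linarith
      _ ≤ η * Y * (Y * X) := h12
      _ = η * (X * (Y * Y)) := by ring
  obtain ⟨a, ha⟩ : ∃ a, a = 2 ^ k / Q + 1 := ⟨_, rfl⟩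
  obtain ⟨J, hJ⟩ : ∃ J : Finset ℕ, J = (Ico a (a + M)).image (fun j => Q * j) := ⟨_, rfl⟩
  have hJc : J.card = M := by
    rw [hJ, card_image_of_injective _ (fun x y h => Nat.eq_of_mul_eq_mul_left hQ0 h), Nat.card_Ico]
    omega
  have hmem : ∀ n ∈ J, 2 ^ k ≤ n ∧ (n : ℝ) ≤ (1 + η) * 2 ^ k ∧ Q ∣ n := by
    intro n hn
    rw [hJ, mem_image] at hn
    obtain ⟨j, hj, rfl⟩ := hn
    rw [mem_Ico] at hj
    have b1 : 2 ^ k < Q * (2 ^ k / Q + 1) := Nat.lt_mul_div_succ _ hQ0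
    have b2 : Q * (2 ^ k / Q) ≤ 2 ^ k := Nat.mul_div_le _ _
    refine ⟨?_, ?_, dvd_mul_right _ _⟩
    · rw [← ha] at b1
      exact b1.le.trans (Nat.mul_le_mul_left Q hj.1)
    · have b3 : Q * j ≤ Q * (2 ^ k / Q) + Q + Q * M := by
        have : j ≤ 2 ^ k / Q + 1 + M := by omega
        calc Q * j ≤ Q * (2 ^ k / Q + 1 + M) := Nat.mul_le_mul_left Q this
          _ = Q * (2 ^ k / Q) + Q + Q * M := by ring
      have b4 : Q * j ≤ 2 ^ k + Q + Q * M := by omega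
      have b5 : ((Q * j : ℕ) : ℝ) ≤ 2 ^ k + Q + Q * M := by exact_mod_cast b4
      have b6 : (Q : ℝ) ≤ Q * M := by nlinarith
      linarith
  have hJb : J ⊆ block k := by
    intro n hn
    obtain ⟨b1, b2, _⟩ := hmem n hn
    rw [mem_block]
    refine ⟨b1, ?_⟩
    have b3 : (n : ℝ) < 2 ^ (k + 1) := by
      rw [pow_succ]
      have : (0 : ℝ) < 2 ^ k := by positivity
      nlinarith
    exact_mod_cast b3
  constructor
  · have h6 := le_cost (e := sE z) (I := block k) (M := M) (by rw [← hJc]; exact card_le_card hJb) h1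
    refine le_trans ?_ h6
    have h7 : 0 < M * su z k := by positivity
    nlinarith
  · have h6 := cost_le (e := sE z) hJb
    rw [hJc] at h6
    refine h6.trans ?_
    have h7 : ∑ n ∈ J, sE z n ≤ ∑ n ∈ J, (1 + η) * su z k := by
      refine sum_le_sum (fun n hn => ?_)
      obtain ⟨_, b2, b3⟩ := hmem n hn
      exact le_su hη0 h4 (hJb hn) (by rw [← hQ]; exact b3) b2
    rw [sum_const, hJc, nsmul_eq_mul] at h7
    refine h7.trans ?_
    have h8 : 0 < M * su z k := by positivity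
    nlinarith

end Pool.Agent.Q197.WN
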