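import Pool.Agent.Q197.PH.As
import Pool.Agent.Q197.WN.Sqr

/-!
# Windows of length `1 + φ(n)` after `n ^ 2`
-/

set_option autoImplicit false

namespace Pool.Agent.Q197.WN

open Finset MeasureTheory Filter Pool.Agent.Q120.TT Pool.Agent.Q120.ET Pool.Agent.Q120.GM
open Pool.Agent.Q197.PH (eg eg_pos phi_ge g g_mono cand cand_card log_le_pow)
open scoped Topology

/-- The price of one window. -/
noncomputable def unit (k : ℕ) : ℝ := eg * 2 ^ k / (2 * Real.log 2 * k * Real.log k)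

/-- The first point after the window. -/
def tv (n : ℕ) : ℕ := n ^ 2 + Nat.totient n + 2

/-- The expected number of elements. -/
noncomputable def tE (n : ℕ) : ℝ := (1 + Nat.totient n) / (2 * Real.log n)

theorem phi_pow : ∀ᶠ n : ℕ in atTop, (n : ℝ) ^ (3 / 4 : ℝ) ≤ Nat.totient n := by
  filter_upwards [phi_ge (show (0 : ℝ) < 1 / 2 by norm_num) (by norm_num), log_le_pow (show (0 : ℝ) < 1 / 4 by norm_num) (2 / eg),
    (PH.loglog_top).eventually_gt_atTop 0, (PH.log_top').eventually_ge_atTop 1, eventually_gt_atTop 0] with n h1 h2 h3 h4 h5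
  have hn : (0 : ℝ) < n := by exact_mod_cast h5
  have hl : Real.log (Real.log n) ≤ Real.log n := by
    have := Real.log_le_sub_one_of_pos (show 0 < Real.log (n : ℝ) by linarith)
    linarith
  refine le_trans ?_ h1
  have h6 : (n : ℝ) / Real.log n ≤ n / Real.log (Real.log n) := div_le_div_of_nonneg_left hn.le h3 hl
  have h7 : (n : ℝ) ^ (3 / 4 : ℝ) * (n : ℝ) ^ (1 / 4 : ℝ) = n := by
    rw [← Real.rpow_add hn]
    norm_num
  have h8 := eg_pos
  have h9 : (n : ℝ) ^ (3 / 4 : ℝ) ≤ eg / 2 * (n / Real.log n) := by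
    rw [mul_div_assoc', le_div_iff₀ (by linarith)]
    have h10 : Real.log n ≤ eg / 2 * (n : ℝ) ^ (1 / 4 : ℝ) := by
      have h11 : eg / 2 * (2 / eg * Real.log n) ≤ eg / 2 * (n : ℝ) ^ (1 / 4 : ℝ) :=
        mul_le_mul_of_nonneg_left h2 (by positivity)
      have h12 : eg / 2 * (2 / eg * Real.log n) = Real.log n := by field_simp
      rwa [h12] at h11
    have h13 : 0 ≤ (n : ℝ) ^ (3 / 4 : ℝ) := by positivity
    calc (n : ℝ) ^ (3 / 4 : ℝ) * Real.log n ≤ (n : ℝ) ^ (3 / 4 : ℝ) * (eg / 2 * (n : ℝ) ^ (1 / 4 : ℝ)) :=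
          mul_le_mul_of_nonneg_left h10 h13
      _ = eg / 2 * ((n : ℝ) ^ (3 / 4 : ℝ) * (n : ℝ) ^ (1 / 4 : ℝ)) := by ring
      _ = eg / 2 * n := by rw [h7]
  have h10 : eg / 2 * ((n : ℝ) / Real.log n) ≤ eg / 2 * (n / Real.log (Real.log n)) :=
    mul_le_mul_of_nonneg_left h6 (by positivity)
  calc (n : ℝ) ^ (3 / 4 : ℝ) ≤ eg / 2 * (n / Real.log (Real.log n)) := h9.trans h10
    _ = (1 - 1 / 2) * eg * (n / Real.log (Real.log n)) := by ring

theorem tot_wins : Wins (fun n => n ^ 2 + 1) tv (1 / 4) := by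
  refine Wins.of ?_ ?_ ?_ ?_
  · filter_upwards with n
    nlinarith
  · filter_upwards [phi_pow, eventually_ge_atTop 1] with n hn hn1
    have e : tv n - (n ^ 2 + 1) = Nat.totient n + 1 := by unfold tv; omega
    rw [e]
    refine ⟨by unfold tv; omega, ?_⟩
    have hn0 : (1 : ℝ) ≤ n := by exact_mod_cast hn1
    have h1 : ((n : ℝ) ^ (3 / 4 : ℝ)) ^ (4 : ℕ) = (n : ℝ) ^ (3 : ℕ) := by
      rw [← Real.rpow_natCast, ← Real.rpow_mul (by positivity)]
      norm_num
    have h2 : ((n : ℝ) ^ (3 / 4 : ℝ)) ^ (4 : ℕ) ≤ (Nat.totient n : ℝ) ^ (4 : ℕ) := pow_le_pow_left₀ (by positivity) hn 4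
    rw [h1] at h2
    have h3 : n ^ 3 ≤ Nat.totient n ^ 4 := by exact_mod_cast h2
    have h4 : n ^ 2 ≤ n ^ 3 := Nat.pow_le_pow_right hn1 (by norm_num)
    have h5 : Nat.totient n ^ 4 + 1 ≤ (Nat.totient n + 1) ^ 4 := by
      obtain ⟨t, ht⟩ : ∃ t, t = Nat.totient n := ⟨_, rfl⟩
      rw [← ht]
      have : (t + 1) ^ 4 = t ^ 4 + 1 + (4 * t ^ 3 + 6 * t ^ 2 + 4 * t) := by ring
      omega
    omega
  · filter_upwards [eventually_ge_atTop 4] with n hn
    have h1 := Nat.totient_le n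
    unfold tv
    nlinarith
  · intro i j hij
    have h1 := Nat.totient_le i
    have h2 := Nat.pow_le_pow_left hij 2
    have h3 : (i + 1) ^ 2 = i ^ 2 + 2 * i + 1 := by ring
    unfold tv
    show i ^ 2 + Nat.totient i + 2 ≤ j ^ 2 + 1
    rw [Nat.succ_eq_add_one, h3] at h2
    omega

theorem tot_asy : Asy tE (wt (fun n => n ^ 2 + 1) tv 1) 1 := by
  have hL : Tendsto (fun n : ℕ => Real.log ((n ^ 2 + 1 : ℕ) : ℝ) / (((2 : ℕ) : ℝ) * Real.log n)) atTop (𝓝 1) :=
    log_ratio (u := fun n => n ^ 2 + 1) (by norm_num) one_pos (show (0 : ℝ) < 2 by norm_num) (by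
      filter_upwards [eventually_ge_atTop 1] with n hn
      have hn0 : (1 : ℝ) ≤ n := by exact_mod_cast hn
      push_cast
      constructor <;> nlinarith)
  have hg : Tendsto (fun n : ℕ => (1 + (Nat.totient n : ℝ)) / ((tv n : ℝ) - ((n ^ 2 + 1 : ℕ) : ℝ))) atTop (𝓝 1) := by
    refine tendsto_const_nhds.congr (fun n => ?_)
    unfold tv
    push_cast
    have e : ((n : ℝ) ^ 2 + Nat.totient n + 2) - ((n : ℝ) ^ 2 + 1) = 1 + Nat.totient n := by ring
    rw [e, div_self (by positivity)]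
  have h2 := asy_of tot_wins (r := 1) (σ := 1) (fun n : ℕ => 1 + (Nat.totient n : ℝ)) (fun n : ℕ => ((2 : ℕ) : ℝ) * Real.log n) hg hL
  have e : (fun n : ℕ => (1 : ℝ) * ((1 + (Nat.totient n : ℝ)) / (((2 : ℕ) : ℝ) * Real.log n) ^ 1)) = tE := by
    funext n
    unfold tE
    norm_num
  rwa [e] at h2

theorem unit_pos : ∀ᶠ k : ℕ in atTop, 0 < unit k := by
  filter_upwards [(PH.log_top').eventually_gt_atTop 0, eventually_gt_atTop 0] with k h1 h2
  have hl2 : 0 < Real.log 2 := Real.log_pos (by norm_num)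
  have hk : (0 : ℝ) < k := by exact_mod_cast h2
  have := eg_pos
  unfold unit
  positivity

theorem two_top : Tendsto (fun k : ℕ => 2 ^ k) atTop atTop := tendsto_pow_atTop_atTop_of_one_lt (by norm_num)

theorem log_two_pow (k : ℕ) : Real.log ((2 ^ k : ℕ) : ℝ) = k * Real.log 2 := by
  push_cast
  rw [Real.log_pow]

theorem loglog_near {ε : ℝ} (hε : 0 < ε) : ∀ᶠ k : ℕ in atTop, 0 < Real.log ((k : ℝ) * Real.log 2) ∧
    Real.log ((k : ℝ) * Real.log 2) ≤ Real.log k ∧ (1 - ε) * Real.log k ≤ Real.log ((k : ℝ) * Real.log 2) := by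
  have hl2 : 0 < Real.log 2 := Real.log_pos (by norm_num)
  have hl21 : Real.log 2 ≤ 1 := by have := Real.log_two_lt_d9; linarith
  have hll : Real.log (Real.log 2) ≤ 0 := Real.log_nonpos hl2.le hl21
  filter_upwards [(PH.log_top').eventually_gt_atTop (-Real.log (Real.log 2)), (PH.log_top').eventually_ge_atTop (-Real.log (Real.log 2) / ε),
    eventually_gt_atTop 0] with k h1 h2 h3
  have hk : (0 : ℝ) < k := by exact_mod_cast h3
  rw [Real.log_mul hk.ne' hl2.ne']
  rw [div_le_iff₀ hε] at h2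
  refine ⟨by linarith, by linarith, by linarith⟩

/-- The lower bound for all windows of the block. -/
theorem tE_ge {ε : ℝ} (hε : 0 < ε) (hε1 : ε ≤ 1) : ∀ᶠ k : ℕ in atTop, ∀ n ∈ block k, (1 - ε) * unit k ≤ tE n := by
  have hl2 : 0 < Real.log 2 := Real.log_pos (by norm_num)
  filter_upwards [ev_block (phi_ge hε hε1), two_top.eventually g_mono, loglog_near hε, ev_block ((PH.loglog_top).eventually_gt_atTop 0),
    ev_block ((PH.log_top').eventually_gt_atTop 0), eventually_gt_atTop 0, (PH.log_top').eventually_gt_atTop 0] with k h1 h2 h3 h4 h5 h6 h7 n hn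
  have hk : (0 : ℝ) < k := by exact_mod_cast h6
  have hk7 : 0 < Real.log (k : ℝ) := h7
  have hnk : 2 ^ k ≤ n := by
    unfold block at hn
    exact (mem_Ico.1 hn).1
  have h8 := h2 n hnk
  have h9 := h1 n hn
  have h10 := h4 n hn
  have h11 := h5 n hn
  have h12 := eg_pos
  have h13 : unit k ≤ eg / 2 * g (2 ^ k) := by
    unfold unit PH.g
    rw [log_two_pow]
    push_cast
    have e : eg / 2 * ((2 : ℝ) ^ k / (k * Real.log 2 * Real.log (k * Real.log 2))) =
        eg * 2 ^ k / (2 * Real.log 2 * k * Real.log (k * Real.log 2)) := by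
      have := h3.1.ne'
      field_simp
    rw [e]
    apply div_le_div_of_nonneg_left (by positivity)
    · have := h3.1
      positivity
    · exact mul_le_mul_of_nonneg_left h3.2.1 (by positivity)
  have h14 : (1 - ε) * (eg / 2 * g n) ≤ tE n := by
    unfold tE PH.g
    rw [le_div_iff₀ (by positivity)]
    have e : (1 - ε) * (eg / 2 * ((n : ℝ) / (Real.log n * Real.log (Real.log n)))) * (2 * Real.log n) =
        (1 - ε) * eg * (n / Real.log (Real.log n)) := by
      field_simp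
    rw [e]
    linarith
  refine le_trans ?_ h14
  apply mul_le_mul_of_nonneg_left _ (by linarith)
  exact h13.trans (mul_le_mul_of_nonneg_left h8 (by positivity))

end Pool.Agent.Q197.WN
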