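import Pool.Agent.Q197.WN.Tot

/-!
# The sum of the `M` smallest expectations
-/

set_option autoImplicit false

namespace Pool.Agent.Q197.WN

open Finset MeasureTheory Filter Pool.Agent.Q120.TT Pool.Agent.Q120.ET Pool.Agent.Q120.GM
open Pool.Agent.Q197.PH (eg eg_pos phi_ge g g_mono cand cand_card log_le_pow)
open scoped Topology

theorem cand_block {ε : ℝ} (hε1 : ε < 1) (k : ℕ) : cand ε (2 ^ k) ⊆ block k := by
  intro n hn
  unfold PH.cand at hn
  rw [mem_filter, mem_Icc] at hn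
  unfold block
  rw [mem_Ico]
  refine ⟨hn.1.1, ?_⟩
  have h0 : n ≠ 0 := by
    have := hn.1.1
    have : 0 < 2 ^ k := by positivity
    omega
  have h1 := (Nat.le_floor_iff' h0).1 hn.1.2
  push_cast at h1
  have h2 : (n : ℝ) < 2 ^ (k + 1) := by
    rw [pow_succ]
    have : (0 : ℝ) < 2 ^ k := by positivity
    nlinarith
  exact_mod_cast h2

/-- The upper bound for the windows of the candidates. -/
theorem tE_le {ε : ℝ} (hε : 0 < ε) (hε1 : ε ≤ 1 / 16) : ∀ᶠ k : ℕ in atTop, ∀ n ∈ cand ε (2 ^ k), tE n ≤ (1 + 8 * ε) * unit k := by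
  have hl2 : 0 < Real.log 2 := Real.log_pos (by norm_num)
  have hlim := (tendsto_pow_const_div_const_pow_of_one_lt 1 (show (1 : ℝ) < 2 by norm_num)).eventually_lt_const
    (show (0 : ℝ) < ε * eg by exact mul_pos hε eg_pos)
  filter_upwards [loglog_near hε, eventually_gt_atTop 0, (PH.log_top').eventually_gt_atTop 0, hlim] with k h3 h6 h7 h8 n hn
  have hk : (0 : ℝ) < k := by exact_mod_cast h6
  have hk7 : 0 < Real.log (k : ℝ) := h7
  have h12 := eg_pos
  unfold PH.cand at hn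
  rw [mem_filter, mem_Icc, log_two_pow] at hn
  obtain ⟨⟨h1, h2⟩, h4⟩ := hn
  have h0 : n ≠ 0 := by
    have : 0 < 2 ^ k := by positivity
    omega
  have h5 := (Nat.le_floor_iff' h0).1 h2
  push_cast at h5
  have hX : (0 : ℝ) < 2 ^ k := by positivity
  have hn1 : (2 : ℝ) ^ k ≤ n := by exact_mod_cast h1
  have hl : k * Real.log 2 ≤ Real.log n := by
    rw [← log_two_pow]
    exact Real.log_le_log (by positivity) (by exact_mod_cast h1)
  have hkl : 0 < (k : ℝ) * Real.log 2 := by positivity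
  have h9 : (Nat.totient n : ℝ) ≤ (1 + 6 * ε) * (eg * 2 ^ k / Real.log k) := by
    refine h4.trans ?_
    have h10 : (n : ℝ) / Real.log (k * Real.log 2) ≤ (1 + ε) * 2 ^ k / ((1 - ε) * Real.log k) :=
      div_le_div₀ (by positivity) h5 (mul_pos (by linarith) hk7) h3.2.2
    have h11 : (1 + ε) * eg * ((n : ℝ) / Real.log (k * Real.log 2)) ≤ (1 + ε) * eg * ((1 + ε) * 2 ^ k / ((1 - ε) * Real.log k)) :=
      mul_le_mul_of_nonneg_left h10 (by positivity)
    refine h11.trans ?_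
    have h13 : (1 + ε) * (1 + ε) ≤ (1 + 6 * ε) * (1 - ε) := by nlinarith
    rw [mul_div_assoc', mul_div_assoc', div_le_div_iff₀ (mul_pos (by linarith) hk7) hk7]
    have h14 : (1 + ε) * (1 + ε) * (eg * 2 ^ k * Real.log k) ≤ (1 + 6 * ε) * (1 - ε) * (eg * 2 ^ k * Real.log k) :=
      mul_le_mul_of_nonneg_right h13 (by positivity)
    linarith
  have h10 : (1 : ℝ) ≤ 2 * ε * (eg * 2 ^ k / Real.log k) := by
    rw [div_lt_iff₀ hX, pow_one] at h8
    rw [mul_div_assoc', le_div_iff₀ hk7]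
    have h11 : Real.log (k : ℝ) ≤ k := by
      have := Real.log_le_sub_one_of_pos hk
      linarith
    have h13 : 0 < ε * eg * 2 ^ k := by positivity
    linarith
  unfold tE unit
  rw [div_le_iff₀ (by linarith)]
  have e : (1 + 8 * ε) * (eg * 2 ^ k / (2 * Real.log 2 * k * Real.log k)) * (2 * (k * Real.log 2)) =
      (1 + 8 * ε) * (eg * 2 ^ k / Real.log k) := by
    field_simp
  have h11 : (1 + 8 * ε) * (eg * 2 ^ k / (2 * Real.log 2 * k * Real.log k)) * (2 * (k * Real.log 2)) ≤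
      (1 + 8 * ε) * (eg * 2 ^ k / (2 * Real.log 2 * k * Real.log k)) * (2 * Real.log n) := by
    apply mul_le_mul_of_nonneg_left (by linarith)
    positivity
  rw [e] at h11
  linarith

/-- The asymptotic formula of the cost. -/
theorem cost_law {ε δ : ℝ} (hε : 0 < ε) (hδ : 0 < δ) : ∀ᶠ k : ℕ in atTop, ∀ M : ℕ, 1 ≤ M → (M : ℝ) ≤ 2 ^ ((1 - δ) * (k : ℝ)) →
    (1 - ε) * (M * unit k) ≤ cost tE (block k) M ∧ cost tE (block k) M ≤ (1 + ε) * (M * unit k) := by
  obtain ⟨η, hη⟩ : ∃ η : ℝ, η = min ε (1 / 2) / 8 := ⟨_, rfl⟩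
  have hη0 : 0 < η := by rw [hη]; positivity
  have hη1 : 8 * η ≤ ε := by rw [hη]; have := min_le_left ε (1 / 2); linarith
  have hη2 : η ≤ 1 / 16 := by rw [hη]; have := min_le_right ε (1 / 2); linarith
  obtain ⟨c, hc⟩ : ∃ c : ℝ, c = min δ 1 / 2 := ⟨_, rfl⟩
  have hc0 : 0 < c := by rw [hc]; exact div_pos (lt_min hδ one_pos) (by norm_num)
  have hc1 : c < 1 := by rw [hc]; have := min_le_right δ 1; linarith
  have hcδ : c < δ := by rw [hc]; have := min_le_left δ 1; linarith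
  have hlim : Tendsto (fun k : ℕ => (2 : ℝ) ^ ((δ - c) * (k : ℝ))) atTop atTop := by
    have h1 : Tendsto (fun k : ℕ => (δ - c) * (k : ℝ)) atTop atTop :=
      tendsto_natCast_atTop_atTop.const_mul_atTop (by linarith)
    have h2 : Tendsto (fun k : ℕ => Real.exp (Real.log 2 * ((δ - c) * (k : ℝ)))) atTop atTop :=
      Real.tendsto_exp_atTop.comp (h1.const_mul_atTop (Real.log_pos (by norm_num)))
    refine h2.congr (fun k => ?_)
    rw [Real.rpow_def_of_pos (by norm_num)]
  filter_upwards [tE_ge hη0 (by linarith), tE_le hη0 hη2, two_top.eventually (cand_card hη0 hc0 hc1), unit_pos,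
    hlim.eventually_ge_atTop (2 / η)] with k h1 h2 h3 h4 h5 M hM hMk
  have hM0 : (0 : ℝ) < M := by exact_mod_cast hM
  have hcard : (M : ℝ) ≤ (cand η (2 ^ k)).card := by
    refine hMk.trans (le_trans ?_ h3)
    have e1 : (((2 ^ k : ℕ)) : ℝ) ^ (1 - c) = 2 ^ ((1 - c) * (k : ℝ)) := by
      push_cast
      rw [← Real.rpow_natCast, ← Real.rpow_mul (by norm_num)]
      congr 1
      ring
    rw [e1]
    have e2 : (2 : ℝ) ^ ((1 - c) * (k : ℝ)) = 2 ^ ((1 - δ) * (k : ℝ)) * 2 ^ ((δ - c) * (k : ℝ)) := by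
      rw [← Real.rpow_add (by norm_num)]
      congr 1
      ring
    rw [e2]
    have h6 : 0 < (2 : ℝ) ^ ((1 - δ) * (k : ℝ)) := by positivity
    rw [div_le_iff₀ hη0] at h5
    nlinarith
  have hcard' : M ≤ (cand η (2 ^ k)).card := by exact_mod_cast hcard
  have hcb : cand η (2 ^ k) ⊆ block k := cand_block (by linarith) k
  constructor
  · have h6 := le_cost (e := tE) (I := block k) (M := M) (hcard'.trans (card_le_card hcb)) h1
    refine le_trans ?_ h6
    have h7 : 0 < M * unit k := by positivity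
    nlinarith
  · obtain ⟨J, hJ, hJM⟩ := exists_subset_card_eq hcard'
    have h6 := cost_le (e := tE) (hJ.trans hcb)
    rw [hJM] at h6
    refine h6.trans ?_
    have h7 : ∑ n ∈ J, tE n ≤ ∑ n ∈ J, (1 + 8 * η) * unit k := sum_le_sum (fun n hn => h2 n (hJ hn))
    rw [sum_const, hJM, nsmul_eq_mul] at h7
    refine h7.trans ?_
    have h8 : 0 < M * unit k := by positivity
    nlinarith

end Pool.Agent.Q197.WN
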