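import Pool.Agent.Q197.WN.Event

/-!
# A weighted Chernoff bound, and the budget of an arbitrary event of the blocks
-/

set_option autoImplicit false

namespace Pool.Agent.Q197.WN

open Finset MeasureTheory Filter Pool.Agent.Q120.TT Pool.Agent.Q120.ET Pool.Agent.Q120.GM
open scoped Topology

open Classical in
/-- The total weight of the bad windows is at least `C` with probability at most `exp (1 - C)`. -/
theorem wt_chern {p : ℕ → ℝ} (hp : ∀ n, 0 ≤ p n ∧ p n ≤ 1) (W : ℕ → Finset ℕ) (I : Finset ℕ)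
    (hW : ∀ i ∈ I, ∀ j ∈ I, i ≠ j → Disjoint (W i) (W j)) (Q : ℕ → Finset ℕ → Prop) (e : ℕ → ℝ)
    (hQ : ∀ i ∈ I, PP p (W i) (Q i) ≤ Real.exp (-e i) / I.card) (C : ℝ) :
    PP p (I.biUnion W) (fun T => C ≤ ∑ i ∈ I.filter (fun i => Q i (T ∩ W i)), e i) ≤ Real.exp (1 - C) := by
  have h1 : PP p (I.biUnion W) (fun T => C ≤ ∑ i ∈ I.filter (fun i => Q i (T ∩ W i)), e i) ≤
      PP p (I.biUnion W) (fun T => ∃ J ∈ I.powerset.filter (fun J => C ≤ ∑ i ∈ J, e i), ∀ i ∈ J, Q i (T ∩ W i)) := by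
    refine PP_mono hp (fun T _ h => ⟨_, mem_filter.2 ⟨mem_powerset.2 (filter_subset _ _), h⟩, fun i hi => (mem_filter.1 hi).2⟩)
  refine h1.trans ((PP_exists_le hp _ _).trans ?_)
  have h2 : ∀ J ∈ I.powerset.filter (fun J => C ≤ ∑ i ∈ J, e i),
      PP p (I.biUnion W) (fun T => ∀ i ∈ J, Q i (T ∩ W i)) ≤ Real.exp (-C) * ∏ _i ∈ J, ((I.card : ℝ))⁻¹ := by
    intro J hJ
    rw [mem_filter, mem_powerset] at hJ
    rw [PP_windows W hJ.1 hW Q]
    have h3 : ∏ i ∈ J, PP p (W i) (Q i) ≤ ∏ i ∈ J, (Real.exp (-e i) * ((I.card : ℝ))⁻¹) :=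
      prod_le_prod (fun i _ => PP_nonneg hp) (fun i hi => by rw [← div_eq_mul_inv]; exact hQ i (hJ.1 hi))
    refine h3.trans ?_
    rw [prod_mul_distrib]
    refine mul_le_mul_of_nonneg_right ?_ (prod_nonneg (fun _ _ => by positivity))
    rw [← Real.exp_sum, sum_neg_distrib]
    exact Real.exp_le_exp.2 (by linarith [hJ.2])
  refine (sum_le_sum h2).trans ?_
  rw [← mul_sum]
  have h3 : ∑ J ∈ I.powerset.filter (fun J => C ≤ ∑ i ∈ J, e i), ∏ _i ∈ J, ((I.card : ℝ))⁻¹ ≤ Real.exp 1 := by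
    have h4 : ∑ J ∈ I.powerset.filter (fun J => C ≤ ∑ i ∈ J, e i), ∏ _i ∈ J, ((I.card : ℝ))⁻¹ ≤
        ∑ J ∈ I.powerset, ∏ _i ∈ J, ((I.card : ℝ))⁻¹ :=
      sum_le_sum_of_subset_of_nonneg (filter_subset _ _) (fun _ _ _ => prod_nonneg (fun _ _ => by positivity))
    refine h4.trans ?_
    rw [← prod_one_add, prod_const]
    have h5 : 1 + ((I.card : ℝ))⁻¹ ≤ Real.exp ((I.card : ℝ))⁻¹ := by
      have := Real.add_one_le_exp ((I.card : ℝ))⁻¹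
      linarith
    refine (pow_le_pow_left₀ (by positivity) h5 _).trans ?_
    rw [← Real.exp_nat_mul]
    apply Real.exp_le_exp.2
    rcases Nat.eq_zero_or_pos I.card with h | h
    · rw [h]; simp
    · have : (0 : ℝ) < I.card := by exact_mod_cast h
      rw [mul_inv_cancel₀ this.ne']
  calc Real.exp (-C) * _ ≤ Real.exp (-C) * Real.exp 1 := mul_le_mul_of_nonneg_left h3 (Real.exp_pos _).le
    _ = Real.exp (1 - C) := by rw [← Real.exp_add]; ring_nf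

/-- The price of an event of one block. -/
theorem ev_price {p : ℕ → ℝ} (hp : ∀ n, 0 ≤ p n ∧ p n ≤ 1) {B : Finset ℕ} (hB : ∀ n ∈ B, p n ≤ 1 / 2)
    {F : Finset ℕ → Prop} {v : ℝ} (hF : PP p B F ≤ Real.exp (-v)) {Ω : Type} [MeasurableSpace Ω] {μ : Measure Ω}
    [IsProbabilityMeasure μ] {A : Ω → Set ℕ} (hA : IsRandomSet A) (hs : ∀ᵐ ω ∂μ, ∀ n ∈ A ω, 0 < p n) :
    v * μ.real {ω | F (tr A B ω)} ≤ 1 + relEnt p μ A B := by
  have h := event_up hp hB hF (μ := μ) hA hs v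
  simpa using h

/-- The positive half of the budget. -/
theorem ev_few {p : ℕ → ℝ} (hp : ∀ n, 0 ≤ p n ∧ p n ≤ 1) {B : ℕ → Finset ℕ} (hB : ∀ᶠ k : ℕ in atTop, ∀ n ∈ B k, p n ≤ 1 / 2)
    {F : ℕ → Finset ℕ → Prop} {v : ℕ → ℝ} (hF : ∀ᶠ k : ℕ in atTop, PP p (B k) (F k) ≤ Real.exp (-v k))
    (hv : ∀ᶠ k : ℕ in atTop, (k : ℝ) ^ 2 ≤ v k) {d : ℕ → ℝ} (hs : Summable (fun k => d k / v k)) {Ω : Type}
    [MeasurableSpace Ω] {μ : Measure Ω} [IsProbabilityMeasure μ] {A : Ω → Set ℕ} (hA : Near p B d μ A) :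
    ∀ᵐ ω ∂μ, ∀ᶠ k : ℕ in atTop, ¬ F k (tr A (B k) ω) := by
  obtain ⟨g, hg, hg2⟩ := summable_ratio hv hs one_pos
  have h1 : ∀ᶠ k : ℕ in atTop, μ.real {ω | F k (tr A (B k) ω)} ≤ g k := by
    filter_upwards [hF, hg2, hv, hA.ent, hB, eventually_ge_atTop 1] with k hk hgk hvk hent hBk hk1
    have hk0 : (0 : ℝ) < k := by exact_mod_cast hk1
    have hv0 : 0 < v k := lt_of_lt_of_le (by positivity) hvk
    refine le_trans ?_ hgk
    rw [one_mul, le_div_iff₀ hv0]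
    have := ev_price hp hBk hk (μ := μ) hA.rand hA.supp
    linarith
  filter_upwards [bc hg h1] with ω hω
  filter_upwards [hω] with k hk
  exact hk

/-- The negative half of the budget. -/
theorem ev_often {p : ℕ → ℝ} (hp : ∀ n, 0 ≤ p n ∧ p n ≤ 1) {B : ℕ → Finset ℕ} (hBd : ∀ i j, i ≠ j → Disjoint (B i) (B j))
    {F : ℕ → Finset ℕ → Prop} {v : ℕ → ℝ} (hF : ∀ᶠ k : ℕ in atTop, Real.exp (-v k) ≤ PP p (B k) (F k))
    (hv : ∀ᶠ k : ℕ in atTop, 0 < v k) {d : ℕ → ℝ} (hd : ∀ k, 0 ≤ d k) (hs : ¬ Summable (fun k => d k / v k)) :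
    ∃ (Ω : Type) (_ : MeasurableSpace Ω) (μ : Measure Ω) (_ : IsProbabilityMeasure μ) (A : Ω → Set ℕ),
      Near p B d μ A ∧ ∀ᵐ ω ∂μ, ∃ᶠ k : ℕ in atTop, F k (tr A (B k) ω) := by
  obtain ⟨q, hq⟩ : ∃ q : ℕ → ℝ, q = fun k => min 1 (|d k / v k|) := ⟨_, rfl⟩
  have hq0 : ∀ k, 0 ≤ q k := fun k => by rw [hq]; exact le_min zero_le_one (abs_nonneg _)
  have hq1 : ∀ k, q k ≤ 1 := fun k => by rw [hq]; exact min_le_left _ _
  obtain ⟨Ω, mΩ, μ, hμ, A, hA1, hA2, hA3, hA4, hA5⟩ := event_down hp hBd hF hq0 hq1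
  refine ⟨Ω, mΩ, μ, hμ, A, ⟨hA1, hA2, ?_⟩, ?_⟩
  · filter_upwards [hA3, hv] with k hk hvk
    refine hk.trans ?_
    have h1 : q k ≤ d k / v k := by
      rw [hq]
      exact (min_le_right _ _).trans (le_of_eq (abs_of_nonneg (div_nonneg (hd k) hvk.le)))
    calc q k * v k ≤ d k / v k * v k := mul_le_mul_of_nonneg_right h1 hvk.le
      _ = d k := by field_simp
  · apply hA5
    rw [hq]
    apply not_summable_min
    intro hcon
    apply hs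
    refine Summable.of_norm_bounded_eventually_nat hcon ?_
    filter_upwards with k
    exact le_rfl

/-- The budget of an event of the blocks. -/
theorem ev_iff {p : ℕ → ℝ} (hp : ∀ n, 0 ≤ p n ∧ p n ≤ 1) {B : ℕ → Finset ℕ} (hBd : ∀ i j, i ≠ j → Disjoint (B i) (B j))
    (hB : ∀ᶠ k : ℕ in atTop, ∀ n ∈ B k, p n ≤ 1 / 2) {F : ℕ → Finset ℕ → Prop} {v : ℕ → ℝ} {c C : ℝ} (hc : 0 < c) (hC : 0 < C)
    (hF : ∀ᶠ k : ℕ in atTop, PP p (B k) (F k) ≤ Real.exp (-(c * v k)))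
    (hF2 : ∀ᶠ k : ℕ in atTop, Real.exp (-(C * v k)) ≤ PP p (B k) (F k))
    (hv : ∀ᶠ k : ℕ in atTop, (k : ℝ) ^ 2 ≤ c * v k) {d : ℕ → ℝ} (hd : ∀ k, 0 ≤ d k) :
    (Summable (fun k => d k / v k) ↔ ∀ (Ω : Type) [MeasurableSpace Ω] (μ : Measure Ω) [IsProbabilityMeasure μ]
      (A : Ω → Set ℕ), Near p B d μ A → ∀ᵐ ω ∂μ, ∀ᶠ k : ℕ in atTop, ¬ F k (tr A (B k) ω)) ∧
    (¬ Summable (fun k => d k / v k) → ∃ (Ω : Type) (_ : MeasurableSpace Ω) (μ : Measure Ω) (_ : IsProbabilityMeasure μ)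
      (A : Ω → Set ℕ), Near p B d μ A ∧ ∀ᵐ ω ∂μ, ∃ᶠ k : ℕ in atTop, F k (tr A (B k) ω)) := by
  have hv0 : ∀ᶠ k : ℕ in atTop, 0 < v k := by
    filter_upwards [hv, eventually_ge_atTop 1] with k hk hk1
    have hk0 : (0 : ℝ) < k := by exact_mod_cast hk1
    have h1 : 0 < c * v k := lt_of_lt_of_le (by positivity) hk
    exact (mul_pos_iff_of_pos_left hc).1 h1
  have hC2 : ∀ᶠ k : ℕ in atTop, 0 < C * v k := by
    filter_upwards [hv0] with k hk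
    positivity
  have hneg : ¬ Summable (fun k => d k / v k) → ∃ (Ω : Type) (_ : MeasurableSpace Ω) (μ : Measure Ω)
      (_ : IsProbabilityMeasure μ) (A : Ω → Set ℕ), Near p B d μ A ∧ ∀ᵐ ω ∂μ, ∃ᶠ k : ℕ in atTop, F k (tr A (B k) ω) := by
    intro hs
    apply ev_often hp hBd hF2 hC2 hd
    intro hcon
    apply hs
    have h1 := hcon.mul_left C
    refine h1.congr (fun k => ?_)
    field_simp
  refine ⟨⟨fun hs Ω _ μ _ A hA => ?_, fun h => ?_⟩, hneg⟩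
  · have h1 : Summable (fun k => d k / (c * v k)) := by
      refine (hs.mul_left (1 / c)).congr (fun k => ?_)
      field_simp
    exact ev_few hp hB hF hv h1 hA
  · by_contra hs
    obtain ⟨Ω, mΩ, μ, hμ, A, hA, hA2⟩ := hneg hs
    have h1 := h Ω μ A hA
    have h2 : ∀ᵐ ω ∂μ, False := by
      filter_upwards [h1, hA2] with ω hω hω2
      obtain ⟨k, hk1, hk2⟩ := (hω2.and_eventually hω).exists
      exact hk2 hk1
    rw [ae_iff] at h2
    simp at h2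

end Pool.Agent.Q197.WN
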